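import Pool.Graph.R_seed8.H419R2.A3

/-! Orders `ℤ[√d]`, `d ≡ 2, 3 (mod 4)` squarefree, presented as `ℤ[ω]`, `ω² = R + m ω`, `m` even. -/

set_option linter.style.haveILetI false

namespace Pool.Agent.H449

open H419R2 QuadraticAlgebra Module

variable {K : Type*} [Field K] [NumberField K]

/-- integral elements of `ℚ(√d)`, `d ≡ 2, 3 (mod 4)` squarefree -/
theorem integral_coords_even {d : ℤ} (hsf : Squarefree d) (hd1 : 1 < d) (hd4 : d % 4 = 2 ∨ d % 4 = 3)
    (hK : finrank ℚ K = 2) {x : K} (hx : x ^ 2 = (d : K)) {y : K} (hy : IsIntegral ℤ y) :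
    ∃ u w : ℤ, y = (u : K) + (w : K) * x := by
  have hns := not_sq_of_squarefree hsf hd1
  obtain ⟨p, q, rfl⟩ := exists_coords hns hK hx y
  by_cases hq : q = 0
  · subst hq
    simp only [Rat.cast_zero, zero_mul, add_zero] at hy
    have hp : IsIntegral ℤ p := by
      have : IsIntegral ℤ (algebraMap ℚ K p) := by simpa using hy
      exact (isIntegral_algebraMap_iff (algebraMap ℚ K).injective).mp this
    obtain ⟨n, hn⟩ := IsIntegrallyClosed.isIntegral_iff.mp hp
    have hn' : (n : ℚ) = p := by simpa using hn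
    refine ⟨n, 0, ?_⟩
    rw [← hn']
    push_cast
    ring
  · obtain ⟨⟨a, ha⟩, ⟨b, hb⟩⟩ := two_int_of_integral hns hx hq hy
    have h4 : (d : ℚ) * (2 * q) ^ 2 = ((a ^ 2 - 4 * b : ℤ) : ℚ) := by
      push_cast
      rw [ha, hb]; ring
    obtain ⟨c, hc⟩ := int_of_squarefree_mul_sq hsf h4
    have h5 : d * c ^ 2 = a ^ 2 - 4 * b := by
      rw [← hc] at h4
      exact_mod_cast h4
    have hpar : a % 2 = 0 ∧ c % 2 = 0 := by
      have e1 : a ^ 2 % 4 = 0 ∧ a % 2 = 0 ∨ a ^ 2 % 4 = 1 ∧ a % 2 = 1 := by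
        rcases Int.emod_two_eq_zero_or_one a with h | h
        · left; refine ⟨?_, h⟩
          obtain ⟨k, hk⟩ : ∃ k, a = 2 * k := ⟨a / 2, by omega⟩
          rw [hk]; ring_nf; omega
        · right; refine ⟨?_, h⟩
          obtain ⟨k, hk⟩ : ∃ k, a = 2 * k + 1 := ⟨a / 2, by omega⟩
          rw [hk]; ring_nf; omega
      have e2 : c ^ 2 % 4 = 0 ∧ c % 2 = 0 ∨ c ^ 2 % 4 = 1 ∧ c % 2 = 1 := by
        rcases Int.emod_two_eq_zero_or_one c with h | h
        · left; refine ⟨?_, h⟩
          obtain ⟨k, hk⟩ : ∃ k, c = 2 * k := ⟨c / 2, by omega⟩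
          rw [hk]; ring_nf; omega
        · right; refine ⟨?_, h⟩
          obtain ⟨k, hk⟩ : ∃ k, c = 2 * k + 1 := ⟨c / 2, by omega⟩
          rw [hk]; ring_nf; omega
      have e3 : (d * c ^ 2) % 4 = ((d % 4) * (c ^ 2 % 4)) % 4 := by rw [Int.mul_emod]
      have e4 : (d * c ^ 2) % 4 = a ^ 2 % 4 := by rw [h5]; omega
      rcases e1 with ⟨f1, f2⟩ | ⟨f1, f2⟩ <;> rcases e2 with ⟨g1, g2⟩ | ⟨g1, g2⟩ <;>
        rcases hd4 with h | h <;> rw [e3, f1, g1, h] at e4 <;> norm_num at e4
      · exact ⟨f2, g2⟩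
      · exact ⟨f2, g2⟩
    obtain ⟨u, hu⟩ : ∃ u, a = 2 * u := ⟨a / 2, by omega⟩
    obtain ⟨w, hw⟩ : ∃ w, c = 2 * w := ⟨c / 2, by omega⟩
    refine ⟨u, w, ?_⟩
    have hp : p = (u : ℚ) := by
      have : (a : ℚ) = 2 * u := by rw [hu]; push_cast; ring
      rw [this] at ha; linarith
    have hq' : q = (w : ℚ) := by
      have : (c : ℚ) = 2 * w := by rw [hw]; push_cast; ring
      rw [this] at hc; linarith
    rw [hp, hq']
    push_cast
    ring

theorem not_sq_four {d : ℤ} (h : ¬ ∃ q : ℚ, q ^ 2 = d) : ¬ ∃ q : ℚ, q ^ 2 = ((4 * d : ℤ) : ℚ) := by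
  rintro ⟨q, hq⟩
  apply h
  refine ⟨q / 2, ?_⟩
  push_cast at hq
  linarith

/-- the order `ℤ[ω]` is a PID when the class number is one -/
theorem pid_even {m R d : ℤ} (hDm : 4 * d = m ^ 2 + 4 * R) (hsf : Squarefree d) (hd1 : 1 < d)
    (hd4 : d % 4 = 2 ∨ d % 4 = 3) (hK : finrank ℚ K = 2) {x : K}
    (hx : x ^ 2 = (d : K)) (hcl : NumberField.classNumber K = 1) :
    IsPrincipalIdealRing (QA R m) := by
  have hns := not_sq_of_squarefree hsf hd1
  have hm2 : m % 2 = 0 := by
    rcases Int.emod_two_eq_zero_or_one m with h | h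
    · exact h
    · exfalso
      obtain ⟨k, hk⟩ : ∃ k, m = 2 * k + 1 := ⟨m / 2, by omega⟩
      rw [hk] at hDm
      ring_nf at hDm
      omega
  obtain ⟨a, ha⟩ : ∃ a, m = 2 * a := ⟨m / 2, by omega⟩
  have hx2 : (2 * x) ^ 2 = ((4 * d : ℤ) : K) := by
    push_cast
    linear_combination 4 * hx
  have hω : ((m : K) + 2 * x) / 2 = (a : K) + x := by
    rw [ha]; push_cast; ring
  have hxr : ∀ p q : ℤ, (p : K) + (q : K) * ((a : K) + x) = 0 → p = 0 ∧ q = 0 := by
    intro p q h
    by_cases hq : q = 0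
    · subst hq
      simp at h
      exact ⟨h, rfl⟩
    · exfalso
      apply hns
      refine ⟨-(p + q * a) / q, ?_⟩
      have hq' : (q : K) ≠ 0 := by exact_mod_cast hq
      have hxe : x = ((-(p + q * a) / q : ℚ) : K) := by
        push_cast
        rw [eq_div_iff hq']
        linear_combination h
      have h3 : (((-(p + q * a) / q) ^ 2 : ℚ) : K) = ((d : ℚ) : K) := by
        push_cast
        rw [hxe] at hx
        push_cast at hx
        exact hx
      exact_mod_cast h3
  letI : Algebra (QA R m) K := (emb hDm hx2).toRingHom.toAlgebra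
  have hmap : ∀ z : QA R m, algebraMap (QA R m) K z =
      (z.re : K) + (z.im : K) * ((a : K) + x) := fun z => by
    rw [← hω]; exact emb_apply hDm hx2 z
  haveI : IsIntegralClosure (QA R m) ℤ K := by
    refine ⟨?_, ?_⟩
    · intro z w hzw
      rw [hmap, hmap] at hzw
      have := hxr (z.re - w.re) (z.im - w.im) (by push_cast; linear_combination hzw)
      ext
      · linarith [this.1]
      · linarith [this.2]
    · intro y
      constructor
      · intro hy
        obtain ⟨u, w, h⟩ := integral_coords_even hsf hd1 hd4 hK hx hy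
        refine ⟨⟨u - w * a, w⟩, ?_⟩
        rw [hmap, h]
        push_cast
        ring
      · rintro ⟨z, rfl⟩
        have : IsIntegral ℤ z := by
          refine ⟨Polynomial.X ^ 2 - Polynomial.C (QuadraticAlgebra.trace z) * Polynomial.X
            + Polynomial.C (QuadraticAlgebra.norm z), ?_, ?_⟩
          · monicity!
          · rw [← Polynomial.aeval_def]
            simp only [map_add, map_sub, map_pow, map_mul, Polynomial.aeval_X, Polynomial.aeval_C]
            have := QuadraticAlgebra.sq_sub_trace_smul_add_norm_eq_zero z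
            simpa [Algebra.smul_def] using this
        exact this.map (emb hDm hx2)
  haveI : IsScalarTower ℤ (QA R m) K := IsScalarTower.of_algebraMap_eq (fun n => by simp)
  have e : NumberField.RingOfIntegers K ≃ₐ[ℤ] QA R m :=
    IsIntegralClosure.equiv ℤ (NumberField.RingOfIntegers K) K (QA R m)
  rw [NumberField.classNumber_eq_one_iff] at hcl
  exact IsPrincipalIdealRing.of_surjective e.toRingEquiv e.surjective

end Pool.Agent.H449
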