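import Pool.Agent.H449.A1

/-! The Kronecker symbol of an even discriminant and the number of ideals of given norm. -/

set_option linter.style.haveILetI false

namespace Pool.Agent.H449

open H419R2 QuadraticAlgebra Module

/-- an abstract quadratic symbol of period `D` -/
structure QC (D : ℕ) (χ : ℕ → ℤ) : Prop where
  h0 : χ 0 = 0
  h1 : χ 1 = 1
  tri : ∀ n, χ n = 0 ∨ χ n = 1 ∨ χ n = -1
  mul : ∀ a b, χ (a * b) = χ a * χ b
  per : ∀ n, χ (n + D) = χ n
  neg : ∃ c : ℕ, c.Coprime D ∧ χ c = -1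

/-- the symbol `(4 d / n)` -/
def ks (d n : ℕ) : ℤ := if n % 2 = 0 then 0 else jacobiSym (d : ℤ) n

theorem ks_two (d : ℕ) : ks d 2 = 0 := by simp [ks]

theorem ks_odd {d n : ℕ} (h : n % 2 = 1) : ks d n = jacobiSym (d : ℤ) n := by
  simp [ks, h]

theorem ks_mul (d a b : ℕ) : ks d (a * b) = ks d a * ks d b := by
  unfold ks
  rcases Nat.mod_two_eq_zero_or_one a with ha | ha
  · simp [Nat.mul_mod, ha]
  · rcases Nat.mod_two_eq_zero_or_one b with hb | hb
    · simp [Nat.mul_mod, hb]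
    · rw [if_neg (by simp [Nat.mul_mod, ha, hb]), if_neg (by omega), if_neg (by omega)]
      have ha0 : NeZero a := ⟨by omega⟩
      have hb0 : NeZero b := ⟨by omega⟩
      exact jacobiSym.mul_right _ _ _

theorem ks_per (d n : ℕ) : ks d (n + 4 * d) = ks d n := by
  unfold ks
  have h : (n + 4 * d) % 2 = n % 2 := by omega
  rw [h]
  split_ifs with h1
  · rfl
  · have ho : Odd n := Nat.odd_iff.mpr (by omega)
    have ho' : Odd (n + 4 * d) := Nat.odd_iff.mpr (by omega)
    rw [jacobiSym.mod_right _ ho, jacobiSym.mod_right _ ho']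
    congr 1
    rw [Int.natAbs_natCast]
    exact Nat.add_mod_right _ _

theorem ks_neg {d : ℕ} (h : d % 4 = 2 ∨ d % 4 = 3) : ks d (2 * d + 1) = -1 := by
  rw [ks_odd (by omega)]
  have hodd : Odd (2 * d + 1) := Nat.odd_iff.mpr (by omega)
  rcases h with h | h
  · obtain ⟨e, he⟩ : ∃ e, d = 2 * e := ⟨d / 2, by omega⟩
    have he2 : e % 2 = 1 := by omega
    have h1 : ((d : ℕ) : ℤ) = 2 * (e : ℤ) := by rw [he]; push_cast; ring
    rw [h1, jacobiSym.mul_left, jacobiSym.at_two hodd, ZMod.χ₈_nat_eq_if_mod_eight]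
    have h3 : (2 * d + 1) % 8 = 5 := by omega
    rw [h3]
    have h4 : jacobiSym (e : ℤ) (2 * d + 1) = 1 := by
      rw [jacobiSym.quadratic_reciprocity_one_mod_four' (Nat.odd_iff.mpr he2) (by omega)]
      have h5 : jacobiSym ((2 * d + 1 : ℕ) : ℤ) e = jacobiSym 1 e := by
        apply jacobiSym.mod_left'
        rw [he]; push_cast
        have : (2 * (2 * (e : ℤ)) + 1) = 1 + e * 4 := by ring
        rw [this]
        exact Int.add_mul_emod_self_left _ _ _
      rw [h5, jacobiSym.one_left]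
    rw [h4]
    norm_num
  · have h1 : jacobiSym (d : ℤ) (2 * d + 1) = - jacobiSym ((2 * d + 1 : ℕ) : ℤ) d := by
      exact jacobiSym.quadratic_reciprocity_three_mod_four h (by omega)
    rw [h1]
    have h5 : jacobiSym ((2 * d + 1 : ℕ) : ℤ) d = jacobiSym 1 d := by
      apply jacobiSym.mod_left'
      push_cast
      have : (2 * (d : ℤ) + 1) = 1 + d * 2 := by ring
      rw [this]
      exact Int.add_mul_emod_self_left _ _ _
    rw [h5, jacobiSym.one_left]

theorem ks_qc {d : ℕ} (h : d % 4 = 2 ∨ d % 4 = 3) : QC (4 * d) (ks d) where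
  h0 := by simp [ks]
  h1 := by simp [ks]
  tri := by
    intro n
    unfold ks
    split_ifs
    · left; rfl
    · rcases jacobiSym.trichotomy (d : ℤ) n with h | h | h
      · left; exact h
      · right; left; exact h
      · right; right; exact h
  mul := ks_mul d
  per := ks_per d
  neg := by
    refine ⟨2 * d + 1, ?_, ks_neg h⟩
    have h1 : Nat.Coprime (2 * d + 1) (2 * d) :=
      (Nat.coprime_self_add_left).mpr (Nat.coprime_one_left _)
    have h2 : Nat.Coprime (2 * d + 1) 2 := by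
      rw [Nat.coprime_comm, Nat.coprime_two_left]; exact Nat.odd_iff.mpr (by omega)
    have h3 : 4 * d = 2 * (2 * d) := by ring
    rw [h3]
    exact Nat.Coprime.mul_right h2 h1

/-- `∑_{b ∣ n} χ b` -/
def rx (χ : ℕ → ℤ) (n : ℕ) : ℤ := ∑ b ∈ n.divisors, χ b

theorem rx_one {D : ℕ} {χ : ℕ → ℤ} (h : QC D χ) : rx χ 1 = 1 := by
  simp [rx, h.h1]

theorem rx_rec {χ : ℕ → ℤ} (hmul : ∀ a b, χ (a * b) = χ a * χ b) {l n : ℕ} (hl : l.Prime)
    (hn : n ≠ 0) :
    rx χ (l * n) = (1 + χ l) * rx χ n - χ l * (if l ∣ n then rx χ (n / l) else 0) := by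
  unfold rx
  rw [divisors_prime_mul hl hn]
  have h1 := Finset.sum_union_inter (s₁ := n.divisors)
    (s₂ := n.divisors.image (fun b => l * b)) (f := fun b : ℕ => χ b)
  have himg : ∀ s : Finset ℕ, ∑ b ∈ s.image (fun b => l * b), χ b = χ l * ∑ b ∈ s, χ b := by
    intro s
    rw [Finset.sum_image (by
      intro a _ b _ h
      exact Nat.eq_of_mul_eq_mul_left hl.pos h), Finset.mul_sum]
    apply Finset.sum_congr rfl
    intro b _
    rw [hmul]
  have hinter : ∑ b ∈ n.divisors ∩ n.divisors.image (fun b => l * b), χ b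
      = χ l * (if l ∣ n then ∑ b ∈ (n / l).divisors, χ b else 0) := by
    split_ifs with h
    · obtain ⟨k, rfl⟩ := h
      rw [Nat.mul_div_cancel_left _ hl.pos, ← himg]
      apply Finset.sum_congr _ (fun _ _ => rfl)
      have hk : k ≠ 0 := by rintro rfl; simp at hn
      ext b
      simp only [Nat.mem_divisors, Finset.mem_inter, Finset.mem_image]
      constructor
      · rintro ⟨⟨h1, _⟩, ⟨c, ⟨h2, _⟩, rfl⟩⟩
        exact ⟨c, ⟨Nat.dvd_of_mul_dvd_mul_left hl.pos h1, hk⟩, rfl⟩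
      · rintro ⟨c, ⟨h2, _⟩, rfl⟩
        exact ⟨⟨Nat.mul_dvd_mul_left l h2, hn⟩, ⟨c, ⟨h2.mul_left l, hn⟩, rfl⟩⟩
    · rw [mul_zero]
      apply Finset.sum_eq_zero
      intro b hb
      exfalso
      simp only [Nat.mem_divisors, Finset.mem_inter, Finset.mem_image] at hb
      obtain ⟨⟨h1, _⟩, ⟨c, _, rfl⟩⟩ := hb
      exact h ((Dvd.intro _ rfl).trans h1)
  rw [himg, hinter] at h1
  linarith

section

variable {R m : ℤ} {d : ℕ}

variable [IsDomain (QA R m)] [IsPrincipalIdealRing (QA R m)]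

theorem cnt_rec_even (hD : ((4 * d : ℕ) : ℤ) = m ^ 2 + 4 * R)
    {l : ℕ} (hl : l.Prime) (n : ℕ) :
    (cnt R m (l * n) : ℤ) = (1 + ks d l) * cnt R m n
      - ks d l * (if l ∣ n then (cnt R m (n / l) : ℤ) else 0) := by
  have hm2 : m % 2 = 0 := by
    rcases Int.emod_two_eq_zero_or_one m with h | h
    · exact h
    · exfalso
      obtain ⟨k, hk⟩ : ∃ k, m = 2 * k + 1 := ⟨m / 2, by omega⟩
      rw [hk] at hD
      push_cast at hD
      ring_nf at hD
      omega
  obtain ⟨a, ha⟩ : ∃ a, m = 2 * a := ⟨m / 2, by omega⟩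
  have hda : (d : ℤ) = a ^ 2 + R := by
    rw [ha] at hD
    push_cast at hD
    linarith
  by_cases h2 : l = 2
  · subst h2
    rw [ks_two]
    have hw : ∃ w0 : ℤ, ((2 : ℕ) : ℤ) ∣ w0 ^ 2 + m * w0 - R := by
      refine ⟨R, ?_⟩
      have e : R ^ 2 + m * R - R = R * (R - 1) + 2 * (a * R) := by rw [ha]; ring
      rw [e]
      have h3 : (2 : ℤ) ∣ R * (R - 1) := by
        rcases Int.emod_two_eq_zero_or_one R with h | h
        · exact Dvd.dvd.mul_right (Int.dvd_of_emod_eq_zero h) _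
        · exact Dvd.dvd.mul_left (by omega) _
      push_cast
      exact dvd_add h3 (Dvd.intro _ rfl)
    obtain ⟨w0, hw0⟩ := hw
    obtain ⟨p, hp⟩ := exists_norm_prime hl hw0
    have hlD : ((2 : ℕ) : ℤ) ∣ (((4 * d : ℕ)) : ℤ) := ⟨2 * d, by push_cast; ring⟩
    rw [cnt_ramified hl hp (span_eq_of_dvd hp hD hl hlD)]
    simp
  · have hodd : l % 2 = 1 := hl.eq_two_or_odd.resolve_left h2
    haveI := Fact.mk hl
    have h20 : (2 : ZMod l) ≠ 0 := by
      intro h3
      have : ((2 : ℕ) : ZMod l) = 0 := by exact_mod_cast h3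
      rw [ZMod.natCast_eq_zero_iff] at this
      exact h2 ((Nat.prime_dvd_prime_iff_eq hl Nat.prime_two).mp this)
    have hj : ks d l = legendreSym l (d : ℤ) := by
      rw [ks_odd hodd, jacobiSym.legendreSym.to_jacobiSym]
    have e4 : (((4 * d : ℕ) : ℤ) : ZMod l) = 4 * ((d : ℤ) : ZMod l) := by push_cast; rfl
    have h40 : (4 : ZMod l) ≠ 0 := by
      have : (4 : ZMod l) = 2 * 2 := by norm_num
      rw [this]; exact mul_ne_zero h20 h20
    rw [hj]
    by_cases hz : ((d : ℤ) : ZMod l) = 0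
    · rw [(legendreSym.eq_zero_iff l (d : ℤ)).mpr hz]
      have hz4 : (((4 * d : ℕ) : ℤ) : ZMod l) = 0 := by rw [e4, hz, mul_zero]
      obtain ⟨w0, hw0⟩ := root_of_square (R := R) (m := m) hl h2 hD (by rw [hz4]; exact ⟨0, by simp⟩)
      obtain ⟨p, hp⟩ := exists_norm_prime hl hw0
      have hlD : (l : ℤ) ∣ ((4 * d : ℕ) : ℤ) := (ZMod.intCast_zmod_eq_zero_iff_dvd _ l).mp hz4
      rw [cnt_ramified hl hp (span_eq_of_dvd hp hD hl hlD)]
      simp
    · have hz4 : (((4 * d : ℕ) : ℤ) : ZMod l) ≠ 0 := by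
        rw [e4]; exact mul_ne_zero h40 hz
      by_cases hs : IsSquare ((d : ℤ) : ZMod l)
      · rw [(legendreSym.eq_one_iff l hz).mpr hs]
        have hs4 : IsSquare (((4 * d : ℕ) : ℤ) : ZMod l) := by
          obtain ⟨r, hr⟩ := hs
          exact ⟨2 * r, by rw [e4, hr]; ring⟩
        obtain ⟨w0, hw0⟩ := root_of_square (R := R) (m := m) hl h2 hD hs4
        obtain ⟨p, hp⟩ := exists_norm_prime hl hw0
        have hlD : ¬ (l : ℤ) ∣ ((4 * d : ℕ) : ℤ) := by
          intro h
          exact hz4 ((ZMod.intCast_zmod_eq_zero_iff_dvd _ l).mpr h)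
        have h3 := cnt_split hl hp (span_ne_of_not_dvd hp hD hl h2 hlD) n
        split_ifs at h3 ⊢ <;> push_cast [← h3] <;> linarith
      · rw [(legendreSym.eq_neg_one_iff l).mpr hs]
        have hs4 : ¬ IsSquare (((4 * d : ℕ) : ℤ) : ZMod l) := by
          rintro ⟨r, hr⟩
          apply hs
          refine ⟨r / 2, ?_⟩
          rw [e4] at hr
          field_simp
          linear_combination hr
        rw [cnt_inert hl (inert_of_not_square hl h2 hD hs4)]
        split_ifs <;> simp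

theorem cnt_eq_rx (hD : ((4 * d : ℕ) : ℤ) = m ^ 2 + 4 * R) (hd4 : d % 4 = 2 ∨ d % 4 = 3)
    (n : ℕ) (hn : n ≠ 0) : (cnt R m n : ℤ) = rx (ks d) n := by
  induction n using Nat.strong_induction_on with
  | _ n ih =>
    by_cases h1 : n = 1
    · subst h1
      rw [cnt_one, rx_one (ks_qc hd4)]; simp
    · obtain ⟨l, hl, k, hk⟩ := Nat.exists_prime_and_dvd h1
      have hk0 : k ≠ 0 := by rintro rfl; simp at hk; exact hn hk
      have hkn : k < n := by
        rw [hk]
        have := hl.two_le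
        have : 0 < k := Nat.pos_of_ne_zero hk0
        nlinarith
      rw [hk, cnt_rec_even hD hl, rx_rec (ks_mul d) hl hk0, ih k hkn hk0]
      congr 2
      split_ifs with h
      · obtain ⟨j, hj⟩ := h
        have hj0 : j ≠ 0 := by rintro rfl; simp at hj; exact hk0 hj
        have : k / l = j := by rw [hj]; exact Nat.mul_div_cancel_left _ hl.pos
        rw [this]
        apply ih j _ hj0
        have : j ≤ k := by rw [hj]; exact Nat.le_mul_of_pos_left _ hl.pos
        omega
      · rfl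

end

end Pool.Agent.H449
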