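import Pool.Agent.H449.A3
import Pool.Graph.R_pool_sql_team_seeded_63374d34.N156.EP.A3

/-! The main identity for a cycle of even length, abstract symbol. -/

namespace Pool.Agent.H449

open H419R2 QuadraticAlgebra Module Finset Filter Topology
open Pool.Agent.N911 (dt fv hasSum_sigma_fin Ef Yf)
open Pool.Agent.N156.EP

variable {R m : ℤ}

/-- analytic comparison -/
theorem compareQ {R m : ℤ} [IsDomain (QA R m)] [IsPrincipalIdealRing (QA R m)]
    {P : Type*} (gen : P → QA R m) (hφ : Function.Injective (fun p => Ideal.span {gen p}))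
    (hr : ∀ I : Ideal (QA R m), I ≠ ⊥ ↔ I ∈ Set.range (fun p => Ideal.span {gen p}))
    {D q : ℕ} [NeZero q] {χ : ℕ → ℤ} (hχ : QC D χ)
    (hcnt : ∀ n, n ≠ 0 → (cnt R m n : ℤ) = rx χ n) (hD1 : 1 < D)
    (hcop : q.Coprime D) {F : ZMod q → ℝ} (hodd : ∀ x, F (-x) = -F x) {W : ℝ → ℝ} {c0 : ℝ}
    (hW : ∀ᶠ t in 𝓝[>] (0 : ℝ), HasSum (fun p => F (((QuadraticAlgebra.norm (gen p)).natAbs : ℕ)) *
      Real.exp (-(t * (QuadraticAlgebra.norm (gen p)).natAbs))) (W t))
    (hexp : HasExp W c0) :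
    (∑ l ∈ range (q * D), ∑ a ∈ range q, (l : ℝ) * a * χ l * F ((a * l : ℕ)))
        / (q * (q * D)) = c0 := by
  have hlim := Lside_limit hχ hD1 hcop hodd
  refine (hexp.congr ?_).unique hlim
  have hF0 : F 0 = 0 := by
    have := hodd 0
    rw [neg_zero] at this
    linarith
  filter_upwards [hW, self_mem_nhdsWithin] with t hWt ht
  have ht' : (0 : ℝ) < t := ht
  have hN : ∀ p, F (((QuadraticAlgebra.norm (gen p)).natAbs : ℕ)) *
      Real.exp (-(t * (QuadraticAlgebra.norm (gen p)).natAbs)) =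
      (fun n : ℕ => F n * Real.exp (-(t * n))) (Ideal.absNorm (Ideal.span {gen p})) := by
    intro p; rw [absNorm_span]
  rw [funext hN] at hWt
  have h1 := tsum_ideals (fun p => Ideal.span {gen p}) hφ hr
    (fun n : ℕ => F n * Real.exp (-(t * n))) (by simp [hF0]) hWt.summable
  have h2 := Lside_hasSum hχ (f := fun n : ℕ => F n) (by simp [hF0])
    (Φ := ∑ x : ZMod q, |F x|)
    (fun j => Finset.single_le_sum (f := fun x => |F x|) (fun _ _ => abs_nonneg _)
      (Finset.mem_univ _)) ht'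
  have h3 : (fun n : ℕ => F n * Real.exp (-(t * n)) * (cnt R m n : ℝ)) =
      (fun n : ℕ => F n * Real.exp (-(t * n)) * (rx χ n : ℝ)) := by
    funext n
    by_cases hn : n = 0
    · subst hn; simp [hF0]
    · have h4 := hcnt n hn
      have h5 : (cnt R m n : ℝ) = (rx χ n : ℝ) := by
        rw [← h4]; push_cast; rfl
      rw [h5]
  rw [h3] at h1
  have h6 := h1.unique h2
  rw [hWt.tsum_eq] at h6
  exact h6

/-- The main identity. -/
theorem main_identityQ (C : ECyc R m) [IsDomain (QA R m)] [IsPrincipalIdealRing (QA R m)]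
    {D N : ℕ} [NeZero N] {χ : ℕ → ℤ} (hχ : QC D χ)
    (hcnt : ∀ n, n ≠ 0 → (cnt R m n : ℤ) = rx χ n) (hD1 : 1 < D)
    (hcop : N.Coprime D) {F : ZMod N → ℝ} (hodd : ∀ x, F (-x) = -F x) :
    (∑ l ∈ range (N * D), ∑ a ∈ range N, (l : ℝ) * a * χ l * F ((a * l : ℕ)))
        / (N * (N * D)) = 2 * ∑ n ∈ range (2 * C.h), C.HH F n := by
  rw [← C.sum_C0' hodd]
  have hΦ : ∀ x, |F x| ≤ ∑ x : ZMod N, |F x| := fun x =>
    Finset.single_le_sum (f := fun x => |F x|) (fun _ _ => abs_nonneg _) (Finset.mem_univ x)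
  rw [← Fin.sum_univ_eq_sum_range
    (fun n => (C.wd n).C0 N (fun u w => F (C.fz N n u w))) (2 * C.h)]
  have hfz : ∀ n, (fun (u w : ℕ) => F (C.fz N n u w)) = (fun u w : ℕ => F ((C.q n : ZMod N) * (u : ZMod N) ^ 2 +
      (C.b n : ZMod N) * u * w + ((-C.q (n + 1) : ℤ) : ZMod N) * (w : ZMod N) ^ 2)) := by
    intro n
    funext u w
    congr 1
    unfold ECyc.fz
    push_cast; ring
  have hexpf : ∀ n, HasExp ((C.wd n).WS (fun u w => F (C.fz N n u w)))
      ((C.wd n).C0 N (fun u w => F (C.fz N n u w))) := by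
    intro n
    have h := (C.wd n).hasExp F (C.q n) (C.b n) (-C.q (n + 1))
    rw [hfz n]
    exact h
  refine compareQ C.gen ?_ ?_ hχ hcnt hD1 hcop hodd
    (W := fun t => ∑ j : Fin (2 * C.h), (C.wd (j : ℕ)).WS (fun u w => F (C.fz N (j : ℕ) u w)) t)
    ?_ ?_
  · intro p p' h
    exact C.gen_inj (C.inj (C.gen_dom p) (C.gen_dom p') h)
  · intro I
    constructor
    · intro hI
      obtain ⟨z, rfl⟩ := exists_gen I
      have hz : z ≠ 0 := by
        rintro rfl; simp at hI
      obtain ⟨z', h1, h2⟩ := C.surj hz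
      obtain ⟨p, rfl⟩ := (C.dom_iff z').mp h1
      exact ⟨p, h2⟩
    · rintro ⟨p, rfl⟩
      simp only [ne_eq, Ideal.span_singleton_eq_bot]
      intro h
      have h1 := (C.gen_dom p).types
      rw [h] at h1
      rcases h1 with h1 | h1
      · have := h1.1
        simp at this
      · have := h1.1
        simp at this
  · have hsm : ∀ᶠ t in 𝓝[>] (0 : ℝ), ∀ j : Fin (2 * C.h), 0 < t ∧ t * (C.wd (j : ℕ)).Γ ≤ 1 := by
      rw [Filter.eventually_all]
      intro j
      exact (C.wd (j : ℕ)).small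
    filter_upwards [hsm] with t ht
    apply hasSum_sigma_fin
    intro j
    have := (C.wd (j : ℕ)).hasSum_int hΦ (a := C.q j) (b := C.b j)
      (d := -C.q (j + 1)) rfl rfl rfl (ht j).1 (ht j).2
    rw [hfz]
    refine (congrArg (fun g : Idx (C.κ (j : ℕ)) → ℝ => HasSum g _) (funext fun p => ?_)).mpr this
    have e : (QuadraticAlgebra.norm (C.gen ⟨j, p⟩)).natAbs =
        (C.q j * (p.1 : ℤ) ^ 2 + C.b j * p.1 * ((p.2 : ℕ) : ℤ) +
          -C.q (j + 1) * ((p.2 : ℕ) : ℤ) ^ 2).natAbs := by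
      unfold ECyc.gen
      rw [C.norm_lc', Int.natAbs_mul, Int.natAbs_pow]
      simp only [Int.reduceNeg, Int.natAbs_neg, Int.natAbs_one, one_pow, one_mul]
      unfold fv
      congr 1
      ring
    rw [e]
  · have : ∀ s : Finset (Fin (2 * C.h)), HasExp
        (fun t => ∑ j ∈ s, (C.wd (j : ℕ)).WS (fun u w => F (C.fz N (j : ℕ) u w)) t)
        (∑ j ∈ s, (C.wd (j : ℕ)).C0 N (fun u w => F (C.fz N (j : ℕ) u w))) := by
      classical
      intro s
      induction s using Finset.induction_on with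
      | empty =>
        refine ⟨0, 0, 0, ?_⟩
        filter_upwards with t
        simp
      | insert j s hj ih =>
        have h1 := HasExp.add (hexpf (j : ℕ)) ih
        simp only [Finset.sum_insert hj]
        exact h1
    exact this Finset.univ

end Pool.Agent.H449
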