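import Pool.Agent.H449.A4
import Pool.Graph.R_pool_sql_team_seeded_63374d34.N156.EP.A5

/-! Relations modulo primes for cycles of even length. -/

namespace Pool.Agent.H449

open H419R2 QuadraticAlgebra Module Finset
open Pool.Agent.N911 (Ef Yf SE SY SE_real SY_real)
open Pool.Agent.N156.EP

variable {R m : ℤ}

section

variable {N : ℕ} [NeZero N]

/-- the relation with values in a ring -/
def RelC {M : Type*} [CommRing M] (C : ECyc R m) (f : ZMod N → M) : M :=
  ∑ n ∈ range (2 * C.h), (3 * SE f (C.q n : ZMod N) (C.b n : ZMod N) (C.q (n + 1) : ZMod N) +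
    (C.κ n : M) * SY f (C.q (n + 1) : ZMod N) (C.b (n + 1) : ZMod N) (C.q (n + 2) : ZMod N))

theorem RelC_real (C : ECyc R m) (f : ZMod N → ℤ) :
    ((RelC C f : ℤ) : ℝ) = 12 * N ^ 2 * ∑ n ∈ range (2 * C.h),
      C.HH (fun x => ((f x : ℤ) : ℝ)) n := by
  unfold RelC
  rw [Finset.mul_sum]
  push_cast
  apply Finset.sum_congr rfl
  intro n _
  rw [SE_real, SY_real]
  unfold ECyc.HH
  rw [ECyc.EE_eq, ECyc.YY_eq]
  ring

theorem SE_map {M M' : Type*} [CommRing M] [CommRing M'] (φ : M →+* M') (f : ZMod N → M)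
    (A B C : ZMod N) : φ (SE f A B C) = SE (fun x => φ (f x)) A B C := by
  unfold SE
  rw [map_sum]
  apply Finset.sum_congr rfl
  intro x _
  rw [map_sum]
  apply Finset.sum_congr rfl
  intro y _
  rw [map_mul, map_intCast]

theorem SY_map {M M' : Type*} [CommRing M] [CommRing M'] (φ : M →+* M') (f : ZMod N → M)
    (A B C : ZMod N) : φ (SY f A B C) = SY (fun x => φ (f x)) A B C := by
  unfold SY
  rw [map_sum]
  apply Finset.sum_congr rfl
  intro x _
  rw [map_sum]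
  apply Finset.sum_congr rfl
  intro y _
  rw [map_mul, map_intCast]

theorem SE_smul {M : Type*} [CommRing M] (c : M) (f : ZMod N → M) (A B C : ZMod N) :
    SE (fun x => c * f x) A B C = c * SE f A B C := by
  unfold SE
  rw [Finset.mul_sum]
  apply Finset.sum_congr rfl
  intro x _
  rw [Finset.mul_sum]
  apply Finset.sum_congr rfl
  intro y _
  ring

theorem SY_smul {M : Type*} [CommRing M] (c : M) (f : ZMod N → M) (A B C : ZMod N) :
    SY (fun x => c * f x) A B C = c * SY f A B C := by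
  unfold SY
  rw [Finset.mul_sum]
  apply Finset.sum_congr rfl
  intro x _
  rw [Finset.mul_sum]
  apply Finset.sum_congr rfl
  intro y _
  ring

theorem RelC_map {M M' : Type*} [CommRing M] [CommRing M'] (φ : M →+* M') (C : ECyc R m)
    (f : ZMod N → M) : φ (RelC C f) = RelC C (fun x => φ (f x)) := by
  unfold RelC
  simp only [map_sum, map_add, map_mul, SE_map, SY_map, map_ofNat, map_natCast]

theorem RelC_smul {M : Type*} [CommRing M] (c : M) (C : ECyc R m) (f : ZMod N → M) :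
    RelC C (fun x => c * f x) = c * RelC C f := by
  unfold RelC
  rw [Finset.mul_sum]
  apply Finset.sum_congr rfl
  intro n _
  rw [SE_smul, SY_smul]
  ring

end

/-- integral form of the main identity -/
theorem rel_intQ (C : ECyc R m) [IsDomain (QA R m)] [IsPrincipalIdealRing (QA R m)]
    {D N : ℕ} [NeZero N] {χ : ℕ → ℤ} (hχ : QC D χ)
    (hcnt : ∀ n, n ≠ 0 → (cnt R m n : ℤ) = rx χ n) (hD1 : 1 < D)
    (hcop : N.Coprime D) {f : ZMod N → ℤ} (hodd : ∀ x, f (-x) = -f x) :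
    (D : ℤ) * RelC C f =
    6 * ∑ l ∈ range (N * D), ∑ a ∈ range N, (l : ℤ) * a * χ l * f ((a * l : ℕ)) := by
  have hq := qpos (q := N)
  have hD' : (0 : ℝ) < D := by exact_mod_cast (by omega : 0 < D)
  have h := main_identityQ C (F := fun x => ((f x : ℤ) : ℝ)) hχ hcnt hD1 hcop
    (fun x => by rw [hodd]; push_cast; ring)
  have e2 : ((∑ l ∈ range (N * D), ∑ a ∈ range N, (l : ℤ) * a * χ l *
      f ((a * l : ℕ)) : ℤ) : ℝ) = ∑ l ∈ range (N * D), ∑ a ∈ range N, (l : ℝ) * a *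
      χ l * ((f ((a * l : ℕ)) : ℤ) : ℝ) := by
    push_cast
    rfl
  have e3 : (((D : ℤ) * RelC C f : ℤ) : ℝ) =
    (((6 : ℤ) * ∑ l ∈ range (N * D), ∑ a ∈ range N, (l : ℤ) * a * χ l *
      f ((a * l : ℕ)) : ℤ) : ℝ) := by
    rw [Int.cast_mul, RelC_real, Int.cast_mul 6, e2]
    have h' : ∑ n ∈ range (2 * C.h), C.HH (fun x => ((f x : ℤ) : ℝ)) n =
      (∑ l ∈ range (N * D), ∑ a ∈ range N, (l : ℝ) * a * χ l * ((f ((a * l : ℕ)) : ℤ) : ℝ))
        / (N * (N * D)) / 2 := by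
      rw [h]; ring
    rw [h']
    push_cast
    field_simp
    ring
  exact_mod_cast e3

/-- Relation modulo a prime. -/
theorem rel_modQ (C : ECyc R m) [IsDomain (QA R m)] [IsPrincipalIdealRing (QA R m)]
    {D : ℕ} {ψ : ℕ → ℤ} (hψ : QC D ψ)
    (hcnt : ∀ n, n ≠ 0 → (cnt R m n : ℤ) = rx ψ n) (hD1 : 1 < D)
    {p : ℕ} (hp : p.Prime) (hp2 : p ≠ 2)
    (hpD : ¬ (p : ℤ) ∣ D) {N : ℕ} [NeZero N] (hcop : N.Coprime D) (χ : ZMod N → ZMod p)
    (hmul : ∀ x y, χ (x * y) = χ x * χ y) (hodd : ∀ x, χ (-x) = -χ x)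
    (hB : ∑ a ∈ range N, (a : ZMod p) * χ a = 0) :
    RelC C χ = 0 := by
  have hF := Fact.mk hp
  have h2 : (2 : ZMod p) ≠ 0 := by
    intro h
    have : ((2 : ℕ) : ZMod p) = 0 := by exact_mod_cast h
    rw [ZMod.natCast_eq_zero_iff] at this
    exact hp2 ((Nat.prime_dvd_prime_iff_eq hp Nat.prime_two).mp this)
  have hD0 : ((D : ℤ) : ZMod p) ≠ 0 := by
    intro h
    exact hpD ((ZMod.intCast_zmod_eq_zero_iff_dvd _ p).mp h)
  have h := rel_intQ C hψ hcnt hD1 hcop (f := fun x => ((χ x).val : ℤ) - ((χ (-x)).val : ℤ))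
    (fun x => by rw [neg_neg]; ring)
  have hf : ∀ x, ((((χ x).val : ℤ) - ((χ (-x)).val : ℤ) : ℤ) : ZMod p) = 2 * χ x := by
    intro x
    push_cast
    rw [ZMod.natCast_zmod_val, ZMod.natCast_zmod_val, hodd]
    ring
  have h' := congrArg (fun z : ℤ => (z : ZMod p)) h
  rw [Int.cast_mul, Int.cast_mul, Int.cast_sum] at h'
  have hR : ∑ l ∈ range (N * D), ((∑ a ∈ range N, (l : ℤ) * a * ψ l *
      (((χ ((a * l : ℕ))).val : ℤ) - ((χ (-((a * l : ℕ) : ZMod N))).val : ℤ)) : ℤ) : ZMod p) = 0 := by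
    apply Finset.sum_eq_zero
    intro l _
    rw [Int.cast_sum]
    have e : ∀ a ∈ range N, (((l : ℤ) * a * ψ l *
      (((χ ((a * l : ℕ))).val : ℤ) - ((χ (-((a * l : ℕ) : ZMod N))).val : ℤ)) : ℤ) : ZMod p) =
      ((l : ZMod p) * (ψ l : ZMod p) * 2 * χ l) * ((a : ZMod p) * χ a) := by
      intro a _
      rw [Int.cast_mul, hf, Nat.cast_mul, hmul]
      push_cast
      ring
    rw [Finset.sum_congr rfl e, ← Finset.mul_sum, hB, mul_zero]
  rw [hR, mul_zero] at h'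
  rcases mul_eq_zero.mp h' with h3 | h3
  · exact absurd h3 hD0
  · have e := RelC_map (Int.castRingHom (ZMod p)) C
      (fun x => ((χ x).val : ℤ) - ((χ (-x)).val : ℤ))
    simp only [eq_intCast] at e
    rw [h3] at e
    have e2 : RelC C (fun x => ((((χ x).val : ℤ) - ((χ (-x)).val : ℤ) : ℤ) : ZMod p)) =
        2 * RelC C χ := by
      rw [← RelC_smul]
      congr 1
      funext x
      exact hf x
    rw [e2] at e
    rcases mul_eq_zero.mp e.symm with h4 | h4
    · exact absurd h4 h2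
    · exact h4

/-- Relation modulo a prime, even discriminant. -/
theorem rel_even (C : ECyc R m) [IsDomain (QA R m)] [IsPrincipalIdealRing (QA R m)]
    {d : ℕ} (hD : ((4 * d : ℕ) : ℤ) = m ^ 2 + 4 * R) (hd1 : 1 < d)
    (hd4 : d % 4 = 2 ∨ d % 4 = 3) {p : ℕ} (hp : p.Prime) (hp2 : p ≠ 2)
    (hpD : ¬ p ∣ d) {N : ℕ} [NeZero N] (hcop : N.Coprime (4 * d)) (χ : ZMod N → ZMod p)
    (hmul : ∀ x y, χ (x * y) = χ x * χ y) (hodd : ∀ x, χ (-x) = -χ x)
    (hB : ∑ a ∈ range N, (a : ZMod p) * χ a = 0) :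
    RelC C χ = 0 := by
  refine rel_modQ C (ks_qc hd4) (cnt_eq_rx hD hd4) (by omega) hp hp2 ?_ hcop χ hmul hodd hB
  intro h
  have h1 : p ∣ 4 * d := by exact_mod_cast h
  rcases (Nat.Prime.dvd_mul hp).mp h1 with h2 | h2
  · have : p ∣ 2 ^ 2 := h2
    have := Nat.Prime.dvd_of_dvd_pow hp this
    exact hp2 ((Nat.prime_dvd_prime_iff_eq hp Nat.prime_two).mp this)
  · exact hpD h2

end Pool.Agent.H449
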