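import Pool.Agent.H449.A5

/-! Symmetric cycles of even length built from half of the data. -/

namespace Pool.Agent.H449

open H419R2 QuadraticAlgebra Module Finset
open Pool.Agent.N156.EP

/-- half of a symmetric cycle -/
structure Half where
  /-- half of the period -/
  k : ℕ
  hk : 0 < k
  /-- partial quotients -/
  κ : ℕ → ℕ
  /-- outer coefficients -/
  q : ℕ → ℤ
  /-- middle coefficients -/
  b : ℕ → ℤ
  κpos : ∀ n, n < k → 0 < κ n
  qpos : ∀ n, n ≤ k → 0 < q n
  q0 : q 0 = 1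
  bpos : 0 < b 0
  recq : ∀ n, n + 2 ≤ k → q (n + 2) = q n + b n * κ n - q (n + 1) * (κ n : ℤ) ^ 2
  recb : ∀ n, n + 1 < k → b (n + 1) = 2 * κ n * q (n + 1) - b n
  center : q k * κ (k - 1) = b (k - 1)
  qone : ∀ n, 0 < n → n ≤ k → q n ≠ 1

namespace Half

variable (H : Half)

/-- extended partial quotients -/
def κ' (n : ℕ) : ℕ :=
  if n % (2 * H.k) = 2 * H.k - 1 then (H.b 0).toNat
  else if n % (2 * H.k) < H.k then H.κ (n % (2 * H.k)) else H.κ (2 * H.k - 2 - n % (2 * H.k))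

/-- extended outer coefficients -/
def q' (n : ℕ) : ℤ :=
  if n % (2 * H.k) ≤ H.k then H.q (n % (2 * H.k)) else H.q (2 * H.k - n % (2 * H.k))

/-- extended middle coefficients -/
def b' (n : ℕ) : ℤ :=
  if n % (2 * H.k) < H.k then H.b (n % (2 * H.k)) else H.b (2 * H.k - 1 - n % (2 * H.k))

theorem kap_per (n : ℕ) : H.κ' (n + 2 * H.k) = H.κ' n := by
  unfold κ'; rw [Nat.add_mod_right]

theorem q_per (n : ℕ) : H.q' (n + 2 * H.k) = H.q' n := by
  unfold q'; rw [Nat.add_mod_right]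

theorem b_per (n : ℕ) : H.b' (n + 2 * H.k) = H.b' n := by
  unfold b'; rw [Nat.add_mod_right]

theorem mod_succ_of_lt {M r n : ℕ} (h : n % M = r) (hr : r + 1 < M) : (n + 1) % M = r + 1 := by
  rw [Nat.add_mod, h, Nat.mod_eq_of_lt (show 1 < M by omega), Nat.mod_eq_of_lt hr]

theorem mod_succ_of_eq {M r n : ℕ} (h : n % M = r) (hr : r + 1 = M) : (n + 1) % M = 0 := by
  have h1 := Nat.div_add_mod n M
  have h2 : n + 1 = M * (n / M + 1) := by
    rw [Nat.mul_add, mul_one]
    omega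
  rw [h2, Nat.mul_mod_right]

theorem lt_mod (n : ℕ) : n % (2 * H.k) < 2 * H.k := Nat.mod_lt _ (by have := H.hk; omega)

/-- values at a residue -/
theorem q'_lo {n r : ℕ} (h : n % (2 * H.k) = r) (hr : r ≤ H.k) : H.q' n = H.q r := by
  unfold q'; rw [h, if_pos hr]

theorem q'_hi {n r : ℕ} (h : n % (2 * H.k) = r) (hr : H.k ≤ r) : H.q' n = H.q (2 * H.k - r) := by
  unfold q'; rw [h]
  split_ifs with h1
  · have : r = H.k := by omega
    rw [this]; congr 1; omega
  · rfl

theorem b'_lo {n r : ℕ} (h : n % (2 * H.k) = r) (hr : r < H.k) : H.b' n = H.b r := by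
  unfold b'; rw [h, if_pos hr]

theorem b'_hi {n r : ℕ} (h : n % (2 * H.k) = r) (hr : H.k ≤ r) :
    H.b' n = H.b (2 * H.k - 1 - r) := by
  unfold b'; rw [h, if_neg (by omega)]

theorem kap_lo {n r : ℕ} (h : n % (2 * H.k) = r) (hr : r < H.k) : H.κ' n = H.κ r := by
  have := H.hk
  unfold κ'; rw [h]
  by_cases h1 : r = 2 * H.k - 1
  · rw [if_pos h1]
    omega
  · rw [if_neg h1, if_pos hr]

theorem kap_hi {n r : ℕ} (h : n % (2 * H.k) = r) (hr : H.k ≤ r) (hr2 : r + 2 ≤ 2 * H.k) :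
    H.κ' n = H.κ (2 * H.k - 2 - r) := by
  unfold κ'; rw [h, if_neg (by omega), if_neg (by omega)]

theorem kap_top {n r : ℕ} (h : n % (2 * H.k) = r) (hr : r + 1 = 2 * H.k) :
    H.κ' n = (H.b 0).toNat := by
  unfold κ'; rw [h, if_pos (by omega)]

theorem recq' (n : ℕ) : H.q' (n + 2) = H.q' n + H.b' n * H.κ' n -
    H.q' (n + 1) * (H.κ' n : ℤ) ^ 2 := by
  have hk := H.hk
  have hlt := H.lt_mod n
  obtain ⟨r, hr⟩ : ∃ r, n % (2 * H.k) = r := ⟨_, rfl⟩
  rw [hr] at hlt
  by_cases c1 : r + 2 ≤ H.k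
  · have h1 := mod_succ_of_lt hr (by omega)
    have h2 := mod_succ_of_lt h1 (by omega)
    rw [H.q'_lo h2 c1, H.q'_lo hr (by omega), H.q'_lo h1 (by omega), H.b'_lo hr (by omega),
      H.kap_lo hr (by omega)]
    exact H.recq r c1
  by_cases c2 : r + 1 = H.k
  · have h1 := mod_succ_of_lt hr (by omega)
    have e2 : H.q' (n + 1 + 1) = H.q r := by
      by_cases c3 : r + 2 = 2 * H.k
      · have h2 := mod_succ_of_eq h1 (by omega)
        rw [H.q'_lo h2 (by omega)]
        congr 1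
        omega
      · have h2 := mod_succ_of_lt h1 (by omega)
        rw [H.q'_hi h2 (by omega)]
        congr 1
        omega
    rw [show n + 2 = n + 1 + 1 by rfl, e2, H.q'_lo hr (by omega), H.q'_lo h1 (by omega),
      H.b'_lo hr (by omega), H.kap_lo hr (by omega)]
    have hc := H.center
    have e3 : H.k - 1 = r := by omega
    rw [e3, ← c2] at hc
    linear_combination (H.κ r : ℤ) * hc
  by_cases c4 : r + 1 = 2 * H.k
  · have h1 := mod_succ_of_eq hr c4
    have h2 := mod_succ_of_lt h1 (by omega)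
    rw [show n + 2 = n + 1 + 1 by rfl, H.q'_lo h2 (by omega), H.q'_hi hr (by omega),
      H.q'_lo h1 (by omega), H.b'_hi hr (by omega), H.kap_top hr c4, H.q0]
    have e1 : 2 * H.k - r = 0 + 1 := by omega
    have e2 : 2 * H.k - 1 - r = 0 := by omega
    rw [e1, e2, Int.toNat_of_nonneg H.bpos.le]
    ring
  · obtain ⟨s, hs⟩ : ∃ s, 2 * H.k - 2 - r = s := ⟨_, rfl⟩
    have h1 := mod_succ_of_lt hr (by omega)
    have e2 : H.q' (n + 1 + 1) = H.q s := by
      by_cases c3 : r + 2 = 2 * H.k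
      · have h2 := mod_succ_of_eq h1 (by omega)
        rw [H.q'_lo h2 (by omega)]
        congr 1
        omega
      · have h2 := mod_succ_of_lt h1 (by omega)
        rw [H.q'_hi h2 (by omega)]
        congr 1
        omega
    rw [show n + 2 = n + 1 + 1 by rfl, e2, H.q'_hi hr (by omega), H.q'_hi h1 (by omega),
      H.b'_hi hr (by omega), H.kap_hi hr (by omega) (by omega), hs]
    have e3 : 2 * H.k - r = s + 2 := by omega
    have e4 : 2 * H.k - (r + 1) = s + 1 := by omega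
    have e5 : 2 * H.k - 1 - r = s + 1 := by omega
    rw [e3, e4, e5]
    have g1 := H.recq s (by omega)
    have g2 := H.recb s (by omega)
    rw [g1, g2]
    ring

theorem recb' (n : ℕ) : H.b' (n + 1) = 2 * H.κ' n * H.q' (n + 1) - H.b' n := by
  have hk := H.hk
  have hlt := H.lt_mod n
  obtain ⟨r, hr⟩ : ∃ r, n % (2 * H.k) = r := ⟨_, rfl⟩
  rw [hr] at hlt
  by_cases c1 : r + 1 < H.k
  · have h1 := mod_succ_of_lt hr (by omega)
    rw [H.b'_lo h1 c1, H.q'_lo h1 (by omega), H.b'_lo hr (by omega), H.kap_lo hr (by omega)]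
    exact H.recb r c1
  by_cases c2 : r + 1 = H.k
  · have h1 := mod_succ_of_lt hr (by omega)
    rw [H.b'_hi h1 (by omega), H.q'_lo h1 (by omega), H.b'_lo hr (by omega),
      H.kap_lo hr (by omega)]
    have hc := H.center
    have e3 : H.k - 1 = r := by omega
    have e4 : 2 * H.k - 1 - (r + 1) = r := by omega
    rw [e3, ← c2] at hc
    rw [e4]
    linear_combination -2 * hc
  by_cases c4 : r + 1 = 2 * H.k
  · have h1 := mod_succ_of_eq hr c4
    rw [H.b'_lo h1 (by omega), H.q'_lo h1 (by omega), H.b'_hi hr (by omega), H.kap_top hr c4, H.q0]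
    have e2 : 2 * H.k - 1 - r = 0 := by omega
    rw [e2, Int.toNat_of_nonneg H.bpos.le]
    ring
  · obtain ⟨s, hs⟩ : ∃ s, 2 * H.k - 2 - r = s := ⟨_, rfl⟩
    have h1 := mod_succ_of_lt hr (by omega)
    rw [H.b'_hi h1 (by omega), H.q'_hi h1 (by omega), H.b'_hi hr (by omega),
      H.kap_hi hr (by omega) (by omega), hs]
    have e4 : 2 * H.k - (r + 1) = s + 1 := by omega
    have e5 : 2 * H.k - 1 - r = s + 1 := by omega
    have e6 : 2 * H.k - 1 - (r + 1) = s := by omega
    rw [e4, e5, e6]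
    have g2 := H.recb s (by omega)
    rw [g2]
    ring

/-- the full cycle -/
def toE : ECyc (H.q 1) (H.b 0) where
  h := H.k
  hh := H.hk
  κ := H.κ'
  q := H.q'
  b := H.b'
  κpos := by
    intro n
    have hlt := H.lt_mod n
    have hk := H.hk
    obtain ⟨r, hr⟩ : ∃ r, n % (2 * H.k) = r := ⟨_, rfl⟩
    rw [hr] at hlt
    by_cases c1 : r < H.k
    · rw [H.kap_lo hr c1]; exact H.κpos r c1
    by_cases c2 : r + 1 = 2 * H.k
    · rw [H.kap_top hr c2]
      have := H.bpos
      omega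
    · rw [H.kap_hi hr (by omega) (by omega)]
      exact H.κpos _ (by omega)
  qpos := by
    intro n
    have hlt := H.lt_mod n
    obtain ⟨r, hr⟩ : ∃ r, n % (2 * H.k) = r := ⟨_, rfl⟩
    rw [hr] at hlt
    by_cases c1 : r ≤ H.k
    · rw [H.q'_lo hr c1]; exact H.qpos r c1
    · rw [H.q'_hi hr (by omega)]; exact H.qpos _ (by omega)
  m_pos := H.bpos
  κper := H.kap_per
  qper := H.q_per
  bper := H.b_per
  q0 := by
    have h : 0 % (2 * H.k) = 0 := Nat.zero_mod _
    rw [H.q'_lo h (by omega), H.q0]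
  q1 := by
    have hk := H.hk
    have h : 1 % (2 * H.k) = 1 := Nat.mod_eq_of_lt (by omega)
    rw [H.q'_lo h (by omega)]
  b0 := by
    have hk := H.hk
    have h : 0 % (2 * H.k) = 0 := Nat.zero_mod _
    rw [H.b'_lo h (by omega)]
  recq := H.recq'
  recb := H.recb'
  qone := by
    intro n h
    have hlt := H.lt_mod n
    obtain ⟨r, hr⟩ : ∃ r, n % (2 * H.k) = r := ⟨_, rfl⟩
    rw [hr] at hlt ⊢
    by_contra h0
    by_cases c1 : r ≤ H.k
    · rw [H.q'_lo hr c1] at h
      exact H.qone r (by omega) c1 h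
    · rw [H.q'_hi hr (by omega)] at h
      exact H.qone _ (by omega) (by omega) h

theorem toE_h : H.toE.h = H.k := rfl

theorem toE_q (n : ℕ) (hn : n ≤ H.k) : H.toE.q n = H.q n := by
  have hk := H.hk
  have h : n % (2 * H.k) = n := Nat.mod_eq_of_lt (by omega)
  exact H.q'_lo h hn

/-- every norm of the cycle is one of the norms of the half cycle -/
theorem toE_q_mem (n : ℕ) : ∃ r, r ≤ H.k ∧ H.toE.q n = H.q r := by
  have hlt := H.lt_mod n
  obtain ⟨r, hr⟩ : ∃ r, n % (2 * H.k) = r := ⟨_, rfl⟩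
  rw [hr] at hlt
  by_cases c1 : r ≤ H.k
  · exact ⟨r, c1, H.q'_lo hr c1⟩
  · exact ⟨2 * H.k - r, by omega, H.q'_hi hr (by omega)⟩

theorem disc (n : ℕ) (hn : n < H.k) :
    H.b n ^ 2 + 4 * (H.q n * H.q (n + 1)) = H.b 0 ^ 2 + 4 * H.q 1 := by
  induction n with
  | zero => rw [H.q0]; ring
  | succ n ih =>
    rw [← ih (by omega), H.recb n hn, H.recq n (by omega)]
    ring

end Half

end Pool.Agent.H449
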