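import Pool.Agent.H449.B1
import Pool.Graph.R_pool_sql_team_seeded_63374d34.N911.K4

/-! The relation of a symmetric cycle in terms of half of the data. -/

namespace Pool.Agent.H449

open H419R2 QuadraticAlgebra Module Finset
open Pool.Agent.N156.EP
open Pool.Agent.N911 (SE SY wE wY wE_neg wY_neg SE_scale SY_scale)

section

variable {N : ℕ} [NeZero N] {M : Type*} [CommRing M]

omit [NeZero N] in
theorem wE_symm (x y : ZMod N) : wE x y = wE y x := by
  unfold wE
  by_cases hx : x = 0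
  · subst hx; simp
  · by_cases hy : y = 0
    · subst hy; simp
    · rw [if_neg (by tauto), if_neg (by tauto)]; ring

/-- mirror image -/
theorem SE_mirror {χ : ZMod N → M} (hodd : ∀ x, χ (-x) = -χ x) (A B C : ZMod N) :
    SE χ C B A = SE χ A B C := by
  unfold SE
  rw [Finset.sum_comm]
  apply Finset.sum_congr rfl
  intro x _
  rw [← Equiv.sum_comp (Equiv.neg (ZMod N))]
  apply Finset.sum_congr rfl
  intro y _
  simp only [Equiv.neg_apply]
  have e : C * (-y) ^ 2 + B * (-y * x) - A * x ^ 2 = -(A * x ^ 2 + B * (x * y) - C * y ^ 2) := by ring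
  rw [e, hodd, wE_symm, wE_neg]
  push_cast
  ring

/-- the sum with `B2` depends on the discriminant only -/
def SD (χ : ZMod N → M) (D : ZMod N) : M :=
  ∑ z : ZMod N, ∑ y : ZMod N, χ (z ^ 2 - D * y ^ 2) * (wY y : M)

theorem SY_disc {χ : ZMod N → M} (hmul : ∀ x y, χ (x * y) = χ x * χ y) {A B C Ai h : ZMod N}
    (hA : A * Ai = 1) (h2 : 2 * h = 1) :
    χ (4 * A) * SY χ A B C = SD χ (B ^ 2 + 4 * (A * C)) := by
  unfold SY SD
  rw [Finset.mul_sum, Finset.sum_comm (f := fun z y : ZMod N => χ (z ^ 2 - (B ^ 2 + 4 * (A * C)) * y ^ 2)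
    * (wY y : M))]
  have e1 : ∀ x : ZMod N, χ (4 * A) * ∑ y : ZMod N, χ (A * x ^ 2 + B * (x * y) - C * y ^ 2) * (wY y : M)
      = ∑ y : ZMod N, χ ((2 * A * x + B * y) ^ 2 - (B ^ 2 + 4 * (A * C)) * y ^ 2) * (wY y : M) := by
    intro x
    rw [Finset.mul_sum]
    apply Finset.sum_congr rfl
    intro y _
    rw [← mul_assoc, ← hmul]
    congr 2
    ring
  simp only [e1]
  rw [Finset.sum_comm]
  apply Finset.sum_congr rfl
  intro y _
  set u : (ZMod N)ˣ := ⟨2 * A, h * Ai, by linear_combination (2 * h) * hA + h2, by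
    linear_combination (2 * h) * hA + h2⟩ with hu
  exact Equiv.sum_comp ((Units.mulLeft u).trans (Equiv.addRight (B * y)))
    (fun z => χ (z ^ 2 - (B ^ 2 + 4 * (A * C)) * y ^ 2) * (wY y : M))

theorem SY_unit {χ : ZMod N → M} (hmul : ∀ x y, χ (x * y) = χ x * χ y) (hone : χ 1 = 1)
    {A Ai B C B' C' h : ZMod N} (hA : A * Ai = 1) (h2 : 2 * h = 1)
    (hD : B ^ 2 + 4 * (A * C) = B' ^ 2 + 4 * C') :
    SY χ A B C = χ Ai * SY χ 1 B' C' := by
  have e1 := SY_disc hmul (A := A) (B := B) (C := C) hA h2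
  have e2 := SY_disc hmul (A := 1) (B := B') (C := C') (Ai := 1) (by ring) h2
  rw [hD, show B' ^ 2 + 4 * C' = B' ^ 2 + 4 * (1 * C') by ring, ← e2, hmul 4 A, mul_one] at e1
  have e3 : χ 4 * χ (h * h) = 1 := by
    rw [← hmul, show (4 : ZMod N) * (h * h) = 1 by linear_combination (2 * h + 1) * h2, hone]
  have e4 : χ A * χ Ai = 1 := by rw [← hmul, hA, hone]
  linear_combination (χ Ai * χ (h * h)) * e1 - (SY χ A B C) * e4 * (χ 4 * χ (h * h)) -
    (SY χ A B C) * e3 + (χ Ai * SY χ 1 B' C') * e3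

end

namespace Half

variable (H : Half)

theorem sum_two {M : Type*} [AddCommMonoid M] (k : ℕ) (g : ℕ → M) :
    ∑ n ∈ range (2 * k), g n = ∑ n ∈ range k, g n + ∑ s ∈ range k, g (2 * k - 1 - s) := by
  rw [two_mul, Finset.sum_range_add]
  congr 1
  rw [← Finset.sum_range_reflect]
  apply Finset.sum_congr rfl
  intro s hs
  rw [Finset.mem_range] at hs
  congr 1
  omega

theorem E_q_lo {n : ℕ} (hn : n ≤ H.k) : H.toE.q n = H.q n := H.toE_q n hn

theorem E_q_hi {s : ℕ} (hs : s ≤ H.k) : H.toE.q (2 * H.k - s) = H.q s := by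
  have hk := H.hk
  rcases Nat.eq_zero_or_pos s with h | h
  · subst h
    have : (2 * H.k - 0) % (2 * H.k) = 0 := by simp
    exact H.q'_lo this (by omega)
  · have h1 : (2 * H.k - s) % (2 * H.k) = 2 * H.k - s := Nat.mod_eq_of_lt (by omega)
    have h2 := H.q'_hi h1 (by omega)
    rw [show 2 * H.k - (2 * H.k - s) = s by omega] at h2
    exact h2

theorem E_b_lo {n : ℕ} (hn : n < H.k) : H.toE.b n = H.b n := by
  have h1 : n % (2 * H.k) = n := Nat.mod_eq_of_lt (by omega)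
  exact H.b'_lo h1 hn

theorem E_b_hi {s : ℕ} (hs : s < H.k) : H.toE.b (2 * H.k - 1 - s) = H.b s := by
  have h1 : (2 * H.k - 1 - s) % (2 * H.k) = 2 * H.k - 1 - s := Nat.mod_eq_of_lt (by omega)
  have h2 := H.b'_hi h1 (by omega)
  rw [show 2 * H.k - 1 - (2 * H.k - 1 - s) = s by omega] at h2
  exact h2

theorem E_kap_lo {n : ℕ} (hn : n < H.k) : H.toE.κ n = H.κ n := by
  have h1 : n % (2 * H.k) = n := Nat.mod_eq_of_lt (by omega)
  exact H.kap_lo h1 hn

theorem E_kap_hi {s : ℕ} (hs : s + 1 < H.k) : H.toE.κ (2 * H.k - 1 - (s + 1)) = H.κ s := by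
  have h1 : (2 * H.k - 1 - (s + 1)) % (2 * H.k) = 2 * H.k - 1 - (s + 1) :=
    Nat.mod_eq_of_lt (by omega)
  have h2 := H.kap_hi h1 (by omega) (by omega)
  rw [show 2 * H.k - 2 - (2 * H.k - 1 - (s + 1)) = s by omega] at h2
  exact h2

theorem E_kap_top : (H.toE.κ (2 * H.k - 1) : ℤ) = H.b 0 := by
  have hk := H.hk
  have h1 : (2 * H.k - 1) % (2 * H.k) = 2 * H.k - 1 := Nat.mod_eq_of_lt (by omega)
  have h2 : H.toE.κ (2 * H.k - 1) = (H.b 0).toNat := H.kap_top h1 (by omega)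
  rw [h2, Int.toNat_of_nonneg H.bpos.le]

/-- the relation in terms of the half cycle -/
theorem rel_half {N : ℕ} [NeZero N] {M : Type*} [CommRing M] {χ : ZMod N → M}
    (hmul : ∀ x y, χ (x * y) = χ x * χ y) (hone : χ 1 = 1) (hodd : ∀ x, χ (-x) = -χ x)
    {h : ZMod N} (h2 : 2 * h = 1) (qi : ℕ → ℤ)
    (hqi : ∀ n, n ≤ H.k → ((H.q n * qi n : ℤ) : ZMod N) = 1) (hr : RelC H.toE χ = 0) :
    ∑ n ∈ range H.k, χ (H.q n : ZMod N) *
      (6 * SE χ 1 ((H.b n * qi n : ℤ) : ZMod N) ((H.q (n + 1) * qi n : ℤ) : ZMod N)) +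
    SY χ 1 ((H.b 0 : ℤ) : ZMod N) ((H.q 1 : ℤ) : ZMod N) *
      (2 * ∑ n ∈ range (H.k - 1), (H.κ n : M) * χ (qi (n + 1) : ZMod N) +
        (H.κ (H.k - 1) : M) * χ (qi H.k : ZMod N) + (H.b 0 : M)) = 0 := by
  have hk := H.hk
  unfold RelC at hr
  rw [toE_h, Finset.sum_add_distrib] at hr
  have hS : ∑ n ∈ range (2 * H.k), 3 * SE χ (H.toE.q n : ZMod N) (H.toE.b n : ZMod N)
      (H.toE.q (n + 1) : ZMod N) = ∑ n ∈ range H.k, χ (H.q n : ZMod N) *
      (6 * SE χ 1 ((H.b n * qi n : ℤ) : ZMod N) ((H.q (n + 1) * qi n : ℤ) : ZMod N)) := by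
    rw [sum_two, ← Finset.sum_add_distrib]
    apply Finset.sum_congr rfl
    intro s hs
    rw [Finset.mem_range] at hs
    have e1 : H.toE.q (2 * H.k - 1 - s) = H.q (s + 1) := by
      rw [show 2 * H.k - 1 - s = 2 * H.k - (s + 1) by omega]
      exact H.E_q_hi (by omega)
    have e2 : H.toE.q (2 * H.k - 1 - s + 1) = H.q s := by
      rw [show 2 * H.k - 1 - s + 1 = 2 * H.k - s by omega]
      exact H.E_q_hi (by omega)
    rw [H.E_q_lo (by omega), H.E_q_lo (by omega), H.E_b_lo hs, e1, e2, H.E_b_hi hs,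
      SE_mirror hodd (H.q s : ZMod N)]
    have e3 : (H.q s : ZMod N) * (qi s : ZMod N) = 1 := by
      have := hqi s (by omega)
      push_cast at this
      exact this
    rw [SE_scale hmul (B := (H.b s : ZMod N)) (C := (H.q (s + 1) : ZMod N)) e3]
    push_cast
    ring
  set Y0 := SY χ 1 ((H.b 0 : ℤ) : ZMod N) ((H.q 1 : ℤ) : ZMod N) with hY0
  have hYn : ∀ n r : ℕ, r ≤ H.k → H.toE.q (n + 1) = H.q r →
      SY χ (H.toE.q (n + 1) : ZMod N) (H.toE.b (n + 1) : ZMod N) (H.toE.q (n + 2) : ZMod N) =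
      χ (qi r : ZMod N) * Y0 := by
    intro n r hr hq
    have e3 : (H.q r : ZMod N) * (qi r : ZMod N) = 1 := by
      have := hqi r hr
      push_cast at this
      exact this
    apply SY_unit hmul hone (by rw [hq]; exact e3) h2
    have hd := H.toE.disc (n + 1)
    have hd' := congrArg (fun z : ℤ => (z : ZMod N)) hd
    push_cast at hd'
    exact hd'
  have hY : ∑ n ∈ range (2 * H.k), (H.toE.κ n : M) * SY χ (H.toE.q (n + 1) : ZMod N)
      (H.toE.b (n + 1) : ZMod N) (H.toE.q (n + 2) : ZMod N) =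
      Y0 * (2 * ∑ n ∈ range (H.k - 1), (H.κ n : M) * χ (qi (n + 1) : ZMod N) +
        (H.κ (H.k - 1) : M) * χ (qi H.k : ZMod N) + (H.b 0 : M)) := by
    rw [sum_two]
    obtain ⟨j, hj⟩ : ∃ j, H.k = j + 1 := ⟨H.k - 1, by omega⟩
    have hj1 : H.k - 1 = j := by omega
    have hrg : range H.k = range (j + 1) := by rw [hj]
    have f1 : ∑ n ∈ range H.k, (H.toE.κ n : M) * SY χ (H.toE.q (n + 1) : ZMod N)
      (H.toE.b (n + 1) : ZMod N) (H.toE.q (n + 2) : ZMod N) =
      ∑ n ∈ range (H.k - 1), Y0 * ((H.κ n : M) * χ (qi (n + 1) : ZMod N)) +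
        Y0 * ((H.κ (H.k - 1) : M) * χ (qi H.k : ZMod N)) := by
      rw [hj1, hrg, Finset.sum_range_succ]
      congr 1
      · apply Finset.sum_congr rfl
        intro n hn
        rw [Finset.mem_range] at hn
        rw [hYn n (n + 1) (by omega) (H.E_q_lo (by omega)), H.E_kap_lo (by omega)]
        ring
      · rw [hYn j (j + 1) (by omega) (H.E_q_lo (by omega)), H.E_kap_lo (by omega), hj]
        ring
    have f2 : ∑ s ∈ range H.k, (H.toE.κ (2 * H.k - 1 - s) : M) *
      SY χ (H.toE.q (2 * H.k - 1 - s + 1) : ZMod N)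
      (H.toE.b (2 * H.k - 1 - s + 1) : ZMod N) (H.toE.q (2 * H.k - 1 - s + 2) : ZMod N) =
      ∑ n ∈ range (H.k - 1), Y0 * ((H.κ n : M) * χ (qi (n + 1) : ZMod N)) + Y0 * (H.b 0 : M) := by
      rw [hj1, hrg, Finset.sum_range_succ']
      congr 1
      · apply Finset.sum_congr rfl
        intro s hs
        rw [Finset.mem_range] at hs
        rw [hYn _ (s + 1) (by omega) (by
          rw [show 2 * H.k - 1 - (s + 1) + 1 = 2 * H.k - (s + 1) by omega]
          exact H.E_q_hi (by omega)), H.E_kap_hi (by omega)]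
        ring
      · have e0 : χ (qi 0 : ZMod N) = 1 := by
          have := hqi 0 (by omega)
          rw [H.q0, one_mul] at this
          rw [this, hone]
        have e4 : (H.toE.κ (2 * H.k - 1 - 0) : M) = (H.b 0 : M) := by
          have h9 := congrArg (fun z : ℤ => (z : M)) H.E_kap_top
          rw [Nat.sub_zero]
          simpa using h9
        rw [hYn _ 0 (by omega) (by
          rw [show 2 * H.k - 1 - 0 + 1 = 2 * H.k - 0 by omega]
          exact H.E_q_hi (by omega)), e0, e4]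
        ring
    rw [f1, f2, ← Finset.mul_sum]
    ring
  rw [hS, hY] at hr
  exact hr

end Half

end Pool.Agent.H449
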