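import Pool.Agent.H449.B2
import Pool.Graph.R_pool_sql_team_seeded_63374d34.N911.K6

/-! Consequences of class number one for a symmetric cycle, even discriminant. -/

namespace Pool.Agent.H449

open H419R2 QuadraticAlgebra Module Finset
open Pool.Agent.N156.EP
open Pool.Agent.N911 (SE SY V Ent Chv)

theorem isDomain_even {m R d : ℤ} (hDm : 4 * d = m ^ 2 + 4 * R) (hsf : Squarefree d)
    (hd1 : 1 < d) : IsDomain (QA R m) := by
  have hns := not_sq_four (not_sq_of_squarefree hsf hd1)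
  have hn : ∀ z : QA R m, QuadraticAlgebra.norm z = 0 → z = 0 := by
    intro z hz
    rw [norm_eq] at hz
    have h1 : (2 * z.re + m * z.im) ^ 2 = (4 * d) * z.im ^ 2 := by
      rw [hDm]; linear_combination 4 * hz
    have him : z.im = 0 := by
      by_contra h
      apply hns
      refine ⟨(2 * z.re + m * z.im) / z.im, ?_⟩
      have h' : (z.im : ℚ) ≠ 0 := by exact_mod_cast h
      have h2 : (2 * (z.re : ℚ) + m * z.im) ^ 2 = (4 * d) * (z.im : ℚ) ^ 2 := by exact_mod_cast h1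
      push_cast
      field_simp
      linear_combination h2
    have hre : z.re = 0 := by
      rw [him] at h1
      have : (2 * z.re) ^ 2 = 0 := by linear_combination h1
      have := pow_eq_zero_iff (two_ne_zero) |>.mp this
      omega
    ext
    · simpa using hre
    · simpa using him
  have : NoZeroDivisors (QA R m) := by
    refine ⟨?_⟩
    intro a b hab
    have : QuadraticAlgebra.norm a * QuadraticAlgebra.norm b = 0 := by
      rw [← map_mul, hab]; simp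
    rcases mul_eq_zero.mp this with h | h
    · left; exact hn a h
    · right; exact hn b h
  exact NoZeroDivisors.to_isDomain _

/-- all that is used about a symmetric cycle of class number one -/
structure HGood (H : Half) (d : ℕ) : Prop where
  hD : 4 * (d : ℤ) = H.b 0 ^ 2 + 4 * H.q 1
  hd1 : 1 < d
  rel : ∀ c : CD, c.OK → c.q.Coprime (4 * d) → ¬ c.p ∣ d → ∀ _ : NeZero c.q,
    RelC H.toE (chi c.q c.p c.T) = 0
  split : ∀ l : ℕ, l.Prime → l ^ 2 ≤ d → (∃ w0 : ℤ, (l : ℤ) ∣ w0 ^ 2 + H.b 0 * w0 - H.q 1) →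
    ∃ r, r ≤ H.k ∧ H.q r = l

theorem good_half (H : Half) {d : ℕ} (hD : 4 * (d : ℤ) = H.b 0 ^ 2 + 4 * H.q 1)
    (hsf : Squarefree (d : ℤ)) (hd4 : d % 4 = 2 ∨ d % 4 = 3)
    {K : Type*} [Field K] [NumberField K] (hK : Module.finrank ℚ K = 2) {x : K}
    (hx : x ^ 2 = ((d : ℤ) : K)) (hcl : NumberField.classNumber K = 1) : HGood H d := by
  have hd1 : 1 < d := by omega
  have hd1' : (1 : ℤ) < d := by exact_mod_cast hd1
  have i1 : IsDomain (QA (H.q 1) (H.b 0)) := isDomain_even hD hsf hd1'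
  have i2 : IsPrincipalIdealRing (QA (H.q 1) (H.b 0)) :=
    pid_even hD hsf hd1' (by omega) hK hx hcl
  have hDn : ((4 * d : ℕ) : ℤ) = H.b 0 ^ 2 + 4 * H.q 1 := by rw [← hD]; push_cast; ring
  refine ⟨hD, hd1, ?_, ?_⟩
  · intro c hc hcop hp hq
    exact rel_even H.toE hDn hd1 hd4 hc.pp hc.p2 hp hcop _ (chi_mul hc.mul)
      (chi_neg hc.q1 hc.mul hc.oth) (chi_sum hc.oth)
  · intro l hl hld hw
    obtain ⟨n, hn⟩ := H.toE.split_norm hDn hl (by push_cast; exact_mod_cast (by omega)) hw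
    obtain ⟨r, hr, he⟩ := H.toE_q_mem n
    exact ⟨r, hr, by rw [← he, hn]⟩

namespace HGood

variable {H : Half} {d : ℕ}

/-- primes which are not norms of the cycle are inert -/
theorem inert (G : HGood H d) {l : ℕ} (hl : l.Prime) (h2 : l ≠ 2) (hld : l ^ 2 ≤ d)
    (hq : ∀ r, r ≤ H.k → H.q r ≠ l) : ¬ IsSquare (((4 * d : ℕ) : ℤ) : ZMod l) := by
  intro h
  have hDn : ((4 * d : ℕ) : ℤ) = H.b 0 ^ 2 + 4 * H.q 1 := by rw [← G.hD]; push_cast; ring
  obtain ⟨w0, hw0⟩ := root_of_square hl h2 hDn h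
  obtain ⟨r, hr, he⟩ := G.split l hl hld ⟨w0, hw0⟩
  exact hq r hr he

theorem disc (G : HGood H d) {n : ℕ} (hn : n < H.k) :
    H.b n ^ 2 + 4 * (H.q n * H.q (n + 1)) = 4 * (d : ℤ) := by
  rw [H.disc n hn, G.hD]

/-- norms are invertible modulo inert primes -/
theorem not_dvd_q (G : HGood H d) {l : ℕ} (hin : ¬ IsSquare (((4 * d : ℕ) : ℤ) : ZMod l))
    {n : ℕ} (hn : n < H.k) : ¬ (l : ℤ) ∣ H.q n := by
  intro h
  apply hin
  refine ⟨(H.b n : ZMod l), ?_⟩
  have h1 := congrArg (fun z : ℤ => (z : ZMod l)) (G.disc hn)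
  have h2 : ((H.q n : ℤ) : ZMod l) = 0 := (ZMod.intCast_zmod_eq_zero_iff_dvd _ l).mpr h
  push_cast at h1 ⊢
  rw [h2] at h1
  linear_combination -h1

theorem V_of (G : HGood H d) {l : ℕ} (h4 : l ≠ 4)
    (hin : ¬ IsSquare (((4 * d : ℕ) : ℤ) : ZMod l)) {n : ℕ} (hn : n < H.k) {i : ℤ}
    (hi : ((H.q n * i : ℤ) : ZMod l) = 1) : V l (H.b n * i) (H.q (n + 1) * i) := by
  unfold V
  rw [if_neg h4]
  rintro ⟨r, hr⟩
  apply hin
  refine ⟨r * H.q n, ?_⟩
  have h1 := congrArg (fun z : ℤ => (z : ZMod l)) (G.disc hn)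
  push_cast at h1 hr hi ⊢
  linear_combination (H.q n : ZMod l) ^ 2 * hr - h1 +
    (-(H.b n : ZMod l) ^ 2 * ((H.q n : ZMod l) * i + 1) - 4 * (H.q (n + 1) : ZMod l) * (H.q n : ZMod l)) * hi

end HGood

/-- normalized relation -/
def NRelH (c : CD) (H : Half) (qi : ℕ → ℤ) : Prop :=
  ∀ (e x xi : ℕ → ℕ), (∀ n, n < H.k → Ent c (e n) (H.b n * qi n) (H.q (n + 1) * qi n)) →
    (∀ n, n < H.k → Chv c (x n) (H.q n)) → (∀ n, n ≤ H.k → Chv c (xi n) (qi n)) →
    ∑ n ∈ range H.k, ((x n : ℕ) : ZMod c.p) * ((e n % 128 : ℕ) : ZMod c.p) +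
      ((e 0 / 128 : ℕ) : ZMod c.p) * (2 * ∑ n ∈ range (H.k - 1), (H.κ n : ZMod c.p) *
        ((xi (n + 1) : ℕ) : ZMod c.p) + (H.κ (H.k - 1) : ZMod c.p) * ((xi H.k : ℕ) : ZMod c.p) +
        (H.b 0 : ZMod c.p)) = 0

theorem chi_one_of {c : CD} (hc : c.OK) [NeZero c.q] : chi c.q c.p c.T 1 = 1 := by
  have hF := Fact.mk hc.pp
  have h1 := chi_neg (q := c.q) hc.q1 hc.mul hc.oth (-1)
  have h2 : chi c.q c.p c.T (-1) = -1 := by
    have h3 := hc.oth
    unfold chkOth at h3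
    rw [Bool.and_eq_true] at h3
    have h3 := cast_zero_of_mod h3.1
    unfold chi
    have h4 : (-1 : ZMod c.q).val = c.q - 1 := by
      obtain ⟨n, hn⟩ : ∃ n, c.q = n + 1 := ⟨c.q - 1, by have := hc.q1; omega⟩
      have h5 : ∀ q : ℕ, q = n + 1 → (-1 : ZMod q).val = q - 1 := by
        rintro q rfl
        exact ZMod.val_neg_one n
      exact h5 c.q hn
    rw [h4]
    have h5 : ((Nat.add (look c.T (Nat.sub c.q 1)) 1 : ℕ) : ZMod c.p) =
        ((look c.T (c.q - 1) : ℕ) : ZMod c.p) + 1 := by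
      change (((look c.T (c.q - 1)) + 1 : ℕ) : ZMod c.p) = _
      push_cast; rfl
    rw [h5] at h3
    linear_combination h3
  rw [neg_neg, h2, neg_neg] at h1
  exact h1

theorem nrelH_of {c : CD} (hc : c.OK) {H : Half} {qi : ℕ → ℤ} (hodd : c.q % 2 = 1)
    (hqi : ∀ n, n ≤ H.k → ((H.q n * qi n : ℤ) : ZMod c.q) = 1) (hqi0 : qi 0 = 1)
    (h : ∀ _ : NeZero c.q, RelC H.toE (chi c.q c.p c.T) = 0) : NRelH c H qi := by
  intro e x xi he hx hxi
  have hq : NeZero c.q := ⟨by have := hc.q1; omega⟩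
  have hF := Fact.mk hc.pp
  have h2 : (2 : ZMod c.q) * (((c.q + 1) / 2 : ℕ) : ZMod c.q) = 1 := by
    have h3 : 2 * ((c.q + 1) / 2) = c.q + 1 := by omega
    have h4 := congrArg (fun z : ℕ => (z : ZMod c.q)) h3
    push_cast at h4
    rw [ZMod.natCast_self c.q, zero_add] at h4
    exact h4
  have hr := H.rel_half (chi_mul hc.mul) (chi_one_of hc) (chi_neg hc.q1 hc.mul hc.oth) h2 qi hqi
    (h hq)
  have hk := H.hk
  have e0 := (he 0 hk hq).2
  rw [hqi0, mul_one, mul_one, zero_add] at e0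
  rw [e0, ← hr]
  congr 1
  · apply Finset.sum_congr rfl
    intro n hn
    rw [Finset.mem_range] at hn
    rw [hx n hn hq, (he n hn hq).1]
  · congr 2
    · congr 1
      · congr 1
        apply Finset.sum_congr rfl
        intro n hn
        rw [Finset.mem_range] at hn
        rw [hxi (n + 1) (by omega) hq]
      · rw [hxi H.k (le_refl _) hq]

end Pool.Agent.H449
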