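import Pool.Agent.H449.B3

/-! Kernel-friendly functions for symmetric cycles. -/

namespace Pool.Agent.H449

open H419R2
open Pool.Agent.N911 (imp cj sl sl1 sl2 evD chD)

/-- shapes: the partial quotients are `al * u + be` -/
inductive SL where
  | nil : SL
  | cons (al be : ℕ) (l : SL) : SL

/-- forms of a half cycle modulo a prime: seven times the residues of the norm and of its inverse,
the index of the normalized form, the coefficients of the preceding partial quotient -/
inductive FL where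
  | nil : FL
  | cons (Q Qi k al be : ℕ) (l : FL) : FL

/-- records -/
inductive RL where
  | nil : RL
  | cons (u v : ℕ) (f : FL) (l : RL) : RL

/-- rows of tables -/
inductive WL where
  | nil : WL
  | cons (x xi e al be : ℕ) (l : WL) : WL

/-- all entries satisfy `g` -/
noncomputable def RL.all (L : RL) (g : ℕ → ℕ → FL → Bool) : Bool :=
  @RL.rec (fun _ => Bool) true (fun u v f _ ih => cj (g u v f) ih) L

/-- forms modulo `l` -/
noncomputable def mkF (l I u : ℕ) (sh : SL) : ℕ → ℕ → ℕ → ℕ → ℕ → (FL → Bool) → Bool :=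
  @SL.rec (fun _ => ℕ → ℕ → ℕ → ℕ → ℕ → (FL → Bool) → Bool)
    (fun al be qa b qb c => force (Nat.mod (look I qa) l) (fun i => force (Nat.mul 7 qa) (fun Q =>
      force (Nat.mul 7 i) (fun Qi => force (Nat.mul 7 (Nat.add (Nat.mul (Nat.mod (Nat.mul b i) l) l)
        (Nat.mod (Nat.mul qb i) l))) (fun k => c (FL.cons Q Qi k al be FL.nil))))))
    (fun al' be' _ ih al be qa b qb c =>
      force (Nat.mod (look I qa) l) (fun i => force (Nat.mul 7 qa) (fun Q =>
      force (Nat.mul 7 i) (fun Qi => force (Nat.mul 7 (Nat.add (Nat.mul (Nat.mod (Nat.mul b i) l) l)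
        (Nat.mod (Nat.mul qb i) l))) (fun k =>
      force (Nat.mod (Nat.add (Nat.mul al' u) be') l) (fun κ =>
      force (Nat.mod (Nat.add (Nat.add qa (Nat.mul b κ))
        (Nat.mul (Nat.sub (Nat.mul l l) (Nat.mul κ κ)) qb)) l) (fun qc =>
      force (Nat.mod (Nat.add (Nat.mul (Nat.mul 2 κ) qb) (Nat.sub l b)) l) (fun nb =>
        ih al' be' qb nb qc (fun r => c (FL.cons Q Qi k al be r))))))))))
    sh

/-- records for given `u, a, R` -/
noncomputable def mkRec (l I Q dl : ℕ) (sh : SL) (u a R : ℕ) (c : ℕ → ℕ → FL → Bool) (d : Bool) :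
    Bool :=
  @Bool.rec (fun _ => Bool)
    (mkF l I u sh 0 0 1 (Nat.mod (Nat.mul 2 a) l) R (fun f =>
      force (Nat.mod (Nat.add a (Nat.sub l dl)) l) (fun v => c u v f)))
    d (tb Q (Nat.mod (Nat.add (Nat.mul a a) R) l))

/-- list of records of a family with one parameter -/
noncomputable def mk1 (l I Q dl a0 y R0 R1 : ℕ) (sh : SL) (n : ℕ) : (RL → Bool) → Bool :=
  @Nat.rec (fun _ => (RL → Bool) → Bool) (fun c => c RL.nil) (fun t ih c =>
    force (Nat.mod (Nat.add a0 (Nat.mul y t)) l) (fun a =>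
    force (Nat.mod (Nat.add R0 (Nat.mul R1 t)) l) (fun R =>
      mkRec l I Q dl sh 0 a R (fun u v f => ih (fun r => c (RL.cons u v f r))) (ih c)))) n

/-- rows -/
noncomputable def mkW (n1 n2 X E : ℕ) (f : FL) : (WL → Bool) → Bool :=
  @FL.rec (fun _ => (WL → Bool) → Bool) (fun c => c WL.nil)
    (fun Q Qi k al be _ ih c => force (sl n1 X Q) (fun x => force (sl n1 X Qi) (fun xi =>
      force (sl n2 E k) (fun e => ih (fun r => c (WL.cons x xi e al be r)))))) f

/-- rows of the second level -/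
noncomputable def mkW2 (n1 n2 : ℕ) (w : WL) : FL → (WL → Bool) → Bool :=
  @WL.rec (fun _ => FL → (WL → Bool) → Bool) (fun _ c => c WL.nil)
    (fun x0 xi0 e0 al be _ ih f c => @FL.rec (fun _ => Bool) false
      (fun Q Qi k _ _ f' _ => force (sl n1 x0 Q) (fun x => force (sl n1 xi0 Qi) (fun xi =>
        force (sl n2 e0 k) (fun e => ih f' (fun r => c (WL.cons x xi e al be r)))))) f) w

/-- accumulation -/
noncomputable def lp (w : WL) : FL → ℕ → ℕ → ℕ → (ℕ → ℕ → ℕ → Bool) → Bool :=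
  @WL.rec (fun _ => FL → ℕ → ℕ → ℕ → (ℕ → ℕ → ℕ → Bool) → Bool) (fun _ S A B c => c S A B)
    (fun x xi e al be _ ih f S A B c => @FL.rec (fun _ => Bool) false
      (fun Q Qi k _ _ f' _ => force (Nat.add S (Nat.mul (sl1 x Q) (Nat.mod (sl2 e k) 128))) (fun S =>
        force (sl1 xi Qi) (fun z =>
        force (Nat.add A (Nat.mul al z)) (fun A => force (Nat.add B (Nat.mul be z)) (fun B =>
          ih f' S A B c))))) f) w

/-- coefficients of a relation -/
noncomputable def coT (w : WL) (f : FL) (c : ℕ → ℕ → ℕ → ℕ → Bool) : Bool :=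
  @WL.rec (fun _ => Bool) false (fun x _ e _ _ w' _ => @FL.rec (fun _ => Bool) false
    (fun Q _ k _ _ f' _ => force (sl2 e k) (fun z => force (Nat.div z 128) (fun y =>
      force (Nat.mul (sl1 x Q) (Nat.mod z 128)) (fun S => lp w' f' S 0 0 (fun S A B => c y S A B)))))
      f) w

/-- accumulation, table of 7-bit entries -/
noncomputable def lpV (w : WL) : FL → ℕ → (ℕ → Bool) → Bool :=
  @WL.rec (fun _ => FL → ℕ → (ℕ → Bool) → Bool) (fun _ S c => c S)
    (fun x _ e _ _ _ ih f S c => @FL.rec (fun _ => Bool) false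
      (fun Q _ k _ _ f' _ => force (Nat.add S (Nat.mul (sl1 x Q) (sl1 e k))) (fun S =>
          ih f' S c)) f) w

/-- normalization -/
def kuv (p x2 dl y S A B : ℕ) (g : ℕ → ℕ → ℕ → Bool) : Bool :=
  force (Nat.mod (Nat.add S (Nat.mul (Nat.mul 2 y) (Nat.add B dl))) p) (fun K =>
  force (Nat.mod (Nat.mul (Nat.mul 2 y) A) p) (fun U =>
  force (Nat.mod (Nat.mul y (Nat.add x2 2)) p) (fun V => g K U V)))

/-- linear test -/
def lin (p K U V u v : ℕ) : Bool :=
  Nat.beq (Nat.mod (Nat.add K (Nat.add (Nat.mul U u) (Nat.mul V v))) p) 0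

/-- accumulation, direct evaluation -/
noncomputable def lpD (c : CD) (l1 e1 l2 e2 : ℕ) (f1 : FL) :
    FL → ℕ → ℕ → ℕ → (ℕ → ℕ → ℕ → Bool) → Bool :=
  @FL.rec (fun _ => FL → ℕ → ℕ → ℕ → (ℕ → ℕ → ℕ → Bool) → Bool) (fun _ S A B g => g S A B)
    (fun Q1 Qi1 k1 al be _ ih f S A B g => @FL.rec (fun _ => Bool) false
      (fun Q Qi k _ _ f' _ => force (Nat.add S (Nat.mul (chD c e1 e2 Q1 Q)
          (Nat.mod (evD c l1 e1 l2 e2 k1 k) 128))) (fun S =>
        force (chD c e1 e2 Qi1 Qi) (fun z =>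
        force (Nat.add A (Nat.mul al z)) (fun A => force (Nat.add B (Nat.mul be z)) (fun B =>
          ih f' S A B g))))) f) f1

/-- coefficients of a relation, direct evaluation -/
noncomputable def coD (c : CD) (l1 e1 l2 e2 : ℕ) (f1 f : FL) (g : ℕ → ℕ → ℕ → ℕ → Bool) : Bool :=
  @FL.rec (fun _ => Bool) false (fun Q1 _ k1 _ _ f1' _ => @FL.rec (fun _ => Bool) false
    (fun Q _ k _ _ f' _ => force (evD c l1 e1 l2 e2 k1 k) (fun z => force (Nat.div z 128) (fun y =>
      force (Nat.mul (chD c e1 e2 Q1 Q) (Nat.mod z 128)) (fun S =>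
        lpD c l1 e1 l2 e2 f1' f' S 0 0 (fun S A B => g y S A B))))) f) f1

end Pool.Agent.H449
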