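import Pool.Agent.H449.B4

/-! Soundness of the kernel-friendly functions. -/

namespace Pool.Agent.H449

open H419R2 Finset
open Pool.Agent.N911 (imp cj sl sl1 sl2 evD chD cj_true imp_true mod_res res_cast' chkI inv_of pk Ent Chv)

/-- length of a shape -/
def SL.len : SL → ℕ
  | SL.nil => 0
  | SL.cons _ _ s => s.len + 1

/-- the partial quotients have the given shape -/
def Shp (κ : ℕ → ℤ) (u : ℤ) : SL → ℕ → Prop
  | SL.nil, _ => True
  | SL.cons al be s, n => κ n = al * u + be ∧ Shp κ u s (n + 1)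

/-- the recursion -/
def Rcr (q b κ : ℕ → ℤ) : SL → ℕ → Prop
  | SL.nil, _ => True
  | SL.cons _ _ s, n => (q (n + 2) = q n + b n * κ n - q (n + 1) * κ n ^ 2 ∧
      b (n + 1) = 2 * κ n * q (n + 1) - b n) ∧ Rcr q b κ s (n + 1)

/-- actual forms -/
def flG (q b qi : ℕ → ℤ) (l : ℕ) : SL → ℕ → ℕ → ℕ → FL
  | SL.nil, n, al, be => FL.cons (7 * res (q n) l) (7 * res (qi n) l)
      (pk l (b n * qi n) (q (n + 1) * qi n)) al be FL.nil
  | SL.cons al' be' s, n, al, be => FL.cons (7 * res (q n) l) (7 * res (qi n) l)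
      (pk l (b n * qi n) (q (n + 1) * qi n)) al be (flG q b qi l s (n + 1) al' be')

section mkF

variable {l I : ℕ}

theorem mkF_ex {u : ℕ} (sh : SL) : ∀ (al be qa b qb : ℕ) (c : FL → Bool),
    mkF l I u sh al be qa b qb c = true → ∃ f, c f = true := by
  induction sh with
  | nil =>
    intro al be qa b qb c h
    unfold mkF at h
    simp only [force_eq] at h
    exact ⟨_, h⟩
  | cons al' be' s ih =>
    intro al be qa b qb c h
    have e : mkF l I u (SL.cons al' be' s) al be qa b qb c =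
      force (Nat.mod (look I qa) l) (fun i => force (Nat.mul 7 qa) (fun Q =>
      force (Nat.mul 7 i) (fun Qi => force (Nat.mul 7 (Nat.add (Nat.mul (Nat.mod (Nat.mul b i) l) l)
        (Nat.mod (Nat.mul qb i) l))) (fun k =>
      force (Nat.mod (Nat.add (Nat.mul al' u) be') l) (fun κ =>
      force (Nat.mod (Nat.add (Nat.add qa (Nat.mul b κ))
        (Nat.mul (Nat.sub (Nat.mul l l) (Nat.mul κ κ)) qb)) l) (fun qc =>
      force (Nat.mod (Nat.add (Nat.mul (Nat.mul 2 κ) qb) (Nat.sub l b)) l) (fun nb =>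
        mkF l I u s al' be' qb nb qc (fun r => c (FL.cons Q Qi k al be r))))))))) := rfl
    rw [e] at h
    simp only [force_eq] at h
    obtain ⟨f, hf⟩ := ih _ _ _ _ _ _ h
    exact ⟨_, hf⟩

theorem mkF_sound (hl : 1 < l) (hI : chkI l I = true) {q b qi κ : ℕ → ℤ} {u : ℤ} (sh : SL) :
    ∀ (n al be : ℕ) (c : FL → Bool), Shp κ u sh n → Rcr q b κ sh n →
    (∀ j, n ≤ j → j ≤ n + sh.len → ((q j * qi j : ℤ) : ZMod l) = 1) →
    mkF l I (res u l) sh al be (res (q n) l) (res (b n) l) (res (q (n + 1)) l) c = true →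
    c (flG q b qi l sh n al be) = true := by
  have hl0 : 0 < l := by omega
  have key : ∀ n, ((q n * qi n : ℤ) : ZMod l) = 1 →
      Nat.mod (look I (res (q n) l)) l = res (qi n) l ∧
      Nat.mod (Nat.mul (res (b n) l) (res (qi n) l)) l = res (b n * qi n) l ∧
      Nat.mod (Nat.mul (res (q (n + 1)) l) (res (qi n) l)) l = res (q (n + 1) * qi n) l := by
    intro n hn
    refine ⟨?_, ?_, ?_⟩
    · apply mod_res hl0
      exact inv_of hl hI hn
    · apply mod_res hl0
      change ((res (b n) l * res (qi n) l : ℕ) : ZMod l) = _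
      push_cast
      rw [res_cast' _ hl0, res_cast' _ hl0]
    · apply mod_res hl0
      change ((res (q (n + 1)) l * res (qi n) l : ℕ) : ZMod l) = _
      push_cast
      rw [res_cast' _ hl0, res_cast' _ hl0]
  induction sh with
  | nil =>
    intro n al be c _ _ hinv h
    obtain ⟨k1, k2, k3⟩ := key n (hinv n (le_refl _) (by simp [SL.len]))
    unfold mkF at h
    simp only [force_eq, k1, k2, k3] at h
    exact h
  | cons al' be' s ih =>
    intro n al be c hS hR hinv h
    obtain ⟨k1, k2, k3⟩ := key n (hinv n (le_refl _) (by omega))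
    have e : mkF l I (res u l) (SL.cons al' be' s) al be (res (q n) l) (res (b n) l)
        (res (q (n + 1)) l) c =
      force (Nat.mod (look I (res (q n) l)) l) (fun i => force (Nat.mul 7 (res (q n) l)) (fun Q =>
      force (Nat.mul 7 i) (fun Qi => force (Nat.mul 7 (Nat.add
        (Nat.mul (Nat.mod (Nat.mul (res (b n) l) i) l) l)
        (Nat.mod (Nat.mul (res (q (n + 1)) l) i) l))) (fun k =>
      force (Nat.mod (Nat.add (Nat.mul al' (res u l)) be') l) (fun κ =>
      force (Nat.mod (Nat.add (Nat.add (res (q n) l) (Nat.mul (res (b n) l) κ))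
        (Nat.mul (Nat.sub (Nat.mul l l) (Nat.mul κ κ)) (res (q (n + 1)) l))) l) (fun qc =>
      force (Nat.mod (Nat.add (Nat.mul (Nat.mul 2 κ) (res (q (n + 1)) l))
        (Nat.sub l (res (b n) l))) l) (fun nb =>
        mkF l I (res u l) s al' be' (res (q (n + 1)) l) nb qc
          (fun r => c (FL.cons Q Qi k al be r))))))))) := rfl
    rw [e] at h
    obtain ⟨hS1, hS2⟩ := hS
    obtain ⟨⟨hR1, hR2⟩, hR3⟩ := hR
    have cl : ((l : ℕ) : ZMod l) = 0 := CharP.cast_eq_zero _ _
    have k4 : Nat.mod (Nat.add (Nat.mul al' (res u l)) be') l = res (κ n) l := by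
      apply mod_res hl0
      change ((al' * res u l + be' : ℕ) : ZMod l) = _
      push_cast
      rw [res_cast' _ hl0, hS1]
      push_cast; rfl
    have hκ := res_lt (κ n) hl0
    have k5 : Nat.mod (Nat.add (Nat.add (res (q n) l) (Nat.mul (res (b n) l) (res (κ n) l)))
        (Nat.mul (Nat.sub (Nat.mul l l) (Nat.mul (res (κ n) l) (res (κ n) l)))
          (res (q (n + 1)) l))) l = res (q (n + 2)) l := by
      apply mod_res hl0
      change ((res (q n) l + res (b n) l * res (κ n) l + (l * l - res (κ n) l * res (κ n) l) *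
        res (q (n + 1)) l : ℕ) : ZMod l) = _
      have h1 : res (κ n) l * res (κ n) l ≤ l * l := Nat.mul_le_mul hκ.le hκ.le
      push_cast [Nat.cast_sub h1]
      rw [res_cast' _ hl0, res_cast' _ hl0, res_cast' _ hl0, res_cast' _ hl0, cl, hR1]
      push_cast; ring
    have k6 : Nat.mod (Nat.add (Nat.mul (Nat.mul 2 (res (κ n) l)) (res (q (n + 1)) l))
        (Nat.sub l (res (b n) l))) l = res (b (n + 1)) l := by
      apply mod_res hl0
      change ((2 * res (κ n) l * res (q (n + 1)) l + (l - res (b n) l) : ℕ) : ZMod l) = _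
      have h1 := (res_lt (b n) hl0).le
      push_cast [Nat.cast_sub h1]
      rw [res_cast' _ hl0, res_cast' _ hl0, res_cast' _ hl0, cl, hR2]
      push_cast; ring
    simp only [force_eq, k1, k2, k3, k4, k5, k6] at h
    exact ih (n + 1) al' be' (fun r => c (FL.cons (Nat.mul 7 (res (q n) l)) (Nat.mul 7 (res (qi n) l))
      (Nat.mul 7 (Nat.add (Nat.mul (res (b n * qi n) l) l) (res (q (n + 1) * qi n) l))) al be r))
      hS2 hR3 (fun j hj1 hj2 => hinv j (by omega) (by simp only [SL.len]; omega)) h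

end mkF

/-! ### Lists of records -/

/-- membership -/
def RL.Mem (L : RL) (u v : ℕ) (f : FL) : Prop := ∀ g, L.all g = true → g u v f = true

theorem RL.all_cons (u v : ℕ) (f : FL) (L : RL) (g : ℕ → ℕ → FL → Bool) :
    (RL.cons u v f L).all g = cj (g u v f) (L.all g) := rfl

theorem RL.mem_head (u v : ℕ) (f : FL) (L : RL) : (RL.cons u v f L).Mem u v f := by
  intro g h
  rw [RL.all_cons, cj_true] at h
  exact h.1

theorem RL.mem_tail {u v u' v' : ℕ} {f f' : FL} {L : RL} (h : L.Mem u v f) :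
    (RL.cons u' v' f' L).Mem u v f := by
  intro g hg
  rw [RL.all_cons, cj_true] at hg
  exact h g hg.2

section mkRec

variable {l I Q : ℕ}

theorem mkRec_cases {dl : ℕ} {sh : SL} {u a R : ℕ} {c : ℕ → ℕ → FL → Bool} {d : Bool}
    (h : mkRec l I Q dl sh u a R c d = true) :
    d = true ∨ ∃ v f, c u v f = true := by
  unfold mkRec at h
  cases hb : tb Q (Nat.mod (Nat.add (Nat.mul a a) R) l) with
  | true =>
    rw [hb] at h
    exact Or.inl h
  | false =>
    rw [hb] at h
    right
    obtain ⟨f, hf⟩ := mkF_ex _ _ _ _ _ _ _ h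
    rw [force_eq] at hf
    exact ⟨_, f, hf⟩

/-- actual data modulo a prime -/
structure Loc (q b qi κ : ℕ → ℤ) (u a v : ℤ) (dl : ℕ) (sh : SL) : Prop where
  q0 : q 0 = 1
  b0 : b 0 = 2 * a
  av : a = v + dl
  shp : Shp κ u sh 0
  rcr : Rcr q b κ sh 0

theorem mkRec_sound (hl : 2 < l) (hI : chkI l I = true) (hQ : chkIq l Q = true)
    {q b qi κ : ℕ → ℤ} {u a v : ℤ} {dl : ℕ} {sh : SL} (D : Loc q b qi κ u a v dl sh) (hdl : dl ≤ 1)
    (hinv : ∀ j, j ≤ sh.len → ((q j * qi j : ℤ) : ZMod l) = 1)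
    (hns : ¬ IsSquare (((a ^ 2 + q 1 : ℤ)) : ZMod l)) {c : ℕ → ℕ → FL → Bool} {d : Bool}
    (h : mkRec l I Q dl sh (res u l) (res a l) (res (q 1) l) c d = true) :
    c (res u l) (res v l) (flG q b qi l sh 0 0 0) = true := by
  have hl0 : 0 < l := by omega
  have hb : tb Q (Nat.mod (Nat.add (Nat.mul (res a l) (res a l)) (res (q 1) l)) l) = false := by
    by_contra hc
    have hc' := Bool.eq_true_of_not_eq_false hc
    have h2 := tb_square hl0 hQ hc'
    apply hns
    have h3 : ((Nat.add (Nat.mul (res a l) (res a l)) (res (q 1) l) : ℕ) : ZMod l) =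
        ((a ^ 2 + q 1 : ℤ) : ZMod l) := by
      change ((res a l * res a l + res (q 1) l : ℕ) : ZMod l) = _
      push_cast
      rw [res_cast' _ hl0, res_cast' _ hl0]
      ring
    rw [h3] at h2
    exact h2
  unfold mkRec at h
  rw [hb] at h
  have e1 : Nat.mod (Nat.mul 2 (res a l)) l = res (b 0) l := by
    apply mod_res hl0
    change ((2 * res a l : ℕ) : ZMod l) = _
    push_cast
    rw [res_cast' _ hl0, D.b0]; push_cast; rfl
  have e2 : (1 : ℕ) = res (q 0) l := by
    rw [D.q0]
    symm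
    have : res 1 l = 1 % l := by
      rw [← mod_res (X := 1) (z := 1) hl0 (by push_cast; rfl)]; rfl
    rw [this, Nat.mod_eq_of_lt (by omega)]
  have e3 : Nat.mod (Nat.add (res a l) (Nat.sub l dl)) l = res v l := by
    apply mod_res hl0
    change ((res a l + (l - dl) : ℕ) : ZMod l) = _
    push_cast [Nat.cast_sub (show dl ≤ l by omega)]
    rw [res_cast' _ hl0, CharP.cast_eq_zero, D.av]
    push_cast; ring
  have h' : mkF l I (res u l) sh 0 0 (res (q 0) l) (res (b 0) l) (res (q 1) l) (fun f =>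
      force (res v l) (fun v => c (res u l) v f)) = true := by
    rw [← e2, ← e1, ← e3]; exact h
  have h4 := mkF_sound (by omega) hI sh 0 0 0 _ D.shp D.rcr (fun j _ hj => hinv j (by omega)) h'
  rw [force_eq] at h4
  exact h4

theorem mk1_succ {dl a0 y R0 R1 : ℕ} {sh : SL} (n : ℕ) (c : RL → Bool) :
    mk1 l I Q dl a0 y R0 R1 sh (n + 1) c =
    force (Nat.mod (Nat.add a0 (Nat.mul y n)) l) (fun a =>
    force (Nat.mod (Nat.add R0 (Nat.mul R1 n)) l) (fun R =>
      mkRec l I Q dl sh 0 a R (fun u v f => mk1 l I Q dl a0 y R0 R1 sh n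
        (fun r => c (RL.cons u v f r))) (mk1 l I Q dl a0 y R0 R1 sh n c))) := rfl

theorem mk1_ex {dl a0 y R0 R1 : ℕ} {sh : SL} (n : ℕ) : ∀ (c : RL → Bool),
    mk1 l I Q dl a0 y R0 R1 sh n c = true → ∃ L, c L = true := by
  induction n with
  | zero => intro c h; exact ⟨_, h⟩
  | succ n ih =>
    intro c h
    rw [mk1_succ] at h
    simp only [force_eq] at h
    rcases mkRec_cases h with h1 | ⟨v, f, h1⟩
    · exact ih _ h1
    · obtain ⟨L, hL⟩ := ih _ h1
      exact ⟨_, hL⟩

theorem mk1_sound (hl : 2 < l) (hI : chkI l I = true) (hQ : chkIq l Q = true)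
    {q b qi κ : ℕ → ℤ} {a v : ℤ} {dl : ℕ} {sh : SL} (D : Loc q b qi κ 0 a v dl sh) (hdl : dl ≤ 1)
    (hinv : ∀ j, j ≤ sh.len → ((q j * qi j : ℤ) : ZMod l) = 1)
    (hns : ¬ IsSquare (((a ^ 2 + q 1 : ℤ)) : ZMod l)) {a0 y R0 R1 t : ℕ}
    (ha : Nat.mod (Nat.add a0 (Nat.mul y t)) l = res a l)
    (hR : Nat.mod (Nat.add R0 (Nat.mul R1 t)) l = res (q 1) l) (n : ℕ) (ht : t < n) :
    ∀ (c : RL → Bool), mk1 l I Q dl a0 y R0 R1 sh n c = true →
      ∃ L, c L = true ∧ L.Mem (res 0 l) (res v l) (flG q b qi l sh 0 0 0) := by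
  have hl0 : 0 < l := by omega
  have e0 : (0 : ℕ) = res 0 l := by
    have : res 0 l = 0 % l := by
      rw [← mod_res (X := 0) (z := 0) hl0 (by push_cast; rfl)]; rfl
    rw [this]; simp
  induction n with
  | zero => exact absurd ht (Nat.not_lt_zero _)
  | succ n ih =>
    intro c h
    rw [mk1_succ] at h
    simp only [force_eq] at h
    rcases Nat.lt_succ_iff_lt_or_eq.mp ht with h1 | h1
    · rcases mkRec_cases h with h2 | ⟨v', f', h2⟩
      · exact ih h1 _ h2
      · obtain ⟨L, hL1, hL2⟩ := ih h1 _ h2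
        exact ⟨_, hL1, RL.mem_tail hL2⟩
    · subst h1
      rw [ha, hR] at h
      have h3 : mkRec l I Q dl sh (res 0 l) (res a l) (res (q 1) l)
        (fun u v f => mk1 l I Q dl a0 y R0 R1 sh t (fun r => c (RL.cons u v f r)))
        (mk1 l I Q dl a0 y R0 R1 sh t c) = true := by
        rw [← e0]; exact h
      have h4 := mkRec_sound hl hI hQ D hdl hinv hns h3
      obtain ⟨L, hL⟩ := mk1_ex _ _ h4
      exact ⟨_, hL, RL.mem_head _ _ _ _⟩

end mkRec

/-! ### Rows and sums -/

/-- rows -/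
def wF (x xi e : ℕ → ℕ) : SL → ℕ → ℕ → ℕ → WL
  | SL.nil, n, al, be => WL.cons (x n) (xi n) (e n) al be WL.nil
  | SL.cons al' be' s, n, al, be => WL.cons (x n) (xi n) (e n) al be (wF x xi e s (n + 1) al' be')

section rows

variable {q b qi : ℕ → ℤ} {l : ℕ}

theorem mkW_eq (n1 n2 X E : ℕ) (sh : SL) : ∀ (n al be : ℕ) (c : WL → Bool),
    mkW n1 n2 X E (flG q b qi l sh n al be) c =
    c (wF (fun n => sl n1 X (7 * res (q n) l)) (fun n => sl n1 X (7 * res (qi n) l))
      (fun n => sl n2 E (pk l (b n * qi n) (q (n + 1) * qi n))) sh n al be) := by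
  induction sh with
  | nil =>
    intro n al be c
    unfold mkW
    simp only [flG, force_eq]
    rfl
  | cons al' be' s ih =>
    intro n al be c
    have e : mkW n1 n2 X E (flG q b qi l (SL.cons al' be' s) n al be) c =
      force (sl n1 X (7 * res (q n) l)) (fun x => force (sl n1 X (7 * res (qi n) l)) (fun xi =>
      force (sl n2 E (pk l (b n * qi n) (q (n + 1) * qi n))) (fun e =>
        mkW n1 n2 X E (flG q b qi l s (n + 1) al' be') (fun r => c (WL.cons x xi e al be r))))) := rfl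
    rw [e, force_eq, force_eq, force_eq, ih]
    rfl

theorem mkW2_eq (n1 n2 : ℕ) (x xi e : ℕ → ℕ) (sh : SL) : ∀ (n al be : ℕ) (c : WL → Bool),
    mkW2 n1 n2 (wF x xi e sh n al be) (flG q b qi l sh n al be) c =
    c (wF (fun n => sl n1 (x n) (7 * res (q n) l)) (fun n => sl n1 (xi n) (7 * res (qi n) l))
      (fun n => sl n2 (e n) (pk l (b n * qi n) (q (n + 1) * qi n))) sh n al be) := by
  induction sh with
  | nil =>
    intro n al be c
    unfold mkW2
    simp only [flG, wF, force_eq]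
  | cons al' be' s ih =>
    intro n al be c
    have e : mkW2 n1 n2 (wF x xi e (SL.cons al' be' s) n al be)
        (flG q b qi l (SL.cons al' be' s) n al be) c =
      force (sl n1 (x n) (7 * res (q n) l)) (fun x' => force (sl n1 (xi n) (7 * res (qi n) l)) (fun xi' =>
      force (sl n2 (e n) (pk l (b n * qi n) (q (n + 1) * qi n))) (fun e' =>
        mkW2 n1 n2 (wF x xi e s (n + 1) al' be') (flG q b qi l s (n + 1) al' be')
          (fun r => c (WL.cons x' xi' e' al be r))))) := rfl
    rw [e, force_eq, force_eq, force_eq, ih]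
    rfl

end rows

/-- sum of the first kind -/
def sumS (x e : ℕ → ℕ) : SL → ℕ → ℕ
  | SL.nil, n => x n * (e n % 128)
  | SL.cons _ _ s, n => x n * (e n % 128) + sumS x e s (n + 1)

/-- sum of the second kind, coefficient of `u` -/
def sumA (xi : ℕ → ℕ) : SL → ℕ → ℕ
  | SL.nil, _ => 0
  | SL.cons al _ s, n => al * xi (n + 1) + sumA xi s (n + 1)

/-- sum of the second kind, constant term -/
def sumB (xi : ℕ → ℕ) : SL → ℕ → ℕ
  | SL.nil, _ => 0
  | SL.cons _ be s, n => be * xi (n + 1) + sumB xi s (n + 1)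

theorem lp_eq {q b qi : ℕ → ℤ} {l : ℕ} (x xi e : ℕ → ℕ) (sh : SL) :
    ∀ (n al be S A B : ℕ) (c : ℕ → ℕ → ℕ → Bool),
    lp (wF x xi e sh n al be) (flG q b qi l sh n al be) S A B c =
    c (S + sumS (fun n => sl1 (x n) (7 * res (q n) l))
        (fun n => sl2 (e n) (pk l (b n * qi n) (q (n + 1) * qi n))) sh n)
      (A + al * sl1 (xi n) (7 * res (qi n) l) + sumA (fun n => sl1 (xi n) (7 * res (qi n) l)) sh n)
      (B + be * sl1 (xi n) (7 * res (qi n) l) +
        sumB (fun n => sl1 (xi n) (7 * res (qi n) l)) sh n) := by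
  induction sh with
  | nil =>
    intro n al be S A B c
    unfold lp
    simp only [flG, wF, force_eq, sumS, sumA, sumB]
    rfl
  | cons al' be' s ih =>
    intro n al be S A B c
    have e : lp (wF x xi e (SL.cons al' be' s) n al be)
        (flG q b qi l (SL.cons al' be' s) n al be) S A B c =
      force (Nat.add S (Nat.mul (sl1 (x n) (7 * res (q n) l)) (Nat.mod (sl2 (e n)
        (pk l (b n * qi n) (q (n + 1) * qi n))) 128))) (fun S =>
        force (sl1 (xi n) (7 * res (qi n) l)) (fun z =>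
        force (Nat.add A (Nat.mul al z)) (fun A => force (Nat.add B (Nat.mul be z)) (fun B =>
          lp (wF x xi e s (n + 1) al' be') (flG q b qi l s (n + 1) al' be') S A B c)))) := rfl
    rw [e, force_eq, force_eq, force_eq, force_eq, ih]
    simp only [sumS, sumA, sumB]
    congr 1
    · change S + _ * (_ % 128) + _ = _
      ring
    · change A + _ * _ + _ + _ = _
      ring
    · change B + _ * _ + _ + _ = _
      ring

theorem coT_eq {q b qi : ℕ → ℤ} {l : ℕ} (x xi e : ℕ → ℕ) (sh : SL)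
    (c : ℕ → ℕ → ℕ → ℕ → Bool) :
    coT (wF x xi e sh 0 0 0) (flG q b qi l sh 0 0 0) c =
    c (sl2 (e 0) (pk l (b 0 * qi 0) (q 1 * qi 0)) / 128)
      (sumS (fun n => sl1 (x n) (7 * res (q n) l))
        (fun n => sl2 (e n) (pk l (b n * qi n) (q (n + 1) * qi n))) sh 0)
      (sumA (fun n => sl1 (xi n) (7 * res (qi n) l)) sh 0)
      (sumB (fun n => sl1 (xi n) (7 * res (qi n) l)) sh 0) := by
  cases sh with
  | nil =>
    unfold coT
    simp only [flG, wF, force_eq]
    rfl
  | cons al' be' s =>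
    have e : coT (wF x xi e (SL.cons al' be' s) 0 0 0) (flG q b qi l (SL.cons al' be' s) 0 0 0) c =
      force (sl2 (e 0) (pk l (b 0 * qi 0) (q (0 + 1) * qi 0))) (fun z => force (Nat.div z 128) (fun y =>
      force (Nat.mul (sl1 (x 0) (7 * res (q 0) l)) (Nat.mod z 128)) (fun S =>
        lp (wF x xi e s (0 + 1) al' be') (flG q b qi l s (0 + 1) al' be') S 0 0
          (fun S A B => c y S A B)))) := rfl
    rw [e, force_eq, force_eq, force_eq, lp_eq]
    simp only [sumS, sumA, sumB, zero_add]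
    rfl

end Pool.Agent.H449
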