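import Pool.Agent.H449.B5

/-! The linear test passes for actual data. -/

namespace Pool.Agent.H449

open H419R2 Finset
open Pool.Agent.N911 (imp cj sl sl1 sl2 evD chD cj_true imp_true mod_res res_cast' chkI inv_of pk Ent
  Chv beq_mod evD_sound chD_sound idem)

theorem sumS_eq (x e : ℕ → ℕ) (s : SL) : ∀ n, sumS x e s n =
    ∑ j ∈ range (s.len + 1), x (n + j) * (e (n + j) % 128) := by
  induction s with
  | nil => intro n; simp [sumS, SL.len]
  | cons al be s ih =>
    intro n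
    rw [SL.len, Finset.sum_range_succ', sumS, ih, add_comm]
    congr 1
    apply Finset.sum_congr rfl
    intro j _
    rw [show n + 1 + j = n + (j + 1) by ring]

theorem sumAB_eq {p : ℕ} {κ : ℕ → ℤ} {u : ℤ} (xi : ℕ → ℕ) (s : SL) : ∀ n, Shp κ u s n →
    ∑ j ∈ range s.len, (κ (n + j) : ZMod p) * ((xi (n + j + 1) : ℕ) : ZMod p) =
    (u : ZMod p) * ((sumA xi s n : ℕ) : ZMod p) + ((sumB xi s n : ℕ) : ZMod p) := by
  induction s with
  | nil => intro n _; simp [sumA, sumB, SL.len]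
  | cons al be s ih =>
    intro n h
    obtain ⟨h1, h2⟩ := h
    rw [SL.len, Finset.sum_range_succ', sumA, sumB]
    have h3 := ih (n + 1) h2
    have e : ∑ k ∈ range s.len, (κ (n + (k + 1)) : ZMod p) * ((xi (n + (k + 1) + 1) : ℕ) : ZMod p) =
        ∑ j ∈ range s.len, (κ (n + 1 + j) : ZMod p) * ((xi (n + 1 + j + 1) : ℕ) : ZMod p) := by
      apply Finset.sum_congr rfl
      intro j _
      rw [show n + (j + 1) = n + 1 + j by ring]
    rw [e, h3, add_zero, h1]
    push_cast
    ring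

/-- data of the half cycle in terms of a shape -/
structure HS (H : Half) (sh : SL) (u v : ℤ) (dl : ℕ) : Prop where
  len : sh.len + 1 = H.k
  shp : Shp (fun n => (H.κ n : ℤ)) u sh 0
  hv : (H.κ (H.k - 1) : ℤ) = v
  hb : H.b 0 = 2 * (v + dl)

theorem lin_sound {c : CD} {H : Half} {qi : ℕ → ℤ} {sh : SL} {u v : ℤ} {dl x2 : ℕ}
    (hp : 0 < c.p)
    (hN : NRelH c H qi) (S : HS H sh u v dl) (hx2 : Chv c x2 (qi H.k)) {x xi e : ℕ → ℕ}
    (hE : ∀ n, n < H.k → Ent c (e n) (H.b n * qi n) (H.q (n + 1) * qi n))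
    (hX : ∀ n, n < H.k → Chv c (x n) (H.q n)) (hI : ∀ n, n < H.k → Chv c (xi n) (qi n))
    {g : ℕ → ℕ → ℕ → Bool}
    (h : kuv c.p x2 dl (e 0 / 128) (sumS x e sh 0) (sumA xi sh 0) (sumB xi sh 0) g = true) :
    ∃ K U V, lin c.p K U V (res u c.p) (res v c.p) = true ∧ g K U V = true := by
  unfold kuv at h
  simp only [force_eq] at h
  refine ⟨_, _, _, ?_, h⟩
  unfold lin
  apply beq_mod
  have h1 := hN e x (fun n => if n < H.k then xi n else x2) hE hX (by
    intro n hn
    by_cases h2 : n < H.k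
    · simp only [if_pos h2]; exact hI n h2
    · have : n = H.k := by omega
      subst this
      simp only [lt_irrefl, if_false]; exact hx2)
  simp only [lt_irrefl, if_false] at h1
  have e1 : ∑ n ∈ range H.k, ((x n : ℕ) : ZMod c.p) * ((e n % 128 : ℕ) : ZMod c.p) =
      ((sumS x e sh 0 : ℕ) : ZMod c.p) := by
    rw [sumS_eq, S.len]
    push_cast
    apply Finset.sum_congr rfl
    intro n _
    rw [zero_add]
  have e2 : ∑ n ∈ range (H.k - 1), (H.κ n : ZMod c.p) *
      (((if n + 1 < H.k then xi (n + 1) else x2 : ℕ)) : ZMod c.p) =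
      (u : ZMod c.p) * ((sumA xi sh 0 : ℕ) : ZMod c.p) + ((sumB xi sh 0 : ℕ) : ZMod c.p) := by
    rw [← sumAB_eq xi sh 0 S.shp]
    have hl : H.k - 1 = sh.len := by have := S.len; omega
    rw [hl]
    apply Finset.sum_congr rfl
    intro n hn
    rw [Finset.mem_range] at hn
    have := S.len
    rw [if_pos (by omega), zero_add]
    push_cast
    rfl
  rw [e1, e2] at h1
  have hv := congrArg (fun z : ℤ => (z : ZMod c.p)) S.hv
  have hb := congrArg (fun z : ℤ => (z : ZMod c.p)) S.hb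
  push_cast at hv hb
  rw [hv, hb] at h1
  change (((sumS x e sh 0 + 2 * (e 0 / 128) * (sumB xi sh 0 + dl)) % c.p +
    (2 * (e 0 / 128) * sumA xi sh 0 % c.p * res u c.p + (e 0 / 128) * (x2 + 2) % c.p * res v c.p) : ℕ) :
    ZMod c.p) = 0
  push_cast
  rw [ZMod.natCast_mod, ZMod.natCast_mod, ZMod.natCast_mod, res_cast' u hp, res_cast' v hp]
  push_cast
  linear_combination h1

theorem imp_lin {c : CD} {H : Half} {qi : ℕ → ℤ} {sh : SL} {u v : ℤ} {dl x2 : ℕ}
    (hp : 0 < c.p)
    (hN : NRelH c H qi) (S : HS H sh u v dl) (hx2 : Chv c x2 (qi H.k)) {x xi e : ℕ → ℕ}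
    (hE : ∀ n, n < H.k → Ent c (e n) (H.b n * qi n) (H.q (n + 1) * qi n))
    (hX : ∀ n, n < H.k → Chv c (x n) (H.q n)) (hI : ∀ n, n < H.k → Chv c (xi n) (qi n))
    {next : Bool}
    (h : kuv c.p x2 dl (e 0 / 128) (sumS x e sh 0) (sumA xi sh 0) (sumB xi sh 0)
      (fun K U V => imp (lin c.p K U V (res u c.p) (res v c.p)) next) = true) : next = true := by
  obtain ⟨K, U, V, h1, h2⟩ := lin_sound hp hN S hx2 hE hX hI h
  exact imp_true h2 h1

/-! ### Direct evaluation -/

theorem lpD_eq {c : CD} {l1 e1 l2 e2 : ℕ} {q b qi : ℕ → ℤ} (sh : SL) :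
    ∀ (n al be S A B : ℕ) (g : ℕ → ℕ → ℕ → Bool),
    lpD c l1 e1 l2 e2 (flG q b qi l1 sh n al be) (flG q b qi l2 sh n al be) S A B g =
    g (S + sumS (fun n => chD c e1 e2 (7 * res (q n) l1) (7 * res (q n) l2))
        (fun n => evD c l1 e1 l2 e2 (pk l1 (b n * qi n) (q (n + 1) * qi n))
          (pk l2 (b n * qi n) (q (n + 1) * qi n))) sh n)
      (A + al * chD c e1 e2 (7 * res (qi n) l1) (7 * res (qi n) l2) +
        sumA (fun n => chD c e1 e2 (7 * res (qi n) l1) (7 * res (qi n) l2)) sh n)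
      (B + be * chD c e1 e2 (7 * res (qi n) l1) (7 * res (qi n) l2) +
        sumB (fun n => chD c e1 e2 (7 * res (qi n) l1) (7 * res (qi n) l2)) sh n) := by
  induction sh with
  | nil =>
    intro n al be S A B c
    unfold lpD
    simp only [flG, force_eq, sumS, sumA, sumB]
    rfl
  | cons al' be' s ih =>
    intro n al be S A B g
    have e : lpD c l1 e1 l2 e2 (flG q b qi l1 (SL.cons al' be' s) n al be)
        (flG q b qi l2 (SL.cons al' be' s) n al be) S A B g =
      force (Nat.add S (Nat.mul (chD c e1 e2 (7 * res (q n) l1) (7 * res (q n) l2))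
          (Nat.mod (evD c l1 e1 l2 e2 (pk l1 (b n * qi n) (q (n + 1) * qi n))
          (pk l2 (b n * qi n) (q (n + 1) * qi n))) 128))) (fun S =>
        force (chD c e1 e2 (7 * res (qi n) l1) (7 * res (qi n) l2)) (fun z =>
        force (Nat.add A (Nat.mul al z)) (fun A => force (Nat.add B (Nat.mul be z)) (fun B =>
          lpD c l1 e1 l2 e2 (flG q b qi l1 s (n + 1) al' be') (flG q b qi l2 s (n + 1) al' be')
            S A B g)))) := rfl
    rw [e, force_eq, force_eq, force_eq, force_eq, ih]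
    simp only [sumS, sumA, sumB]
    congr 1
    · change S + _ * (_ % 128) + _ = _
      ring
    · change A + _ * _ + _ + _ = _
      ring
    · change B + _ * _ + _ + _ = _
      ring

theorem coD_eq {c : CD} {l1 e1 l2 e2 : ℕ} {q b qi : ℕ → ℤ} (sh : SL)
    (g : ℕ → ℕ → ℕ → ℕ → Bool) :
    coD c l1 e1 l2 e2 (flG q b qi l1 sh 0 0 0) (flG q b qi l2 sh 0 0 0) g =
    g (evD c l1 e1 l2 e2 (pk l1 (b 0 * qi 0) (q (0 + 1) * qi 0))
          (pk l2 (b 0 * qi 0) (q (0 + 1) * qi 0)) / 128)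
      (sumS (fun n => chD c e1 e2 (7 * res (q n) l1) (7 * res (q n) l2))
        (fun n => evD c l1 e1 l2 e2 (pk l1 (b n * qi n) (q (n + 1) * qi n))
          (pk l2 (b n * qi n) (q (n + 1) * qi n))) sh 0)
      (sumA (fun n => chD c e1 e2 (7 * res (qi n) l1) (7 * res (qi n) l2)) sh 0)
      (sumB (fun n => chD c e1 e2 (7 * res (qi n) l1) (7 * res (qi n) l2)) sh 0) := by
  cases sh with
  | nil =>
    unfold coD
    simp only [flG, force_eq]
    rfl
  | cons al' be' s =>
    have e : coD c l1 e1 l2 e2 (flG q b qi l1 (SL.cons al' be' s) 0 0 0)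
        (flG q b qi l2 (SL.cons al' be' s) 0 0 0) g =
      force (evD c l1 e1 l2 e2 (pk l1 (b 0 * qi 0) (q (0 + 1) * qi 0))
          (pk l2 (b 0 * qi 0) (q (0 + 1) * qi 0))) (fun z => force (Nat.div z 128) (fun y =>
      force (Nat.mul (chD c e1 e2 (7 * res (q 0) l1) (7 * res (q 0) l2)) (Nat.mod z 128)) (fun S =>
        lpD c l1 e1 l2 e2 (flG q b qi l1 s (0 + 1) al' be') (flG q b qi l2 s (0 + 1) al' be') S 0 0
          (fun S A B => g y S A B)))) := rfl
    rw [e, force_eq, force_eq, force_eq, lpD_eq]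
    simp only [sumS, sumA, sumB, zero_add]
    rfl

end Pool.Agent.H449
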