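import Pool.Agent.H449.B4
import Pool.Graph.R_pool_sql_team_seeded_63374d34.N911.K2

/-! The sieve for half cycles. -/

set_option maxRecDepth 100000

namespace Pool.Agent.H449

open H419R2
open Pool.Agent.N911

/-- continuation with the data at all primes -/
abbrev Fin6 := (u v : ℕ) → (f : FL) → (u v : ℕ) → (f : FL) → (u v : ℕ) → (f : FL) →
  (u v : ℕ) → (f : FL) → (u v : ℕ) → (f : FL) → (u v : ℕ) → (f : FL) → Bool

/-- last stage -/
noncomputable def st37 (dl u7 v7 : ℕ) (f7 : FL) (u19 v19 : ℕ) (f19 : FL) (u5 v5 : ℕ) (f5 : FL)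
    (u13 v13 : ℕ) (f13 : FL) (u3 v3 : ℕ) (f3 : FL) (u37 v37 : ℕ) (f37 : FL) (fin : Fin6) : Bool :=
  mkW 3 18 X111_0 E111_0 f37 <| fun w => coT w f3 <| fun y S A B =>
    kuv 19 10 dl y S A B <| fun K U V => imp (lin 19 K U V u19 v19) <|
  mkW 3 18 X111_1 E111_1 f37 <| fun w => coT w f3 <| fun y S A B =>
    kuv 19 5 dl y S A B <| fun K U V => imp (lin 19 K U V u19 v19) <|
  mkW 5 50 X185 E185 f37 <| fun w => coT w f5 <| fun y S A B =>
    kuv 13 6 dl y S A B <| fun K U V => imp (lin 13 K U V u13 v13) <|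
  mkW 7 98 X259_0 E259_0 f37 <| fun w => coT w f7 <| fun y S A B =>
    kuv 19 4 dl y S A B <| fun K U V => imp (lin 19 K U V u19 v19) <|
  mkW 7 98 X259_1 E259_1 f37 <| fun w => coT w f7 <| fun y S A B =>
    kuv 19 12 dl y S A B <| fun K U V => imp (lin 19 K U V u19 v19) <|
      fin u7 v7 f7 u19 v19 f19 u5 v5 f5 u13 v13 f13 u3 v3 f3 u37 v37 f37

/-- the sieve -/
noncomputable def sv (dl : ℕ) (L7 L19 L5 L3 L13 L37 : RL) (fin : Fin6) : Bool :=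
  L7.all <| fun u7 v7 f7 =>
    mkW 19 722 X133_13 E133_13 f7 <| fun wa => mkW 19 722 X133_37 E133_37 f7 <| fun wb =>
    mkW 15 450 X105 E105 f7 <| fun wc => mkW 13 338 X91 E91 f7 <| fun wd =>
  L19.all <| fun u19 v19 f19 =>
    coT wa f19 <| fun y S A B => kuv 13 1 dl y S A B <| fun K1 U1 V1 =>
    mkW 5 50 X95 E95 f19 <| fun we =>
  L5.all <| fun u5 v5 f5 =>
    coT we f5 <| fun y S A B => kuv 13 2 dl y S A B <| fun K2 U2 V2 =>
  L13.all <| fun u13 v13 f13 =>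
    imp (lin 13 K1 U1 V1 u13 v13) <| imp (lin 13 K2 U2 V2 u13 v13) <|
  L3.all <| fun u3 v3 f3 =>
    mkW2 5 50 wc f3 <| fun wf => coT wf f5 <| fun y S A B =>
    kuv 13 6 dl y S A B <| fun K3 U3 V3 => imp (lin 13 K3 U3 V3 u13 v13) <|
    coT wb f19 <| fun y S A B => kuv 37 16 dl y S A B <| fun K4 U4 V4 =>
    coT wd f13 <| fun y S A B => kuv 37 29 dl y S A B <| fun K5 U5 V5 =>
  L37.all <| fun u37 v37 f37 =>
    imp (lin 37 K4 U4 V4 u37 v37) <| imp (lin 37 K5 U5 V5 u37 v37) <|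
      st37 dl u7 v7 f7 u19 v19 f19 u5 v5 f5 u13 v13 f13 u3 v3 f3 u37 v37 f37 fin

/-- the whole sieve for a family with one parameter -/
noncomputable def sieve1 (dl a0 y R0 R1 : ℕ) (sh : SL) (fin : Fin6) : Bool :=
  mk1 7 I7 Q7 dl a0 y R0 R1 sh 7 <| fun L7 => mk1 19 I19 Q19 dl a0 y R0 R1 sh 19 <| fun L19 =>
  mk1 5 I5 Q5 dl a0 y R0 R1 sh 5 <| fun L5 => mk1 3 I3 Q3 dl a0 y R0 R1 sh 3 <| fun L3 =>
  mk1 13 I13 Q13 dl a0 y R0 R1 sh 13 <| fun L13 => mk1 37 I37 Q37 dl a0 y R0 R1 sh 37 <| fun L37 =>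
    sv dl L7 L19 L5 L3 L13 L37 fin

/-- trivial continuation -/
def ff : Fin6 := fun _ _ _ _ _ _ _ _ _ _ _ _ _ _ _ _ _ _ => false

end Pool.Agent.H449
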