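import Pool.Agent.H449.B6
import Pool.Agent.H449.C1
import Pool.Graph.R_pool_sql_team_seeded_63374d34.N911.TT

/-! Soundness of the sieve. -/

set_option maxRecDepth 100000

namespace Pool.Agent.H449

open H419R2 Finset
open Pool.Agent.N911

/-- the primes of the sieve -/
def PL : List ℕ := [3, 5, 7, 13, 19, 37, 61, 73]

/-- the modulus -/
def M1 : ℕ := 3 * 5 * 7 * 13 * 19 * 37 * 61 * 73

/-- all that is used about the data -/
structure Sys (H : Half) (qi : ℕ → ℤ) (sh : SL) (u v : ℤ) (dl : ℕ) : Prop where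
  hs : HS H sh u v dl
  hdl : dl ≤ 1
  qi0 : qi 0 = 1
  qk : H.q H.k = 2
  inv : ∀ n, n ≤ H.k → (M1 : ℤ) ∣ H.q n * qi n - 1
  nsq : ∀ l ∈ PL, ¬ IsSquare (((H.b 0 ^ 2 + 4 * H.q 1 : ℤ)) : ZMod l)
  rel : ∀ c : CD, c.OK → c.q ∣ M1 → c.p ∣ M1 → NRelH c H qi

namespace Sys

variable {H : Half} {qi : ℕ → ℤ} {sh : SL} {u v : ℤ} {dl : ℕ}

theorem inv_mod (S : Sys H qi sh u v dl) {l : ℕ} (hl : l ∣ M1) {n : ℕ} (hn : n ≤ H.k) :
    ((H.q n * qi n : ℤ) : ZMod l) = 1 := by
  have h1 : (l : ℤ) ∣ H.q n * qi n - 1 := (Int.natCast_dvd_natCast.mpr hl).trans (S.inv n hn)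
  have h2 := (ZMod.intCast_zmod_eq_zero_iff_dvd _ l).mpr h1
  push_cast at h2 ⊢
  linear_combination h2

theorem valid (S : Sys H qi sh u v dl) {l : ℕ} (hl : l ∈ PL) (hM : l ∣ M1) (h4 : l ≠ 4) {n : ℕ}
    (hn : n < H.k) : V l (H.b n * qi n) (H.q (n + 1) * qi n) := by
  unfold V
  rw [if_neg h4]
  rintro ⟨r, hr⟩
  apply S.nsq l hl
  refine ⟨r * H.q n, ?_⟩
  have h1 := congrArg (fun z : ℤ => (z : ZMod l)) (H.disc n hn)
  have hi := S.inv_mod hM (n := n) (by omega)
  push_cast at h1 hr hi ⊢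
  linear_combination (H.q n : ZMod l) ^ 2 * hr - h1 +
    (-(H.b n : ZMod l) ^ 2 * ((H.q n : ZMod l) * qi n + 1) - 4 * (H.q (n + 1) : ZMod l) * (H.q n : ZMod l)) * hi

/-- value of the character at the inverse of two -/
theorem chv2 (S : Sys H qi sh u v dl) {c : CD} {x2 : ℕ} (hq : c.q ∣ M1) (hq1 : 1 < c.q)
    (hodd : c.q % 2 = 1) (hx : look c.T ((c.q + 1) / 2) = x2) : Chv c x2 (qi H.k) := by
  intro hne
  have h1 := S.inv_mod hq (n := H.k) (le_refl _)
  rw [S.qk] at h1
  have h2 : ((qi H.k : ℤ) : ZMod c.q) = (((c.q + 1) / 2 : ℕ) : ZMod c.q) := by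
    have h3 : 2 * ((c.q + 1) / 2) = c.q + 1 := by omega
    have h4 := congrArg (fun z : ℕ => (z : ZMod c.q)) h3
    push_cast at h4
    rw [ZMod.natCast_self c.q, zero_add] at h4
    push_cast at h1
    linear_combination (-(qi H.k : ZMod c.q)) * h4 + (((c.q + 1) / 2 : ℕ) : ZMod c.q) * h1
  rw [h2]
  unfold chi
  rw [ZMod.val_natCast, Nat.mod_eq_of_lt (by omega), hx]

end Sys

/-- actual forms -/
abbrev flH (H : Half) (qi : ℕ → ℤ) (sh : SL) (l : ℕ) : FL := flG H.q H.b qi l sh 0 0 0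

theorem st37_sound {H : Half} {qi : ℕ → ℤ} {sh : SL} {u v : ℤ} {dl : ℕ} (S : Sys H qi sh u v dl)
    {fin : Fin6}
    (h : st37 dl (res u 7) (res v 7) (flH H qi sh 7) (res u 19) (res v 19) (flH H qi sh 19)
      (res u 5) (res v 5) (flH H qi sh 5) (res u 13) (res v 13) (flH H qi sh 13)
      (res u 3) (res v 3) (flH H qi sh 3) (res u 37) (res v 37) (flH H qi sh 37) fin = true) :
    fin (res u 7) (res v 7) (flH H qi sh 7) (res u 19) (res v 19) (flH H qi sh 19)
      (res u 5) (res v 5) (flH H qi sh 5) (res u 13) (res v 13) (flH H qi sh 13)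
      (res u 3) (res v 3) (flH H qi sh 3) (res u 37) (res v 37) (flH H qi sh 37) = true := by
  have v3 : ∀ n, n < H.k → V 3 (H.b n * qi n) (H.q (n + 1) * qi n) := fun n hn =>
    S.valid (by decide) (by decide) (by decide) hn
  have v5 : ∀ n, n < H.k → V 5 (H.b n * qi n) (H.q (n + 1) * qi n) := fun n hn =>
    S.valid (by decide) (by decide) (by decide) hn
  have v7 : ∀ n, n < H.k → V 7 (H.b n * qi n) (H.q (n + 1) * qi n) := fun n hn =>
    S.valid (by decide) (by decide) (by decide) hn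
  have v37 : ∀ n, n < H.k → V 37 (H.b n * qi n) (H.q (n + 1) * qi n) := fun n hn =>
    S.valid (by decide) (by decide) (by decide) hn
  unfold st37 at h
  rw [mkW_eq, coT_eq] at h
  have h := imp_lin (c := c111_19_0) (x2 := 10) (by decide) (S.rel _ c111_19_0_ok (by decide) (by decide)) S.hs
    (S.chv2 (by decide) (by decide) (by decide) (by decide +kernel))
    (fun n hn => tab_111_0 (v37 n hn) (v3 n hn)) (fun n _ => chv_111_0 _) (fun n _ => chv_111_0 _) h
  rw [mkW_eq, coT_eq] at h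
  have h := imp_lin (c := c111_19_1) (x2 := 5) (by decide) (S.rel _ c111_19_1_ok (by decide) (by decide)) S.hs
    (S.chv2 (by decide) (by decide) (by decide) (by decide +kernel))
    (fun n hn => tab_111_1 (v37 n hn) (v3 n hn)) (fun n _ => chv_111_1 _) (fun n _ => chv_111_1 _) h
  rw [mkW_eq, coT_eq] at h
  have h := imp_lin (c := c185_13) (x2 := 6) (by decide) (S.rel _ c185_13_ok (by decide) (by decide)) S.hs
    (S.chv2 (by decide) (by decide) (by decide) (by decide +kernel))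
    (fun n hn => tab_185 (v37 n hn) (v5 n hn)) (fun n _ => chv_185 _) (fun n _ => chv_185 _) h
  rw [mkW_eq, coT_eq] at h
  have h := imp_lin (c := c259_19_0) (x2 := 4) (by decide) (S.rel _ c259_19_0_ok (by decide) (by decide)) S.hs
    (S.chv2 (by decide) (by decide) (by decide) (by decide +kernel))
    (fun n hn => tab_259_0 (v37 n hn) (v7 n hn)) (fun n _ => chv_259_0 _) (fun n _ => chv_259_0 _) h
  rw [mkW_eq, coT_eq] at h
  have h := imp_lin (c := c259_19_1) (x2 := 12) (by decide) (S.rel _ c259_19_1_ok (by decide) (by decide)) S.hs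
    (S.chv2 (by decide) (by decide) (by decide) (by decide +kernel))
    (fun n hn => tab_259_1 (v37 n hn) (v7 n hn)) (fun n _ => chv_259_1 _) (fun n _ => chv_259_1 _) h
  exact h

theorem sv_sound {H : Half} {qi : ℕ → ℤ} {sh : SL} {u v : ℤ} {dl : ℕ} (S : Sys H qi sh u v dl)
    {L7 L19 L5 L3 L13 L37 : RL}
    (m7 : L7.Mem (res u 7) (res v 7) (flH H qi sh 7))
    (m19 : L19.Mem (res u 19) (res v 19) (flH H qi sh 19))
    (m5 : L5.Mem (res u 5) (res v 5) (flH H qi sh 5))
    (m3 : L3.Mem (res u 3) (res v 3) (flH H qi sh 3))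
    (m13 : L13.Mem (res u 13) (res v 13) (flH H qi sh 13))
    (m37 : L37.Mem (res u 37) (res v 37) (flH H qi sh 37))
    {fin : Fin6} (h : sv dl L7 L19 L5 L3 L13 L37 fin = true) :
    fin (res u 7) (res v 7) (flH H qi sh 7) (res u 19) (res v 19) (flH H qi sh 19)
      (res u 5) (res v 5) (flH H qi sh 5) (res u 13) (res v 13) (flH H qi sh 13)
      (res u 3) (res v 3) (flH H qi sh 3) (res u 37) (res v 37) (flH H qi sh 37) = true := by
  have v3 : ∀ n, n < H.k → V 3 (H.b n * qi n) (H.q (n + 1) * qi n) := fun n hn =>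
    S.valid (by decide) (by decide) (by decide) hn
  have v5 : ∀ n, n < H.k → V 5 (H.b n * qi n) (H.q (n + 1) * qi n) := fun n hn =>
    S.valid (by decide) (by decide) (by decide) hn
  have v7 : ∀ n, n < H.k → V 7 (H.b n * qi n) (H.q (n + 1) * qi n) := fun n hn =>
    S.valid (by decide) (by decide) (by decide) hn
  have v13 : ∀ n, n < H.k → V 13 (H.b n * qi n) (H.q (n + 1) * qi n) := fun n hn =>
    S.valid (by decide) (by decide) (by decide) hn
  have v19 : ∀ n, n < H.k → V 19 (H.b n * qi n) (H.q (n + 1) * qi n) := fun n hn =>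
    S.valid (by decide) (by decide) (by decide) hn
  unfold sv at h
  have h := m7 _ h
  rw [mkW_eq, mkW_eq, mkW_eq, mkW_eq] at h
  have h := m19 _ h
  rw [coT_eq] at h
  obtain ⟨K1, U1, V1, g1, h⟩ := lin_sound (c := c133_13) (x2 := 1) (by decide)
    (S.rel _ c133_13_ok (by decide) (by decide)) S.hs
    (S.chv2 (by decide) (by decide) (by decide) (by decide +kernel))
    (fun n hn => tab_133_13 (v7 n hn) (v19 n hn)) (fun n _ => chv_133_13 _) (fun n _ => chv_133_13 _) h
  rw [mkW_eq] at h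
  have h := m5 _ h
  rw [coT_eq] at h
  obtain ⟨K2, U2, V2, g2, h⟩ := lin_sound (c := c95_13) (x2 := 2) (by decide)
    (S.rel _ c95_13_ok (by decide) (by decide)) S.hs
    (S.chv2 (by decide) (by decide) (by decide) (by decide +kernel))
    (fun n hn => tab_95 (v19 n hn) (v5 n hn)) (fun n _ => chv_95 _) (fun n _ => chv_95 _) h
  have h := m13 _ h
  have h := imp_true (imp_true h g1) g2
  have h := m3 _ h
  rw [mkW2_eq, coT_eq] at h
  have h := imp_lin (c := c105_13) (x2 := 6) (by decide) (S.rel _ c105_13_ok (by decide) (by decide)) S.hs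
    (S.chv2 (by decide) (by decide) (by decide) (by decide +kernel))
    (fun n hn => tab_105 (v7 n hn) (v3 n hn) (v5 n hn)) (fun n _ => chv_105 _) (fun n _ => chv_105 _) h
  rw [coT_eq] at h
  obtain ⟨K4, U4, V4, g4, h⟩ := lin_sound (c := c133_37) (x2 := 16) (by decide)
    (S.rel _ c133_37_ok (by decide) (by decide)) S.hs
    (S.chv2 (by decide) (by decide) (by decide) (by decide +kernel))
    (fun n hn => tab_133_37 (v7 n hn) (v19 n hn)) (fun n _ => chv_133_37 _) (fun n _ => chv_133_37 _) h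
  rw [coT_eq] at h
  obtain ⟨K5, U5, V5, g5, h⟩ := lin_sound (c := c91_37) (x2 := 29) (by decide)
    (S.rel _ c91_37_ok (by decide) (by decide)) S.hs
    (S.chv2 (by decide) (by decide) (by decide) (by decide +kernel))
    (fun n hn => tab_91 (v7 n hn) (v13 n hn)) (fun n _ => chv_91 _) (fun n _ => chv_91 _) h
  have h := m37 _ h
  have h := imp_true (imp_true h g4) g5
  exact st37_sound S h

end Pool.Agent.H449
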