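import Pool.Agent.H449.C2
import Pool.Agent.H449.D1

/-! Second stage of the sieve: moduli 61 and 73. -/

set_option maxRecDepth 100000

namespace Pool.Agent.H449

open H419R2 Finset
open Pool.Agent.N911

/-- inverses modulo 61 -/
def I61 : ℕ := 163099053388495365241829826310094285467850603851408032599268587857057311158053582135941454397214297616067592004561611271482884224
/-- squares modulo 61 -/
def Q61 : ℕ := 1662926210933060155

theorem iq61 : chkIq 61 Q61 = true := by decide +kernel
theorem ci61 : chkI 61 I61 = true := by decide +kernel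

/-- second stage -/
noncomputable def fin2 (dl : ℕ) (L61 L73 : RL) : Fin6 :=
  fun _ _ f7 _ _ f19 _ _ _ _ _ f13 _ _ _ _ _ f37 =>
    coD c481_61 13 222 37 260 f13 f37 <| fun y S A B => kuv 61 50 dl y S A B <| fun K0 U0 V0 =>
    coD c133_73 7 57 19 77 f7 f19 <| fun y S A B => kuv 73 2 dl y S A B <| fun K1 U1 V1 =>
    coD c247_73_0 13 209 19 39 f13 f19 <| fun y S A B => kuv 73 18 dl y S A B <| fun K2 U2 V2 =>
    coD c247_73_1 13 209 19 39 f13 f19 <| fun y S A B => kuv 73 35 dl y S A B <| fun K3 U3 V3 =>
    coD c259_73 7 148 37 112 f7 f37 <| fun y S A B => kuv 73 37 dl y S A B <| fun K4 U4 V4 =>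
    L61.all <| fun u61 v61 _ => imp (lin 61 K0 U0 V0 u61 v61) <|
    L73.all <| fun u73 v73 _ => imp (lin 73 K1 U1 V1 u73 v73) <| imp (lin 73 K2 U2 V2 u73 v73) <|
      imp (lin 73 K3 U3 V3 u73 v73) <| imp (lin 73 K4 U4 V4 u73 v73) <| false

/-- the whole sieve with the second stage -/
noncomputable def sieve2 (dl a0 y R0 R1 : ℕ) (sh : SL) : Bool :=
  mk1 61 I61 Q61 dl a0 y R0 R1 sh 61 <| fun L61 => mk1 73 I73 Q73 dl a0 y R0 R1 sh 73 <| fun L73 =>
    sieve1 dl a0 y R0 R1 sh (fin2 dl L61 L73)

theorem fin2_sound {H : Half} {qi : ℕ → ℤ} {sh : SL} {u v : ℤ} {dl : ℕ} (S : Sys H qi sh u v dl)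
    {L61 L73 : RL}
    (m61 : L61.Mem (res u 61) (res v 61) (flH H qi sh 61))
    (m73 : L73.Mem (res u 73) (res v 73) (flH H qi sh 73))
    (h : fin2 dl L61 L73 (res u 7) (res v 7) (flH H qi sh 7) (res u 19) (res v 19) (flH H qi sh 19)
      (res u 5) (res v 5) (flH H qi sh 5) (res u 13) (res v 13) (flH H qi sh 13)
      (res u 3) (res v 3) (flH H qi sh 3) (res u 37) (res v 37) (flH H qi sh 37) = true) :
    False := by
  have i133 : idem 7 57 19 77 c133_73.q = true := by decide
  have i247 : idem 13 209 19 39 c247_73_0.q = true := by decide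
  have i247' : idem 13 209 19 39 c247_73_1.q = true := by decide
  have i259 : idem 7 148 37 112 c259_73.q = true := by decide
  have i481 : idem 13 222 37 260 c481_61.q = true := by decide
  unfold fin2 at h
  rw [coD_eq] at h
  obtain ⟨K0, U0, V0, g0, h⟩ := lin_sound (c := c481_61) (x2 := 50) (by decide)
    (S.rel _ c481_61_ok (by decide) (by decide)) S.hs
    (S.chv2 (by decide) (by decide) (by decide) (by decide +kernel))
    (fun n hn => evD_sound c481_61_ok (by norm_num) (by norm_num) i481 _ _)
    (fun n _ => chD_sound (by norm_num) (by norm_num) i481 _)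
    (fun n _ => chD_sound (by norm_num) (by norm_num) i481 _) h
  rw [coD_eq] at h
  obtain ⟨K1, U1, V1, g1, h⟩ := lin_sound (c := c133_73) (x2 := 2) (by decide)
    (S.rel _ c133_73_ok (by decide) (by decide)) S.hs
    (S.chv2 (by decide) (by decide) (by decide) (by decide +kernel))
    (fun n hn => evD_sound c133_73_ok (by norm_num) (by norm_num) i133 _ _)
    (fun n _ => chD_sound (by norm_num) (by norm_num) i133 _)
    (fun n _ => chD_sound (by norm_num) (by norm_num) i133 _) h
  rw [coD_eq] at h
  obtain ⟨K2, U2, V2, g2, h⟩ := lin_sound (c := c247_73_0) (x2 := 18) (by decide)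
    (S.rel _ c247_73_0_ok (by decide) (by decide)) S.hs
    (S.chv2 (by decide) (by decide) (by decide) (by decide +kernel))
    (fun n hn => evD_sound c247_73_0_ok (by norm_num) (by norm_num) i247 _ _)
    (fun n _ => chD_sound (by norm_num) (by norm_num) i247 _)
    (fun n _ => chD_sound (by norm_num) (by norm_num) i247 _) h
  rw [coD_eq] at h
  obtain ⟨K3, U3, V3, g3, h⟩ := lin_sound (c := c247_73_1) (x2 := 35) (by decide)
    (S.rel _ c247_73_1_ok (by decide) (by decide)) S.hs
    (S.chv2 (by decide) (by decide) (by decide) (by decide +kernel))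
    (fun n hn => evD_sound c247_73_1_ok (by norm_num) (by norm_num) i247' _ _)
    (fun n _ => chD_sound (by norm_num) (by norm_num) i247' _)
    (fun n _ => chD_sound (by norm_num) (by norm_num) i247' _) h
  rw [coD_eq] at h
  obtain ⟨K4, U4, V4, g4, h⟩ := lin_sound (c := c259_73) (x2 := 37) (by decide)
    (S.rel _ c259_73_ok (by decide) (by decide)) S.hs
    (S.chv2 (by decide) (by decide) (by decide) (by decide +kernel))
    (fun n hn => evD_sound c259_73_ok (by norm_num) (by norm_num) i259 _ _)
    (fun n _ => chD_sound (by norm_num) (by norm_num) i259 _)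
    (fun n _ => chD_sound (by norm_num) (by norm_num) i259 _) h
  have h := m61 _ h
  have h := imp_true h g0
  have h := m73 _ h
  exact absurd (imp_true (imp_true (imp_true (imp_true h g1) g2) g3) g4) (by simp)

end Pool.Agent.H449
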