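import Pool.Agent.H449.C1

/-! The sieve for families with two parameters. -/

set_option maxRecDepth 100000

namespace Pool.Agent.H449

open H419R2
open Pool.Agent.N911

/-- families with two parameters: modulus, the parameters, `u, a, R` -/
abbrev Par2 := ℕ → ℕ → ℕ → (ℕ → ℕ → ℕ → Bool) → Bool

/-- the family of period six -/
def pr6 : Par2 := fun l b k g =>
  force (Nat.mod (Nat.add 1 (Nat.mul (Nat.mul 2 b) k)) l) (fun s =>
  force (Nat.mod (Nat.add (Nat.mul b s) k) l) (fun a => force (Nat.mod (Nat.mul 2 s) l) (fun R =>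
    g b a R)))

/-- the family of period eight -/
def pr8 : Par2 := fun l b k g =>
  force (Nat.mod (Nat.add (Nat.mul (Nat.mul 2 b) k) (Nat.sub l 1)) l) (fun s =>
  force (Nat.mod (Nat.add (Nat.mul b s) (Nat.sub l k)) l) (fun a =>
  force (Nat.mod (Nat.mul 2 s) l) (fun R => force (Nat.mod (Nat.add b (Nat.sub l 1)) l) (fun u =>
    g u a R))))

/-- list of records of a family with two parameters -/
noncomputable def mkG (l I Q : ℕ) (sh : SL) (pr : Par2) (n : ℕ) : (RL → Bool) → Bool :=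
  @Nat.rec (fun _ => (RL → Bool) → Bool) (fun c => c RL.nil) (fun j ih c =>
    force (Nat.div j l) (fun b => force (Nat.mod j l) (fun k => pr l b k (fun u a R =>
      mkRec l I Q 0 sh u a R (fun u v f => ih (fun r => c (RL.cons u v f r))) (ih c))))) n

/-- loop over the parameters, a range of values of the first one -/
noncomputable def lpG (l I Q : ℕ) (sh : SL) (pr : Par2) (lo n : ℕ) (g : ℕ → ℕ → FL → Bool) : Bool :=
  allN n (fun i => force (Nat.add lo i) (fun b =>
    allN l (fun k => pr l b k (fun u a R => mkRec l I Q 0 sh u a R g true))))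

/-- innermost stage -/
noncomputable def svB (u7 v7 : ℕ) (f7 : FL) (u19 v19 : ℕ) (f19 : FL)
    (u3 v3 : ℕ) (f3 : FL) (u37 v37 : ℕ) (f37 : FL) (we : WL) (L13 L5 : RL) (fin : Fin6) : Bool :=
  mkW 19 722 X133_13 E133_13 f7 <| fun w => coT w f19 <| fun y S A B =>
    kuv 13 1 0 y S A B <| fun K3 U3 V3 =>
  mkW 5 50 X95 E95 f19 <| fun wv => mkW 13 338 X91 E91 f7 <| fun wz =>
  mkW 15 450 X105 E105 f7 <| fun wr => mkW2 5 50 wr f3 <| fun wf =>
  L13.all <| fun u13 v13 f13 => imp (lin 13 K3 U3 V3 u13 v13) <|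
    coT wz f13 <| fun y S A B => kuv 37 29 0 y S A B <| fun K U V =>
    imp (lin 37 K U V u37 v37) <|
  L5.all <| fun u5 v5 f5 =>
    coT wv f5 <| fun y S A B => kuv 13 2 0 y S A B <| fun K U V =>
    imp (lin 13 K U V u13 v13) <|
    coT we f5 <| fun y S A B => kuv 13 6 0 y S A B <| fun K U V =>
    imp (lin 13 K U V u13 v13) <|
    coT wf f5 <| fun y S A B => kuv 13 6 0 y S A B <| fun K U V =>
    imp (lin 13 K U V u13 v13) <|
      fin u7 v7 f7 u19 v19 f19 u5 v5 f5 u13 v13 f13 u3 v3 f3 u37 v37 f37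

/-- stage for given data modulo 37 -/
noncomputable def svA (L3 L19 L7 L13 L5 : RL) (fin : Fin6) (u37 v37 : ℕ) (f37 : FL) : Bool :=
  mkW 3 18 X111_0 E111_0 f37 <| fun wa => mkW 3 18 X111_1 E111_1 f37 <| fun wb =>
  mkW 7 98 X259_0 E259_0 f37 <| fun wc => mkW 7 98 X259_1 E259_1 f37 <| fun wd =>
  mkW 5 50 X185 E185 f37 <| fun we =>
  L3.all <| fun u3 v3 f3 =>
    coT wa f3 <| fun y S A B => kuv 19 10 0 y S A B <| fun K1 U1 V1 =>
    coT wb f3 <| fun y S A B => kuv 19 5 0 y S A B <| fun K2 U2 V2 =>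
  L19.all <| fun u19 v19 f19 =>
    imp (lin 19 K1 U1 V1 u19 v19) <| imp (lin 19 K2 U2 V2 u19 v19) <|
  L7.all <| fun u7 v7 f7 =>
    coT wc f7 <| fun y S A B => kuv 19 4 0 y S A B <| fun K U V => imp (lin 19 K U V u19 v19) <|
    coT wd f7 <| fun y S A B => kuv 19 12 0 y S A B <| fun K U V => imp (lin 19 K U V u19 v19) <|
    mkW 19 722 X133_37 E133_37 f7 <| fun w => coT w f19 <| fun y S A B =>
    kuv 37 16 0 y S A B <| fun K U V => imp (lin 37 K U V u37 v37) <|
      svB u7 v7 f7 u19 v19 f19 u3 v3 f3 u37 v37 f37 we L13 L5 fin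

/-- the whole sieve for a family with two parameters, the first one in a range modulo 37 -/
noncomputable def sieveG (sh : SL) (pr : Par2) (fin : Fin6) (lo n : ℕ) : Bool :=
  mkG 3 I3 Q3 sh pr 9 <| fun L3 => mkG 19 I19 Q19 sh pr 361 <| fun L19 =>
  mkG 7 I7 Q7 sh pr 49 <| fun L7 => mkG 13 I13 Q13 sh pr 169 <| fun L13 =>
  mkG 5 I5 Q5 sh pr 25 <| fun L5 => lpG 37 I37 Q37 sh pr lo n (svA L3 L19 L7 L13 L5 fin)

/-- shape for period six -/
def sh6 : SL := SL.cons 1 0 (SL.cons 2 0 SL.nil)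
/-- shape for period eight -/
def sh8 : SL := SL.cons 1 0 (SL.cons 0 1 (SL.cons 2 1 SL.nil))

end Pool.Agent.H449
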