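import Pool.Agent.H449.C3
import Pool.Agent.H449.C4
import Pool.Agent.H449.D2
import Pool.Agent.H449.D3
import Pool.Graph.R_pool_sql_team_seeded_63374d34.N156.EP.D3

/-! The final stage of the sieve for families with two parameters: moduli 61 and 73. -/

set_option maxRecDepth 100000

namespace Pool.Agent.H449

open H419R2
open Pool.Agent.N911
open Pool.Agent.N156.EP (c219_37 c259_73_y)

/-- stage modulo 73 -/
noncomputable def fin73 (sh : SL) (pr : Par2) : Fin6 :=
  fun _ _ f7 _ _ f19 _ _ f5 u13 v13 f13 _ _ f3 u37 v37 f37 =>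
    coD c133_73 7 57 19 77 f7 f19 <| fun y S A B => kuv 73 2 0 y S A B <| fun K1 U1 V1 =>
    coD c247_73_0 13 209 19 39 f13 f19 <| fun y S A B => kuv 73 18 0 y S A B <| fun K2 U2 V2 =>
    coD c247_73_1 13 209 19 39 f13 f19 <| fun y S A B => kuv 73 35 0 y S A B <| fun K3 U3 V3 =>
    coD c259_73 7 148 37 112 f7 f37 <| fun y S A B => kuv 73 37 0 y S A B <| fun K4 U4 V4 =>
    coD c259_73_y 7 148 37 112 f7 f37 <| fun y S A B => kuv 73 67 0 y S A B <| fun K5 U5 V5 =>
    allN 73 (fun b => allN 73 (fun k => pr 73 b k (fun u a R =>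
      imp (lin 73 K1 U1 V1 u a) <| imp (lin 73 K2 U2 V2 u a) <| imp (lin 73 K3 U3 V3 u a) <|
      imp (lin 73 K4 U4 V4 u a) <| imp (lin 73 K5 U5 V5 u a) <|
      mkRec 73 I73 Q73 0 sh u a R (fun _ _ f73 =>
        coD c219_37 3 73 73 147 f3 f73 (fun y S A B => kuv 37 25 0 y S A B (fun K U V =>
        imp (lin 37 K U V u37 v37) (
        coD c365_13 5 146 73 220 f5 f73 (fun y S A B => kuv 13 8 0 y S A B (fun K U V =>
        imp (lin 13 K U V u13 v13) false)))))) true)))

/-- stage modulo 61 -/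
noncomputable def fin61 (sh : SL) (pr : Par2) : Fin6 :=
  fun u7 v7 f7 u19 v19 f19 u5 v5 f5 u13 v13 f13 u3 v3 f3 u37 v37 f37 =>
    coD c481_61 13 222 37 260 f13 f37 <| fun y S A B => kuv 61 50 0 y S A B <| fun K0 U0 V0 =>
    allN 61 (fun b => allN 61 (fun k => pr 61 b k (fun u a R =>
      imp (lin 61 K0 U0 V0 u a) <|
      mkRec 61 I61 Q61 0 sh u a R (fun _ _ f61 =>
        coD c305_13_0 5 61 61 245 f5 f61 (fun y S A B => kuv 13 6 0 y S A B (fun K U V =>
        imp (lin 13 K U V u13 v13) (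
        coD c305_13_1 5 61 61 245 f5 f61 (fun y S A B => kuv 13 2 0 y S A B (fun K U V =>
        imp (lin 13 K U V u13 v13) (
        coD c305_37 5 61 61 245 f5 f61 (fun y S A B => kuv 37 23 0 y S A B (fun K U V =>
        imp (lin 37 K U V u37 v37)
          (fin73 sh pr u7 v7 f7 u19 v19 f19 u5 v5 f5 u13 v13 f13 u3 v3 f3 u37 v37 f37))))))))))
        true)))

end Pool.Agent.H449
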