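import Pool.Agent.H449.E1

/-! Soundness of the sieve for families with one parameter. -/

set_option maxRecDepth 100000

namespace Pool.Agent.H449

open H419R2 Finset QuadraticAlgebra Module
open Pool.Agent.N911 (cj cj_true imp imp_true mod_res res_cast' chkI iq3 iq5 iq7 iq13 iq19 iq37 iq73
  ci3 ci5 ci7 ci13 ci19 ci37 ci73 I3 I5 I7 I13 I19 I37 I73 Q3 Q5 Q7 Q13 Q19 Q37 Q73)

theorem PL_prime {l : ℕ} (h : l ∈ PL) : l.Prime ∧ l ≠ 2 ∧ l ≤ 73 ∧ l ∣ M1 := by
  simp only [PL, List.mem_cons, List.not_mem_nil, or_false] at h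
  rcases h with rfl | rfl | rfl | rfl | rfl | rfl | rfl | rfl <;>
    refine ⟨by norm_num, by norm_num, by norm_num, by decide⟩

theorem mem_PL {p : ℕ} (hp : p.Prime) (h : p ∣ M1) : p ∈ PL := by
  unfold M1 at h
  simp only [hp.dvd_mul] at h
  simp only [PL, List.mem_cons, List.not_mem_nil, or_false]
  have e : ∀ q : ℕ, q.Prime → p ∣ q → p = q := fun q hq h => (Nat.prime_dvd_prime_iff_eq hp hq).mp h
  rcases h with ((((((h | h) | h) | h) | h) | h) | h) | h
  · left; exact e _ (by norm_num) h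
  · right; left; exact e _ (by norm_num) h
  · right; right; left; exact e _ (by norm_num) h
  · right; right; right; left; exact e _ (by norm_num) h
  · right; right; right; right; left; exact e _ (by norm_num) h
  · right; right; right; right; right; left; exact e _ (by norm_num) h
  · right; right; right; right; right; right; left; exact e _ (by norm_num) h
  · right; right; right; right; right; right; right; exact e _ (by norm_num) h

theorem coprime_M1 {n : ℤ} (h : ∀ l ∈ PL, ¬ (l : ℤ) ∣ n) : IsCoprime n (M1 : ℤ) := by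
  rw [Int.isCoprime_iff_gcd_eq_one]
  by_contra hc
  obtain ⟨p, hp, hpd⟩ := Nat.exists_prime_and_dvd hc
  have h1 : (p : ℤ) ∣ n := (Int.natCast_dvd_natCast.mpr hpd).trans (Int.gcd_dvd_left _ _)
  have h2 : (p : ℤ) ∣ (M1 : ℤ) := (Int.natCast_dvd_natCast.mpr hpd).trans (Int.gcd_dvd_right _ _)
  exact h p (mem_PL hp (Int.natCast_dvd_natCast.mp h2)) h1

theorem sys_of {H : Half} {d : ℕ} (G : HGood H d) (hd : 5329 ≤ d) (hk : H.q H.k = 2)
    (hq : ∀ r, 0 < r → r < H.k → 73 < H.q r) {sh : SL} {u v : ℤ} {dl : ℕ} (hs : HS H sh u v dl)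
    (hdl : dl ≤ 1) : ∃ qi, Sys H qi sh u v dl := by
  have hin : ∀ l ∈ PL, ¬ IsSquare (((4 * d : ℕ) : ℤ) : ZMod l) := by
    intro l hl
    obtain ⟨h1, h2, h3, _⟩ := PL_prime hl
    refine G.inert h1 h2 ?_ ?_
    · calc l ^ 2 ≤ 73 ^ 2 := Nat.pow_le_pow_left h3 2
        _ ≤ d := hd
    · intro r hr he
      rcases Nat.eq_zero_or_pos r with h4 | h4
      · rw [h4, H.q0] at he
        exact h1.one_lt.ne (by exact_mod_cast he)
      · rcases Nat.lt_or_ge r H.k with h5 | h5
        · have := hq r h4 h5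
          rw [he] at this
          have : 73 < l := by exact_mod_cast this
          omega
        · have : r = H.k := by omega
          rw [this, hk] at he
          exact h2 (by exact_mod_cast he.symm)
  have hcop : ∀ n, n ≤ H.k → IsCoprime (H.q n) (M1 : ℤ) := by
    intro n hn
    apply coprime_M1
    intro l hl
    obtain ⟨h1, h2, h3, _⟩ := PL_prime hl
    rcases Nat.lt_or_ge n H.k with h4 | h4
    · exact G.not_dvd_q (hin l hl) h4
    · have : n = H.k := by omega
      rw [this, hk]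
      intro h5
      have h6 : l ∣ 2 := by exact_mod_cast h5
      exact h2 ((Nat.prime_dvd_prime_iff_eq h1 Nat.prime_two).mp h6)
  have hex : ∀ n : ℕ, ∃ i : ℤ, (n ≤ H.k → (M1 : ℤ) ∣ H.q n * i - 1) ∧ (n = 0 → i = 1) := by
    intro n
    rcases Nat.eq_zero_or_pos n with h | h
    · subst h
      refine ⟨1, fun _ => ?_, fun _ => rfl⟩
      rw [H.q0]; simp
    · by_cases hn : n ≤ H.k
      · obtain ⟨a, b, hab⟩ := hcop n hn
        refine ⟨a, fun _ => ⟨-b, by linear_combination hab⟩, fun h' => by omega⟩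
      · exact ⟨0, fun h' => absurd h' hn, fun h' => by omega⟩
  choose qi hqi1 hqi2 using hex
  have hDn : (((4 * d : ℕ) : ℤ)) = H.b 0 ^ 2 + 4 * H.q 1 := by rw [← G.hD]; push_cast; ring
  have hnd : ∀ p : ℕ, p.Prime → p ∣ M1 → ¬ p ∣ 4 * d := by
    intro p hp h1 h2
    apply hin p (mem_PL hp h1)
    have h3 : (((4 * d : ℕ) : ℤ) : ZMod p) = 0 := by
      rw [ZMod.intCast_zmod_eq_zero_iff_dvd]
      exact Int.natCast_dvd_natCast.mpr h2
    rw [h3]
    exact ⟨0, by simp⟩
  refine ⟨qi, hs, hdl, hqi2 0 rfl, hk, fun n hn => hqi1 n hn, ?_, ?_⟩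
  · intro l hl
    have := hin l hl
    rw [hDn] at this
    exact this
  · intro c hc hcq hcp
    have hodd : c.q % 2 = 1 := by
      rcases Nat.mod_two_eq_zero_or_one c.q with h | h
      · exfalso
        have h2 : 2 ∣ M1 := (Nat.dvd_of_mod_eq_zero h).trans hcq
        exact absurd h2 (by decide)
      · exact h
    refine nrelH_of hc hodd ?_ (hqi2 0 rfl) ?_
    · intro n hn
      have h1 : (c.q : ℤ) ∣ H.q n * qi n - 1 := (Int.natCast_dvd_natCast.mpr hcq).trans (hqi1 n hn)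
      have h2 := (ZMod.intCast_zmod_eq_zero_iff_dvd _ c.q).mpr h1
      push_cast at h2 ⊢
      linear_combination h2
    · refine G.rel c hc ?_ ?_
      · apply Nat.Coprime.coprime_dvd_left hcq
        rw [Nat.coprime_comm]
        apply Nat.Coprime.symm
        rw [Nat.coprime_iff_gcd_eq_one]
        by_contra hg
        obtain ⟨p, hp, hpd⟩ := Nat.exists_prime_and_dvd hg
        exact hnd p hp (hpd.trans (Nat.gcd_dvd_left _ _)) (hpd.trans (Nat.gcd_dvd_right _ _))
      · intro h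
        exact hnd c.p hc.pp hcp (h.mul_left 4)

theorem rcr_congr {q b κ κ' : ℕ → ℤ} (sh : SL) : ∀ n, (∀ j, n ≤ j → j < n + sh.len → κ' j = κ j) →
    Rcr q b κ sh n → Rcr q b κ' sh n := by
  induction sh with
  | nil => intro n _ _; trivial
  | cons al be s ih =>
    intro n h hr
    obtain ⟨⟨h1, h2⟩, h3⟩ := hr
    have e := h n (le_refl _) (by simp only [SL.len]; omega)
    refine ⟨⟨?_, ?_⟩, ih (n + 1) (fun j h4 h5 => h j (by omega) (by simp only [SL.len]; omega)) h3⟩
    · rw [e]; exact h1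
    · rw [e]; exact h2

theorem shp_congr {κ κ' : ℕ → ℤ} {u : ℤ} (sh : SL) : ∀ n, (∀ j, n ≤ j → j < n + sh.len → κ' j = κ j) →
    Shp κ u sh n → Shp κ' u sh n := by
  induction sh with
  | nil => intro n _ _; trivial
  | cons al be s ih =>
    intro n h hr
    obtain ⟨h1, h3⟩ := hr
    have e := h n (le_refl _) (by simp only [SL.len]; omega)
    refine ⟨?_, ih (n + 1) (fun j h4 h5 => h j (by omega) (by simp only [SL.len]; omega)) h3⟩
    rw [e]; exact h1

/-- a member of a family with one parameter -/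
structure Mem1 (H : Half) (sh : SL) (a v : ℤ) (dl a0 y R0 R1 t : ℕ) : Prop where
  len : H.k = sh.len + 1
  q : ∀ n, H.q n = sq (kap 0 v sh) a (R0 + R1 * t) n
  b : ∀ n, H.b n = sb (kap 0 v sh) a (R0 + R1 * t) n
  κ : ∀ n, n < H.k → (H.κ n : ℤ) = kap 0 v sh n
  ha : a = a0 + y * t
  hv : a = v + dl

namespace Mem1

variable {H : Half} {sh : SL} {a v : ℤ} {dl a0 y R0 R1 t : ℕ}

theorem hs (m : Mem1 H sh a v dl a0 y R0 R1 t) : HS H sh 0 v dl where
  len := m.len.symm
  shp := shp_congr sh 0 (fun j _ hj => m.κ j (by rw [m.len]; omega)) (kap_shp 0 v sh)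
  hv := by
    rw [m.κ _ (by have := H.hk; omega)]
    have : H.k - 1 = sh.len := by rw [m.len]; omega
    rw [this, kap_len]
  hb := by rw [m.b, sb_zero, m.hv]

theorem loc (m : Mem1 H sh a v dl a0 y R0 R1 t) (qi : ℕ → ℤ) :
    Loc H.q H.b qi (fun n => (H.κ n : ℤ)) 0 a v dl sh where
  q0 := H.q0
  b0 := by rw [m.b, sb_zero]
  av := m.hv
  shp := m.hs.shp
  rcr := by
    have e1 : H.q = sq (kap 0 v sh) a (R0 + R1 * t) := funext m.q
    have e2 : H.b = sb (kap 0 v sh) a (R0 + R1 * t) := funext m.b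
    rw [e1, e2]
    exact rcr_congr sh 0 (fun j _ hj => m.κ j (by rw [m.len]; omega)) (rcr_stt _ _ _ sh 0)

theorem q1 (m : Mem1 H sh a v dl a0 y R0 R1 t) : H.q 1 = R0 + R1 * t := by
  rw [m.q, sq_one]

theorem mem {l I Q : ℕ} (m : Mem1 H sh a v dl a0 y R0 R1 t) {qi : ℕ → ℤ} (S : Sys H qi sh 0 v dl)
    (hl : 2 < l) (hI : chkI l I = true) (hQ : chkIq l Q = true) (hPL : l ∈ PL) (hM : l ∣ M1)
    (c : RL → Bool) (h : mk1 l I Q dl a0 y R0 R1 sh l c = true) :
    ∃ L, c L = true ∧ L.Mem (res 0 l) (res v l) (flH H qi sh l) := by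
  have hl0 : 0 < l := by omega
  refine mk1_sound hl hI hQ (m.loc qi) S.hdl ?_ ?_ (t := t % l) ?_ ?_ l (Nat.mod_lt _ hl0) c h
  · intro j hj
    exact S.inv_mod hM (by rw [m.len]; omega)
  · rintro ⟨r, hr⟩
    apply S.nsq l hPL
    refine ⟨2 * r, ?_⟩
    have hb : H.b 0 = 2 * a := by rw [m.b, sb_zero]
    rw [hb]
    push_cast at hr ⊢
    linear_combination 4 * hr
  · apply mod_res hl0
    change ((a0 + y * (t % l) : ℕ) : ZMod l) = _
    rw [m.ha]
    push_cast
    rw [ZMod.natCast_mod]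
  · apply mod_res hl0
    change ((R0 + R1 * (t % l) : ℕ) : ZMod l) = _
    rw [m.q1]
    push_cast
    rw [ZMod.natCast_mod]

theorem sieve1_sound (m : Mem1 H sh a v dl a0 y R0 R1 t) {qi : ℕ → ℤ} (S : Sys H qi sh 0 v dl)
    {fin : Fin6} (h : sieve1 dl a0 y R0 R1 sh fin = true) :
    fin (res 0 7) (res v 7) (flH H qi sh 7) (res 0 19) (res v 19) (flH H qi sh 19)
      (res 0 5) (res v 5) (flH H qi sh 5) (res 0 13) (res v 13) (flH H qi sh 13)
      (res 0 3) (res v 3) (flH H qi sh 3) (res 0 37) (res v 37) (flH H qi sh 37) = true := by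
  unfold sieve1 at h
  obtain ⟨L7, h, m7⟩ := m.mem S (by norm_num) ci7 iq7 (by decide) (by decide) _ h
  obtain ⟨L19, h, m19⟩ := m.mem S (by norm_num) ci19 iq19 (by decide) (by decide) _ h
  obtain ⟨L5, h, m5⟩ := m.mem S (by norm_num) ci5 iq5 (by decide) (by decide) _ h
  obtain ⟨L3, h, m3⟩ := m.mem S (by norm_num) ci3 iq3 (by decide) (by decide) _ h
  obtain ⟨L13, h, m13⟩ := m.mem S (by norm_num) ci13 iq13 (by decide) (by decide) _ h
  obtain ⟨L37, h, m37⟩ := m.mem S (by norm_num) ci37 iq37 (by decide) (by decide) _ h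
  exact sv_sound S m7 m19 m5 m3 m13 m37 h

theorem sieve1_false (m : Mem1 H sh a v dl a0 y R0 R1 t) {qi : ℕ → ℤ} (S : Sys H qi sh 0 v dl)
    (h : sieve1 dl a0 y R0 R1 sh ff = true) : False := by
  have h1 := m.sieve1_sound S h
  exact absurd h1 (by simp [ff])

theorem sieve2_false (m : Mem1 H sh a v dl a0 y R0 R1 t) {qi : ℕ → ℤ} (S : Sys H qi sh 0 v dl)
    (h : sieve2 dl a0 y R0 R1 sh = true) : False := by
  unfold sieve2 at h
  obtain ⟨L61, h, m61⟩ := m.mem S (by norm_num) ci61 iq61 (by decide) (by decide) _ h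
  obtain ⟨L73, h, m73⟩ := m.mem S (by norm_num) ci73 iq73 (by decide) (by decide) _ h
  have h1 := m.sieve1_sound S h
  exact fin2_sound S m61 m73 h1

end Mem1

end Pool.Agent.H449
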