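import Pool.Agent.H449.C5
import Pool.Agent.H449.E2

/-! Soundness of the sieve for families with two parameters. -/

set_option maxRecDepth 100000

namespace Pool.Agent.H449

open H419R2 Finset
open Pool.Agent.N911
open Pool.Agent.N156.EP (c219_37 c259_73_y c219_37_ok c259_73_y_ok)

theorem rcr_half (H : Half) (sh : SL) : ∀ n, n + sh.len + 1 ≤ H.k →
    Rcr H.q H.b (fun n => (H.κ n : ℤ)) sh n := by
  induction sh with
  | nil => intro n _; trivial
  | cons al be s ih =>
    intro n hn
    simp only [SL.len] at hn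
    refine ⟨⟨?_, ?_⟩, ih (n + 1) (by omega)⟩
    · exact H.recq n (by omega)
    · exact H.recb n (by omega)

/-- a member of a family with two parameters -/
structure Mem2 (H : Half) (sh : SL) (pr : Par2) (b k u a : ℤ) : Prop where
  hs : HS H sh u a 0
  hpr : ∀ l, 2 < l → ∀ g, pr l (res b l) (res k l) g = g (res u l) (res a l) (res (H.q 1) l)
  app : ∀ l b' k' : ℕ, ∃ u' a' R' : ℕ, ∀ g, pr l b' k' g = g u' a' R'

namespace Mem2

variable {H : Half} {sh : SL} {pr : Par2} {b k u a : ℤ}

theorem loc (m : Mem2 H sh pr b k u a) (qi : ℕ → ℤ) :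
    Loc H.q H.b qi (fun n => (H.κ n : ℤ)) u a a 0 sh where
  q0 := H.q0
  b0 := by rw [m.hs.hb]; push_cast; ring
  av := by push_cast; ring
  shp := m.hs.shp
  rcr := rcr_half H sh 0 (by rw [zero_add, m.hs.len])

theorem rec_sound (m : Mem2 H sh pr b k u a) {qi : ℕ → ℤ} (S : Sys H qi sh u a 0) {l I Q : ℕ}
    (hl : 2 < l) (hI : chkI l I = true) (hQ : chkIq l Q = true) (hPL : l ∈ PL) (hM : l ∣ M1)
    {c : ℕ → ℕ → FL → Bool} {d : Bool}
    (h : mkRec l I Q 0 sh (res u l) (res a l) (res (H.q 1) l) c d = true) :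
    c (res u l) (res a l) (flH H qi sh l) = true := by
  refine mkRec_sound hl hI hQ (m.loc qi) (by norm_num) ?_ ?_ h
  · intro j hj
    exact S.inv_mod hM (by rw [← m.hs.len]; omega)
  · rintro ⟨r, hr⟩
    apply S.nsq l hPL
    refine ⟨2 * r, ?_⟩
    have hb : H.b 0 = 2 * a := by rw [m.hs.hb]; push_cast; ring
    rw [hb]
    push_cast at hr ⊢
    linear_combination 4 * hr

theorem mkG_succ {l I Q n : ℕ} {c : RL → Bool} : mkG l I Q sh pr (n + 1) c =
    force (Nat.div n l) (fun b => force (Nat.mod n l) (fun k => pr l b k (fun u a R =>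
      mkRec l I Q 0 sh u a R (fun u v f => mkG l I Q sh pr n (fun r => c (RL.cons u v f r)))
        (mkG l I Q sh pr n c)))) := rfl

theorem mkG_ex (m : Mem2 H sh pr b k u a) {l I Q : ℕ} (n : ℕ) : ∀ (c : RL → Bool),
    mkG l I Q sh pr n c = true → ∃ L, c L = true := by
  induction n with
  | zero => intro c h; exact ⟨_, h⟩
  | succ n ih =>
    intro c h
    rw [mkG_succ, force_eq, force_eq] at h
    obtain ⟨u', a', R', happ⟩ := m.app l (Nat.div n l) (Nat.mod n l)
    rw [happ] at h
    rcases mkRec_cases h with h1 | ⟨v, f, h1⟩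
    · exact ih _ h1
    · obtain ⟨L, hL⟩ := ih _ h1
      exact ⟨_, hL⟩

theorem mkG_sound (m : Mem2 H sh pr b k u a) {qi : ℕ → ℤ} (S : Sys H qi sh u a 0) {l I Q : ℕ}
    (hl : 2 < l) (hI : chkI l I = true) (hQ : chkIq l Q = true) (hPL : l ∈ PL) (hM : l ∣ M1)
    (n : ℕ) (hn : res b l * l + res k l < n) : ∀ (c : RL → Bool),
    mkG l I Q sh pr n c = true → ∃ L, c L = true ∧ L.Mem (res u l) (res a l) (flH H qi sh l) := by
  have hl0 : 0 < l := by omega
  induction n with
  | zero => exact absurd hn (Nat.not_lt_zero _)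
  | succ n ih =>
    intro c h
    rw [mkG_succ, force_eq, force_eq] at h
    rcases Nat.lt_succ_iff_lt_or_eq.mp hn with h1 | h1
    · obtain ⟨u', a', R', happ⟩ := m.app l (Nat.div n l) (Nat.mod n l)
      rw [happ] at h
      rcases mkRec_cases h with h2 | ⟨v', f', h2⟩
      · exact ih h1 _ h2
      · obtain ⟨L, hL1, hL2⟩ := ih h1 _ h2
        exact ⟨_, hL1, RL.mem_tail hL2⟩
    · have e1 : Nat.div n l = res b l := by
        change n / l = _
        rw [← h1, mul_comm, Nat.mul_add_div hl0, Nat.div_eq_of_lt (res_lt k hl0), add_zero]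
      have e2 : Nat.mod n l = res k l := by
        change n % l = _
        rw [← h1, mul_comm, Nat.mul_add_mod, Nat.mod_eq_of_lt (res_lt k hl0)]
      rw [e1, e2, m.hpr l hl] at h
      have h4 := m.rec_sound S hl hI hQ hPL hM h
      obtain ⟨L, hL⟩ := m.mkG_ex n _ h4
      exact ⟨_, hL, RL.mem_head _ _ _ _⟩

theorem mkG_sound' (m : Mem2 H sh pr b k u a) {qi : ℕ → ℤ} (S : Sys H qi sh u a 0) {l I Q n : ℕ}
    (hl : 2 < l) (hI : chkI l I = true) (hQ : chkIq l Q = true) (hPL : l ∈ PL) (hM : l ∣ M1)
    (hn : l * l = n) (c : RL → Bool) (h : mkG l I Q sh pr n c = true) :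
    ∃ L, c L = true ∧ L.Mem (res u l) (res a l) (flH H qi sh l) := by
  have hl0 : 0 < l := by omega
  refine m.mkG_sound S hl hI hQ hPL hM n ?_ c h
  rw [← hn]
  have h1 := res_lt b hl0
  have h2 := res_lt k hl0
  calc res b l * l + res k l < res b l * l + l := by omega
    _ = (res b l + 1) * l := by ring
    _ ≤ l * l := Nat.mul_le_mul_right l h1

theorem lpG_sound (m : Mem2 H sh pr b k u a) {qi : ℕ → ℤ} (S : Sys H qi sh u a 0) {l I Q lo n : ℕ}
    (hl : 2 < l) (hI : chkI l I = true) (hQ : chkIq l Q = true) (hPL : l ∈ PL) (hM : l ∣ M1)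
    (hlo : lo ≤ res b l) (hhi : res b l < lo + n) {g : ℕ → ℕ → FL → Bool}
    (h : lpG l I Q sh pr lo n g = true) : g (res u l) (res a l) (flH H qi sh l) = true := by
  have hl0 : 0 < l := by omega
  unfold lpG at h
  rw [allN_iff] at h
  have h := h (res b l - lo) (by omega)
  have e : Nat.add lo (res b l - lo) = res b l := by
    change lo + (res b l - lo) = _
    omega
  rw [e, force_eq, allN_iff] at h
  have h := h (res k l) (res_lt k hl0)
  rw [m.hpr l hl] at h
  exact m.rec_sound S hl hI hQ hPL hM h

theorem loop_sound (m : Mem2 H sh pr b k u a) {l : ℕ} (hl : 2 < l) {g : ℕ → ℕ → ℕ → Bool}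
    (h : allN l (fun b => allN l (fun k => pr l b k g)) = true) :
    g (res u l) (res a l) (res (H.q 1) l) = true := by
  have hl0 : 0 < l := by omega
  rw [allN_iff] at h
  have h := h (res b l) (res_lt b hl0)
  rw [allN_iff] at h
  have h := h (res k l) (res_lt k hl0)
  rw [m.hpr l hl] at h
  exact h

end Mem2

section stages

variable {H : Half} {sh : SL} {pr : Par2} {b k u a : ℤ} {qi : ℕ → ℤ}

theorem fin73_sound (m : Mem2 H sh pr b k u a) (S : Sys H qi sh u a 0)
    (h : fin73 sh pr (res u 7) (res a 7) (flH H qi sh 7) (res u 19) (res a 19) (flH H qi sh 19)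
      (res u 5) (res a 5) (flH H qi sh 5) (res u 13) (res a 13) (flH H qi sh 13)
      (res u 3) (res a 3) (flH H qi sh 3) (res u 37) (res a 37) (flH H qi sh 37) = true) :
    False := by
  have i133 : idem 7 57 19 77 c133_73.q = true := by decide
  have i247 : idem 13 209 19 39 c247_73_0.q = true := by decide
  have i247' : idem 13 209 19 39 c247_73_1.q = true := by decide
  have i259 : idem 7 148 37 112 c259_73.q = true := by decide
  have i259' : idem 7 148 37 112 c259_73_y.q = true := by decide
  have i219 : idem 3 73 73 147 c219_37.q = true := by decide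
  have i365 : idem 5 146 73 220 c365_13.q = true := by decide
  unfold fin73 at h
  rw [coD_eq] at h
  obtain ⟨K1, U1, V1, g1, h⟩ := lin_sound (c := c133_73) (x2 := 2) (by decide)
    (S.rel _ c133_73_ok (by decide) (by decide)) S.hs
    (S.chv2 (by decide) (by decide) (by decide) (by decide +kernel))
    (fun n hn => evD_sound c133_73_ok (by norm_num) (by norm_num) i133 _ _)
    (fun n _ => chD_sound (by norm_num) (by norm_num) i133 _)
    (fun n _ => chD_sound (by norm_num) (by norm_num) i133 _) h
  rw [coD_eq] at h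
  obtain ⟨K2, U2, V2, g2, h⟩ := lin_sound (c := c247_73_0) (x2 := 18) (by decide)
    (S.rel _ c247_73_0_ok (by decide) (by decide)) S.hs
    (S.chv2 (by decide) (by decide) (by decide) (by decide +kernel))
    (fun n hn => evD_sound c247_73_0_ok (by norm_num) (by norm_num) i247 _ _)
    (fun n _ => chD_sound (by norm_num) (by norm_num) i247 _)
    (fun n _ => chD_sound (by norm_num) (by norm_num) i247 _) h
  rw [coD_eq] at h
  obtain ⟨K3, U3, V3, g3, h⟩ := lin_sound (c := c247_73_1) (x2 := 35) (by decide)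
    (S.rel _ c247_73_1_ok (by decide) (by decide)) S.hs
    (S.chv2 (by decide) (by decide) (by decide) (by decide +kernel))
    (fun n hn => evD_sound c247_73_1_ok (by norm_num) (by norm_num) i247' _ _)
    (fun n _ => chD_sound (by norm_num) (by norm_num) i247' _)
    (fun n _ => chD_sound (by norm_num) (by norm_num) i247' _) h
  rw [coD_eq] at h
  obtain ⟨K4, U4, V4, g4, h⟩ := lin_sound (c := c259_73) (x2 := 37) (by decide)
    (S.rel _ c259_73_ok (by decide) (by decide)) S.hs
    (S.chv2 (by decide) (by decide) (by decide) (by decide +kernel))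
    (fun n hn => evD_sound c259_73_ok (by norm_num) (by norm_num) i259 _ _)
    (fun n _ => chD_sound (by norm_num) (by norm_num) i259 _)
    (fun n _ => chD_sound (by norm_num) (by norm_num) i259 _) h
  rw [coD_eq] at h
  obtain ⟨K5, U5, V5, g5, h⟩ := lin_sound (c := c259_73_y) (x2 := 67) (by decide)
    (S.rel _ c259_73_y_ok (by decide) (by decide)) S.hs
    (S.chv2 (by decide) (by decide) (by decide) (by decide +kernel))
    (fun n hn => evD_sound c259_73_y_ok (by norm_num) (by norm_num) i259' _ _)
    (fun n _ => chD_sound (by norm_num) (by norm_num) i259' _)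
    (fun n _ => chD_sound (by norm_num) (by norm_num) i259' _) h
  have h := m.loop_sound (by norm_num) h
  have h := imp_true (imp_true (imp_true (imp_true (imp_true h g1) g2) g3) g4) g5
  have h := m.rec_sound S (by norm_num) ci73 iq73 (by decide) (by decide) h
  rw [coD_eq] at h
  have h := imp_lin (c := c219_37) (x2 := 25) (by decide)
    (S.rel _ c219_37_ok (by decide) (by decide)) S.hs
    (S.chv2 (by decide) (by decide) (by decide) (by decide +kernel))
    (fun n hn => evD_sound c219_37_ok (by norm_num) (by norm_num) i219 _ _)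
    (fun n _ => chD_sound (by norm_num) (by norm_num) i219 _)
    (fun n _ => chD_sound (by norm_num) (by norm_num) i219 _) h
  rw [coD_eq] at h
  have h := imp_lin (c := c365_13) (x2 := 8) (by decide)
    (S.rel _ c365_13_ok (by decide) (by decide)) S.hs
    (S.chv2 (by decide) (by decide) (by decide) (by decide +kernel))
    (fun n hn => evD_sound c365_13_ok (by norm_num) (by norm_num) i365 _ _)
    (fun n _ => chD_sound (by norm_num) (by norm_num) i365 _)
    (fun n _ => chD_sound (by norm_num) (by norm_num) i365 _) h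
  exact absurd h (by simp)

theorem fin61_sound (m : Mem2 H sh pr b k u a) (S : Sys H qi sh u a 0)
    (h : fin61 sh pr (res u 7) (res a 7) (flH H qi sh 7) (res u 19) (res a 19) (flH H qi sh 19)
      (res u 5) (res a 5) (flH H qi sh 5) (res u 13) (res a 13) (flH H qi sh 13)
      (res u 3) (res a 3) (flH H qi sh 3) (res u 37) (res a 37) (flH H qi sh 37) = true) :
    False := by
  have i481 : idem 13 222 37 260 c481_61.q = true := by decide
  have i305 : idem 5 61 61 245 c305_13_0.q = true := by decide
  have i305' : idem 5 61 61 245 c305_13_1.q = true := by decide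
  have i305'' : idem 5 61 61 245 c305_37.q = true := by decide
  unfold fin61 at h
  rw [coD_eq] at h
  obtain ⟨K1, U1, V1, g1, h⟩ := lin_sound (c := c481_61) (x2 := 50) (by decide)
    (S.rel _ c481_61_ok (by decide) (by decide)) S.hs
    (S.chv2 (by decide) (by decide) (by decide) (by decide +kernel))
    (fun n hn => evD_sound c481_61_ok (by norm_num) (by norm_num) i481 _ _)
    (fun n _ => chD_sound (by norm_num) (by norm_num) i481 _)
    (fun n _ => chD_sound (by norm_num) (by norm_num) i481 _) h
  have h := m.loop_sound (by norm_num) h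
  have h := imp_true h g1
  have h := m.rec_sound S (by norm_num) ci61 iq61 (by decide) (by decide) h
  rw [coD_eq] at h
  have h := imp_lin (c := c305_13_0) (x2 := 6) (by decide)
    (S.rel _ c305_13_0_ok (by decide) (by decide)) S.hs
    (S.chv2 (by decide) (by decide) (by decide) (by decide +kernel))
    (fun n hn => evD_sound c305_13_0_ok (by norm_num) (by norm_num) i305 _ _)
    (fun n _ => chD_sound (by norm_num) (by norm_num) i305 _)
    (fun n _ => chD_sound (by norm_num) (by norm_num) i305 _) h
  rw [coD_eq] at h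
  have h := imp_lin (c := c305_13_1) (x2 := 2) (by decide)
    (S.rel _ c305_13_1_ok (by decide) (by decide)) S.hs
    (S.chv2 (by decide) (by decide) (by decide) (by decide +kernel))
    (fun n hn => evD_sound c305_13_1_ok (by norm_num) (by norm_num) i305' _ _)
    (fun n _ => chD_sound (by norm_num) (by norm_num) i305' _)
    (fun n _ => chD_sound (by norm_num) (by norm_num) i305' _) h
  rw [coD_eq] at h
  have h := imp_lin (c := c305_37) (x2 := 23) (by decide)
    (S.rel _ c305_37_ok (by decide) (by decide)) S.hs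
    (S.chv2 (by decide) (by decide) (by decide) (by decide +kernel))
    (fun n hn => evD_sound c305_37_ok (by norm_num) (by norm_num) i305'' _ _)
    (fun n _ => chD_sound (by norm_num) (by norm_num) i305'' _)
    (fun n _ => chD_sound (by norm_num) (by norm_num) i305'' _) h
  exact fin73_sound m S h

theorem svB_sound (S : Sys H qi sh u a 0) {L13 L5 : RL}
    (m13 : L13.Mem (res u 13) (res a 13) (flH H qi sh 13))
    (m5 : L5.Mem (res u 5) (res a 5) (flH H qi sh 5)) {fin : Fin6} {we : WL}
    (hwe : we = wF (fun n => sl 5 X185 (7 * res (H.q n) 37)) (fun n => sl 5 X185 (7 * res (qi n) 37))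
      (fun n => sl 50 E185 (pk 37 (H.b n * qi n) (H.q (n + 1) * qi n))) sh 0 0 0)
    (h : svB (res u 7) (res a 7) (flH H qi sh 7) (res u 19) (res a 19) (flH H qi sh 19)
      (res u 3) (res a 3) (flH H qi sh 3) (res u 37) (res a 37) (flH H qi sh 37) we L13 L5 fin
      = true) :
    fin (res u 7) (res a 7) (flH H qi sh 7) (res u 19) (res a 19) (flH H qi sh 19)
      (res u 5) (res a 5) (flH H qi sh 5) (res u 13) (res a 13) (flH H qi sh 13)
      (res u 3) (res a 3) (flH H qi sh 3) (res u 37) (res a 37) (flH H qi sh 37) = true := by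
  have v3 : ∀ n, n < H.k → V 3 (H.b n * qi n) (H.q (n + 1) * qi n) := fun n hn =>
    S.valid (by decide) (by decide) (by decide) hn
  have v5 : ∀ n, n < H.k → V 5 (H.b n * qi n) (H.q (n + 1) * qi n) := fun n hn =>
    S.valid (by decide) (by decide) (by decide) hn
  have v7 : ∀ n, n < H.k → V 7 (H.b n * qi n) (H.q (n + 1) * qi n) := fun n hn =>
    S.valid (by decide) (by decide) (by decide) hn
  have v13 : ∀ n, n < H.k → V 13 (H.b n * qi n) (H.q (n + 1) * qi n) := fun n hn =>
    S.valid (by decide) (by decide) (by decide) hn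
  have v19 : ∀ n, n < H.k → V 19 (H.b n * qi n) (H.q (n + 1) * qi n) := fun n hn =>
    S.valid (by decide) (by decide) (by decide) hn
  have v37 : ∀ n, n < H.k → V 37 (H.b n * qi n) (H.q (n + 1) * qi n) := fun n hn =>
    S.valid (by decide) (by decide) (by decide) hn
  unfold svB at h
  rw [mkW_eq, coT_eq] at h
  obtain ⟨K3, U3, V3, g3, h⟩ := lin_sound (c := c133_13) (x2 := 1) (by decide)
    (S.rel _ c133_13_ok (by decide) (by decide)) S.hs
    (S.chv2 (by decide) (by decide) (by decide) (by decide +kernel))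
    (fun n hn => tab_133_13 (v7 n hn) (v19 n hn)) (fun n _ => chv_133_13 _) (fun n _ => chv_133_13 _) h
  rw [mkW_eq, mkW_eq, mkW_eq, mkW2_eq] at h
  have h := m13 _ h
  have h := imp_true h g3
  rw [coT_eq] at h
  have h := imp_lin (c := c91_37) (x2 := 29) (by decide) (S.rel _ c91_37_ok (by decide) (by decide)) S.hs
    (S.chv2 (by decide) (by decide) (by decide) (by decide +kernel))
    (fun n hn => tab_91 (v7 n hn) (v13 n hn)) (fun n _ => chv_91 _) (fun n _ => chv_91 _) h
  have h := m5 _ h
  rw [coT_eq] at h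
  have h := imp_lin (c := c95_13) (x2 := 2) (by decide) (S.rel _ c95_13_ok (by decide) (by decide)) S.hs
    (S.chv2 (by decide) (by decide) (by decide) (by decide +kernel))
    (fun n hn => tab_95 (v19 n hn) (v5 n hn)) (fun n _ => chv_95 _) (fun n _ => chv_95 _) h
  rw [hwe, coT_eq] at h
  have h := imp_lin (c := c185_13) (x2 := 6) (by decide) (S.rel _ c185_13_ok (by decide) (by decide)) S.hs
    (S.chv2 (by decide) (by decide) (by decide) (by decide +kernel))
    (fun n hn => tab_185 (v37 n hn) (v5 n hn)) (fun n _ => chv_185 _) (fun n _ => chv_185 _) h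
  rw [coT_eq] at h
  have h := imp_lin (c := c105_13) (x2 := 6) (by decide) (S.rel _ c105_13_ok (by decide) (by decide)) S.hs
    (S.chv2 (by decide) (by decide) (by decide) (by decide +kernel))
    (fun n hn => tab_105 (v7 n hn) (v3 n hn) (v5 n hn)) (fun n _ => chv_105 _) (fun n _ => chv_105 _) h
  exact h

theorem svA_sound (S : Sys H qi sh u a 0) {L3 L19 L7 L13 L5 : RL}
    (m3 : L3.Mem (res u 3) (res a 3) (flH H qi sh 3))
    (m19 : L19.Mem (res u 19) (res a 19) (flH H qi sh 19))
    (m7 : L7.Mem (res u 7) (res a 7) (flH H qi sh 7))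
    (m13 : L13.Mem (res u 13) (res a 13) (flH H qi sh 13))
    (m5 : L5.Mem (res u 5) (res a 5) (flH H qi sh 5)) {fin : Fin6}
    (h : svA L3 L19 L7 L13 L5 fin (res u 37) (res a 37) (flH H qi sh 37) = true) :
    fin (res u 7) (res a 7) (flH H qi sh 7) (res u 19) (res a 19) (flH H qi sh 19)
      (res u 5) (res a 5) (flH H qi sh 5) (res u 13) (res a 13) (flH H qi sh 13)
      (res u 3) (res a 3) (flH H qi sh 3) (res u 37) (res a 37) (flH H qi sh 37) = true := by
  have v3 : ∀ n, n < H.k → V 3 (H.b n * qi n) (H.q (n + 1) * qi n) := fun n hn =>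
    S.valid (by decide) (by decide) (by decide) hn
  have v7 : ∀ n, n < H.k → V 7 (H.b n * qi n) (H.q (n + 1) * qi n) := fun n hn =>
    S.valid (by decide) (by decide) (by decide) hn
  have v19 : ∀ n, n < H.k → V 19 (H.b n * qi n) (H.q (n + 1) * qi n) := fun n hn =>
    S.valid (by decide) (by decide) (by decide) hn
  have v37 : ∀ n, n < H.k → V 37 (H.b n * qi n) (H.q (n + 1) * qi n) := fun n hn =>
    S.valid (by decide) (by decide) (by decide) hn
  unfold svA at h
  rw [mkW_eq, mkW_eq, mkW_eq, mkW_eq, mkW_eq] at h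
  have h := m3 _ h
  rw [coT_eq] at h
  obtain ⟨K1, U1, V1, g1, h⟩ := lin_sound (c := c111_19_0) (x2 := 10) (by decide)
    (S.rel _ c111_19_0_ok (by decide) (by decide)) S.hs
    (S.chv2 (by decide) (by decide) (by decide) (by decide +kernel))
    (fun n hn => tab_111_0 (v37 n hn) (v3 n hn)) (fun n _ => chv_111_0 _) (fun n _ => chv_111_0 _) h
  rw [coT_eq] at h
  obtain ⟨K2, U2, V2, g2, h⟩ := lin_sound (c := c111_19_1) (x2 := 5) (by decide)
    (S.rel _ c111_19_1_ok (by decide) (by decide)) S.hs
    (S.chv2 (by decide) (by decide) (by decide) (by decide +kernel))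
    (fun n hn => tab_111_1 (v37 n hn) (v3 n hn)) (fun n _ => chv_111_1 _) (fun n _ => chv_111_1 _) h
  have h := m19 _ h
  have h := imp_true (imp_true h g1) g2
  have h := m7 _ h
  rw [coT_eq] at h
  have h := imp_lin (c := c259_19_0) (x2 := 4) (by decide) (S.rel _ c259_19_0_ok (by decide) (by decide)) S.hs
    (S.chv2 (by decide) (by decide) (by decide) (by decide +kernel))
    (fun n hn => tab_259_0 (v37 n hn) (v7 n hn)) (fun n _ => chv_259_0 _) (fun n _ => chv_259_0 _) h
  rw [coT_eq] at h
  have h := imp_lin (c := c259_19_1) (x2 := 12) (by decide) (S.rel _ c259_19_1_ok (by decide) (by decide)) S.hs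
    (S.chv2 (by decide) (by decide) (by decide) (by decide +kernel))
    (fun n hn => tab_259_1 (v37 n hn) (v7 n hn)) (fun n _ => chv_259_1 _) (fun n _ => chv_259_1 _) h
  rw [mkW_eq, coT_eq] at h
  have h := imp_lin (c := c133_37) (x2 := 16) (by decide) (S.rel _ c133_37_ok (by decide) (by decide)) S.hs
    (S.chv2 (by decide) (by decide) (by decide) (by decide +kernel))
    (fun n hn => tab_133_37 (v7 n hn) (v19 n hn)) (fun n _ => chv_133_37 _) (fun n _ => chv_133_37 _) h
  exact svB_sound S m13 m5 rfl h

theorem sieveG_sound (m : Mem2 H sh pr b k u a) (S : Sys H qi sh u a 0) {fin : Fin6} {lo n : ℕ}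
    (hlo : lo ≤ res b 37) (hhi : res b 37 < lo + n) (h : sieveG sh pr fin lo n = true) :
    fin (res u 7) (res a 7) (flH H qi sh 7) (res u 19) (res a 19) (flH H qi sh 19)
      (res u 5) (res a 5) (flH H qi sh 5) (res u 13) (res a 13) (flH H qi sh 13)
      (res u 3) (res a 3) (flH H qi sh 3) (res u 37) (res a 37) (flH H qi sh 37) = true := by
  unfold sieveG at h
  obtain ⟨L3, h, m3⟩ := m.mkG_sound' S (by norm_num) ci3 iq3 (by decide) (by decide) rfl _ h
  obtain ⟨L19, h, m19⟩ := m.mkG_sound' S (by norm_num) ci19 iq19 (by decide) (by decide) rfl _ h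
  obtain ⟨L7, h, m7⟩ := m.mkG_sound' S (by norm_num) ci7 iq7 (by decide) (by decide) rfl _ h
  obtain ⟨L13, h, m13⟩ := m.mkG_sound' S (by norm_num) ci13 iq13 (by decide) (by decide) rfl _ h
  obtain ⟨L5, h, m5⟩ := m.mkG_sound' S (by norm_num) ci5 iq5 (by decide) (by decide) rfl _ h
  have h := m.lpG_sound S (by norm_num) ci37 iq37 (by decide) (by decide) hlo hhi h
  exact svA_sound S m3 m19 m7 m13 m5 h

end stages

end Pool.Agent.H449
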