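import Pool.Agent.H449.C3

/-! Half cycles with linear polynomials. -/

set_option maxRecDepth 100000

namespace Pool.Agent.H449

open H419R2 Finset
open Pool.Agent.N911 (cj cj_true imp imp_true mod_res res_cast')

/-- the state of the continued fraction -/
def stt (κ : ℕ → ℤ) (a R : ℤ) : ℕ → ℤ × ℤ × ℤ
  | 0 => (1, 2 * a, R)
  | n + 1 => ((stt κ a R n).2.2, 2 * κ n * (stt κ a R n).2.2 - (stt κ a R n).2.1,
      (stt κ a R n).1 + (stt κ a R n).2.1 * κ n - (stt κ a R n).2.2 * (κ n) ^ 2)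

/-- outer coefficients -/
def sq (κ : ℕ → ℤ) (a R : ℤ) (n : ℕ) : ℤ := (stt κ a R n).1
/-- middle coefficients -/
def sb (κ : ℕ → ℤ) (a R : ℤ) (n : ℕ) : ℤ := (stt κ a R n).2.1

theorem sq_zero (κ : ℕ → ℤ) (a R : ℤ) : sq κ a R 0 = 1 := rfl
theorem sq_one (κ : ℕ → ℤ) (a R : ℤ) : sq κ a R 1 = R := rfl
theorem sb_zero (κ : ℕ → ℤ) (a R : ℤ) : sb κ a R 0 = 2 * a := rfl
theorem stt_22 (κ : ℕ → ℤ) (a R : ℤ) (n : ℕ) : (stt κ a R n).2.2 = sq κ a R (n + 1) := rfl

theorem sb_succ (κ : ℕ → ℤ) (a R : ℤ) (n : ℕ) :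
    sb κ a R (n + 1) = 2 * κ n * sq κ a R (n + 1) - sb κ a R n := rfl

theorem sq_succ (κ : ℕ → ℤ) (a R : ℤ) (n : ℕ) :
    sq κ a R (n + 2) = sq κ a R n + sb κ a R n * κ n - sq κ a R (n + 1) * (κ n) ^ 2 := rfl

/-- partial quotients of a shape followed by `v` -/
def kap (u v : ℤ) : SL → ℕ → ℤ
  | SL.nil, _ => v
  | SL.cons al be _, 0 => al * u + be
  | SL.cons _ _ s, n + 1 => kap u v s n

theorem kap_len (u v : ℤ) (sh : SL) : kap u v sh sh.len = v := by
  induction sh with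
  | nil => rfl
  | cons al be s ih => exact ih

theorem shp_shift {κ κ' : ℕ → ℤ} {u : ℤ} (sh : SL) : ∀ n m, (∀ j, κ' (m + j) = κ (n + j)) →
    Shp κ u sh n → Shp κ' u sh m := by
  induction sh with
  | nil => intro n m _ _; trivial
  | cons al be s ih =>
    intro n m h hs
    refine ⟨?_, ih (n + 1) (m + 1) ?_ hs.2⟩
    · have := h 0
      simp only [add_zero] at this
      rw [this]; exact hs.1
    · intro j
      have := h (j + 1)
      rw [show m + 1 + j = m + (j + 1) by ring, show n + 1 + j = n + (j + 1) by ring]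
      exact this

theorem kap_shp (u v : ℤ) (sh : SL) : Shp (kap u v sh) u sh 0 := by
  induction sh with
  | nil => trivial
  | cons al be s ih =>
    refine ⟨rfl, ?_⟩
    exact shp_shift s 0 (0 + 1) (fun j => by
      rw [show 0 + 1 + j = j + 1 by ring, zero_add]; rfl) ih

theorem rcr_stt (κ : ℕ → ℤ) (a R : ℤ) (sh : SL) : ∀ n, Rcr (sq κ a R) (sb κ a R) κ sh n := by
  induction sh with
  | nil => intro n; trivial
  | cons al be s ih => intro n; exact ⟨⟨sq_succ κ a R n, sb_succ κ a R n⟩, ih (n + 1)⟩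

/-- numerical check: `g` holds for the values of the inner norms, the last norm is `2` and the
cycle is symmetric -/
noncomputable def chkN (g : ℕ → Bool) (v0 vs : ℕ) (sh : SL) : ℕ → ℕ → ℕ → ℕ → ℕ → ℕ → Bool :=
  @SL.rec (fun _ => ℕ → ℕ → ℕ → ℕ → ℕ → ℕ → Bool)
    (fun _ _ ba bb ra rb => cj (Nat.beq ra 2) (cj (Nat.beq rb 0) (cj (Nat.beq ba (Nat.mul 2 v0))
      (Nat.beq bb (Nat.mul 2 vs)))))
    (fun al be _ ih qa qb ba bb ra rb => force (Nat.mul be ra) (fun x => force (Nat.mul be rb) (fun y =>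
      cj (Nat.beq al 0) (cj (Nat.blt 0 be) (cj (g ra) (cj (Nat.ble ba (Nat.mul 2 x))
        (cj (Nat.ble bb (Nat.mul 2 y)) (cj (Nat.ble (Nat.mul be x) (Nat.add qa (Nat.mul be ba)))
        (cj (Nat.ble (Nat.mul be y) (Nat.add qb (Nat.mul be bb)))
        (force (Nat.sub (Nat.mul 2 x) ba) (fun nba => force (Nat.sub (Nat.mul 2 y) bb) (fun nbb =>
          force (Nat.sub (Nat.add qa (Nat.mul be ba)) (Nat.mul be x)) (fun nra =>
          force (Nat.sub (Nat.add qb (Nat.mul be bb)) (Nat.mul be y)) (fun nrb =>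
            ih ra rb nba nbb nra nrb)))))))))))))) sh

theorem ble_true {m n : ℕ} (h : Nat.ble m n = true) : m ≤ n := Nat.le_of_ble_eq_true h

theorem blt_true {m n : ℕ} (h : Nat.blt m n = true) : m < n := Nat.le_of_ble_eq_true h

theorem beq_true {m n : ℕ} (h : Nat.beq m n = true) : m = n := Nat.eq_of_beq_eq_true h

theorem chkN_sound {g : ℕ → Bool} {v0 vs : ℕ} {κ : ℕ → ℤ} {a R u : ℤ} {s : ℕ} {P : ℤ → Prop}
    (hg : ∀ ra rb : ℕ, g ra = true → P ((ra : ℤ) + rb * s)) (sh : SL) :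
    ∀ (n : ℕ) (qa qb ba bb ra rb : ℕ), Shp κ u sh n →
    sq κ a R n = qa + qb * s → sb κ a R n = ba + bb * s → sq κ a R (n + 1) = ra + rb * s →
    chkN g v0 vs sh qa qb ba bb ra rb = true →
    (∀ j, n < j → j < n + sh.len + 1 → P (sq κ a R j)) ∧
    (∀ j, n ≤ j → j < n + sh.len → 0 < κ j) ∧
    sq κ a R (n + sh.len + 1) = 2 ∧ sb κ a R (n + sh.len) = 2 * ((v0 : ℤ) + vs * s) := by
  induction sh with
  | nil =>
    intro n qa qb ba bb ra rb _ h1 h2 h3 h
    have e : chkN g v0 vs SL.nil qa qb ba bb ra rb = cj (Nat.beq ra 2) (cj (Nat.beq rb 0)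
      (cj (Nat.beq ba (Nat.mul 2 v0)) (Nat.beq bb (Nat.mul 2 vs)))) := rfl
    rw [e] at h
    simp only [cj_true] at h
    obtain ⟨g1, g2, g3, g4⟩ := h
    have g1 := beq_true g1
    have g2 := beq_true g2
    have g3 : ba = 2 * v0 := beq_true g3
    have g4 : bb = 2 * vs := beq_true g4
    simp only [SL.len, add_zero]
    refine ⟨fun j h4 h5 => by omega, fun j h4 h5 => by omega, ?_, ?_⟩
    · rw [h3, g1, g2]; simp
    · rw [h2, g3, g4]; push_cast; ring
  | cons al be sh ih =>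
    intro n qa qb ba bb ra rb hS h1 h2 h3 h
    have e : chkN g v0 vs (SL.cons al be sh) qa qb ba bb ra rb =
      force (Nat.mul be ra) (fun x => force (Nat.mul be rb) (fun y =>
      cj (Nat.beq al 0) (cj (Nat.blt 0 be) (cj (g ra) (cj (Nat.ble ba (Nat.mul 2 x))
        (cj (Nat.ble bb (Nat.mul 2 y)) (cj (Nat.ble (Nat.mul be x) (Nat.add qa (Nat.mul be ba)))
        (cj (Nat.ble (Nat.mul be y) (Nat.add qb (Nat.mul be bb)))
        (force (Nat.sub (Nat.mul 2 x) ba) (fun nba => force (Nat.sub (Nat.mul 2 y) bb) (fun nbb =>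
          force (Nat.sub (Nat.add qa (Nat.mul be ba)) (Nat.mul be x)) (fun nra =>
          force (Nat.sub (Nat.add qb (Nat.mul be bb)) (Nat.mul be y)) (fun nrb =>
            chkN g v0 vs sh ra rb nba nbb nra nrb))))))))))))) := rfl
    rw [e] at h
    simp only [force_eq, cj_true] at h
    obtain ⟨g1, g2, g3, g4, g5, g6, g7, h⟩ := h
    have g1 := beq_true g1
    have g2 := blt_true g2
    have g4 : ba ≤ 2 * (be * ra) := ble_true g4
    have g5 : bb ≤ 2 * (be * rb) := ble_true g5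
    have g6 : be * (be * ra) ≤ qa + be * ba := ble_true g6
    have g7 : be * (be * rb) ≤ qb + be * bb := ble_true g7
    obtain ⟨hS1, hS2⟩ := hS
    have hκ : κ n = be := by rw [hS1, g1]; push_cast; ring
    have k1 : sb κ a R (n + 1) = ((Nat.sub (Nat.mul 2 (Nat.mul be ra)) ba : ℕ) : ℤ) +
        ((Nat.sub (Nat.mul 2 (Nat.mul be rb)) bb : ℕ) : ℤ) * s := by
      change _ = ((2 * (be * ra) - ba : ℕ) : ℤ) + ((2 * (be * rb) - bb : ℕ) : ℤ) * s
      rw [sb_succ, hκ, h3, h2]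
      push_cast [Nat.cast_sub g4, Nat.cast_sub g5]
      ring
    have k2 : sq κ a R (n + 1 + 1) = ((Nat.sub (Nat.add qa (Nat.mul be ba))
        (Nat.mul be (Nat.mul be ra)) : ℕ) : ℤ) +
        ((Nat.sub (Nat.add qb (Nat.mul be bb)) (Nat.mul be (Nat.mul be rb)) : ℕ) : ℤ) * s := by
      change sq κ a R (n + 2) = ((qa + be * ba - be * (be * ra) : ℕ) : ℤ) +
        ((qb + be * bb - be * (be * rb) : ℕ) : ℤ) * s
      rw [sq_succ, hκ, h1, h2, h3]
      push_cast [Nat.cast_sub g6, Nat.cast_sub g7]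
      ring
    obtain ⟨r1, r2, r3, r4⟩ := ih (n + 1) ra rb _ _ _ _ hS2 h3 k1 k2 h
    have e1 : n + 1 + sh.len = n + (SL.cons al be sh).len := by simp only [SL.len]; omega
    rw [e1] at r1 r2 r3 r4
    refine ⟨?_, ?_, r3, r4⟩
    · intro j hj1 hj2
      rcases Nat.lt_or_ge (n + 1) j with hj | hj
      · exact r1 j hj hj2
      · have : j = n + 1 := by omega
        rw [this, h3]
        exact hg ra rb g3
    · intro j hj1 hj2
      rcases Nat.lt_or_ge n j with hj | hj
      · exact r2 j (by omega) hj2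
      · have : j = n := by omega
        rw [this, hκ]
        exact_mod_cast g2

/-- the half cycle of a shape -/
theorem mkHalf {a R u v : ℤ} {sh : SL} {P : ℤ → Prop} (hP : ∀ z, P z → 1 < z) (hv : 0 < v) (ha : 0 < a)
    (h1 : ∀ j, 0 < j → j < sh.len + 1 → P (sq (kap u v sh) a R j))
    (h2 : ∀ j, j < sh.len → 0 < kap u v sh j)
    (h3 : sq (kap u v sh) a R (sh.len + 1) = 2) (h4 : sb (kap u v sh) a R sh.len = 2 * v) :
    ∃ H : Half, H.k = sh.len + 1 ∧ (∀ n, H.q n = sq (kap u v sh) a R n) ∧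
      (∀ n, H.b n = sb (kap u v sh) a R n) ∧ (∀ n, n < H.k → (H.κ n : ℤ) = kap u v sh n) := by
  have hκ : ∀ n, n < sh.len + 1 → 0 < kap u v sh n := by
    intro n hn
    rcases Nat.lt_or_ge n sh.len with h | h
    · exact h2 n h
    · have : n = sh.len := by omega
      rw [this, kap_len]; exact hv
  have hκ' : ∀ n, n < sh.len + 1 → (((kap u v sh n).toNat : ℕ) : ℤ) = kap u v sh n := by
    intro n hn
    exact Int.toNat_of_nonneg (hκ n hn).le
  have hq1 : ∀ n, 0 < n → n ≤ sh.len + 1 → 1 < sq (kap u v sh) a R n := by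
    intro n hn hn2
    rcases Nat.lt_or_ge n (sh.len + 1) with h | h
    · exact hP _ (h1 n hn h)
    · have : n = sh.len + 1 := by omega
      rw [this, h3]; norm_num
  refine ⟨{ k := sh.len + 1, hk := by omega, κ := fun n => (kap u v sh n).toNat,
            q := sq (kap u v sh) a R, b := sb (kap u v sh) a R, κpos := ?_, qpos := ?_,
            q0 := sq_zero _ _ _, bpos := ?_, recq := ?_, recb := ?_, center := ?_, qone := ?_ },
    rfl, fun n => rfl, fun n => rfl, hκ'⟩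
  · intro n hn
    have := hκ n hn
    omega
  · intro n hn
    rcases Nat.eq_zero_or_pos n with h | h
    · rw [h, sq_zero]; norm_num
    · have := hq1 n h hn
      omega
  · rw [sb_zero]; omega
  · intro n hn
    rw [hκ' n (by omega)]
    exact sq_succ _ _ _ n
  · intro n hn
    rw [hκ' n (by omega)]
    exact sb_succ _ _ _ n
  · have e : sh.len + 1 - 1 = sh.len := by omega
    rw [e, hκ' _ (by omega), h3, h4, kap_len]
  · intro n hn hn2
    have := hq1 n hn hn2
    omega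

end Pool.Agent.H449
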