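import Pool.Agent.H449.E2

/-! Lists of families. -/

set_option maxRecDepth 100000

namespace Pool.Agent.H449

open H419R2 Finset QuadraticAlgebra Module
open Pool.Agent.N911 (cj cj_true imp imp_true mod_res res_cast')

/-- witnesses -/
inductive WtL where
  | nil : WtL
  | cons (k x z : ℕ) (l : WtL) : WtL

/-- families -/
inductive FamL where
  | nil : FamL
  | cons (s y c a0 R0 dl T : ℕ) (sh : SL) (w : WtL) (l : FamL) : FamL

/-- all entries satisfy `g` -/
noncomputable def FamL.all (L : FamL) (g : ℕ → ℕ → ℕ → ℕ → ℕ → ℕ → ℕ → SL → WtL → Bool) : Bool :=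
  @FamL.rec (fun _ => Bool) true (fun s y c a0 R0 dl T sh w _ ih => cj (g s y c a0 R0 dl T sh w) ih) L

/-- the list of exceptions -/
def LB : ℕ := 14775172185400484199309093153661393545207733134585578111736852884647917917826099599028381891746738443564030683505574906868653125956460301877794002737387678247140430071709103949163623371626870816035418908619310910446589262244534603461943832873828055332950610050703721703819951856176885065922481508598079764907538451911962578318179890628832874324780404821686211201974591466711452745912684530839897418579899413008789876575389461456349888551105793734796403339775578664494189961020478800058983869568485390862449173668055244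
/-- odd primes below 200 -/
def PB : ℕ := 1020032875410759681235134578348735197776366020317731447515304

/-- the exceptions as a list -/
def lst : List ℕ := [2, 3, 6, 7, 11, 14, 19, 22, 23, 31, 38, 43, 46, 47, 59, 62, 67, 71, 83, 86, 94, 103, 107, 118, 127, 131, 134, 139, 158, 163, 167, 179, 191, 206, 227, 239, 251, 262, 263, 278, 283, 302, 307, 311, 347, 383, 398, 419, 422, 431, 446, 467, 479, 503, 542, 563, 566, 587, 647, 683, 734, 743, 758, 827, 878, 887, 983, 998, 1142, 1238, 1307, 1319, 1382, 1487, 1718]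

theorem LB_lst {d : ℕ} (h : tb LB d = true) : d ∈ lst := by
  have h1 : d < 1719 := by
    by_contra hc
    have h2 : LB.testBit d = false := by
      apply Nat.testBit_lt_two_pow
      calc LB < 2 ^ 1719 := by decide +kernel
        _ ≤ 2 ^ d := Nat.pow_le_pow_right (by norm_num) (by omega)
    rw [tb_eq, h2] at h
    exact absurd h (by simp)
  have h2 : ∀ d < 1719, tb LB d = true → d ∈ lst := by decide +kernel
  exact h2 d h1 h

theorem PB_prime {p : ℕ} (h : tb PB p = true) : p.Prime ∧ p ≠ 2 := by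
  have h1 : p < 200 := by
    by_contra hc
    have h2 : PB.testBit p = false := by
      apply Nat.testBit_lt_two_pow
      calc PB < 2 ^ 200 := by decide +kernel
        _ ≤ 2 ^ p := Nat.pow_le_pow_right (by norm_num) (by omega)
    rw [tb_eq, h2] at h
    exact absurd h (by simp)
  have h2 : ∀ p < 200, tb PB p = true → p ∈ ([3, 5, 7, 11, 13, 17, 19, 23, 29, 31, 37, 41, 43, 47, 53, 59, 61, 67, 71, 73, 79, 83, 89, 97, 101, 103, 107, 109, 113, 127, 131, 137, 139, 149, 151, 157, 163, 167, 173, 179, 181, 191, 193, 197, 199] : List ℕ) := by decide +kernel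
  have h3 := h2 p h1 h
  simp only [List.mem_cons, List.not_mem_nil, or_false] at h3
  rcases h3 with rfl | rfl | rfl | rfl | rfl | rfl | rfl | rfl | rfl | rfl | rfl | rfl | rfl | rfl | rfl | rfl | rfl | rfl | rfl | rfl | rfl | rfl | rfl | rfl | rfl | rfl | rfl | rfl | rfl | rfl | rfl | rfl | rfl | rfl | rfl | rfl | rfl | rfl | rfl | rfl | rfl | rfl | rfl | rfl | rfl <;>
    exact ⟨by norm_num, by norm_num⟩

/-- check for large members -/
noncomputable def chkBig (y c a0 R0 dl T : ℕ) (sh : SL) : Bool :=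
  force (Nat.add a0 (Nat.mul y T)) (fun a => force (Nat.add R0 (Nat.mul (Nat.mul 2 c) T)) (fun R =>
    cj (Nat.ble dl 1) (cj (Nat.blt dl a) (cj (Nat.ble 5329 (Nat.add (Nat.mul a a) R))
      (chkN (fun ra => Nat.blt 73 ra) (Nat.sub a dl) y sh 1 0 (Nat.mul 2 a) (Nat.mul 2 y) R
        (Nat.mul 2 c))))))

/-- check for one member -/
noncomputable def chkOne (y a R dl k x z : ℕ) (sh : SL) : Bool :=
  force (Nat.add (Nat.mul a a) R) (fun d =>
  @Nat.rec (fun _ => Bool) (Nat.blt (Nat.mod d 4) 2) (fun k _ =>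
  @Nat.rec (fun _ => Bool) (tb LB d) (fun k _ =>
  @Nat.rec (fun _ => Bool) (cj (Nat.blt 1 x) (Nat.beq (Nat.mod d (Nat.mul x x)) 0)) (fun k _ =>
  @Nat.rec (fun _ => Bool) (cj (Nat.blt 0 x) (cj (Nat.blt x y)
      (or (Nat.beq (Nat.add (Nat.mul d (Nat.mul x x)) 2) (Nat.mul z z))
        (Nat.beq (Nat.mul d (Nat.mul x x)) (Nat.add (Nat.mul z z) 2))))) (fun _ _ =>
    cj (tb PB x) (cj (Nat.ble (Nat.mul x x) d) (cj (Nat.blt dl a) (cj
      (Nat.beq (Nat.mod (Nat.add (Nat.mul z z) (Nat.mul (Nat.mul 2 a) z)) x) (Nat.mod R x))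
      (chkN (fun ra => cj (Nat.blt 1 ra) (not (Nat.beq ra x))) (Nat.sub a dl) 0 sh 1 0 (Nat.mul 2 a) 0
        R 0))))) k) k) k) k)

/-- check of the witnesses -/
noncomputable def chkW (y R1 dl : ℕ) (sh : SL) (w : WtL) : ℕ → ℕ → Bool :=
  @WtL.rec (fun _ => ℕ → ℕ → Bool) (fun _ _ => true) (fun k x z _ ih a R =>
    cj (chkOne y a R dl k x z sh) (force (Nat.add a y) (fun a => force (Nat.add R R1) (fun R =>
      ih a R)))) w

/-- length -/
noncomputable def wlen (w : WtL) : ℕ := @WtL.rec (fun _ => ℕ) 0 (fun _ _ _ _ ih => Nat.succ ih) w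

/-- numerical check of a family -/
noncomputable def chkFam (y c a0 R0 dl T : ℕ) (sh : SL) (w : WtL) : Bool :=
  cj (chkBig y c a0 R0 dl T sh) (cj (Nat.beq (wlen w) T) (chkW y (Nat.mul 2 c) dl sh w a0 R0))

/-- the field data -/
structure FD (d y : ℕ) : Prop where
  sf : Squarefree (d : ℤ)
  d4 : d % 4 = 2 ∨ d % 4 = 3
  good : ∀ H : Half, 4 * (d : ℤ) = H.b 0 ^ 2 + 4 * H.q 1 → HGood H d
  min : ∀ y' z : ℕ, 0 < y' → y' < y → d * (y' * y') + 2 ≠ z * z ∧ d * (y' * y') ≠ z * z + 2

theorem chkOne_sound {y a R dl k x z d : ℕ} {sh : SL} (F : FD d y) (hd : d = a * a + R)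
    (h : chkOne y a R dl k x z sh = true) : tb LB d = true := by
  subst hd
  set d := a * a + R with hdd
  match k, h with
  | 0, h =>
    have h : Nat.blt (d % 4) 2 = true := by
      have e : chkOne y a R dl 0 x z sh = force d (fun d => Nat.blt (Nat.mod d 4) 2) := rfl
      rw [e, force_eq] at h
      exact h
    have h1 := blt_true h
    have := F.d4
    omega
  | 1, h =>
    have e : chkOne y a R dl 1 x z sh = force d (fun d => tb LB d) := rfl
    rw [e, force_eq] at h
    exact h
  | 2, h =>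
    exfalso
    have e : chkOne y a R dl 2 x z sh = force d (fun d => cj (Nat.blt 1 x)
      (Nat.beq (Nat.mod d (Nat.mul x x)) 0)) := rfl
    rw [e, force_eq, cj_true] at h
    obtain ⟨h1, h2⟩ := h
    have h1 := blt_true h1
    have h2 : d % (x * x) = 0 := beq_true h2
    have h3 : x * x ∣ d := Nat.dvd_of_mod_eq_zero h2
    have h4 : (x : ℤ) * x ∣ (d : ℤ) := by exact_mod_cast h3
    have h5 := F.sf _ h4
    have h6 : IsUnit x := Int.isUnit_iff_natAbs_eq.mp h5 |> fun h => by
      rw [Int.natAbs_natCast] at h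
      rw [h]; exact isUnit_one
    have := Nat.isUnit_iff.mp h6
    omega
  | 3, h =>
    exfalso
    have e : chkOne y a R dl 3 x z sh = force d (fun d => cj (Nat.blt 0 x) (cj (Nat.blt x y)
      (or (Nat.beq (Nat.add (Nat.mul d (Nat.mul x x)) 2) (Nat.mul z z))
        (Nat.beq (Nat.mul d (Nat.mul x x)) (Nat.add (Nat.mul z z) 2))))) := rfl
    rw [e, force_eq, cj_true, cj_true, Bool.or_eq_true] at h
    obtain ⟨h1, h2, h3⟩ := h
    have h1 := blt_true h1
    have h2 := blt_true h2
    have h4 := F.min x z h1 h2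
    rcases h3 with h3 | h3
    · exact h4.1 (beq_true h3)
    · exact h4.2 (beq_true h3)
  | n + 4, h =>
    exfalso
    have e : chkOne y a R dl (n + 4) x z sh = force d (fun d =>
      cj (tb PB x) (cj (Nat.ble (Nat.mul x x) d) (cj (Nat.blt dl a) (cj
      (Nat.beq (Nat.mod (Nat.add (Nat.mul z z) (Nat.mul (Nat.mul 2 a) z)) x) (Nat.mod R x))
      (chkN (fun ra => cj (Nat.blt 1 ra) (not (Nat.beq ra x))) (Nat.sub a dl) 0 sh 1 0 (Nat.mul 2 a) 0
        R 0))))) := rfl
    rw [e, force_eq] at h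
    simp only [cj_true] at h
    obtain ⟨h1, h2, h3, h4, h5⟩ := h
    obtain ⟨hp, hp2⟩ := PB_prime h1
    have h2 : x * x ≤ d := ble_true h2
    have h3 := blt_true h3
    have h4 : (z * z + 2 * a * z) % x = R % x := beq_true h4
    have hv : ((a - dl : ℕ) : ℤ) = (a : ℤ) - dl := by push_cast [Nat.cast_sub h3.le]; ring
    have h6 := chkN_sound (g := fun ra => cj (Nat.blt 1 ra) (not (Nat.beq ra x)))
      (v0 := a - dl) (vs := 0) (κ := kap 0 ((a - dl : ℕ) : ℤ) sh) (a := a) (R := R) (u := 0) (s := 0)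
      (P := fun w => 1 < w ∧ w ≠ x) (by
        intro ra rb h
        rw [cj_true] at h
        obtain ⟨g1, g2⟩ := h
        have g1 := blt_true g1
        have g3 : ra ≠ x := by
          intro h
          rw [h] at g2
          rw [show Nat.beq x x = true from Nat.beq_refl x] at g2
          exact absurd g2 (by simp)
        constructor
        · push_cast; simp; omega
        · push_cast; simp; exact_mod_cast g3) sh 0 1 0 (Nat.mul 2 a) 0 R 0 (kap_shp _ _ _)
      (by rw [sq_zero]; simp) (by rw [sb_zero]; change _ = ((2 * a : ℕ) : ℤ) + _; push_cast; ring)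
      (by rw [sq_one]; simp) h5
    obtain ⟨r1, r2, r3, r4⟩ := h6
    rw [zero_add] at r1 r2 r3 r4
    obtain ⟨H, hk, hq, hb, hκ⟩ := mkHalf (u := 0) (v := ((a - dl : ℕ) : ℤ)) (a := a) (R := R)
      (sh := sh) (P := fun w => 1 < w ∧ w ≠ x) (fun z h => h.1) (by omega) (by omega)
      (fun j h1 h2 => r1 j h1 (by omega)) (fun j h => r2 j (by omega) h) r3
      (by rw [r4]; push_cast; ring)
    have G := F.good H (by rw [hb, hq, sb_zero, sq_one, hdd]; push_cast; ring)
    obtain ⟨r, hr, he⟩ := G.split x hp (by rw [pow_two]; exact h2) ⟨z, by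
      rw [hb, hq, sb_zero, sq_one]
      have h7 : ((z * z + 2 * a * z : ℕ) : ZMod x) = ((R : ℕ) : ZMod x) :=
        (ZMod.natCast_eq_natCast_iff' _ _ _).mpr h4
      have h8 : (((z : ℤ) ^ 2 + 2 * a * z - R : ℤ) : ZMod x) = 0 := by
        push_cast at h7 ⊢
        linear_combination h7
      exact (ZMod.intCast_zmod_eq_zero_iff_dvd _ x).mp h8⟩
    rw [hq] at he
    rcases Nat.eq_zero_or_pos r with h9 | h9
    · rw [h9, sq_zero] at he
      exact hp.one_lt.ne (by exact_mod_cast he)
    · rcases Nat.lt_or_ge r (sh.len + 1) with h10 | h10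
      · exact (r1 r h9 h10).2 he
      · have : r = sh.len + 1 := by omega
        rw [this, r3] at he
        exact hp2 (by exact_mod_cast he.symm)

theorem chkW_sound {y R1 dl : ℕ} {sh : SL} (w : WtL) : ∀ (a R t d : ℕ), FD d y →
    d = (a + y * t) * (a + y * t) + (R + R1 * t) → t < wlen w → chkW y R1 dl sh w a R = true →
    tb LB d = true := by
  induction w with
  | nil => intro a R t d _ _ h; exact absurd h (Nat.not_lt_zero _)
  | cons k x z w ih =>
    intro a R t d F hd ht h
    have e : chkW y R1 dl sh (WtL.cons k x z w) a R = cj (chkOne y a R dl k x z sh)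
      (force (Nat.add a y) (fun a => force (Nat.add R R1) (fun R => chkW y R1 dl sh w a R))) := rfl
    rw [e, cj_true, force_eq, force_eq] at h
    obtain ⟨h1, h2⟩ := h
    have ht : t < wlen w + 1 := ht
    rcases Nat.eq_zero_or_pos t with h3 | h3
    · subst h3
      exact chkOne_sound F (by rw [hd]; ring) h1
    · obtain ⟨t', rfl⟩ : ∃ t', t = t' + 1 := ⟨t - 1, by omega⟩
      refine ih (a + y) (R + R1) t' d F ?_ (by omega) h2
      rw [hd]; ring

theorem chkBig_sound {y c a0 R0 dl T t d : ℕ} {sh : SL} (F : FD d y)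
    (hd : d = (a0 + y * t) * (a0 + y * t) + (R0 + 2 * c * t)) (hT : T ≤ t)
    (h : chkBig y c a0 R0 dl T sh = true) :
    ∃ (H : Half) (v : ℤ) (qi : ℕ → ℤ), Mem1 H sh ((a0 + y * t : ℕ) : ℤ) v dl a0 y R0 (2 * c) t ∧
      Sys H qi sh 0 v dl := by
  unfold chkBig at h
  rw [force_eq, force_eq] at h
  simp only [cj_true] at h
  obtain ⟨h1, h2, h3, h4⟩ := h
  have h1 : dl ≤ 1 := ble_true h1
  have h2 : dl < a0 + y * T := blt_true h2
  have h3 : 5329 ≤ (a0 + y * T) * (a0 + y * T) + (R0 + 2 * c * T) := ble_true h3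
  obtain ⟨s, rfl⟩ : ∃ s, t = T + s := ⟨t - T, by omega⟩
  set a : ℤ := ((a0 + y * (T + s) : ℕ) : ℤ) with ha
  set v : ℤ := a - dl with hv
  have hvs : ((Nat.sub (Nat.add a0 (Nat.mul y T)) dl : ℕ) : ℤ) + (y : ℤ) * s = v := by
    have e : ((Nat.sub (Nat.add a0 (Nat.mul y T)) dl : ℕ) : ℤ) = ((a0 + y * T : ℕ) : ℤ) - dl := by
      change ((a0 + y * T - dl : ℕ) : ℤ) = _
      exact Nat.cast_sub h2.le
    rw [e, hv, ha]
    push_cast
    ring
  have hR : ((R0 + 2 * c * (T + s) : ℕ) : ℤ) = (R0 : ℤ) + ((2 * c : ℕ) : ℤ) * ((T + s : ℕ) : ℤ) := by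
    push_cast; ring
  have h6 := chkN_sound (g := fun ra => Nat.blt 73 ra)
      (v0 := Nat.sub (Nat.add a0 (Nat.mul y T)) dl) (vs := y) (κ := kap 0 v sh) (a := a)
      (R := (R0 : ℤ) + ((2 * c : ℕ) : ℤ) * ((T + s : ℕ) : ℤ)) (u := 0) (s := s)
      (P := fun w => 73 < w) (by
        intro ra rb h
        have h := blt_true h
        have : (73 : ℤ) < ra := by exact_mod_cast h
        have : (0 : ℤ) ≤ (rb : ℤ) * s := by positivity
        omega) sh 0 1 0 _ _ _ _ (kap_shp _ _ _)
      (by rw [sq_zero]; simp)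
      (by rw [sb_zero, ha]; change _ = ((2 * (a0 + y * T) : ℕ) : ℤ) + ((2 * y : ℕ) : ℤ) * s; push_cast; ring)
      (by rw [sq_one]; change _ = ((R0 + 2 * c * T : ℕ) : ℤ) + ((2 * c : ℕ) : ℤ) * s; push_cast; ring) h4
  obtain ⟨r1, r2, r3, r4⟩ := h6
  rw [zero_add] at r1 r2 r3 r4
  rw [hvs] at r4
  have ha2 : (dl : ℤ) < a := by
    rw [ha]
    have : dl < a0 + y * (T + s) := by nlinarith
    exact_mod_cast this
  have hdl0 : (0 : ℤ) ≤ dl := by positivity
  obtain ⟨H, hk, hq, hb, hκ⟩ := mkHalf (u := 0) (v := v) (a := a)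
      (R := (R0 : ℤ) + ((2 * c : ℕ) : ℤ) * ((T + s : ℕ) : ℤ))
      (sh := sh) (P := fun w => 73 < w) (fun z h => by omega) (by omega) (by omega)
      (fun j h1 h2 => r1 j h1 (by omega)) (fun j h => r2 j (by omega) h) r3 r4
  have m : Mem1 H sh a v dl a0 y R0 (2 * c) (T + s) :=
    { len := hk, q := hq, b := hb, κ := hκ, ha := by rw [ha]; push_cast; ring, hv := by rw [hv]; ring }
  have G := F.good H (by
    rw [hb, hq, sb_zero, sq_one, hd, ha]; push_cast; ring)
  have hd5 : 5329 ≤ d := by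
    rw [hd]
    nlinarith [Nat.zero_le (y * s), Nat.zero_le (2 * c * s), Nat.zero_le ((a0 + y * T) * (y * s))]
  obtain ⟨qi, S⟩ := sys_of G hd5 (by rw [hk, hq]; exact r3) (by
    intro r h5 h6
    rw [hq]
    exact r1 r h5 (by omega)) m.hs h1
  exact ⟨H, v, qi, m, S⟩

/-- a family is settled -/
theorem fam_sound {y c a0 R0 dl T t d : ℕ} {sh : SL} {w : WtL} (F : FD d y)
    (hd : d = (a0 + y * t) * (a0 + y * t) + (R0 + 2 * c * t))
    (h : chkFam y c a0 R0 dl T sh w = true)
    (hs : sieve1 dl a0 y R0 (2 * c) sh ff = true ∨ sieve2 dl a0 y R0 (2 * c) sh = true) :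
    tb LB d = true := by
  unfold chkFam at h
  rw [cj_true, cj_true] at h
  obtain ⟨h1, h2, h3⟩ := h
  have h2 : wlen w = T := beq_true h2
  rcases Nat.lt_or_ge t T with h4 | h4
  · exact chkW_sound w a0 R0 t d F hd (by omega) h3
  · exfalso
    obtain ⟨H, v, qi, m, S⟩ := chkBig_sound F hd h4 h1
    rcases hs with hs | hs
    · exact m.sieve1_false S hs
    · exact m.sieve2_false S hs

end Pool.Agent.H449
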