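import Pool.Agent.H449.E3

/-! From class number one to the families. -/

set_option maxRecDepth 100000

namespace Pool.Agent.H449

open H419R2 Finset QuadraticAlgebra Module
open Pool.Agent.N911 (cj cj_true imp imp_true mod_res res_cast' allN allN_iff)

/-- `x ^ 2 - d y ^ 2 = ±2` is solvable in `x` -/
def Sol (d y : ℕ) : Prop := ∃ x : ℕ, d * (y * y) + 2 = x * x ∨ d * (y * y) = x * x + 2

theorem exists_sol {d : ℕ} (hsf : Squarefree (d : ℤ)) (hd4 : d % 4 = 2 ∨ d % 4 = 3)
    {K : Type*} [Field K] [NumberField K] (hK : Module.finrank ℚ K = 2) {x : K}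
    (hx : x ^ 2 = ((d : ℤ) : K)) (hcl : NumberField.classNumber K = 1) :
    ∃ y, 0 < y ∧ Sol d y := by
  have hd1 : (1 : ℤ) < d := by
    have : 1 < d := by omega
    exact_mod_cast this
  have hD : 4 * (d : ℤ) = (0 : ℤ) ^ 2 + 4 * (d : ℤ) := by ring
  have i1 : IsDomain (QA (d : ℤ) 0) := isDomain_even hD hsf hd1
  have i2 : IsPrincipalIdealRing (QA (d : ℤ) 0) := pid_even hD hsf hd1 (by omega) hK hx hcl
  obtain ⟨z, hz⟩ := exists_norm_prime (R := (d : ℤ)) (m := 0) Nat.prime_two (w0 := d) (by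
    have e : (d : ℤ) ^ 2 + 0 * d - d = d * (d - 1) := by ring
    rw [e]
    rcases Int.emod_two_eq_zero_or_one (d : ℤ) with h | h
    · exact (Int.dvd_of_emod_eq_zero h).mul_right _
    · exact Dvd.dvd.mul_left (by push_cast; omega) _)
  rw [norm_eq] at hz
  set X : ℕ := z.re.natAbs with hX
  set Y : ℕ := z.im.natAbs with hY
  have hX2 : z.re ^ 2 = (X : ℤ) * X := by rw [hX, ← pow_two, Int.natAbs_sq]
  have hY2 : z.im ^ 2 = (Y : ℤ) * Y := by rw [hY, ← pow_two, Int.natAbs_sq]
  have h1 : (X : ℤ) * X - d * (Y * Y) = 2 ∨ (X : ℤ) * X - d * (Y * Y) = -2 := by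
    rw [← hX2, ← hY2]
    have := Int.natAbs_eq_iff.mp hz
    rcases this with h | h
    · left; linear_combination h
    · right; linear_combination h
  have hs : Sol d Y := by
    refine ⟨X, ?_⟩
    rcases h1 with h | h
    · left
      have : ((d * (Y * Y) + 2 : ℕ) : ℤ) = ((X * X : ℕ) : ℤ) := by push_cast; linarith
      exact_mod_cast this
    · right
      have : ((d * (Y * Y) : ℕ) : ℤ) = ((X * X + 2 : ℕ) : ℤ) := by push_cast; linarith
      exact_mod_cast this
  refine ⟨Y, ?_, hs⟩
  by_contra h0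
  have hY0 : Y = 0 := by omega
  rw [hY0] at hs
  obtain ⟨x, hx⟩ := hs
  have h3 : x * x ≠ 2 := by
    intro h
    have : x < 2 := by nlinarith
    interval_cases x <;> omega
  rcases hx with h | h
  · apply h3; omega
  · omega

theorem pell_ineq {d u v x y : ℕ} (hd : 1 < d) (hp : u * u = d * (v * v) + 1) (hv : 0 < v)
    (hy : 0 < y) (hxy : d * (y * y) + 2 = x * x ∨ d * (y * y) = x * x + 2)
    (hmin : ∀ y', 0 < y' → y' < y → ¬ Sol d y') : d * (y * y) ≤ u + 1 := by
  obtain ⟨σ, hσ, hxy'⟩ : ∃ σ : ℤ, (σ = 1 ∨ σ = -1) ∧ (x : ℤ) * x = d * (y * y) + 2 * σ := by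
    rcases hxy with h | h
    · exact ⟨1, Or.inl rfl, by have := congrArg (fun n : ℕ => (n : ℤ)) h; push_cast at this; linarith⟩
    · exact ⟨-1, Or.inr rfl, by have := congrArg (fun n : ℕ => (n : ℤ)) h; push_cast at this; linarith⟩
  have hp' : (u : ℤ) * u = d * (v * v) + 1 := by exact_mod_cast hp
  have hd' : (1 : ℤ) < d := by exact_mod_cast hd
  have hv' : (0 : ℤ) < v := by exact_mod_cast hv
  have hy' : (0 : ℤ) < y := by exact_mod_cast hy
  have hu0 : (0 : ℤ) ≤ u := by positivity
  have hx0 : (0 : ℤ) ≤ x := by positivity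
  have hu1 : (1 : ℤ) < u := by nlinarith
  set e : ℤ := y * u - x * v with he
  set X : ℤ := x * u - d * y * v with hX
  have hnorm : X * X - d * (e * e) = 2 * σ := by
    rw [hX, he]
    linear_combination ((u : ℤ) * u - d * (v * v)) * hxy' + (2 * σ) * hp'
  have hey : (y : ℤ) ≤ |e| := by
    by_contra hc
    have hc := not_le.mp hc
    have h1 : (e.natAbs : ℤ) = |e| := Int.natCast_natAbs e
    have h2 : e.natAbs < y := by omega
    have e1 : ((e.natAbs : ℕ) : ℤ) * (e.natAbs : ℕ) = e * e := by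
      rw [h1, abs_mul_abs_self]
    have e2 : ((X.natAbs : ℕ) : ℤ) * (X.natAbs : ℕ) = X * X := by
      rw [Int.natCast_natAbs, abs_mul_abs_self]
    have hs : Sol d e.natAbs := by
      refine ⟨X.natAbs, ?_⟩
      rcases hσ with h | h
      · left
        have : ((d * (e.natAbs * e.natAbs) + 2 : ℕ) : ℤ) = ((X.natAbs * X.natAbs : ℕ) : ℤ) := by
          push_cast
          push_cast at e1 e2
          rw [h] at hnorm
          rw [abs_mul_abs_self, abs_mul_abs_self]
          linarith
        exact_mod_cast this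
      · right
        have : ((d * (e.natAbs * e.natAbs) : ℕ) : ℤ) = ((X.natAbs * X.natAbs + 2 : ℕ) : ℤ) := by
          push_cast
          rw [h] at hnorm
          rw [abs_mul_abs_self, abs_mul_abs_self]
          linarith
        exact_mod_cast this
    rcases Nat.eq_zero_or_pos e.natAbs with h3 | h3
    · rw [h3] at hs
      obtain ⟨w, hw⟩ := hs
      have h3 : w * w ≠ 2 := by
        intro h
        have : w < 2 := by nlinarith
        interval_cases w <;> omega
      rcases hw with h | h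
      · apply h3; omega
      · omega
    · exact hmin _ h3 h2 hs
  have hkey : (y : ℤ) * u * (y * u) - (x * v) * (x * v) = y * y - 2 * σ * (v * v) := by
    linear_combination ((y : ℤ) * y) * hp' - ((v : ℤ) * v) * hxy'
  have hxv : (0 : ℤ) ≤ x * v := by positivity
  have hyy : (0 : ℤ) < y * y := mul_pos hy' hy'
  have hvv : (0 : ℤ) < v * v := mul_pos hv' hv'
  have hyu : (y : ℤ) * y * 1 < y * y * u := mul_lt_mul_of_pos_left hu1 hyy
  have hd0 : (0 : ℤ) ≤ d := by linarith
  have goal : (d : ℤ) * (y * y) ≤ u + 1 := by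
    rcases le_or_gt 0 e with h0 | h0
    · rw [abs_of_nonneg h0] at hey
      have h1 : e ≤ y * u := by rw [he]; linarith
      have h2 : e * (2 * (y * u) - e) = y * y - 2 * σ * (v * v) := by
        rw [← hkey, he]; ring
      have h3 : (y : ℤ) * 1 ≤ y * u := mul_le_mul_of_nonneg_left hu1.le hy'.le
      have h4' := mul_nonneg (sub_nonneg.mpr hey) (show (0 : ℤ) ≤ 2 * (y * u) - e - y by linarith)
      have h4 : (y : ℤ) * (2 * (y * u) - y) ≤ e * (2 * (y * u) - e) := by
        linarith
      rw [h2] at h4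
      rcases hσ with h5 | h5
      · exfalso
        rw [h5] at h4
        linarith
      · rw [h5] at h4
        have h6 : (y : ℤ) * y * (u - 1) ≤ v * v := by linarith
        have h8 := mul_le_mul_of_nonneg_left h6 hd0
        have h7 : (d : ℤ) * (y * y) * (u - 1) ≤ (u + 1) * (u - 1) := by linarith
        exact le_of_mul_le_mul_right h7 (by linarith)
    · rw [abs_of_neg h0] at hey
      have h2 : (-e) * (2 * (y * u) + (-e)) = 2 * σ * (v * v) - y * y := by
        rw [show 2 * σ * ((v : ℤ) * v) - y * y = -(y * y - 2 * σ * (v * v)) by ring, ← hkey, he]; ring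
      have h3 : (0 : ℤ) ≤ y * u := by positivity
      have h4' := mul_nonneg (sub_nonneg.mpr hey) (show (0 : ℤ) ≤ 2 * (y * u) + (-e) + y by linarith)
      have h4 : (y : ℤ) * (2 * (y * u) + y) ≤ (-e) * (2 * (y * u) + (-e)) := by
        linarith
      rw [h2] at h4
      rcases hσ with h5 | h5
      · rw [h5] at h4
        have h6 : (y : ℤ) * y * (u + 1) ≤ v * v := by linarith
        have h8 := mul_le_mul_of_nonneg_left h6 hd0
        have h7 : (d : ℤ) * (y * y) * (u + 1) ≤ (u - 1) * (u + 1) := by linarith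
        have := le_of_mul_le_mul_right h7 (by linarith)
        linarith
      · exfalso
        rw [h5] at h4
        linarith
  exact_mod_cast goal

/-- table lookup -/
noncomputable def FamL.has (L : FamL) (s y c : ℕ) : Bool :=
  @FamL.rec (fun _ => Bool) false (fun s' y' c' _ _ _ _ _ _ _ ih =>
    @Bool.rec (fun _ => Bool) ih true (cj (Nat.beq (Nat.mod s' 2) s) (cj (Nat.beq y' y) (Nat.beq c' c)))) L

theorem FamL.has_sound (L : FamL) {s y c : ℕ} (h : L.has s y c = true) :
    ∃ s' a0 R0 dl T sh w, s' % 2 = s ∧ ∀ g, L.all g = true → g s' y c a0 R0 dl T sh w = true := by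
  induction L with
  | nil => exact absurd h (by unfold FamL.has; simp)
  | cons s' y' c' a0 R0 dl T sh w L ih =>
    have e : (FamL.cons s' y' c' a0 R0 dl T sh w L).has s y c = @Bool.rec (fun _ => Bool) (L.has s y c) true
      (cj (Nat.beq (Nat.mod s' 2) s) (cj (Nat.beq y' y) (Nat.beq c' c))) := rfl
    have e2 : ∀ g, (FamL.cons s' y' c' a0 R0 dl T sh w L).all g =
      cj (g s' y' c' a0 R0 dl T sh w) (L.all g) := fun g => rfl
    rw [e] at h
    cases hb : cj (Nat.beq (Nat.mod s' 2) s) (cj (Nat.beq y' y) (Nat.beq c' c)) with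
    | false =>
      rw [hb] at h
      obtain ⟨s1, a1, R1, d1, T1, sh1, w1, h1, h2⟩ := ih h
      refine ⟨s1, a1, R1, d1, T1, sh1, w1, h1, ?_⟩
      intro g hg
      rw [e2, cj_true] at hg
      exact h2 g hg.2
    | true =>
      rw [cj_true, cj_true] at hb
      obtain ⟨h1, h2, h3⟩ := hb
      have h1 : s' % 2 = s := beq_true h1
      have h2 := beq_true h2
      have h3 := beq_true h3
      subst h2 h3
      refine ⟨s', a0, R0, dl, T, sh, w, h1, ?_⟩
      intro g hg
      rw [e2, cj_true] at hg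
      exact hg.1

/-- sieve of an entry -/
noncomputable def gSv (s y c a0 R0 dl _T : ℕ) (sh : SL) (_w : WtL) : Bool :=
  @Nat.rec (fun _ => Bool) (sieve1 dl a0 y R0 (Nat.mul 2 c) sh ff)
    (fun _ _ => sieve2 dl a0 y R0 (Nat.mul 2 c) sh) (Nat.div s 2)

/-- numerical check of an entry -/
noncomputable def gNm (s y c a0 R0 dl T : ℕ) (sh : SL) (w : WtL) : Bool :=
  cj (Nat.blt a0 y) (cj (Nat.beq (Nat.gcd y (Nat.mul 2 c)) 1) (cj
    (@Nat.rec (fun _ => Bool)
      (Nat.beq (Nat.mul (Nat.mul y y) R0) (Nat.add (Nat.mul (Nat.mul 2 a0) (Nat.mul c y))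
        (Nat.add (Nat.mul c c) 2)))
      (fun _ _ => Nat.beq (Nat.add (Nat.mul (Nat.mul y y) R0) 2) (Nat.add (Nat.mul (Nat.mul 2 a0) (Nat.mul c y))
        (Nat.mul c c))) (Nat.mod s 2)) (chkFam y c a0 R0 dl T sh w)))

/-- coverage -/
noncomputable def cov (L : FamL) (lo n : ℕ) : Bool :=
  allN n (fun i => force (Nat.add lo (Nat.mul 2 i)) (fun y => allN y (fun c => force (Nat.mul c c) (fun cc =>
    cj (imp (Nat.beq (Nat.mod (Nat.add cc 2) y) 0) (L.has 0 y c))
      (imp (Nat.beq (Nat.mod cc y) 2) (L.has 1 y c))))))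

theorem gSv_sound {s y c a0 R0 dl T : ℕ} {sh : SL} {w : WtL} (h : gSv s y c a0 R0 dl T sh w = true) :
    sieve1 dl a0 y R0 (2 * c) sh ff = true ∨ sieve2 dl a0 y R0 (2 * c) sh = true := by
  unfold gSv at h
  cases hk : Nat.div s 2 with
  | zero => rw [hk] at h; exact Or.inl h
  | succ n => rw [hk] at h; exact Or.inr h

/-- a list of families is settled -/
theorem chunk_sound {L : FamL} {lo n : ℕ} (h1 : L.all gSv = true) (h2 : L.all gNm = true)
    (h3 : cov L lo n = true) {d y : ℕ} (F : FD d y) (hS : Sol d y) (hy3 : 3 ≤ y)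
    (hlo : lo ≤ y) (hhi : y < lo + 2 * n) (hodd : lo % 2 = 1) : tb LB d = true := by
  obtain ⟨x, hx⟩ := hS
  have hd1 : 1 < d := by have := F.d4; omega
  -- parity of `y`
  have hyo : y % 2 = 1 := by
    rcases Nat.mod_two_eq_zero_or_one y with h | h
    · exfalso
      obtain ⟨k, hk⟩ : ∃ k, y = 2 * k := ⟨y / 2, by omega⟩
      have e1 : d * (y * y) = 4 * (d * (k * k)) := by rw [hk]; ring
      rw [e1] at hx
      rcases Nat.mod_two_eq_zero_or_one x with hx2 | hx2
      · obtain ⟨m, hm⟩ : ∃ m, x = 2 * m := ⟨x / 2, by omega⟩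
        have e2 : x * x = 4 * (m * m) := by rw [hm]; ring
        rw [e2] at hx
        omega
      · obtain ⟨m, hm⟩ : ∃ m, x = 2 * m + 1 := ⟨x / 2, by omega⟩
        have e2 : x * x = 4 * (m * m + m) + 1 := by rw [hm]; ring
        rw [e2] at hx
        omega
    · exact h
  set a := x / y with ha
  set c := x % y with hc
  have hxd : x = a * y + c := by rw [ha, hc, mul_comm]; exact (Nat.div_add_mod x y).symm
  have hcy : c < y := Nat.mod_lt _ (by omega)
  -- coverage
  unfold cov at h3
  rw [allN_iff] at h3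
  have h3 := h3 ((y - lo) / 2) (by omega)
  have ey : Nat.add lo (Nat.mul 2 ((y - lo) / 2)) = y := by
    change lo + 2 * ((y - lo) / 2) = y
    omega
  rw [ey, force_eq, allN_iff] at h3
  have h3 := h3 c hcy
  rw [force_eq, cj_true] at h3
  obtain ⟨h30, h31⟩ := h3
  have hcop : ∀ {a0 : ℕ} , Nat.gcd y (2 * c) = 1 → a0 < y → ((y : ℤ) ∣ 2 * c * ((a : ℤ) - a0)) →
      ∃ t, a = a0 + y * t := by
    intro a0 h4 h5 h6
    have h7 : IsCoprime (y : ℤ) ((2 * c : ℕ) : ℤ) := Nat.isCoprime_iff_coprime.mpr h4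
    have h8 : (y : ℤ) ∣ (a : ℤ) - a0 := by
      apply h7.dvd_of_dvd_mul_left
      push_cast
      exact h6
    refine ⟨a / y, ?_⟩
    have h9 : a % y = a0 % y := by
      have h10 := (Int.emod_emod_of_dvd (a : ℤ) (dvd_refl (y : ℤ)))
      have h11 : (a : ℤ) % y = a0 % y := Int.emod_eq_emod_iff_emod_sub_eq_zero.mpr (Int.emod_eq_zero_of_dvd h8)
      exact_mod_cast h11
    rw [Nat.mod_eq_of_lt h5] at h9
    have := Nat.div_add_mod a y
    omega
  rcases hx with hx | hx
  · -- `x ^ 2 = d y ^ 2 + 2`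
    have hc2 : (c * c) % y = 2 := by
      have e1 : c * c + (a * y * a + 2 * a * c) * y = 2 + d * y * y := by
        have : x * x = (a * y + c) * (a * y + c) := by rw [← hxd]
        rw [this] at hx
        nlinarith
      have e2 : (c * c + (a * y * a + 2 * a * c) * y) % y = (2 + d * y * y) % y := by rw [e1]
      rw [Nat.add_mul_mod_self_right, Nat.add_mul_mod_self_right, Nat.mod_eq_of_lt (show 2 < y by omega)] at e2
      exact e2
    have h4 : L.has 1 y c = true := imp_true h31 (by
      change Nat.beq ((c * c) % y) 2 = true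
      rw [hc2]; rfl)
    obtain ⟨s', a0, R0, dl, T, sh, w, hs', hall⟩ := L.has_sound h4
    have g1 := gSv_sound (hall _ h1)
    have g2 := hall _ h2
    unfold gNm at g2
    have es : Nat.mod s' 2 = 1 := hs'
    rw [cj_true, cj_true, cj_true, es] at g2
    obtain ⟨k1, k2, k3, k4⟩ := g2
    have k1 := blt_true k1
    have k2 : Nat.gcd y (2 * c) = 1 := beq_true k2
    have k3 : y * y * R0 + 2 = 2 * a0 * (c * y) + c * c := beq_true k3
    have eD : (y : ℤ) * y * ((d : ℤ) - a * a) = 2 * a * (c * y) + c * c - 2 := by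
      have : ((d * (y * y) + 2 : ℕ) : ℤ) = ((x * x : ℕ) : ℤ) := by rw [hx]
      rw [hxd] at this
      push_cast at this
      linear_combination this
    have eR : (y : ℤ) * y * R0 = 2 * a0 * (c * y) + c * c - 2 := by
      have : ((y * y * R0 + 2 : ℕ) : ℤ) = ((2 * a0 * (c * y) + c * c : ℕ) : ℤ) := by rw [k3]
      push_cast at this
      linear_combination this
    obtain ⟨t, ht⟩ := hcop k2 k1 (by
      have h5 : (y : ℤ) * (2 * c * ((a : ℤ) - a0)) = y * (y * ((d : ℤ) - a * a - R0)) := by
        linear_combination eR - eD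
      have hy0 : (y : ℤ) ≠ 0 := by positivity
      have h6 := mul_left_cancel₀ hy0 h5
      exact ⟨_, h6⟩)
    have hd : d = (a0 + y * t) * (a0 + y * t) + (R0 + 2 * c * t) := by
      have hy0 : (y : ℤ) * y ≠ 0 := by positivity
      have h7 : (y : ℤ) * y * ((d : ℤ) - a * a) = y * y * (R0 + 2 * c * t) := by
        rw [eD, ht]
        push_cast
        linear_combination (-1) * eR
      have h8 := mul_left_cancel₀ hy0 h7
      rw [← ht]
      have : (d : ℤ) = ((a * a + (R0 + 2 * c * t) : ℕ) : ℤ) := by push_cast; linarith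
      exact_mod_cast this
    exact fam_sound F hd k4 g1
  · -- `x ^ 2 = d y ^ 2 - 2`
    have hc2 : (c * c + 2) % y = 0 := by
      have e1 : c * c + 2 + (a * y * a + 2 * a * c) * y = 0 + d * y * y := by
        have : x * x = (a * y + c) * (a * y + c) := by rw [← hxd]
        rw [this] at hx
        nlinarith
      have e2 : (c * c + 2 + (a * y * a + 2 * a * c) * y) % y = (0 + d * y * y) % y := by rw [e1]
      rw [Nat.add_mul_mod_self_right, Nat.add_mul_mod_self_right, Nat.zero_mod] at e2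
      exact e2
    have h4 : L.has 0 y c = true := imp_true h30 (by
      change Nat.beq ((c * c + 2) % y) 0 = true
      rw [hc2]; rfl)
    obtain ⟨s', a0, R0, dl, T, sh, w, hs', hall⟩ := L.has_sound h4
    have g1 := gSv_sound (hall _ h1)
    have g2 := hall _ h2
    unfold gNm at g2
    have es : Nat.mod s' 2 = 0 := hs'
    rw [cj_true, cj_true, cj_true, es] at g2
    obtain ⟨k1, k2, k3, k4⟩ := g2
    have k1 := blt_true k1
    have k2 : Nat.gcd y (2 * c) = 1 := beq_true k2
    have k3 : y * y * R0 = 2 * a0 * (c * y) + (c * c + 2) := beq_true k3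
    have eD : (y : ℤ) * y * ((d : ℤ) - a * a) = 2 * a * (c * y) + c * c + 2 := by
      have : ((d * (y * y) : ℕ) : ℤ) = ((x * x + 2 : ℕ) : ℤ) := by rw [hx]
      rw [hxd] at this
      push_cast at this
      linear_combination this
    have eR : (y : ℤ) * y * R0 = 2 * a0 * (c * y) + c * c + 2 := by
      have : ((y * y * R0 : ℕ) : ℤ) = ((2 * a0 * (c * y) + (c * c + 2) : ℕ) : ℤ) := by rw [k3]
      push_cast at this
      linear_combination this
    obtain ⟨t, ht⟩ := hcop k2 k1 (by
      have h5 : (y : ℤ) * (2 * c * ((a : ℤ) - a0)) = y * (y * ((d : ℤ) - a * a - R0)) := by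
        linear_combination eR - eD
      have hy0 : (y : ℤ) ≠ 0 := by positivity
      have h6 := mul_left_cancel₀ hy0 h5
      exact ⟨_, h6⟩)
    have hd : d = (a0 + y * t) * (a0 + y * t) + (R0 + 2 * c * t) := by
      have hy0 : (y : ℤ) * y ≠ 0 := by positivity
      have h7 : (y : ℤ) * y * ((d : ℤ) - a * a) = y * y * (R0 + 2 * c * t) := by
        rw [eD, ht]
        push_cast
        linear_combination (-1) * eR
      have h8 := mul_left_cancel₀ hy0 h7
      rw [← ht]
      have : (d : ℤ) = ((a * a + (R0 + 2 * c * t) : ℕ) : ℤ) := by push_cast; linarith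
      exact_mod_cast this
    exact fam_sound F hd k4 g1

end Pool.Agent.H449
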