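import Pool.Agent.H449.E4

/-! The families `d = x ^ 2 ± 2`. -/

set_option maxRecDepth 100000

namespace Pool.Agent.H449

open H419R2

theorem f0_nm : chkFam 1 0 0 2 0 73 SL.nil (WtL.cons 1 0 0 (WtL.cons 1 0 0 (WtL.cons 1 0 0 (WtL.cons 1 0 0 (WtL.cons 2 3 0 (WtL.cons 2 3 0 (WtL.cons 1 0 0 (WtL.cons 4 3 2 (WtL.cons 4 3 1 (WtL.cons 1 0 0 (WtL.cons 4 3 2 (WtL.cons 4 3 1 (WtL.cons 4 5 2 (WtL.cons 2 3 0 (WtL.cons 2 3 0 (WtL.cons 1 0 0 (WtL.cons 4 3 2 (WtL.cons 4 3 1 (WtL.cons 4 5 1 (WtL.cons 2 11 0 (WtL.cons 4 3 1 (WtL.cons 4 7 3 (WtL.cons 2 3 0 (WtL.cons 2 3 0 (WtL.cons 2 17 0 (WtL.cons 4 3 2 (WtL.cons 4 3 1 (WtL.cons 4 5 2 (WtL.cons 4 3 2 (WtL.cons 4 3 1 (WtL.cons 4 11 3 (WtL.cons 2 3 0 (WtL.cons 2 3 0 (WtL.cons 4 5 1 (WtL.cons 4 3 2 (WtL.cons 4 3 1 (WtL.cons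 4 11 8 (WtL.cons 4 3 2 (WtL.cons 4 3 1 (WtL.cons 4 7 1 (WtL.cons 2 3 0 (WtL.cons 2 3 0 (WtL.cons 4 5 2 (WtL.cons 4 3 2 (WtL.cons 4 3 1 (WtL.cons 4 7 2 (WtL.cons 4 3 2 (WtL.cons 4 3 1 (WtL.cons 4 5 1 (WtL.cons 2 3 0 (WtL.cons 2 3 0 (WtL.cons 4 13 5 (WtL.cons 4 3 2 (WtL.cons 4 3 1 (WtL.cons 4 11 6 (WtL.cons 4 3 2 (WtL.cons 4 3 1 (WtL.cons 4 5 2 (WtL.cons 2 3 0 (WtL.cons 2 3 0 (WtL.cons 4 7 1 (WtL.cons 4 3 2 (WtL.cons 4 3 1 (WtL.cons 2 19 0 (WtL.cons 4 3 2 (WtL.cons 4 3 1 (WtL.cons 4 7 2 (WtL.cons 2 3 0 (WtL.cons 2 3 0 (WtL.cons 4 11 8 (WtL.cons 4 3 2 (WtL.cons 2 41 0 (WtL.cons 4 5 2 WtL.nil))))))))))))))))))))))))))))))))))))))))))))))))))))))))))))))))))))))))) = true := by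
  decide +kernel

theorem f0_sv : sieve2 0 0 1 2 (2 * 0) SL.nil = true := by decide +kernel

theorem f1_nm : chkFam 1 1 1 1 1 72 (SL.cons 0 1 SL.nil) (WtL.cons 1 0 0 (WtL.cons 1 0 0 (WtL.cons 1 0 0 (WtL.cons 1 0 0 (WtL.cons 4 3 0 (WtL.cons 1 0 0 (WtL.cons 1 0 0 (WtL.cons 4 3 0 (WtL.cons 2 7 0 (WtL.cons 4 5 2 (WtL.cons 4 3 0 (WtL.cons 1 0 0 (WtL.cons 4 5 0 (WtL.cons 4 3 0 (WtL.cons 4 5 2 (WtL.cons 4 7 5 (WtL.cons 4 3 0 (WtL.cons 4 5 0 (WtL.cons 1 0 0 (WtL.cons 4 3 0 (WtL.cons 4 11 4 (WtL.cons 4 7 2 (WtL.cons 4 3 0 (WtL.cons 4 7 4 (WtL.cons 4 5 2 (WtL.cons 4 3 0 (WtL.cons 4 11 5 (WtL.cons 4 5 0 (WtL.cons 4 3 0 (WtL.cons 4 5 2 (WtL.cons 4 7 4 (WtL.cons 4 3 0 (WtL.cons 4 5 0 (WtL.cons 4 13 4 (WtL.cons 4 3 0 (WtL.cons 4 7 2 (WtL.cons 4 7 5 (WtL.cons 2 7 0 (WtL.cons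 4 7 0 (WtL.cons 4 5 2 (WtL.cons 4 3 0 (WtL.cons 4 13 9 (WtL.cons 4 5 0 (WtL.cons 2 17 0 (WtL.cons 4 5 2 (WtL.cons 4 7 0 (WtL.cons 4 3 0 (WtL.cons 4 5 0 (WtL.cons 4 11 5 (WtL.cons 4 3 0 (WtL.cons 4 7 5 (WtL.cons 4 7 4 (WtL.cons 4 3 0 (WtL.cons 4 11 4 (WtL.cons 4 5 2 (WtL.cons 4 3 0 (WtL.cons 2 41 0 (WtL.cons 2 7 0 (WtL.cons 4 3 0 (WtL.cons 4 5 2 (WtL.cons 4 11 0 (WtL.cons 4 3 0 (WtL.cons 4 5 0 (WtL.cons 4 7 2 (WtL.cons 4 3 0 (WtL.cons 4 7 4 (WtL.cons 4 7 0 (WtL.cons 4 3 0 (WtL.cons 4 11 2 (WtL.cons 4 5 2 (WtL.cons 4 3 0 (WtL.cons 4 7 5 WtL.nil)))))))))))))))))))))))))))))))))))))))))))))))))))))))))))))))))))))))) = true := by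
  decide +kernel

theorem f1_sv : sieve2 1 1 1 1 (2 * 1) (SL.cons 0 1 SL.nil) = true := by decide +kernel

theorem chunk0 {d : ℕ} (F : FD d 1) (hS : Sol d 1) : tb LB d = true := by
  obtain ⟨x, hx⟩ := hS
  have hd : 2 ≤ d := by have := F.d4; omega
  rcases hx with hx | hx
  · have hx2 : 2 ≤ x := by nlinarith
    obtain ⟨t, rfl⟩ : ∃ t, x = t + 2 := ⟨x - 2, by omega⟩
    exact fam_sound F (t := t) (by nlinarith) f1_nm (Or.inr f1_sv)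
  · exact fam_sound F (t := x) (by nlinarith) f0_nm (Or.inr f0_sv)

end Pool.Agent.H449
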