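import Pool.Agent.H449.E4

/-! Families with 3 ≤ y < 155. -/

set_option maxRecDepth 100000

namespace Pool.Agent.H449

/-- the families with 3 ≤ y < 21 -/
def LF1 : FamL := (FamL.cons 2 3 1 1 1 1 37 (SL.cons 0 2 (SL.cons 0 1 SL.nil)) (WtL.cons 1 0 0 (WtL.cons 1 0 0 (WtL.cons 2 3 0 (WtL.cons 1 0 0 (WtL.cons 4 3 0 (WtL.cons 4 3 2 (WtL.cons 4 5 3 (WtL.cons 4 3 0 (WtL.cons 4 3 2 (WtL.cons 4 11 5 (WtL.cons 4 3 0 (WtL.cons 2 3 0 (WtL.cons 4 5 0 (WtL.cons 4 3 0 (WtL.cons 4 3 2 (WtL.cons 4 19 11 (WtL.cons 4 3 0 (WtL.cons 4 3 2 (WtL.cons 4 11 2 (WtL.cons 4 3 0 (WtL.cons 2 3 0 (WtL.cons 4 5 3 (WtL.cons 4 3 0 (WtL.cons 4 3 2 (WtL.cons 4 7 0 (WtL.cons 4 3 0 (WtL.cons 4 3 2 (WtL.cons 4 5 0 (WtL.cons 4 3 0 (WtL.cons 2 3 0 (WtL.cons 4 11 6 (WtL.cons 4 3 0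 (WtL.cons 4 3 2 (WtL.cons 4 7 4 (WtL.cons 4 3 0 (WtL.cons 4 3 2 (WtL.cons 4 5 3 WtL.nil)))))))))))))))))))))))))))))))))))))
  (FamL.cons 2 3 2 1 2 0 37 (SL.cons 0 1 (SL.cons 0 2 SL.nil)) (WtL.cons 1 0 0 (WtL.cons 1 0 0 (WtL.cons 1 0 0 (WtL.cons 4 3 2 (WtL.cons 4 3 0 (WtL.cons 1 0 0 (WtL.cons 2 3 0 (WtL.cons 4 3 0 (WtL.cons 4 5 2 (WtL.cons 4 3 2 (WtL.cons 4 3 0 (WtL.cons 4 11 4 (WtL.cons 4 3 2 (WtL.cons 4 3 0 (WtL.cons 4 11 3 (WtL.cons 2 3 0 (WtL.cons 4 3 0 (WtL.cons 4 5 0 (WtL.cons 4 3 2 (WtL.cons 4 3 0 (WtL.cons 4 7 5 (WtL.cons 4 3 2 (WtL.cons 4 3 0 (WtL.cons 4 5 2 (WtL.cons 2 3 0 (WtL.cons 4 3 0 (WtL.cons 4 11 9 (WtL.cons 4 3 2 (WtL.cons 4 3 0 (WtL.cons 4 7 2 (WtL.cons 4 3 2 (WtL.cons 4 3 0 (WtL.cons 4 5 0 (WtL.cons 2 3 0 (WtL.cons 4 3 0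 (WtL.cons 4 11 2 (WtL.cons 4 3 2 WtL.nil)))))))))))))))))))))))))))))))))))))
  (FamL.cons 3 7 3 1 1 1 19 (SL.cons 0 2 (SL.cons 0 2 (SL.cons 0 1 SL.nil))) (WtL.cons 1 0 0 (WtL.cons 1 0 0 (WtL.cons 4 3 1 (WtL.cons 1 0 0 (WtL.cons 4 5 0 (WtL.cons 4 3 1 (WtL.cons 4 5 1 (WtL.cons 4 7 2 (WtL.cons 4 3 1 (WtL.cons 4 5 0 (WtL.cons 4 11 3 (WtL.cons 4 3 1 (WtL.cons 4 7 1 (WtL.cons 4 17 7 (WtL.cons 4 3 1 (WtL.cons 4 7 0 (WtL.cons 4 5 1 (WtL.cons 4 3 1 (WtL.cons 4 13 2 WtL.nil)))))))))))))))))))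
  (FamL.cons 3 7 4 5 6 0 18 (SL.cons 0 1 (SL.cons 0 1 (SL.cons 0 3 SL.nil))) (WtL.cons 1 0 0 (WtL.cons 1 0 0 (WtL.cons 1 0 0 (WtL.cons 4 3 0 (WtL.cons 2 7 0 (WtL.cons 4 5 1 (WtL.cons 4 3 0 (WtL.cons 4 13 10 (WtL.cons 4 5 0 (WtL.cons 4 3 0 (WtL.cons 4 5 1 (WtL.cons 4 7 2 (WtL.cons 4 3 0 (WtL.cons 4 5 0 (WtL.cons 4 17 16 (WtL.cons 4 3 0 (WtL.cons 4 13 2 (WtL.cons 4 13 3 WtL.nil))))))))))))))))))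
  (FamL.cons 0 9 4 2 2 0 19 (SL.cons 0 2 (SL.cons 0 4 SL.nil)) (WtL.cons 1 0 0 (WtL.cons 1 0 0 (WtL.cons 4 3 0 (WtL.cons 2 17 0 (WtL.cons 4 7 3 (WtL.cons 4 3 0 (WtL.cons 2 3 0 (WtL.cons 4 11 3 (WtL.cons 4 3 0 (WtL.cons 4 3 1 (WtL.cons 4 5 2 (WtL.cons 4 3 0 (WtL.cons 4 3 1 (WtL.cons 4 7 1 (WtL.cons 4 3 0 (WtL.cons 2 3 0 (WtL.cons 4 5 0 (WtL.cons 4 3 0 (WtL.cons 4 3 1 WtL.nil)))))))))))))))))))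
  (FamL.cons 0 9 5 6 7 1 18 (SL.cons 0 1 (SL.cons 0 1 (SL.cons 0 3 (SL.cons 0 1 SL.nil)))) (WtL.cons 1 0 0 (WtL.cons 2 11 0 (WtL.cons 2 3 0 (WtL.cons 4 3 1 (WtL.cons 4 5 2 (WtL.cons 4 3 0 (WtL.cons 4 3 1 (WtL.cons 4 7 0 (WtL.cons 2 11 0 (WtL.cons 4 3 1 (WtL.cons 4 23 6 (WtL.cons 2 3 0 (WtL.cons 4 3 1 (WtL.cons 4 5 1 (WtL.cons 4 3 0 (WtL.cons 4 3 1 (WtL.cons 4 7 3 (WtL.cons 4 3 0 WtL.nil))))))))))))))))))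
  (FamL.cons 0 11 3 9 5 1 12 (SL.cons 0 3 (SL.cons 0 1 (SL.cons 0 1 (SL.cons 0 1 SL.nil)))) (WtL.cons 1 0 0 (WtL.cons 4 3 1 (WtL.cons 4 3 2 (WtL.cons 4 7 3 (WtL.cons 4 3 1 (WtL.cons 2 3 0 (WtL.cons 4 5 1 (WtL.cons 2 3 0 (WtL.cons 4 3 2 (WtL.cons 4 13 2 (WtL.cons 4 3 1 (WtL.cons 4 3 2 WtL.nil))))))))))))
  (FamL.cons 0 11 8 1 2 0 13 (SL.cons 0 1 (SL.cons 0 2 (SL.cons 0 1 (SL.cons 0 2 SL.nil)))) (WtL.cons 1 0 0 (WtL.cons 2 3 0 (WtL.cons 1 0 0 (WtL.cons 2 3 0 (WtL.cons 4 3 0 (WtL.cons 4 19 9 (WtL.cons 4 3 2 (WtL.cons 4 3 0 (WtL.cons 4 5 0 (WtL.cons 4 3 2 (WtL.cons 2 3 0 (WtL.cons 4 11 4 (WtL.cons 2 3 0 WtL.nil)))))))))))))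
  (FamL.cons 1 17 6 14 10 0 12 (SL.cons 0 2 (SL.cons 0 1 (SL.cons 0 5 SL.nil))) (WtL.cons 1 0 0 (WtL.cons 1 0 0 (WtL.cons 4 3 1 (WtL.cons 4 5 1 (WtL.cons 4 13 6 (WtL.cons 4 3 1 (WtL.cons 4 7 3 (WtL.cons 4 13 2 (WtL.cons 4 3 1 (WtL.cons 4 7 1 (WtL.cons 4 5 0 (WtL.cons 4 3 1 WtL.nil))))))))))))
  (FamL.cons 0 17 7 1 1 1 8 (SL.cons 0 2 (SL.cons 0 2 (SL.cons 0 2 (SL.cons 0 1 SL.nil)))) (WtL.cons 1 0 0 (WtL.cons 4 3 0 (WtL.cons 4 3 1 (WtL.cons 4 13 2 (WtL.cons 4 3 0 (WtL.cons 4 3 1 (WtL.cons 4 5 0 (WtL.cons 2 3 0 WtL.nil))))))))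
  (FamL.cons 0 17 10 15 18 0 7 (SL.cons 0 1 (SL.cons 0 1 (SL.cons 0 2 (SL.cons 0 3 SL.nil)))) (WtL.cons 2 3 0 (WtL.cons 2 3 0 (WtL.cons 4 5 3 (WtL.cons 4 3 0 (WtL.cons 4 3 1 (WtL.cons 4 11 2 (WtL.cons 4 3 0 WtL.nil)))))))
  (FamL.cons 1 17 11 2 3 1 13 (SL.cons 0 1 (SL.cons 0 1 (SL.cons 0 1 (SL.cons 0 4 (SL.cons 0 1 SL.nil))))) (WtL.cons 1 0 0 (WtL.cons 4 5 0 (WtL.cons 4 11 7 (WtL.cons 4 3 0 (WtL.cons 4 5 1 (WtL.cons 4 11 3 (WtL.cons 4 3 0 (WtL.cons 2 7 0 (WtL.cons 4 7 1 (WtL.cons 4 3 0 (WtL.cons 4 7 2 (WtL.cons 2 7 0 (WtL.cons 4 3 0 WtL.nil)))))))))))))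
  (FamL.cons 0 19 6 3 2 0 13 (SL.cons 0 3 (SL.cons 0 6 SL.nil)) (WtL.cons 1 0 0 (WtL.cons 4 3 2 (WtL.cons 4 3 1 (WtL.cons 4 17 8 (WtL.cons 2 3 0 (WtL.cons 2 3 0 (WtL.cons 4 7 1 (WtL.cons 4 3 2 (WtL.cons 4 3 1 (WtL.cons 4 5 0 (WtL.cons 4 3 2 (WtL.cons 4 3 1 (WtL.cons 4 11 5 WtL.nil)))))))))))))
  (FamL.cons 0 19 13 15 21 1 12 (SL.cons 0 1 (SL.cons 0 2 (SL.cons 0 5 (SL.cons 0 1 SL.nil)))) (WtL.cons 4 3 0 (WtL.cons 4 3 2 (WtL.cons 4 11 2 (WtL.cons 2 3 0 (WtL.cons 2 3 0 (WtL.cons 4 5 1 (WtL.cons 4 3 0 (WtL.cons 4 3 2 (WtL.cons 4 13 7 (WtL.cons 4 3 0 (WtL.cons 4 3 2 (WtL.cons 4 11 5 WtL.nil))))))))))))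
  FamL.nil))))))))))))))

theorem LF1_sv : LF1.all gSv = true := by decide +kernel

theorem LF1_nm : LF1.all gNm = true := by decide +kernel

theorem LF1_cov : cov LF1 3 9 = true := by decide +kernel

theorem chunk1 {d y : ℕ} (F : FD d y) (hS : Sol d y) (hlo : 3 ≤ y) (hhi : y < 21) :
    H419R2.tb LB d = true :=
  chunk_sound LF1_sv LF1_nm LF1_cov F hS (by omega) hlo (by omega) (by norm_num)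

/-- the families with 21 ≤ y < 53 -/
def LF2 : FamL := (FamL.cons 1 23 5 16 7 1 7 (SL.cons 0 4 (SL.cons 0 1 (SL.cons 0 1 (SL.cons 0 1 (SL.cons 0 1 SL.nil))))) (WtL.cons 1 0 0 (WtL.cons 4 11 2 (WtL.cons 2 7 0 (WtL.cons 4 19 8 (WtL.cons 2 7 0 (WtL.cons 4 3 0 (WtL.cons 4 7 2 WtL.nil)))))))
  (FamL.cons 1 23 18 6 10 0 8 (SL.cons 0 1 (SL.cons 0 3 (SL.cons 0 1 (SL.cons 0 1 (SL.cons 0 2 SL.nil))))) (WtL.cons 1 0 0 (WtL.cons 1 0 0 (WtL.cons 4 5 2 (WtL.cons 4 3 1 (WtL.cons 4 7 0 (WtL.cons 4 5 0 (WtL.cons 4 3 1 (WtL.cons 4 5 2 WtL.nil))))))))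
  (FamL.cons 0 27 5 8 3 1 8 (SL.cons 0 5 (SL.cons 0 2 (SL.cons 0 1 (SL.cons 0 1 SL.nil)))) (WtL.cons 1 0 0 (WtL.cons 1 0 0 (WtL.cons 4 3 1 (WtL.cons 4 3 0 (WtL.cons 4 5 1 (WtL.cons 2 3 0 (WtL.cons 4 3 0 (WtL.cons 4 7 1 WtL.nil))))))))
  (FamL.cons 0 27 22 18 30 0 7 (SL.cons 0 1 (SL.cons 0 4 (SL.cons 0 2 (SL.cons 0 2 SL.nil)))) (WtL.cons 4 3 0 (WtL.cons 4 5 2 (WtL.cons 4 3 1 (WtL.cons 2 3 0 (WtL.cons 4 11 6 (WtL.cons 4 3 1 (WtL.cons 4 3 0 WtL.nil)))))))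
  (FamL.cons 1 31 8 27 14 0 9 (SL.cons 0 3 (SL.cons 0 1 (SL.cons 0 7 SL.nil))) (WtL.cons 1 0 0 (WtL.cons 4 3 0 (WtL.cons 4 7 1 (WtL.cons 4 7 6 (WtL.cons 4 3 0 (WtL.cons 4 11 2 (WtL.cons 4 5 0 (WtL.cons 4 3 0 (WtL.cons 4 13 2 WtL.nil)))))))))
  (FamL.cons 1 31 23 3 5 1 10 (SL.cons 0 1 (SL.cons 0 2 (SL.cons 0 1 (SL.cons 0 6 (SL.cons 0 1 SL.nil))))) (WtL.cons 1 0 0 (WtL.cons 4 3 0 (WtL.cons 4 19 8 (WtL.cons 2 7 0 (WtL.cons 4 3 0 (WtL.cons 4 5 0 (WtL.cons 4 7 1 (WtL.cons 4 3 0 (WtL.cons 4 5 1 (WtL.cons 4 17 4 WtL.nil))))))))))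
  (FamL.cons 0 33 8 4 2 0 10 (SL.cons 0 4 (SL.cons 0 8 SL.nil)) (WtL.cons 2 3 0 (WtL.cons 4 3 0 (WtL.cons 4 5 2 (WtL.cons 4 3 2 (WtL.cons 4 3 0 (WtL.cons 4 13 2 (WtL.cons 4 3 2 (WtL.cons 4 3 0 (WtL.cons 4 5 0 (WtL.cons 2 3 0 WtL.nil))))))))))
  (FamL.cons 0 33 14 21 18 0 5 (SL.cons 0 2 (SL.cons 0 2 (SL.cons 0 1 (SL.cons 0 4 SL.nil)))) (WtL.cons 2 3 0 (WtL.cons 4 3 1 (WtL.cons 4 11 4 (WtL.cons 4 3 0 (WtL.cons 4 3 1 WtL.nil)))))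
  (FamL.cons 0 33 19 11 13 1 5 (SL.cons 0 1 (SL.cons 0 1 (SL.cons 0 2 (SL.cons 0 1 (SL.cons 0 3 (SL.cons 0 1 SL.nil)))))) (WtL.cons 1 0 0 (WtL.cons 4 3 0 (WtL.cons 4 3 1 (WtL.cons 4 17 7 (WtL.cons 4 3 0 WtL.nil)))))
  (FamL.cons 0 33 25 28 43 1 9 (SL.cons 0 1 (SL.cons 0 3 (SL.cons 0 7 (SL.cons 0 1 SL.nil)))) (WtL.cons 1 0 0 (WtL.cons 4 3 0 (WtL.cons 4 3 2 (WtL.cons 4 11 2 (WtL.cons 4 3 0 (WtL.cons 4 3 2 (WtL.cons 4 5 1 (WtL.cons 4 3 0 (WtL.cons 2 3 0 WtL.nil)))))))))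
  (FamL.cons 0 41 11 39 21 1 3 (SL.cons 0 3 (SL.cons 0 1 (SL.cons 0 2 (SL.cons 0 1 (SL.cons 0 1 (SL.cons 0 1 SL.nil)))))) (WtL.cons 4 3 0 (WtL.cons 4 17 5 (WtL.cons 2 3 0 WtL.nil)))
  (FamL.cons 1 41 17 1 1 1 4 (SL.cons 0 2 (SL.cons 0 2 (SL.cons 0 2 (SL.cons 0 2 (SL.cons 0 1 SL.nil))))) (WtL.cons 1 0 0 (WtL.cons 4 5 0 (WtL.cons 2 7 0 (WtL.cons 4 5 3 WtL.nil))))
  (FamL.cons 1 41 24 39 46 0 3 (SL.cons 0 1 (SL.cons 0 1 (SL.cons 0 2 (SL.cons 0 2 (SL.cons 0 3 SL.nil))))) (WtL.cons 4 3 1 (WtL.cons 4 5 2 (WtL.cons 4 19 11 WtL.nil)))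
  (FamL.cons 0 41 30 1 2 0 4 (SL.cons 0 1 (SL.cons 0 2 (SL.cons 0 1 (SL.cons 0 2 (SL.cons 0 1 (SL.cons 0 2 SL.nil)))))) (WtL.cons 1 0 0 (WtL.cons 4 5 2 (WtL.cons 2 3 0 (WtL.cons 4 3 2 WtL.nil))))
  (FamL.cons 0 43 16 24 18 0 5 (SL.cons 0 2 (SL.cons 0 1 (SL.cons 0 2 (SL.cons 0 5 SL.nil)))) (WtL.cons 2 3 0 (WtL.cons 4 3 2 (WtL.cons 4 7 5 (WtL.cons 4 3 0 (WtL.cons 4 3 2 WtL.nil)))))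
  (FamL.cons 0 43 27 18 23 1 5 (SL.cons 0 1 (SL.cons 0 1 (SL.cons 0 1 (SL.cons 0 2 (SL.cons 0 4 (SL.cons 0 1 SL.nil)))))) (WtL.cons 1 0 0 (WtL.cons 2 3 0 (WtL.cons 4 3 1 (WtL.cons 4 5 0 (WtL.cons 4 3 2 WtL.nil)))))
  (FamL.cons 1 47 7 10 3 1 6 (SL.cons 0 6 (SL.cons 0 1 (SL.cons 0 2 (SL.cons 0 1 (SL.cons 0 1 SL.nil))))) (WtL.cons 1 0 0 (WtL.cons 4 5 2 (WtL.cons 4 7 3 (WtL.cons 4 3 0 (WtL.cons 4 7 5 (WtL.cons 4 11 1 WtL.nil))))))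
  (FamL.cons 1 47 40 36 62 0 5 (SL.cons 0 1 (SL.cons 0 5 (SL.cons 0 1 (SL.cons 0 2 (SL.cons 0 2 SL.nil))))) (WtL.cons 4 7 6 (WtL.cons 4 5 1 (WtL.cons 4 3 0 (WtL.cons 4 5 2 (WtL.cons 4 7 2 WtL.nil)))))
  (FamL.cons 1 49 10 44 18 0 7 (SL.cons 0 4 (SL.cons 0 1 (SL.cons 0 9 SL.nil))) (WtL.cons 4 3 0 (WtL.cons 4 7 5 (WtL.cons 4 11 3 (WtL.cons 4 3 0 (WtL.cons 4 7 0 (WtL.cons 4 5 3 (WtL.cons 4 3 0 WtL.nil)))))))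
  (FamL.cons 1 49 39 4 7 1 8 (SL.cons 0 1 (SL.cons 0 3 (SL.cons 0 1 (SL.cons 0 8 (SL.cons 0 1 SL.nil))))) (WtL.cons 1 0 0 (WtL.cons 4 5 0 (WtL.cons 4 3 1 (WtL.cons 4 29 19 (WtL.cons 4 5 2 (WtL.cons 4 3 1 (WtL.cons 4 5 0 (WtL.cons 4 7 0 WtL.nil))))))))
  (FamL.cons 0 51 7 40 11 1 5 (SL.cons 0 7 (SL.cons 0 3 (SL.cons 0 1 (SL.cons 0 1 SL.nil)))) (WtL.cons 2 3 0 (WtL.cons 4 5 0 (WtL.cons 4 3 0 (WtL.cons 4 3 2 (WtL.cons 4 11 2 WtL.nil)))))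
  (FamL.cons 0 51 10 5 2 0 8 (SL.cons 0 5 (SL.cons 0 10 SL.nil)) (WtL.cons 2 3 0 (WtL.cons 4 7 1 (WtL.cons 4 3 0 (WtL.cons 4 3 1 (WtL.cons 4 11 4 (WtL.cons 4 3 0 (WtL.cons 4 3 1 (WtL.cons 4 5 2 WtL.nil))))))))
  (FamL.cons 0 51 41 45 73 1 7 (SL.cons 0 1 (SL.cons 0 4 (SL.cons 0 9 (SL.cons 0 1 SL.nil)))) (WtL.cons 4 3 1 (WtL.cons 4 5 0 (WtL.cons 4 3 0 (WtL.cons 4 3 1 (WtL.cons 4 7 1 (WtL.cons 4 3 0 (WtL.cons 4 3 1 WtL.nil)))))))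
  (FamL.cons 0 51 44 10 18 0 6 (SL.cons 0 1 (SL.cons 0 6 (SL.cons 0 3 (SL.cons 0 2 SL.nil)))) (WtL.cons 1 0 0 (WtL.cons 4 23 5 (WtL.cons 4 3 2 (WtL.cons 4 3 0 (WtL.cons 4 5 0 (WtL.cons 4 3 2 WtL.nil))))))
  FamL.nil))))))))))))))))))))))))

theorem LF2_sv : LF2.all gSv = true := by decide +kernel

theorem LF2_nm : LF2.all gNm = true := by decide +kernel

theorem LF2_cov : cov LF2 21 16 = true := by decide +kernel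

theorem chunk2 {d y : ℕ} (F : FD d y) (hS : Sol d y) (hlo : 21 ≤ y) (hhi : y < 53) :
    H419R2.tb LB d = true :=
  chunk_sound LF2_sv LF2_nm LF2_cov F hS (by omega) hlo (by omega) (by norm_num)

/-- the families with 53 ≤ y < 91 -/
def LF3 : FamL := (FamL.cons 0 57 13 24 11 1 3 (SL.cons 0 4 (SL.cons 0 2 (SL.cons 0 1 (SL.cons 0 1 (SL.cons 0 1 (SL.cons 0 1 SL.nil)))))) (WtL.cons 1 0 0 (WtL.cons 4 3 1 (WtL.cons 2 3 0 WtL.nil)))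
  (FamL.cons 0 57 25 26 23 1 3 (SL.cons 0 2 (SL.cons 0 3 (SL.cons 0 1 (SL.cons 0 1 (SL.cons 0 2 (SL.cons 0 1 SL.nil)))))) (WtL.cons 4 3 1 (WtL.cons 4 7 3 (WtL.cons 2 11 0 WtL.nil)))
  (FamL.cons 0 57 32 30 34 0 3 (SL.cons 0 1 (SL.cons 0 1 (SL.cons 0 3 (SL.cons 0 1 (SL.cons 0 1 (SL.cons 0 3 SL.nil)))))) (WtL.cons 4 3 1 (WtL.cons 4 7 0 (WtL.cons 2 3 0 WtL.nil)))
  (FamL.cons 0 57 44 32 50 0 3 (SL.cons 0 1 (SL.cons 0 3 (SL.cons 0 2 (SL.cons 0 1 (SL.cons 0 1 (SL.cons 0 2 SL.nil)))))) (WtL.cons 4 3 1 (WtL.cons 4 3 0 (WtL.cons 4 11 6 WtL.nil)))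
  (FamL.cons 0 59 23 37 29 1 2 (SL.cons 0 2 (SL.cons 0 1 (SL.cons 0 1 (SL.cons 0 3 (SL.cons 0 2 (SL.cons 0 1 SL.nil)))))) (WtL.cons 4 3 2 (WtL.cons 4 3 0 WtL.nil))
  (FamL.cons 0 59 36 21 26 0 3 (SL.cons 0 1 (SL.cons 0 1 (SL.cons 0 1 (SL.cons 0 1 (SL.cons 0 3 (SL.cons 0 3 SL.nil)))))) (WtL.cons 1 0 0 (WtL.cons 2 3 0 (WtL.cons 4 3 2 WtL.nil)))
  (FamL.cons 0 67 20 30 18 0 4 (SL.cons 0 3 (SL.cons 0 2 (SL.cons 0 1 (SL.cons 0 6 SL.nil)))) (WtL.cons 2 3 0 (WtL.cons 4 13 3 (WtL.cons 4 3 1 (WtL.cons 4 3 0 WtL.nil))))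
  (FamL.cons 0 67 47 36 51 1 4 (SL.cons 0 1 (SL.cons 0 2 (SL.cons 0 2 (SL.cons 0 1 (SL.cons 0 5 (SL.cons 0 1 SL.nil)))))) (WtL.cons 4 3 0 (WtL.cons 4 5 0 (WtL.cons 4 3 1 (WtL.cons 2 3 0 WtL.nil))))
  (FamL.cons 1 71 12 65 22 0 6 (SL.cons 0 5 (SL.cons 0 1 (SL.cons 0 11 SL.nil))) (WtL.cons 4 13 3 (WtL.cons 4 13 5 (WtL.cons 4 3 1 (WtL.cons 4 7 2 (WtL.cons 4 5 3 (WtL.cons 4 3 1 WtL.nil))))))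
  (FamL.cons 1 71 59 5 9 1 7 (SL.cons 0 1 (SL.cons 0 4 (SL.cons 0 1 (SL.cons 0 10 (SL.cons 0 1 SL.nil))))) (WtL.cons 3 1 6 (WtL.cons 4 7 4 (WtL.cons 2 7 0 (WtL.cons 4 3 0 (WtL.cons 4 7 1 (WtL.cons 4 5 2 (WtL.cons 4 3 0 WtL.nil)))))))
  (FamL.cons 0 73 12 6 2 0 7 (SL.cons 0 6 (SL.cons 0 12 SL.nil)) (WtL.cons 1 0 0 (WtL.cons 4 3 2 (WtL.cons 4 3 1 (WtL.cons 2 11 0 (WtL.cons 2 3 0 (WtL.cons 2 3 0 (WtL.cons 4 7 3 WtL.nil)))))))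
  (FamL.cons 1 73 32 34 30 0 2 (SL.cons 0 2 (SL.cons 0 3 (SL.cons 0 1 (SL.cons 0 1 (SL.cons 0 4 SL.nil))))) (WtL.cons 4 3 0 (WtL.cons 4 7 5 WtL.nil))
  (FamL.cons 1 73 41 38 43 1 2 (SL.cons 0 1 (SL.cons 0 1 (SL.cons 0 3 (SL.cons 0 1 (SL.cons 0 1 (SL.cons 0 3 (SL.cons 0 1 SL.nil))))))) (WtL.cons 1 0 0 (WtL.cons 2 7 0 WtL.nil))
  (FamL.cons 0 73 61 66 111 1 6 (SL.cons 0 1 (SL.cons 0 5 (SL.cons 0 11 (SL.cons 0 1 SL.nil)))) (WtL.cons 4 3 0 (WtL.cons 4 3 2 (WtL.cons 4 5 0 (WtL.cons 2 3 0 (WtL.cons 2 3 0 (WtL.cons 4 7 0 WtL.nil))))))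
  (FamL.cons 1 79 9 57 13 1 4 (SL.cons 0 8 (SL.cons 0 1 (SL.cons 0 3 (SL.cons 0 1 (SL.cons 0 1 SL.nil))))) (WtL.cons 4 3 1 (WtL.cons 4 11 1 (WtL.cons 4 5 2 (WtL.cons 4 3 1 WtL.nil))))
  (FamL.cons 1 79 70 21 38 0 4 (SL.cons 0 1 (SL.cons 0 7 (SL.cons 0 1 (SL.cons 0 3 (SL.cons 0 2 SL.nil))))) (WtL.cons 1 0 0 (WtL.cons 4 7 5 (WtL.cons 4 3 0 (WtL.cons 4 7 3 WtL.nil))))
  (FamL.cons 0 81 22 33 18 0 3 (SL.cons 0 3 (SL.cons 0 1 (SL.cons 0 2 (SL.cons 0 7 SL.nil)))) (WtL.cons 2 3 0 (WtL.cons 4 11 6 (WtL.cons 4 3 1 WtL.nil)))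
  (FamL.cons 0 81 59 47 69 1 3 (SL.cons 0 1 (SL.cons 0 2 (SL.cons 0 1 (SL.cons 0 2 (SL.cons 0 6 (SL.cons 0 1 SL.nil)))))) (WtL.cons 4 3 0 (WtL.cons 4 5 1 (WtL.cons 4 3 1 WtL.nil)))
  (FamL.cons 0 83 9 23 5 1 4 (SL.cons 0 9 (SL.cons 0 4 (SL.cons 0 1 (SL.cons 0 1 SL.nil)))) (WtL.cons 4 3 1 (WtL.cons 2 3 0 (WtL.cons 4 11 8 (WtL.cons 2 3 0 WtL.nil))))
  (FamL.cons 0 83 74 59 106 0 4 (SL.cons 0 1 (SL.cons 0 8 (SL.cons 0 4 (SL.cons 0 2 SL.nil)))) (WtL.cons 4 11 6 (WtL.cons 4 3 2 (WtL.cons 4 3 0 (WtL.cons 4 5 0 WtL.nil))))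
  (FamL.cons 1 89 25 23 13 1 2 (SL.cons 0 3 (SL.cons 0 1 (SL.cons 0 1 (SL.cons 0 3 (SL.cons 0 1 (SL.cons 0 1 (SL.cons 0 1 SL.nil))))))) (WtL.cons 1 0 0 (WtL.cons 4 3 0 WtL.nil))
  (FamL.cons 0 89 40 2 2 0 3 (SL.cons 0 2 (SL.cons 0 4 (SL.cons 0 2 (SL.cons 0 4 SL.nil)))) (WtL.cons 1 0 0 (WtL.cons 4 11 2 (WtL.cons 2 3 0 WtL.nil)))
  (FamL.cons 0 89 49 86 95 1 2 (SL.cons 0 1 (SL.cons 0 1 (SL.cons 0 4 (SL.cons 0 2 (SL.cons 0 3 (SL.cons 0 1 SL.nil)))))) (WtL.cons 4 3 1 (WtL.cons 4 7 2 WtL.nil))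
  (FamL.cons 1 89 64 65 94 0 2 (SL.cons 0 1 (SL.cons 0 2 (SL.cons 0 1 (SL.cons 0 1 (SL.cons 0 3 (SL.cons 0 1 (SL.cons 0 2 SL.nil))))))) (WtL.cons 4 5 2 (WtL.cons 4 3 0 WtL.nil))
  FamL.nil))))))))))))))))))))))))

theorem LF3_sv : LF3.all gSv = true := by decide +kernel

theorem LF3_nm : LF3.all gNm = true := by decide +kernel

theorem LF3_cov : cov LF3 53 19 = true := by decide +kernel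

theorem chunk3 {d y : ℕ} (F : FD d y) (hS : Sol d y) (hlo : 53 ≤ y) (hhi : y < 91) :
    H419R2.tb LB d = true :=
  chunk_sound LF3_sv LF3_nm LF3_cov F hS (by omega) hlo (by omega) (by norm_num)

/-- the families with 91 ≤ y < 123 -/
def LF4 : FamL := (FamL.cons 1 97 14 90 26 0 5 (SL.cons 0 6 (SL.cons 0 1 (SL.cons 0 13 SL.nil))) (WtL.cons 4 5 1 (WtL.cons 4 3 0 (WtL.cons 4 7 3 (WtL.cons 4 5 0 (WtL.cons 4 3 0 WtL.nil)))))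
  (FamL.cons 0 97 17 37 13 1 2 (SL.cons 0 5 (SL.cons 0 1 (SL.cons 0 2 (SL.cons 0 2 (SL.cons 0 1 (SL.cons 0 1 SL.nil)))))) (WtL.cons 1 0 0 (WtL.cons 4 3 1 WtL.nil))
  (FamL.cons 0 97 80 59 98 0 2 (SL.cons 0 1 (SL.cons 0 4 (SL.cons 0 1 (SL.cons 0 2 (SL.cons 0 2 (SL.cons 0 2 SL.nil)))))) (WtL.cons 4 3 1 (WtL.cons 4 3 0 WtL.nil))
  (FamL.cons 1 97 83 6 11 1 6 (SL.cons 0 1 (SL.cons 0 5 (SL.cons 0 1 (SL.cons 0 12 (SL.cons 0 1 SL.nil))))) (WtL.cons 1 0 0 (WtL.cons 4 3 0 (WtL.cons 4 7 0 (WtL.cons 4 7 4 (WtL.cons 4 3 0 (WtL.cons 4 7 2 WtL.nil))))))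
  (FamL.cons 0 99 14 7 2 0 6 (SL.cons 0 7 (SL.cons 0 14 SL.nil)) (WtL.cons 3 1 7 (WtL.cons 4 3 0 (WtL.cons 4 17 4 (WtL.cons 2 3 0 (WtL.cons 4 3 0 (WtL.cons 4 5 2 WtL.nil))))))
  (FamL.cons 0 99 41 1 1 1 2 (SL.cons 0 2 (SL.cons 0 2 (SL.cons 0 2 (SL.cons 0 2 (SL.cons 0 2 (SL.cons 0 1 SL.nil)))))) (WtL.cons 1 0 0 (WtL.cons 4 3 2 WtL.nil))
  (FamL.cons 0 99 58 97 114 0 1 (SL.cons 0 1 (SL.cons 0 1 (SL.cons 0 2 (SL.cons 0 2 (SL.cons 0 2 (SL.cons 0 3 SL.nil)))))) (WtL.cons 4 3 0 WtL.nil)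
  (FamL.cons 0 99 85 91 157 1 5 (SL.cons 0 1 (SL.cons 0 6 (SL.cons 0 13 (SL.cons 0 1 SL.nil)))) (WtL.cons 4 11 7 (WtL.cons 4 3 0 (WtL.cons 4 3 2 (WtL.cons 4 5 1 (WtL.cons 4 3 0 WtL.nil)))))
  (FamL.cons 1 103 38 73 54 0 2 (SL.cons 0 2 (SL.cons 0 1 (SL.cons 0 2 (SL.cons 0 2 (SL.cons 0 5 SL.nil))))) (WtL.cons 4 3 0 (WtL.cons 4 5 0 WtL.nil))
  (FamL.cons 1 103 65 29 37 1 2 (SL.cons 0 1 (SL.cons 0 1 (SL.cons 0 1 (SL.cons 0 2 (SL.cons 0 2 (SL.cons 0 4 (SL.cons 0 1 SL.nil))))))) (WtL.cons 1 0 0 (WtL.cons 2 7 0 WtL.nil))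
  (FamL.cons 0 107 31 43 25 1 2 (SL.cons 0 3 (SL.cons 0 2 (SL.cons 0 4 (SL.cons 0 1 (SL.cons 0 1 (SL.cons 0 1 SL.nil)))))) (WtL.cons 4 5 0 (WtL.cons 4 3 0 WtL.nil))
  (FamL.cons 0 107 76 63 90 0 2 (SL.cons 0 1 (SL.cons 0 2 (SL.cons 0 2 (SL.cons 0 4 (SL.cons 0 1 (SL.cons 0 2 SL.nil)))))) (WtL.cons 2 3 0 (WtL.cons 2 3 0 WtL.nil))
  (FamL.cons 0 113 26 39 18 0 3 (SL.cons 0 4 (SL.cons 0 2 (SL.cons 0 1 (SL.cons 0 8 SL.nil)))) (WtL.cons 2 3 0 (WtL.cons 4 5 0 (WtL.cons 4 3 2 WtL.nil)))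
  (FamL.cons 1 113 51 74 67 1 2 (SL.cons 0 2 (SL.cons 0 4 (SL.cons 0 1 (SL.cons 0 1 (SL.cons 0 1 (SL.cons 0 2 (SL.cons 0 1 SL.nil))))))) (WtL.cons 4 17 10 (WtL.cons 4 11 2 WtL.nil))
  (FamL.cons 1 113 62 38 42 0 2 (SL.cons 0 1 (SL.cons 0 1 (SL.cons 0 4 (SL.cons 0 1 (SL.cons 0 1 (SL.cons 0 1 (SL.cons 0 3 SL.nil))))))) (WtL.cons 4 3 0 (WtL.cons 4 7 3 WtL.nil))
  (FamL.cons 0 113 87 73 113 1 3 (SL.cons 0 1 (SL.cons 0 3 (SL.cons 0 2 (SL.cons 0 1 (SL.cons 0 7 (SL.cons 0 1 SL.nil)))))) (WtL.cons 4 3 2 (WtL.cons 4 7 0 (WtL.cons 4 3 1 WtL.nil)))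
  (FamL.cons 1 119 11 27 5 1 4 (SL.cons 0 10 (SL.cons 0 1 (SL.cons 0 4 (SL.cons 0 1 (SL.cons 0 1 SL.nil))))) (WtL.cons 1 0 0 (WtL.cons 4 3 0 (WtL.cons 4 5 2 (WtL.cons 4 7 4 WtL.nil))))
  (FamL.cons 1 119 45 17 13 1 2 (SL.cons 0 2 (SL.cons 0 1 (SL.cons 0 1 (SL.cons 0 1 (SL.cons 0 4 (SL.cons 0 2 (SL.cons 0 1 SL.nil))))))) (WtL.cons 1 0 0 (WtL.cons 4 5 1 WtL.nil))
  (FamL.cons 1 119 74 101 126 0 1 (SL.cons 0 1 (SL.cons 0 1 (SL.cons 0 1 (SL.cons 0 1 (SL.cons 0 1 (SL.cons 0 4 (SL.cons 0 3 SL.nil))))))) (WtL.cons 4 3 0 WtL.nil)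
  (FamL.cons 1 119 108 91 166 0 3 (SL.cons 0 1 (SL.cons 0 9 (SL.cons 0 1 (SL.cons 0 4 (SL.cons 0 2 SL.nil))))) (WtL.cons 4 13 6 (WtL.cons 4 3 1 (WtL.cons 4 5 3 WtL.nil)))
  (FamL.cons 0 121 19 105 33 1 2 (SL.cons 0 6 (SL.cons 0 2 (SL.cons 0 1 (SL.cons 0 2 (SL.cons 0 1 (SL.cons 0 1 SL.nil)))))) (WtL.cons 4 3 0 (WtL.cons 2 3 0 WtL.nil))
  (FamL.cons 0 121 102 15 26 0 2 (SL.cons 0 1 (SL.cons 0 5 (SL.cons 0 2 (SL.cons 0 1 (SL.cons 0 2 (SL.cons 0 2 SL.nil)))))) (WtL.cons 1 0 0 (WtL.cons 4 3 2 WtL.nil))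
  FamL.nil))))))))))))))))))))))

theorem LF4_sv : LF4.all gSv = true := by decide +kernel

theorem LF4_nm : LF4.all gNm = true := by decide +kernel

theorem LF4_cov : cov LF4 91 16 = true := by decide +kernel

theorem chunk4 {d y : ℕ} (F : FD d y) (hS : Sol d y) (hlo : 91 ≤ y) (hhi : y < 123) :
    H419R2.tb LB d = true :=
  chunk_sound LF4_sv LF4_nm LF4_cov F hS (by omega) hlo (by omega) (by norm_num)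

/-- the families with 123 ≤ y < 155 -/
def LF5 : FamL := (FamL.cons 0 123 11 95 17 1 3 (SL.cons 0 11 (SL.cons 0 5 (SL.cons 0 1 (SL.cons 0 1 SL.nil)))) (WtL.cons 4 3 1 (WtL.cons 4 3 0 (WtL.cons 4 7 5 WtL.nil)))
  (FamL.cons 0 123 52 40 34 0 2 (SL.cons 0 2 (SL.cons 0 2 (SL.cons 0 1 (SL.cons 0 2 (SL.cons 0 1 (SL.cons 0 4 SL.nil)))))) (WtL.cons 4 5 2 (WtL.cons 4 3 0 WtL.nil))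
  (FamL.cons 0 123 71 82 95 1 1 (SL.cons 0 1 (SL.cons 0 1 (SL.cons 0 2 (SL.cons 0 1 (SL.cons 0 2 (SL.cons 0 1 (SL.cons 0 3 (SL.cons 0 1 SL.nil)))))))) (WtL.cons 4 3 2 WtL.nil)
  (FamL.cons 0 123 112 27 50 0 4 (SL.cons 0 1 (SL.cons 0 10 (SL.cons 0 5 (SL.cons 0 2 SL.nil)))) (WtL.cons 4 7 4 (WtL.cons 4 3 1 (WtL.cons 4 3 0 (WtL.cons 4 13 5 WtL.nil))))
  (FamL.cons 1 127 16 119 30 0 4 (SL.cons 0 7 (SL.cons 0 1 (SL.cons 0 15 SL.nil))) (WtL.cons 4 3 0 (WtL.cons 4 7 6 (WtL.cons 4 7 5 (WtL.cons 4 3 0 WtL.nil))))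
  (FamL.cons 1 127 111 7 13 1 5 (SL.cons 0 1 (SL.cons 0 6 (SL.cons 0 1 (SL.cons 0 14 (SL.cons 0 1 SL.nil))))) (WtL.cons 1 0 0 (WtL.cons 4 5 0 (WtL.cons 4 3 1 (WtL.cons 4 7 0 (WtL.cons 4 5 1 WtL.nil)))))
  (FamL.cons 0 129 16 8 2 0 5 (SL.cons 0 8 (SL.cons 0 16 SL.nil)) (WtL.cons 3 1 8 (WtL.cons 4 7 2 (WtL.cons 4 3 0 (WtL.cons 2 3 0 (WtL.cons 4 5 0 WtL.nil)))))
  (FamL.cons 0 129 59 108 99 1 1 (SL.cons 0 2 (SL.cons 0 5 (SL.cons 0 2 (SL.cons 0 1 (SL.cons 0 2 (SL.cons 0 1 SL.nil)))))) (WtL.cons 2 3 0 WtL.nil)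
  (FamL.cons 0 129 70 20 22 0 2 (SL.cons 0 1 (SL.cons 0 1 (SL.cons 0 5 (SL.cons 0 2 (SL.cons 0 1 (SL.cons 0 3 SL.nil)))))) (WtL.cons 1 0 0 (WtL.cons 4 3 0 WtL.nil))
  (FamL.cons 0 129 113 120 211 1 4 (SL.cons 0 1 (SL.cons 0 7 (SL.cons 0 15 (SL.cons 0 1 SL.nil)))) (WtL.cons 4 3 1 (WtL.cons 4 13 3 (WtL.cons 4 3 0 (WtL.cons 4 3 1 WtL.nil))))
  (FamL.cons 0 131 28 42 18 0 3 (SL.cons 0 4 (SL.cons 0 1 (SL.cons 0 2 (SL.cons 0 9 SL.nil)))) (WtL.cons 2 3 0 (WtL.cons 4 3 1 (WtL.cons 4 5 0 WtL.nil)))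
  (FamL.cons 0 131 103 88 139 1 2 (SL.cons 0 1 (SL.cons 0 3 (SL.cons 0 1 (SL.cons 0 2 (SL.cons 0 8 (SL.cons 0 1 SL.nil)))))) (WtL.cons 4 7 2 (WtL.cons 4 3 0 WtL.nil))
  (FamL.cons 1 137 31 117 53 1 1 (SL.cons 0 4 (SL.cons 0 2 (SL.cons 0 2 (SL.cons 0 1 (SL.cons 0 1 (SL.cons 0 1 (SL.cons 0 1 SL.nil))))))) (WtL.cons 4 7 1 WtL.nil)
  (FamL.cons 0 137 51 71 53 1 2 (SL.cons 0 2 (SL.cons 0 1 (SL.cons 0 2 (SL.cons 0 5 (SL.cons 0 2 (SL.cons 0 1 SL.nil)))))) (WtL.cons 2 3 0 (WtL.cons 4 3 2 WtL.nil))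
  (FamL.cons 0 137 86 65 82 0 2 (SL.cons 0 1 (SL.cons 0 1 (SL.cons 0 1 (SL.cons 0 2 (SL.cons 0 5 (SL.cons 0 3 SL.nil)))))) (WtL.cons 4 7 1 (WtL.cons 2 3 0 WtL.nil))
  (FamL.cons 1 137 106 19 30 0 2 (SL.cons 0 1 (SL.cons 0 3 (SL.cons 0 2 (SL.cons 0 2 (SL.cons 0 1 (SL.cons 0 1 (SL.cons 0 2 SL.nil))))))) (WtL.cons 4 3 0 (WtL.cons 4 7 4 WtL.nil))
  (FamL.cons 0 139 50 86 62 0 1 (SL.cons 0 2 (SL.cons 0 1 (SL.cons 0 3 (SL.cons 0 1 (SL.cons 0 1 (SL.cons 0 5 SL.nil)))))) (WtL.cons 4 3 1 WtL.nil)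
  (FamL.cons 0 139 89 52 67 1 2 (SL.cons 0 1 (SL.cons 0 1 (SL.cons 0 1 (SL.cons 0 3 (SL.cons 0 1 (SL.cons 0 1 (SL.cons 0 4 (SL.cons 0 1 SL.nil)))))))) (WtL.cons 4 5 2 (WtL.cons 4 3 1 WtL.nil))
  (FamL.cons 1 151 46 141 86 0 1 (SL.cons 0 3 (SL.cons 0 3 (SL.cons 0 1 (SL.cons 0 1 (SL.cons 0 6 SL.nil))))) (WtL.cons 4 13 7 WtL.nil)
  (FamL.cons 1 151 105 9 13 1 2 (SL.cons 0 1 (SL.cons 0 2 (SL.cons 0 3 (SL.cons 0 1 (SL.cons 0 1 (SL.cons 0 5 (SL.cons 0 1 SL.nil))))))) (WtL.cons 1 0 0 (WtL.cons 2 7 0 WtL.nil))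
  (FamL.cons 0 153 41 151 81 1 0 (SL.cons 0 3 (SL.cons 0 1 (SL.cons 0 2 (SL.cons 0 1 (SL.cons 0 2 (SL.cons 0 1 (SL.cons 0 1 (SL.cons 0 1 SL.nil)))))))) WtL.nil
  (FamL.cons 0 153 58 13 10 0 2 (SL.cons 0 2 (SL.cons 0 1 (SL.cons 0 1 (SL.cons 0 1 (SL.cons 0 3 (SL.cons 0 5 SL.nil)))))) (WtL.cons 1 0 0 (WtL.cons 4 3 0 WtL.nil))
  (FamL.cons 0 153 95 139 173 1 1 (SL.cons 0 1 (SL.cons 0 1 (SL.cons 0 1 (SL.cons 0 1 (SL.cons 0 1 (SL.cons 0 3 (SL.cons 0 4 (SL.cons 0 1 SL.nil)))))))) (WtL.cons 2 3 0 WtL.nil)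
  (FamL.cons 0 153 112 1 2 0 1 (SL.cons 0 1 (SL.cons 0 2 (SL.cons 0 1 (SL.cons 0 2 (SL.cons 0 1 (SL.cons 0 2 (SL.cons 0 1 (SL.cons 0 2 SL.nil)))))))) (WtL.cons 1 0 0 WtL.nil)
  FamL.nil))))))))))))))))))))))))

theorem LF5_sv : LF5.all gSv = true := by decide +kernel

theorem LF5_nm : LF5.all gNm = true := by decide +kernel

theorem LF5_cov : cov LF5 123 16 = true := by decide +kernel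

theorem chunk5 {d y : ℕ} (F : FD d y) (hS : Sol d y) (hlo : 123 ≤ y) (hhi : y < 155) :
    H419R2.tb LB d = true :=
  chunk_sound LF5_sv LF5_nm LF5_cov F hS (by omega) hlo (by omega) (by norm_num)

end Pool.Agent.H449
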