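import Pool.Agent.H449.E4

/-! Families with 155 ≤ y < 299. -/

set_option maxRecDepth 100000

namespace Pool.Agent.H449

/-- the families with 155 ≤ y < 181 -/
def LF6 : FamL := (FamL.cons 1 161 18 152 34 0 4 (SL.cons 0 8 (SL.cons 0 1 (SL.cons 0 17 SL.nil))) (WtL.cons 4 11 6 (WtL.cons 4 5 0 (WtL.cons 4 3 1 (WtL.cons 4 13 6 WtL.nil))))
  (FamL.cons 1 161 74 15 14 0 2 (SL.cons 0 2 (SL.cons 0 5 (SL.cons 0 1 (SL.cons 0 2 (SL.cons 0 4 SL.nil))))) (WtL.cons 1 0 0 (WtL.cons 4 3 0 WtL.nil))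
  (FamL.cons 1 161 87 145 157 1 1 (SL.cons 0 1 (SL.cons 0 1 (SL.cons 0 5 (SL.cons 0 1 (SL.cons 0 2 (SL.cons 0 3 (SL.cons 0 1 SL.nil))))))) (WtL.cons 4 7 2 WtL.nil)
  (FamL.cons 1 161 143 8 15 1 5 (SL.cons 0 1 (SL.cons 0 7 (SL.cons 0 1 (SL.cons 0 16 (SL.cons 0 1 SL.nil))))) (WtL.cons 3 1 9 (WtL.cons 4 7 0 (WtL.cons 4 7 6 (WtL.cons 4 3 0 (WtL.cons 4 19 0 WtL.nil)))))
  (FamL.cons 0 163 18 9 2 0 5 (SL.cons 0 9 (SL.cons 0 18 SL.nil)) (WtL.cons 1 0 0 (WtL.cons 4 3 2 (WtL.cons 4 3 1 (WtL.cons 4 5 0 (WtL.cons 2 3 0 WtL.nil)))))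
  (FamL.cons 0 163 145 153 273 1 4 (SL.cons 0 1 (SL.cons 0 8 (SL.cons 0 17 (SL.cons 0 1 SL.nil)))) (WtL.cons 4 3 0 (WtL.cons 4 3 2 (WtL.cons 4 5 3 (WtL.cons 2 3 0 WtL.nil))))
  (FamL.cons 3 167 13 122 19 1 3 (SL.cons 0 12 (SL.cons 0 1 (SL.cons 0 5 (SL.cons 0 1 (SL.cons 0 1 SL.nil))))) (WtL.cons 4 7 4 (WtL.cons 4 3 0 (WtL.cons 4 7 2 WtL.nil)))
  (FamL.cons 3 167 154 44 82 0 3 (SL.cons 0 1 (SL.cons 0 11 (SL.cons 0 1 (SL.cons 0 5 (SL.cons 0 2 SL.nil))))) (WtL.cons 4 11 4 (WtL.cons 4 3 0 (WtL.cons 4 13 5 WtL.nil)))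
  (FamL.cons 0 171 13 46 7 1 3 (SL.cons 0 13 (SL.cons 0 6 (SL.cons 0 1 (SL.cons 0 1 SL.nil)))) (WtL.cons 4 11 9 (WtL.cons 4 3 0 (WtL.cons 4 3 2 WtL.nil)))
  (FamL.cons 0 171 32 48 18 0 3 (SL.cons 0 5 (SL.cons 0 2 (SL.cons 0 1 (SL.cons 0 10 SL.nil)))) (WtL.cons 2 3 0 (WtL.cons 4 3 1 (WtL.cons 4 5 1 WtL.nil)))
  (FamL.cons 0 171 139 122 199 1 2 (SL.cons 0 1 (SL.cons 0 4 (SL.cons 0 2 (SL.cons 0 1 (SL.cons 0 9 (SL.cons 0 1 SL.nil)))))) (WtL.cons 4 13 4 (WtL.cons 4 3 0 WtL.nil))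
  (FamL.cons 0 171 158 124 230 0 3 (SL.cons 0 1 (SL.cons 0 12 (SL.cons 0 6 (SL.cons 0 2 SL.nil)))) (WtL.cons 2 3 0 (WtL.cons 4 3 0 (WtL.cons 4 11 4 WtL.nil)))
  (FamL.cons 0 177 23 150 39 1 1 (SL.cons 0 7 (SL.cons 0 1 (SL.cons 0 2 (SL.cons 0 3 (SL.cons 0 1 (SL.cons 0 1 SL.nil)))))) (WtL.cons 4 3 0 WtL.nil)
  (FamL.cons 0 177 82 71 66 0 2 (SL.cons 0 2 (SL.cons 0 6 (SL.cons 0 3 (SL.cons 0 4 SL.nil)))) (WtL.cons 4 3 0 (WtL.cons 4 3 1 WtL.nil))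
  (FamL.cons 0 177 95 105 113 1 1 (SL.cons 0 1 (SL.cons 0 1 (SL.cons 0 6 (SL.cons 0 3 (SL.cons 0 3 (SL.cons 0 1 SL.nil)))))) (WtL.cons 4 7 1 WtL.nil)
  (FamL.cons 0 177 154 26 46 0 2 (SL.cons 0 1 (SL.cons 0 6 (SL.cons 0 1 (SL.cons 0 2 (SL.cons 0 3 (SL.cons 0 2 SL.nil)))))) (WtL.cons 2 19 0 (WtL.cons 4 3 0 WtL.nil))
  (FamL.cons 0 179 78 126 110 0 1 (SL.cons 0 2 (SL.cons 0 3 (SL.cons 0 2 (SL.cons 0 1 (SL.cons 0 1 (SL.cons 0 4 SL.nil)))))) (WtL.cons 4 5 0 WtL.nil)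
  (FamL.cons 0 179 101 52 59 1 1 (SL.cons 0 1 (SL.cons 0 1 (SL.cons 0 3 (SL.cons 0 2 (SL.cons 0 1 (SL.cons 0 1 (SL.cons 0 3 (SL.cons 0 1 SL.nil)))))))) (WtL.cons 2 3 0 WtL.nil)
  FamL.nil))))))))))))))))))

theorem LF6_sv : LF6.all gSv = true := by decide +kernel

theorem LF6_nm : LF6.all gNm = true := by decide +kernel

theorem LF6_cov : cov LF6 155 13 = true := by decide +kernel

theorem chunk6 {d y : ℕ} (F : FD d y) (hS : Sol d y) (hlo : 155 ≤ y) (hhi : y < 181) :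
    H419R2.tb LB d = true :=
  chunk_sound LF6_sv LF6_nm LF6_cov F hS (by omega) hlo (by omega) (by norm_num)

/-- the families with 181 ≤ y < 213 -/
def LF7 : FamL := (FamL.cons 0 187 41 139 61 1 1 (SL.cons 0 4 (SL.cons 0 1 (SL.cons 0 1 (SL.cons 0 3 (SL.cons 0 1 (SL.cons 0 1 (SL.cons 0 1 (SL.cons 0 1 SL.nil)))))))) (WtL.cons 4 11 4 WtL.nil)
  (FamL.cons 0 187 58 74 46 0 1 (SL.cons 0 3 (SL.cons 0 4 (SL.cons 0 2 (SL.cons 0 6 SL.nil)))) (WtL.cons 4 11 3 WtL.nil)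
  (FamL.cons 0 187 129 112 155 1 1 (SL.cons 0 1 (SL.cons 0 2 (SL.cons 0 4 (SL.cons 0 2 (SL.cons 0 5 (SL.cons 0 1 SL.nil)))))) (WtL.cons 2 3 0 WtL.nil)
  (FamL.cons 0 187 146 47 74 0 1 (SL.cons 0 1 (SL.cons 0 3 (SL.cons 0 1 (SL.cons 0 1 (SL.cons 0 3 (SL.cons 0 1 (SL.cons 0 1 (SL.cons 0 2 SL.nil)))))))) (WtL.cons 4 3 1 WtL.nil)
  (FamL.cons 1 191 57 92 55 1 1 (SL.cons 0 3 (SL.cons 0 2 (SL.cons 0 1 (SL.cons 0 5 (SL.cons 0 1 (SL.cons 0 1 (SL.cons 0 1 SL.nil))))))) (WtL.cons 4 5 0 WtL.nil)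
  (FamL.cons 1 191 134 98 138 0 1 (SL.cons 0 1 (SL.cons 0 2 (SL.cons 0 2 (SL.cons 0 1 (SL.cons 0 5 (SL.cons 0 1 (SL.cons 0 2 SL.nil))))))) (WtL.cons 4 3 0 WtL.nil)
  (FamL.cons 0 193 34 51 18 0 2 (SL.cons 0 5 (SL.cons 0 1 (SL.cons 0 2 (SL.cons 0 11 SL.nil)))) (WtL.cons 2 3 0 (WtL.cons 4 3 2 WtL.nil))
  (FamL.cons 1 193 52 11 6 0 2 (SL.cons 0 3 (SL.cons 0 1 (SL.cons 0 2 (SL.cons 0 2 (SL.cons 0 7 SL.nil))))) (WtL.cons 1 0 0 (WtL.cons 4 5 0 WtL.nil))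
  (FamL.cons 1 193 141 181 265 1 1 (SL.cons 0 1 (SL.cons 0 2 (SL.cons 0 1 (SL.cons 0 2 (SL.cons 0 2 (SL.cons 0 6 (SL.cons 0 1 SL.nil))))))) (WtL.cons 2 7 0 WtL.nil)
  (FamL.cons 0 193 159 141 233 1 2 (SL.cons 0 1 (SL.cons 0 4 (SL.cons 0 1 (SL.cons 0 2 (SL.cons 0 10 (SL.cons 0 1 SL.nil)))))) (WtL.cons 4 5 1 (WtL.cons 4 3 2 WtL.nil))
  (FamL.cons 1 199 20 189 38 0 3 (SL.cons 0 9 (SL.cons 0 1 (SL.cons 0 19 SL.nil))) (WtL.cons 4 5 3 (WtL.cons 4 3 0 (WtL.cons 4 7 1 WtL.nil)))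
  (FamL.cons 1 199 179 9 17 1 4 (SL.cons 0 1 (SL.cons 0 8 (SL.cons 0 1 (SL.cons 0 18 (SL.cons 0 1 SL.nil))))) (WtL.cons 2 7 0 (WtL.cons 2 17 0 (WtL.cons 4 23 7 (WtL.cons 4 7 2 WtL.nil))))
  (FamL.cons 0 201 20 10 2 0 4 (SL.cons 0 10 (SL.cons 0 20 SL.nil)) (WtL.cons 3 1 10 (WtL.cons 4 3 0 (WtL.cons 4 5 2 (WtL.cons 4 3 2 WtL.nil))))
  (FamL.cons 0 201 47 79 37 1 1 (SL.cons 0 4 (SL.cons 0 3 (SL.cons 0 1 (SL.cons 0 1 (SL.cons 0 1 (SL.cons 0 1 (SL.cons 0 1 (SL.cons 0 1 SL.nil)))))))) (WtL.cons 4 13 4 WtL.nil)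
  (FamL.cons 0 201 154 121 186 0 1 (SL.cons 0 1 (SL.cons 0 3 (SL.cons 0 3 (SL.cons 0 1 (SL.cons 0 1 (SL.cons 0 1 (SL.cons 0 1 (SL.cons 0 2 SL.nil)))))))) (WtL.cons 4 3 0 WtL.nil)
  (FamL.cons 0 201 181 190 343 1 3 (SL.cons 0 1 (SL.cons 0 9 (SL.cons 0 19 (SL.cons 0 1 SL.nil)))) (WtL.cons 4 7 0 (WtL.cons 4 3 0 (WtL.cons 2 3 0 WtL.nil)))
  (FamL.cons 0 209 25 71 17 1 2 (SL.cons 0 8 (SL.cons 0 2 (SL.cons 0 1 (SL.cons 0 3 (SL.cons 0 1 (SL.cons 0 1 SL.nil)))))) (WtL.cons 2 3 0 (WtL.cons 4 7 2 WtL.nil))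
  (FamL.cons 0 209 63 38 23 1 2 (SL.cons 0 3 (SL.cons 0 3 (SL.cons 0 6 (SL.cons 0 1 (SL.cons 0 1 (SL.cons 0 1 SL.nil)))))) (WtL.cons 2 3 0 (WtL.cons 4 3 2 WtL.nil))
  (FamL.cons 0 209 146 170 238 0 1 (SL.cons 0 1 (SL.cons 0 2 (SL.cons 0 3 (SL.cons 0 6 (SL.cons 0 1 (SL.cons 0 2 SL.nil)))))) (WtL.cons 4 7 0 WtL.nil)
  (FamL.cons 0 209 184 137 242 0 1 (SL.cons 0 1 (SL.cons 0 7 (SL.cons 0 2 (SL.cons 0 1 (SL.cons 0 3 (SL.cons 0 2 SL.nil)))))) (WtL.cons 4 3 1 WtL.nil)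
  (FamL.cons 0 211 93 162 143 1 0 (SL.cons 0 2 (SL.cons 0 3 (SL.cons 0 1 (SL.cons 0 2 (SL.cons 0 1 (SL.cons 0 1 (SL.cons 0 2 (SL.cons 0 1 SL.nil)))))))) WtL.nil
  (FamL.cons 0 211 118 48 54 0 1 (SL.cons 0 1 (SL.cons 0 1 (SL.cons 0 3 (SL.cons 0 1 (SL.cons 0 2 (SL.cons 0 1 (SL.cons 0 1 (SL.cons 0 3 SL.nil)))))))) (WtL.cons 2 3 0 WtL.nil)
  FamL.nil))))))))))))))))))))))

theorem LF7_sv : LF7.all gSv = true := by decide +kernel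

theorem LF7_nm : LF7.all gNm = true := by decide +kernel

theorem LF7_cov : cov LF7 181 16 = true := by decide +kernel

theorem chunk7 {d y : ℕ} (F : FD d y) (hS : Sol d y) (hlo : 181 ≤ y) (hhi : y < 213) :
    H419R2.tb LB d = true :=
  chunk_sound LF7_sv LF7_nm LF7_cov F hS (by omega) hlo (by omega) (by norm_num)

/-- the families with 213 ≤ y < 241 -/
def LF8 : FamL := (FamL.cons 1 217 39 203 73 1 1 (SL.cons 0 5 (SL.cons 0 1 (SL.cons 0 1 (SL.cons 0 3 (SL.cons 0 2 (SL.cons 0 1 (SL.cons 0 1 SL.nil))))))) (WtL.cons 4 37 11 WtL.nil)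
  (FamL.cons 1 217 101 61 57 1 1 (SL.cons 0 2 (SL.cons 0 6 (SL.cons 0 1 (SL.cons 0 2 (SL.cons 0 1 (SL.cons 0 2 (SL.cons 0 1 SL.nil))))))) (WtL.cons 4 3 0 WtL.nil)
  (FamL.cons 1 217 116 155 166 0 1 (SL.cons 0 1 (SL.cons 0 1 (SL.cons 0 6 (SL.cons 0 1 (SL.cons 0 2 (SL.cons 0 1 (SL.cons 0 3 SL.nil))))))) (WtL.cons 4 5 1 WtL.nil)
  (FamL.cons 1 217 178 13 22 0 1 (SL.cons 0 1 (SL.cons 0 4 (SL.cons 0 1 (SL.cons 0 1 (SL.cons 0 3 (SL.cons 0 2 (SL.cons 0 2 SL.nil))))))) (WtL.cons 1 0 0 WtL.nil)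
  (FamL.cons 0 219 61 95 53 1 1 (SL.cons 0 3 (SL.cons 0 1 (SL.cons 0 1 (SL.cons 0 2 (SL.cons 0 3 (SL.cons 0 1 (SL.cons 0 1 (SL.cons 0 1 SL.nil)))))))) (WtL.cons 4 3 1 WtL.nil)
  (FamL.cons 0 219 85 99 77 1 1 (SL.cons 0 2 (SL.cons 0 1 (SL.cons 0 1 (SL.cons 0 2 (SL.cons 0 1 (SL.cons 0 3 (SL.cons 0 2 (SL.cons 0 1 SL.nil)))))))) (WtL.cons 4 7 0 WtL.nil)
  (FamL.cons 0 219 134 119 146 0 1 (SL.cons 0 1 (SL.cons 0 1 (SL.cons 0 1 (SL.cons 0 1 (SL.cons 0 2 (SL.cons 0 1 (SL.cons 0 3 (SL.cons 0 3 SL.nil)))))))) (WtL.cons 4 3 1 WtL.nil)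
  (FamL.cons 0 219 158 123 178 0 1 (SL.cons 0 1 (SL.cons 0 2 (SL.cons 0 1 (SL.cons 0 1 (SL.cons 0 2 (SL.cons 0 3 (SL.cons 0 1 (SL.cons 0 2 SL.nil)))))))) (WtL.cons 4 3 1 WtL.nil)
  (FamL.cons 1 223 15 52 7 1 3 (SL.cons 0 14 (SL.cons 0 1 (SL.cons 0 6 (SL.cons 0 1 (SL.cons 0 1 SL.nil))))) (WtL.cons 4 5 2 (WtL.cons 4 11 2 (WtL.cons 4 3 1 WtL.nil)))
  (FamL.cons 1 223 208 170 318 0 2 (SL.cons 0 1 (SL.cons 0 13 (SL.cons 0 1 (SL.cons 0 6 (SL.cons 0 2 SL.nil))))) (WtL.cons 4 3 0 (WtL.cons 2 7 0 WtL.nil))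
  (FamL.cons 2 227 15 174 23 1 2 (SL.cons 0 15 (SL.cons 0 7 (SL.cons 0 1 (SL.cons 0 1 SL.nil)))) (WtL.cons 4 5 3 (WtL.cons 4 3 1 WtL.nil))
  (FamL.cons 2 227 212 52 98 0 3 (SL.cons 0 1 (SL.cons 0 14 (SL.cons 0 7 (SL.cons 0 2 SL.nil)))) (WtL.cons 4 3 2 (WtL.cons 2 3 0 (WtL.cons 4 11 0 WtL.nil)))
  (FamL.cons 1 233 85 215 157 1 1 (SL.cons 0 2 (SL.cons 0 1 (SL.cons 0 2 (SL.cons 0 1 (SL.cons 0 6 (SL.cons 0 2 (SL.cons 0 1 SL.nil))))))) (WtL.cons 4 7 2 WtL.nil)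
  (FamL.cons 0 233 109 50 47 1 2 (SL.cons 0 2 (SL.cons 0 7 (SL.cons 0 3 (SL.cons 0 1 (SL.cons 0 2 (SL.cons 0 1 SL.nil)))))) (WtL.cons 2 3 0 (WtL.cons 4 5 0 WtL.nil))
  (FamL.cons 0 233 124 182 194 0 1 (SL.cons 0 1 (SL.cons 0 1 (SL.cons 0 7 (SL.cons 0 3 (SL.cons 0 1 (SL.cons 0 3 SL.nil)))))) (WtL.cons 2 3 0 WtL.nil)
  (FamL.cons 1 233 148 17 22 0 2 (SL.cons 0 1 (SL.cons 0 1 (SL.cons 0 1 (SL.cons 0 2 (SL.cons 0 1 (SL.cons 0 6 (SL.cons 0 3 SL.nil))))))) (WtL.cons 1 0 0 (WtL.cons 2 7 0 WtL.nil))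
  (FamL.cons 1 239 99 1 1 1 1 (SL.cons 0 2 (SL.cons 0 2 (SL.cons 0 2 (SL.cons 0 2 (SL.cons 0 2 (SL.cons 0 2 (SL.cons 0 1 SL.nil))))))) (WtL.cons 1 0 0 WtL.nil)
  (FamL.cons 1 239 140 237 278 0 0 (SL.cons 0 1 (SL.cons 0 1 (SL.cons 0 2 (SL.cons 0 2 (SL.cons 0 2 (SL.cons 0 2 (SL.cons 0 3 SL.nil))))))) WtL.nil
  FamL.nil))))))))))))))))))

theorem LF8_sv : LF8.all gSv = true := by decide +kernel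

theorem LF8_nm : LF8.all gNm = true := by decide +kernel

theorem LF8_cov : cov LF8 213 14 = true := by decide +kernel

theorem chunk8 {d y : ℕ} (F : FD d y) (hS : Sol d y) (hlo : 213 ≤ y) (hhi : y < 241) :
    H419R2.tb LB d = true :=
  chunk_sound LF8_sv LF8_nm LF8_cov F hS (by omega) hlo (by omega) (by norm_num)

/-- the families with 241 ≤ y < 269 -/
def LF9 : FamL := (FamL.cons 1 241 22 230 42 0 3 (SL.cons 0 10 (SL.cons 0 1 (SL.cons 0 21 SL.nil))) (WtL.cons 4 3 0 (WtL.cons 4 13 8 (WtL.cons 4 5 0 WtL.nil)))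
  (FamL.cons 0 241 38 57 18 0 2 (SL.cons 0 6 (SL.cons 0 2 (SL.cons 0 1 (SL.cons 0 12 SL.nil)))) (WtL.cons 2 3 0 (WtL.cons 4 13 3 WtL.nil))
  (FamL.cons 0 241 203 183 309 1 2 (SL.cons 0 1 (SL.cons 0 5 (SL.cons 0 2 (SL.cons 0 1 (SL.cons 0 11 (SL.cons 0 1 SL.nil)))))) (WtL.cons 4 3 0 (WtL.cons 4 5 0 WtL.nil))
  (FamL.cons 1 241 219 10 19 1 4 (SL.cons 0 1 (SL.cons 0 9 (SL.cons 0 1 (SL.cons 0 20 (SL.cons 0 1 SL.nil))))) (WtL.cons 3 1 11 (WtL.cons 4 19 2 (WtL.cons 4 3 1 (WtL.cons 4 7 2 WtL.nil))))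
  (FamL.cons 0 243 22 11 2 0 4 (SL.cons 0 11 (SL.cons 0 22 SL.nil)) (WtL.cons 3 1 11 (WtL.cons 4 7 4 (WtL.cons 4 3 0 (WtL.cons 4 3 1 WtL.nil))))
  (FamL.cons 0 243 221 231 421 1 3 (SL.cons 0 1 (SL.cons 0 10 (SL.cons 0 21 (SL.cons 0 1 SL.nil)))) (WtL.cons 4 3 1 (WtL.cons 4 5 3 (WtL.cons 2 3 0 WtL.nil)))
  (FamL.cons 0 249 74 158 94 0 1 (SL.cons 0 3 (SL.cons 0 2 (SL.cons 0 1 (SL.cons 0 2 (SL.cons 0 1 (SL.cons 0 6 SL.nil)))))) (WtL.cons 4 11 7 WtL.nil)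
  (FamL.cons 0 249 92 35 26 0 1 (SL.cons 0 2 (SL.cons 0 1 (SL.cons 0 2 (SL.cons 0 2 (SL.cons 0 2 (SL.cons 0 5 SL.nil)))))) (WtL.cons 2 3 0 WtL.nil)
  (FamL.cons 0 249 157 213 269 1 0 (SL.cons 0 1 (SL.cons 0 1 (SL.cons 0 1 (SL.cons 0 2 (SL.cons 0 2 (SL.cons 0 2 (SL.cons 0 4 (SL.cons 0 1 SL.nil)))))))) WtL.nil
  (FamL.cons 0 249 175 90 127 1 1 (SL.cons 0 1 (SL.cons 0 2 (SL.cons 0 2 (SL.cons 0 1 (SL.cons 0 2 (SL.cons 0 1 (SL.cons 0 5 (SL.cons 0 1 SL.nil)))))))) (WtL.cons 4 3 1 WtL.nil)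
  (FamL.cons 0 251 91 186 135 1 1 (SL.cons 0 2 (SL.cons 0 1 (SL.cons 0 3 (SL.cons 0 7 (SL.cons 0 2 (SL.cons 0 1 SL.nil)))))) (WtL.cons 2 3 0 WtL.nil)
  (FamL.cons 0 251 160 64 82 0 1 (SL.cons 0 1 (SL.cons 0 1 (SL.cons 0 1 (SL.cons 0 3 (SL.cons 0 7 (SL.cons 0 3 SL.nil)))))) (WtL.cons 4 11 5 WtL.nil)
  (FamL.cons 1 257 60 47 22 0 2 (SL.cons 0 4 (SL.cons 0 3 (SL.cons 0 1 (SL.cons 0 1 (SL.cons 0 8 SL.nil))))) (WtL.cons 4 5 2 (WtL.cons 4 7 2 WtL.nil))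
  (FamL.cons 0 257 68 49 26 0 1 (SL.cons 0 3 (SL.cons 0 1 (SL.cons 0 3 (SL.cons 0 1 (SL.cons 0 1 (SL.cons 0 7 SL.nil)))))) (WtL.cons 4 3 2 WtL.nil)
  (FamL.cons 0 257 189 207 305 1 1 (SL.cons 0 1 (SL.cons 0 2 (SL.cons 0 1 (SL.cons 0 3 (SL.cons 0 1 (SL.cons 0 1 (SL.cons 0 6 (SL.cons 0 1 SL.nil)))))))) (WtL.cons 4 5 0 WtL.nil)
  (FamL.cons 1 257 197 209 321 1 1 (SL.cons 0 1 (SL.cons 0 3 (SL.cons 0 3 (SL.cons 0 1 (SL.cons 0 1 (SL.cons 0 7 (SL.cons 0 1 SL.nil))))))) (WtL.cons 2 7 0 WtL.nil)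
  (FamL.cons 1 263 110 50 42 0 1 (SL.cons 0 2 (SL.cons 0 2 (SL.cons 0 1 (SL.cons 0 1 (SL.cons 0 3 (SL.cons 0 1 (SL.cons 0 4 SL.nil))))))) (WtL.cons 4 3 0 WtL.nil)
  (FamL.cons 1 263 153 212 247 1 0 (SL.cons 0 1 (SL.cons 0 1 (SL.cons 0 2 (SL.cons 0 1 (SL.cons 0 1 (SL.cons 0 3 (SL.cons 0 1 (SL.cons 0 3 (SL.cons 0 1 SL.nil))))))))) WtL.nil
  (FamL.cons 0 267 40 60 18 0 2 (SL.cons 0 6 (SL.cons 0 1 (SL.cons 0 2 (SL.cons 0 13 SL.nil)))) (WtL.cons 2 3 0 (WtL.cons 4 7 0 WtL.nil))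
  (FamL.cons 0 267 49 177 65 1 1 (SL.cons 0 5 (SL.cons 0 2 (SL.cons 0 4 (SL.cons 0 2 (SL.cons 0 1 (SL.cons 0 1 SL.nil)))))) (WtL.cons 4 5 0 WtL.nil)
  (FamL.cons 0 267 218 89 146 0 1 (SL.cons 0 1 (SL.cons 0 4 (SL.cons 0 2 (SL.cons 0 4 (SL.cons 0 2 (SL.cons 0 2 SL.nil)))))) (WtL.cons 4 3 1 WtL.nil)
  (FamL.cons 0 267 227 206 351 1 2 (SL.cons 0 1 (SL.cons 0 5 (SL.cons 0 1 (SL.cons 0 2 (SL.cons 0 12 (SL.cons 0 1 SL.nil)))))) (WtL.cons 4 3 0 (WtL.cons 4 5 0 WtL.nil))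
  FamL.nil))))))))))))))))))))))

theorem LF9_sv : LF9.all gSv = true := by decide +kernel

theorem LF9_nm : LF9.all gNm = true := by decide +kernel

theorem LF9_cov : cov LF9 241 14 = true := by decide +kernel

theorem chunk9 {d y : ℕ} (F : FD d y) (hS : Sol d y) (hlo : 241 ≤ y) (hhi : y < 269) :
    H419R2.tb LB d = true :=
  chunk_sound LF9_sv LF9_nm LF9_cov F hS (by omega) hlo (by omega) (by norm_num)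

/-- the families with 269 ≤ y < 299 -/
def LF10 : FamL := (FamL.cons 1 271 96 268 190 0 0 (SL.cons 0 2 (SL.cons 0 1 (SL.cons 0 4 (SL.cons 0 1 (SL.cons 0 1 (SL.cons 0 1 (SL.cons 0 5 SL.nil))))))) WtL.nil
  (FamL.cons 1 271 175 2 3 1 1 (SL.cons 0 1 (SL.cons 0 1 (SL.cons 0 1 (SL.cons 0 4 (SL.cons 0 1 (SL.cons 0 1 (SL.cons 0 1 (SL.cons 0 4 (SL.cons 0 1 SL.nil))))))))) (WtL.cons 1 0 0 WtL.nil)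
  (FamL.cons 0 281 29 92 19 1 1 (SL.cons 0 9 (SL.cons 0 1 (SL.cons 0 2 (SL.cons 0 4 (SL.cons 0 1 (SL.cons 0 1 SL.nil)))))) (WtL.cons 4 17 10 WtL.nil)
  (FamL.cons 1 281 132 202 190 0 1 (SL.cons 0 2 (SL.cons 0 7 (SL.cons 0 1 (SL.cons 0 3 (SL.cons 0 4 SL.nil))))) (WtL.cons 4 5 0 WtL.nil)
  (FamL.cons 1 281 149 78 83 1 1 (SL.cons 0 1 (SL.cons 0 1 (SL.cons 0 7 (SL.cons 0 1 (SL.cons 0 3 (SL.cons 0 3 (SL.cons 0 1 SL.nil))))))) (WtL.cons 4 7 6 WtL.nil)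
  (FamL.cons 0 281 252 188 338 0 1 (SL.cons 0 1 (SL.cons 0 8 (SL.cons 0 1 (SL.cons 0 2 (SL.cons 0 4 (SL.cons 0 2 SL.nil)))))) (WtL.cons 4 3 1 WtL.nil)
  (FamL.cons 0 283 127 41 37 1 1 (SL.cons 0 2 (SL.cons 0 4 (SL.cons 0 2 (SL.cons 0 1 (SL.cons 0 1 (SL.cons 0 1 (SL.cons 0 2 (SL.cons 0 1 SL.nil)))))))) (WtL.cons 1 0 0 WtL.nil)
  (FamL.cons 0 283 156 241 266 0 0 (SL.cons 0 1 (SL.cons 0 1 (SL.cons 0 4 (SL.cons 0 2 (SL.cons 0 1 (SL.cons 0 1 (SL.cons 0 1 (SL.cons 0 3 SL.nil)))))))) WtL.nil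
  (FamL.cons 1 287 17 211 25 1 2 (SL.cons 0 16 (SL.cons 0 1 (SL.cons 0 7 (SL.cons 0 1 (SL.cons 0 1 SL.nil))))) (WtL.cons 4 5 0 (WtL.cons 4 7 1 WtL.nil))
  (FamL.cons 1 287 24 275 46 0 3 (SL.cons 0 11 (SL.cons 0 1 (SL.cons 0 23 SL.nil))) (WtL.cons 4 5 1 (WtL.cons 4 7 5 (WtL.cons 4 3 1 WtL.nil)))
  (FamL.cons 1 287 263 11 21 1 4 (SL.cons 0 1 (SL.cons 0 10 (SL.cons 0 1 (SL.cons 0 22 (SL.cons 0 1 SL.nil))))) (WtL.cons 3 1 12 (WtL.cons 4 5 1 (WtL.cons 4 7 1 (WtL.cons 4 3 0 WtL.nil))))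
  (FamL.cons 1 287 270 75 142 0 2 (SL.cons 0 1 (SL.cons 0 15 (SL.cons 0 1 (SL.cons 0 7 (SL.cons 0 2 SL.nil))))) (WtL.cons 4 3 1 (WtL.cons 4 5 2 WtL.nil))
  (FamL.cons 0 289 24 12 2 0 4 (SL.cons 0 12 (SL.cons 0 24 SL.nil)) (WtL.cons 3 1 12 (WtL.cons 4 3 2 (WtL.cons 4 3 1 (WtL.cons 4 7 2 WtL.nil))))
  (FamL.cons 1 289 45 138 43 1 1 (SL.cons 0 6 (SL.cons 0 2 (SL.cons 0 2 (SL.cons 0 1 (SL.cons 0 2 (SL.cons 0 1 (SL.cons 0 1 SL.nil))))))) (WtL.cons 4 3 1 WtL.nil)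
  (FamL.cons 1 289 244 150 254 0 1 (SL.cons 0 1 (SL.cons 0 5 (SL.cons 0 2 (SL.cons 0 2 (SL.cons 0 1 (SL.cons 0 2 (SL.cons 0 2 SL.nil))))))) (WtL.cons 4 5 2 WtL.nil)
  (FamL.cons 0 289 265 276 507 1 3 (SL.cons 0 1 (SL.cons 0 11 (SL.cons 0 23 (SL.cons 0 1 SL.nil)))) (WtL.cons 4 3 0 (WtL.cons 4 3 2 (WtL.cons 4 13 10 WtL.nil)))
  (FamL.cons 0 291 17 77 9 1 2 (SL.cons 0 17 (SL.cons 0 8 (SL.cons 0 1 (SL.cons 0 1 SL.nil)))) (WtL.cons 4 3 0 (WtL.cons 4 19 8 WtL.nil))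
  (FamL.cons 0 291 80 149 82 0 1 (SL.cons 0 3 (SL.cons 0 1 (SL.cons 0 1 (SL.cons 0 1 (SL.cons 0 3 (SL.cons 0 7 SL.nil)))))) (WtL.cons 4 7 1 WtL.nil)
  (FamL.cons 0 291 211 141 205 1 1 (SL.cons 0 1 (SL.cons 0 2 (SL.cons 0 1 (SL.cons 0 1 (SL.cons 0 1 (SL.cons 0 3 (SL.cons 0 6 (SL.cons 0 1 SL.nil)))))))) (WtL.cons 2 11 0 WtL.nil)
  (FamL.cons 0 291 274 213 402 0 2 (SL.cons 0 1 (SL.cons 0 16 (SL.cons 0 8 (SL.cons 0 2 SL.nil)))) (WtL.cons 4 3 0 (WtL.cons 4 5 0 WtL.nil))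
  (FamL.cons 0 297 113 101 77 1 1 (SL.cons 0 2 (SL.cons 0 1 (SL.cons 0 1 (SL.cons 0 1 (SL.cons 0 2 (SL.cons 0 4 (SL.cons 0 2 (SL.cons 0 1 SL.nil)))))))) (WtL.cons 2 3 0 WtL.nil)
  (FamL.cons 0 297 140 231 218 0 1 (SL.cons 0 2 (SL.cons 0 8 (SL.cons 0 4 (SL.cons 0 4 SL.nil)))) (WtL.cons 4 5 1 WtL.nil)
  (FamL.cons 0 297 157 65 69 1 1 (SL.cons 0 1 (SL.cons 0 1 (SL.cons 0 8 (SL.cons 0 4 (SL.cons 0 3 (SL.cons 0 1 SL.nil)))))) (WtL.cons 4 3 0 WtL.nil)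
  (FamL.cons 0 297 184 195 242 0 0 (SL.cons 0 1 (SL.cons 0 1 (SL.cons 0 1 (SL.cons 0 1 (SL.cons 0 1 (SL.cons 0 2 (SL.cons 0 4 (SL.cons 0 3 SL.nil)))))))) WtL.nil
  FamL.nil))))))))))))))))))))))))

theorem LF10_sv : LF10.all gSv = true := by decide +kernel

theorem LF10_nm : LF10.all gNm = true := by decide +kernel

theorem LF10_cov : cov LF10 269 15 = true := by decide +kernel

theorem chunk10 {d y : ℕ} (F : FD d y) (hS : Sol d y) (hlo : 269 ≤ y) (hhi : y < 299) :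
    H419R2.tb LB d = true :=
  chunk_sound LF10_sv LF10_nm LF10_cov F hS (by omega) hlo (by omega) (by norm_num)

end Pool.Agent.H449
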