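import Pool.Agent.H449.E4

/-! Families with 299 ≤ y < 453. -/

set_option maxRecDepth 100000

namespace Pool.Agent.H449

/-- the families with 299 ≤ y < 333 -/
def LF11 : FamL := (FamL.cons 0 307 108 105 74 0 1 (SL.cons 0 2 (SL.cons 0 1 (SL.cons 0 5 (SL.cons 0 2 (SL.cons 0 1 (SL.cons 0 5 SL.nil)))))) (WtL.cons 4 5 2 WtL.nil)
  (FamL.cons 0 307 199 201 261 1 1 (SL.cons 0 1 (SL.cons 0 1 (SL.cons 0 1 (SL.cons 0 5 (SL.cons 0 2 (SL.cons 0 1 (SL.cons 0 4 (SL.cons 0 1 SL.nil)))))))) (WtL.cons 2 3 0 WtL.nil)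
  (FamL.cons 1 311 66 80 34 0 1 (SL.cons 0 4 (SL.cons 0 1 (SL.cons 0 2 (SL.cons 0 2 (SL.cons 0 9 SL.nil))))) (WtL.cons 4 5 2 WtL.nil)
  (FamL.cons 1 311 245 230 363 1 1 (SL.cons 0 1 (SL.cons 0 3 (SL.cons 0 1 (SL.cons 0 2 (SL.cons 0 2 (SL.cons 0 8 (SL.cons 0 1 SL.nil))))))) (WtL.cons 2 7 0 WtL.nil)
  (FamL.cons 1 313 120 185 142 0 1 (SL.cons 0 2 (SL.cons 0 1 (SL.cons 0 1 (SL.cons 0 1 (SL.cons 0 1 (SL.cons 0 4 (SL.cons 0 5 SL.nil))))))) (WtL.cons 4 7 2 WtL.nil)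
  (FamL.cons 0 313 130 190 158 0 1 (SL.cons 0 2 (SL.cons 0 2 (SL.cons 0 2 (SL.cons 0 4 (SL.cons 0 1 (SL.cons 0 4 SL.nil)))))) (WtL.cons 4 3 2 WtL.nil)
  (FamL.cons 0 313 183 122 143 1 1 (SL.cons 0 1 (SL.cons 0 1 (SL.cons 0 2 (SL.cons 0 2 (SL.cons 0 4 (SL.cons 0 1 (SL.cons 0 3 (SL.cons 0 1 SL.nil)))))))) (WtL.cons 4 3 1 WtL.nil)
  (FamL.cons 1 313 193 127 157 1 1 (SL.cons 0 1 (SL.cons 0 1 (SL.cons 0 1 (SL.cons 0 1 (SL.cons 0 1 (SL.cons 0 1 (SL.cons 0 4 (SL.cons 0 4 (SL.cons 0 1 SL.nil))))))))) (WtL.cons 4 5 2 WtL.nil)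
  (FamL.cons 0 321 31 264 51 1 1 (SL.cons 0 10 (SL.cons 0 2 (SL.cons 0 1 (SL.cons 0 4 (SL.cons 0 1 (SL.cons 0 1 SL.nil)))))) (WtL.cons 4 3 0 WtL.nil)
  (FamL.cons 0 321 76 21 10 0 1 (SL.cons 0 4 (SL.cons 0 4 (SL.cons 0 2 (SL.cons 0 8 SL.nil)))) (WtL.cons 4 3 1 WtL.nil)
  (FamL.cons 0 321 245 299 457 1 1 (SL.cons 0 1 (SL.cons 0 3 (SL.cons 0 4 (SL.cons 0 2 (SL.cons 0 7 (SL.cons 0 1 SL.nil)))))) (WtL.cons 4 17 15 WtL.nil)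
  (FamL.cons 0 321 290 56 102 0 2 (SL.cons 0 1 (SL.cons 0 9 (SL.cons 0 2 (SL.cons 0 1 (SL.cons 0 4 (SL.cons 0 2 SL.nil)))))) (WtL.cons 4 3 0 (WtL.cons 4 5 2 WtL.nil))
  (FamL.cons 0 323 44 66 18 0 2 (SL.cons 0 7 (SL.cons 0 2 (SL.cons 0 1 (SL.cons 0 14 SL.nil)))) (WtL.cons 2 3 0 (WtL.cons 4 11 6 WtL.nil))
  (FamL.cons 0 323 146 148 134 0 1 (SL.cons 0 2 (SL.cons 0 4 (SL.cons 0 1 (SL.cons 0 2 (SL.cons 0 2 (SL.cons 0 4 SL.nil)))))) (WtL.cons 4 3 2 WtL.nil)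
  (FamL.cons 0 323 177 174 191 1 1 (SL.cons 0 1 (SL.cons 0 1 (SL.cons 0 4 (SL.cons 0 1 (SL.cons 0 2 (SL.cons 0 2 (SL.cons 0 3 (SL.cons 0 1 SL.nil)))))))) (WtL.cons 4 31 7 WtL.nil)
  (FamL.cons 0 323 279 256 443 1 1 (SL.cons 0 1 (SL.cons 0 6 (SL.cons 0 2 (SL.cons 0 1 (SL.cons 0 13 (SL.cons 0 1 SL.nil)))))) (WtL.cons 2 3 0 WtL.nil)
  (FamL.cons 1 329 87 240 127 1 0 (SL.cons 0 3 (SL.cons 0 1 (SL.cons 0 3 (SL.cons 0 1 (SL.cons 0 1 (SL.cons 0 2 (SL.cons 0 1 (SL.cons 0 1 (SL.cons 0 1 SL.nil))))))))) WtL.nil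
  (FamL.cons 1 329 101 122 75 1 1 (SL.cons 0 3 (SL.cons 0 3 (SL.cons 0 1 (SL.cons 0 7 (SL.cons 0 1 (SL.cons 0 1 (SL.cons 0 1 SL.nil))))))) (WtL.cons 4 3 0 WtL.nil)
  (FamL.cons 1 329 228 206 286 0 1 (SL.cons 0 1 (SL.cons 0 2 (SL.cons 0 3 (SL.cons 0 1 (SL.cons 0 7 (SL.cons 0 1 (SL.cons 0 2 SL.nil))))))) (WtL.cons 4 7 3 WtL.nil)
  (FamL.cons 1 329 242 88 130 0 1 (SL.cons 0 1 (SL.cons 0 2 (SL.cons 0 1 (SL.cons 0 3 (SL.cons 0 1 (SL.cons 0 1 (SL.cons 0 2 (SL.cons 0 1 (SL.cons 0 2 SL.nil))))))))) (WtL.cons 4 5 0 WtL.nil)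
  (FamL.cons 0 331 75 236 107 1 0 (SL.cons 0 4 (SL.cons 0 2 (SL.cons 0 2 (SL.cons 0 2 (SL.cons 0 1 (SL.cons 0 1 (SL.cons 0 1 (SL.cons 0 1 SL.nil)))))))) WtL.nil
  (FamL.cons 0 331 256 94 146 0 1 (SL.cons 0 1 (SL.cons 0 3 (SL.cons 0 2 (SL.cons 0 2 (SL.cons 0 2 (SL.cons 0 1 (SL.cons 0 1 (SL.cons 0 2 SL.nil)))))))) (WtL.cons 2 3 0 WtL.nil)
  FamL.nil))))))))))))))))))))))

theorem LF11_sv : LF11.all gSv = true := by decide +kernel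

theorem LF11_nm : LF11.all gNm = true := by decide +kernel

theorem LF11_cov : cov LF11 299 17 = true := by decide +kernel

theorem chunk11 {d y : ℕ} (F : FD d y) (hS : Sol d y) (hlo : 299 ≤ y) (hhi : y < 333) :
    H419R2.tb LB d = true :=
  chunk_sound LF11_sv LF11_nm LF11_cov F hS (by omega) hlo (by omega) (by norm_num)

/-- the families with 333 ≤ y < 355 -/
def LF12 : FamL := (FamL.cons 3 337 26 324 50 0 2 (SL.cons 0 12 (SL.cons 0 1 (SL.cons 0 25 SL.nil))) (WtL.cons 4 5 0 (WtL.cons 4 3 0 WtL.nil))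
  (FamL.cons 2 337 141 142 119 1 1 (SL.cons 0 2 (SL.cons 0 2 (SL.cons 0 1 (SL.cons 0 1 (SL.cons 0 3 (SL.cons 0 2 (SL.cons 0 2 (SL.cons 0 1 SL.nil)))))))) (WtL.cons 4 3 2 WtL.nil)
  (FamL.cons 2 337 196 194 226 0 0 (SL.cons 0 1 (SL.cons 0 1 (SL.cons 0 2 (SL.cons 0 1 (SL.cons 0 1 (SL.cons 0 3 (SL.cons 0 2 (SL.cons 0 3 SL.nil)))))))) WtL.nil
  (FamL.cons 3 337 311 12 23 1 3 (SL.cons 0 1 (SL.cons 0 11 (SL.cons 0 1 (SL.cons 0 24 (SL.cons 0 1 SL.nil))))) (WtL.cons 1 0 0 (WtL.cons 4 3 0 (WtL.cons 4 7 0 WtL.nil)))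
  (FamL.cons 0 339 26 13 2 0 3 (SL.cons 0 13 (SL.cons 0 26 SL.nil)) (WtL.cons 2 3 0 (WtL.cons 4 3 0 (WtL.cons 2 11 0 WtL.nil)))
  (FamL.cons 0 339 139 201 165 1 0 (SL.cons 0 2 (SL.cons 0 2 (SL.cons 0 3 (SL.cons 0 1 (SL.cons 0 1 (SL.cons 0 2 (SL.cons 0 2 (SL.cons 0 1 SL.nil)))))))) WtL.nil
  (FamL.cons 0 339 200 137 162 0 1 (SL.cons 0 1 (SL.cons 0 1 (SL.cons 0 2 (SL.cons 0 3 (SL.cons 0 1 (SL.cons 0 1 (SL.cons 0 2 (SL.cons 0 3 SL.nil)))))))) (WtL.cons 4 3 0 WtL.nil)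
  (FamL.cons 0 339 313 325 601 1 2 (SL.cons 0 1 (SL.cons 0 12 (SL.cons 0 25 (SL.cons 0 1 SL.nil)))) (WtL.cons 4 5 1 (WtL.cons 4 3 0 WtL.nil))
  (FamL.cons 1 343 108 111 70 0 1 (SL.cons 0 3 (SL.cons 0 5 (SL.cons 0 1 (SL.cons 0 2 (SL.cons 0 6 SL.nil))))) (WtL.cons 4 3 1 WtL.nil)
  (FamL.cons 1 343 235 231 317 1 1 (SL.cons 0 1 (SL.cons 0 2 (SL.cons 0 5 (SL.cons 0 1 (SL.cons 0 2 (SL.cons 0 5 (SL.cons 0 1 SL.nil))))))) (WtL.cons 4 7 3 WtL.nil)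
  (FamL.cons 0 347 107 102 63 1 1 (SL.cons 0 3 (SL.cons 0 4 (SL.cons 0 8 (SL.cons 0 1 (SL.cons 0 1 (SL.cons 0 1 SL.nil)))))) (WtL.cons 2 3 0 WtL.nil)
  (FamL.cons 0 347 240 244 338 0 1 (SL.cons 0 1 (SL.cons 0 2 (SL.cons 0 4 (SL.cons 0 8 (SL.cons 0 1 (SL.cons 0 2 SL.nil)))))) (WtL.cons 4 3 2 WtL.nil)
  (FamL.cons 0 353 46 69 18 0 2 (SL.cons 0 7 (SL.cons 0 1 (SL.cons 0 2 (SL.cons 0 15 SL.nil)))) (WtL.cons 2 3 0 (WtL.cons 4 3 1 WtL.nil))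
  (FamL.cons 1 353 167 320 303 1 1 (SL.cons 0 2 (SL.cons 0 8 (SL.cons 0 1 (SL.cons 0 3 (SL.cons 0 1 (SL.cons 0 2 (SL.cons 0 1 SL.nil))))))) (WtL.cons 4 3 0 WtL.nil)
  (FamL.cons 1 353 186 32 34 0 1 (SL.cons 0 1 (SL.cons 0 1 (SL.cons 0 8 (SL.cons 0 1 (SL.cons 0 3 (SL.cons 0 1 (SL.cons 0 3 SL.nil))))))) (WtL.cons 2 23 0 WtL.nil)
  (FamL.cons 0 353 307 283 493 1 1 (SL.cons 0 1 (SL.cons 0 6 (SL.cons 0 1 (SL.cons 0 2 (SL.cons 0 14 (SL.cons 0 1 SL.nil)))))) (WtL.cons 4 17 0 WtL.nil)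
  FamL.nil))))))))))))))))

theorem LF12_sv : LF12.all gSv = true := by decide +kernel

theorem LF12_nm : LF12.all gNm = true := by decide +kernel

theorem LF12_cov : cov LF12 333 11 = true := by decide +kernel

theorem chunk12 {d y : ℕ} (F : FD d y) (hS : Sol d y) (hlo : 333 ≤ y) (hhi : y < 355) :
    H419R2.tb LB d = true :=
  chunk_sound LF12_sv LF12_nm LF12_cov F hS (by omega) hlo (by omega) (by norm_num)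

/-- the families with 355 ≤ y < 389 -/
def LF13 : FamL := (FamL.cons 1 359 19 85 9 1 2 (SL.cons 0 18 (SL.cons 0 1 (SL.cons 0 8 (SL.cons 0 1 (SL.cons 0 1 SL.nil))))) (WtL.cons 4 3 0 (WtL.cons 4 7 4 WtL.nil))
  (FamL.cons 1 359 340 273 518 0 2 (SL.cons 0 1 (SL.cons 0 17 (SL.cons 0 1 (SL.cons 0 8 (SL.cons 0 2 SL.nil))))) (WtL.cons 4 7 0 (WtL.cons 4 13 4 WtL.nil))
  (FamL.cons 0 361 63 83 29 1 1 (SL.cons 0 5 (SL.cons 0 1 (SL.cons 0 2 (SL.cons 0 1 (SL.cons 0 2 (SL.cons 0 2 (SL.cons 0 1 (SL.cons 0 1 SL.nil)))))))) (WtL.cons 4 3 1 WtL.nil)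
  (FamL.cons 0 361 298 277 458 0 0 (SL.cons 0 1 (SL.cons 0 4 (SL.cons 0 1 (SL.cons 0 2 (SL.cons 0 1 (SL.cons 0 2 (SL.cons 0 2 (SL.cons 0 2 SL.nil)))))))) WtL.nil
  (FamL.cons 0 363 19 277 29 1 2 (SL.cons 0 19 (SL.cons 0 9 (SL.cons 0 1 (SL.cons 0 1 SL.nil)))) (WtL.cons 4 3 2 (WtL.cons 4 11 2 WtL.nil))
  (FamL.cons 0 363 140 75 58 0 1 (SL.cons 0 2 (SL.cons 0 1 (SL.cons 0 1 (SL.cons 0 2 (SL.cons 0 5 (SL.cons 0 5 SL.nil)))))) (WtL.cons 4 3 1 WtL.nil)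
  (FamL.cons 0 363 223 287 353 1 0 (SL.cons 0 1 (SL.cons 0 1 (SL.cons 0 1 (SL.cons 0 1 (SL.cons 0 2 (SL.cons 0 5 (SL.cons 0 4 (SL.cons 0 1 SL.nil)))))))) WtL.nil
  (FamL.cons 0 363 344 85 162 0 2 (SL.cons 0 1 (SL.cons 0 18 (SL.cons 0 9 (SL.cons 0 2 SL.nil)))) (WtL.cons 4 3 0 (WtL.cons 4 5 0 WtL.nil))
  (FamL.cons 1 367 79 123 53 1 1 (SL.cons 0 4 (SL.cons 0 1 (SL.cons 0 1 (SL.cons 0 1 (SL.cons 0 4 (SL.cons 0 1 (SL.cons 0 1 (SL.cons 0 1 (SL.cons 0 1 SL.nil))))))))) (WtL.cons 4 17 12 WtL.nil)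
  (FamL.cons 1 367 288 243 382 0 0 (SL.cons 0 1 (SL.cons 0 3 (SL.cons 0 1 (SL.cons 0 1 (SL.cons 0 1 (SL.cons 0 4 (SL.cons 0 1 (SL.cons 0 1 (SL.cons 0 2 SL.nil))))))))) WtL.nil
  (FamL.cons 0 369 112 214 130 0 1 (SL.cons 0 3 (SL.cons 0 3 (SL.cons 0 2 (SL.cons 0 1 (SL.cons 0 1 (SL.cons 0 6 SL.nil)))))) (WtL.cons 4 5 0 WtL.nil)
  (FamL.cons 0 369 175 218 207 1 1 (SL.cons 0 2 (SL.cons 0 9 (SL.cons 0 4 (SL.cons 0 1 (SL.cons 0 2 (SL.cons 0 1 SL.nil)))))) (WtL.cons 4 3 0 WtL.nil)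
  (FamL.cons 0 369 194 150 158 0 1 (SL.cons 0 1 (SL.cons 0 1 (SL.cons 0 9 (SL.cons 0 4 (SL.cons 0 1 (SL.cons 0 3 SL.nil)))))) (WtL.cons 4 11 1 WtL.nil)
  (FamL.cons 0 369 257 154 215 1 1 (SL.cons 0 1 (SL.cons 0 2 (SL.cons 0 3 (SL.cons 0 2 (SL.cons 0 1 (SL.cons 0 1 (SL.cons 0 5 (SL.cons 0 1 SL.nil)))))))) (WtL.cons 2 3 0 WtL.nil)
  (FamL.cons 0 379 120 3 2 0 1 (SL.cons 0 3 (SL.cons 0 6 (SL.cons 0 3 (SL.cons 0 6 SL.nil)))) (WtL.cons 1 0 0 WtL.nil)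
  (FamL.cons 0 379 259 375 513 1 0 (SL.cons 0 1 (SL.cons 0 2 (SL.cons 0 6 (SL.cons 0 3 (SL.cons 0 5 (SL.cons 0 1 SL.nil)))))) WtL.nil
  (FamL.cons 1 383 137 141 101 1 1 (SL.cons 0 2 (SL.cons 0 1 (SL.cons 0 3 (SL.cons 0 1 (SL.cons 0 8 (SL.cons 0 2 (SL.cons 0 1 SL.nil))))))) (WtL.cons 4 7 1 WtL.nil)
  (FamL.cons 1 383 246 241 310 0 1 (SL.cons 0 1 (SL.cons 0 1 (SL.cons 0 1 (SL.cons 0 3 (SL.cons 0 1 (SL.cons 0 8 (SL.cons 0 3 SL.nil))))))) (WtL.cons 4 5 0 WtL.nil)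
  (FamL.cons 0 387 59 36 11 1 1 (SL.cons 0 6 (SL.cons 0 1 (SL.cons 0 1 (SL.cons 0 3 (SL.cons 0 1 (SL.cons 0 2 (SL.cons 0 1 (SL.cons 0 1 SL.nil)))))))) (WtL.cons 1 0 0 WtL.nil)
  (FamL.cons 0 387 113 255 149 1 0 (SL.cons 0 3 (SL.cons 0 2 (SL.cons 0 2 (SL.cons 0 1 (SL.cons 0 4 (SL.cons 0 1 (SL.cons 0 1 (SL.cons 0 1 SL.nil)))))))) WtL.nil
  (FamL.cons 0 387 274 131 186 0 1 (SL.cons 0 1 (SL.cons 0 2 (SL.cons 0 2 (SL.cons 0 2 (SL.cons 0 1 (SL.cons 0 4 (SL.cons 0 1 (SL.cons 0 2 SL.nil)))))))) (WtL.cons 4 3 0 WtL.nil)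
  (FamL.cons 0 387 328 350 594 0 0 (SL.cons 0 1 (SL.cons 0 5 (SL.cons 0 1 (SL.cons 0 1 (SL.cons 0 3 (SL.cons 0 1 (SL.cons 0 2 (SL.cons 0 2 SL.nil)))))))) WtL.nil
  FamL.nil))))))))))))))))))))))

theorem LF13_sv : LF13.all gSv = true := by decide +kernel

theorem LF13_nm : LF13.all gNm = true := by decide +kernel

theorem LF13_cov : cov LF13 355 17 = true := by decide +kernel

theorem chunk13 {d y : ℕ} (F : FD d y) (hS : Sol d y) (hlo : 355 ≤ y) (hhi : y < 389) :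
    H419R2.tb LB d = true :=
  chunk_sound LF13_sv LF13_nm LF13_cov F hS (by omega) hlo (by omega) (by norm_num)

/-- the families with 389 ≤ y < 419 -/
def LF14 : FamL := (FamL.cons 1 391 28 377 54 0 2 (SL.cons 0 13 (SL.cons 0 1 (SL.cons 0 27 SL.nil))) (WtL.cons 4 3 0 (WtL.cons 4 5 0 WtL.nil))
  (FamL.cons 1 391 74 132 50 0 1 (SL.cons 0 5 (SL.cons 0 3 (SL.cons 0 1 (SL.cons 0 1 (SL.cons 0 10 SL.nil))))) (WtL.cons 4 5 0 WtL.nil)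
  (FamL.cons 1 391 317 258 419 1 1 (SL.cons 0 1 (SL.cons 0 4 (SL.cons 0 3 (SL.cons 0 1 (SL.cons 0 1 (SL.cons 0 9 (SL.cons 0 1 SL.nil))))))) (WtL.cons 2 7 0 WtL.nil)
  (FamL.cons 1 391 363 13 25 1 3 (SL.cons 0 1 (SL.cons 0 12 (SL.cons 0 1 (SL.cons 0 26 (SL.cons 0 1 SL.nil))))) (WtL.cons 3 1 14 (WtL.cons 4 11 2 (WtL.cons 4 3 1 WtL.nil)))
  (FamL.cons 0 393 28 14 2 0 3 (SL.cons 0 14 (SL.cons 0 28 SL.nil)) (WtL.cons 2 3 0 (WtL.cons 4 11 5 (WtL.cons 4 3 0 WtL.nil)))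
  (FamL.cons 0 393 103 204 107 1 0 (SL.cons 0 3 (SL.cons 0 1 (SL.cons 0 4 (SL.cons 0 2 (SL.cons 0 2 (SL.cons 0 1 (SL.cons 0 1 (SL.cons 0 1 SL.nil)))))))) WtL.nil
  (FamL.cons 0 393 290 188 278 0 1 (SL.cons 0 1 (SL.cons 0 2 (SL.cons 0 1 (SL.cons 0 4 (SL.cons 0 2 (SL.cons 0 2 (SL.cons 0 1 (SL.cons 0 2 SL.nil)))))))) (WtL.cons 2 3 0 WtL.nil)
  (FamL.cons 0 393 365 378 703 1 2 (SL.cons 0 1 (SL.cons 0 13 (SL.cons 0 27 (SL.cons 0 1 SL.nil)))) (WtL.cons 4 3 1 (WtL.cons 4 5 1 WtL.nil))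
  (FamL.cons 1 401 53 208 55 1 1 (SL.cons 0 7 (SL.cons 0 1 (SL.cons 0 1 (SL.cons 0 3 (SL.cons 0 3 (SL.cons 0 1 (SL.cons 0 1 SL.nil))))))) (WtL.cons 4 5 0 WtL.nil)
  (FamL.cons 0 401 143 119 85 1 1 (SL.cons 0 2 (SL.cons 0 1 (SL.cons 0 4 (SL.cons 0 9 (SL.cons 0 2 (SL.cons 0 1 SL.nil)))))) (WtL.cons 4 5 0 WtL.nil)
  (FamL.cons 0 401 258 281 362 0 1 (SL.cons 0 1 (SL.cons 0 1 (SL.cons 0 1 (SL.cons 0 4 (SL.cons 0 9 (SL.cons 0 3 SL.nil)))))) (WtL.cons 4 3 1 WtL.nil)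
  (FamL.cons 1 401 348 192 334 0 1 (SL.cons 0 1 (SL.cons 0 6 (SL.cons 0 1 (SL.cons 0 1 (SL.cons 0 3 (SL.cons 0 3 (SL.cons 0 2 SL.nil))))))) (WtL.cons 4 3 1 WtL.nil)
  (FamL.cons 0 409 35 333 57 1 1 (SL.cons 0 11 (SL.cons 0 1 (SL.cons 0 2 (SL.cons 0 5 (SL.cons 0 1 (SL.cons 0 1 SL.nil)))))) (WtL.cons 2 41 0 WtL.nil)
  (FamL.cons 1 409 97 158 75 1 1 (SL.cons 0 4 (SL.cons 0 4 (SL.cons 0 1 (SL.cons 0 1 (SL.cons 0 1 (SL.cons 0 1 (SL.cons 0 1 (SL.cons 0 1 (SL.cons 0 1 SL.nil))))))))) (WtL.cons 2 7 0 WtL.nil)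
  (FamL.cons 1 409 312 250 382 0 0 (SL.cons 0 1 (SL.cons 0 3 (SL.cons 0 4 (SL.cons 0 1 (SL.cons 0 1 (SL.cons 0 1 (SL.cons 0 1 (SL.cons 0 1 (SL.cons 0 2 SL.nil))))))))) WtL.nil
  (FamL.cons 0 409 374 75 138 0 1 (SL.cons 0 1 (SL.cons 0 10 (SL.cons 0 1 (SL.cons 0 2 (SL.cons 0 5 (SL.cons 0 2 SL.nil)))))) (WtL.cons 4 3 0 WtL.nil)
  (FamL.cons 0 411 86 387 162 0 0 (SL.cons 0 4 (SL.cons 0 1 (SL.cons 0 3 (SL.cons 0 1 (SL.cons 0 1 (SL.cons 0 9 SL.nil)))))) WtL.nil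
  (FamL.cons 0 411 188 343 314 0 0 (SL.cons 0 2 (SL.cons 0 5 (SL.cons 0 2 (SL.cons 0 1 (SL.cons 0 2 (SL.cons 0 4 SL.nil)))))) WtL.nil
  (FamL.cons 0 411 223 67 73 1 1 (SL.cons 0 1 (SL.cons 0 1 (SL.cons 0 5 (SL.cons 0 2 (SL.cons 0 1 (SL.cons 0 2 (SL.cons 0 3 (SL.cons 0 1 SL.nil)))))))) (WtL.cons 4 13 3 WtL.nil)
  (FamL.cons 0 411 325 23 37 1 1 (SL.cons 0 1 (SL.cons 0 3 (SL.cons 0 1 (SL.cons 0 3 (SL.cons 0 1 (SL.cons 0 1 (SL.cons 0 8 (SL.cons 0 1 SL.nil)))))))) (WtL.cons 1 0 0 WtL.nil)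
  (FamL.cons 2 417 50 75 18 0 2 (SL.cons 0 8 (SL.cons 0 2 (SL.cons 0 1 (SL.cons 0 16 SL.nil)))) (WtL.cons 2 3 0 (WtL.cons 2 17 0 WtL.nil))
  (FamL.cons 2 417 89 110 47 1 1 (SL.cons 0 4 (SL.cons 0 1 (SL.cons 0 2 (SL.cons 0 5 (SL.cons 0 1 (SL.cons 0 1 (SL.cons 0 1 (SL.cons 0 1 SL.nil)))))))) (WtL.cons 4 3 1 WtL.nil)
  (FamL.cons 2 417 328 306 482 0 0 (SL.cons 0 1 (SL.cons 0 3 (SL.cons 0 1 (SL.cons 0 2 (SL.cons 0 5 (SL.cons 0 1 (SL.cons 0 1 (SL.cons 0 2 SL.nil)))))))) WtL.nil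
  (FamL.cons 2 417 367 341 601 1 1 (SL.cons 0 1 (SL.cons 0 7 (SL.cons 0 2 (SL.cons 0 1 (SL.cons 0 15 (SL.cons 0 1 SL.nil)))))) (WtL.cons 4 13 2 WtL.nil)
  FamL.nil))))))))))))))))))))))))

theorem LF14_sv : LF14.all gSv = true := by decide +kernel

theorem LF14_nm : LF14.all gNm = true := by decide +kernel

theorem LF14_cov : cov LF14 389 15 = true := by decide +kernel

theorem chunk14 {d y : ℕ} (F : FD d y) (hS : Sol d y) (hlo : 389 ≤ y) (hhi : y < 419) :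
    H419R2.tb LB d = true :=
  chunk_sound LF14_sv LF14_nm LF14_cov F hS (by omega) hlo (by omega) (by norm_num)

/-- the families with 419 ≤ y < 453 -/
def LF15 : FamL := (FamL.cons 0 419 96 109 50 0 1 (SL.cons 0 4 (SL.cons 0 2 (SL.cons 0 1 (SL.cons 0 2 (SL.cons 0 1 (SL.cons 0 8 SL.nil)))))) (WtL.cons 4 3 2 WtL.nil)
  (FamL.cons 0 419 323 309 477 1 1 (SL.cons 0 1 (SL.cons 0 3 (SL.cons 0 2 (SL.cons 0 1 (SL.cons 0 2 (SL.cons 0 1 (SL.cons 0 7 (SL.cons 0 1 SL.nil)))))))) (WtL.cons 2 3 0 WtL.nil)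
  (FamL.cons 1 431 188 25 22 0 1 (SL.cons 0 2 (SL.cons 0 3 (SL.cons 0 2 (SL.cons 0 2 (SL.cons 0 1 (SL.cons 0 1 (SL.cons 0 4 SL.nil))))))) (WtL.cons 1 0 0 WtL.nil)
  (FamL.cons 1 431 243 405 457 1 0 (SL.cons 0 1 (SL.cons 0 1 (SL.cons 0 3 (SL.cons 0 2 (SL.cons 0 2 (SL.cons 0 1 (SL.cons 0 1 (SL.cons 0 3 (SL.cons 0 1 SL.nil))))))))) WtL.nil
  (FamL.cons 0 433 69 298 95 1 0 (SL.cons 0 6 (SL.cons 0 3 (SL.cons 0 1 (SL.cons 0 1 (SL.cons 0 1 (SL.cons 0 2 (SL.cons 0 1 (SL.cons 0 1 SL.nil)))))))) WtL.nil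
  (FamL.cons 1 433 206 149 142 0 1 (SL.cons 0 2 (SL.cons 0 9 (SL.cons 0 1 (SL.cons 0 4 (SL.cons 0 4 SL.nil))))) (WtL.cons 4 13 4 WtL.nil)
  (FamL.cons 1 433 227 283 297 1 1 (SL.cons 0 1 (SL.cons 0 1 (SL.cons 0 9 (SL.cons 0 1 (SL.cons 0 4 (SL.cons 0 3 (SL.cons 0 1 SL.nil))))))) (WtL.cons 4 3 0 WtL.nil)
  (FamL.cons 0 433 364 134 226 0 1 (SL.cons 0 1 (SL.cons 0 5 (SL.cons 0 3 (SL.cons 0 1 (SL.cons 0 1 (SL.cons 0 1 (SL.cons 0 2 (SL.cons 0 2 SL.nil)))))))) (WtL.cons 4 17 5 WtL.nil)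
  (FamL.cons 1 439 21 324 31 1 2 (SL.cons 0 20 (SL.cons 0 1 (SL.cons 0 9 (SL.cons 0 1 (SL.cons 0 1 SL.nil))))) (WtL.cons 2 7 0 (WtL.cons 4 11 6 WtL.nil))
  (FamL.cons 1 439 418 114 218 0 2 (SL.cons 0 1 (SL.cons 0 19 (SL.cons 0 1 (SL.cons 0 9 (SL.cons 0 2 SL.nil))))) (WtL.cons 4 5 3 (WtL.cons 4 7 2 WtL.nil))
  (FamL.cons 0 443 21 116 11 1 2 (SL.cons 0 21 (SL.cons 0 10 (SL.cons 0 1 (SL.cons 0 1 SL.nil)))) (WtL.cons 4 3 1 (WtL.cons 2 3 0 WtL.nil))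
  (FamL.cons 0 443 422 326 622 0 2 (SL.cons 0 1 (SL.cons 0 20 (SL.cons 0 10 (SL.cons 0 2 SL.nil)))) (WtL.cons 4 7 2 (WtL.cons 4 3 2 WtL.nil))
  (FamL.cons 1 449 30 434 58 0 2 (SL.cons 0 14 (SL.cons 0 1 (SL.cons 0 29 SL.nil))) (WtL.cons 4 5 3 (WtL.cons 4 7 6 WtL.nil))
  (FamL.cons 0 449 214 69 66 0 1 (SL.cons 0 2 (SL.cons 0 10 (SL.cons 0 5 (SL.cons 0 4 SL.nil)))) (WtL.cons 4 3 0 WtL.nil)
  (FamL.cons 0 449 235 379 397 1 1 (SL.cons 0 1 (SL.cons 0 1 (SL.cons 0 10 (SL.cons 0 5 (SL.cons 0 3 (SL.cons 0 1 SL.nil)))))) (WtL.cons 4 11 4 WtL.nil)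
  (FamL.cons 1 449 419 14 27 1 3 (SL.cons 0 1 (SL.cons 0 13 (SL.cons 0 1 (SL.cons 0 28 (SL.cons 0 1 SL.nil))))) (WtL.cons 3 1 15 (WtL.cons 4 5 0 (WtL.cons 4 13 0 WtL.nil)))
  (FamL.cons 2 451 30 15 2 0 3 (SL.cons 0 15 (SL.cons 0 30 SL.nil)) (WtL.cons 1 0 0 (WtL.cons 4 3 2 (WtL.cons 4 3 1 WtL.nil)))
  (FamL.cons 2 451 52 78 18 0 2 (SL.cons 0 8 (SL.cons 0 1 (SL.cons 0 2 (SL.cons 0 17 SL.nil)))) (WtL.cons 2 3 0 (WtL.cons 2 3 0 WtL.nil))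
  (FamL.cons 2 451 399 372 659 1 1 (SL.cons 0 1 (SL.cons 0 7 (SL.cons 0 1 (SL.cons 0 2 (SL.cons 0 16 (SL.cons 0 1 SL.nil)))))) (WtL.cons 4 7 2 WtL.nil)
  (FamL.cons 2 451 421 435 813 1 2 (SL.cons 0 1 (SL.cons 0 14 (SL.cons 0 29 (SL.cons 0 1 SL.nil)))) (WtL.cons 4 3 0 (WtL.cons 4 3 2 WtL.nil))
  FamL.nil))))))))))))))))))))

theorem LF15_sv : LF15.all gSv = true := by decide +kernel

theorem LF15_nm : LF15.all gNm = true := by decide +kernel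

theorem LF15_cov : cov LF15 419 17 = true := by decide +kernel

theorem chunk15 {d y : ℕ} (F : FD d y) (hS : Sol d y) (hlo : 419 ≤ y) (hhi : y < 453) :
    H419R2.tb LB d = true :=
  chunk_sound LF15_sv LF15_nm LF15_cov F hS (by omega) hlo (by omega) (by norm_num)

end Pool.Agent.H449
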