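import Pool.Agent.H449.E4

/-! Families with 453 ≤ y < 603. -/

set_option maxRecDepth 100000

namespace Pool.Agent.H449

/-- the families with 453 ≤ y < 489 -/
def LF16 : FamL := (FamL.cons 0 457 37 142 23 1 1 (SL.cons 0 12 (SL.cons 0 2 (SL.cons 0 1 (SL.cons 0 5 (SL.cons 0 1 (SL.cons 0 1 SL.nil)))))) (WtL.cons 2 3 0 WtL.nil)
  (FamL.cons 1 457 80 177 62 0 1 (SL.cons 0 5 (SL.cons 0 1 (SL.cons 0 2 (SL.cons 0 2 (SL.cons 0 11 SL.nil))))) (WtL.cons 4 5 2 WtL.nil)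
  (FamL.cons 1 457 377 279 461 1 1 (SL.cons 0 1 (SL.cons 0 4 (SL.cons 0 1 (SL.cons 0 2 (SL.cons 0 2 (SL.cons 0 10 (SL.cons 0 1 SL.nil))))))) (WtL.cons 2 7 0 WtL.nil)
  (FamL.cons 0 457 420 314 578 0 1 (SL.cons 0 1 (SL.cons 0 11 (SL.cons 0 2 (SL.cons 0 1 (SL.cons 0 5 (SL.cons 0 2 SL.nil)))))) (WtL.cons 4 3 1 WtL.nil)
  (FamL.cons 0 459 194 305 258 0 0 (SL.cons 0 2 (SL.cons 0 2 (SL.cons 0 1 (SL.cons 0 2 (SL.cons 0 1 (SL.cons 0 2 (SL.cons 0 1 (SL.cons 0 4 SL.nil)))))))) WtL.nil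
  (FamL.cons 0 459 211 412 379 1 0 (SL.cons 0 2 (SL.cons 0 5 (SL.cons 0 1 (SL.cons 0 2 (SL.cons 0 2 (SL.cons 0 1 (SL.cons 0 2 (SL.cons 0 1 SL.nil)))))))) WtL.nil
  (FamL.cons 0 459 248 46 50 0 1 (SL.cons 0 1 (SL.cons 0 1 (SL.cons 0 5 (SL.cons 0 1 (SL.cons 0 2 (SL.cons 0 2 (SL.cons 0 1 (SL.cons 0 3 SL.nil)))))))) (WtL.cons 2 19 0 WtL.nil)
  (FamL.cons 0 459 265 153 177 1 1 (SL.cons 0 1 (SL.cons 0 1 (SL.cons 0 2 (SL.cons 0 1 (SL.cons 0 2 (SL.cons 0 1 (SL.cons 0 2 (SL.cons 0 1 (SL.cons 0 3 (SL.cons 0 1 SL.nil)))))))))) (WtL.cons 4 3 0 WtL.nil)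
  (FamL.cons 1 463 203 229 201 1 0 (SL.cons 0 2 (SL.cons 0 3 (SL.cons 0 1 (SL.cons 0 1 (SL.cons 0 3 (SL.cons 0 1 (SL.cons 0 1 (SL.cons 0 2 (SL.cons 0 1 SL.nil))))))))) WtL.nil
  (FamL.cons 1 463 260 233 262 0 0 (SL.cons 0 1 (SL.cons 0 1 (SL.cons 0 3 (SL.cons 0 1 (SL.cons 0 1 (SL.cons 0 3 (SL.cons 0 1 (SL.cons 0 1 (SL.cons 0 3 SL.nil))))))))) WtL.nil
  (FamL.cons 0 467 126 137 74 0 1 (SL.cons 0 3 (SL.cons 0 1 (SL.cons 0 2 (SL.cons 0 2 (SL.cons 0 2 (SL.cons 0 7 SL.nil)))))) (WtL.cons 4 3 1 WtL.nil)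
  (FamL.cons 0 467 341 329 481 1 0 (SL.cons 0 1 (SL.cons 0 2 (SL.cons 0 1 (SL.cons 0 2 (SL.cons 0 2 (SL.cons 0 2 (SL.cons 0 6 (SL.cons 0 1 SL.nil)))))))) WtL.nil
  (FamL.cons 0 473 102 88 38 0 1 (SL.cons 0 4 (SL.cons 0 1 (SL.cons 0 1 (SL.cons 0 1 (SL.cons 0 3 (SL.cons 0 9 SL.nil)))))) (WtL.cons 4 3 2 WtL.nil)
  (FamL.cons 0 473 113 408 195 1 0 (SL.cons 0 4 (SL.cons 0 5 (SL.cons 0 2 (SL.cons 0 1 (SL.cons 0 1 (SL.cons 0 1 (SL.cons 0 1 (SL.cons 0 1 SL.nil)))))))) WtL.nil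
  (FamL.cons 0 473 360 64 98 0 1 (SL.cons 0 1 (SL.cons 0 3 (SL.cons 0 5 (SL.cons 0 2 (SL.cons 0 1 (SL.cons 0 1 (SL.cons 0 1 (SL.cons 0 2 SL.nil)))))))) (WtL.cons 2 3 0 WtL.nil)
  (FamL.cons 0 473 371 384 603 1 0 (SL.cons 0 1 (SL.cons 0 3 (SL.cons 0 1 (SL.cons 0 1 (SL.cons 0 1 (SL.cons 0 3 (SL.cons 0 8 (SL.cons 0 1 SL.nil)))))))) WtL.nil
  (FamL.cons 1 479 187 60 47 1 1 (SL.cons 0 2 (SL.cons 0 1 (SL.cons 0 1 (SL.cons 0 3 (SL.cons 0 1 (SL.cons 0 1 (SL.cons 0 3 (SL.cons 0 2 (SL.cons 0 1 SL.nil))))))))) (WtL.cons 4 7 3 WtL.nil)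
  (FamL.cons 1 479 292 418 510 0 0 (SL.cons 0 1 (SL.cons 0 1 (SL.cons 0 1 (SL.cons 0 1 (SL.cons 0 3 (SL.cons 0 1 (SL.cons 0 1 (SL.cons 0 3 (SL.cons 0 3 SL.nil))))))))) WtL.nil
  (FamL.cons 1 487 91 222 83 1 1 (SL.cons 0 5 (SL.cons 0 2 (SL.cons 0 1 (SL.cons 0 5 (SL.cons 0 2 (SL.cons 0 1 (SL.cons 0 1 SL.nil))))))) (WtL.cons 4 17 3 WtL.nil)
  (FamL.cons 1 487 396 264 430 0 0 (SL.cons 0 1 (SL.cons 0 4 (SL.cons 0 2 (SL.cons 0 1 (SL.cons 0 5 (SL.cons 0 2 (SL.cons 0 2 SL.nil))))))) WtL.nil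
  FamL.nil))))))))))))))))))))

theorem LF16_sv : LF16.all gSv = true := by decide +kernel

theorem LF16_nm : LF16.all gNm = true := by decide +kernel

theorem LF16_cov : cov LF16 453 18 = true := by decide +kernel

theorem chunk16 {d y : ℕ} (F : FD d y) (hS : Sol d y) (hlo : 453 ≤ y) (hhi : y < 489) :
    H419R2.tb LB d = true :=
  chunk_sound LF16_sv LF16_nm LF16_cov F hS (by omega) hlo (by omega) (by norm_num)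

/-- the families with 489 ≤ y < 515 -/
def LF17 : FamL := (FamL.cons 0 489 145 214 127 1 1 (SL.cons 0 3 (SL.cons 0 2 (SL.cons 0 1 (SL.cons 0 2 (SL.cons 0 5 (SL.cons 0 1 (SL.cons 0 1 (SL.cons 0 1 SL.nil)))))))) (WtL.cons 4 11 3 WtL.nil)
  (FamL.cons 0 489 181 220 163 1 1 (SL.cons 0 2 (SL.cons 0 1 (SL.cons 0 2 (SL.cons 0 2 (SL.cons 0 1 (SL.cons 0 5 (SL.cons 0 2 (SL.cons 0 1 SL.nil)))))))) (WtL.cons 4 7 2 WtL.nil)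
  (FamL.cons 0 489 308 268 338 0 0 (SL.cons 0 1 (SL.cons 0 1 (SL.cons 0 1 (SL.cons 0 2 (SL.cons 0 2 (SL.cons 0 1 (SL.cons 0 5 (SL.cons 0 3 SL.nil)))))))) WtL.nil
  (FamL.cons 0 489 344 274 386 0 0 (SL.cons 0 1 (SL.cons 0 2 (SL.cons 0 2 (SL.cons 0 1 (SL.cons 0 2 (SL.cons 0 5 (SL.cons 0 1 (SL.cons 0 2 SL.nil)))))))) WtL.nil
  (FamL.cons 0 491 94 423 162 0 0 (SL.cons 0 5 (SL.cons 0 4 (SL.cons 0 2 (SL.cons 0 10 SL.nil)))) WtL.nil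
  (FamL.cons 0 491 397 67 109 1 1 (SL.cons 0 1 (SL.cons 0 4 (SL.cons 0 4 (SL.cons 0 2 (SL.cons 0 9 (SL.cons 0 1 SL.nil)))))) (WtL.cons 2 11 0 WtL.nil)
  (FamL.cons 1 497 59 21 5 1 1 (SL.cons 0 8 (SL.cons 0 2 (SL.cons 0 2 (SL.cons 0 1 (SL.cons 0 3 (SL.cons 0 1 (SL.cons 0 1 SL.nil))))))) (WtL.cons 1 0 0 WtL.nil)
  (FamL.cons 1 497 130 386 202 0 0 (SL.cons 0 3 (SL.cons 0 1 (SL.cons 0 4 (SL.cons 0 1 (SL.cons 0 1 (SL.cons 0 1 (SL.cons 0 7 SL.nil))))))) WtL.nil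
  (FamL.cons 1 497 367 110 163 1 1 (SL.cons 0 1 (SL.cons 0 2 (SL.cons 0 1 (SL.cons 0 4 (SL.cons 0 1 (SL.cons 0 1 (SL.cons 0 1 (SL.cons 0 6 (SL.cons 0 1 SL.nil))))))))) (WtL.cons 4 11 3 WtL.nil)
  (FamL.cons 1 497 438 475 838 0 0 (SL.cons 0 1 (SL.cons 0 7 (SL.cons 0 2 (SL.cons 0 2 (SL.cons 0 1 (SL.cons 0 3 (SL.cons 0 2 SL.nil))))))) WtL.nil
  (FamL.cons 0 499 67 26 7 1 1 (SL.cons 0 7 (SL.cons 0 2 (SL.cons 0 4 (SL.cons 0 3 (SL.cons 0 1 (SL.cons 0 1 SL.nil)))))) (WtL.cons 1 0 0 WtL.nil)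
  (FamL.cons 0 499 432 472 818 0 0 (SL.cons 0 1 (SL.cons 0 6 (SL.cons 0 2 (SL.cons 0 4 (SL.cons 0 3 (SL.cons 0 2 SL.nil)))))) WtL.nil
  (FamL.cons 1 503 157 466 291 1 0 (SL.cons 0 3 (SL.cons 0 4 (SL.cons 0 1 (SL.cons 0 9 (SL.cons 0 1 (SL.cons 0 1 (SL.cons 0 1 SL.nil))))))) WtL.nil
  (FamL.cons 1 503 346 36 50 0 1 (SL.cons 0 1 (SL.cons 0 2 (SL.cons 0 4 (SL.cons 0 1 (SL.cons 0 9 (SL.cons 0 1 (SL.cons 0 2 SL.nil))))))) (WtL.cons 4 5 0 WtL.nil)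
  (FamL.cons 1 511 32 495 62 0 2 (SL.cons 0 15 (SL.cons 0 1 (SL.cons 0 31 SL.nil))) (WtL.cons 4 17 5 (WtL.cons 4 3 0 WtL.nil))
  (FamL.cons 1 511 178 307 214 0 0 (SL.cons 0 2 (SL.cons 0 1 (SL.cons 0 6 (SL.cons 0 1 (SL.cons 0 2 (SL.cons 0 1 (SL.cons 0 5 SL.nil))))))) WtL.nil
  (FamL.cons 1 511 333 203 265 1 1 (SL.cons 0 1 (SL.cons 0 1 (SL.cons 0 1 (SL.cons 0 6 (SL.cons 0 1 (SL.cons 0 2 (SL.cons 0 1 (SL.cons 0 4 (SL.cons 0 1 SL.nil))))))))) (WtL.cons 4 5 0 WtL.nil)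
  (FamL.cons 1 511 479 15 29 1 3 (SL.cons 0 1 (SL.cons 0 14 (SL.cons 0 1 (SL.cons 0 30 (SL.cons 0 1 SL.nil))))) (WtL.cons 3 1 16 (WtL.cons 4 3 0 (WtL.cons 2 7 0 WtL.nil)))
  (FamL.cons 0 513 32 16 2 0 3 (SL.cons 0 16 (SL.cons 0 32 SL.nil)) (WtL.cons 3 1 16 (WtL.cons 4 3 0 (WtL.cons 4 5 0 WtL.nil)))
  (FamL.cons 0 513 184 471 338 0 0 (SL.cons 0 2 (SL.cons 0 1 (SL.cons 0 3 (SL.cons 0 1 (SL.cons 0 2 (SL.cons 0 1 (SL.cons 0 1 (SL.cons 0 5 SL.nil)))))))) WtL.nil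
  (FamL.cons 0 513 329 41 53 1 1 (SL.cons 0 1 (SL.cons 0 1 (SL.cons 0 1 (SL.cons 0 3 (SL.cons 0 1 (SL.cons 0 2 (SL.cons 0 1 (SL.cons 0 1 (SL.cons 0 4 (SL.cons 0 1 SL.nil)))))))))) (WtL.cons 2 17 0 WtL.nil)
  (FamL.cons 0 513 481 496 931 1 2 (SL.cons 0 1 (SL.cons 0 15 (SL.cons 0 31 (SL.cons 0 1 SL.nil)))) (WtL.cons 4 7 0 (WtL.cons 4 3 0 WtL.nil))
  FamL.nil))))))))))))))))))))))

theorem LF17_sv : LF17.all gSv = true := by decide +kernel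

theorem LF17_nm : LF17.all gNm = true := by decide +kernel

theorem LF17_cov : cov LF17 489 13 = true := by decide +kernel

theorem chunk17 {d y : ℕ} (F : FD d y) (hS : Sol d y) (hlo : 489 ≤ y) (hhi : y < 515) :
    H419R2.tb LB d = true :=
  chunk_sound LF17_sv LF17_nm LF17_cov F hS (by omega) hlo (by omega) (by norm_num)

/-- the families with 515 ≤ y < 539 -/
def LF18 : FamL := (FamL.cons 0 521 163 385 241 1 1 (SL.cons 0 3 (SL.cons 0 5 (SL.cons 0 10 (SL.cons 0 1 (SL.cons 0 1 (SL.cons 0 1 SL.nil)))))) (WtL.cons 4 5 1 WtL.nil)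
  (FamL.cons 1 521 249 277 265 1 1 (SL.cons 0 2 (SL.cons 0 10 (SL.cons 0 1 (SL.cons 0 4 (SL.cons 0 1 (SL.cons 0 2 (SL.cons 0 1 SL.nil))))))) (WtL.cons 4 5 0 WtL.nil)
  (FamL.cons 1 521 272 243 254 0 1 (SL.cons 0 1 (SL.cons 0 1 (SL.cons 0 10 (SL.cons 0 1 (SL.cons 0 4 (SL.cons 0 1 (SL.cons 0 3 SL.nil))))))) (WtL.cons 4 13 10 WtL.nil)
  (FamL.cons 0 521 358 135 186 0 1 (SL.cons 0 1 (SL.cons 0 2 (SL.cons 0 5 (SL.cons 0 10 (SL.cons 0 1 (SL.cons 0 2 SL.nil)))))) (WtL.cons 2 19 0 WtL.nil)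
  (FamL.cons 0 523 56 84 18 0 2 (SL.cons 0 9 (SL.cons 0 2 (SL.cons 0 1 (SL.cons 0 18 SL.nil)))) (WtL.cons 2 3 0 (WtL.cons 4 5 0 WtL.nil))
  (FamL.cons 0 523 467 438 783 1 1 (SL.cons 0 1 (SL.cons 0 8 (SL.cons 0 2 (SL.cons 0 1 (SL.cons 0 17 (SL.cons 0 1 SL.nil)))))) (WtL.cons 2 3 0 WtL.nil)
  (FamL.cons 1 527 23 126 11 1 2 (SL.cons 0 22 (SL.cons 0 1 (SL.cons 0 10 (SL.cons 0 1 (SL.cons 0 1 SL.nil))))) (WtL.cons 4 7 2 (WtL.cons 4 3 0 WtL.nil))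
  (FamL.cons 1 527 147 206 115 1 0 (SL.cons 0 3 (SL.cons 0 1 (SL.cons 0 1 (SL.cons 0 2 (SL.cons 0 2 (SL.cons 0 3 (SL.cons 0 1 (SL.cons 0 1 (SL.cons 0 1 SL.nil))))))))) WtL.nil
  (FamL.cons 1 527 380 320 462 0 0 (SL.cons 0 1 (SL.cons 0 2 (SL.cons 0 1 (SL.cons 0 1 (SL.cons 0 2 (SL.cons 0 2 (SL.cons 0 3 (SL.cons 0 1 (SL.cons 0 2 SL.nil))))))))) WtL.nil
  (FamL.cons 1 527 504 400 766 0 1 (SL.cons 0 1 (SL.cons 0 21 (SL.cons 0 1 (SL.cons 0 10 (SL.cons 0 2 SL.nil))))) (WtL.cons 4 5 1 WtL.nil)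
  (FamL.cons 1 529 156 322 190 0 0 (SL.cons 0 3 (SL.cons 0 2 (SL.cons 0 1 (SL.cons 0 1 (SL.cons 0 3 (SL.cons 0 1 (SL.cons 0 6 SL.nil))))))) WtL.nil
  (FamL.cons 1 529 373 206 291 1 1 (SL.cons 0 1 (SL.cons 0 2 (SL.cons 0 2 (SL.cons 0 1 (SL.cons 0 1 (SL.cons 0 3 (SL.cons 0 1 (SL.cons 0 5 (SL.cons 0 1 SL.nil))))))))) (WtL.cons 4 3 0 WtL.nil)
  (FamL.cons 0 531 23 404 35 1 1 (SL.cons 0 23 (SL.cons 0 11 (SL.cons 0 1 (SL.cons 0 1 SL.nil)))) (WtL.cons 2 3 0 WtL.nil)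
  (FamL.cons 0 531 95 271 97 1 0 (SL.cons 0 5 (SL.cons 0 1 (SL.cons 0 1 (SL.cons 0 2 (SL.cons 0 3 (SL.cons 0 2 (SL.cons 0 1 (SL.cons 0 1 SL.nil)))))))) WtL.nil
  (FamL.cons 0 531 436 259 426 0 0 (SL.cons 0 1 (SL.cons 0 4 (SL.cons 0 1 (SL.cons 0 1 (SL.cons 0 2 (SL.cons 0 3 (SL.cons 0 2 (SL.cons 0 2 SL.nil)))))))) WtL.nil
  (FamL.cons 0 531 508 126 242 0 2 (SL.cons 0 1 (SL.cons 0 22 (SL.cons 0 11 (SL.cons 0 2 SL.nil)))) (WtL.cons 4 7 2 (WtL.cons 4 3 1 WtL.nil))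
  (FamL.cons 0 537 101 77 29 1 1 (SL.cons 0 5 (SL.cons 0 3 (SL.cons 0 6 (SL.cons 0 2 (SL.cons 0 1 (SL.cons 0 1 SL.nil)))))) (WtL.cons 2 3 0 WtL.nil)
  (FamL.cons 0 537 257 519 497 1 0 (SL.cons 0 2 (SL.cons 0 11 (SL.cons 0 5 (SL.cons 0 1 (SL.cons 0 2 (SL.cons 0 1 SL.nil)))))) WtL.nil
  (FamL.cons 0 537 280 17 18 0 1 (SL.cons 0 1 (SL.cons 0 1 (SL.cons 0 11 (SL.cons 0 5 (SL.cons 0 1 (SL.cons 0 3 SL.nil)))))) (WtL.cons 1 0 0 WtL.nil)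
  (FamL.cons 0 537 436 459 746 0 0 (SL.cons 0 1 (SL.cons 0 4 (SL.cons 0 3 (SL.cons 0 6 (SL.cons 0 2 (SL.cons 0 2 SL.nil)))))) WtL.nil
  FamL.nil))))))))))))))))))))

theorem LF18_sv : LF18.all gSv = true := by decide +kernel

theorem LF18_nm : LF18.all gNm = true := by decide +kernel

theorem LF18_cov : cov LF18 515 12 = true := by decide +kernel

theorem chunk18 {d y : ℕ} (F : FD d y) (hS : Sol d y) (hlo : 515 ≤ y) (hhi : y < 539) :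
    H419R2.tb LB d = true :=
  chunk_sound LF18_sv LF18_nm LF18_cov F hS (by omega) hlo (by omega) (by norm_num)

/-- the families with 539 ≤ y < 571 -/
def LF19 : FamL := (FamL.cons 0 547 190 400 278 0 0 (SL.cons 0 2 (SL.cons 0 1 (SL.cons 0 7 (SL.cons 0 3 (SL.cons 0 1 (SL.cons 0 5 SL.nil)))))) WtL.nil
  (FamL.cons 0 547 357 146 191 1 1 (SL.cons 0 1 (SL.cons 0 1 (SL.cons 0 1 (SL.cons 0 7 (SL.cons 0 3 (SL.cons 0 1 (SL.cons 0 4 (SL.cons 0 1 SL.nil)))))))) (WtL.cons 4 3 1 WtL.nil)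
  (FamL.cons 1 553 88 245 78 0 1 (SL.cons 0 6 (SL.cons 0 3 (SL.cons 0 1 (SL.cons 0 1 (SL.cons 0 12 SL.nil))))) (WtL.cons 4 3 0 WtL.nil)
  (FamL.cons 1 553 228 172 142 0 1 (SL.cons 0 2 (SL.cons 0 2 (SL.cons 0 2 (SL.cons 0 1 (SL.cons 0 5 (SL.cons 0 1 (SL.cons 0 4 SL.nil))))))) (WtL.cons 4 5 2 WtL.nil)
  (FamL.cons 1 553 325 380 447 1 0 (SL.cons 0 1 (SL.cons 0 1 (SL.cons 0 2 (SL.cons 0 2 (SL.cons 0 1 (SL.cons 0 5 (SL.cons 0 1 (SL.cons 0 3 (SL.cons 0 1 SL.nil))))))))) WtL.nil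
  (FamL.cons 1 553 465 307 517 1 1 (SL.cons 0 1 (SL.cons 0 5 (SL.cons 0 3 (SL.cons 0 1 (SL.cons 0 1 (SL.cons 0 11 (SL.cons 0 1 SL.nil))))))) (WtL.cons 2 7 0 WtL.nil)
  (FamL.cons 0 561 41 171 25 1 1 (SL.cons 0 13 (SL.cons 0 1 (SL.cons 0 2 (SL.cons 0 6 (SL.cons 0 1 (SL.cons 0 1 SL.nil)))))) (WtL.cons 4 3 1 WtL.nil)
  (FamL.cons 0 561 58 87 18 0 2 (SL.cons 0 9 (SL.cons 0 1 (SL.cons 0 2 (SL.cons 0 19 SL.nil)))) (WtL.cons 2 3 0 (WtL.cons 4 11 6 WtL.nil))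
  (FamL.cons 0 561 146 265 138 0 1 (SL.cons 0 3 (SL.cons 0 1 (SL.cons 0 5 (SL.cons 0 2 (SL.cons 0 1 (SL.cons 0 7 SL.nil)))))) (WtL.cons 4 3 0 WtL.nil)
  (FamL.cons 0 561 245 523 457 1 0 (SL.cons 0 2 (SL.cons 0 3 (SL.cons 0 2 (SL.cons 0 4 (SL.cons 0 1 (SL.cons 0 1 (SL.cons 0 2 (SL.cons 0 1 SL.nil)))))))) WtL.nil
  (FamL.cons 0 561 316 37 42 0 1 (SL.cons 0 1 (SL.cons 0 1 (SL.cons 0 3 (SL.cons 0 2 (SL.cons 0 4 (SL.cons 0 1 (SL.cons 0 1 (SL.cons 0 3 SL.nil)))))))) (WtL.cons 4 3 0 WtL.nil)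
  (FamL.cons 0 561 415 295 437 1 0 (SL.cons 0 1 (SL.cons 0 2 (SL.cons 0 1 (SL.cons 0 5 (SL.cons 0 2 (SL.cons 0 1 (SL.cons 0 6 (SL.cons 0 1 SL.nil)))))))) WtL.nil
  (FamL.cons 0 561 503 473 849 1 1 (SL.cons 0 1 (SL.cons 0 8 (SL.cons 0 1 (SL.cons 0 2 (SL.cons 0 18 (SL.cons 0 1 SL.nil)))))) (WtL.cons 4 3 0 WtL.nil)
  (FamL.cons 0 561 520 389 722 0 1 (SL.cons 0 1 (SL.cons 0 12 (SL.cons 0 1 (SL.cons 0 2 (SL.cons 0 6 (SL.cons 0 2 SL.nil)))))) (WtL.cons 4 3 1 WtL.nil)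
  (FamL.cons 0 563 261 154 143 1 1 (SL.cons 0 2 (SL.cons 0 6 (SL.cons 0 2 (SL.cons 0 1 (SL.cons 0 2 (SL.cons 0 1 (SL.cons 0 2 (SL.cons 0 1 SL.nil)))))))) (WtL.cons 2 3 0 WtL.nil)
  (FamL.cons 0 563 302 408 438 0 0 (SL.cons 0 1 (SL.cons 0 1 (SL.cons 0 6 (SL.cons 0 2 (SL.cons 0 1 (SL.cons 0 2 (SL.cons 0 1 (SL.cons 0 3 SL.nil)))))))) WtL.nil
  (FamL.cons 1 569 201 273 193 1 1 (SL.cons 0 2 (SL.cons 0 1 (SL.cons 0 4 (SL.cons 0 1 (SL.cons 0 10 (SL.cons 0 2 (SL.cons 0 1 SL.nil))))))) (WtL.cons 4 3 1 WtL.nil)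
  (FamL.cons 0 569 216 445 338 0 0 (SL.cons 0 2 (SL.cons 0 1 (SL.cons 0 1 (SL.cons 0 1 (SL.cons 0 2 (SL.cons 0 1 (SL.cons 0 3 (SL.cons 0 5 SL.nil)))))))) WtL.nil
  (FamL.cons 0 569 353 123 153 1 1 (SL.cons 0 1 (SL.cons 0 1 (SL.cons 0 1 (SL.cons 0 1 (SL.cons 0 1 (SL.cons 0 2 (SL.cons 0 1 (SL.cons 0 3 (SL.cons 0 4 (SL.cons 0 1 SL.nil)))))))))) (WtL.cons 2 3 0 WtL.nil)
  (FamL.cons 1 569 368 295 382 0 1 (SL.cons 0 1 (SL.cons 0 1 (SL.cons 0 1 (SL.cons 0 4 (SL.cons 0 1 (SL.cons 0 10 (SL.cons 0 3 SL.nil))))))) (WtL.cons 4 11 1 WtL.nil)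
  FamL.nil))))))))))))))))))))

theorem LF19_sv : LF19.all gSv = true := by decide +kernel

theorem LF19_nm : LF19.all gNm = true := by decide +kernel

theorem LF19_cov : cov LF19 539 16 = true := by decide +kernel

theorem chunk19 {d y : ℕ} (F : FD d y) (hS : Sol d y) (hlo : 539 ≤ y) (hhi : y < 571) :
    H419R2.tb LB d = true :=
  chunk_sound LF19_sv LF19_nm LF19_cov F hS (by omega) hlo (by omega) (by norm_num)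

/-- the families with 571 ≤ y < 603 -/
def LF20 : FamL := (FamL.cons 0 571 153 569 305 1 0 (SL.cons 0 3 (SL.cons 0 1 (SL.cons 0 2 (SL.cons 0 1 (SL.cons 0 2 (SL.cons 0 1 (SL.cons 0 2 (SL.cons 0 1 (SL.cons 0 1 (SL.cons 0 1 SL.nil)))))))))) WtL.nil
  (FamL.cons 0 571 418 1 2 0 1 (SL.cons 0 1 (SL.cons 0 2 (SL.cons 0 1 (SL.cons 0 2 (SL.cons 0 1 (SL.cons 0 2 (SL.cons 0 1 (SL.cons 0 2 (SL.cons 0 1 (SL.cons 0 2 SL.nil)))))))))) (WtL.cons 1 0 0 WtL.nil)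
  (FamL.cons 1 577 34 560 66 0 2 (SL.cons 0 16 (SL.cons 0 1 (SL.cons 0 33 SL.nil))) (WtL.cons 4 3 0 (WtL.cons 4 13 6 WtL.nil))
  (FamL.cons 0 577 239 1 1 1 1 (SL.cons 0 2 (SL.cons 0 2 (SL.cons 0 2 (SL.cons 0 2 (SL.cons 0 2 (SL.cons 0 2 (SL.cons 0 2 (SL.cons 0 1 SL.nil)))))))) (WtL.cons 1 0 0 WtL.nil)
  (FamL.cons 0 577 338 575 674 0 0 (SL.cons 0 1 (SL.cons 0 1 (SL.cons 0 2 (SL.cons 0 2 (SL.cons 0 2 (SL.cons 0 2 (SL.cons 0 2 (SL.cons 0 3 SL.nil)))))))) WtL.nil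
  (FamL.cons 1 577 543 16 31 1 3 (SL.cons 0 1 (SL.cons 0 15 (SL.cons 0 1 (SL.cons 0 32 (SL.cons 0 1 SL.nil))))) (WtL.cons 3 1 17 (WtL.cons 4 5 1 (WtL.cons 4 3 1 WtL.nil)))
  (FamL.cons 0 579 34 17 2 0 3 (SL.cons 0 17 (SL.cons 0 34 SL.nil)) (WtL.cons 3 1 17 (WtL.cons 4 5 0 (WtL.cons 4 3 0 WtL.nil)))
  (FamL.cons 0 579 227 274 215 1 0 (SL.cons 0 2 (SL.cons 0 1 (SL.cons 0 1 (SL.cons 0 4 (SL.cons 0 2 (SL.cons 0 3 (SL.cons 0 2 (SL.cons 0 1 SL.nil)))))))) WtL.nil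
  (FamL.cons 0 579 352 304 370 0 0 (SL.cons 0 1 (SL.cons 0 1 (SL.cons 0 1 (SL.cons 0 1 (SL.cons 0 4 (SL.cons 0 2 (SL.cons 0 3 (SL.cons 0 3 SL.nil)))))))) WtL.nil
  (FamL.cons 0 579 545 561 1057 1 2 (SL.cons 0 1 (SL.cons 0 16 (SL.cons 0 33 (SL.cons 0 1 SL.nil)))) (WtL.cons 4 3 1 (WtL.cons 4 19 0 WtL.nil))
  (FamL.cons 0 587 207 109 77 1 1 (SL.cons 0 2 (SL.cons 0 1 (SL.cons 0 5 (SL.cons 0 11 (SL.cons 0 2 (SL.cons 0 1 SL.nil)))))) (WtL.cons 4 3 2 WtL.nil)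
  (FamL.cons 0 587 380 477 618 0 0 (SL.cons 0 1 (SL.cons 0 1 (SL.cons 0 1 (SL.cons 0 5 (SL.cons 0 11 (SL.cons 0 3 SL.nil)))))) WtL.nil
  (FamL.cons 1 593 142 572 274 0 0 (SL.cons 0 4 (SL.cons 0 5 (SL.cons 0 1 (SL.cons 0 2 (SL.cons 0 8 SL.nil))))) WtL.nil
  (FamL.cons 0 593 260 294 258 0 0 (SL.cons 0 2 (SL.cons 0 3 (SL.cons 0 1 (SL.cons 0 1 (SL.cons 0 3 (SL.cons 0 1 (SL.cons 0 1 (SL.cons 0 4 SL.nil)))))))) WtL.nil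
  (FamL.cons 0 593 333 298 335 1 0 (SL.cons 0 1 (SL.cons 0 1 (SL.cons 0 3 (SL.cons 0 1 (SL.cons 0 1 (SL.cons 0 3 (SL.cons 0 1 (SL.cons 0 1 (SL.cons 0 3 (SL.cons 0 1 SL.nil)))))))))) WtL.nil
  (FamL.cons 1 593 451 20 31 1 1 (SL.cons 0 1 (SL.cons 0 3 (SL.cons 0 5 (SL.cons 0 1 (SL.cons 0 2 (SL.cons 0 7 (SL.cons 0 1 SL.nil))))))) (WtL.cons 1 0 0 WtL.nil)
  (FamL.cons 1 599 166 487 270 0 0 (SL.cons 0 3 (SL.cons 0 1 (SL.cons 0 1 (SL.cons 0 1 (SL.cons 0 1 (SL.cons 0 4 (SL.cons 0 7 SL.nil))))))) WtL.nil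
  (FamL.cons 1 599 433 111 161 1 1 (SL.cons 0 1 (SL.cons 0 2 (SL.cons 0 1 (SL.cons 0 1 (SL.cons 0 1 (SL.cons 0 1 (SL.cons 0 4 (SL.cons 0 6 (SL.cons 0 1 SL.nil))))))))) (WtL.cons 4 7 0 WtL.nil)
  (FamL.cons 0 601 104 468 162 0 0 (SL.cons 0 5 (SL.cons 0 1 (SL.cons 0 3 (SL.cons 0 1 (SL.cons 0 1 (SL.cons 0 11 SL.nil)))))) WtL.nil
  (FamL.cons 1 601 222 257 190 0 0 (SL.cons 0 2 (SL.cons 0 1 (SL.cons 0 2 (SL.cons 0 2 (SL.cons 0 2 (SL.cons 0 2 (SL.cons 0 5 SL.nil))))))) WtL.nil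
  (FamL.cons 1 601 379 343 433 1 0 (SL.cons 0 1 (SL.cons 0 1 (SL.cons 0 1 (SL.cons 0 2 (SL.cons 0 2 (SL.cons 0 2 (SL.cons 0 2 (SL.cons 0 4 (SL.cons 0 1 SL.nil))))))))) WtL.nil
  (FamL.cons 0 601 497 132 219 1 1 (SL.cons 0 1 (SL.cons 0 4 (SL.cons 0 1 (SL.cons 0 3 (SL.cons 0 1 (SL.cons 0 1 (SL.cons 0 10 (SL.cons 0 1 SL.nil)))))))) (WtL.cons 4 3 0 WtL.nil)
  FamL.nil))))))))))))))))))))))

theorem LF20_sv : LF20.all gSv = true := by decide +kernel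

theorem LF20_nm : LF20.all gNm = true := by decide +kernel

theorem LF20_cov : cov LF20 571 16 = true := by decide +kernel

theorem chunk20 {d y : ℕ} (F : FD d y) (hS : Sol d y) (hlo : 571 ≤ y) (hhi : y < 603) :
    H419R2.tb LB d = true :=
  chunk_sound LF20_sv LF20_nm LF20_cov F hS (by omega) hlo (by omega) (by norm_num)

end Pool.Agent.H449
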