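import Pool.Agent.H449.E4

/-! Families with 603 ≤ y < 749. -/

set_option maxRecDepth 100000

namespace Pool.Agent.H449

/-- the families with 603 ≤ y < 629 -/
def LF21 : FamL := (FamL.cons 0 603 221 405 297 1 0 (SL.cons 0 2 (SL.cons 0 1 (SL.cons 0 2 (SL.cons 0 1 (SL.cons 0 2 (SL.cons 0 6 (SL.cons 0 2 (SL.cons 0 1 SL.nil)))))))) WtL.nil
  (FamL.cons 0 603 248 294 242 0 0 (SL.cons 0 2 (SL.cons 0 2 (SL.cons 0 3 (SL.cons 0 6 (SL.cons 0 1 (SL.cons 0 4 SL.nil)))))) WtL.nil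
  (FamL.cons 0 603 355 308 363 1 0 (SL.cons 0 1 (SL.cons 0 1 (SL.cons 0 2 (SL.cons 0 3 (SL.cons 0 6 (SL.cons 0 1 (SL.cons 0 3 (SL.cons 0 1 SL.nil)))))))) WtL.nil
  (FamL.cons 0 603 382 197 250 0 1 (SL.cons 0 1 (SL.cons 0 1 (SL.cons 0 1 (SL.cons 0 2 (SL.cons 0 1 (SL.cons 0 2 (SL.cons 0 6 (SL.cons 0 3 SL.nil)))))))) (WtL.cons 4 5 0 WtL.nil)
  (FamL.cons 1 607 194 28 18 0 1 (SL.cons 0 3 (SL.cons 0 7 (SL.cons 0 1 (SL.cons 0 3 (SL.cons 0 6 SL.nil))))) (WtL.cons 4 3 0 WtL.nil)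
  (FamL.cons 1 607 413 578 787 1 0 (SL.cons 0 1 (SL.cons 0 2 (SL.cons 0 7 (SL.cons 0 1 (SL.cons 0 3 (SL.cons 0 5 (SL.cons 0 1 SL.nil))))))) WtL.nil
  (FamL.cons 0 617 43 495 69 1 1 (SL.cons 0 14 (SL.cons 0 2 (SL.cons 0 1 (SL.cons 0 6 (SL.cons 0 1 (SL.cons 0 1 SL.nil)))))) (WtL.cons 4 3 0 WtL.nil)
  (FamL.cons 1 617 296 598 574 0 0 (SL.cons 0 2 (SL.cons 0 11 (SL.cons 0 1 (SL.cons 0 5 (SL.cons 0 4 SL.nil))))) WtL.nil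
  (FamL.cons 1 617 321 18 19 1 1 (SL.cons 0 1 (SL.cons 0 1 (SL.cons 0 11 (SL.cons 0 1 (SL.cons 0 5 (SL.cons 0 3 (SL.cons 0 1 SL.nil))))))) (WtL.cons 2 7 0 WtL.nil)
  (FamL.cons 0 617 574 121 226 0 1 (SL.cons 0 1 (SL.cons 0 13 (SL.cons 0 2 (SL.cons 0 1 (SL.cons 0 6 (SL.cons 0 2 SL.nil)))))) (WtL.cons 4 19 9 WtL.nil)
  (FamL.cons 0 619 288 363 338 0 0 (SL.cons 0 2 (SL.cons 0 6 (SL.cons 0 1 (SL.cons 0 2 (SL.cons 0 3 (SL.cons 0 4 SL.nil)))))) WtL.nil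
  (FamL.cons 0 619 331 255 273 1 1 (SL.cons 0 1 (SL.cons 0 1 (SL.cons 0 6 (SL.cons 0 1 (SL.cons 0 2 (SL.cons 0 3 (SL.cons 0 3 (SL.cons 0 1 SL.nil)))))))) (WtL.cons 4 3 0 WtL.nil)
  (FamL.cons 1 623 25 461 37 1 1 (SL.cons 0 24 (SL.cons 0 1 (SL.cons 0 11 (SL.cons 0 1 (SL.cons 0 1 SL.nil))))) (WtL.cons 4 11 5 WtL.nil)
  (FamL.cons 1 623 242 543 422 0 0 (SL.cons 0 2 (SL.cons 0 1 (SL.cons 0 1 (SL.cons 0 2 (SL.cons 0 1 (SL.cons 0 6 (SL.cons 0 5 SL.nil))))))) WtL.nil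
  (FamL.cons 1 623 381 79 97 1 1 (SL.cons 0 1 (SL.cons 0 1 (SL.cons 0 1 (SL.cons 0 1 (SL.cons 0 2 (SL.cons 0 1 (SL.cons 0 6 (SL.cons 0 4 (SL.cons 0 1 SL.nil))))))))) (WtL.cons 4 19 4 WtL.nil)
  (FamL.cons 1 623 598 161 310 0 2 (SL.cons 0 1 (SL.cons 0 23 (SL.cons 0 1 (SL.cons 0 11 (SL.cons 0 2 SL.nil))))) (WtL.cons 4 5 0 (WtL.cons 4 3 0 WtL.nil))
  (FamL.cons 0 627 25 163 13 1 2 (SL.cons 0 25 (SL.cons 0 12 (SL.cons 0 1 (SL.cons 0 1 SL.nil)))) (WtL.cons 4 19 7 (WtL.cons 4 3 0 WtL.nil))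
  (FamL.cons 0 627 146 614 286 0 0 (SL.cons 0 4 (SL.cons 0 3 (SL.cons 0 2 (SL.cons 0 1 (SL.cons 0 1 (SL.cons 0 8 SL.nil)))))) WtL.nil
  (FamL.cons 0 627 184 603 354 0 0 (SL.cons 0 3 (SL.cons 0 2 (SL.cons 0 2 (SL.cons 0 4 (SL.cons 0 1 (SL.cons 0 6 SL.nil)))))) WtL.nil
  (FamL.cons 0 627 272 500 434 0 0 (SL.cons 0 2 (SL.cons 0 3 (SL.cons 0 3 (SL.cons 0 1 (SL.cons 0 1 (SL.cons 0 1 (SL.cons 0 1 (SL.cons 0 4 SL.nil)))))))) WtL.nil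
  (FamL.cons 0 627 355 126 143 1 1 (SL.cons 0 1 (SL.cons 0 1 (SL.cons 0 3 (SL.cons 0 3 (SL.cons 0 1 (SL.cons 0 1 (SL.cons 0 1 (SL.cons 0 1 (SL.cons 0 3 (SL.cons 0 1 SL.nil)))))))))) (WtL.cons 4 5 1 WtL.nil)
  (FamL.cons 0 627 443 23 33 1 1 (SL.cons 0 1 (SL.cons 0 2 (SL.cons 0 2 (SL.cons 0 2 (SL.cons 0 4 (SL.cons 0 1 (SL.cons 0 5 (SL.cons 0 1 SL.nil)))))))) (WtL.cons 4 3 0 WtL.nil)
  (FamL.cons 0 627 481 12 19 1 1 (SL.cons 0 1 (SL.cons 0 3 (SL.cons 0 3 (SL.cons 0 2 (SL.cons 0 1 (SL.cons 0 1 (SL.cons 0 7 (SL.cons 0 1 SL.nil)))))))) (WtL.cons 1 0 0 WtL.nil)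
  (FamL.cons 0 627 602 463 890 0 1 (SL.cons 0 1 (SL.cons 0 24 (SL.cons 0 12 (SL.cons 0 2 SL.nil)))) (WtL.cons 2 11 0 WtL.nil)
  FamL.nil))))))))))))))))))))))))

theorem LF21_sv : LF21.all gSv = true := by decide +kernel

theorem LF21_nm : LF21.all gNm = true := by decide +kernel

theorem LF21_cov : cov LF21 603 13 = true := by decide +kernel

theorem chunk21 {d y : ℕ} (F : FD d y) (hS : Sol d y) (hlo : 603 ≤ y) (hhi : y < 629) :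
    H419R2.tb LB d = true :=
  chunk_sound LF21_sv LF21_nm LF21_cov F hS (by omega) hlo (by omega) (by norm_num)

/-- the families with 629 ≤ y < 659 -/
def LF22 : FamL := (FamL.cons 1 631 94 302 90 0 1 (SL.cons 0 6 (SL.cons 0 1 (SL.cons 0 2 (SL.cons 0 2 (SL.cons 0 13 SL.nil))))) (WtL.cons 4 3 0 WtL.nil)
  (FamL.cons 1 631 537 328 559 1 1 (SL.cons 0 1 (SL.cons 0 5 (SL.cons 0 1 (SL.cons 0 2 (SL.cons 0 2 (SL.cons 0 12 (SL.cons 0 1 SL.nil))))))) (WtL.cons 2 7 0 WtL.nil)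
  (FamL.cons 0 633 118 16 6 0 1 (SL.cons 0 5 (SL.cons 0 2 (SL.cons 0 1 (SL.cons 0 2 (SL.cons 0 1 (SL.cons 0 10 SL.nil)))))) (WtL.cons 1 0 0 WtL.nil)
  (FamL.cons 0 633 304 335 322 0 1 (SL.cons 0 2 (SL.cons 0 12 (SL.cons 0 6 (SL.cons 0 4 SL.nil)))) (WtL.cons 4 7 0 WtL.nil)
  (FamL.cons 0 633 329 297 309 1 1 (SL.cons 0 1 (SL.cons 0 1 (SL.cons 0 12 (SL.cons 0 6 (SL.cons 0 3 (SL.cons 0 1 SL.nil)))))) (WtL.cons 4 3 0 WtL.nil)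
  (FamL.cons 0 633 515 616 1003 1 0 (SL.cons 0 1 (SL.cons 0 4 (SL.cons 0 2 (SL.cons 0 1 (SL.cons 0 2 (SL.cons 0 1 (SL.cons 0 9 (SL.cons 0 1 SL.nil)))))))) WtL.nil
  (FamL.cons 0 641 62 93 18 0 2 (SL.cons 0 10 (SL.cons 0 2 (SL.cons 0 1 (SL.cons 0 20 SL.nil)))) (WtL.cons 2 3 0 (WtL.cons 4 13 4 WtL.nil))
  (FamL.cons 1 641 67 43 9 1 1 (SL.cons 0 9 (SL.cons 0 1 (SL.cons 0 1 (SL.cons 0 3 (SL.cons 0 4 (SL.cons 0 1 (SL.cons 0 1 SL.nil))))))) (WtL.cons 4 3 0 WtL.nil)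
  (FamL.cons 1 641 574 597 1070 0 0 (SL.cons 0 1 (SL.cons 0 8 (SL.cons 0 1 (SL.cons 0 1 (SL.cons 0 3 (SL.cons 0 4 (SL.cons 0 2 SL.nil))))))) WtL.nil
  (FamL.cons 0 641 579 547 989 1 1 (SL.cons 0 1 (SL.cons 0 9 (SL.cons 0 2 (SL.cons 0 1 (SL.cons 0 19 (SL.cons 0 1 SL.nil)))))) (WtL.cons 4 3 2 WtL.nil)
  (FamL.cons 0 643 206 184 118 0 1 (SL.cons 0 3 (SL.cons 0 8 (SL.cons 0 4 (SL.cons 0 6 SL.nil)))) (WtL.cons 4 5 3 WtL.nil)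
  (FamL.cons 0 643 437 458 623 1 0 (SL.cons 0 1 (SL.cons 0 2 (SL.cons 0 8 (SL.cons 0 4 (SL.cons 0 5 (SL.cons 0 1 SL.nil)))))) WtL.nil
  (FamL.cons 1 647 36 629 70 0 2 (SL.cons 0 17 (SL.cons 0 1 (SL.cons 0 35 SL.nil))) (WtL.cons 4 5 0 (WtL.cons 4 13 2 WtL.nil))
  (FamL.cons 1 647 611 17 33 1 3 (SL.cons 0 1 (SL.cons 0 16 (SL.cons 0 1 (SL.cons 0 34 (SL.cons 0 1 SL.nil))))) (WtL.cons 3 1 18 (WtL.cons 4 5 0 (WtL.cons 4 17 2 WtL.nil)))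
  (FamL.cons 0 649 36 18 2 0 3 (SL.cons 0 18 (SL.cons 0 36 SL.nil)) (WtL.cons 3 1 18 (WtL.cons 4 3 2 (WtL.cons 4 3 1 WtL.nil)))
  (FamL.cons 0 649 272 613 514 0 0 (SL.cons 0 2 (SL.cons 0 2 (SL.cons 0 1 (SL.cons 0 1 (SL.cons 0 2 (SL.cons 0 3 (SL.cons 0 1 (SL.cons 0 4 SL.nil)))))))) WtL.nil
  (FamL.cons 0 649 377 35 41 1 1 (SL.cons 0 1 (SL.cons 0 1 (SL.cons 0 2 (SL.cons 0 1 (SL.cons 0 1 (SL.cons 0 2 (SL.cons 0 3 (SL.cons 0 1 (SL.cons 0 3 (SL.cons 0 1 SL.nil)))))))))) (WtL.cons 4 3 1 WtL.nil)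
  (FamL.cons 0 649 613 630 1191 1 2 (SL.cons 0 1 (SL.cons 0 17 (SL.cons 0 35 (SL.cons 0 1 SL.nil)))) (WtL.cons 4 3 0 (WtL.cons 4 3 2 WtL.nil))
  (FamL.cons 0 657 85 398 103 1 0 (SL.cons 0 7 (SL.cons 0 1 (SL.cons 0 2 (SL.cons 0 1 (SL.cons 0 2 (SL.cons 0 3 (SL.cons 0 1 (SL.cons 0 1 SL.nil)))))))) WtL.nil
  (FamL.cons 0 657 158 187 90 0 1 (SL.cons 0 4 (SL.cons 0 6 (SL.cons 0 3 (SL.cons 0 8 SL.nil)))) (WtL.cons 4 3 0 WtL.nil)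
  (FamL.cons 0 657 499 469 713 1 0 (SL.cons 0 1 (SL.cons 0 3 (SL.cons 0 6 (SL.cons 0 3 (SL.cons 0 7 (SL.cons 0 1 SL.nil)))))) WtL.nil
  (FamL.cons 0 657 572 258 450 0 1 (SL.cons 0 1 (SL.cons 0 6 (SL.cons 0 1 (SL.cons 0 2 (SL.cons 0 1 (SL.cons 0 2 (SL.cons 0 3 (SL.cons 0 2 SL.nil)))))))) (WtL.cons 2 3 0 WtL.nil)
  FamL.nil))))))))))))))))))))))

theorem LF22_sv : LF22.all gSv = true := by decide +kernel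

theorem LF22_nm : LF22.all gNm = true := by decide +kernel

theorem LF22_cov : cov LF22 629 15 = true := by decide +kernel

theorem chunk22 {d y : ℕ} (F : FD d y) (hS : Sol d y) (hlo : 629 ≤ y) (hhi : y < 659) :
    H419R2.tb LB d = true :=
  chunk_sound LF22_sv LF22_nm LF22_cov F hS (by omega) hlo (by omega) (by norm_num)

/-- the families with 659 ≤ y < 699 -/
def LF23 : FamL := (FamL.cons 0 659 77 338 79 1 0 (SL.cons 0 8 (SL.cons 0 1 (SL.cons 0 1 (SL.cons 0 3 (SL.cons 0 1 (SL.cons 0 3 (SL.cons 0 1 (SL.cons 0 1 SL.nil)))))))) WtL.nil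
  (FamL.cons 0 659 582 320 566 0 0 (SL.cons 0 1 (SL.cons 0 7 (SL.cons 0 1 (SL.cons 0 1 (SL.cons 0 3 (SL.cons 0 1 (SL.cons 0 3 (SL.cons 0 2 SL.nil)))))))) WtL.nil
  (FamL.cons 0 673 262 624 486 0 0 (SL.cons 0 2 (SL.cons 0 1 (SL.cons 0 1 (SL.cons 0 3 (SL.cons 0 7 (SL.cons 0 5 SL.nil)))))) WtL.nil
  (FamL.cons 1 673 283 498 419 1 0 (SL.cons 0 2 (SL.cons 0 2 (SL.cons 0 1 (SL.cons 0 1 (SL.cons 0 1 (SL.cons 0 4 (SL.cons 0 2 (SL.cons 0 2 (SL.cons 0 1 SL.nil))))))))) WtL.nil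
  (FamL.cons 1 673 390 174 202 0 1 (SL.cons 0 1 (SL.cons 0 1 (SL.cons 0 2 (SL.cons 0 1 (SL.cons 0 1 (SL.cons 0 1 (SL.cons 0 4 (SL.cons 0 2 (SL.cons 0 3 SL.nil))))))))) (WtL.cons 2 7 0 WtL.nil)
  (FamL.cons 0 673 411 48 59 1 1 (SL.cons 0 1 (SL.cons 0 1 (SL.cons 0 1 (SL.cons 0 1 (SL.cons 0 3 (SL.cons 0 7 (SL.cons 0 4 (SL.cons 0 1 SL.nil)))))))) (WtL.cons 4 7 3 WtL.nil)
  (FamL.cons 1 679 277 153 125 1 1 (SL.cons 0 2 (SL.cons 0 2 (SL.cons 0 4 (SL.cons 0 1 (SL.cons 0 1 (SL.cons 0 1 (SL.cons 0 2 (SL.cons 0 2 (SL.cons 0 1 SL.nil))))))))) (WtL.cons 2 41 0 WtL.nil)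
  (FamL.cons 1 679 305 248 223 1 0 (SL.cons 0 2 (SL.cons 0 4 (SL.cons 0 2 (SL.cons 0 2 (SL.cons 0 1 (SL.cons 0 1 (SL.cons 0 1 (SL.cons 0 2 (SL.cons 0 1 SL.nil))))))))) WtL.nil
  (FamL.cons 1 679 374 430 474 0 0 (SL.cons 0 1 (SL.cons 0 1 (SL.cons 0 4 (SL.cons 0 2 (SL.cons 0 2 (SL.cons 0 1 (SL.cons 0 1 (SL.cons 0 1 (SL.cons 0 3 SL.nil))))))))) WtL.nil
  (FamL.cons 1 679 402 525 622 0 0 (SL.cons 0 1 (SL.cons 0 1 (SL.cons 0 2 (SL.cons 0 4 (SL.cons 0 1 (SL.cons 0 1 (SL.cons 0 1 (SL.cons 0 2 (SL.cons 0 3 SL.nil))))))))) WtL.nil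
  (FamL.cons 0 681 212 93 58 0 1 (SL.cons 0 3 (SL.cons 0 4 (SL.cons 0 1 (SL.cons 0 2 (SL.cons 0 2 (SL.cons 0 6 SL.nil)))))) (WtL.cons 4 3 1 WtL.nil)
  (FamL.cons 0 681 242 436 310 0 0 (SL.cons 0 2 (SL.cons 0 1 (SL.cons 0 4 (SL.cons 0 2 (SL.cons 0 1 (SL.cons 0 1 (SL.cons 0 1 (SL.cons 0 5 SL.nil)))))))) WtL.nil
  (FamL.cons 0 681 439 244 315 1 0 (SL.cons 0 1 (SL.cons 0 1 (SL.cons 0 1 (SL.cons 0 4 (SL.cons 0 2 (SL.cons 0 1 (SL.cons 0 1 (SL.cons 0 1 (SL.cons 0 4 (SL.cons 0 1 SL.nil)))))))))) WtL.nil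
  (FamL.cons 0 681 469 587 809 1 0 (SL.cons 0 1 (SL.cons 0 2 (SL.cons 0 4 (SL.cons 0 1 (SL.cons 0 2 (SL.cons 0 2 (SL.cons 0 5 (SL.cons 0 1 SL.nil)))))))) WtL.nil
  (FamL.cons 0 683 64 96 18 0 2 (SL.cons 0 10 (SL.cons 0 1 (SL.cons 0 2 (SL.cons 0 21 SL.nil)))) (WtL.cons 2 3 0 (WtL.cons 2 3 0 WtL.nil))
  (FamL.cons 0 683 619 586 1063 1 1 (SL.cons 0 1 (SL.cons 0 9 (SL.cons 0 1 (SL.cons 0 2 (SL.cons 0 20 (SL.cons 0 1 SL.nil)))))) (WtL.cons 4 5 1 WtL.nil)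
  (FamL.cons 0 691 151 382 167 1 0 (SL.cons 0 4 (SL.cons 0 1 (SL.cons 0 1 (SL.cons 0 2 (SL.cons 0 1 (SL.cons 0 3 (SL.cons 0 1 (SL.cons 0 1 (SL.cons 0 1 (SL.cons 0 1 SL.nil)))))))))) WtL.nil
  (FamL.cons 0 691 540 308 482 0 0 (SL.cons 0 1 (SL.cons 0 3 (SL.cons 0 1 (SL.cons 0 1 (SL.cons 0 2 (SL.cons 0 1 (SL.cons 0 3 (SL.cons 0 1 (SL.cons 0 1 (SL.cons 0 2 SL.nil)))))))))) WtL.nil
  (FamL.cons 0 697 112 504 162 0 0 (SL.cons 0 6 (SL.cons 0 4 (SL.cons 0 2 (SL.cons 0 12 SL.nil)))) WtL.nil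
  (FamL.cons 1 697 147 429 181 1 0 (SL.cons 0 4 (SL.cons 0 1 (SL.cons 0 2 (SL.cons 0 1 (SL.cons 0 6 (SL.cons 0 1 (SL.cons 0 1 (SL.cons 0 1 (SL.cons 0 1 SL.nil))))))))) WtL.nil
  (FamL.cons 1 697 181 487 253 1 0 (SL.cons 0 3 (SL.cons 0 1 (SL.cons 0 5 (SL.cons 0 1 (SL.cons 0 2 (SL.cons 0 2 (SL.cons 0 1 (SL.cons 0 1 (SL.cons 0 1 SL.nil))))))))) WtL.nil
  (FamL.cons 0 697 194 528 294 0 0 (SL.cons 0 3 (SL.cons 0 1 (SL.cons 0 1 (SL.cons 0 2 (SL.cons 0 5 (SL.cons 0 7 SL.nil)))))) WtL.nil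
  (FamL.cons 0 697 503 168 243 1 1 (SL.cons 0 1 (SL.cons 0 2 (SL.cons 0 1 (SL.cons 0 1 (SL.cons 0 2 (SL.cons 0 5 (SL.cons 0 6 (SL.cons 0 1 SL.nil)))))))) (WtL.cons 2 3 0 WtL.nil)
  (FamL.cons 1 697 516 209 310 0 1 (SL.cons 0 1 (SL.cons 0 2 (SL.cons 0 1 (SL.cons 0 5 (SL.cons 0 1 (SL.cons 0 2 (SL.cons 0 2 (SL.cons 0 1 (SL.cons 0 2 SL.nil))))))))) (WtL.cons 4 5 0 WtL.nil)
  (FamL.cons 1 697 550 267 422 0 1 (SL.cons 0 1 (SL.cons 0 3 (SL.cons 0 1 (SL.cons 0 2 (SL.cons 0 1 (SL.cons 0 6 (SL.cons 0 1 (SL.cons 0 1 (SL.cons 0 2 SL.nil))))))))) (WtL.cons 4 5 2 WtL.nil)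
  (FamL.cons 0 697 585 192 323 1 1 (SL.cons 0 1 (SL.cons 0 5 (SL.cons 0 4 (SL.cons 0 2 (SL.cons 0 11 (SL.cons 0 1 SL.nil)))))) (WtL.cons 4 17 0 WtL.nil)
  FamL.nil))))))))))))))))))))))))))

theorem LF23_sv : LF23.all gSv = true := by decide +kernel

theorem LF23_nm : LF23.all gNm = true := by decide +kernel

theorem LF23_cov : cov LF23 659 20 = true := by decide +kernel

theorem chunk23 {d y : ℕ} (F : FD d y) (hS : Sol d y) (hlo : 659 ≤ y) (hhi : y < 699) :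
    H419R2.tb LB d = true :=
  chunk_sound LF23_sv LF23_nm LF23_cov F hS (by omega) hlo (by omega) (by norm_num)

/-- the families with 699 ≤ y < 725 -/
def LF24 : FamL := (FamL.cons 0 699 109 638 199 1 0 (SL.cons 0 6 (SL.cons 0 2 (SL.cons 0 2 (SL.cons 0 2 (SL.cons 0 1 (SL.cons 0 2 (SL.cons 0 1 (SL.cons 0 1 SL.nil)))))))) WtL.nil
  (FamL.cons 0 699 124 682 242 0 0 (SL.cons 0 5 (SL.cons 0 1 (SL.cons 0 1 (SL.cons 0 1 (SL.cons 0 3 (SL.cons 0 11 SL.nil)))))) WtL.nil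
  (FamL.cons 0 699 575 16 27 1 1 (SL.cons 0 1 (SL.cons 0 4 (SL.cons 0 1 (SL.cons 0 1 (SL.cons 0 1 (SL.cons 0 3 (SL.cons 0 10 (SL.cons 0 1 SL.nil)))))))) (WtL.cons 1 0 0 WtL.nil)
  (FamL.cons 0 699 590 60 102 0 1 (SL.cons 0 1 (SL.cons 0 5 (SL.cons 0 2 (SL.cons 0 2 (SL.cons 0 2 (SL.cons 0 1 (SL.cons 0 2 (SL.cons 0 2 SL.nil)))))))) (WtL.cons 4 3 0 WtL.nil)
  (FamL.cons 1 713 225 106 67 1 1 (SL.cons 0 3 (SL.cons 0 5 (SL.cons 0 1 (SL.cons 0 11 (SL.cons 0 1 (SL.cons 0 1 (SL.cons 0 1 SL.nil))))))) (WtL.cons 4 19 2 WtL.nil)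
  (FamL.cons 1 713 271 330 251 1 0 (SL.cons 0 2 (SL.cons 0 1 (SL.cons 0 1 (SL.cons 0 1 (SL.cons 0 2 (SL.cons 0 2 (SL.cons 0 4 (SL.cons 0 2 (SL.cons 0 1 SL.nil))))))))) WtL.nil
  (FamL.cons 1 713 442 382 474 0 0 (SL.cons 0 1 (SL.cons 0 1 (SL.cons 0 1 (SL.cons 0 1 (SL.cons 0 1 (SL.cons 0 2 (SL.cons 0 2 (SL.cons 0 4 (SL.cons 0 3 SL.nil))))))))) WtL.nil
  (FamL.cons 1 713 488 606 830 0 0 (SL.cons 0 1 (SL.cons 0 2 (SL.cons 0 5 (SL.cons 0 1 (SL.cons 0 11 (SL.cons 0 1 (SL.cons 0 2 SL.nil))))))) WtL.nil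
  (FamL.cons 1 719 324 397 358 0 0 (SL.cons 0 2 (SL.cons 0 4 (SL.cons 0 1 (SL.cons 0 1 (SL.cons 0 3 (SL.cons 0 2 (SL.cons 0 4 SL.nil))))))) WtL.nil
  (FamL.cons 1 719 395 321 353 1 0 (SL.cons 0 1 (SL.cons 0 1 (SL.cons 0 4 (SL.cons 0 1 (SL.cons 0 1 (SL.cons 0 3 (SL.cons 0 2 (SL.cons 0 3 (SL.cons 0 1 SL.nil))))))))) WtL.nil
  (FamL.cons 1 721 38 702 74 0 1 (SL.cons 0 18 (SL.cons 0 1 (SL.cons 0 37 SL.nil))) (WtL.cons 4 7 4 WtL.nil)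
  (FamL.cons 1 721 347 113 109 1 1 (SL.cons 0 2 (SL.cons 0 12 (SL.cons 0 1 (SL.cons 0 5 (SL.cons 0 1 (SL.cons 0 2 (SL.cons 0 1 SL.nil))))))) (WtL.cons 4 41 8 WtL.nil)
  (FamL.cons 1 721 374 607 630 0 0 (SL.cons 0 1 (SL.cons 0 1 (SL.cons 0 12 (SL.cons 0 1 (SL.cons 0 5 (SL.cons 0 1 (SL.cons 0 3 SL.nil))))))) WtL.nil
  (FamL.cons 1 721 683 18 35 1 2 (SL.cons 0 1 (SL.cons 0 17 (SL.cons 0 1 (SL.cons 0 36 (SL.cons 0 1 SL.nil))))) (WtL.cons 3 1 19 (WtL.cons 4 3 0 WtL.nil))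
  (FamL.cons 0 723 38 19 2 0 2 (SL.cons 0 19 (SL.cons 0 38 SL.nil)) (WtL.cons 2 11 0 (WtL.cons 4 3 0 WtL.nil))
  (FamL.cons 0 723 203 543 305 1 0 (SL.cons 0 3 (SL.cons 0 1 (SL.cons 0 1 (SL.cons 0 3 (SL.cons 0 1 (SL.cons 0 1 (SL.cons 0 3 (SL.cons 0 1 (SL.cons 0 1 (SL.cons 0 1 SL.nil)))))))))) WtL.nil
  (FamL.cons 0 723 520 179 258 0 0 (SL.cons 0 1 (SL.cons 0 2 (SL.cons 0 1 (SL.cons 0 1 (SL.cons 0 3 (SL.cons 0 1 (SL.cons 0 1 (SL.cons 0 3 (SL.cons 0 1 (SL.cons 0 2 SL.nil)))))))))) WtL.nil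
  (FamL.cons 0 723 685 703 1333 1 1 (SL.cons 0 1 (SL.cons 0 18 (SL.cons 0 37 (SL.cons 0 1 SL.nil)))) (WtL.cons 4 11 6 WtL.nil)
  FamL.nil))))))))))))))))))

theorem LF24_sv : LF24.all gSv = true := by decide +kernel

theorem LF24_nm : LF24.all gNm = true := by decide +kernel

theorem LF24_cov : cov LF24 699 13 = true := by decide +kernel

theorem chunk24 {d y : ℕ} (F : FD d y) (hS : Sol d y) (hlo : 699 ≤ y) (hhi : y < 725) :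
    H419R2.tb LB d = true :=
  chunk_sound LF24_sv LF24_nm LF24_cov F hS (by omega) hlo (by omega) (by norm_num)

/-- the families with 725 ≤ y < 749 -/
def LF25 : FamL := (FamL.cons 1 727 27 175 13 1 2 (SL.cons 0 26 (SL.cons 0 1 (SL.cons 0 12 (SL.cons 0 1 (SL.cons 0 1 SL.nil))))) (WtL.cons 4 11 6 (WtL.cons 4 5 2 WtL.nil))
  (FamL.cons 1 727 700 551 1062 0 1 (SL.cons 0 1 (SL.cons 0 25 (SL.cons 0 1 (SL.cons 0 12 (SL.cons 0 2 SL.nil))))) (WtL.cons 4 3 0 WtL.nil)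
  (FamL.cons 0 729 221 239 145 1 1 (SL.cons 0 3 (SL.cons 0 3 (SL.cons 0 2 (SL.cons 0 1 (SL.cons 0 6 (SL.cons 0 1 (SL.cons 0 1 (SL.cons 0 1 SL.nil)))))))) (WtL.cons 4 5 0 WtL.nil)
  (FamL.cons 0 729 508 489 682 0 0 (SL.cons 0 1 (SL.cons 0 2 (SL.cons 0 3 (SL.cons 0 2 (SL.cons 0 1 (SL.cons 0 6 (SL.cons 0 1 (SL.cons 0 2 SL.nil)))))))) WtL.nil
  (FamL.cons 0 731 27 555 41 1 1 (SL.cons 0 27 (SL.cons 0 13 (SL.cons 0 1 (SL.cons 0 1 SL.nil)))) (WtL.cons 2 11 0 WtL.nil)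
  (FamL.cons 0 731 231 378 239 1 1 (SL.cons 0 3 (SL.cons 0 6 (SL.cons 0 12 (SL.cons 0 1 (SL.cons 0 1 (SL.cons 0 1 SL.nil)))))) (WtL.cons 4 7 1 WtL.nil)
  (FamL.cons 0 731 500 352 482 0 1 (SL.cons 0 1 (SL.cons 0 2 (SL.cons 0 6 (SL.cons 0 12 (SL.cons 0 1 (SL.cons 0 2 SL.nil)))))) (WtL.cons 4 3 2 WtL.nil)
  (FamL.cons 0 731 704 175 338 0 2 (SL.cons 0 1 (SL.cons 0 26 (SL.cons 0 13 (SL.cons 0 2 SL.nil)))) (WtL.cons 4 3 2 (WtL.cons 2 3 0 WtL.nil))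
  (FamL.cons 0 737 47 588 75 1 0 (SL.cons 0 15 (SL.cons 0 1 (SL.cons 0 2 (SL.cons 0 7 (SL.cons 0 1 (SL.cons 0 1 SL.nil)))))) WtL.nil
  (FamL.cons 0 737 355 252 243 1 1 (SL.cons 0 2 (SL.cons 0 13 (SL.cons 0 6 (SL.cons 0 1 (SL.cons 0 2 (SL.cons 0 1 SL.nil)))))) (WtL.cons 2 3 0 WtL.nil)
  (FamL.cons 0 737 382 484 502 0 1 (SL.cons 0 1 (SL.cons 0 1 (SL.cons 0 13 (SL.cons 0 6 (SL.cons 0 1 (SL.cons 0 3 SL.nil)))))) (WtL.cons 4 13 8 WtL.nil)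
  (FamL.cons 0 737 690 148 278 0 1 (SL.cons 0 1 (SL.cons 0 14 (SL.cons 0 1 (SL.cons 0 2 (SL.cons 0 7 (SL.cons 0 2 SL.nil)))))) (WtL.cons 4 3 2 WtL.nil)
  (FamL.cons 0 739 346 711 666 0 0 (SL.cons 0 2 (SL.cons 0 7 (SL.cons 0 2 (SL.cons 0 1 (SL.cons 0 3 (SL.cons 0 4 SL.nil)))))) WtL.nil
  (FamL.cons 0 739 393 27 29 1 1 (SL.cons 0 1 (SL.cons 0 1 (SL.cons 0 7 (SL.cons 0 2 (SL.cons 0 1 (SL.cons 0 3 (SL.cons 0 3 (SL.cons 0 1 SL.nil)))))))) (WtL.cons 1 0 0 WtL.nil)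
  (FamL.cons 1 743 102 386 106 0 1 (SL.cons 0 7 (SL.cons 0 3 (SL.cons 0 1 (SL.cons 0 1 (SL.cons 0 14 SL.nil))))) (WtL.cons 4 7 2 WtL.nil)
  (FamL.cons 1 743 641 356 615 1 1 (SL.cons 0 1 (SL.cons 0 6 (SL.cons 0 3 (SL.cons 0 1 (SL.cons 0 1 (SL.cons 0 13 (SL.cons 0 1 SL.nil))))))) (WtL.cons 2 7 0 WtL.nil)
  (FamL.cons 0 747 157 735 309 1 0 (SL.cons 0 4 (SL.cons 0 1 (SL.cons 0 3 (SL.cons 0 7 (SL.cons 0 1 (SL.cons 0 1 (SL.cons 0 1 (SL.cons 0 1 SL.nil)))))))) WtL.nil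
  (FamL.cons 0 747 175 113 53 1 1 (SL.cons 0 4 (SL.cons 0 3 (SL.cons 0 1 (SL.cons 0 2 (SL.cons 0 1 (SL.cons 0 1 (SL.cons 0 1 (SL.cons 0 1 (SL.cons 0 1 (SL.cons 0 1 SL.nil)))))))))) (WtL.cons 4 3 1 WtL.nil)
  (FamL.cons 0 747 572 633 970 0 0 (SL.cons 0 1 (SL.cons 0 3 (SL.cons 0 3 (SL.cons 0 1 (SL.cons 0 2 (SL.cons 0 1 (SL.cons 0 1 (SL.cons 0 1 (SL.cons 0 1 (SL.cons 0 2 SL.nil)))))))))) WtL.nil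
  (FamL.cons 0 747 590 11 18 0 1 (SL.cons 0 1 (SL.cons 0 3 (SL.cons 0 1 (SL.cons 0 3 (SL.cons 0 7 (SL.cons 0 1 (SL.cons 0 1 (SL.cons 0 2 SL.nil)))))))) (WtL.cons 1 0 0 WtL.nil)
  FamL.nil))))))))))))))))))))

theorem LF25_sv : LF25.all gSv = true := by decide +kernel

theorem LF25_nm : LF25.all gNm = true := by decide +kernel

theorem LF25_cov : cov LF25 725 12 = true := by decide +kernel

theorem chunk25 {d y : ℕ} (F : FD d y) (hS : Sol d y) (hlo : 725 ≤ y) (hhi : y < 749) :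
    H419R2.tb LB d = true :=
  chunk_sound LF25_sv LF25_nm LF25_cov F hS (by omega) hlo (by omega) (by norm_num)

end Pool.Agent.H449
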