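import Pool.Agent.H449.E4

/-! Families with 749 ≤ y < 885. -/

set_option maxRecDepth 100000

namespace Pool.Agent.H449

/-- the families with 749 ≤ y < 773 -/
def LF26 : FamL := (FamL.cons 1 751 113 83 25 1 1 (SL.cons 0 6 (SL.cons 0 1 (SL.cons 0 1 (SL.cons 0 1 (SL.cons 0 4 (SL.cons 0 1 (SL.cons 0 2 (SL.cons 0 1 (SL.cons 0 1 SL.nil))))))))) (WtL.cons 4 5 0 WtL.nil)
  (FamL.cons 1 751 638 667 1134 0 0 (SL.cons 0 1 (SL.cons 0 5 (SL.cons 0 1 (SL.cons 0 1 (SL.cons 0 1 (SL.cons 0 4 (SL.cons 0 1 (SL.cons 0 2 (SL.cons 0 2 SL.nil))))))))) WtL.nil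
  (FamL.cons 0 753 91 62 15 1 1 (SL.cons 0 8 (SL.cons 0 3 (SL.cons 0 1 (SL.cons 0 1 (SL.cons 0 1 (SL.cons 0 3 (SL.cons 0 1 (SL.cons 0 1 SL.nil)))))))) (WtL.cons 4 3 0 WtL.nil)
  (FamL.cons 0 753 160 607 258 0 0 (SL.cons 0 4 (SL.cons 0 1 (SL.cons 0 2 (SL.cons 0 2 (SL.cons 0 2 (SL.cons 0 9 SL.nil)))))) WtL.nil
  (FamL.cons 0 753 593 145 229 1 1 (SL.cons 0 1 (SL.cons 0 3 (SL.cons 0 1 (SL.cons 0 2 (SL.cons 0 2 (SL.cons 0 2 (SL.cons 0 8 (SL.cons 0 1 SL.nil)))))))) (WtL.cons 4 5 2 WtL.nil)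
  (FamL.cons 0 753 662 690 1214 0 0 (SL.cons 0 1 (SL.cons 0 7 (SL.cons 0 3 (SL.cons 0 1 (SL.cons 0 1 (SL.cons 0 1 (SL.cons 0 3 (SL.cons 0 2 SL.nil)))))))) WtL.nil
  (FamL.cons 1 761 73 443 85 1 0 (SL.cons 0 10 (SL.cons 0 2 (SL.cons 0 2 (SL.cons 0 1 (SL.cons 0 4 (SL.cons 0 1 (SL.cons 0 1 SL.nil))))))) WtL.nil
  (FamL.cons 0 761 197 419 217 1 0 (SL.cons 0 3 (SL.cons 0 1 (SL.cons 0 6 (SL.cons 0 3 (SL.cons 0 2 (SL.cons 0 1 (SL.cons 0 1 (SL.cons 0 1 SL.nil)))))))) WtL.nil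
  (FamL.cons 0 761 564 341 506 0 0 (SL.cons 0 1 (SL.cons 0 2 (SL.cons 0 1 (SL.cons 0 6 (SL.cons 0 3 (SL.cons 0 2 (SL.cons 0 1 (SL.cons 0 2 SL.nil)))))))) WtL.nil
  (FamL.cons 1 761 688 317 574 0 1 (SL.cons 0 1 (SL.cons 0 9 (SL.cons 0 2 (SL.cons 0 2 (SL.cons 0 1 (SL.cons 0 4 (SL.cons 0 2 SL.nil))))))) (WtL.cons 4 7 0 WtL.nil)
  (FamL.cons 1 769 133 581 201 1 0 (SL.cons 0 5 (SL.cons 0 1 (SL.cons 0 3 (SL.cons 0 1 (SL.cons 0 1 (SL.cons 0 2 (SL.cons 0 2 (SL.cons 0 1 (SL.cons 0 1 SL.nil))))))))) WtL.nil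
  (FamL.cons 0 769 213 258 143 1 0 (SL.cons 0 3 (SL.cons 0 1 (SL.cons 0 1 (SL.cons 0 1 (SL.cons 0 1 (SL.cons 0 3 (SL.cons 0 3 (SL.cons 0 1 (SL.cons 0 1 (SL.cons 0 1 SL.nil)))))))))) WtL.nil
  (FamL.cons 0 769 556 510 738 0 0 (SL.cons 0 1 (SL.cons 0 2 (SL.cons 0 1 (SL.cons 0 1 (SL.cons 0 1 (SL.cons 0 1 (SL.cons 0 3 (SL.cons 0 3 (SL.cons 0 1 (SL.cons 0 2 SL.nil)))))))))) WtL.nil
  (FamL.cons 1 769 636 187 310 0 1 (SL.cons 0 1 (SL.cons 0 4 (SL.cons 0 1 (SL.cons 0 3 (SL.cons 0 1 (SL.cons 0 1 (SL.cons 0 2 (SL.cons 0 2 (SL.cons 0 2 SL.nil))))))))) (WtL.cons 4 5 0 WtL.nil)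
  (FamL.cons 0 771 68 102 18 0 1 (SL.cons 0 11 (SL.cons 0 2 (SL.cons 0 1 (SL.cons 0 22 SL.nil)))) (WtL.cons 2 3 0 WtL.nil)
  (FamL.cons 0 771 325 530 447 1 0 (SL.cons 0 2 (SL.cons 0 2 (SL.cons 0 1 (SL.cons 0 2 (SL.cons 0 5 (SL.cons 0 2 (SL.cons 0 2 (SL.cons 0 1 SL.nil)))))))) WtL.nil
  (FamL.cons 0 771 446 240 278 0 0 (SL.cons 0 1 (SL.cons 0 1 (SL.cons 0 2 (SL.cons 0 1 (SL.cons 0 2 (SL.cons 0 5 (SL.cons 0 2 (SL.cons 0 3 SL.nil)))))))) WtL.nil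
  (FamL.cons 0 771 703 668 1219 1 1 (SL.cons 0 1 (SL.cons 0 10 (SL.cons 0 2 (SL.cons 0 1 (SL.cons 0 21 (SL.cons 0 1 SL.nil)))))) (WtL.cons 4 13 5 WtL.nil)
  FamL.nil))))))))))))))))))

theorem LF26_sv : LF26.all gSv = true := by decide +kernel

theorem LF26_nm : LF26.all gNm = true := by decide +kernel

theorem LF26_cov : cov LF26 749 12 = true := by decide +kernel

theorem chunk26 {d y : ℕ} (F : FD d y) (hS : Sol d y) (hlo : 749 ≤ y) (hhi : y < 773) :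
    H419R2.tb LB d = true :=
  chunk_sound LF26_sv LF26_nm LF26_cov F hS (by omega) hlo (by omega) (by norm_num)

/-- the families with 773 ≤ y < 803 -/
def LF27 : FamL := (FamL.cons 0 779 298 703 538 0 0 (SL.cons 0 2 (SL.cons 0 1 (SL.cons 0 1 (SL.cons 0 1 (SL.cons 0 1 (SL.cons 0 2 (SL.cons 0 4 (SL.cons 0 5 SL.nil)))))))) WtL.nil
  (FamL.cons 0 779 317 291 237 1 0 (SL.cons 0 2 (SL.cons 0 2 (SL.cons 0 5 (SL.cons 0 2 (SL.cons 0 1 (SL.cons 0 2 (SL.cons 0 2 (SL.cons 0 1 SL.nil)))))))) WtL.nil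
  (FamL.cons 0 779 462 487 578 0 0 (SL.cons 0 1 (SL.cons 0 1 (SL.cons 0 2 (SL.cons 0 5 (SL.cons 0 2 (SL.cons 0 1 (SL.cons 0 2 (SL.cons 0 3 SL.nil)))))))) WtL.nil
  (FamL.cons 0 779 481 75 93 1 1 (SL.cons 0 1 (SL.cons 0 1 (SL.cons 0 1 (SL.cons 0 1 (SL.cons 0 1 (SL.cons 0 1 (SL.cons 0 2 (SL.cons 0 4 (SL.cons 0 4 (SL.cons 0 1 SL.nil)))))))))) (WtL.cons 4 3 0 WtL.nil)
  (FamL.cons 0 787 347 484 427 1 0 (SL.cons 0 2 (SL.cons 0 3 (SL.cons 0 1 (SL.cons 0 2 (SL.cons 0 1 (SL.cons 0 2 (SL.cons 0 1 (SL.cons 0 1 (SL.cons 0 2 (SL.cons 0 1 SL.nil)))))))))) WtL.nil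
  (FamL.cons 0 787 440 302 338 0 0 (SL.cons 0 1 (SL.cons 0 1 (SL.cons 0 3 (SL.cons 0 1 (SL.cons 0 2 (SL.cons 0 1 (SL.cons 0 2 (SL.cons 0 1 (SL.cons 0 1 (SL.cons 0 3 SL.nil)))))))))) WtL.nil
  (FamL.cons 1 791 164 188 78 0 1 (SL.cons 0 4 (SL.cons 0 1 (SL.cons 0 4 (SL.cons 0 1 (SL.cons 0 1 (SL.cons 0 1 (SL.cons 0 9 SL.nil))))))) (WtL.cons 4 3 0 WtL.nil)
  (FamL.cons 1 791 277 204 143 1 1 (SL.cons 0 2 (SL.cons 0 1 (SL.cons 0 5 (SL.cons 0 1 (SL.cons 0 12 (SL.cons 0 2 (SL.cons 0 1 SL.nil))))))) (WtL.cons 4 5 3 WtL.nil)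
  (FamL.cons 1 791 514 586 762 0 0 (SL.cons 0 1 (SL.cons 0 1 (SL.cons 0 1 (SL.cons 0 5 (SL.cons 0 1 (SL.cons 0 12 (SL.cons 0 3 SL.nil))))))) WtL.nil
  (FamL.cons 1 791 627 602 955 1 0 (SL.cons 0 1 (SL.cons 0 3 (SL.cons 0 1 (SL.cons 0 4 (SL.cons 0 1 (SL.cons 0 1 (SL.cons 0 1 (SL.cons 0 8 (SL.cons 0 1 SL.nil))))))))) WtL.nil
  (FamL.cons 1 799 40 779 78 0 1 (SL.cons 0 19 (SL.cons 0 1 (SL.cons 0 39 SL.nil))) (WtL.cons 4 3 0 WtL.nil)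
  (FamL.cons 1 799 181 342 155 1 0 (SL.cons 0 4 (SL.cons 0 2 (SL.cons 0 2 (SL.cons 0 2 (SL.cons 0 2 (SL.cons 0 1 (SL.cons 0 1 (SL.cons 0 1 (SL.cons 0 1 SL.nil))))))))) WtL.nil
  (FamL.cons 1 799 618 456 706 0 0 (SL.cons 0 1 (SL.cons 0 3 (SL.cons 0 2 (SL.cons 0 2 (SL.cons 0 2 (SL.cons 0 2 (SL.cons 0 1 (SL.cons 0 1 (SL.cons 0 2 SL.nil))))))))) WtL.nil
  (FamL.cons 1 799 759 19 37 1 2 (SL.cons 0 1 (SL.cons 0 18 (SL.cons 0 1 (SL.cons 0 38 (SL.cons 0 1 SL.nil))))) (WtL.cons 1 0 0 (WtL.cons 4 5 0 WtL.nil))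
  (FamL.cons 0 801 40 20 2 0 2 (SL.cons 0 20 (SL.cons 0 40 SL.nil)) (WtL.cons 3 1 20 (WtL.cons 4 7 1 WtL.nil))
  (FamL.cons 0 801 49 237 29 1 1 (SL.cons 0 16 (SL.cons 0 2 (SL.cons 0 1 (SL.cons 0 7 (SL.cons 0 1 (SL.cons 0 1 SL.nil)))))) (WtL.cons 4 7 4 WtL.nil)
  (FamL.cons 0 801 752 563 1058 0 1 (SL.cons 0 1 (SL.cons 0 15 (SL.cons 0 2 (SL.cons 0 1 (SL.cons 0 7 (SL.cons 0 2 SL.nil)))))) (WtL.cons 4 3 1 WtL.nil)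
  (FamL.cons 0 801 761 780 1483 1 1 (SL.cons 0 1 (SL.cons 0 19 (SL.cons 0 39 (SL.cons 0 1 SL.nil)))) (WtL.cons 4 3 1 WtL.nil)
  FamL.nil))))))))))))))))))

theorem LF27_sv : LF27.all gSv = true := by decide +kernel

theorem LF27_nm : LF27.all gNm = true := by decide +kernel

theorem LF27_cov : cov LF27 773 15 = true := by decide +kernel

theorem chunk27 {d y : ℕ} (F : FD d y) (hS : Sol d y) (hlo : 773 ≤ y) (hhi : y < 803) :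
    H419R2.tb LB d = true :=
  chunk_sound LF27_sv LF27_nm LF27_cov F hS (by omega) hlo (by omega) (by norm_num)

/-- the families with 803 ≤ y < 829 -/
def LF28 : FamL := (FamL.cons 0 803 85 392 83 1 0 (SL.cons 0 9 (SL.cons 0 2 (SL.cons 0 4 (SL.cons 0 4 (SL.cons 0 1 (SL.cons 0 1 SL.nil)))))) WtL.nil
  (FamL.cons 0 803 377 20 19 1 1 (SL.cons 0 2 (SL.cons 0 7 (SL.cons 0 1 (SL.cons 0 2 (SL.cons 0 3 (SL.cons 0 1 (SL.cons 0 2 (SL.cons 0 1 SL.nil)))))))) (WtL.cons 1 0 0 WtL.nil)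
  (FamL.cons 0 803 426 782 830 0 0 (SL.cons 0 1 (SL.cons 0 1 (SL.cons 0 7 (SL.cons 0 1 (SL.cons 0 2 (SL.cons 0 3 (SL.cons 0 1 (SL.cons 0 3 SL.nil)))))))) WtL.nil
  (FamL.cons 0 803 718 410 734 0 0 (SL.cons 0 1 (SL.cons 0 8 (SL.cons 0 2 (SL.cons 0 4 (SL.cons 0 4 (SL.cons 0 2 SL.nil)))))) WtL.nil
  (FamL.cons 1 809 195 338 163 1 0 (SL.cons 0 4 (SL.cons 0 6 (SL.cons 0 1 (SL.cons 0 2 (SL.cons 0 1 (SL.cons 0 1 (SL.cons 0 1 (SL.cons 0 1 (SL.cons 0 1 SL.nil))))))))) WtL.nil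
  (FamL.cons 0 809 283 330 231 1 1 (SL.cons 0 2 (SL.cons 0 1 (SL.cons 0 6 (SL.cons 0 13 (SL.cons 0 2 (SL.cons 0 1 SL.nil)))))) (WtL.cons 4 3 0 WtL.nil)
  (FamL.cons 0 809 526 478 622 0 1 (SL.cons 0 1 (SL.cons 0 1 (SL.cons 0 1 (SL.cons 0 6 (SL.cons 0 13 (SL.cons 0 3 SL.nil)))))) (WtL.cons 4 5 1 WtL.nil)
  (FamL.cons 1 809 614 470 714 0 0 (SL.cons 0 1 (SL.cons 0 3 (SL.cons 0 6 (SL.cons 0 1 (SL.cons 0 2 (SL.cons 0 1 (SL.cons 0 1 (SL.cons 0 1 (SL.cons 0 2 SL.nil))))))))) WtL.nil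
  (FamL.cons 0 811 215 428 227 1 0 (SL.cons 0 3 (SL.cons 0 1 (SL.cons 0 3 (SL.cons 0 2 (SL.cons 0 1 (SL.cons 0 1 (SL.cons 0 2 (SL.cons 0 1 (SL.cons 0 1 (SL.cons 0 1 SL.nil)))))))))) WtL.nil
  (FamL.cons 0 811 596 382 562 0 0 (SL.cons 0 1 (SL.cons 0 2 (SL.cons 0 1 (SL.cons 0 3 (SL.cons 0 2 (SL.cons 0 1 (SL.cons 0 1 (SL.cons 0 2 (SL.cons 0 1 (SL.cons 0 2 SL.nil)))))))))) WtL.nil
  (FamL.cons 0 817 70 105 18 0 1 (SL.cons 0 11 (SL.cons 0 1 (SL.cons 0 2 (SL.cons 0 23 SL.nil)))) (WtL.cons 2 3 0 WtL.nil)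
  (FamL.cons 0 817 317 148 115 1 1 (SL.cons 0 2 (SL.cons 0 1 (SL.cons 0 1 (SL.cons 0 2 (SL.cons 0 1 (SL.cons 0 2 (SL.cons 0 1 (SL.cons 0 3 (SL.cons 0 2 (SL.cons 0 1 SL.nil)))))))))) (WtL.cons 4 5 0 WtL.nil)
  (FamL.cons 0 817 500 668 818 0 0 (SL.cons 0 1 (SL.cons 0 1 (SL.cons 0 1 (SL.cons 0 1 (SL.cons 0 2 (SL.cons 0 1 (SL.cons 0 2 (SL.cons 0 1 (SL.cons 0 3 (SL.cons 0 3 SL.nil)))))))))) WtL.nil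
  (FamL.cons 0 817 747 711 1301 1 1 (SL.cons 0 1 (SL.cons 0 10 (SL.cons 0 1 (SL.cons 0 2 (SL.cons 0 22 (SL.cons 0 1 SL.nil)))))) (WtL.cons 4 7 2 WtL.nil)
  (FamL.cons 1 823 284 449 310 0 0 (SL.cons 0 2 (SL.cons 0 1 (SL.cons 0 8 (SL.cons 0 1 (SL.cons 0 3 (SL.cons 0 1 (SL.cons 0 5 SL.nil))))))) WtL.nil
  (FamL.cons 1 823 539 373 489 1 0 (SL.cons 0 1 (SL.cons 0 1 (SL.cons 0 1 (SL.cons 0 8 (SL.cons 0 1 (SL.cons 0 3 (SL.cons 0 1 (SL.cons 0 4 (SL.cons 0 1 SL.nil))))))))) WtL.nil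
  (FamL.cons 0 827 122 549 162 0 0 (SL.cons 0 6 (SL.cons 0 1 (SL.cons 0 3 (SL.cons 0 1 (SL.cons 0 1 (SL.cons 0 13 SL.nil)))))) WtL.nil
  (FamL.cons 0 827 705 277 473 1 1 (SL.cons 0 1 (SL.cons 0 5 (SL.cons 0 1 (SL.cons 0 3 (SL.cons 0 1 (SL.cons 0 1 (SL.cons 0 12 (SL.cons 0 1 SL.nil)))))))) (WtL.cons 2 3 0 WtL.nil)
  FamL.nil))))))))))))))))))

theorem LF28_sv : LF28.all gSv = true := by decide +kernel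

theorem LF28_nm : LF28.all gNm = true := by decide +kernel

theorem LF28_cov : cov LF28 803 13 = true := by decide +kernel

theorem chunk28 {d y : ℕ} (F : FD d y) (hS : Sol d y) (hlo : 803 ≤ y) (hhi : y < 829) :
    H419R2.tb LB d = true :=
  chunk_sound LF28_sv LF28_nm LF28_cov F hS (by omega) hlo (by omega) (by norm_num)

/-- the families with 829 ≤ y < 859 -/
def LF29 : FamL := (FamL.cons 1 833 108 455 118 0 1 (SL.cons 0 7 (SL.cons 0 1 (SL.cons 0 2 (SL.cons 0 2 (SL.cons 0 15 SL.nil))))) (WtL.cons 4 13 1 WtL.nil)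
  (FamL.cons 1 833 402 495 478 0 1 (SL.cons 0 2 (SL.cons 0 13 (SL.cons 0 1 (SL.cons 0 6 (SL.cons 0 4 SL.nil))))) (WtL.cons 4 3 1 WtL.nil)
  (FamL.cons 1 833 431 337 349 1 1 (SL.cons 0 1 (SL.cons 0 1 (SL.cons 0 13 (SL.cons 0 1 (SL.cons 0 6 (SL.cons 0 3 (SL.cons 0 1 SL.nil))))))) (WtL.cons 4 7 6 WtL.nil)
  (FamL.cons 1 833 725 377 657 1 1 (SL.cons 0 1 (SL.cons 0 6 (SL.cons 0 1 (SL.cons 0 2 (SL.cons 0 2 (SL.cons 0 14 (SL.cons 0 1 SL.nil))))))) (WtL.cons 2 7 0 WtL.nil)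
  (FamL.cons 1 839 29 622 43 1 1 (SL.cons 0 28 (SL.cons 0 1 (SL.cons 0 13 (SL.cons 0 1 (SL.cons 0 1 SL.nil))))) (WtL.cons 4 7 4 WtL.nil)
  (FamL.cons 1 839 810 216 418 0 2 (SL.cons 0 1 (SL.cons 0 27 (SL.cons 0 1 (SL.cons 0 13 (SL.cons 0 2 SL.nil))))) (WtL.cons 4 3 1 (WtL.cons 4 11 3 WtL.nil))
  (FamL.cons 0 843 29 218 15 1 2 (SL.cons 0 29 (SL.cons 0 14 (SL.cons 0 1 (SL.cons 0 1 SL.nil)))) (WtL.cons 4 3 0 (WtL.cons 4 5 1 WtL.nil))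
  (FamL.cons 0 843 310 405 298 0 0 (SL.cons 0 2 (SL.cons 0 1 (SL.cons 0 2 (SL.cons 0 1 (SL.cons 0 1 (SL.cons 0 3 (SL.cons 0 2 (SL.cons 0 5 SL.nil)))))))) WtL.nil
  (FamL.cons 0 843 533 437 553 1 0 (SL.cons 0 1 (SL.cons 0 1 (SL.cons 0 1 (SL.cons 0 2 (SL.cons 0 1 (SL.cons 0 1 (SL.cons 0 3 (SL.cons 0 2 (SL.cons 0 4 (SL.cons 0 1 SL.nil)))))))))) WtL.nil
  (FamL.cons 0 843 814 624 1206 0 1 (SL.cons 0 1 (SL.cons 0 28 (SL.cons 0 14 (SL.cons 0 2 SL.nil)))) (WtL.cons 2 3 0 WtL.nil)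
  (FamL.cons 0 849 127 391 117 1 0 (SL.cons 0 6 (SL.cons 0 1 (SL.cons 0 2 (SL.cons 0 5 (SL.cons 0 1 (SL.cons 0 2 (SL.cons 0 1 (SL.cons 0 1 SL.nil)))))))) WtL.nil
  (FamL.cons 0 849 410 768 742 0 0 (SL.cons 0 2 (SL.cons 0 14 (SL.cons 0 7 (SL.cons 0 4 SL.nil)))) WtL.nil
  (FamL.cons 0 849 439 80 83 1 1 (SL.cons 0 1 (SL.cons 0 1 (SL.cons 0 14 (SL.cons 0 7 (SL.cons 0 3 (SL.cons 0 1 SL.nil)))))) (WtL.cons 4 3 1 WtL.nil)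
  (FamL.cons 0 849 722 457 778 0 0 (SL.cons 0 1 (SL.cons 0 5 (SL.cons 0 1 (SL.cons 0 2 (SL.cons 0 5 (SL.cons 0 1 (SL.cons 0 2 (SL.cons 0 2 SL.nil)))))))) WtL.nil
  (FamL.cons 1 857 163 665 253 1 0 (SL.cons 0 5 (SL.cons 0 3 (SL.cons 0 1 (SL.cons 0 7 (SL.cons 0 2 (SL.cons 0 1 (SL.cons 0 1 SL.nil))))))) WtL.nil
  (FamL.cons 0 857 318 811 602 0 0 (SL.cons 0 2 (SL.cons 0 1 (SL.cons 0 2 (SL.cons 0 3 (SL.cons 0 1 (SL.cons 0 1 (SL.cons 0 2 (SL.cons 0 5 SL.nil)))))))) WtL.nil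
  (FamL.cons 0 857 539 45 57 1 1 (SL.cons 0 1 (SL.cons 0 1 (SL.cons 0 1 (SL.cons 0 2 (SL.cons 0 3 (SL.cons 0 1 (SL.cons 0 1 (SL.cons 0 2 (SL.cons 0 4 (SL.cons 0 1 SL.nil)))))))))) (WtL.cons 4 3 0 WtL.nil)
  (FamL.cons 1 857 694 191 310 0 1 (SL.cons 0 1 (SL.cons 0 4 (SL.cons 0 3 (SL.cons 0 1 (SL.cons 0 7 (SL.cons 0 2 (SL.cons 0 2 SL.nil))))))) (WtL.cons 4 5 0 WtL.nil)
  FamL.nil))))))))))))))))))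

theorem LF29_sv : LF29.all gSv = true := by decide +kernel

theorem LF29_nm : LF29.all gNm = true := by decide +kernel

theorem LF29_cov : cov LF29 829 15 = true := by decide +kernel

theorem chunk29 {d y : ℕ} (F : FD d y) (hS : Sol d y) (hlo : 829 ≤ y) (hhi : y < 859) :
    H419R2.tb LB d = true :=
  chunk_sound LF29_sv LF29_nm LF29_cov F hS (by omega) hlo (by omega) (by norm_num)

/-- the families with 859 ≤ y < 885 -/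
def LF30 : FamL := (FamL.cons 0 859 296 676 466 0 0 (SL.cons 0 2 (SL.cons 0 1 (SL.cons 0 9 (SL.cons 0 4 (SL.cons 0 1 (SL.cons 0 5 SL.nil)))))) WtL.nil
  (FamL.cons 0 859 563 182 239 1 1 (SL.cons 0 1 (SL.cons 0 1 (SL.cons 0 1 (SL.cons 0 9 (SL.cons 0 4 (SL.cons 0 1 (SL.cons 0 4 (SL.cons 0 1 SL.nil)))))))) (WtL.cons 2 3 0 WtL.nil)
  (FamL.cons 1 863 251 813 473 1 0 (SL.cons 0 3 (SL.cons 0 2 (SL.cons 0 3 (SL.cons 0 1 (SL.cons 0 1 (SL.cons 0 4 (SL.cons 0 1 (SL.cons 0 1 (SL.cons 0 1 SL.nil))))))))) WtL.nil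
  (FamL.cons 1 863 612 49 70 0 1 (SL.cons 0 1 (SL.cons 0 2 (SL.cons 0 2 (SL.cons 0 3 (SL.cons 0 1 (SL.cons 0 1 (SL.cons 0 4 (SL.cons 0 1 (SL.cons 0 2 SL.nil))))))))) (WtL.cons 4 5 0 WtL.nil)
  (FamL.cons 0 867 265 381 233 1 0 (SL.cons 0 3 (SL.cons 0 3 (SL.cons 0 1 (SL.cons 0 2 (SL.cons 0 7 (SL.cons 0 1 (SL.cons 0 1 (SL.cons 0 1 SL.nil)))))))) WtL.nil
  (FamL.cons 0 867 313 389 281 1 0 (SL.cons 0 2 (SL.cons 0 1 (SL.cons 0 3 (SL.cons 0 2 (SL.cons 0 1 (SL.cons 0 7 (SL.cons 0 2 (SL.cons 0 1 SL.nil)))))))) WtL.nil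
  (FamL.cons 0 867 554 477 610 0 0 (SL.cons 0 1 (SL.cons 0 1 (SL.cons 0 1 (SL.cons 0 3 (SL.cons 0 2 (SL.cons 0 1 (SL.cons 0 7 (SL.cons 0 3 SL.nil)))))))) WtL.nil
  (FamL.cons 0 867 602 485 674 0 0 (SL.cons 0 1 (SL.cons 0 2 (SL.cons 0 3 (SL.cons 0 1 (SL.cons 0 2 (SL.cons 0 7 (SL.cons 0 1 (SL.cons 0 2 SL.nil)))))))) WtL.nil
  (FamL.cons 0 873 211 726 351 1 0 (SL.cons 0 4 (SL.cons 0 7 (SL.cons 0 3 (SL.cons 0 1 (SL.cons 0 1 (SL.cons 0 1 (SL.cons 0 1 (SL.cons 0 1 SL.nil)))))))) WtL.nil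
  (FamL.cons 0 873 274 653 410 0 0 (SL.cons 0 3 (SL.cons 0 5 (SL.cons 0 2 (SL.cons 0 1 (SL.cons 0 2 (SL.cons 0 6 SL.nil)))))) WtL.nil
  (FamL.cons 0 873 599 219 301 1 1 (SL.cons 0 1 (SL.cons 0 2 (SL.cons 0 5 (SL.cons 0 2 (SL.cons 0 1 (SL.cons 0 2 (SL.cons 0 5 (SL.cons 0 1 SL.nil)))))))) (WtL.cons 4 3 1 WtL.nil)
  (FamL.cons 0 873 662 146 222 0 1 (SL.cons 0 1 (SL.cons 0 3 (SL.cons 0 7 (SL.cons 0 3 (SL.cons 0 1 (SL.cons 0 1 (SL.cons 0 1 (SL.cons 0 2 SL.nil)))))))) (WtL.cons 2 11 0 WtL.nil)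
  (FamL.cons 1 881 42 860 82 0 1 (SL.cons 0 20 (SL.cons 0 1 (SL.cons 0 41 SL.nil))) (WtL.cons 4 11 1 WtL.nil)
  (FamL.cons 0 881 396 2 2 0 1 (SL.cons 0 2 (SL.cons 0 4 (SL.cons 0 2 (SL.cons 0 4 (SL.cons 0 2 (SL.cons 0 4 SL.nil)))))) (WtL.cons 1 0 0 WtL.nil)
  (FamL.cons 0 881 485 878 967 1 0 (SL.cons 0 1 (SL.cons 0 1 (SL.cons 0 4 (SL.cons 0 2 (SL.cons 0 4 (SL.cons 0 2 (SL.cons 0 3 (SL.cons 0 1 SL.nil)))))))) WtL.nil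
  (FamL.cons 1 881 839 20 39 1 2 (SL.cons 0 1 (SL.cons 0 19 (SL.cons 0 1 (SL.cons 0 40 (SL.cons 0 1 SL.nil))))) (WtL.cons 3 1 21 (WtL.cons 4 13 7 WtL.nil))
  (FamL.cons 0 883 42 21 2 0 2 (SL.cons 0 21 (SL.cons 0 42 SL.nil)) (WtL.cons 3 1 21 (WtL.cons 4 3 2 WtL.nil))
  (FamL.cons 0 883 841 861 1641 1 1 (SL.cons 0 1 (SL.cons 0 20 (SL.cons 0 41 (SL.cons 0 1 SL.nil)))) (WtL.cons 4 3 0 WtL.nil)
  FamL.nil))))))))))))))))))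

theorem LF30_sv : LF30.all gSv = true := by decide +kernel

theorem LF30_nm : LF30.all gNm = true := by decide +kernel

theorem LF30_cov : cov LF30 859 13 = true := by decide +kernel

theorem chunk30 {d y : ℕ} (F : FD d y) (hS : Sol d y) (hlo : 859 ≤ y) (hhi : y < 885) :
    H419R2.tb LB d = true :=
  chunk_sound LF30_sv LF30_nm LF30_cov F hS (by omega) hlo (by omega) (by norm_num)

end Pool.Agent.H449
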