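import Pool.Agent.H449.E4

/-! Families with 885 ≤ y < 1001. -/

set_option maxRecDepth 100000

namespace Pool.Agent.H449

/-- the families with 885 ≤ y < 915 -/
def LF31 : FamL := (FamL.cons 1 887 202 338 154 0 0 (SL.cons 0 4 (SL.cons 0 2 (SL.cons 0 1 (SL.cons 0 1 (SL.cons 0 3 (SL.cons 0 1 (SL.cons 0 8 SL.nil))))))) WtL.nil
  (FamL.cons 1 887 685 548 847 1 0 (SL.cons 0 1 (SL.cons 0 3 (SL.cons 0 2 (SL.cons 0 1 (SL.cons 0 1 (SL.cons 0 3 (SL.cons 0 1 (SL.cons 0 7 (SL.cons 0 1 SL.nil))))))))) WtL.nil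
  (FamL.cons 1 889 143 289 93 1 0 (SL.cons 0 6 (SL.cons 0 4 (SL.cons 0 1 (SL.cons 0 1 (SL.cons 0 1 (SL.cons 0 1 (SL.cons 0 2 (SL.cons 0 1 (SL.cons 0 1 SL.nil))))))))) WtL.nil
  (FamL.cons 1 889 270 688 418 0 0 (SL.cons 0 3 (SL.cons 0 3 (SL.cons 0 2 (SL.cons 0 2 (SL.cons 0 1 (SL.cons 0 1 (SL.cons 0 6 SL.nil))))))) WtL.nil
  (FamL.cons 1 889 619 200 279 1 1 (SL.cons 0 1 (SL.cons 0 2 (SL.cons 0 3 (SL.cons 0 2 (SL.cons 0 2 (SL.cons 0 1 (SL.cons 0 1 (SL.cons 0 5 (SL.cons 0 1 SL.nil))))))))) (WtL.cons 4 3 0 WtL.nil)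
  (FamL.cons 1 889 746 599 1006 0 0 (SL.cons 0 1 (SL.cons 0 5 (SL.cons 0 4 (SL.cons 0 1 (SL.cons 0 1 (SL.cons 0 1 (SL.cons 0 1 (SL.cons 0 2 (SL.cons 0 2 SL.nil))))))))) WtL.nil
  (FamL.cons 0 891 140 770 242 0 0 (SL.cons 0 6 (SL.cons 0 2 (SL.cons 0 1 (SL.cons 0 2 (SL.cons 0 1 (SL.cons 0 12 SL.nil)))))) WtL.nil
  (FamL.cons 0 891 184 857 354 0 0 (SL.cons 0 4 (SL.cons 0 1 (SL.cons 0 5 (SL.cons 0 2 (SL.cons 0 1 (SL.cons 0 9 SL.nil)))))) WtL.nil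
  (FamL.cons 0 891 707 33 53 1 1 (SL.cons 0 1 (SL.cons 0 3 (SL.cons 0 1 (SL.cons 0 5 (SL.cons 0 2 (SL.cons 0 1 (SL.cons 0 8 (SL.cons 0 1 SL.nil)))))))) (WtL.cons 1 0 0 WtL.nil)
  (FamL.cons 0 891 751 120 203 1 1 (SL.cons 0 1 (SL.cons 0 5 (SL.cons 0 2 (SL.cons 0 1 (SL.cons 0 2 (SL.cons 0 1 (SL.cons 0 11 (SL.cons 0 1 SL.nil)))))))) (WtL.cons 4 7 0 WtL.nil)
  (FamL.cons 0 907 173 747 285 1 0 (SL.cons 0 5 (SL.cons 0 4 (SL.cons 0 8 (SL.cons 0 2 (SL.cons 0 1 (SL.cons 0 1 SL.nil)))))) WtL.nil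
  (FamL.cons 0 907 734 159 258 0 1 (SL.cons 0 1 (SL.cons 0 4 (SL.cons 0 4 (SL.cons 0 8 (SL.cons 0 2 (SL.cons 0 2 SL.nil)))))) (WtL.cons 4 3 0 WtL.nil)
  (FamL.cons 1 911 176 326 126 0 1 (SL.cons 0 5 (SL.cons 0 5 (SL.cons 0 1 (SL.cons 0 2 (SL.cons 0 10 SL.nil))))) (WtL.cons 4 3 0 WtL.nil)
  (FamL.cons 1 911 735 584 943 1 0 (SL.cons 0 1 (SL.cons 0 4 (SL.cons 0 5 (SL.cons 0 1 (SL.cons 0 2 (SL.cons 0 9 (SL.cons 0 1 SL.nil))))))) WtL.nil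
  (FamL.cons 0 913 74 111 18 0 1 (SL.cons 0 12 (SL.cons 0 2 (SL.cons 0 1 (SL.cons 0 24 SL.nil)))) (WtL.cons 2 3 0 WtL.nil)
  (FamL.cons 0 913 157 375 129 1 0 (SL.cons 0 5 (SL.cons 0 1 (SL.cons 0 4 (SL.cons 0 2 (SL.cons 0 2 (SL.cons 0 2 (SL.cons 0 1 (SL.cons 0 1 SL.nil)))))))) WtL.nil
  (FamL.cons 0 913 756 537 890 0 0 (SL.cons 0 1 (SL.cons 0 4 (SL.cons 0 1 (SL.cons 0 4 (SL.cons 0 2 (SL.cons 0 2 (SL.cons 0 2 (SL.cons 0 2 SL.nil)))))))) WtL.nil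
  (FamL.cons 0 913 839 801 1473 1 1 (SL.cons 0 1 (SL.cons 0 11 (SL.cons 0 2 (SL.cons 0 1 (SL.cons 0 23 (SL.cons 0 1 SL.nil)))))) (WtL.cons 4 3 0 WtL.nil)
  FamL.nil))))))))))))))))))

theorem LF31_sv : LF31.all gSv = true := by decide +kernel

theorem LF31_nm : LF31.all gNm = true := by decide +kernel

theorem LF31_cov : cov LF31 885 15 = true := by decide +kernel

theorem chunk31 {d y : ℕ} (F : FD d y) (hS : Sol d y) (hlo : 885 ≤ y) (hhi : y < 915) :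
    H419R2.tb LB d = true :=
  chunk_sound LF31_sv LF31_nm LF31_cov F hS (by omega) hlo (by omega) (by norm_num)

/-- the families with 915 ≤ y < 941 -/
def LF32 : FamL := (FamL.cons 1 919 125 158 43 1 1 (SL.cons 0 7 (SL.cons 0 2 (SL.cons 0 1 (SL.cons 0 5 (SL.cons 0 3 (SL.cons 0 1 (SL.cons 0 1 SL.nil))))))) (WtL.cons 4 11 5 WtL.nil)
  (FamL.cons 1 919 794 760 1314 0 0 (SL.cons 0 1 (SL.cons 0 6 (SL.cons 0 2 (SL.cons 0 1 (SL.cons 0 5 (SL.cons 0 3 (SL.cons 0 2 SL.nil))))))) WtL.nil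
  (FamL.cons 0 921 199 67 29 1 1 (SL.cons 0 4 (SL.cons 0 1 (SL.cons 0 1 (SL.cons 0 1 (SL.cons 0 2 (SL.cons 0 4 (SL.cons 0 1 (SL.cons 0 1 (SL.cons 0 1 (SL.cons 0 1 SL.nil)))))))))) (WtL.cons 2 3 0 WtL.nil)
  (FamL.cons 0 921 415 751 677 1 0 (SL.cons 0 2 (SL.cons 0 4 (SL.cons 0 1 (SL.cons 0 1 (SL.cons 0 3 (SL.cons 0 1 (SL.cons 0 1 (SL.cons 0 1 (SL.cons 0 2 (SL.cons 0 1 SL.nil)))))))))) WtL.nil
  (FamL.cons 0 921 506 169 186 0 1 (SL.cons 0 1 (SL.cons 0 1 (SL.cons 0 4 (SL.cons 0 1 (SL.cons 0 1 (SL.cons 0 3 (SL.cons 0 1 (SL.cons 0 1 (SL.cons 0 1 (SL.cons 0 3 SL.nil)))))))))) (WtL.cons 4 3 0 WtL.nil)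
  (FamL.cons 0 921 722 853 1338 0 0 (SL.cons 0 1 (SL.cons 0 3 (SL.cons 0 1 (SL.cons 0 1 (SL.cons 0 1 (SL.cons 0 2 (SL.cons 0 4 (SL.cons 0 1 (SL.cons 0 1 (SL.cons 0 2 SL.nil)))))))))) WtL.nil
  (FamL.cons 1 929 240 925 478 0 0 (SL.cons 0 3 (SL.cons 0 1 (SL.cons 0 6 (SL.cons 0 1 (SL.cons 0 2 (SL.cons 0 1 (SL.cons 0 7 SL.nil))))))) WtL.nil
  (FamL.cons 0 929 276 84 50 0 1 (SL.cons 0 3 (SL.cons 0 2 (SL.cons 0 1 (SL.cons 0 2 (SL.cons 0 1 (SL.cons 0 2 (SL.cons 0 1 (SL.cons 0 6 SL.nil)))))))) (WtL.cons 4 5 0 WtL.nil)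
  (FamL.cons 0 929 653 844 1187 1 0 (SL.cons 0 1 (SL.cons 0 2 (SL.cons 0 2 (SL.cons 0 1 (SL.cons 0 2 (SL.cons 0 1 (SL.cons 0 2 (SL.cons 0 1 (SL.cons 0 5 (SL.cons 0 1 SL.nil)))))))))) WtL.nil
  (FamL.cons 1 929 689 3 5 1 1 (SL.cons 0 1 (SL.cons 0 2 (SL.cons 0 1 (SL.cons 0 6 (SL.cons 0 1 (SL.cons 0 2 (SL.cons 0 1 (SL.cons 0 6 (SL.cons 0 1 SL.nil))))))))) (WtL.cons 1 0 0 WtL.nil)
  (FamL.cons 0 937 53 274 31 1 1 (SL.cons 0 17 (SL.cons 0 1 (SL.cons 0 2 (SL.cons 0 8 (SL.cons 0 1 (SL.cons 0 1 SL.nil)))))) (WtL.cons 4 7 1 WtL.nil)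
  (FamL.cons 1 937 81 561 97 1 0 (SL.cons 0 11 (SL.cons 0 1 (SL.cons 0 1 (SL.cons 0 3 (SL.cons 0 5 (SL.cons 0 1 (SL.cons 0 1 SL.nil))))))) WtL.nil
  (FamL.cons 1 937 856 375 686 0 1 (SL.cons 0 1 (SL.cons 0 10 (SL.cons 0 1 (SL.cons 0 1 (SL.cons 0 3 (SL.cons 0 5 (SL.cons 0 2 SL.nil))))))) (WtL.cons 4 5 1 WtL.nil)
  (FamL.cons 0 937 884 662 1250 0 0 (SL.cons 0 1 (SL.cons 0 16 (SL.cons 0 1 (SL.cons 0 2 (SL.cons 0 8 (SL.cons 0 2 SL.nil)))))) WtL.nil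
  (FamL.cons 0 939 130 585 162 0 0 (SL.cons 0 7 (SL.cons 0 4 (SL.cons 0 2 (SL.cons 0 14 SL.nil)))) WtL.nil
  (FamL.cons 0 939 443 376 355 1 0 (SL.cons 0 2 (SL.cons 0 8 (SL.cons 0 2 (SL.cons 0 1 (SL.cons 0 3 (SL.cons 0 1 (SL.cons 0 2 (SL.cons 0 1 SL.nil)))))))) WtL.nil
  (FamL.cons 0 939 496 562 594 0 0 (SL.cons 0 1 (SL.cons 0 1 (SL.cons 0 8 (SL.cons 0 2 (SL.cons 0 1 (SL.cons 0 3 (SL.cons 0 1 (SL.cons 0 3 SL.nil)))))))) WtL.nil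
  (FamL.cons 0 939 809 353 609 1 1 (SL.cons 0 1 (SL.cons 0 6 (SL.cons 0 4 (SL.cons 0 2 (SL.cons 0 13 (SL.cons 0 1 SL.nil)))))) (WtL.cons 4 3 0 WtL.nil)
  FamL.nil))))))))))))))))))

theorem LF32_sv : LF32.all gSv = true := by decide +kernel

theorem LF32_nm : LF32.all gNm = true := by decide +kernel

theorem LF32_cov : cov LF32 915 13 = true := by decide +kernel

theorem chunk32 {d y : ℕ} (F : FD d y) (hS : Sol d y) (hlo : 915 ≤ y) (hhi : y < 941) :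
    H419R2.tb LB d = true :=
  chunk_sound LF32_sv LF32_nm LF32_cov F hS (by omega) hlo (by omega) (by norm_num)

/-- the families with 941 ≤ y < 963 -/
def LF33 : FamL := (FamL.cons 1 943 304 96 62 0 1 (SL.cons 0 3 (SL.cons 0 9 (SL.cons 0 1 (SL.cons 0 4 (SL.cons 0 6 SL.nil))))) (WtL.cons 4 11 7 WtL.nil)
  (FamL.cons 1 943 386 784 642 0 0 (SL.cons 0 2 (SL.cons 0 2 (SL.cons 0 3 (SL.cons 0 1 (SL.cons 0 7 (SL.cons 0 1 (SL.cons 0 4 SL.nil))))))) WtL.nil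
  (FamL.cons 1 943 557 158 187 1 1 (SL.cons 0 1 (SL.cons 0 1 (SL.cons 0 2 (SL.cons 0 3 (SL.cons 0 1 (SL.cons 0 7 (SL.cons 0 1 (SL.cons 0 3 (SL.cons 0 1 SL.nil))))))))) (WtL.cons 4 5 1 WtL.nil)
  (FamL.cons 1 943 639 846 1147 1 0 (SL.cons 0 1 (SL.cons 0 2 (SL.cons 0 9 (SL.cons 0 1 (SL.cons 0 4 (SL.cons 0 5 (SL.cons 0 1 SL.nil))))))) WtL.nil
  (FamL.cons 0 947 250 337 178 0 0 (SL.cons 0 3 (SL.cons 0 1 (SL.cons 0 3 (SL.cons 0 1 (SL.cons 0 2 (SL.cons 0 1 (SL.cons 0 1 (SL.cons 0 7 SL.nil)))))))) WtL.nil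
  (FamL.cons 0 947 697 609 897 1 0 (SL.cons 0 1 (SL.cons 0 2 (SL.cons 0 1 (SL.cons 0 3 (SL.cons 0 1 (SL.cons 0 2 (SL.cons 0 1 (SL.cons 0 1 (SL.cons 0 6 (SL.cons 0 1 SL.nil)))))))))) WtL.nil
  (FamL.cons 0 953 180 577 218 0 0 (SL.cons 0 5 (SL.cons 0 3 (SL.cons 0 2 (SL.cons 0 1 (SL.cons 0 1 (SL.cons 0 10 SL.nil)))))) WtL.nil
  (FamL.cons 1 953 461 745 721 1 0 (SL.cons 0 2 (SL.cons 0 14 (SL.cons 0 1 (SL.cons 0 6 (SL.cons 0 1 (SL.cons 0 2 (SL.cons 0 1 SL.nil))))))) WtL.nil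
  (FamL.cons 1 953 492 207 214 0 1 (SL.cons 0 1 (SL.cons 0 1 (SL.cons 0 14 (SL.cons 0 1 (SL.cons 0 6 (SL.cons 0 1 (SL.cons 0 3 SL.nil))))))) (WtL.cons 4 3 1 WtL.nil)
  (FamL.cons 0 953 773 375 609 1 1 (SL.cons 0 1 (SL.cons 0 4 (SL.cons 0 3 (SL.cons 0 2 (SL.cons 0 1 (SL.cons 0 1 (SL.cons 0 9 (SL.cons 0 1 SL.nil)))))))) (WtL.cons 4 3 0 WtL.nil)
  (FamL.cons 1 959 31 232 15 1 1 (SL.cons 0 30 (SL.cons 0 1 (SL.cons 0 14 (SL.cons 0 1 (SL.cons 0 1 SL.nil))))) (WtL.cons 4 3 0 WtL.nil)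
  (FamL.cons 1 959 305 36 23 1 1 (SL.cons 0 3 (SL.cons 0 6 (SL.cons 0 1 (SL.cons 0 13 (SL.cons 0 1 (SL.cons 0 1 (SL.cons 0 1 SL.nil))))))) (WtL.cons 1 0 0 WtL.nil)
  (FamL.cons 1 959 654 922 1258 0 0 (SL.cons 0 1 (SL.cons 0 2 (SL.cons 0 6 (SL.cons 0 1 (SL.cons 0 13 (SL.cons 0 1 (SL.cons 0 2 SL.nil))))))) WtL.nil
  (FamL.cons 1 959 928 726 1406 0 1 (SL.cons 0 1 (SL.cons 0 29 (SL.cons 0 1 (SL.cons 0 14 (SL.cons 0 2 SL.nil))))) (WtL.cons 4 11 3 WtL.nil)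
  (FamL.cons 1 961 116 555 134 0 1 (SL.cons 0 8 (SL.cons 0 3 (SL.cons 0 1 (SL.cons 0 1 (SL.cons 0 16 SL.nil))))) (WtL.cons 4 5 2 WtL.nil)
  (FamL.cons 1 961 845 405 713 1 1 (SL.cons 0 1 (SL.cons 0 7 (SL.cons 0 3 (SL.cons 0 1 (SL.cons 0 1 (SL.cons 0 15 (SL.cons 0 1 SL.nil))))))) (WtL.cons 2 7 0 WtL.nil)
  FamL.nil))))))))))))))))

theorem LF33_sv : LF33.all gSv = true := by decide +kernel

theorem LF33_nm : LF33.all gNm = true := by decide +kernel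

theorem LF33_cov : cov LF33 941 11 = true := by decide +kernel

theorem chunk33 {d y : ℕ} (F : FD d y) (hS : Sol d y) (hlo : 941 ≤ y) (hhi : y < 963) :
    H419R2.tb LB d = true :=
  chunk_sound LF33_sv LF33_nm LF33_cov F hS (by omega) hlo (by omega) (by norm_num)

/-- the families with 963 ≤ y < 973 -/
def LF34 : FamL := (FamL.cons 0 963 31 730 47 1 1 (SL.cons 0 31 (SL.cons 0 15 (SL.cons 0 1 (SL.cons 0 1 SL.nil)))) (WtL.cons 4 3 2 WtL.nil)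
  (FamL.cons 0 963 76 114 18 0 1 (SL.cons 0 12 (SL.cons 0 1 (SL.cons 0 2 (SL.cons 0 25 SL.nil)))) (WtL.cons 2 3 0 WtL.nil)
  (FamL.cons 0 963 887 848 1563 1 1 (SL.cons 0 1 (SL.cons 0 11 (SL.cons 0 1 (SL.cons 0 2 (SL.cons 0 24 (SL.cons 0 1 SL.nil)))))) (WtL.cons 4 3 0 WtL.nil)
  (FamL.cons 0 963 932 232 450 0 1 (SL.cons 0 1 (SL.cons 0 30 (SL.cons 0 15 (SL.cons 0 2 SL.nil)))) (WtL.cons 4 3 0 WtL.nil)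
  (FamL.cons 1 967 44 945 86 0 1 (SL.cons 0 21 (SL.cons 0 1 (SL.cons 0 43 SL.nil))) (WtL.cons 4 5 1 WtL.nil)
  (FamL.cons 1 967 923 21 41 1 2 (SL.cons 0 1 (SL.cons 0 20 (SL.cons 0 1 (SL.cons 0 42 (SL.cons 0 1 SL.nil))))) (WtL.cons 3 1 22 (WtL.cons 4 3 0 WtL.nil))
  (FamL.cons 0 969 44 22 2 0 2 (SL.cons 0 22 (SL.cons 0 44 SL.nil)) (WtL.cons 2 3 0 (WtL.cons 4 3 0 WtL.nil))
  (FamL.cons 0 969 146 803 242 0 0 (SL.cons 0 6 (SL.cons 0 1 (SL.cons 0 1 (SL.cons 0 1 (SL.cons 0 3 (SL.cons 0 13 SL.nil)))))) WtL.nil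
  (FamL.cons 0 969 367 883 669 1 0 (SL.cons 0 2 (SL.cons 0 1 (SL.cons 0 1 (SL.cons 0 1 (SL.cons 0 3 (SL.cons 0 1 (SL.cons 0 1 (SL.cons 0 4 (SL.cons 0 2 (SL.cons 0 1 SL.nil)))))))))) WtL.nil
  (FamL.cons 0 969 469 695 673 1 0 (SL.cons 0 2 (SL.cons 0 15 (SL.cons 0 7 (SL.cons 0 1 (SL.cons 0 2 (SL.cons 0 1 SL.nil)))))) WtL.nil
  (FamL.cons 0 969 500 273 282 0 1 (SL.cons 0 1 (SL.cons 0 1 (SL.cons 0 15 (SL.cons 0 7 (SL.cons 0 1 (SL.cons 0 3 SL.nil)))))) (WtL.cons 4 3 0 WtL.nil)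
  (FamL.cons 0 969 602 85 106 0 1 (SL.cons 0 1 (SL.cons 0 1 (SL.cons 0 1 (SL.cons 0 1 (SL.cons 0 1 (SL.cons 0 3 (SL.cons 0 1 (SL.cons 0 1 (SL.cons 0 4 (SL.cons 0 3 SL.nil)))))))))) (WtL.cons 4 5 1 WtL.nil)
  (FamL.cons 0 969 823 165 281 1 1 (SL.cons 0 1 (SL.cons 0 5 (SL.cons 0 1 (SL.cons 0 1 (SL.cons 0 1 (SL.cons 0 3 (SL.cons 0 12 (SL.cons 0 1 SL.nil)))))))) (WtL.cons 4 5 1 WtL.nil)
  (FamL.cons 0 969 925 946 1807 1 1 (SL.cons 0 1 (SL.cons 0 21 (SL.cons 0 43 (SL.cons 0 1 SL.nil)))) (WtL.cons 4 7 2 WtL.nil)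
  (FamL.cons 0 971 179 263 97 1 0 (SL.cons 0 5 (SL.cons 0 2 (SL.cons 0 2 (SL.cons 0 1 (SL.cons 0 4 (SL.cons 0 2 (SL.cons 0 1 (SL.cons 0 1 SL.nil)))))))) WtL.nil
  (FamL.cons 0 971 792 707 1154 0 0 (SL.cons 0 1 (SL.cons 0 4 (SL.cons 0 2 (SL.cons 0 2 (SL.cons 0 1 (SL.cons 0 4 (SL.cons 0 2 (SL.cons 0 2 SL.nil)))))))) WtL.nil
  FamL.nil))))))))))))))))

theorem LF34_sv : LF34.all gSv = true := by decide +kernel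

theorem LF34_nm : LF34.all gNm = true := by decide +kernel

theorem LF34_cov : cov LF34 963 5 = true := by decide +kernel

theorem chunk34 {d y : ℕ} (F : FD d y) (hS : Sol d y) (hlo : 963 ≤ y) (hhi : y < 973) :
    H419R2.tb LB d = true :=
  chunk_sound LF34_sv LF34_nm LF34_cov F hS (by omega) hlo (by omega) (by norm_num)

/-- the families with 973 ≤ y < 1001 -/
def LF35 : FamL := (FamL.cons 1 977 212 493 214 0 0 (SL.cons 0 4 (SL.cons 0 1 (SL.cons 0 1 (SL.cons 0 1 (SL.cons 0 1 (SL.cons 0 4 (SL.cons 0 9 SL.nil))))))) WtL.nil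
  (FamL.cons 0 977 311 614 391 1 0 (SL.cons 0 3 (SL.cons 0 7 (SL.cons 0 14 (SL.cons 0 1 (SL.cons 0 1 (SL.cons 0 1 SL.nil)))))) WtL.nil
  (FamL.cons 0 977 666 362 494 0 1 (SL.cons 0 1 (SL.cons 0 2 (SL.cons 0 7 (SL.cons 0 14 (SL.cons 0 1 (SL.cons 0 2 SL.nil)))))) (WtL.cons 4 3 1 WtL.nil)
  (FamL.cons 1 977 765 483 757 1 0 (SL.cons 0 1 (SL.cons 0 3 (SL.cons 0 1 (SL.cons 0 1 (SL.cons 0 1 (SL.cons 0 1 (SL.cons 0 4 (SL.cons 0 8 (SL.cons 0 1 SL.nil))))))))) WtL.nil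
  (FamL.cons 0 979 129 793 209 1 0 (SL.cons 0 7 (SL.cons 0 1 (SL.cons 0 1 (SL.cons 0 2 (SL.cons 0 3 (SL.cons 0 3 (SL.cons 0 1 (SL.cons 0 1 SL.nil)))))))) WtL.nil
  (FamL.cons 0 979 316 226 146 0 1 (SL.cons 0 3 (SL.cons 0 10 (SL.cons 0 5 (SL.cons 0 6 SL.nil)))) (WtL.cons 4 3 2 WtL.nil)
  (FamL.cons 0 979 663 752 1019 1 0 (SL.cons 0 1 (SL.cons 0 2 (SL.cons 0 10 (SL.cons 0 5 (SL.cons 0 5 (SL.cons 0 1 SL.nil)))))) WtL.nil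
  (FamL.cons 0 979 850 185 322 0 1 (SL.cons 0 1 (SL.cons 0 6 (SL.cons 0 1 (SL.cons 0 1 (SL.cons 0 2 (SL.cons 0 3 (SL.cons 0 3 (SL.cons 0 2 SL.nil)))))))) (WtL.cons 4 7 0 WtL.nil)
  (FamL.cons 1 983 450 417 382 0 0 (SL.cons 0 2 (SL.cons 0 5 (SL.cons 0 2 (SL.cons 0 2 (SL.cons 0 1 (SL.cons 0 2 (SL.cons 0 4 SL.nil))))))) WtL.nil
  (FamL.cons 1 983 533 565 613 1 0 (SL.cons 0 1 (SL.cons 0 1 (SL.cons 0 5 (SL.cons 0 2 (SL.cons 0 2 (SL.cons 0 1 (SL.cons 0 2 (SL.cons 0 3 (SL.cons 0 1 SL.nil))))))))) WtL.nil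
  (FamL.cons 1 991 420 139 118 0 1 (SL.cons 0 2 (SL.cons 0 2 (SL.cons 0 1 (SL.cons 0 3 (SL.cons 0 1 (SL.cons 0 1 (SL.cons 0 2 (SL.cons 0 1 (SL.cons 0 4 SL.nil))))))))) (WtL.cons 4 5 3 WtL.nil)
  (FamL.cons 1 991 571 851 981 1 0 (SL.cons 0 1 (SL.cons 0 1 (SL.cons 0 2 (SL.cons 0 1 (SL.cons 0 3 (SL.cons 0 1 (SL.cons 0 1 (SL.cons 0 2 (SL.cons 0 1 (SL.cons 0 3 (SL.cons 0 1 SL.nil))))))))))) WtL.nil
  (FamL.cons 0 993 256 252 130 0 1 (SL.cons 0 3 (SL.cons 0 1 (SL.cons 0 7 (SL.cons 0 3 (SL.cons 0 1 (SL.cons 0 7 SL.nil)))))) (WtL.cons 4 3 1 WtL.nil)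
  (FamL.cons 0 993 406 961 786 0 0 (SL.cons 0 2 (SL.cons 0 2 (SL.cons 0 4 (SL.cons 0 8 (SL.cons 0 1 (SL.cons 0 4 SL.nil)))))) WtL.nil
  (FamL.cons 0 993 587 31 37 1 1 (SL.cons 0 1 (SL.cons 0 1 (SL.cons 0 2 (SL.cons 0 4 (SL.cons 0 8 (SL.cons 0 1 (SL.cons 0 3 (SL.cons 0 1 SL.nil)))))))) (WtL.cons 1 0 0 WtL.nil)
  (FamL.cons 0 993 737 740 1099 1 0 (SL.cons 0 1 (SL.cons 0 2 (SL.cons 0 1 (SL.cons 0 7 (SL.cons 0 3 (SL.cons 0 1 (SL.cons 0 6 (SL.cons 0 1 SL.nil)))))))) WtL.nil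
  FamL.nil))))))))))))))))

theorem LF35_sv : LF35.all gSv = true := by decide +kernel

theorem LF35_nm : LF35.all gNm = true := by decide +kernel

theorem LF35_cov : cov LF35 973 14 = true := by decide +kernel

theorem chunk35 {d y : ℕ} (F : FD d y) (hS : Sol d y) (hlo : 973 ≤ y) (hhi : y < 1001) :
    H419R2.tb LB d = true :=
  chunk_sound LF35_sv LF35_nm LF35_cov F hS (by omega) hlo (by omega) (by norm_num)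

end Pool.Agent.H449
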