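import Pool.Agent.H449.E5
import Pool.Agent.H449.F1
import Pool.Agent.H449.F2
import Pool.Agent.H449.F3
import Pool.Agent.H449.F4
import Pool.Agent.H449.F5
import Pool.Agent.H449.F6
import Pool.Agent.H449.F7

/-! Real quadratic fields of even discriminant with unique factorisation and small unit. -/

namespace Pool.Agent.H449

open H419R2 Module

theorem all_chunks {d y : ℕ} (F : FD d y) (hS : Sol d y) (hy : 0 < y) (hhi : y ≤ 1000) :
    tb LB d = true := by
  by_cases h0 : y = 1
  · subst h0
    exact chunk0 F hS
  by_cases h0' : y = 2
  · exfalso
    subst h0'
    obtain ⟨x, hx⟩ := hS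
    rcases Nat.mod_two_eq_zero_or_one x with hx2 | hx2
    · obtain ⟨m, hm⟩ : ∃ m, x = 2 * m := ⟨x / 2, by omega⟩
      have e2 : x * x = 4 * (m * m) := by rw [hm]; ring
      rw [e2] at hx
      omega
    · obtain ⟨m, hm⟩ : ∃ m, x = 2 * m + 1 := ⟨x / 2, by omega⟩
      have e2 : x * x = 4 * (m * m + m) + 1 := by rw [hm]; ring
      rw [e2] at hx
      omega
  by_cases h515 : y < 515
  · by_cases h241 : y < 241
    · by_cases h123 : y < 123
      · by_cases h53 : y < 53
        · by_cases h21 : y < 21
          · exact chunk1 F hS (by omega) (by omega)
          · exact chunk2 F hS (by omega) (by omega)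
        · by_cases h91 : y < 91
          · exact chunk3 F hS (by omega) (by omega)
          · exact chunk4 F hS (by omega) (by omega)
      · by_cases h181 : y < 181
        · by_cases h155 : y < 155
          · exact chunk5 F hS (by omega) (by omega)
          · exact chunk6 F hS (by omega) (by omega)
        · by_cases h213 : y < 213
          · exact chunk7 F hS (by omega) (by omega)
          · exact chunk8 F hS (by omega) (by omega)
    · by_cases h355 : y < 355
      · by_cases h299 : y < 299
        · by_cases h269 : y < 269
          · exact chunk9 F hS (by omega) (by omega)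
          · exact chunk10 F hS (by omega) (by omega)
        · by_cases h333 : y < 333
          · exact chunk11 F hS (by omega) (by omega)
          · exact chunk12 F hS (by omega) (by omega)
      · by_cases h419 : y < 419
        · by_cases h389 : y < 389
          · exact chunk13 F hS (by omega) (by omega)
          · exact chunk14 F hS (by omega) (by omega)
        · by_cases h453 : y < 453
          · exact chunk15 F hS (by omega) (by omega)
          · by_cases h489 : y < 489
            · exact chunk16 F hS (by omega) (by omega)
            · exact chunk17 F hS (by omega) (by omega)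
  · by_cases h773 : y < 773
    · by_cases h629 : y < 629
      · by_cases h571 : y < 571
        · by_cases h539 : y < 539
          · exact chunk18 F hS (by omega) (by omega)
          · exact chunk19 F hS (by omega) (by omega)
        · by_cases h603 : y < 603
          · exact chunk20 F hS (by omega) (by omega)
          · exact chunk21 F hS (by omega) (by omega)
      · by_cases h699 : y < 699
        · by_cases h659 : y < 659
          · exact chunk22 F hS (by omega) (by omega)
          · exact chunk23 F hS (by omega) (by omega)
        · by_cases h725 : y < 725
          · exact chunk24 F hS (by omega) (by omega)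
          · by_cases h749 : y < 749
            · exact chunk25 F hS (by omega) (by omega)
            · exact chunk26 F hS (by omega) (by omega)
    · by_cases h885 : y < 885
      · by_cases h829 : y < 829
        · by_cases h803 : y < 803
          · exact chunk27 F hS (by omega) (by omega)
          · exact chunk28 F hS (by omega) (by omega)
        · by_cases h859 : y < 859
          · exact chunk29 F hS (by omega) (by omega)
          · exact chunk30 F hS (by omega) (by omega)
      · by_cases h941 : y < 941
        · by_cases h915 : y < 915
          · exact chunk31 F hS (by omega) (by omega)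
          · exact chunk32 F hS (by omega) (by omega)
        · by_cases h963 : y < 963
          · exact chunk33 F hS (by omega) (by omega)
          · by_cases h973 : y < 973
            · exact chunk34 F hS (by omega) (by omega)
            · exact chunk35 F hS (by omega) (by omega)

theorem small_unit {d : ℕ} (hsf : Squarefree (d : ℤ)) (hd4 : d % 4 = 2 ∨ d % 4 = 3)
    {K : Type*} [Field K] [NumberField K] (hK : Module.finrank ℚ K = 2) {x : K}
    (hx : x ^ 2 = ((d : ℤ) : K)) (hcl : NumberField.classNumber K = 1) {u v : ℕ}
    (hv : 0 < v) (hp : u * u = d * (v * v) + 1) (hu : u ≤ 1000000 * d) : d ∈ lst := by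
  apply LB_lst
  have hd1 : 1 < d := by omega
  classical
  have hex := exists_sol hsf hd4 hK hx hcl
  set y := Nat.find hex with hy
  obtain ⟨hy0, hS⟩ := Nat.find_spec hex
  rw [← hy] at hy0 hS
  have hmin : ∀ y', 0 < y' → y' < y → ¬ Sol d y' := fun y' h1 h2 h3 => Nat.find_min hex h2 ⟨h1, h3⟩
  have F : FD d y :=
    { sf := hsf
      d4 := hd4
      good := fun H hH => good_half H hH hsf hd4 hK hx hcl
      min := fun y' z h1 h2 => ⟨fun h => hmin y' h1 h2 ⟨z, Or.inl h⟩, fun h => hmin y' h1 h2 ⟨z, Or.inr h⟩⟩ }
  obtain ⟨X, hX⟩ := hS
  have h1 := pell_ineq hd1 hp hv hy0 hX hmin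
  have hy1 : y ≤ 1000 := by
    by_contra hc
    have hc : 1001 ≤ y := by omega
    have h2 : 1001 * 1001 ≤ y * y := Nat.mul_le_mul hc hc
    have h3 : d * (1001 * 1001) ≤ d * (y * y) := Nat.mul_le_mul_left d h2
    omega
  exact all_chunks F ⟨X, hX⟩ hy0 hy1

end Pool.Agent.H449
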