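import Pool.Agent.H449.E4

/-! The continued fraction algorithm for `√d`. -/

namespace Pool.Agent.H449

/-- the algorithm: numerators and denominators of the complete quotients -/
def cfs (d : ℤ) (a : ℤ) : ℕ → ℤ × ℤ
  | 0 => (0, 1)
  | n + 1 =>
    (((a + (cfs d a n).1) / (cfs d a n).2) * (cfs d a n).2 - (cfs d a n).1,
      (d - (((a + (cfs d a n).1) / (cfs d a n).2) * (cfs d a n).2 - (cfs d a n).1) ^ 2) / (cfs d a n).2)

/-- numerator -/
def cm (d a : ℤ) (n : ℕ) : ℤ := (cfs d a n).1
/-- denominator -/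
def cq (d a : ℤ) (n : ℕ) : ℤ := (cfs d a n).2
/-- partial quotient -/
def ca (d a : ℤ) (n : ℕ) : ℤ := (a + cm d a n) / cq d a n

section

variable {d a : ℤ}

theorem cm_zero : cm d a 0 = 0 := rfl
theorem cq_zero : cq d a 0 = 1 := rfl
theorem cm_succ (n : ℕ) : cm d a (n + 1) = ca d a n * cq d a n - cm d a n := rfl
theorem cq_succ (n : ℕ) : cq d a (n + 1) = (d - cm d a (n + 1) ^ 2) / cq d a n := rfl

/-- invariants -/
structure Inv (d a : ℤ) (n : ℕ) : Prop where
  qpos : 0 < cq d a n
  dvd : cq d a n ∣ d - cm d a n ^ 2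
  mle : cm d a n ≤ a
  mge : 0 ≤ cm d a n
  apos : 1 ≤ ca d a n
  qle : cq d a n ≤ a + cm d a n
  lo : a - cm d a n < cq d a n ∨ n = 0
  m1 : 1 ≤ cm d a n ∨ n = 0

theorem fl_le {x q : ℤ} (hq : 0 < q) : x / q * q ≤ x := Int.ediv_mul_le x hq.ne'

theorem lt_fl {x q : ℤ} (hq : 0 < q) : x < (x / q + 1) * q := Int.lt_ediv_add_one_mul_self x hq

theorem inv (ha : 0 < a) (h1 : a ^ 2 < d) (h2 : d < (a + 1) ^ 2) : ∀ n, Inv d a n := by
  intro n
  induction n with
  | zero =>
    refine ⟨?_, ?_, ?_, ?_, ?_, ?_, Or.inr rfl, Or.inr rfl⟩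
    · rw [cq_zero]; norm_num
    · rw [cq_zero]; exact one_dvd _
    · rw [cm_zero]; omega
    · rw [cm_zero]
    · unfold ca; rw [cm_zero, cq_zero]; simp; omega
    · rw [cq_zero, cm_zero]; omega
  | succ n ih =>
    obtain ⟨i1, i2, i3, i4, i5, i6, i7, -⟩ := ih
    set q := cq d a n with hq
    set m := cm d a n with hm
    set c := ca d a n with hc
    have f1 : c * q ≤ a + m := fl_le i1
    have f2 : a + m < (c + 1) * q := lt_fl i1
    have em : cm d a (n + 1) = c * q - m := cm_succ n
    set m' := cm d a (n + 1) with hm'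
    have hm1 : m' ≤ a := by rw [em]; linarith
    have hm2 : a - q < m' := by rw [em]; linarith
    have hcq : q ≤ c * q := by
      have := mul_le_mul_of_nonneg_right i5 i1.le
      linarith
    have hm3 : 1 ≤ m' := by
      rcases le_or_gt q a with h | h
      · omega
      · rw [em]
        have : m < q := by omega
        omega
    have hdvd : q ∣ d - m' ^ 2 := by
      have : d - m' ^ 2 = (d - m ^ 2) + q * (c * (2 * m - c * q)) := by rw [em]; ring
      rw [this]
      exact dvd_add i2 (Dvd.intro _ rfl)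
    obtain ⟨r, hr⟩ := hdvd
    have eq' : cq d a (n + 1) = r := by
      rw [cq_succ, ← hm', ← hq, hr]
      exact Int.mul_ediv_cancel_left _ i1.ne'
    have hpos : 0 < d - m' ^ 2 := by nlinarith
    have hr0 : 0 < r := by
      rw [hr] at hpos
      exact (mul_pos_iff_of_pos_left i1).mp hpos
    have hqle : q ≤ a + m' := by rw [em]; linarith
    have hlo : a - m' < r := by
      by_contra hc'
      have hc' := not_lt.mp hc'
      have h3 : q * r ≤ (a + m') * (a - m') := by
        have := mul_le_mul hqle hc' hr0.le (by omega)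
        linarith
      nlinarith
    have hhi : r ≤ a + m' := by
      by_contra hc'
      have hc' : a + m' + 1 ≤ r := by omega
      have h3 : (a - m' + 1) * (a + m' + 1) ≤ q * r := by
        apply mul_le_mul (by omega) hc' (by omega) i1.le
      nlinarith
    refine ⟨?_, ?_, hm1, by omega, ?_, ?_, Or.inl ?_, Or.inl hm3⟩
    · rw [eq']; exact hr0
    · rw [eq', ← hm', hr]; exact Dvd.intro_left _ rfl
    · unfold ca
      rw [eq', ← hm']
      exact (Int.le_ediv_iff_mul_le hr0).mpr (by linarith)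
    · rw [eq']; exact hhi
    · rw [eq']; exact hlo

section inv

variable (ha : 0 < a) (h1 : a ^ 2 < d) (h2 : d < (a + 1) ^ 2)

include ha h1 h2

theorem qq (n : ℕ) : cq d a n * cq d a (n + 1) = d - cm d a (n + 1) ^ 2 := by
  have i := inv ha h1 h2 n
  rw [cq_succ]
  apply Int.mul_ediv_cancel'
  have : d - cm d a (n + 1) ^ 2 = (d - cm d a n ^ 2) +
      cq d a n * (ca d a n * (2 * cm d a n - ca d a n * cq d a n)) := by rw [cm_succ]; ring
  rw [this]
  exact dvd_add i.dvd (Dvd.intro _ rfl)

theorem q_rec (n : ℕ) : cq d a (n + 2) = cq d a n + 2 * cm d a (n + 1) * ca d a (n + 1) -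
    cq d a (n + 1) * ca d a (n + 1) ^ 2 := by
  have e1 := qq ha h1 h2 n
  have e2 := qq ha h1 h2 (n + 1)
  have e3 : cm d a (n + 2) = ca d a (n + 1) * cq d a (n + 1) - cm d a (n + 1) := cm_succ _
  have hq := (inv ha h1 h2 (n + 1)).qpos
  apply mul_left_cancel₀ hq.ne'
  rw [e3] at e2
  linear_combination e2 - e1

/-- uniqueness of the partial quotient -/
theorem ca_unique {n : ℕ} {c : ℤ} (h3 : c * cq d a n ≤ a + cm d a n)
    (h4 : a + cm d a n < (c + 1) * cq d a n) : ca d a n = c := by
  have hq := (inv ha h1 h2 n).qpos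
  have h5 : c ≤ ca d a n := (Int.le_ediv_iff_mul_le hq).mpr h3
  have h6 : ca d a n < c + 1 := (Int.ediv_lt_iff_lt_mul hq).mpr h4
  omega

/-- periodicity from a denominator `1` -/
theorem per_of_one {l : ℕ} (hq : cq d a l = 1) (hl : 0 < l) :
    ∀ n, cm d a (l + n + 1) = cm d a (n + 1) ∧ cq d a (l + n) = cq d a n := by
  have i := inv ha h1 h2 l
  have hml : cm d a l = a := by
    have := i.mle
    rcases i.lo with h | h
    · rw [hq] at h; omega
    · omega
  intro n
  induction n with
  | zero =>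
    refine ⟨?_, by rw [add_zero, hq, cq_zero]⟩
    have e1 : ca d a l = 2 * a := by unfold ca; rw [hml, hq]; simp; ring
    have e2 : ca d a 0 = a := by unfold ca; rw [cm_zero, cq_zero]; simp
    rw [add_zero, cm_succ, cm_succ, e1, e2, hml, hq, cm_zero, cq_zero]
    ring
  | succ n ih =>
    obtain ⟨j1, j2⟩ := ih
    have j1' : cm d a (l + (n + 1)) = cm d a (n + 1) := j1
    have e1 : cq d a (l + (n + 1)) = cq d a (n + 1) := by
      change cq d a (l + n + 1) = _
      rw [cq_succ, cq_succ, j1, j2]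
    have e2 : ca d a (l + (n + 1)) = ca d a (n + 1) := by unfold ca; rw [j1', e1]
    refine ⟨?_, e1⟩
    rw [cm_succ, cm_succ, e2, e1, j1']

/-- symmetry around an ambiguous place -/
theorem symm_of {k : ℕ} (hm : cm d a (k + 1) = cm d a k) :
    ∀ j, j ≤ k → (j < k → cm d a (k + j + 1) = cm d a (k - j)) ∧ cq d a (k + j) = cq d a (k - j) := by
  intro j
  induction j with
  | zero =>
    intro _
    refine ⟨fun _ => ?_, rfl⟩
    rw [add_zero, Nat.sub_zero, hm]
  | succ j ih =>
    intro hj
    obtain ⟨j1, j2⟩ := ih (by omega)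
    have j1 := j1 (by omega)
    obtain ⟨r, hr⟩ : ∃ r, k - j = r + 1 := ⟨k - j - 1, by omega⟩
    have hr' : k - (j + 1) = r := by omega
    rw [hr] at j1 j2
    rw [hr']
    have e1 : cq d a (k + (j + 1)) = cq d a r := by
      change cq d a (k + j + 1) = _
      rw [cq_succ, j1, j2]
      have h5 := qq ha h1 h2 r
      rw [← h5]
      exact Int.mul_ediv_cancel _ (inv ha h1 h2 (r + 1)).qpos.ne'
    refine ⟨fun h6 => ?_, e1⟩
    have hr0 : 0 < r := by omega
    have i := inv ha h1 h2 r
    have j1' : cm d a (k + (j + 1)) = cm d a (r + 1) := j1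
    have e3 := cm_succ (d := d) (a := a) r
    have e2 : ca d a (k + (j + 1)) = ca d a r := by
      apply ca_unique ha h1 h2
      · rw [j1', e1, e3]
        have := i.mle
        linarith
      · rw [j1', e1, e3]
        rcases i.lo with h | h
        · linarith
        · omega
    rw [cm_succ, e2, e1, j1', e3]
    ring

end inv

end

end Pool.Agent.H449
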