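import Pool.Agent.H449.G1

/-! The continued fraction of `√d` and its convergents. -/

namespace Pool.Agent.H449

/-- The next complete quotient of the simple continued fraction of a real number. -/
noncomputable def nextQ (x : ℝ) : ℝ := (Int.fract x)⁻¹

/-- The period length of the simple continued fraction of `x`: the least `l ≥ 1` such that
the complete quotients with indices `l + 1` and `1` agree (and `0` if there were none). -/
noncomputable def perLen (x : ℝ) : ℕ := sInf {l : ℕ | 0 < l ∧ nextQ^[l + 1] x = nextQ x}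

section

variable {d a : ℤ} (ha : 0 < a) (h1 : a ^ 2 < d) (h2 : d < (a + 1) ^ 2)

include ha h1 h2

theorem sqrt_bounds : (a : ℝ) < √(d : ℝ) ∧ √(d : ℝ) < a + 1 := by
  have h1' : ((a : ℝ)) ^ 2 < d := by exact_mod_cast h1
  have h2' : (d : ℝ) < ((a : ℝ) + 1) ^ 2 := by exact_mod_cast h2
  have ha' : (0 : ℝ) < a := by exact_mod_cast ha
  constructor
  · exact Real.lt_sqrt_of_sq_lt h1'
  · rw [Real.sqrt_lt' (by positivity)]; exact h2'

theorem floor_cq (n : ℕ) : ⌊((cm d a n : ℝ) + √(d : ℝ)) / (cq d a n : ℝ)⌋ = ca d a n := by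
  obtain ⟨b1, b2⟩ := sqrt_bounds ha h1 h2
  have i := inv ha h1 h2 n
  have hq : (0 : ℝ) < (cq d a n : ℝ) := by exact_mod_cast i.qpos
  have f1 : ca d a n * cq d a n ≤ a + cm d a n := fl_le i.qpos
  have f2 : a + cm d a n + 1 ≤ (ca d a n + 1) * cq d a n := lt_fl i.qpos
  have f1' : (ca d a n : ℝ) * cq d a n ≤ a + cm d a n := by exact_mod_cast f1
  have f2' : (a : ℝ) + cm d a n + 1 ≤ (ca d a n + 1) * cq d a n := by exact_mod_cast f2
  rw [Int.floor_eq_iff]
  constructor
  · rw [le_div_iff₀ hq]; linarith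
  · rw [div_lt_iff₀ hq]; linarith

theorem iter_eq (n : ℕ) : nextQ^[n] (√(d : ℝ)) = ((cm d a n : ℝ) + √(d : ℝ)) / (cq d a n : ℝ) := by
  induction n with
  | zero => rw [cm_zero, cq_zero]; simp
  | succ n ih =>
    obtain ⟨b1, b2⟩ := sqrt_bounds ha h1 h2
    have i := inv ha h1 h2 n
    have i' := inv ha h1 h2 (n + 1)
    have hq : (0 : ℝ) < (cq d a n : ℝ) := by exact_mod_cast i.qpos
    have hq' : (0 : ℝ) < (cq d a (n + 1) : ℝ) := by exact_mod_cast i'.qpos
    have hm : (cm d a (n + 1) : ℝ) ≤ a := by exact_mod_cast i'.mle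
    have hs : √(d : ℝ) * √(d : ℝ) = d := Real.mul_self_sqrt (by
      have : (0 : ℤ) ≤ d := by nlinarith
      exact_mod_cast this)
    rw [Function.iterate_succ_apply', ih]
    unfold nextQ
    have e1 : Int.fract (((cm d a n : ℝ) + √(d : ℝ)) / (cq d a n : ℝ)) =
        (√(d : ℝ) - cm d a (n + 1)) / cq d a n := by
      rw [Int.fract, floor_cq ha h1 h2 n, cm_succ]
      push_cast
      field_simp
      ring
    rw [e1, inv_div]
    have hpos : (0 : ℝ) < √(d : ℝ) - cm d a (n + 1) := by linarith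
    rw [div_eq_div_iff hpos.ne' hq'.ne']
    have e2 : ((cq d a n : ℝ)) * cq d a (n + 1) = d - (cm d a (n + 1)) ^ 2 := by
      exact_mod_cast qq ha h1 h2 n
    rw [e2]
    linear_combination -hs

theorem irr : Irrational (√(d : ℝ)) := by
  rw [irrational_sqrt_intCast_iff_of_nonneg (by nlinarith)]
  rintro ⟨r, hr⟩
  have h3 : a ^ 2 < |r| ^ 2 := by rw [sq_abs, pow_two r, ← hr]; exact h1
  have h4 : |r| ^ 2 < (a + 1) ^ 2 := by rw [sq_abs, pow_two r, ← hr]; exact h2
  have h5 := abs_nonneg r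
  have h6 : a < |r| := lt_of_pow_lt_pow_left₀ 2 h5 h3
  have h7 : |r| < a + 1 := lt_of_pow_lt_pow_left₀ 2 (by omega) h4
  omega

theorem one_of_per {l : ℕ} (h : nextQ^[l + 1] (√(d : ℝ)) = nextQ (√(d : ℝ))) : cq d a l = 1 := by
  have e1 := iter_eq ha h1 h2 (l + 1)
  have e2 := iter_eq ha h1 h2 1
  rw [Function.iterate_one] at e2
  rw [h, e2] at e1
  have i1 := inv ha h1 h2 1
  have il := inv ha h1 h2 (l + 1)
  have hq1 : (0 : ℝ) < (cq d a 1 : ℝ) := by exact_mod_cast i1.qpos
  have hql : (0 : ℝ) < (cq d a (l + 1) : ℝ) := by exact_mod_cast il.qpos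
  rw [div_eq_div_iff hq1.ne' hql.ne'] at e1
  have hir := irr ha h1 h2
  have hqe : cq d a (l + 1) = cq d a 1 := by
    by_contra hne
    have hne' : (cq d a (l + 1) : ℝ) - cq d a 1 ≠ 0 := by
      intro h0
      apply hne
      have : (cq d a (l + 1) : ℝ) = cq d a 1 := by linarith
      exact_mod_cast this
    apply hir
    refine ⟨((cm d a (l + 1) * cq d a 1 - cm d a 1 * cq d a (l + 1) : ℤ) : ℚ) /
      ((cq d a (l + 1) - cq d a 1 : ℤ) : ℚ), ?_⟩
    push_cast
    rw [div_eq_iff hne']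
    linear_combination -e1
  rw [hqe] at e1
  have hme : (cm d a 1 : ℝ) = cm d a (l + 1) := by
    have := mul_right_cancel₀ hq1.ne' e1
    linarith
  have hme' : cm d a (l + 1) = cm d a 1 := by exact_mod_cast hme.symm
  have q0 := qq ha h1 h2 0
  have ql := qq ha h1 h2 l
  rw [cq_zero, zero_add, one_mul] at q0
  rw [hqe, hme', ← q0] at ql
  have := mul_right_cancel₀ i1.qpos.ne' (ql.trans (one_mul _).symm)
  exact this

theorem per_of_cq {l : ℕ} (hl : 0 < l) (h : cq d a l = 1) :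
    nextQ^[l + 1] (√(d : ℝ)) = nextQ (√(d : ℝ)) := by
  have e2 := iter_eq ha h1 h2 1
  rw [Function.iterate_one] at e2
  rw [iter_eq ha h1 h2 (l + 1), e2]
  have p0 := per_of_one ha h1 h2 h hl 0
  have p1 := per_of_one ha h1 h2 h hl 1
  rw [add_zero, zero_add] at p0
  rw [p0.1, p1.2]

/-- convergents and values of the forms -/
theorem conv_form (n : ℕ) : ∀ j : ℕ, ∃ P Q : ℤ, IsCoprime P Q ∧ 0 < Q ∧ 0 < P ∧
    (nextQ^[j] (√(d : ℝ))).convergent n = (P : ℚ) / (Q : ℚ) ∧
    cq d a j * (cq d a j * P ^ 2 - 2 * cm d a j * (P * Q)) - (d - cm d a j ^ 2) * Q ^ 2 =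
      (-1) ^ (n + 1) * (cq d a j * cq d a (j + n + 1)) := by
  induction n with
  | zero =>
    intro j
    have i := inv ha h1 h2 j
    refine ⟨ca d a j, 1, isCoprime_one_right, by norm_num, by have := i.apos; omega, ?_, ?_⟩
    · rw [Real.convergent_zero, iter_eq ha h1 h2 j, floor_cq ha h1 h2 j]
      simp
    · have e1 := qq ha h1 h2 j
      have e2 : cm d a (j + 1) = ca d a j * cq d a j - cm d a j := cm_succ j
      rw [e2] at e1
      rw [add_zero]
      linear_combination e1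
  | succ n ih =>
    intro j
    obtain ⟨P, Q, hc, hQ, hP, hconv, hform⟩ := ih (j + 1)
    have i := inv ha h1 h2 j
    have i' := inv ha h1 h2 (j + 1)
    refine ⟨ca d a j * P + Q, P, ?_, hP, ?_, ?_, ?_⟩
    · have := hc.symm
      rw [add_comm]
      exact (IsCoprime.add_mul_right_left_iff).mpr this
    · have := i.apos
      have : 0 < ca d a j * P := mul_pos (by omega) hP
      omega
    · rw [Real.convergent_succ]
      have e0 : (Int.fract (nextQ^[j] (√(d : ℝ))))⁻¹ = nextQ^[j + 1] (√(d : ℝ)) := by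
        rw [Function.iterate_succ_apply']; rfl
      rw [e0, hconv, iter_eq ha h1 h2 j, floor_cq ha h1 h2 j, inv_div]
      have hP' : (P : ℚ) ≠ 0 := by exact_mod_cast hP.ne'
      push_cast
      field_simp
    · have e1 := qq ha h1 h2 j
      have e2 : cm d a (j + 1) = ca d a j * cq d a j - cm d a j := cm_succ j
      have e3 := i'.qpos
      have hq := i.qpos
      rw [show j + (n + 1) + 1 = j + 1 + n + 1 by ring]
      -- multiply by the next denominator
      apply mul_left_cancel₀ e3.ne'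
      have hf := hform
      rw [← e1] at hf
      have e4 : d - cm d a j ^ 2 = cq d a j * cq d a (j + 1) + ca d a j * cq d a j *
          (ca d a j * cq d a j - 2 * cm d a j) := by
        rw [e1, e2]; ring
      rw [e4]
      rw [e2] at hf
      have e5 : (-1 : ℤ) ^ (n + 1 + 1) = -(-1) ^ (n + 1) := by rw [pow_succ]; ring
      rw [e5]
      linear_combination (-cq d a j) * hf

theorem exists_two (hd : 6 ≤ d) {x y : ℤ} (hx : 0 < x) (hy : 0 < y)
    (h : x ^ 2 - d * y ^ 2 = 2 ∨ x ^ 2 - d * y ^ 2 = -2) : ∃ k, 0 < k ∧ cq d a k = 2 := by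
  have hcop : IsCoprime x y := by
    rw [Int.isCoprime_iff_gcd_eq_one]
    have h1 : ((Int.gcd x y : ℤ)) ∣ x := Int.gcd_dvd_left _ _
    have h2 : ((Int.gcd x y : ℤ)) ∣ y := Int.gcd_dvd_right _ _
    obtain ⟨r, hr⟩ := h1
    obtain ⟨s, hs⟩ := h2
    set g : ℤ := (Int.gcd x y : ℤ) with hg
    have hg0 : 0 ≤ g := by positivity
    have h3 : g * g ∣ 2 := by
      have e : x ^ 2 - d * y ^ 2 = g * g * (r ^ 2 - d * s ^ 2) := by rw [hr, hs]; ring
      rcases h with h | h
      · exact ⟨r ^ 2 - d * s ^ 2, by rw [← e, h]⟩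
      · exact ⟨-(r ^ 2 - d * s ^ 2), by rw [mul_neg, ← e, h]; ring⟩
    have h4 := Int.le_of_dvd (by norm_num) h3
    have h5 : g ≤ 1 := by nlinarith
    have h6 : g ≠ 0 := by
      intro h0
      rw [h0] at hr
      omega
    have : g = 1 := by omega
    rw [hg] at this
    exact_mod_cast this
  have hxR : (0 : ℝ) < x := by exact_mod_cast hx
  have hyR : (0 : ℝ) < y := by exact_mod_cast hy
  have hdR : (6 : ℝ) ≤ d := by exact_mod_cast hd
  have hs : √(d : ℝ) ^ 2 = d := Real.sq_sqrt (by linarith)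
  have hs0 : 0 < √(d : ℝ) := Real.sqrt_pos.mpr (by linarith)
  set r : ℚ := (x : ℚ) / (y : ℚ) with hr
  have hrR : ((r : ℚ) : ℝ) = x / y := by rw [hr]; push_cast; rfl
  have hden : (r.den : ℤ) = y := by
    rw [hr]
    exact Rat.den_div_eq_of_coprime hy (Int.isCoprime_iff_gcd_eq_one.mp hcop)
  have habs : |√(d : ℝ) - r| < 1 / (2 * (r.den : ℝ) ^ 2) := by
    have hden' : (r.den : ℝ) = y := by exact_mod_cast hden
    rw [hden', hrR]
    have hR : (x : ℝ) ^ 2 - d * y ^ 2 = 2 ∨ (x : ℝ) ^ 2 - d * y ^ 2 = -2 := by exact_mod_cast h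
    have hsum : 4 * (y : ℝ) < √(d : ℝ) * y + x := by
      have hs2 : (2.44 : ℝ) ≤ √(d : ℝ) := by
        apply Real.le_sqrt_of_sq_le; norm_num; linarith
      have hy1 : (1 : ℝ) ≤ y := by exact_mod_cast hy
      have hx2 : 2 * (y : ℝ) ≤ x := by
        have h5 : (2 * (y : ℝ)) ^ 2 ≤ (x : ℝ) ^ 2 := by
          rcases hR with h | h <;> nlinarith
        exact le_of_sq_le_sq h5 hxR.le
      nlinarith
    have key : |√(d : ℝ) * y - x| * (√(d : ℝ) * y + x) = 2 := by
      have h6 : (√(d : ℝ) * y - x) * (√(d : ℝ) * y + x) = d * y ^ 2 - x ^ 2 := by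
        linear_combination (y : ℝ) ^ 2 * hs
      have h7 : 0 < √(d : ℝ) * y + x := by positivity
      have h8 : |√(d : ℝ) * y - x| * (√(d : ℝ) * y + x) = |(d : ℝ) * (y : ℝ) ^ 2 - (x : ℝ) ^ 2| := by
        rw [← h6, abs_mul, abs_of_pos h7]
      rw [h8]
      rcases hR with h | h
      · rw [show (d : ℝ) * y ^ 2 - x ^ 2 = -2 by linarith]; norm_num
      · rw [show (d : ℝ) * y ^ 2 - x ^ 2 = 2 by linarith]; norm_num
    have e1 : √(d : ℝ) - x / y = (√(d : ℝ) * y - x) / y := by field_simp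
    rw [e1, abs_div, abs_of_pos hyR, div_lt_div_iff₀ hyR (by positivity)]
    have h8 : |√(d : ℝ) * y - x| * (4 * y) < 2 := by
      rw [← key]
      have h9 : 0 ≤ |√(d : ℝ) * y - x| := abs_nonneg _
      rcases h9.lt_or_eq with h10 | h10
      · exact mul_lt_mul_of_pos_left hsum h10
      · exfalso
        rw [← h10] at key
        norm_num at key
    nlinarith
  obtain ⟨n, hn⟩ := Real.exists_rat_eq_convergent habs
  obtain ⟨P, Q, hPQ, hQ, hP, hconv, hform⟩ := conv_form ha h1 h2 n 0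
  rw [Function.iterate_zero, id_eq, ← hn, hr] at hconv
  have hy' : (y : ℚ) ≠ 0 := by exact_mod_cast hy.ne'
  have hQ' : (Q : ℚ) ≠ 0 := by exact_mod_cast hQ.ne'
  rw [div_eq_div_iff hy' hQ'] at hconv
  have hcr : x * Q = P * y := by exact_mod_cast hconv
  have hyQ : y = Q := by
    have h3 : y ∣ Q := (hcop.symm.dvd_of_dvd_mul_left (show y ∣ x * Q by rw [hcr]; exact Dvd.intro_left _ rfl))
    have h4 : Q ∣ y := (hPQ.symm.dvd_of_dvd_mul_left (show Q ∣ P * y by rw [← hcr]; exact Dvd.intro_left _ rfl))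
    exact Int.dvd_antisymm hy.le hQ.le h3 h4
  have hxP : x = P := by
    rw [hyQ] at hcr
    exact mul_right_cancel₀ hQ.ne' hcr
  refine ⟨n + 1, by omega, ?_⟩
  rw [cm_zero, cq_zero, ← hxP, ← hyQ, zero_add] at hform
  have h3 : x ^ 2 - d * y ^ 2 = (-1) ^ (n + 1) * cq d a (n + 1) := by linear_combination hform
  have hq := (inv ha h1 h2 (n + 1)).qpos
  rcases neg_one_pow_eq_or ℤ (n + 1) with h4 | h4 <;> rw [h4] at h3 <;> rcases h with h | h <;>
    rw [h] at h3 <;> linarith

end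

end Pool.Agent.H449
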