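import Pool.Agent.H449.G2

/-! The half cycle of `√d` and the period length. -/

namespace Pool.Agent.H449

open H419R2

section

variable {d a : ℤ} (ha : 0 < a) (h1 : a ^ 2 < d) (h2 : d < (a + 1) ^ 2)

include ha h1 h2

theorem half_of (hex : ∃ k, 0 < k ∧ cq d a k = 2) :
    ∃ H : Half, H.b 0 = 2 * a ∧ H.q 1 = d - a ^ 2 ∧ H.q H.k = 2 ∧
      perLen (√(d : ℝ)) = 2 * H.k := by
  classical
  set k := Nat.find hex with hk
  obtain ⟨hk0, hk2⟩ := Nat.find_spec hex
  rw [← hk] at hk0 hk2
  have hmin : ∀ j, 0 < j → j < k → cq d a j ≠ 2 := fun j h3 h4 h5 => Nat.find_min hex h4 ⟨h3, h5⟩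
  have hne : ∀ n, 0 < n → n < k → cq d a n ≠ 1 := by
    intro n h3 h4 h5
    have h6 := (per_of_one ha h1 h2 h5 h3 (k - n)).2
    rw [show n + (k - n) = k by omega, hk2] at h6
    exact hmin (k - n) (by omega) (by omega) h6.symm
  obtain ⟨j, hj⟩ : ∃ j, k = j + 1 := ⟨k - 1, by omega⟩
  have ik := inv ha h1 h2 k
  have ik' := inv ha h1 h2 (k + 1)
  have e1 : cm d a (k + 1) = ca d a k * cq d a k - cm d a k := cm_succ k
  have f2 : a + cm d a k < (ca d a k + 1) * cq d a k := lt_fl ik.qpos
  have hmk : cm d a (k + 1) = cm d a k := by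
    have g1 := ik.mle
    have g2 := ik'.mle
    have g3 : a - 2 < cm d a k := by
      rcases ik.lo with h | h
      · rw [hk2] at h; omega
      · omega
    rw [hk2] at e1 f2
    omega
  have hca : 2 * ca d a k = 2 * cm d a k := by
    rw [hk2] at e1
    omega
  have hone : ∀ n, 0 < n → n ≤ k → cq d a n ≠ 1 := by
    intro n h3 h4
    rcases Nat.lt_or_ge n k with h5 | h5
    · exact hne n h3 h5
    · have : n = k := by omega
      rw [this, hk2]; norm_num
  have hm1 : cm d a 1 = a := by
    rw [cm_succ, cm_zero, cq_zero]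
    unfold ca
    rw [cm_zero, cq_zero]
    simp
  have hcap : ∀ n, (((ca d a n).toNat : ℕ) : ℤ) = ca d a n := by
    intro n
    have := (inv ha h1 h2 n).apos
    exact Int.toNat_of_nonneg (by omega)
  refine ⟨{ k := k, hk := hk0, κ := fun n => (ca d a (n + 1)).toNat, q := cq d a,
            b := fun n => 2 * cm d a (n + 1), κpos := ?_, qpos := ?_, q0 := cq_zero, bpos := ?_,
            recq := ?_, recb := ?_, center := ?_, qone := hone }, ?_, ?_, hk2, ?_⟩
  · intro n _
    have := (inv ha h1 h2 (n + 1)).apos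
    omega
  · intro n _
    exact (inv ha h1 h2 n).qpos
  · rw [zero_add, hm1]; omega
  · intro n _
    rw [hcap, q_rec ha h1 h2 n]
  · intro n _
    rw [hcap, cm_succ (n + 1)]
    ring
  · rw [hcap, show k - 1 + 1 = k by omega, hk2]
    exact hca
  · change 2 * cm d a (0 + 1) = 2 * a
    rw [zero_add, hm1]
  · change cq d a 1 = d - a ^ 2
    have := qq ha h1 h2 0
    rw [cq_zero, zero_add, hm1, one_mul] at this
    exact this
  · change perLen (√(d : ℝ)) = 2 * k
    have hsym := symm_of ha h1 h2 hmk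
    have hmem : 2 * k ∈ {l : ℕ | 0 < l ∧ nextQ^[l + 1] (√(d : ℝ)) = nextQ (√(d : ℝ))} := by
      refine ⟨by omega, ?_⟩
      apply per_of_cq ha h1 h2 (by omega)
      have := (hsym k (le_refl _)).2
      rw [Nat.sub_self, cq_zero] at this
      rw [two_mul]
      exact this
    apply le_antisymm
    · exact Nat.sInf_le hmem
    · have h3 := Nat.sInf_mem (⟨_, hmem⟩ : Set.Nonempty _)
      obtain ⟨h4, h5⟩ := h3
      have h6 := one_of_per ha h1 h2 h5
      by_contra hc
      have hc := not_le.mp hc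
      set l := sInf {l : ℕ | 0 < l ∧ nextQ^[l + 1] (√(d : ℝ)) = nextQ (√(d : ℝ))} with hl
      have hc' : l < 2 * k := hc
      rcases Nat.lt_or_ge k l with h7 | h7
      · obtain ⟨j, hj⟩ : ∃ j, l = k + j := ⟨l - k, by omega⟩
        have h8 := (hsym j (by omega)).2
        rw [← hj, h6] at h8
        exact hone (k - j) (by omega) (by omega) h8.symm
      · exact hone l h4 h7 h6

end

end Pool.Agent.H449
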