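import Pool.Agent.H449.E6
import Pool.Agent.H449.G3

/-! Classification of the cycles of length at most eight. -/

set_option maxRecDepth 100000

namespace Pool.Agent.H449

open H419R2

theorem two_sq_pos {v : ℤ} (h : 0 < v) : 0 < 2 * v ^ 2 - 1 := by nlinarith

theorem k3_aux {x y a R : ℤ} (hx : 0 < x) (hy : 0 < y)
    (h : R * (x * y + 1) ^ 2 - 2 * a * y * (x * y + 1) - y ^ 2 = 2) :
    (x = 2 ∧ y = 1) ∨ y = 2 * x := by
  set g := R * (x * y + 1) - 2 * a * y with hg
  have e1 : y ^ 2 + 2 = (x * y + 1) * g := by rw [hg]; linear_combination -h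
  set m := y - x * g with hm
  have e2 : g = 2 + y * m := by rw [hm]; linear_combination -e1
  have hB : 0 < x * y + 1 := by positivity
  have hg0 : 0 < g := by
    by_contra hc
    have : (x * y + 1) * g ≤ 0 := mul_nonpos_of_nonneg_of_nonpos hB.le (not_lt.mp hc)
    nlinarith [sq_nonneg y]
  have e3 : y = 2 * x + m * (x * y + 1) := by
    have : y * (2 * x + m * (x * y + 1) - y) = 0 := by
      rw [e2] at e1
      linear_combination -e1
    rcases mul_eq_zero.mp this with h0 | h0
    · omega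
    · linarith
  rcases lt_trichotomy m 0 with h0 | h0 | h0
  · left
    have h3 : y * m > -2 := by linarith
    have h4 : y = 1 := by nlinarith
    have h5 : m = -1 := by rw [h4] at h3; omega
    rw [h4, h5] at e3
    constructor
    · linarith
    · exact h4
  · right
    rw [h0] at e3
    linarith
  · exfalso
    have h3 : x * y + 1 ≤ m * (x * y + 1) := by nlinarith
    have h4 : y ≤ x * y := by nlinarith
    linarith

theorem k4_aux {x y z a R : ℤ} (hx : 0 < x) (hy : 0 < y) (hz : 0 < z)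
    (h : R * (x * (y * z + 1) + z) ^ 2 - 2 * a * (y * z + 1) * (x * (y * z + 1) + z) -
      (y * z + 1) ^ 2 = -2) :
    (x = 2 ∧ y = 2 ∧ z = 1) ∨ (y = 1 ∧ z = 2 * x + 1) := by
  set C := y * z + 1 with hC
  have hyz : 0 < y * z := mul_pos hy hz
  have hC2 : 2 ≤ C := by omega
  set g := R * (x * C + z) - 2 * a * C with hg
  have e1 : C ^ 2 - 2 = (x * C + z) * g := by rw [hg]; linear_combination -h
  have hB : 0 < x * C + z := by positivity
  have hg0 : 0 < g := by
    by_contra hc
    have : (x * C + z) * g ≤ 0 := mul_nonpos_of_nonneg_of_nonpos hB.le (not_lt.mp hc)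
    nlinarith
  set m := x * y * g + g - y * C with hm
  have e2 : g = 2 * y + m * C := by
    rw [hm]
    linear_combination y * e1 - g * hC
  have e3 : C = 2 * x * y + 2 + m * (x * C + z) := by
    have h5 : C * (2 * x * y + 2 + m * (x * C + z) - C) = 0 := by
      rw [e2] at e1
      linear_combination (-1) * e1 - 2 * hC
    rcases mul_eq_zero.mp h5 with h0 | h0
    · omega
    · linarith
  rcases lt_trichotomy m 0 with h0 | h0 | h0
  · left
    have h3 : 0 < 2 * y + m * C := by rw [← e2]; exact hg0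
    have hmC : m * C ≤ -C := by nlinarith
    have h4 : C < 2 * y := by linarith
    have hz1 : z = 1 := by
      by_contra hne
      have : 2 ≤ z := by omega
      have : y * 2 ≤ y * z := mul_le_mul_of_nonneg_left this hy.le
      linarith
    have hCy : C = y + 1 := by rw [hC, hz1]; ring
    have hm1 : m = -1 := by
      by_contra hne
      have : m ≤ -2 := by omega
      have : m * C ≤ -2 * C := mul_le_mul_of_nonneg_right this (by omega)
      linarith
    rw [hm1, hz1, hCy] at e3
    have e4 : y = x * (y - 1) := by linarith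
    have hy2 : 2 ≤ y := by
      by_contra hne
      have : y = 1 := by omega
      rw [this] at e4
      simp at e4
    have hx2 : 2 ≤ x := by
      by_contra hne
      have : x = 1 := by omega
      rw [this] at e4
      linarith
    have h5 : 2 * (y - 1) ≤ x * (y - 1) := mul_le_mul_of_nonneg_right hx2 (by omega)
    have hy3 : y = 2 := by linarith
    rw [hy3] at e4
    exact ⟨by linarith, hy3, hz1⟩
  · right
    rw [h0] at e3
    have e4 : y * (z - 2 * x) = 1 := by rw [hC] at e3; linarith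
    have h5 : 0 < z - 2 * x := by
      by_contra hc
      have : y * (z - 2 * x) ≤ 0 := mul_nonpos_of_nonneg_of_nonpos hy.le (not_lt.mp hc)
      omega
    have h6 : y = 1 := by
      have h7 : y * 1 ≤ y * (z - 2 * x) := mul_le_mul_of_nonneg_left h5 hy.le
      omega
    rw [h6] at e4
    exact ⟨h6, by linarith⟩
  · exfalso
    have h3 : x * C + z ≤ m * (x * C + z) := by nlinarith
    have h4 : C ≤ x * C := by nlinarith
    have h5 : 0 < x * y := mul_pos hx hy
    linarith

/-- the family of period six -/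
structure P6 (H : Half) (b k : ℤ) : Prop where
  hb : 23 ≤ b
  hk : 1 ≤ k
  len : H.k = 3
  κ0 : (H.κ 0 : ℤ) = b
  κ1 : (H.κ 1 : ℤ) = 2 * b
  κ2 : (H.κ 2 : ℤ) = b * (1 + 2 * b * k) + k
  b0 : H.b 0 = 2 * (b * (1 + 2 * b * k) + k)
  q1 : H.q 1 = 2 * (1 + 2 * b * k)
  q2 : H.q 2 = 1 + 2 * b * k

/-- the family of period eight -/
structure P8 (H : Half) (v k : ℤ) : Prop where
  hb : 23 ≤ v
  hk : 1 ≤ k
  len : H.k = 4
  κ0 : (H.κ 0 : ℤ) = v - 1
  κ1 : (H.κ 1 : ℤ) = 1
  κ2 : (H.κ 2 : ℤ) = 2 * v - 1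
  κ3 : (H.κ 3 : ℤ) = v * (2 * v * k - 1) - k
  b0 : H.b 0 = 2 * (v * (2 * v * k - 1) - k)
  q1 : H.q 1 = 2 * (2 * v * k - 1)
  q2 : H.q 2 = 1 + 2 * (v - 1) * ((2 * v * k - 1) - k)
  q3 : H.q 3 = 2 * v * k - 1

theorem sol_of {d : ℕ} {A B : ℤ} (h : A ^ 2 - d * B ^ 2 = 2 ∨ A ^ 2 - d * B ^ 2 = -2) :
    Sol d B.natAbs := by
  refine ⟨A.natAbs, ?_⟩
  have e1 : ((A.natAbs : ℕ) : ℤ) * (A.natAbs : ℕ) = A ^ 2 := by
    rw [Int.natCast_natAbs, abs_mul_abs_self, pow_two]
  have e2 : ((B.natAbs : ℕ) : ℤ) * (B.natAbs : ℕ) = B ^ 2 := by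
    rw [Int.natCast_natAbs, abs_mul_abs_self, pow_two]
  rcases h with h | h
  · left
    have : ((d * (B.natAbs * B.natAbs) + 2 : ℕ) : ℤ) = ((A.natAbs * A.natAbs : ℕ) : ℤ) := by
      rw [Nat.cast_add, Nat.cast_mul, Nat.cast_mul, Nat.cast_mul, e1, e2]
      push_cast
      linarith
    exact_mod_cast this
  · right
    have : ((d * (B.natAbs * B.natAbs) : ℕ) : ℤ) = ((A.natAbs * A.natAbs + 2 : ℕ) : ℤ) := by
      rw [Nat.cast_add, Nat.cast_mul, Nat.cast_mul, Nat.cast_mul, e1, e2]
      push_cast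
      linarith
    exact_mod_cast this

theorem classify {H : Half} {d : ℕ} {a : ℤ} (hb0 : H.b 0 = 2 * a) (hq1 : H.q 1 = d - a ^ 2)
    (hk2 : H.q H.k = 2) (hk4 : H.k ≤ 4) :
    (∃ y, 0 < y ∧ y ≤ 1000 ∧ Sol d y) ∨ (∃ b k, P6 H b k) ∨ (∃ v k, P8 H v k) := by
  have hk0 := H.hk
  have hq0 := H.q0
  have hc := H.center
  have hκ : ∀ n, n < H.k → (0 : ℤ) < H.κ n := fun n hn => by exact_mod_cast H.κpos n hn
  obtain ⟨R, hR⟩ : ∃ R, R = H.q 1 := ⟨_, rfl⟩
  have hdR : (d : ℤ) = a ^ 2 + R := by rw [hR, hq1]; ring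
  have hRpos : 0 < R := by rw [hR]; exact H.qpos 1 (by omega)
  have hk : H.k = 1 ∨ H.k = 2 ∨ H.k = 3 ∨ H.k = 4 := by omega
  rcases hk with hk | hk | hk | hk
  · left
    rw [hk, ← hR] at hk2
    refine ⟨1, by norm_num, by norm_num, ?_⟩
    have := sol_of (d := d) (A := a) (B := 1) (Or.inr (by rw [hdR, hk2]; ring))
    exact this
  · left
    have r0 := H.recq 0 (by omega)
    have x0 := hκ 0 (by omega)
    rw [hk] at hk2
    rw [zero_add, hk2, hq0, hb0, ← hR] at r0
    obtain ⟨x, hx⟩ : ∃ x : ℤ, x = (H.κ 0 : ℤ) := ⟨_, rfl⟩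
    rw [← hx] at r0 x0
    have e1 : x * (2 * a - R * x) = 1 := by linarith
    have h5 : 0 < 2 * a - R * x := by
      by_contra hc
      have : x * (2 * a - R * x) ≤ 0 := mul_nonpos_of_nonneg_of_nonpos x0.le (not_lt.mp hc)
      omega
    have h6 : x = 1 := by
      have h7 : x * 1 ≤ x * (2 * a - R * x) := mul_le_mul_of_nonneg_left h5 x0.le
      omega
    rw [h6] at e1
    refine ⟨1, by norm_num, by norm_num, ?_⟩
    have := sol_of (d := d) (A := a + 1) (B := 1) (Or.inl (by rw [hdR]; linear_combination e1))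
    exact this
  · have r0 := H.recq 0 (by omega)
    have r1 := H.recq 1 (by omega)
    have s0 := H.recb 0 (by omega)
    have s1 := H.recb 1 (by omega)
    have x0 := hκ 0 (by omega)
    have y0 := hκ 1 (by omega)
    have hq2ne := H.qone 2 (by norm_num) (by omega)
    have hq2pos := H.qpos 2 (by omega)
    rw [hk] at hk2 hc
    simp only [zero_add, Nat.reduceAdd, Nat.reduceSub] at r0 r1 s0 s1 hc
    rw [hq0, hb0, ← hR] at r0
    rw [hb0, ← hR] at s0
    rw [hk2, ← hR] at r1
    rw [hk2] at hc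
    obtain ⟨x, hx⟩ : ∃ x : ℤ, x = (H.κ 0 : ℤ) := ⟨_, rfl⟩
    obtain ⟨y, hy⟩ : ∃ y : ℤ, y = (H.κ 1 : ℤ) := ⟨_, rfl⟩
    obtain ⟨w, hw⟩ : ∃ w : ℤ, w = (H.κ 2 : ℤ) := ⟨_, rfl⟩
    rw [← hx] at r0 s0 x0
    rw [← hy] at r1 s1 y0
    rw [← hw] at hc
    have hN : R * (x * y + 1) ^ 2 - 2 * a * y * (x * y + 1) - y ^ 2 = 2 := by
      rw [s0, r0] at r1
      linear_combination -r1
    have hnorm : (a * (x * y + 1) + y) ^ 2 - d * (x * y + 1) ^ 2 = -2 := by
      rw [hdR]; linear_combination -hN
    rcases k3_aux x0 y0 hN with ⟨hx2, hy1⟩ | hy2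
    · left
      refine ⟨3, by norm_num, by norm_num, ?_⟩
      have := sol_of (d := d) (Or.inr hnorm)
      rw [hx2, hy1] at this
      exact this
    · by_cases hx22 : x ≤ 22
      · left
        refine ⟨(x * y + 1).natAbs, ?_, ?_, sol_of (Or.inr hnorm)⟩
        · have : 0 < x * y + 1 := by positivity
          omega
        · have h5 : x * y + 1 ≤ 969 := by rw [hy2]; nlinarith
          have h6 : 0 < x * y + 1 := by positivity
          omega
      · right; left
        obtain ⟨s, hs⟩ : ∃ s, s = H.q 2 := ⟨_, rfl⟩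
        rw [← hs] at r0 hq2ne hq2pos s1
        have hB : (0 : ℤ) < x * y + 1 := by positivity
        have e1 : R * (x * y + 1) = 4 * a * x + 2 := by
          have : (x * y + 1) * (R * (x * y + 1) - (4 * a * x + 2)) = 0 := by
            rw [hy2] at hN ⊢
            linear_combination hN
          rcases mul_eq_zero.mp this with h0 | h0
          · omega
          · linarith
        rw [hy2] at e1
        have e2 : R = 2 * s := by rw [r0]; linear_combination e1
        obtain ⟨k, hkk⟩ : ∃ k, k = a - x * s := ⟨_, rfl⟩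
        have e3 : s = 1 + 2 * x * k := by
          rw [hkk]; rw [e2] at r0; linear_combination r0
        have e4 : a = x * s + k := by rw [hkk]; ring
        have hk1 : 1 ≤ k := by
          by_contra hc
          have : k ≤ 0 := by omega
          have : x * k ≤ 0 := mul_nonpos_of_nonneg_of_nonpos x0.le this
          have : s = 1 := by linarith
          exact hq2ne this
        refine ⟨x, k, by omega, hk1, hk, hx.symm, by rw [← hy, hy2], ?_, ?_, ?_, ?_⟩
        · rw [← hw]
          have : w = a := by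
            rw [s1, hy2, s0, e2] at hc
            linarith
          rw [this, e4, e3]
        · rw [hb0, e4, e3]
        · rw [← hR, e2, e3]
        · rw [← hs, e3]
  · have r0 := H.recq 0 (by omega)
    have r1 := H.recq 1 (by omega)
    have r2 := H.recq 2 (by omega)
    have s0 := H.recb 0 (by omega)
    have s1 := H.recb 1 (by omega)
    have s2 := H.recb 2 (by omega)
    have x0 := hκ 0 (by omega)
    have y0 := hκ 1 (by omega)
    have z0 := hκ 2 (by omega)
    have hq3pos := H.qpos 3 (by omega)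
    rw [hk] at hk2 hc
    simp only [zero_add, Nat.reduceAdd, Nat.reduceSub] at r0 r1 r2 s0 s1 s2 hc
    rw [hq0, hb0, ← hR] at r0
    rw [hb0, ← hR] at s0
    rw [← hR] at r1
    rw [hk2] at hc r2
    obtain ⟨x, hx⟩ : ∃ x : ℤ, x = (H.κ 0 : ℤ) := ⟨_, rfl⟩
    obtain ⟨y, hy⟩ : ∃ y : ℤ, y = (H.κ 1 : ℤ) := ⟨_, rfl⟩
    obtain ⟨z, hz⟩ : ∃ z : ℤ, z = (H.κ 2 : ℤ) := ⟨_, rfl⟩
    obtain ⟨w, hw⟩ : ∃ w : ℤ, w = (H.κ 3 : ℤ) := ⟨_, rfl⟩
    rw [← hx] at r0 s0 x0
    rw [← hy] at r1 s1 y0
    rw [← hz] at r2 s2 z0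
    rw [← hw] at hc
    have hN : R * (x * (y * z + 1) + z) ^ 2 - 2 * a * (y * z + 1) * (x * (y * z + 1) + z) -
      (y * z + 1) ^ 2 = -2 := by
      rw [s1, r1, r0, s0] at r2
      linear_combination r2
    have hnorm : (a * (x * (y * z + 1) + z) + (y * z + 1)) ^ 2 - d * (x * (y * z + 1) + z) ^ 2 = 2 := by
      rw [hdR]; linear_combination -hN
    rcases k4_aux x0 y0 z0 hN with ⟨hx2, hy2, hz1⟩ | ⟨hy1, hz2⟩
    · left
      refine ⟨7, by norm_num, by norm_num, ?_⟩
      have := sol_of (d := d) (Or.inl hnorm)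
      rw [hx2, hy2, hz1] at this
      exact this
    · by_cases hx22 : x ≤ 21
      · left
        refine ⟨(x * (y * z + 1) + z).natAbs, ?_, ?_, sol_of (Or.inl hnorm)⟩
        · have : 0 < x * (y * z + 1) + z := by positivity
          omega
        · have h5 : x * (y * z + 1) + z ≤ 967 := by rw [hy1, hz2]; nlinarith
          have h6 : 0 < x * (y * z + 1) + z := by positivity
          omega
      · right; right
        obtain ⟨s, hs⟩ : ∃ s, s = H.q 3 := ⟨_, rfl⟩
        obtain ⟨v, hv⟩ : ∃ v, v = x + 1 := ⟨_, rfl⟩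
        have hxv : x = v - 1 := by omega
        rw [hy1] at r1 s1 hN
        rw [hz2] at r2 s2 hN
        rw [← hs] at r1 r2 s2 hq3pos
        have hv0 : 0 < v := by omega
        rw [hxv] at r0 s0 r2 s2 hN
        have hB : (0 : ℤ) < 2 * v ^ 2 - 1 := two_sq_pos hv0
        have e1 : R * (2 * v ^ 2 - 1) = 4 * a * v + 2 := by
          have : (2 * v ^ 2 - 1) * (R * (2 * v ^ 2 - 1) - (4 * a * v + 2)) = 0 := by
            linear_combination hN
          rcases mul_eq_zero.mp this with h0 | h0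
          · exact absurd h0 hB.ne'
          · linarith
        have e0 : s = v ^ 2 * R - 2 * a * v - 1 := by rw [r1, s0, r0]; ring
        have e2 : R = 2 * s := by rw [e0]; linear_combination -e1
        obtain ⟨k, hkk⟩ : ∃ k, k = v * s - a := ⟨_, rfl⟩
        have e3 : s = 2 * v * k - 1 := by
          rw [hkk]; rw [e2] at e0; linear_combination e0
        have e4 : a = v * s - k := by rw [hkk]; ring
        have hk1 : 1 ≤ k := by
          by_contra hc
          have : k ≤ 0 := by omega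
          have : v * k ≤ 0 := mul_nonpos_of_nonneg_of_nonpos hv0.le this
          linarith
        have hq2 : H.q 2 = 1 + 2 * (v - 1) * (s - k) := by
          rw [r0, e2, e4]; ring
        refine ⟨v, k, by omega, hk1, hk, by rw [← hx, hxv], by rw [← hy, hy1], ?_, ?_, ?_, ?_, ?_, ?_⟩
        · rw [← hz, hz2, hxv]; ring
        · rw [← hw]
          have : w = a := by
            have h9 : 2 * w = 2 * a := by
              rw [hc, s2, s1, hq2, s0, e2]
              have e5 : s * (2 * v ^ 2 - 1) = 2 * a * v + 1 := by rw [e2] at e1; linarith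
              rw [e4] at e5 ⊢
              linear_combination (-2 : ℤ) * e5 - 4 * e3
            linarith
          rw [this, e4, e3]
        · rw [hb0, e4, e3]
        · rw [← hR, e2, e3]
        · rw [hq2, e3]
        · rw [← hs, e3]

end Pool.Agent.H449
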