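import Pool.Agent.H449.C5

/-! Sieve computations, period 6. -/

set_option maxRecDepth 100000

namespace Pool.Agent.H449

theorem sv6_2 : sieveG sh6 pr6 (fin61 sh6 pr6) 10 5 = true := by decide +kernel

theorem sv6_3 : sieveG sh6 pr6 (fin61 sh6 pr6) 15 5 = true := by decide +kernel

end Pool.Agent.H449
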