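import Pool.Agent.H449.C5

/-! Sieve computations, period 8. -/

set_option maxRecDepth 100000

namespace Pool.Agent.H449

theorem sv8_6 : sieveG sh8 pr8 (fin61 sh8 pr8) 19 3 = true := by decide +kernel

theorem sv8_7 : sieveG sh8 pr8 (fin61 sh8 pr8) 22 3 = true := by decide +kernel

end Pool.Agent.H449
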