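import Pool.Agent.H449.C6
import Pool.Agent.H449.S1
import Pool.Agent.H449.S2
import Pool.Agent.H449.S3
import Pool.Agent.H449.S4
import Pool.Agent.H449.T1
import Pool.Agent.H449.T2
import Pool.Agent.H449.T3
import Pool.Agent.H449.T4
import Pool.Agent.H449.T5
import Pool.Agent.H449.T6

/-! The two families of period six and eight are empty. -/

namespace Pool.Agent.H449

open H419R2

variable {H : Half} {b k u a : ℤ} {qi : ℕ → ℤ}

theorem no6 (m : Mem2 H sh6 pr6 b k u a) (S : Sys H qi sh6 u a 0) : False := by
  have hb : res b 37 < 37 := res_lt b (by norm_num)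
  by_cases h0 : res b 37 < 5
  · exact fin61_sound m S (sieveG_sound m S (by omega) (by omega) sv6_0)
  by_cases h1 : res b 37 < 10
  · exact fin61_sound m S (sieveG_sound m S (by omega) (by omega) sv6_1)
  by_cases h2 : res b 37 < 15
  · exact fin61_sound m S (sieveG_sound m S (by omega) (by omega) sv6_2)
  by_cases h3 : res b 37 < 20
  · exact fin61_sound m S (sieveG_sound m S (by omega) (by omega) sv6_3)
  by_cases h4 : res b 37 < 25
  · exact fin61_sound m S (sieveG_sound m S (by omega) (by omega) sv6_4)
  by_cases h5 : res b 37 < 29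
  · exact fin61_sound m S (sieveG_sound m S (by omega) (by omega) sv6_5)
  by_cases h6 : res b 37 < 33
  · exact fin61_sound m S (sieveG_sound m S (by omega) (by omega) sv6_6)
  exact fin61_sound m S (sieveG_sound m S (by omega) (by omega) sv6_7)

theorem no8 (m : Mem2 H sh8 pr8 b k u a) (S : Sys H qi sh8 u a 0) : False := by
  have hb : res b 37 < 37 := res_lt b (by norm_num)
  by_cases h0 : res b 37 < 4
  · exact fin61_sound m S (sieveG_sound m S (by omega) (by omega) sv8_0)
  by_cases h1 : res b 37 < 7
  · exact fin61_sound m S (sieveG_sound m S (by omega) (by omega) sv8_1)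
  by_cases h2 : res b 37 < 10
  · exact fin61_sound m S (sieveG_sound m S (by omega) (by omega) sv8_2)
  by_cases h3 : res b 37 < 13
  · exact fin61_sound m S (sieveG_sound m S (by omega) (by omega) sv8_3)
  by_cases h4 : res b 37 < 16
  · exact fin61_sound m S (sieveG_sound m S (by omega) (by omega) sv8_4)
  by_cases h5 : res b 37 < 19
  · exact fin61_sound m S (sieveG_sound m S (by omega) (by omega) sv8_5)
  by_cases h6 : res b 37 < 22
  · exact fin61_sound m S (sieveG_sound m S (by omega) (by omega) sv8_6)
  by_cases h7 : res b 37 < 25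
  · exact fin61_sound m S (sieveG_sound m S (by omega) (by omega) sv8_7)
  by_cases h8 : res b 37 < 28
  · exact fin61_sound m S (sieveG_sound m S (by omega) (by omega) sv8_8)
  by_cases h9 : res b 37 < 31
  · exact fin61_sound m S (sieveG_sound m S (by omega) (by omega) sv8_9)
  by_cases h10 : res b 37 < 34
  · exact fin61_sound m S (sieveG_sound m S (by omega) (by omega) sv8_10)
  exact fin61_sound m S (sieveG_sound m S (by omega) (by omega) sv8_11)

end Pool.Agent.H449
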