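import Pool.Agent.H449.G4
import Pool.Agent.H449.G5

/-! Real quadratic fields of even discriminant with unique factorisation and period at most eight. -/

set_option maxRecDepth 100000

namespace Pool.Agent.H449

open H419R2 Module
open Pool.Agent.N911 (mod_res res_cast')

theorem pr6_app (l b' k' : ℕ) : ∃ u' a' R' : ℕ, ∀ g, pr6 l b' k' g = g u' a' R' := by
  simp only [pr6, force_eq]
  exact ⟨_, _, _, fun g => rfl⟩

theorem pr8_app (l b' k' : ℕ) : ∃ u' a' R' : ℕ, ∀ g, pr8 l b' k' g = g u' a' R' := by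
  simp only [pr8, force_eq]
  exact ⟨_, _, _, fun g => rfl⟩

theorem P6.hs {H : Half} {b k : ℤ} (P : P6 H b k) : HS H sh6 b (b * (1 + 2 * b * k) + k) 0 where
  len := by rw [P.len]; rfl
  shp := by
    change (H.κ 0 : ℤ) = ((1 : ℕ) : ℤ) * b + ((0 : ℕ) : ℤ) ∧
      ((H.κ 1 : ℤ) = ((2 : ℕ) : ℤ) * b + ((0 : ℕ) : ℤ) ∧ True)
    rw [P.κ0, P.κ1]
    refine ⟨?_, ?_, trivial⟩ <;> push_cast <;> ring
  hv := by rw [P.len]; exact P.κ2
  hb := by rw [P.b0]; push_cast; ring

theorem P6.mem {H : Half} {b k : ℤ} (P : P6 H b k) :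
    Mem2 H sh6 pr6 b k b (b * (1 + 2 * b * k) + k) where
  hs := P.hs
  hpr := by
    intro l hl g
    have hl0 : 0 < l := by omega
    have cb := res_cast' b hl0
    have ck := res_cast' k hl0
    unfold pr6
    rw [force_eq, force_eq, force_eq]
    have e1 : Nat.mod (Nat.add 1 (Nat.mul (Nat.mul 2 (res b l)) (res k l))) l =
        res (1 + 2 * b * k) l := by
      apply mod_res hl0
      change ((1 + 2 * res b l * res k l : ℕ) : ZMod l) = _
      push_cast
      rw [cb, ck]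
    have cs := res_cast' (1 + 2 * b * k) hl0
    rw [e1]
    have e2 : Nat.mod (Nat.add (Nat.mul (res b l) (res (1 + 2 * b * k) l)) (res k l)) l =
        res (b * (1 + 2 * b * k) + k) l := by
      apply mod_res hl0
      change ((res b l * res (1 + 2 * b * k) l + res k l : ℕ) : ZMod l) = _
      push_cast
      rw [cb, ck, cs]
      push_cast
      ring
    have e3 : Nat.mod (Nat.mul 2 (res (1 + 2 * b * k) l)) l = res (H.q 1) l := by
      apply mod_res hl0
      change ((2 * res (1 + 2 * b * k) l : ℕ) : ZMod l) = _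
      rw [P.q1]
      push_cast
      rw [cs]
      push_cast
      ring
    rw [e2, e3]
  app := pr6_app

theorem P8.hs {H : Half} {v k : ℤ} (P : P8 H v k) :
    HS H sh8 (v - 1) (v * (2 * v * k - 1) - k) 0 where
  len := by rw [P.len]; rfl
  shp := by
    change (H.κ 0 : ℤ) = ((1 : ℕ) : ℤ) * (v - 1) + ((0 : ℕ) : ℤ) ∧
      ((H.κ 1 : ℤ) = ((0 : ℕ) : ℤ) * (v - 1) + ((1 : ℕ) : ℤ) ∧
        ((H.κ 2 : ℤ) = ((2 : ℕ) : ℤ) * (v - 1) + ((1 : ℕ) : ℤ) ∧ True))
    rw [P.κ0, P.κ1, P.κ2]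
    refine ⟨?_, ?_, ?_, trivial⟩ <;> push_cast <;> ring
  hv := by rw [P.len]; exact P.κ3
  hb := by rw [P.b0]; push_cast; ring

theorem P8.mem {H : Half} {v k : ℤ} (P : P8 H v k) :
    Mem2 H sh8 pr8 v k (v - 1) (v * (2 * v * k - 1) - k) where
  hs := P.hs
  hpr := by
    intro l hl g
    have hl0 : 0 < l := by omega
    have cb := res_cast' v hl0
    have ck := res_cast' k hl0
    have c1 : ((Nat.sub l 1 : ℕ) : ZMod l) = -1 := by
      change ((l - 1 : ℕ) : ZMod l) = -1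
      rw [Nat.cast_sub (by omega)]
      simp
    have c2 : ((Nat.sub l (res k l) : ℕ) : ZMod l) = -(k : ZMod l) := by
      change ((l - res k l : ℕ) : ZMod l) = _
      rw [Nat.cast_sub (res_lt k hl0).le, ck]
      simp
    unfold pr8
    rw [force_eq, force_eq, force_eq, force_eq]
    have e1 : Nat.mod (Nat.add (Nat.mul (Nat.mul 2 (res v l)) (res k l)) (Nat.sub l 1)) l =
        res (2 * v * k - 1) l := by
      apply mod_res hl0
      change ((2 * res v l * res k l + Nat.sub l 1 : ℕ) : ZMod l) = _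
      push_cast
      rw [cb, ck, c1]
      push_cast
      ring
    have cs := res_cast' (2 * v * k - 1) hl0
    rw [e1]
    have e2 : Nat.mod (Nat.add (Nat.mul (res v l) (res (2 * v * k - 1) l)) (Nat.sub l (res k l))) l =
        res (v * (2 * v * k - 1) - k) l := by
      apply mod_res hl0
      change ((res v l * res (2 * v * k - 1) l + Nat.sub l (res k l) : ℕ) : ZMod l) = _
      push_cast
      rw [cb, c2, cs]
      push_cast
      ring
    have e3 : Nat.mod (Nat.mul 2 (res (2 * v * k - 1) l)) l = res (H.q 1) l := by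
      apply mod_res hl0
      change ((2 * res (2 * v * k - 1) l : ℕ) : ZMod l) = _
      rw [P.q1]
      push_cast
      rw [cs]
      push_cast
      ring
    have e4 : Nat.mod (Nat.add (res v l) (Nat.sub l 1)) l = res (v - 1) l := by
      apply mod_res hl0
      change ((res v l + Nat.sub l 1 : ℕ) : ZMod l) = _
      rw [Nat.cast_add, cb, c1]
      push_cast
      ring
    rw [e2, e3, e4]
  app := pr8_app
theorem e6_23 : chkOne 1 1082 94 0 4 11 7 (SL.cons 0 23 (SL.cons 0 46 SL.nil)) = true := by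
  decide +kernel
theorem e6_24 : chkOne 1 1177 98 0 4 3 2 (SL.cons 0 24 (SL.cons 0 48 SL.nil)) = true := by
  decide +kernel
theorem e6_25 : chkOne 1 1276 102 0 4 3 0 (SL.cons 0 25 (SL.cons 0 50 SL.nil)) = true := by
  decide +kernel
theorem e6_26 : chkOne 1 1379 106 0 4 7 1 (SL.cons 0 26 (SL.cons 0 52 SL.nil)) = true := by
  decide +kernel
theorem e6_27 : chkOne 1 1486 110 0 4 3 2 (SL.cons 0 27 (SL.cons 0 54 SL.nil)) = true := by
  decide +kernel
theorem e6_28 : chkOne 1 1597 114 0 4 3 0 (SL.cons 0 28 (SL.cons 0 56 SL.nil)) = true := by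
  decide +kernel
theorem e6_29 : chkOne 1 1712 118 0 4 7 2 (SL.cons 0 29 (SL.cons 0 58 SL.nil)) = true := by
  decide +kernel
theorem e6_30 : chkOne 1 1831 122 0 4 3 2 (SL.cons 0 30 (SL.cons 0 60 SL.nil)) = true := by
  decide +kernel
theorem e6_31 : chkOne 1 1954 126 0 4 3 0 (SL.cons 0 31 (SL.cons 0 62 SL.nil)) = true := by
  decide +kernel
theorem e6_32 : chkOne 1 2081 130 0 4 5 0 (SL.cons 0 32 (SL.cons 0 64 SL.nil)) = true := by
  decide +kernel
theorem e6_33 : chkOne 1 2212 134 0 4 3 2 (SL.cons 0 33 (SL.cons 0 66 SL.nil)) = true := by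
  decide +kernel
theorem e6_34 : chkOne 1 2347 138 0 4 3 0 (SL.cons 0 34 (SL.cons 0 68 SL.nil)) = true := by
  decide +kernel
theorem e6_35 : chkOne 1 2486 142 0 4 23 8 (SL.cons 0 35 (SL.cons 0 70 SL.nil)) = true := by
  decide +kernel
theorem e6_36 : chkOne 1 2629 146 0 4 3 2 (SL.cons 0 36 (SL.cons 0 72 SL.nil)) = true := by
  decide +kernel
theorem e8_23 : chkOne 1 1034 90 0 4 3 0 (SL.cons 0 22 (SL.cons 0 1 (SL.cons 0 45 SL.nil))) = true := by
  decide +kernel
theorem e8_24 : chkOne 1 1127 94 0 4 11 3 (SL.cons 0 23 (SL.cons 0 1 (SL.cons 0 47 SL.nil))) = true := by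
  decide +kernel
theorem e8_25 : chkOne 1 1224 98 0 4 5 3 (SL.cons 0 24 (SL.cons 0 1 (SL.cons 0 49 SL.nil))) = true := by
  decide +kernel
theorem e8_26 : chkOne 1 1325 102 0 4 3 0 (SL.cons 0 25 (SL.cons 0 1 (SL.cons 0 51 SL.nil))) = true := by
  decide +kernel
theorem e8_27 : chkOne 1 1430 106 0 4 5 1 (SL.cons 0 26 (SL.cons 0 1 (SL.cons 0 53 SL.nil))) = true := by
  decide +kernel
theorem e8_28 : chkOne 1 1539 110 0 4 5 0 (SL.cons 0 27 (SL.cons 0 1 (SL.cons 0 55 SL.nil))) = true := by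
  decide +kernel
theorem e8_29 : chkOne 1 1652 114 0 4 3 0 (SL.cons 0 28 (SL.cons 0 1 (SL.cons 0 57 SL.nil))) = true := by
  decide +kernel
theorem e8_30 : chkOne 1 1769 118 0 4 5 3 (SL.cons 0 29 (SL.cons 0 1 (SL.cons 0 59 SL.nil))) = true := by
  decide +kernel
theorem e8_31 : chkOne 1 1890 122 0 4 11 6 (SL.cons 0 30 (SL.cons 0 1 (SL.cons 0 61 SL.nil))) = true := by
  decide +kernel
theorem e8_32 : chkOne 1 2015 126 0 4 3 0 (SL.cons 0 31 (SL.cons 0 1 (SL.cons 0 63 SL.nil))) = true := by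
  decide +kernel
theorem e8_33 : chkOne 1 2144 130 0 4 5 0 (SL.cons 0 32 (SL.cons 0 1 (SL.cons 0 65 SL.nil))) = true := by
  decide +kernel
theorem e8_34 : chkOne 1 2277 134 0 4 17 5 (SL.cons 0 33 (SL.cons 0 1 (SL.cons 0 67 SL.nil))) = true := by
  decide +kernel
theorem e8_35 : chkOne 1 2414 138 0 4 3 0 (SL.cons 0 34 (SL.cons 0 1 (SL.cons 0 69 SL.nil))) = true := by
  decide +kernel
theorem e8_36 : chkOne 1 2555 142 0 4 7 3 (SL.cons 0 35 (SL.cons 0 1 (SL.cons 0 71 SL.nil))) = true := by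
  decide +kernel
theorem e8_37 : chkOne 1 2700 146 0 2 31 0 (SL.cons 0 36 (SL.cons 0 1 (SL.cons 0 73 SL.nil))) = true := by
  decide +kernel
/-- `d` in terms of the half cycle -/
theorem d_of {d : ℕ} {H : Half} (hD : 4 * (d : ℤ) = H.b 0 ^ 2 + 4 * H.q 1) {a : ℤ} {A R : ℕ}
    (hb : H.b 0 = 2 * a) (ha : a = A) (hR : H.q 1 = R) : d = A * A + R := by
  rw [hb, ha, hR] at hD
  have : (d : ℤ) = ((A * A + R : ℕ) : ℤ) := by push_cast; linarith
  exact_mod_cast this

theorem exc6 {H : Half} {b k : ℤ} {d : ℕ} (P : P6 H b k) (F : FD d 1)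
    (hD : 4 * (d : ℤ) = H.b 0 ^ 2 + 4 * H.q 1) (hk : k = 1) (hb : b ≤ 36) : tb LB d = true := by
  have hb0 := P.b0
  have hq1 := P.q1
  have h23 := P.hb
  subst hk
  obtain ⟨B, hB⟩ : ∃ B : ℕ, b = B := ⟨b.toNat, by omega⟩
  subst hB
  have h1 : 23 ≤ B := by exact_mod_cast h23
  have h2 : B ≤ 36 := by exact_mod_cast hb
  clear P h23 hb
  interval_cases B
  · exact chkOne_sound F (d_of hD hb0 (A := 1082) (R := 94) (by norm_num) (by rw [hq1]; norm_num)) e6_23
  · exact chkOne_sound F (d_of hD hb0 (A := 1177) (R := 98) (by norm_num) (by rw [hq1]; norm_num)) e6_24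
  · exact chkOne_sound F (d_of hD hb0 (A := 1276) (R := 102) (by norm_num) (by rw [hq1]; norm_num)) e6_25
  · exact chkOne_sound F (d_of hD hb0 (A := 1379) (R := 106) (by norm_num) (by rw [hq1]; norm_num)) e6_26
  · exact chkOne_sound F (d_of hD hb0 (A := 1486) (R := 110) (by norm_num) (by rw [hq1]; norm_num)) e6_27
  · exact chkOne_sound F (d_of hD hb0 (A := 1597) (R := 114) (by norm_num) (by rw [hq1]; norm_num)) e6_28
  · exact chkOne_sound F (d_of hD hb0 (A := 1712) (R := 118) (by norm_num) (by rw [hq1]; norm_num)) e6_29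
  · exact chkOne_sound F (d_of hD hb0 (A := 1831) (R := 122) (by norm_num) (by rw [hq1]; norm_num)) e6_30
  · exact chkOne_sound F (d_of hD hb0 (A := 1954) (R := 126) (by norm_num) (by rw [hq1]; norm_num)) e6_31
  · exact chkOne_sound F (d_of hD hb0 (A := 2081) (R := 130) (by norm_num) (by rw [hq1]; norm_num)) e6_32
  · exact chkOne_sound F (d_of hD hb0 (A := 2212) (R := 134) (by norm_num) (by rw [hq1]; norm_num)) e6_33
  · exact chkOne_sound F (d_of hD hb0 (A := 2347) (R := 138) (by norm_num) (by rw [hq1]; norm_num)) e6_34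
  · exact chkOne_sound F (d_of hD hb0 (A := 2486) (R := 142) (by norm_num) (by rw [hq1]; norm_num)) e6_35
  · exact chkOne_sound F (d_of hD hb0 (A := 2629) (R := 146) (by norm_num) (by rw [hq1]; norm_num)) e6_36

theorem exc8 {H : Half} {v k : ℤ} {d : ℕ} (P : P8 H v k) (F : FD d 1)
    (hD : 4 * (d : ℤ) = H.b 0 ^ 2 + 4 * H.q 1) (hk : k = 1) (hb : v ≤ 37) : tb LB d = true := by
  have hb0 := P.b0
  have hq1 := P.q1
  have h23 := P.hb
  subst hk
  obtain ⟨B, hB⟩ : ∃ B : ℕ, v = B := ⟨v.toNat, by omega⟩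
  subst hB
  have h1 : 23 ≤ B := by exact_mod_cast h23
  have h2 : B ≤ 37 := by exact_mod_cast hb
  clear P h23 hb
  interval_cases B
  · exact chkOne_sound F (d_of hD hb0 (A := 1034) (R := 90) (by norm_num) (by rw [hq1]; norm_num)) e8_23
  · exact chkOne_sound F (d_of hD hb0 (A := 1127) (R := 94) (by norm_num) (by rw [hq1]; norm_num)) e8_24
  · exact chkOne_sound F (d_of hD hb0 (A := 1224) (R := 98) (by norm_num) (by rw [hq1]; norm_num)) e8_25
  · exact chkOne_sound F (d_of hD hb0 (A := 1325) (R := 102) (by norm_num) (by rw [hq1]; norm_num)) e8_26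
  · exact chkOne_sound F (d_of hD hb0 (A := 1430) (R := 106) (by norm_num) (by rw [hq1]; norm_num)) e8_27
  · exact chkOne_sound F (d_of hD hb0 (A := 1539) (R := 110) (by norm_num) (by rw [hq1]; norm_num)) e8_28
  · exact chkOne_sound F (d_of hD hb0 (A := 1652) (R := 114) (by norm_num) (by rw [hq1]; norm_num)) e8_29
  · exact chkOne_sound F (d_of hD hb0 (A := 1769) (R := 118) (by norm_num) (by rw [hq1]; norm_num)) e8_30
  · exact chkOne_sound F (d_of hD hb0 (A := 1890) (R := 122) (by norm_num) (by rw [hq1]; norm_num)) e8_31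
  · exact chkOne_sound F (d_of hD hb0 (A := 2015) (R := 126) (by norm_num) (by rw [hq1]; norm_num)) e8_32
  · exact chkOne_sound F (d_of hD hb0 (A := 2144) (R := 130) (by norm_num) (by rw [hq1]; norm_num)) e8_33
  · exact chkOne_sound F (d_of hD hb0 (A := 2277) (R := 134) (by norm_num) (by rw [hq1]; norm_num)) e8_34
  · exact chkOne_sound F (d_of hD hb0 (A := 2414) (R := 138) (by norm_num) (by rw [hq1]; norm_num)) e8_35
  · exact chkOne_sound F (d_of hD hb0 (A := 2555) (R := 142) (by norm_num) (by rw [hq1]; norm_num)) e8_36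
  · exact chkOne_sound F (d_of hD hb0 (A := 2700) (R := 146) (by norm_num) (by rw [hq1]; norm_num)) e8_37

theorem big6 {H : Half} {b k : ℤ} {d : ℕ} (P : P6 H b k) (G : HGood H d)
    (hk2 : H.q H.k = 2) (h : 37 ≤ b * k) : False := by
  have hb := P.hb
  have hk := P.hk
  obtain ⟨w, hw⟩ : ∃ w, w = b * k := ⟨_, rfl⟩
  have e1 : 1 + 2 * b * k = 1 + 2 * w := by rw [hw]; ring
  rw [← hw] at h
  have hd : 5329 ≤ d := by
    have h1 : 4 * (d : ℤ) = H.b 0 ^ 2 + 4 * H.q 1 := G.hD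
    rw [P.b0, P.q1, e1] at h1
    have h2 : (1000 : ℤ) ≤ b * (1 + 2 * w) + k := by nlinarith
    have h3 : (5329 : ℤ) ≤ d := by nlinarith
    exact_mod_cast h3
  have hq : ∀ r, 0 < r → r < H.k → 73 < H.q r := by
    intro r h1 h2
    rw [P.len] at h2
    have : r = 1 ∨ r = 2 := by omega
    rcases this with rfl | rfl
    · rw [P.q1, e1]; linarith
    · rw [P.q2, e1]; linarith
  obtain ⟨qi, S⟩ := sys_of G hd hk2 hq P.hs (by norm_num)
  exact no6 P.mem S

theorem big8 {H : Half} {v k : ℤ} {d : ℕ} (P : P8 H v k) (G : HGood H d)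
    (hk2 : H.q H.k = 2) (h : 38 ≤ v * k) : False := by
  have hb := P.hb
  have hk := P.hk
  obtain ⟨w, hw⟩ : ∃ w, w = v * k := ⟨_, rfl⟩
  have e1 : 2 * v * k - 1 = 2 * w - 1 := by rw [hw]; ring
  rw [← hw] at h
  have hkw : k ≤ w := by rw [hw]; nlinarith
  have hd : 5329 ≤ d := by
    have h1 : 4 * (d : ℤ) = H.b 0 ^ 2 + 4 * H.q 1 := G.hD
    rw [P.b0, P.q1, e1] at h1
    have h2 : (1000 : ℤ) ≤ v * (2 * w - 1) - k := by nlinarith
    have h3 : (5329 : ℤ) ≤ d := by nlinarith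
    exact_mod_cast h3
  have hq : ∀ r, 0 < r → r < H.k → 73 < H.q r := by
    intro r h1 h2
    rw [P.len] at h2
    have : r = 1 ∨ r = 2 ∨ r = 3 := by omega
    rcases this with rfl | rfl | rfl
    · rw [P.q1, e1]; linarith
    · rw [P.q2, e1]
      have h5 : 37 ≤ 2 * w - 1 - k := by linarith
      nlinarith
    · rw [P.q3, e1]; linarith
  obtain ⟨qi, S⟩ := sys_of G hd hk2 hq P.hs (by norm_num)
  exact no8 P.mem S

/-- the exceptions with period length at most eight -/
def lst8 : List ℕ := [2, 3, 6, 7, 11, 14, 19, 22, 23, 31, 38, 47, 59, 62, 71, 83, 107, 131, 158,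
  167, 206, 227, 278, 383, 398, 503, 743, 983]

theorem chk8 : ∀ d ∈ lst, (∃ l < 9, 0 < l ∧ cq d (Nat.sqrt d) l = 1) → d ∈ lst8 := by
  decide +kernel

theorem small_sol {d : ℕ} (hsf : Squarefree (d : ℤ)) (hd4 : d % 4 = 2 ∨ d % 4 = 3)
    (good : ∀ H : Half, 4 * (d : ℤ) = H.b 0 ^ 2 + 4 * H.q 1 → HGood H d)
    (h : ∃ y, 0 < y ∧ y ≤ 1000 ∧ Sol d y) : tb LB d = true := by
  classical
  set y := Nat.find h with hy
  obtain ⟨hy0, hy1, hS⟩ := Nat.find_spec h
  rw [← hy] at hy0 hy1 hS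
  have hmin : ∀ y', 0 < y' → y' < y → ¬ Sol d y' :=
    fun y' h1 h2 h3 => Nat.find_min h h2 ⟨h1, by omega, h3⟩
  have F : FD d y :=
    { sf := hsf
      d4 := hd4
      good := good
      min := fun y' z h1 h2 => ⟨fun h => hmin y' h1 h2 ⟨z, Or.inl h⟩, fun h => hmin y' h1 h2 ⟨z, Or.inr h⟩⟩ }
  exact all_chunks F hS hy0 hy1

theorem period_eight {d : ℕ} (hsf : Squarefree (d : ℤ)) (hd4 : d % 4 = 2 ∨ d % 4 = 3)
    {K : Type*} [Field K] [NumberField K] (hK : Module.finrank ℚ K = 2) {x : K}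
    (hx : x ^ 2 = ((d : ℤ) : K)) (hcl : NumberField.classNumber K = 1)
    (hper : perLen (√((d : ℤ) : ℝ)) ≤ 8) : d ∈ lst8 := by
  rcases Nat.lt_or_ge d 6 with hd6 | hd6
  · have hd3 : d = 2 ∨ d = 3 := by omega
    rcases hd3 with rfl | rfl <;> decide
  have good : ∀ H : Half, 4 * (d : ℤ) = H.b 0 ^ 2 + 4 * H.q 1 → HGood H d :=
    fun H hH => good_half H hH hsf hd4 hK hx hcl
  -- the integer part
  obtain ⟨a, ha⟩ : ∃ a : ℤ, a = (Nat.sqrt d : ℕ) := ⟨_, rfl⟩
  have ha0 : 0 < a := by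
    have : 0 < Nat.sqrt d := Nat.sqrt_pos.mpr (by omega)
    rw [ha]; exact_mod_cast this
  have h2 : (d : ℤ) < (a + 1) ^ 2 := by
    rw [ha, pow_two]
    exact_mod_cast Nat.lt_succ_sqrt d
  have h1' : a ^ 2 ≤ (d : ℤ) := by
    rw [ha, pow_two]
    exact_mod_cast Nat.sqrt_le d
  have h1 : a ^ 2 < (d : ℤ) := by
    rcases h1'.lt_or_eq with h | h
    · exact h
    · exfalso
      have h3 : IsUnit a := hsf a ⟨1, by rw [← h]; ring⟩
      have h4 : a = 1 := by
        rcases Int.isUnit_iff.mp h3 with h5 | h5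
        · exact h5
        · omega
      rw [h4] at h
      omega
  -- a form of value two
  obtain ⟨y, hy, X, hX⟩ := exists_sol hsf hd4 hK hx hcl
  have hex : ∃ k, 0 < k ∧ cq (d : ℤ) a k = 2 := by
    have hX0 : 0 < X := by
      rcases Nat.eq_zero_or_pos X with h | h
      · exfalso
        rw [h] at hX
        have : 6 * 1 ≤ d * (y * y) := Nat.mul_le_mul hd6 (Nat.mul_pos hy hy)
        omega
      · exact h
    refine exists_two ha0 h1 h2 (by exact_mod_cast hd6) (x := X) (y := y)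
      (by exact_mod_cast hX0) (by exact_mod_cast hy) ?_
    rcases hX with h | h
    · left
      have : ((d * (y * y) + 2 : ℕ) : ℤ) = ((X * X : ℕ) : ℤ) := by rw [h]
      push_cast at this
      linarith
    · right
      have : ((d * (y * y) : ℕ) : ℤ) = ((X * X + 2 : ℕ) : ℤ) := by rw [h]
      push_cast at this
      linarith
  obtain ⟨H, hb0, hq1, hk2, hpl⟩ := half_of ha0 h1 h2 hex
  have hk4 : H.k ≤ 4 := by omega
  have hD : 4 * (d : ℤ) = H.b 0 ^ 2 + 4 * H.q 1 := by rw [hb0, hq1]; ring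
  have G := good H hD
  have F : FD d 1 :=
    { sf := hsf
      d4 := hd4
      good := good
      min := fun y' z h1 h2 => by omega }
  have hLB : tb LB d = true := by
    rcases classify hb0 hq1 hk2 hk4 with h | ⟨b, k, P⟩ | ⟨v, k, P⟩
    · exact small_sol hsf hd4 good h
    · by_cases hc : 37 ≤ b * k
      · exact (big6 P G hk2 hc).elim
      · have hb := P.hb
        have hk := P.hk
        have hk1 : k = 1 := by nlinarith
        exact exc6 P F hD hk1 (by rw [hk1] at hc; omega)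
    · by_cases hc : 38 ≤ v * k
      · exact (big8 P G hk2 hc).elim
      · have hb := P.hb
        have hk := P.hk
        have hk1 : k = 1 := by nlinarith
        exact exc8 P F hD hk1 (by rw [hk1] at hc; omega)
  have hl := LB_lst hLB
  apply chk8 d hl
  -- the period
  have hmem := Nat.sInf_mem (s := {l : ℕ | 0 < l ∧ nextQ^[l + 1] (√((d : ℤ) : ℝ)) = nextQ (√((d : ℤ) : ℝ))}) (by
    by_contra hne
    rw [Set.not_nonempty_iff_eq_empty] at hne
    have h0 : perLen (√((d : ℤ) : ℝ)) = 0 := by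
      unfold perLen
      rw [hne]
      exact Nat.sInf_empty
    have := H.hk
    omega)
  obtain ⟨m1, m2⟩ := hmem
  have m3 := one_of_per ha0 h1 h2 m2
  refine ⟨sInf {l : ℕ | 0 < l ∧ nextQ^[l + 1] (√((d : ℤ) : ℝ)) = nextQ (√((d : ℤ) : ℝ))}, ?_, m1, ?_⟩
  · unfold perLen at hper
    omega
  · rw [← ha]
    exact m3

end Pool.Agent.H449
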