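import Pool.Agent.H449.C3

/-! Symmetric cycles of odd discriminant: relations and split primes. -/

namespace Pool.Agent.H449

open H419R2 QuadraticAlgebra Module Finset
open Pool.Agent.N156.EP
open Pool.Agent.N911 (SE SY V Ent Chv)

theorem qc_odd {D : ℕ} (h : D % 8 = 5) : QC D (fun n => jacobiSym (n : ℤ) D) where
  h0 := by
    have h1 : (0 : ℤ).gcd (D : ℤ) ≠ 1 := by
      rw [Int.gcd_zero_left, Int.natAbs_natCast]; omega
    have hne : NeZero D := ⟨by omega⟩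
    exact (jacobiSym.eq_zero_iff_not_coprime (b := D)).mpr h1
  h1 := by simp
  tri := fun n => jacobiSym.trichotomy _ _
  mul := fun a b => by push_cast; exact jacobiSym.mul_left _ _ _
  per := fun n => by
    apply jacobiSym.mod_left'
    push_cast
    simp
  neg := by
    refine ⟨2, ?_, ?_⟩
    · exact Nat.coprime_two_left.mpr (Nat.odd_iff.mpr (by omega))
    · have := jacobiSym.at_two (b := D) (Nat.odd_iff.mpr (by omega))
      push_cast
      rw [this, ZMod.χ₈_nat_eq_if_mod_eight, h]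
      simp
      omega

/-- Relation modulo a prime, odd discriminant. -/
theorem rel_odd {R m : ℤ} (C : ECyc R m) [IsDomain (QA R m)] [IsPrincipalIdealRing (QA R m)]
    {D : ℕ} (hD : (D : ℤ) = m ^ 2 + 4 * R) (hD1 : 1 < D) (hm : m % 2 = 1) (hR : R % 2 = 1)
    {p : ℕ} (hp : p.Prime) (hp2 : p ≠ 2)
    (hpD : ¬ p ∣ D) {N : ℕ} [NeZero N] (hcop : N.Coprime D) (χ : ZMod N → ZMod p)
    (hmul : ∀ x y, χ (x * y) = χ x * χ y) (hodd : ∀ x, χ (-x) = -χ x)
    (hB : ∑ a ∈ range N, (a : ZMod p) * χ a = 0) :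
    RelC C χ = 0 := by
  have h8 : D % 8 = 5 := by
    have h1 : m ^ 2 % 8 = 1 := by
      obtain ⟨k, hk⟩ : ∃ k, m = 2 * k + 1 := ⟨m / 2, by omega⟩
      have e : m ^ 2 = 4 * (k * (k + 1)) + 1 := by rw [hk]; ring
      have h2 : (k * (k + 1)) % 2 = 0 := Int.even_iff.mp (Int.even_mul_succ_self k)
      omega
    omega
  refine rel_modQ C (qc_odd h8) (fun n hn => ?_) hD1 hp hp2 (by exact_mod_cast hpD) hcop χ hmul hodd hB
  exact cnt_eq_rr hD hm hR n hn

/-- all that is used about a symmetric cycle of class number one, odd discriminant -/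
structure OGood (H : Half) (d : ℕ) : Prop where
  hD : (d : ℤ) = H.b 0 ^ 2 + 4 * H.q 1
  hd1 : 1 < d
  rel : ∀ c : CD, c.OK → H.q 1 % 2 = 1 → c.q.Coprime d → ¬ c.p ∣ d → ∀ _ : NeZero c.q,
    RelC H.toE (chi c.q c.p c.T) = 0
  split : ∀ l : ℕ, l.Prime → 4 * l ^ 2 ≤ d → (∃ w0 : ℤ, (l : ℤ) ∣ w0 ^ 2 + H.b 0 * w0 - H.q 1) →
    ∃ r, r ≤ H.k ∧ H.q r = l

theorem good_odd (H : Half) {d : ℕ} (hD : (d : ℤ) = H.b 0 ^ 2 + 4 * H.q 1)
    (hsf : Squarefree (d : ℤ)) (hd1 : 1 < d) (hd4 : d % 4 = 1)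
    {K : Type*} [Field K] [NumberField K] (hK : Module.finrank ℚ K = 2) {x : K}
    (hx : x ^ 2 = ((d : ℤ) : K)) (hcl : NumberField.classNumber K = 1) : OGood H d := by
  have hd1' : (1 : ℤ) < d := by exact_mod_cast hd1
  have hm : H.b 0 % 2 = 1 := by
    rcases Int.emod_two_eq_zero_or_one (H.b 0) with h | h
    · exfalso
      obtain ⟨k, hk⟩ : ∃ k, H.b 0 = 2 * k := ⟨H.b 0 / 2, by omega⟩
      rw [hk] at hD
      have : (d : ℤ) = 4 * (k ^ 2 + H.q 1) := by rw [hD]; ring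
      omega
    · exact h
  have i1 : IsDomain (QA (H.q 1) (H.b 0)) := isDomain_of hD hsf hd1'
  have i2 : IsPrincipalIdealRing (QA (H.q 1) (H.b 0)) :=
    pid_of_classNumber_one hm hD hsf hd1' hK hx hcl
  refine ⟨hD, hd1, ?_, ?_⟩
  · intro c hc hR hcop hp hq
    exact rel_odd H.toE hD hd1 hm hR hc.pp hc.p2 hp hcop _ (chi_mul hc.mul)
      (chi_neg hc.q1 hc.mul hc.oth) (chi_sum hc.oth)
  · intro l hl hld hw
    obtain ⟨n, hn⟩ := H.toE.split_norm hD hl (by exact_mod_cast hld) hw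
    obtain ⟨r, hr, he⟩ := H.toE_q_mem n
    exact ⟨r, hr, by rw [← he, hn]⟩

namespace OGood

variable {H : Half} {d : ℕ}

/-- primes which are not norms of the cycle are inert -/
theorem inert (G : OGood H d) {l : ℕ} (hl : l.Prime) (h2 : l ≠ 2) (hld : 4 * l ^ 2 ≤ d)
    (hq : ∀ r, r ≤ H.k → H.q r ≠ l) : ¬ IsSquare (((d : ℕ) : ℤ) : ZMod l) := by
  intro h
  obtain ⟨w0, hw0⟩ := root_of_square hl h2 G.hD h
  obtain ⟨r, hr, he⟩ := G.split l hl hld ⟨w0, hw0⟩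
  exact hq r hr he

theorem disc (G : OGood H d) {n : ℕ} (hn : n < H.k) :
    H.b n ^ 2 + 4 * (H.q n * H.q (n + 1)) = (d : ℤ) := by
  rw [H.disc n hn, G.hD]

/-- norms are invertible modulo inert primes -/
theorem not_dvd_q (G : OGood H d) {l : ℕ} (hin : ¬ IsSquare (((d : ℕ) : ℤ) : ZMod l))
    {n : ℕ} (hn : n < H.k) : ¬ (l : ℤ) ∣ H.q n := by
  intro h
  apply hin
  refine ⟨(H.b n : ZMod l), ?_⟩
  have h1 := congrArg (fun z : ℤ => (z : ZMod l)) (G.disc hn)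
  have h2 : ((H.q n : ℤ) : ZMod l) = 0 := (ZMod.intCast_zmod_eq_zero_iff_dvd _ l).mpr h
  push_cast at h1 ⊢
  rw [h2] at h1
  linear_combination -h1

/-- the first norm is odd -/
theorem odd_q1 (G : OGood H d) (hd : 16 ≤ d) (hq : ∀ r, r ≤ H.k → H.q r ≠ 2) : H.q 1 % 2 = 1 := by
  rcases Int.emod_two_eq_zero_or_one (H.q 1) with h | h
  · exfalso
    obtain ⟨r, hr, he⟩ := G.split 2 Nat.prime_two (by omega) ⟨0, by
      obtain ⟨k, hk⟩ : ∃ k, H.q 1 = 2 * k := ⟨H.q 1 / 2, by omega⟩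
      exact ⟨-k, by rw [hk]; push_cast; ring⟩⟩
    exact hq r hr (by rw [he]; rfl)
  · exact h

end OGood

end Pool.Agent.H449
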