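import Pool.Agent.H449.O1

/-! Kernel-friendly functions for half cycles with a general central form, one parameter. -/

set_option maxRecDepth 100000

namespace Pool.Agent.H449

open H419R2 Finset
open Pool.Agent.N911 (imp cj sl sl1 sl2 evD chD cj_true imp_true mod_res res_cast' chkI inv_of pk Ent
  Chv beq_mod V)

/-- records for given `v, R` -/
noncomputable def mkRecP (l I Q P dl : ℕ) (sh : SL) (v R : ℕ) (c : ℕ → ℕ → FL → Bool) (d : Bool) :
    Bool :=
  force (Nat.mod (Nat.add (Nat.mul P v) (Nat.mul 2 dl)) l) (fun b =>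
  @Bool.rec (fun _ => Bool) (mkF l I 0 sh 0 0 1 b R (fun f => c 0 v f))
    d (tb Q (Nat.mod (Nat.add (Nat.mul b b) (Nat.mul 4 R)) l)))

/-- list of records of a family with one parameter -/
noncomputable def mkP (l I Q P dl v0 vs R0 R1 : ℕ) (sh : SL) (n : ℕ) : (RL → Bool) → Bool :=
  @Nat.rec (fun _ => (RL → Bool) → Bool) (fun c => c RL.nil) (fun t ih c =>
    force (Nat.mod (Nat.add v0 (Nat.mul vs t)) l) (fun v =>
    force (Nat.mod (Nat.add R0 (Nat.mul R1 t)) l) (fun R =>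
      mkRecP l I Q P dl sh v R (fun u v f => ih (fun r => c (RL.cons u v f r))) (ih c)))) n

/-- normalization -/
def kuvP (p e dl y S A B : ℕ) (g : ℕ → ℕ → ℕ → Bool) : Bool :=
  force (Nat.mod (Nat.add S (Nat.mul (Nat.mul 2 y) (Nat.add B dl))) p) (fun K =>
  force (Nat.mod (Nat.mul (Nat.mul 2 y) A) p) (fun U =>
  force (Nat.mod (Nat.mul y e) p) (fun V => g K U V)))

/-- actual data modulo a prime -/
structure LocP (q b qi κ : ℕ → ℤ) (v : ℤ) (P dl : ℕ) (sh : SL) : Prop where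
  q0 : q 0 = 1
  b0 : b 0 = P * v + 2 * dl
  shp : Shp κ 0 sh 0
  rcr : Rcr q b κ sh 0

section

variable {l I Q : ℕ}

theorem mkRecP_cases {P dl : ℕ} {sh : SL} {v R : ℕ} {c : ℕ → ℕ → FL → Bool} {d : Bool}
    (h : mkRecP l I Q P dl sh v R c d = true) :
    d = true ∨ ∃ f, c 0 v f = true := by
  unfold mkRecP at h
  rw [force_eq] at h
  cases hb : tb Q (Nat.mod (Nat.add (Nat.mul (Nat.mod (Nat.add (Nat.mul P v) (Nat.mul 2 dl)) l)
      (Nat.mod (Nat.add (Nat.mul P v) (Nat.mul 2 dl)) l)) (Nat.mul 4 R)) l) with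
  | true =>
    rw [hb] at h
    exact Or.inl h
  | false =>
    rw [hb] at h
    right
    obtain ⟨f, hf⟩ := mkF_ex _ _ _ _ _ _ _ h
    exact ⟨f, hf⟩

theorem res_zero {l : ℕ} (hl : 0 < l) : res 0 l = 0 := by
  have : res 0 l = 0 % l := by
    rw [← mod_res (X := 0) (z := 0) hl (by push_cast; rfl)]; rfl
  rw [this, Nat.zero_mod]

theorem mkRecP_sound (hl : 2 < l) (hI : chkI l I = true) (hQ : chkIq l Q = true)
    {q b qi κ : ℕ → ℤ} {v : ℤ} {P dl : ℕ} {sh : SL} (D : LocP q b qi κ v P dl sh)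
    (hinv : ∀ j, j ≤ sh.len → ((q j * qi j : ℤ) : ZMod l) = 1)
    (hns : ¬ IsSquare (((b 0 ^ 2 + 4 * q 1 : ℤ)) : ZMod l)) {c : ℕ → ℕ → FL → Bool} {d : Bool}
    (h : mkRecP l I Q P dl sh (res v l) (res (q 1) l) c d = true) :
    c 0 (res v l) (flG q b qi l sh 0 0 0) = true := by
  have hl0 : 0 < l := by omega
  have e1 : Nat.mod (Nat.add (Nat.mul P (res v l)) (Nat.mul 2 dl)) l = res (b 0) l := by
    apply mod_res hl0
    change ((P * res v l + 2 * dl : ℕ) : ZMod l) = _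
    push_cast
    rw [res_cast' _ hl0, D.b0]; push_cast; rfl
  unfold mkRecP at h
  rw [force_eq, e1] at h
  have hb : tb Q (Nat.mod (Nat.add (Nat.mul (res (b 0) l) (res (b 0) l))
      (Nat.mul 4 (res (q 1) l))) l) = false := by
    by_contra hc
    have hc' := Bool.eq_true_of_not_eq_false hc
    have h2 := tb_square hl0 hQ hc'
    apply hns
    have h3 : ((Nat.add (Nat.mul (res (b 0) l) (res (b 0) l)) (Nat.mul 4 (res (q 1) l)) : ℕ) : ZMod l) =
        ((b 0 ^ 2 + 4 * q 1 : ℤ) : ZMod l) := by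
      change ((res (b 0) l * res (b 0) l + 4 * res (q 1) l : ℕ) : ZMod l) = _
      push_cast
      rw [res_cast' _ hl0, res_cast' _ hl0]
      ring
    rw [h3] at h2
    exact h2
  rw [hb] at h
  have e2 : (1 : ℕ) = res (q 0) l := by
    rw [D.q0]
    symm
    have : res 1 l = 1 % l := by
      rw [← mod_res (X := 1) (z := 1) hl0 (by push_cast; rfl)]; rfl
    rw [this, Nat.mod_eq_of_lt (by omega)]
  have h' : mkF l I (res 0 l) sh 0 0 (res (q 0) l) (res (b 0) l) (res (q 1) l) (fun f =>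
      c 0 (res v l) f) = true := by
    rw [← e2, res_zero hl0]; exact h
  exact mkF_sound (by omega) hI sh 0 0 0 _ D.shp D.rcr (fun j _ hj => hinv j (by omega)) h'

theorem mkP_succ {P dl v0 vs R0 R1 : ℕ} {sh : SL} (n : ℕ) (c : RL → Bool) :
    mkP l I Q P dl v0 vs R0 R1 sh (n + 1) c =
    force (Nat.mod (Nat.add v0 (Nat.mul vs n)) l) (fun v =>
    force (Nat.mod (Nat.add R0 (Nat.mul R1 n)) l) (fun R =>
      mkRecP l I Q P dl sh v R (fun u v f => mkP l I Q P dl v0 vs R0 R1 sh n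
        (fun r => c (RL.cons u v f r))) (mkP l I Q P dl v0 vs R0 R1 sh n c))) := rfl

theorem mkP_ex {P dl v0 vs R0 R1 : ℕ} {sh : SL} (n : ℕ) : ∀ (c : RL → Bool),
    mkP l I Q P dl v0 vs R0 R1 sh n c = true → ∃ L, c L = true := by
  induction n with
  | zero => intro c h; exact ⟨_, h⟩
  | succ n ih =>
    intro c h
    rw [mkP_succ] at h
    simp only [force_eq] at h
    rcases mkRecP_cases h with h1 | ⟨f, h1⟩
    · exact ih _ h1
    · obtain ⟨L, hL⟩ := ih _ h1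
      exact ⟨_, hL⟩

theorem mkP_sound (hl : 2 < l) (hI : chkI l I = true) (hQ : chkIq l Q = true)
    {q b qi κ : ℕ → ℤ} {v : ℤ} {P dl : ℕ} {sh : SL} (D : LocP q b qi κ v P dl sh)
    (hinv : ∀ j, j ≤ sh.len → ((q j * qi j : ℤ) : ZMod l) = 1)
    (hns : ¬ IsSquare (((b 0 ^ 2 + 4 * q 1 : ℤ)) : ZMod l)) {v0 vs R0 R1 t : ℕ}
    (hv : Nat.mod (Nat.add v0 (Nat.mul vs t)) l = res v l)
    (hR : Nat.mod (Nat.add R0 (Nat.mul R1 t)) l = res (q 1) l) (n : ℕ) (ht : t < n) :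
    ∀ (c : RL → Bool), mkP l I Q P dl v0 vs R0 R1 sh n c = true →
      ∃ L, c L = true ∧ L.Mem (res 0 l) (res v l) (flG q b qi l sh 0 0 0) := by
  have hl0 : 0 < l := by omega
  rw [res_zero hl0]
  induction n with
  | zero => exact absurd ht (Nat.not_lt_zero _)
  | succ n ih =>
    intro c h
    rw [mkP_succ] at h
    simp only [force_eq] at h
    rcases Nat.lt_succ_iff_lt_or_eq.mp ht with h1 | h1
    · rcases mkRecP_cases h with h2 | ⟨f', h2⟩
      · exact ih h1 _ h2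
      · obtain ⟨L, hL1, hL2⟩ := ih h1 _ h2
        exact ⟨_, hL1, RL.mem_tail hL2⟩
    · subst h1
      rw [hv, hR] at h
      have h4 := mkRecP_sound hl hI hQ D hinv hns h
      obtain ⟨L, hL⟩ := mkP_ex _ _ h4
      exact ⟨_, hL, RL.mem_head _ _ _ _⟩

end

/-- data of the half cycle in terms of a shape -/
structure HSP (H : Half) (sh : SL) (v : ℤ) (P dl : ℕ) : Prop where
  len : sh.len + 1 = H.k
  shp : Shp (fun n => (H.κ n : ℤ)) 0 sh 0
  hv : (H.κ (H.k - 1) : ℤ) = v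
  hb : H.b 0 = P * v + 2 * dl

theorem lin_soundP {c : CD} {H : Half} {qi : ℕ → ℤ} {sh : SL} {v : ℤ} {P dl x2 ee : ℕ}
    (hp : 0 < c.p)
    (hN : NRelH c H qi) (S : HSP H sh v P dl) (hx2 : Chv c x2 (qi H.k))
    (hee : ((ee : ℕ) : ZMod c.p) = ((x2 + P : ℕ) : ZMod c.p)) {x xi e : ℕ → ℕ}
    (hE : ∀ n, n < H.k → Ent c (e n) (H.b n * qi n) (H.q (n + 1) * qi n))
    (hX : ∀ n, n < H.k → Chv c (x n) (H.q n)) (hI : ∀ n, n < H.k → Chv c (xi n) (qi n))
    {g : ℕ → ℕ → ℕ → Bool}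
    (h : kuvP c.p ee dl (e 0 / 128) (sumS x e sh 0) (sumA xi sh 0) (sumB xi sh 0) g = true) :
    ∃ K U V, lin c.p K U V (res 0 c.p) (res v c.p) = true ∧ g K U V = true := by
  unfold kuvP at h
  simp only [force_eq] at h
  refine ⟨_, _, _, ?_, h⟩
  unfold lin
  apply beq_mod
  have h1 := hN e x (fun n => if n < H.k then xi n else x2) hE hX (by
    intro n hn
    by_cases h2 : n < H.k
    · simp only [if_pos h2]; exact hI n h2
    · have : n = H.k := by omega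
      subst this
      simp only [lt_irrefl, if_false]; exact hx2)
  simp only [lt_irrefl, if_false] at h1
  have e1 : ∑ n ∈ range H.k, ((x n : ℕ) : ZMod c.p) * ((e n % 128 : ℕ) : ZMod c.p) =
      ((sumS x e sh 0 : ℕ) : ZMod c.p) := by
    rw [sumS_eq, S.len]
    push_cast
    apply Finset.sum_congr rfl
    intro n _
    rw [zero_add]
  have e2 : ∑ n ∈ range (H.k - 1), (H.κ n : ZMod c.p) *
      (((if n + 1 < H.k then xi (n + 1) else x2 : ℕ)) : ZMod c.p) =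
      ((0 : ℤ) : ZMod c.p) * ((sumA xi sh 0 : ℕ) : ZMod c.p) + ((sumB xi sh 0 : ℕ) : ZMod c.p) := by
    rw [← sumAB_eq xi sh 0 S.shp]
    have hl : H.k - 1 = sh.len := by have := S.len; omega
    rw [hl]
    apply Finset.sum_congr rfl
    intro n hn
    rw [Finset.mem_range] at hn
    have := S.len
    rw [if_pos (by omega), zero_add]
    push_cast
    rfl
  rw [e1, e2] at h1
  have hv := congrArg (fun z : ℤ => (z : ZMod c.p)) S.hv
  have hb := congrArg (fun z : ℤ => (z : ZMod c.p)) S.hb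
  push_cast at hv hb
  rw [hv, hb] at h1
  change (((sumS x e sh 0 + 2 * (e 0 / 128) * (sumB xi sh 0 + dl)) % c.p +
    (2 * (e 0 / 128) * sumA xi sh 0 % c.p * res 0 c.p + (e 0 / 128) * ee % c.p * res v c.p) : ℕ) :
    ZMod c.p) = 0
  push_cast
  rw [ZMod.natCast_mod, ZMod.natCast_mod, ZMod.natCast_mod, res_cast' 0 hp, res_cast' v hp]
  push_cast at h1 hee ⊢
  rw [hee]
  linear_combination h1

theorem imp_linP {c : CD} {H : Half} {qi : ℕ → ℤ} {sh : SL} {v : ℤ} {P dl x2 ee : ℕ}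
    (hp : 0 < c.p)
    (hN : NRelH c H qi) (S : HSP H sh v P dl) (hx2 : Chv c x2 (qi H.k))
    (hee : ((ee : ℕ) : ZMod c.p) = ((x2 + P : ℕ) : ZMod c.p)) {x xi e : ℕ → ℕ}
    (hE : ∀ n, n < H.k → Ent c (e n) (H.b n * qi n) (H.q (n + 1) * qi n))
    (hX : ∀ n, n < H.k → Chv c (x n) (H.q n)) (hI : ∀ n, n < H.k → Chv c (xi n) (qi n))
    {next : Bool}
    (h : kuvP c.p ee dl (e 0 / 128) (sumS x e sh 0) (sumA xi sh 0) (sumB xi sh 0)
      (fun K U V => imp (lin c.p K U V (res 0 c.p) (res v c.p)) next) = true) : next = true := by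
  obtain ⟨K, U, V, h1, h2⟩ := lin_soundP hp hN S hx2 hee hE hX hI h
  exact imp_true h2 h1

/-- all that is used about the data; `L` is the list of the sieving primes -/
structure SysP (L : List ℕ) (H : Half) (qi : ℕ → ℤ) (sh : SL) (v : ℤ) (P dl : ℕ) : Prop where
  hs : HSP H sh v P dl
  qk : H.q H.k = P
  inv : ∀ n, n ≤ H.k → (L.prod : ℤ) ∣ H.q n * qi n - 1
  nsq : ∀ l ∈ L, ¬ IsSquare (((H.b 0 ^ 2 + 4 * H.q 1 : ℤ)) : ZMod l)
  rel : ∀ c : CD, c.OK → c.q ∣ L.prod → c.p ∈ L → NRelH c H qi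

namespace SysP

variable {L : List ℕ} {H : Half} {qi : ℕ → ℤ} {sh : SL} {v : ℤ} {P dl : ℕ}

theorem inv_mod (S : SysP L H qi sh v P dl) {l : ℕ} (hl : l ∣ L.prod) {n : ℕ} (hn : n ≤ H.k) :
    ((H.q n * qi n : ℤ) : ZMod l) = 1 := by
  have h1 : (l : ℤ) ∣ H.q n * qi n - 1 := (Int.natCast_dvd_natCast.mpr hl).trans (S.inv n hn)
  have h2 := (ZMod.intCast_zmod_eq_zero_iff_dvd _ l).mpr h1
  push_cast at h2 ⊢
  linear_combination h2

theorem valid (S : SysP L H qi sh v P dl) {l : ℕ} (hl : l ∈ L) (h4 : l ≠ 4) {n : ℕ}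
    (hn : n < H.k) : V l (H.b n * qi n) (H.q (n + 1) * qi n) := by
  unfold V
  rw [if_neg h4]
  rintro ⟨r, hr⟩
  apply S.nsq l hl
  refine ⟨r * H.q n, ?_⟩
  have h1 := congrArg (fun z : ℤ => (z : ZMod l)) (H.disc n hn)
  have hi := S.inv_mod (List.dvd_prod hl) (n := n) (by omega)
  push_cast at h1 hr hi ⊢
  linear_combination (H.q n : ZMod l) ^ 2 * hr - h1 +
    (-(H.b n : ZMod l) ^ 2 * ((H.q n : ZMod l) * qi n + 1) - 4 * (H.q (n + 1) : ZMod l) * (H.q n : ZMod l)) * hi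

/-- value of the character at the inverse of the central norm -/
theorem chvP (S : SysP L H qi sh v P dl) {c : CD} {w x2 : ℕ} (hq : c.q ∣ L.prod) (hw : w < c.q)
    (hw2 : (P * w) % c.q = 1 % c.q) (hx : look c.T w = x2) : Chv c x2 (qi H.k) := by
  intro hne
  have h1 := S.inv_mod hq (n := H.k) (le_refl _)
  rw [S.qk] at h1
  have h2 : ((qi H.k : ℤ) : ZMod c.q) = ((w : ℕ) : ZMod c.q) := by
    have h4 : ((P * w : ℕ) : ZMod c.q) = ((1 : ℕ) : ZMod c.q) :=
      (ZMod.natCast_eq_natCast_iff' _ _ _).mpr hw2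
    push_cast at h1 h4
    linear_combination (-(qi H.k : ZMod c.q)) * h4 + ((w : ℕ) : ZMod c.q) * h1
  rw [h2]
  unfold chi
  rw [ZMod.val_natCast, Nat.mod_eq_of_lt hw, hx]

end SysP

/-- check of the constants of a relation -/
def chkE (P : ℕ) (q p T w x2 ee : ℕ) : Bool :=
  Nat.blt w q && Nat.beq ((P * w) % q) (1 % q) && Nat.beq (look T w) x2 &&
    Nat.beq (ee % p) ((x2 + P) % p)

theorem chkE_sound {P : ℕ} {c : CD} {w x2 ee : ℕ} (h : chkE P c.q c.p c.T w x2 ee = true)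
    {L : List ℕ} {H : Half} {qi : ℕ → ℤ} {sh : SL} {v : ℤ} {dl : ℕ} (S : SysP L H qi sh v P dl)
    (hq : c.q ∣ L.prod) :
    Chv c x2 (qi H.k) ∧ ((ee : ℕ) : ZMod c.p) = ((x2 + P : ℕ) : ZMod c.p) := by
  unfold chkE at h
  rw [Bool.and_eq_true, Bool.and_eq_true, Bool.and_eq_true] at h
  obtain ⟨⟨⟨h1, h2⟩, h3⟩, h4⟩ := h
  refine ⟨S.chvP hq (Nat.le_of_ble_eq_true h1) (Nat.eq_of_beq_eq_true h2)
    (Nat.eq_of_beq_eq_true h3), ?_⟩
  exact (ZMod.natCast_eq_natCast_iff' _ _ _).mpr (Nat.eq_of_beq_eq_true h4)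

end Pool.Agent.H449
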