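import Pool.Agent.H449.O2
import Pool.Agent.H449.E1

/-! Half cycles with linear polynomials, odd discriminant. -/

set_option maxRecDepth 100000

namespace Pool.Agent.H449

open H419R2 Finset
open Pool.Agent.N911 (cj cj_true imp imp_true mod_res res_cast' chkI V)

/-- the state of the continued fraction -/
def sto (κ : ℕ → ℤ) (b R : ℤ) : ℕ → ℤ × ℤ × ℤ
  | 0 => (1, b, R)
  | n + 1 => ((sto κ b R n).2.2, 2 * κ n * (sto κ b R n).2.2 - (sto κ b R n).2.1,
      (sto κ b R n).1 + (sto κ b R n).2.1 * κ n - (sto κ b R n).2.2 * (κ n) ^ 2)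

/-- outer coefficients -/
def oq (κ : ℕ → ℤ) (b R : ℤ) (n : ℕ) : ℤ := (sto κ b R n).1
/-- middle coefficients -/
def ob (κ : ℕ → ℤ) (b R : ℤ) (n : ℕ) : ℤ := (sto κ b R n).2.1

theorem oq_zero (κ : ℕ → ℤ) (b R : ℤ) : oq κ b R 0 = 1 := rfl
theorem oq_one (κ : ℕ → ℤ) (b R : ℤ) : oq κ b R 1 = R := rfl
theorem ob_zero (κ : ℕ → ℤ) (b R : ℤ) : ob κ b R 0 = b := rfl

theorem ob_succ (κ : ℕ → ℤ) (b R : ℤ) (n : ℕ) :
    ob κ b R (n + 1) = 2 * κ n * oq κ b R (n + 1) - ob κ b R n := rfl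

theorem oq_succ (κ : ℕ → ℤ) (b R : ℤ) (n : ℕ) :
    oq κ b R (n + 2) = oq κ b R n + ob κ b R n * κ n - oq κ b R (n + 1) * (κ n) ^ 2 := rfl

theorem rcr_sto (κ : ℕ → ℤ) (b R : ℤ) (sh : SL) : ∀ n, Rcr (oq κ b R) (ob κ b R) κ sh n := by
  induction sh with
  | nil => intro n; trivial
  | cons al be s ih => intro n; exact ⟨⟨oq_succ κ b R n, ob_succ κ b R n⟩, ih (n + 1)⟩

/-- numerical check: `g` holds for the values of the inner norms, the last norm is `P` and the
cycle is symmetric -/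
noncomputable def chkNP (g : ℕ → Bool) (P v0 vs : ℕ) (sh : SL) : ℕ → ℕ → ℕ → ℕ → ℕ → ℕ → Bool :=
  @SL.rec (fun _ => ℕ → ℕ → ℕ → ℕ → ℕ → ℕ → Bool)
    (fun _ _ ba bb ra rb => cj (Nat.beq ra P) (cj (Nat.beq rb 0) (cj (Nat.beq ba (Nat.mul P v0))
      (Nat.beq bb (Nat.mul P vs)))))
    (fun al be _ ih qa qb ba bb ra rb => force (Nat.mul be ra) (fun x => force (Nat.mul be rb) (fun y =>
      cj (Nat.beq al 0) (cj (Nat.blt 0 be) (cj (g ra) (cj (Nat.ble ba (Nat.mul 2 x))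
        (cj (Nat.ble bb (Nat.mul 2 y)) (cj (Nat.ble (Nat.mul be x) (Nat.add qa (Nat.mul be ba)))
        (cj (Nat.ble (Nat.mul be y) (Nat.add qb (Nat.mul be bb)))
        (force (Nat.sub (Nat.mul 2 x) ba) (fun nba => force (Nat.sub (Nat.mul 2 y) bb) (fun nbb =>
          force (Nat.sub (Nat.add qa (Nat.mul be ba)) (Nat.mul be x)) (fun nra =>
          force (Nat.sub (Nat.add qb (Nat.mul be bb)) (Nat.mul be y)) (fun nrb =>
            ih ra rb nba nbb nra nrb)))))))))))))) sh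

theorem chkNP_sound {g : ℕ → Bool} {P v0 vs : ℕ} {κ : ℕ → ℤ} {b R u : ℤ} {s : ℕ} {Q : ℤ → Prop}
    (hg : ∀ ra rb : ℕ, g ra = true → Q ((ra : ℤ) + rb * s)) (sh : SL) :
    ∀ (n : ℕ) (qa qb ba bb ra rb : ℕ), Shp κ u sh n →
    oq κ b R n = qa + qb * s → ob κ b R n = ba + bb * s → oq κ b R (n + 1) = ra + rb * s →
    chkNP g P v0 vs sh qa qb ba bb ra rb = true →
    (∀ j, n < j → j < n + sh.len + 1 → Q (oq κ b R j)) ∧
    (∀ j, n ≤ j → j < n + sh.len → 0 < κ j) ∧
    oq κ b R (n + sh.len + 1) = P ∧ ob κ b R (n + sh.len) = P * ((v0 : ℤ) + vs * s) := by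
  induction sh with
  | nil =>
    intro n qa qb ba bb ra rb _ h1 h2 h3 h
    have e : chkNP g P v0 vs SL.nil qa qb ba bb ra rb = cj (Nat.beq ra P) (cj (Nat.beq rb 0)
      (cj (Nat.beq ba (Nat.mul P v0)) (Nat.beq bb (Nat.mul P vs)))) := rfl
    rw [e] at h
    simp only [cj_true] at h
    obtain ⟨g1, g2, g3, g4⟩ := h
    have g1 := beq_true g1
    have g2 := beq_true g2
    have g3 : ba = P * v0 := beq_true g3
    have g4 : bb = P * vs := beq_true g4
    simp only [SL.len, add_zero]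
    refine ⟨fun j h4 h5 => by omega, fun j h4 h5 => by omega, ?_, ?_⟩
    · rw [h3, g1, g2]; simp
    · rw [h2, g3, g4]; push_cast; ring
  | cons al be sh ih =>
    intro n qa qb ba bb ra rb hS h1 h2 h3 h
    have e : chkNP g P v0 vs (SL.cons al be sh) qa qb ba bb ra rb =
      force (Nat.mul be ra) (fun x => force (Nat.mul be rb) (fun y =>
      cj (Nat.beq al 0) (cj (Nat.blt 0 be) (cj (g ra) (cj (Nat.ble ba (Nat.mul 2 x))
        (cj (Nat.ble bb (Nat.mul 2 y)) (cj (Nat.ble (Nat.mul be x) (Nat.add qa (Nat.mul be ba)))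
        (cj (Nat.ble (Nat.mul be y) (Nat.add qb (Nat.mul be bb)))
        (force (Nat.sub (Nat.mul 2 x) ba) (fun nba => force (Nat.sub (Nat.mul 2 y) bb) (fun nbb =>
          force (Nat.sub (Nat.add qa (Nat.mul be ba)) (Nat.mul be x)) (fun nra =>
          force (Nat.sub (Nat.add qb (Nat.mul be bb)) (Nat.mul be y)) (fun nrb =>
            chkNP g P v0 vs sh ra rb nba nbb nra nrb))))))))))))) := rfl
    rw [e] at h
    simp only [force_eq, cj_true] at h
    obtain ⟨g1, g2, g3, g4, g5, g6, g7, h⟩ := h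
    have g1 := beq_true g1
    have g2 := blt_true g2
    have g4 : ba ≤ 2 * (be * ra) := ble_true g4
    have g5 : bb ≤ 2 * (be * rb) := ble_true g5
    have g6 : be * (be * ra) ≤ qa + be * ba := ble_true g6
    have g7 : be * (be * rb) ≤ qb + be * bb := ble_true g7
    obtain ⟨hS1, hS2⟩ := hS
    have hκ : κ n = be := by rw [hS1, g1]; push_cast; ring
    have k1 : ob κ b R (n + 1) = ((Nat.sub (Nat.mul 2 (Nat.mul be ra)) ba : ℕ) : ℤ) +
        ((Nat.sub (Nat.mul 2 (Nat.mul be rb)) bb : ℕ) : ℤ) * s := by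
      change _ = ((2 * (be * ra) - ba : ℕ) : ℤ) + ((2 * (be * rb) - bb : ℕ) : ℤ) * s
      rw [ob_succ, hκ, h3, h2]
      push_cast [Nat.cast_sub g4, Nat.cast_sub g5]
      ring
    have k2 : oq κ b R (n + 1 + 1) = ((Nat.sub (Nat.add qa (Nat.mul be ba))
        (Nat.mul be (Nat.mul be ra)) : ℕ) : ℤ) +
        ((Nat.sub (Nat.add qb (Nat.mul be bb)) (Nat.mul be (Nat.mul be rb)) : ℕ) : ℤ) * s := by
      change oq κ b R (n + 2) = ((qa + be * ba - be * (be * ra) : ℕ) : ℤ) +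
        ((qb + be * bb - be * (be * rb) : ℕ) : ℤ) * s
      rw [oq_succ, hκ, h1, h2, h3]
      push_cast [Nat.cast_sub g6, Nat.cast_sub g7]
      ring
    obtain ⟨r1, r2, r3, r4⟩ := ih (n + 1) ra rb _ _ _ _ hS2 h3 k1 k2 h
    have e1 : n + 1 + sh.len = n + (SL.cons al be sh).len := by simp only [SL.len]; omega
    rw [e1] at r1 r2 r3 r4
    refine ⟨?_, ?_, r3, r4⟩
    · intro j hj1 hj2
      rcases Nat.lt_or_ge (n + 1) j with hj | hj
      · exact r1 j hj hj2
      · have : j = n + 1 := by omega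
        rw [this, h3]
        exact hg ra rb g3
    · intro j hj1 hj2
      rcases Nat.lt_or_ge n j with hj | hj
      · exact r2 j (by omega) hj2
      · have : j = n := by omega
        rw [this, hκ]
        exact_mod_cast g2

/-- the half cycle of a shape -/
theorem mkHalfP {b R v : ℤ} {P : ℕ} {sh : SL} {Q : ℤ → Prop} (hQ : ∀ z, Q z → 1 < z) (hP : 1 < P)
    (hv : 0 < v) (hb : 0 < b)
    (h1 : ∀ j, 0 < j → j < sh.len + 1 → Q (oq (kap 0 v sh) b R j))
    (h2 : ∀ j, j < sh.len → 0 < kap 0 v sh j)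
    (h3 : oq (kap 0 v sh) b R (sh.len + 1) = P) (h4 : ob (kap 0 v sh) b R sh.len = P * v) :
    ∃ H : Half, H.k = sh.len + 1 ∧ (∀ n, H.q n = oq (kap 0 v sh) b R n) ∧
      (∀ n, H.b n = ob (kap 0 v sh) b R n) ∧ (∀ n, n < H.k → (H.κ n : ℤ) = kap 0 v sh n) := by
  have hκ : ∀ n, n < sh.len + 1 → 0 < kap 0 v sh n := by
    intro n hn
    rcases Nat.lt_or_ge n sh.len with h | h
    · exact h2 n h
    · have : n = sh.len := by omega
      rw [this, kap_len]; exact hv
  have hκ' : ∀ n, n < sh.len + 1 → (((kap 0 v sh n).toNat : ℕ) : ℤ) = kap 0 v sh n := by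
    intro n hn
    exact Int.toNat_of_nonneg (hκ n hn).le
  have hq1 : ∀ n, 0 < n → n ≤ sh.len + 1 → 1 < oq (kap 0 v sh) b R n := by
    intro n hn hn2
    rcases Nat.lt_or_ge n (sh.len + 1) with h | h
    · exact hQ _ (h1 n hn h)
    · have : n = sh.len + 1 := by omega
      rw [this, h3]; exact_mod_cast hP
  refine ⟨{ k := sh.len + 1, hk := by omega, κ := fun n => (kap 0 v sh n).toNat,
            q := oq (kap 0 v sh) b R, b := ob (kap 0 v sh) b R, κpos := ?_, qpos := ?_,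
            q0 := oq_zero _ _ _, bpos := ?_, recq := ?_, recb := ?_, center := ?_, qone := ?_ },
    rfl, fun n => rfl, fun n => rfl, hκ'⟩
  · intro n hn
    have := hκ n hn
    omega
  · intro n hn
    rcases Nat.eq_zero_or_pos n with h | h
    · rw [h, oq_zero]; norm_num
    · have := hq1 n h hn
      omega
  · rw [ob_zero]; exact hb
  · intro n hn
    rw [hκ' n (by omega)]
    exact oq_succ _ _ _ n
  · intro n hn
    rw [hκ' n (by omega)]
    exact ob_succ _ _ _ n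
  · have e : sh.len + 1 - 1 = sh.len := by omega
    rw [e, hκ' _ (by omega), h3, h4, kap_len]
  · intro n hn hn2
    have := hq1 n hn hn2
    omega

/-- a member of a family with one parameter -/
structure MemP (H : Half) (sh : SL) (v : ℤ) (P dl v0 vs R0 R1 t : ℕ) : Prop where
  len : H.k = sh.len + 1
  q : ∀ n, H.q n = oq (kap 0 v sh) (P * v + 2 * dl) (R0 + R1 * t) n
  b : ∀ n, H.b n = ob (kap 0 v sh) (P * v + 2 * dl) (R0 + R1 * t) n
  κ : ∀ n, n < H.k → (H.κ n : ℤ) = kap 0 v sh n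
  hv : v = v0 + vs * t

namespace MemP

variable {H : Half} {sh : SL} {v : ℤ} {P dl v0 vs R0 R1 t : ℕ}

theorem hs (m : MemP H sh v P dl v0 vs R0 R1 t) : HSP H sh v P dl where
  len := m.len.symm
  shp := by
    have h := kap_shp 0 v sh
    have h2 : ∀ (s : SL) (n : ℕ), (∀ j, n ≤ j → j < n + s.len → (H.κ j : ℤ) = kap 0 v sh j) →
        Shp (kap 0 v sh) 0 s n → Shp (fun n => (H.κ n : ℤ)) 0 s n := by
      intro s
      induction s with
      | nil => intro n _ _; trivial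
      | cons al be s ih =>
        intro n h hr
        obtain ⟨h1, h3⟩ := hr
        refine ⟨?_, ih (n + 1) (fun j h4 h5 => h j (by omega) (by simp only [SL.len]; omega)) h3⟩
        rw [← h1]
        exact h n (le_refl _) (by simp only [SL.len]; omega)
    exact h2 sh 0 (fun j _ hj => m.κ j (by rw [m.len]; omega)) h
  hv := by
    rw [m.κ _ (by have := H.hk; omega)]
    have : H.k - 1 = sh.len := by rw [m.len]; omega
    rw [this, kap_len]
  hb := by rw [m.b, ob_zero]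

theorem loc (m : MemP H sh v P dl v0 vs R0 R1 t) (qi : ℕ → ℤ) :
    LocP H.q H.b qi (fun n => (H.κ n : ℤ)) v P dl sh where
  q0 := H.q0
  b0 := by rw [m.b, ob_zero]
  shp := m.hs.shp
  rcr := by
    have e1 : H.q = oq (kap 0 v sh) (P * v + 2 * dl) (R0 + R1 * t) := funext m.q
    have e2 : H.b = ob (kap 0 v sh) (P * v + 2 * dl) (R0 + R1 * t) := funext m.b
    rw [e1, e2]
    have h := rcr_sto (kap 0 v sh) (P * v + 2 * dl) (R0 + R1 * t) sh 0
    have h2 : ∀ (s : SL) (n : ℕ), (∀ j, n ≤ j → j < n + s.len → (H.κ j : ℤ) = kap 0 v sh j) →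
        Rcr (oq (kap 0 v sh) (P * v + 2 * dl) (R0 + R1 * t))
          (ob (kap 0 v sh) (P * v + 2 * dl) (R0 + R1 * t)) (kap 0 v sh) s n →
        Rcr (oq (kap 0 v sh) (P * v + 2 * dl) (R0 + R1 * t))
          (ob (kap 0 v sh) (P * v + 2 * dl) (R0 + R1 * t)) (fun n => (H.κ n : ℤ)) s n := by
      intro s
      induction s with
      | nil => intro n _ _; trivial
      | cons al be s ih =>
        intro n h hr
        obtain ⟨⟨h1, h2⟩, h3⟩ := hr
        have e := h n (le_refl _) (by simp only [SL.len]; omega)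
        refine ⟨⟨?_, ?_⟩, ih (n + 1) (fun j h4 h5 => h j (by omega) (by simp only [SL.len]; omega)) h3⟩
        · beta_reduce; rw [e]; exact h1
        · beta_reduce; rw [e]; exact h2
    exact h2 sh 0 (fun j _ hj => m.κ j (by rw [m.len]; omega)) h

theorem q1 (m : MemP H sh v P dl v0 vs R0 R1 t) : H.q 1 = R0 + R1 * t := by
  rw [m.q, oq_one]

theorem mem {L : List ℕ} {l I Q : ℕ} (m : MemP H sh v P dl v0 vs R0 R1 t) {qi : ℕ → ℤ}
    (S : SysP L H qi sh v P dl) (hl : 2 < l) (hI : chkI l I = true) (hQ : chkIq l Q = true)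
    (hL : l ∈ L) (c : RL → Bool) (h : mkP l I Q P dl v0 vs R0 R1 sh l c = true) :
    ∃ L, c L = true ∧ L.Mem (res 0 l) (res v l) (flH H qi sh l) := by
  have hl0 : 0 < l := by omega
  refine mkP_sound hl hI hQ (m.loc qi) ?_ (S.nsq l hL) (t := t % l) ?_ ?_ l (Nat.mod_lt _ hl0) c h
  · intro j hj
    exact S.inv_mod (List.dvd_prod hL) (by rw [m.len]; omega)
  · apply mod_res hl0
    change ((v0 + vs * (t % l) : ℕ) : ZMod l) = _
    rw [m.hv]
    push_cast
    rw [ZMod.natCast_mod]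
  · apply mod_res hl0
    change ((R0 + R1 * (t % l) : ℕ) : ZMod l) = _
    rw [m.q1]
    push_cast
    rw [ZMod.natCast_mod]

end MemP

/-- a sieve for the central norm `P` with sieving primes `L` is sound -/
def SvOK (P : ℕ) (L : List ℕ) (sv : ℕ → ℕ → ℕ → ℕ → ℕ → SL → Bool) : Prop :=
  ∀ (H : Half) (sh : SL) (v : ℤ) (dl v0 vs R0 R1 t : ℕ) (qi : ℕ → ℤ),
    MemP H sh v P dl v0 vs R0 R1 t → SysP L H qi sh v P dl → sv dl v0 vs R0 R1 sh = true → False

/-- existence of the system -/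
theorem sysP_of {L : List ℕ} {B : ℕ} (hL : ∀ l ∈ L, l.Prime ∧ l ≠ 2 ∧ l ≤ B) {P : ℕ} (hPL : P ∉ L)
    (hB : 2 ≤ B) (hPp : P.Prime)
    {H : Half} {d : ℕ} (G : OGood H d) (hd : 4 * B ^ 2 ≤ d) (hk : H.q H.k = P) (hP2 : P ≠ 2)
    (hq : ∀ r, 0 < r → r < H.k → (B : ℤ) < H.q r) {sh : SL} {v : ℤ} {dl : ℕ}
    (hs : HSP H sh v P dl) : ∃ qi, SysP L H qi sh v P dl := by
  have hne : ∀ l : ℕ, l.Prime → l ≤ B → l ≠ P → ∀ r, r ≤ H.k → H.q r ≠ l := by
    intro l hl hlB hlP r hr he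
    rcases Nat.eq_zero_or_pos r with h4 | h4
    · rw [h4, H.q0] at he
      exact hl.one_lt.ne (by exact_mod_cast he)
    · rcases Nat.lt_or_ge r H.k with h5 | h5
      · have := hq r h4 h5
        rw [he] at this
        have : B < l := by exact_mod_cast this
        omega
      · have : r = H.k := by omega
        rw [this, hk] at he
        exact hlP (by exact_mod_cast he.symm)
  have hlB2 : ∀ l : ℕ, l ≤ B → 4 * l ^ 2 ≤ d := by
    intro l hl
    calc 4 * l ^ 2 ≤ 4 * B ^ 2 := Nat.mul_le_mul_left 4 (Nat.pow_le_pow_left hl 2)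
      _ ≤ d := hd
  have hin : ∀ l ∈ L, ¬ IsSquare (((d : ℕ) : ℤ) : ZMod l) := by
    intro l hl
    obtain ⟨h1, h2, h3⟩ := hL l hl
    exact G.inert h1 h2 (hlB2 l h3) (hne l h1 h3 (fun h => hPL (h ▸ hl)))
  have hR : H.q 1 % 2 = 1 := by
    refine G.odd_q1 ?_ (hne 2 Nat.prime_two hB (fun h => hP2 h.symm))
    have := hlB2 2 hB
    omega
  have hcop : ∀ n, n ≤ H.k → IsCoprime (H.q n) (L.prod : ℤ) := by
    intro n hn
    rw [Int.isCoprime_iff_gcd_eq_one]
    by_contra hc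
    obtain ⟨p, hp, hpd⟩ := Nat.exists_prime_and_dvd hc
    have h1 : (p : ℤ) ∣ H.q n := (Int.natCast_dvd_natCast.mpr hpd).trans (Int.gcd_dvd_left _ _)
    have h2 : (p : ℤ) ∣ (L.prod : ℤ) := (Int.natCast_dvd_natCast.mpr hpd).trans (Int.gcd_dvd_right _ _)
    have h3 : p ∣ L.prod := by exact_mod_cast h2
    obtain ⟨l, hl, hpl⟩ := (Prime.dvd_prod_iff hp.prime).mp h3
    have h4 : p = l := (Nat.prime_dvd_prime_iff_eq hp (hL l hl).1).mp hpl
    subst h4
    rcases Nat.lt_or_ge n H.k with h5 | h5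
    · exact G.not_dvd_q (hin p hl) h5 h1
    · have : n = H.k := by omega
      rw [this, hk] at h1
      have h6 : p ∣ P := by exact_mod_cast h1
      exact hPL ((Nat.prime_dvd_prime_iff_eq hp hPp).mp h6 ▸ hl)
  have hex : ∀ n : ℕ, ∃ i : ℤ, (n ≤ H.k → (L.prod : ℤ) ∣ H.q n * i - 1) ∧ (n = 0 → i = 1) := by
    intro n
    rcases Nat.eq_zero_or_pos n with h | h
    · subst h
      refine ⟨1, fun _ => ?_, fun _ => rfl⟩
      rw [H.q0]; simp
    · by_cases hn : n ≤ H.k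
      · obtain ⟨a, b, hab⟩ := hcop n hn
        refine ⟨a, fun _ => ⟨-b, by linear_combination hab⟩, fun h' => by omega⟩
      · exact ⟨0, fun h' => absurd h' hn, fun h' => by omega⟩
  choose qi hqi1 hqi2 using hex
  have hnd : ∀ l ∈ L, ¬ l ∣ d := by
    intro l hl h2
    apply hin l hl
    have h3 : (((d : ℕ) : ℤ) : ZMod l) = 0 := by
      rw [ZMod.intCast_zmod_eq_zero_iff_dvd]
      exact Int.natCast_dvd_natCast.mpr h2
    rw [h3]
    exact ⟨0, by simp⟩
  refine ⟨qi, hs, hk, fun n hn => hqi1 n hn, ?_, ?_⟩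
  · intro l hl
    have := hin l hl
    rw [G.hD] at this
    exact this
  · intro c hc hcq hcp
    have hodd : c.q % 2 = 1 := by
      rcases Nat.mod_two_eq_zero_or_one c.q with h | h
      · exfalso
        have h2 : 2 ∣ L.prod := (Nat.dvd_of_mod_eq_zero h).trans hcq
        obtain ⟨l, hl, hpl⟩ := (Prime.dvd_prod_iff Nat.prime_two.prime).mp h2
        exact (hL l hl).2.1 ((Nat.prime_dvd_prime_iff_eq Nat.prime_two (hL l hl).1).mp hpl).symm
      · exact h
    refine nrelH_of hc hodd ?_ (hqi2 0 rfl) ?_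
    · intro n hn
      have h1 : (c.q : ℤ) ∣ H.q n * qi n - 1 := (Int.natCast_dvd_natCast.mpr hcq).trans (hqi1 n hn)
      have h2 := (ZMod.intCast_zmod_eq_zero_iff_dvd _ c.q).mpr h1
      push_cast at h2 ⊢
      linear_combination h2
    · refine G.rel c hc hR ?_ (hnd c.p hcp)
      apply Nat.Coprime.coprime_dvd_left hcq
      rw [Nat.coprime_iff_gcd_eq_one]
      by_contra hg
      obtain ⟨p, hp, hpd⟩ := Nat.exists_prime_and_dvd hg
      obtain ⟨l, hl, hpl⟩ := (Prime.dvd_prod_iff hp.prime).mp (hpd.trans (Nat.gcd_dvd_left _ _))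
      have h4 : p = l := (Nat.prime_dvd_prime_iff_eq hp (hL l hl).1).mp hpl
      subst h4
      exact hnd p hl (hpd.trans (Nat.gcd_dvd_right _ _))

end Pool.Agent.H449
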