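import Pool.Agent.H449.O3
import Pool.Agent.H449.D4
import Pool.Agent.H449.C5

/-! The sieves for a central form of odd prime value. -/

set_option maxRecDepth 100000
set_option linter.unusedVariables false

namespace Pool.Agent.H449

open H419R2 Finset
open Pool.Agent.N911

/-- inverses modulo 127 -/
def I127 : ℕ := 4078766433085741214365232050191091927946281984022387290430971814183864410555104602752368503637427002487629445124254989406201252599408798396433520929784097468401902933833362745271388682635503162641392738862163448660198907506500839794807812781447315600722986808105762944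
/-- squares modulo 127 -/
def Q127 : ℕ := 30790515292689894969866990722818747159

theorem iq127 : chkIq 127 Q127 = true := by decide +kernel
theorem ci127 : chkI 127 I127 = true := by decide +kernel

/-- admissible constant of a relation -/
def CE (P : ℕ) (c : CD) (ee : ℕ) : Prop := ∃ w x2, chkE P c.q c.p c.T w x2 ee = true

theorem CE.use {P ee : ℕ} {c : CD} (h : CE P c ee) {L : List ℕ} {H : Half} {qi : ℕ → ℤ} {sh : SL}
    {v : ℤ} {dl : ℕ} (S : SysP L H qi sh v P dl) (hq : c.q ∣ L.prod) :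
    ∃ x2, Chv c x2 (qi H.k) ∧ ((ee : ℕ) : ZMod c.p) = ((x2 + P : ℕ) : ZMod c.p) := by
  obtain ⟨w, x2, h⟩ := h
  exact ⟨x2, chkE_sound h S hq⟩

/-- lists of primes -/
def SubL (L0 L : List ℕ) : Prop := L0.prod ∣ L.prod ∧ ∀ l ∈ L0, l ∈ L

/-- the first stage of the sieve -/
noncomputable def osvA (e133_13 e95 e105 e133_37 e91 e111_0 e111_1 e185 e259_0 e259_1 dl : ℕ) (L7 L19 L5 L13 L3 L37 : RL) (fin : FL → FL → Bool) : Bool :=
  L7.all <| fun u7 v7 f7 =>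
    mkW 19 722 X133_13 E133_13 f7 <| fun w133_13 =>
    mkW 15 450 X105 E105 f7 <| fun w105 =>
    mkW 19 722 X133_37 E133_37 f7 <| fun w133_37 =>
    mkW 13 338 X91 E91 f7 <| fun w91 =>
  L19.all <| fun u19 v19 f19 =>
    coT w133_13 f19 <| fun y S A B =>
    kuvP 13 e133_13 dl y S A B <| fun K0 U0 V0 =>
    mkW 5 50 X95 E95 f19 <| fun w95 =>
    coT w133_37 f19 <| fun y S A B =>
    kuvP 37 e133_37 dl y S A B <| fun K1 U1 V1 =>
  L5.all <| fun u5 v5 f5 =>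
    coT w95 f5 <| fun y S A B =>
    kuvP 13 e95 dl y S A B <| fun K2 U2 V2 =>
  L13.all <| fun u13 v13 f13 =>
    imp (lin 13 K0 U0 V0 u13 v13) <|
    imp (lin 13 K2 U2 V2 u13 v13) <|
    coT w91 f13 <| fun y S A B =>
    kuvP 37 e91 dl y S A B <| fun K3 U3 V3 =>
  L3.all <| fun u3 v3 f3 =>
    mkW2 5 50 w105 f3 <| fun x105 => coT x105 f5 <| fun y S A B =>
    kuvP 13 e105 dl y S A B <| fun K4 U4 V4 =>
    imp (lin 13 K4 U4 V4 u13 v13) <|
  L37.all <| fun u37 v37 f37 =>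
    imp (lin 37 K1 U1 V1 u37 v37) <|
    imp (lin 37 K3 U3 V3 u37 v37) <|
    mkW 3 18 X111_0 E111_0 f37 <| fun w111_0 =>
    coT w111_0 f3 <| fun y S A B =>
    kuvP 19 e111_0 dl y S A B <| fun K5 U5 V5 =>
    imp (lin 19 K5 U5 V5 u19 v19) <|
    mkW 3 18 X111_1 E111_1 f37 <| fun w111_1 =>
    coT w111_1 f3 <| fun y S A B =>
    kuvP 19 e111_1 dl y S A B <| fun K6 U6 V6 =>
    imp (lin 19 K6 U6 V6 u19 v19) <|
    mkW 5 50 X185 E185 f37 <| fun w185 =>
    coT w185 f5 <| fun y S A B =>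
    kuvP 13 e185 dl y S A B <| fun K7 U7 V7 =>
    imp (lin 13 K7 U7 V7 u13 v13) <|
    mkW 7 98 X259_0 E259_0 f37 <| fun w259_0 =>
    coT w259_0 f7 <| fun y S A B =>
    kuvP 19 e259_0 dl y S A B <| fun K8 U8 V8 =>
    imp (lin 19 K8 U8 V8 u19 v19) <|
    mkW 7 98 X259_1 E259_1 f37 <| fun w259_1 =>
    coT w259_1 f7 <| fun y S A B =>
    kuvP 19 e259_1 dl y S A B <| fun K9 U9 V9 =>
    imp (lin 19 K9 U9 V9 u19 v19) <|
      fin f13 f19

/-- the first stage of the sieve -/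
noncomputable def osvB (e133_13 e95 e133_37 e91 e185 e259_0 e259_1 dl : ℕ) (L7 L19 L5 L13 L37 : RL) (fin : FL → FL → Bool) : Bool :=
  L7.all <| fun u7 v7 f7 =>
    mkW 19 722 X133_13 E133_13 f7 <| fun w133_13 =>
    mkW 19 722 X133_37 E133_37 f7 <| fun w133_37 =>
    mkW 13 338 X91 E91 f7 <| fun w91 =>
  L19.all <| fun u19 v19 f19 =>
    coT w133_13 f19 <| fun y S A B =>
    kuvP 13 e133_13 dl y S A B <| fun K0 U0 V0 =>
    mkW 5 50 X95 E95 f19 <| fun w95 =>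
    coT w133_37 f19 <| fun y S A B =>
    kuvP 37 e133_37 dl y S A B <| fun K1 U1 V1 =>
  L5.all <| fun u5 v5 f5 =>
    coT w95 f5 <| fun y S A B =>
    kuvP 13 e95 dl y S A B <| fun K2 U2 V2 =>
  L13.all <| fun u13 v13 f13 =>
    imp (lin 13 K0 U0 V0 u13 v13) <|
    imp (lin 13 K2 U2 V2 u13 v13) <|
    coT w91 f13 <| fun y S A B =>
    kuvP 37 e91 dl y S A B <| fun K3 U3 V3 =>
  L37.all <| fun u37 v37 f37 =>
    imp (lin 37 K1 U1 V1 u37 v37) <|
    imp (lin 37 K3 U3 V3 u37 v37) <|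
    mkW 5 50 X185 E185 f37 <| fun w185 =>
    coT w185 f5 <| fun y S A B =>
    kuvP 13 e185 dl y S A B <| fun K4 U4 V4 =>
    imp (lin 13 K4 U4 V4 u13 v13) <|
    mkW 7 98 X259_0 E259_0 f37 <| fun w259_0 =>
    coT w259_0 f7 <| fun y S A B =>
    kuvP 19 e259_0 dl y S A B <| fun K5 U5 V5 =>
    imp (lin 19 K5 U5 V5 u19 v19) <|
    mkW 7 98 X259_1 E259_1 f37 <| fun w259_1 =>
    coT w259_1 f7 <| fun y S A B =>
    kuvP 19 e259_1 dl y S A B <| fun K6 U6 V6 =>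
    imp (lin 19 K6 U6 V6 u19 v19) <|
      fin f13 f19

/-- the first stage of the sieve -/
noncomputable def osvC (e95 e111_0 e111_1 e185 dl : ℕ) (L19 L5 L13 L3 L37 : RL) (fin : FL → FL → Bool) : Bool :=
  L19.all <| fun u19 v19 f19 =>
    mkW 5 50 X95 E95 f19 <| fun w95 =>
  L5.all <| fun u5 v5 f5 =>
    coT w95 f5 <| fun y S A B =>
    kuvP 13 e95 dl y S A B <| fun K0 U0 V0 =>
  L13.all <| fun u13 v13 f13 =>
    imp (lin 13 K0 U0 V0 u13 v13) <|
  L3.all <| fun u3 v3 f3 =>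
  L37.all <| fun u37 v37 f37 =>
    mkW 3 18 X111_0 E111_0 f37 <| fun w111_0 =>
    coT w111_0 f3 <| fun y S A B =>
    kuvP 19 e111_0 dl y S A B <| fun K1 U1 V1 =>
    imp (lin 19 K1 U1 V1 u19 v19) <|
    mkW 3 18 X111_1 E111_1 f37 <| fun w111_1 =>
    coT w111_1 f3 <| fun y S A B =>
    kuvP 19 e111_1 dl y S A B <| fun K2 U2 V2 =>
    imp (lin 19 K2 U2 V2 u19 v19) <|
    mkW 5 50 X185 E185 f37 <| fun w185 =>
    coT w185 f5 <| fun y S A B =>
    kuvP 13 e185 dl y S A B <| fun K3 U3 V3 =>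
    imp (lin 13 K3 U3 V3 u13 v13) <|
      fin f13 f19

/-- the first stage of the sieve -/
noncomputable def osvD (e105 e91 e185 dl : ℕ) (L7 L13 L5 L3 L37 : RL) (fin : ℕ → ℕ → ℕ → ℕ → FL → Bool) : Bool :=
  L7.all <| fun u7 v7 f7 =>
    mkW 15 450 X105 E105 f7 <| fun w105 =>
    mkW 13 338 X91 E91 f7 <| fun w91 =>
  L13.all <| fun u13 v13 f13 =>
    coT w91 f13 <| fun y S A B =>
    kuvP 37 e91 dl y S A B <| fun K0 U0 V0 =>
  L5.all <| fun u5 v5 f5 =>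
  L3.all <| fun u3 v3 f3 =>
    mkW2 5 50 w105 f3 <| fun x105 => coT x105 f5 <| fun y S A B =>
    kuvP 13 e105 dl y S A B <| fun K1 U1 V1 =>
    imp (lin 13 K1 U1 V1 u13 v13) <|
  L37.all <| fun u37 v37 f37 =>
    imp (lin 37 K0 U0 V0 u37 v37) <|
    mkW 5 50 X185 E185 f37 <| fun w185 =>
    coT w185 f5 <| fun y S A B =>
    kuvP 13 e185 dl y S A B <| fun K2 U2 V2 =>
    imp (lin 13 K2 U2 V2 u13 v13) <|
      fin u13 v13 u37 v37 f5

theorem osvA_sound {P : ℕ} {e133_13 e95 e105 e133_37 e91 e111_0 e111_1 e185 e259_0 e259_1 : ℕ} (k133_13 : CE P c133_13 e133_13) (k95 : CE P c95_13 e95) (k105 : CE P c105_13 e105) (k133_37 : CE P c133_37 e133_37) (k91 : CE P c91_37 e91) (k111_0 : CE P c111_19_0 e111_0) (k111_1 : CE P c111_19_1 e111_1) (k185 : CE P c185_13 e185) (k259_0 : CE P c259_19_0 e259_0) (k259_1 : CE P c259_19_1 e259_1)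
    {L : List ℕ} (hS : SubL [3, 5, 7, 13, 19, 37] L) {H : Half} {qi : ℕ → ℤ} {sh : SL} {v : ℤ} {dl : ℕ} (S : SysP L H qi sh v P dl)
    {L7 L19 L5 L13 L3 L37 : RL}
    (m7 : L7.Mem (res 0 7) (res v 7) (flH H qi sh 7))
    (m19 : L19.Mem (res 0 19) (res v 19) (flH H qi sh 19))
    (m5 : L5.Mem (res 0 5) (res v 5) (flH H qi sh 5))
    (m13 : L13.Mem (res 0 13) (res v 13) (flH H qi sh 13))
    (m3 : L3.Mem (res 0 3) (res v 3) (flH H qi sh 3))
    (m37 : L37.Mem (res 0 37) (res v 37) (flH H qi sh 37))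
    {fin : FL → FL → Bool} (h : osvA e133_13 e95 e105 e133_37 e91 e111_0 e111_1 e185 e259_0 e259_1 dl L7 L19 L5 L13 L3 L37 fin = true) :
    fin (flH H qi sh 13) (flH H qi sh 19) = true := by
  have v3 : ∀ n, n < H.k → V 3 (H.b n * qi n) (H.q (n + 1) * qi n) := fun n hn =>
    S.valid (hS.2 _ (by decide)) (by decide) hn
  have v5 : ∀ n, n < H.k → V 5 (H.b n * qi n) (H.q (n + 1) * qi n) := fun n hn =>
    S.valid (hS.2 _ (by decide)) (by decide) hn
  have v7 : ∀ n, n < H.k → V 7 (H.b n * qi n) (H.q (n + 1) * qi n) := fun n hn =>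
    S.valid (hS.2 _ (by decide)) (by decide) hn
  have v13 : ∀ n, n < H.k → V 13 (H.b n * qi n) (H.q (n + 1) * qi n) := fun n hn =>
    S.valid (hS.2 _ (by decide)) (by decide) hn
  have v19 : ∀ n, n < H.k → V 19 (H.b n * qi n) (H.q (n + 1) * qi n) := fun n hn =>
    S.valid (hS.2 _ (by decide)) (by decide) hn
  have v37 : ∀ n, n < H.k → V 37 (H.b n * qi n) (H.q (n + 1) * qi n) := fun n hn =>
    S.valid (hS.2 _ (by decide)) (by decide) hn
  unfold osvA at h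
  have h := m7 _ h
  rw [mkW_eq] at h
  rw [mkW_eq] at h
  rw [mkW_eq] at h
  rw [mkW_eq] at h
  have h := m19 _ h
  rw [coT_eq] at h
  obtain ⟨x0, c0, d0⟩ := k133_13.use S ((show c133_13.q ∣ [3, 5, 7, 13, 19, 37].prod by decide).trans hS.1)
  obtain ⟨K0, U0, V0, g0, h⟩ := lin_soundP (c := c133_13) (by decide)
    (S.rel _ c133_13_ok ((show c133_13.q ∣ [3, 5, 7, 13, 19, 37].prod by decide).trans hS.1) (hS.2 _ (by decide))) S.hs c0 d0
    (fun n hn => tab_133_13 (v7 n hn) (v19 n hn)) (fun n _ => chv_133_13 _) (fun n _ => chv_133_13 _) h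
  rw [mkW_eq] at h
  rw [coT_eq] at h
  obtain ⟨x1, c1, d1⟩ := k133_37.use S ((show c133_37.q ∣ [3, 5, 7, 13, 19, 37].prod by decide).trans hS.1)
  obtain ⟨K1, U1, V1, g1, h⟩ := lin_soundP (c := c133_37) (by decide)
    (S.rel _ c133_37_ok ((show c133_37.q ∣ [3, 5, 7, 13, 19, 37].prod by decide).trans hS.1) (hS.2 _ (by decide))) S.hs c1 d1
    (fun n hn => tab_133_37 (v7 n hn) (v19 n hn)) (fun n _ => chv_133_37 _) (fun n _ => chv_133_37 _) h
  have h := m5 _ h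
  rw [coT_eq] at h
  obtain ⟨x2, c2, d2⟩ := k95.use S ((show c95_13.q ∣ [3, 5, 7, 13, 19, 37].prod by decide).trans hS.1)
  obtain ⟨K2, U2, V2, g2, h⟩ := lin_soundP (c := c95_13) (by decide)
    (S.rel _ c95_13_ok ((show c95_13.q ∣ [3, 5, 7, 13, 19, 37].prod by decide).trans hS.1) (hS.2 _ (by decide))) S.hs c2 d2
    (fun n hn => tab_95 (v19 n hn) (v5 n hn)) (fun n _ => chv_95 _) (fun n _ => chv_95 _) h
  have h := m13 _ h
  have h := imp_true h g0
  have h := imp_true h g2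
  rw [coT_eq] at h
  obtain ⟨x3, c3, d3⟩ := k91.use S ((show c91_37.q ∣ [3, 5, 7, 13, 19, 37].prod by decide).trans hS.1)
  obtain ⟨K3, U3, V3, g3, h⟩ := lin_soundP (c := c91_37) (by decide)
    (S.rel _ c91_37_ok ((show c91_37.q ∣ [3, 5, 7, 13, 19, 37].prod by decide).trans hS.1) (hS.2 _ (by decide))) S.hs c3 d3
    (fun n hn => tab_91 (v7 n hn) (v13 n hn)) (fun n _ => chv_91 _) (fun n _ => chv_91 _) h
  have h := m3 _ h
  rw [mkW2_eq, coT_eq] at h
  obtain ⟨x4, c4, d4⟩ := k105.use S ((show c105_13.q ∣ [3, 5, 7, 13, 19, 37].prod by decide).trans hS.1)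
  obtain ⟨K4, U4, V4, g4, h⟩ := lin_soundP (c := c105_13) (by decide)
    (S.rel _ c105_13_ok ((show c105_13.q ∣ [3, 5, 7, 13, 19, 37].prod by decide).trans hS.1) (hS.2 _ (by decide))) S.hs c4 d4
    (fun n hn => tab_105 (v7 n hn) (v3 n hn) (v5 n hn)) (fun n _ => chv_105 _) (fun n _ => chv_105 _) h
  have h := imp_true h g4
  have h := m37 _ h
  have h := imp_true h g1
  have h := imp_true h g3
  rw [mkW_eq] at h
  rw [coT_eq] at h
  obtain ⟨x5, c5, d5⟩ := k111_0.use S ((show c111_19_0.q ∣ [3, 5, 7, 13, 19, 37].prod by decide).trans hS.1)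
  obtain ⟨K5, U5, V5, g5, h⟩ := lin_soundP (c := c111_19_0) (by decide)
    (S.rel _ c111_19_0_ok ((show c111_19_0.q ∣ [3, 5, 7, 13, 19, 37].prod by decide).trans hS.1) (hS.2 _ (by decide))) S.hs c5 d5
    (fun n hn => tab_111_0 (v37 n hn) (v3 n hn)) (fun n _ => chv_111_0 _) (fun n _ => chv_111_0 _) h
  have h := imp_true h g5
  rw [mkW_eq] at h
  rw [coT_eq] at h
  obtain ⟨x6, c6, d6⟩ := k111_1.use S ((show c111_19_1.q ∣ [3, 5, 7, 13, 19, 37].prod by decide).trans hS.1)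
  obtain ⟨K6, U6, V6, g6, h⟩ := lin_soundP (c := c111_19_1) (by decide)
    (S.rel _ c111_19_1_ok ((show c111_19_1.q ∣ [3, 5, 7, 13, 19, 37].prod by decide).trans hS.1) (hS.2 _ (by decide))) S.hs c6 d6
    (fun n hn => tab_111_1 (v37 n hn) (v3 n hn)) (fun n _ => chv_111_1 _) (fun n _ => chv_111_1 _) h
  have h := imp_true h g6
  rw [mkW_eq] at h
  rw [coT_eq] at h
  obtain ⟨x7, c7, d7⟩ := k185.use S ((show c185_13.q ∣ [3, 5, 7, 13, 19, 37].prod by decide).trans hS.1)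
  obtain ⟨K7, U7, V7, g7, h⟩ := lin_soundP (c := c185_13) (by decide)
    (S.rel _ c185_13_ok ((show c185_13.q ∣ [3, 5, 7, 13, 19, 37].prod by decide).trans hS.1) (hS.2 _ (by decide))) S.hs c7 d7
    (fun n hn => tab_185 (v37 n hn) (v5 n hn)) (fun n _ => chv_185 _) (fun n _ => chv_185 _) h
  have h := imp_true h g7
  rw [mkW_eq] at h
  rw [coT_eq] at h
  obtain ⟨x8, c8, d8⟩ := k259_0.use S ((show c259_19_0.q ∣ [3, 5, 7, 13, 19, 37].prod by decide).trans hS.1)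
  obtain ⟨K8, U8, V8, g8, h⟩ := lin_soundP (c := c259_19_0) (by decide)
    (S.rel _ c259_19_0_ok ((show c259_19_0.q ∣ [3, 5, 7, 13, 19, 37].prod by decide).trans hS.1) (hS.2 _ (by decide))) S.hs c8 d8
    (fun n hn => tab_259_0 (v37 n hn) (v7 n hn)) (fun n _ => chv_259_0 _) (fun n _ => chv_259_0 _) h
  have h := imp_true h g8
  rw [mkW_eq] at h
  rw [coT_eq] at h
  obtain ⟨x9, c9, d9⟩ := k259_1.use S ((show c259_19_1.q ∣ [3, 5, 7, 13, 19, 37].prod by decide).trans hS.1)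
  obtain ⟨K9, U9, V9, g9, h⟩ := lin_soundP (c := c259_19_1) (by decide)
    (S.rel _ c259_19_1_ok ((show c259_19_1.q ∣ [3, 5, 7, 13, 19, 37].prod by decide).trans hS.1) (hS.2 _ (by decide))) S.hs c9 d9
    (fun n hn => tab_259_1 (v37 n hn) (v7 n hn)) (fun n _ => chv_259_1 _) (fun n _ => chv_259_1 _) h
  have h := imp_true h g9
  exact h

theorem osvB_sound {P : ℕ} {e133_13 e95 e133_37 e91 e185 e259_0 e259_1 : ℕ} (k133_13 : CE P c133_13 e133_13) (k95 : CE P c95_13 e95) (k133_37 : CE P c133_37 e133_37) (k91 : CE P c91_37 e91) (k185 : CE P c185_13 e185) (k259_0 : CE P c259_19_0 e259_0) (k259_1 : CE P c259_19_1 e259_1)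
    {L : List ℕ} (hS : SubL [5, 7, 13, 19, 37] L) {H : Half} {qi : ℕ → ℤ} {sh : SL} {v : ℤ} {dl : ℕ} (S : SysP L H qi sh v P dl)
    {L7 L19 L5 L13 L37 : RL}
    (m7 : L7.Mem (res 0 7) (res v 7) (flH H qi sh 7))
    (m19 : L19.Mem (res 0 19) (res v 19) (flH H qi sh 19))
    (m5 : L5.Mem (res 0 5) (res v 5) (flH H qi sh 5))
    (m13 : L13.Mem (res 0 13) (res v 13) (flH H qi sh 13))
    (m37 : L37.Mem (res 0 37) (res v 37) (flH H qi sh 37))
    {fin : FL → FL → Bool} (h : osvB e133_13 e95 e133_37 e91 e185 e259_0 e259_1 dl L7 L19 L5 L13 L37 fin = true) :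
    fin (flH H qi sh 13) (flH H qi sh 19) = true := by
  have v5 : ∀ n, n < H.k → V 5 (H.b n * qi n) (H.q (n + 1) * qi n) := fun n hn =>
    S.valid (hS.2 _ (by decide)) (by decide) hn
  have v7 : ∀ n, n < H.k → V 7 (H.b n * qi n) (H.q (n + 1) * qi n) := fun n hn =>
    S.valid (hS.2 _ (by decide)) (by decide) hn
  have v13 : ∀ n, n < H.k → V 13 (H.b n * qi n) (H.q (n + 1) * qi n) := fun n hn =>
    S.valid (hS.2 _ (by decide)) (by decide) hn
  have v19 : ∀ n, n < H.k → V 19 (H.b n * qi n) (H.q (n + 1) * qi n) := fun n hn =>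
    S.valid (hS.2 _ (by decide)) (by decide) hn
  have v37 : ∀ n, n < H.k → V 37 (H.b n * qi n) (H.q (n + 1) * qi n) := fun n hn =>
    S.valid (hS.2 _ (by decide)) (by decide) hn
  unfold osvB at h
  have h := m7 _ h
  rw [mkW_eq] at h
  rw [mkW_eq] at h
  rw [mkW_eq] at h
  have h := m19 _ h
  rw [coT_eq] at h
  obtain ⟨x0, c0, d0⟩ := k133_13.use S ((show c133_13.q ∣ [5, 7, 13, 19, 37].prod by decide).trans hS.1)
  obtain ⟨K0, U0, V0, g0, h⟩ := lin_soundP (c := c133_13) (by decide)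
    (S.rel _ c133_13_ok ((show c133_13.q ∣ [5, 7, 13, 19, 37].prod by decide).trans hS.1) (hS.2 _ (by decide))) S.hs c0 d0
    (fun n hn => tab_133_13 (v7 n hn) (v19 n hn)) (fun n _ => chv_133_13 _) (fun n _ => chv_133_13 _) h
  rw [mkW_eq] at h
  rw [coT_eq] at h
  obtain ⟨x1, c1, d1⟩ := k133_37.use S ((show c133_37.q ∣ [5, 7, 13, 19, 37].prod by decide).trans hS.1)
  obtain ⟨K1, U1, V1, g1, h⟩ := lin_soundP (c := c133_37) (by decide)
    (S.rel _ c133_37_ok ((show c133_37.q ∣ [5, 7, 13, 19, 37].prod by decide).trans hS.1) (hS.2 _ (by decide))) S.hs c1 d1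
    (fun n hn => tab_133_37 (v7 n hn) (v19 n hn)) (fun n _ => chv_133_37 _) (fun n _ => chv_133_37 _) h
  have h := m5 _ h
  rw [coT_eq] at h
  obtain ⟨x2, c2, d2⟩ := k95.use S ((show c95_13.q ∣ [5, 7, 13, 19, 37].prod by decide).trans hS.1)
  obtain ⟨K2, U2, V2, g2, h⟩ := lin_soundP (c := c95_13) (by decide)
    (S.rel _ c95_13_ok ((show c95_13.q ∣ [5, 7, 13, 19, 37].prod by decide).trans hS.1) (hS.2 _ (by decide))) S.hs c2 d2
    (fun n hn => tab_95 (v19 n hn) (v5 n hn)) (fun n _ => chv_95 _) (fun n _ => chv_95 _) h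
  have h := m13 _ h
  have h := imp_true h g0
  have h := imp_true h g2
  rw [coT_eq] at h
  obtain ⟨x3, c3, d3⟩ := k91.use S ((show c91_37.q ∣ [5, 7, 13, 19, 37].prod by decide).trans hS.1)
  obtain ⟨K3, U3, V3, g3, h⟩ := lin_soundP (c := c91_37) (by decide)
    (S.rel _ c91_37_ok ((show c91_37.q ∣ [5, 7, 13, 19, 37].prod by decide).trans hS.1) (hS.2 _ (by decide))) S.hs c3 d3
    (fun n hn => tab_91 (v7 n hn) (v13 n hn)) (fun n _ => chv_91 _) (fun n _ => chv_91 _) h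
  have h := m37 _ h
  have h := imp_true h g1
  have h := imp_true h g3
  rw [mkW_eq] at h
  rw [coT_eq] at h
  obtain ⟨x4, c4, d4⟩ := k185.use S ((show c185_13.q ∣ [5, 7, 13, 19, 37].prod by decide).trans hS.1)
  obtain ⟨K4, U4, V4, g4, h⟩ := lin_soundP (c := c185_13) (by decide)
    (S.rel _ c185_13_ok ((show c185_13.q ∣ [5, 7, 13, 19, 37].prod by decide).trans hS.1) (hS.2 _ (by decide))) S.hs c4 d4
    (fun n hn => tab_185 (v37 n hn) (v5 n hn)) (fun n _ => chv_185 _) (fun n _ => chv_185 _) h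
  have h := imp_true h g4
  rw [mkW_eq] at h
  rw [coT_eq] at h
  obtain ⟨x5, c5, d5⟩ := k259_0.use S ((show c259_19_0.q ∣ [5, 7, 13, 19, 37].prod by decide).trans hS.1)
  obtain ⟨K5, U5, V5, g5, h⟩ := lin_soundP (c := c259_19_0) (by decide)
    (S.rel _ c259_19_0_ok ((show c259_19_0.q ∣ [5, 7, 13, 19, 37].prod by decide).trans hS.1) (hS.2 _ (by decide))) S.hs c5 d5
    (fun n hn => tab_259_0 (v37 n hn) (v7 n hn)) (fun n _ => chv_259_0 _) (fun n _ => chv_259_0 _) h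
  have h := imp_true h g5
  rw [mkW_eq] at h
  rw [coT_eq] at h
  obtain ⟨x6, c6, d6⟩ := k259_1.use S ((show c259_19_1.q ∣ [5, 7, 13, 19, 37].prod by decide).trans hS.1)
  obtain ⟨K6, U6, V6, g6, h⟩ := lin_soundP (c := c259_19_1) (by decide)
    (S.rel _ c259_19_1_ok ((show c259_19_1.q ∣ [5, 7, 13, 19, 37].prod by decide).trans hS.1) (hS.2 _ (by decide))) S.hs c6 d6
    (fun n hn => tab_259_1 (v37 n hn) (v7 n hn)) (fun n _ => chv_259_1 _) (fun n _ => chv_259_1 _) h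
  have h := imp_true h g6
  exact h

theorem osvC_sound {P : ℕ} {e95 e111_0 e111_1 e185 : ℕ} (k95 : CE P c95_13 e95) (k111_0 : CE P c111_19_0 e111_0) (k111_1 : CE P c111_19_1 e111_1) (k185 : CE P c185_13 e185)
    {L : List ℕ} (hS : SubL [3, 5, 13, 19, 37] L) {H : Half} {qi : ℕ → ℤ} {sh : SL} {v : ℤ} {dl : ℕ} (S : SysP L H qi sh v P dl)
    {L19 L5 L13 L3 L37 : RL}
    (m19 : L19.Mem (res 0 19) (res v 19) (flH H qi sh 19))
    (m5 : L5.Mem (res 0 5) (res v 5) (flH H qi sh 5))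
    (m13 : L13.Mem (res 0 13) (res v 13) (flH H qi sh 13))
    (m3 : L3.Mem (res 0 3) (res v 3) (flH H qi sh 3))
    (m37 : L37.Mem (res 0 37) (res v 37) (flH H qi sh 37))
    {fin : FL → FL → Bool} (h : osvC e95 e111_0 e111_1 e185 dl L19 L5 L13 L3 L37 fin = true) :
    fin (flH H qi sh 13) (flH H qi sh 19) = true := by
  have v3 : ∀ n, n < H.k → V 3 (H.b n * qi n) (H.q (n + 1) * qi n) := fun n hn =>
    S.valid (hS.2 _ (by decide)) (by decide) hn
  have v5 : ∀ n, n < H.k → V 5 (H.b n * qi n) (H.q (n + 1) * qi n) := fun n hn =>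
    S.valid (hS.2 _ (by decide)) (by decide) hn
  have v19 : ∀ n, n < H.k → V 19 (H.b n * qi n) (H.q (n + 1) * qi n) := fun n hn =>
    S.valid (hS.2 _ (by decide)) (by decide) hn
  have v37 : ∀ n, n < H.k → V 37 (H.b n * qi n) (H.q (n + 1) * qi n) := fun n hn =>
    S.valid (hS.2 _ (by decide)) (by decide) hn
  unfold osvC at h
  have h := m19 _ h
  rw [mkW_eq] at h
  have h := m5 _ h
  rw [coT_eq] at h
  obtain ⟨x0, c0, d0⟩ := k95.use S ((show c95_13.q ∣ [3, 5, 13, 19, 37].prod by decide).trans hS.1)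
  obtain ⟨K0, U0, V0, g0, h⟩ := lin_soundP (c := c95_13) (by decide)
    (S.rel _ c95_13_ok ((show c95_13.q ∣ [3, 5, 13, 19, 37].prod by decide).trans hS.1) (hS.2 _ (by decide))) S.hs c0 d0
    (fun n hn => tab_95 (v19 n hn) (v5 n hn)) (fun n _ => chv_95 _) (fun n _ => chv_95 _) h
  have h := m13 _ h
  have h := imp_true h g0
  have h := m3 _ h
  have h := m37 _ h
  rw [mkW_eq] at h
  rw [coT_eq] at h
  obtain ⟨x1, c1, d1⟩ := k111_0.use S ((show c111_19_0.q ∣ [3, 5, 13, 19, 37].prod by decide).trans hS.1)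
  obtain ⟨K1, U1, V1, g1, h⟩ := lin_soundP (c := c111_19_0) (by decide)
    (S.rel _ c111_19_0_ok ((show c111_19_0.q ∣ [3, 5, 13, 19, 37].prod by decide).trans hS.1) (hS.2 _ (by decide))) S.hs c1 d1
    (fun n hn => tab_111_0 (v37 n hn) (v3 n hn)) (fun n _ => chv_111_0 _) (fun n _ => chv_111_0 _) h
  have h := imp_true h g1
  rw [mkW_eq] at h
  rw [coT_eq] at h
  obtain ⟨x2, c2, d2⟩ := k111_1.use S ((show c111_19_1.q ∣ [3, 5, 13, 19, 37].prod by decide).trans hS.1)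
  obtain ⟨K2, U2, V2, g2, h⟩ := lin_soundP (c := c111_19_1) (by decide)
    (S.rel _ c111_19_1_ok ((show c111_19_1.q ∣ [3, 5, 13, 19, 37].prod by decide).trans hS.1) (hS.2 _ (by decide))) S.hs c2 d2
    (fun n hn => tab_111_1 (v37 n hn) (v3 n hn)) (fun n _ => chv_111_1 _) (fun n _ => chv_111_1 _) h
  have h := imp_true h g2
  rw [mkW_eq] at h
  rw [coT_eq] at h
  obtain ⟨x3, c3, d3⟩ := k185.use S ((show c185_13.q ∣ [3, 5, 13, 19, 37].prod by decide).trans hS.1)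
  obtain ⟨K3, U3, V3, g3, h⟩ := lin_soundP (c := c185_13) (by decide)
    (S.rel _ c185_13_ok ((show c185_13.q ∣ [3, 5, 13, 19, 37].prod by decide).trans hS.1) (hS.2 _ (by decide))) S.hs c3 d3
    (fun n hn => tab_185 (v37 n hn) (v5 n hn)) (fun n _ => chv_185 _) (fun n _ => chv_185 _) h
  have h := imp_true h g3
  exact h

theorem osvD_sound {P : ℕ} {e105 e91 e185 : ℕ} (k105 : CE P c105_13 e105) (k91 : CE P c91_37 e91) (k185 : CE P c185_13 e185)
    {L : List ℕ} (hS : SubL [3, 5, 7, 13, 37] L) {H : Half} {qi : ℕ → ℤ} {sh : SL} {v : ℤ} {dl : ℕ} (S : SysP L H qi sh v P dl)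
    {L7 L13 L5 L3 L37 : RL}
    (m7 : L7.Mem (res 0 7) (res v 7) (flH H qi sh 7))
    (m13 : L13.Mem (res 0 13) (res v 13) (flH H qi sh 13))
    (m5 : L5.Mem (res 0 5) (res v 5) (flH H qi sh 5))
    (m3 : L3.Mem (res 0 3) (res v 3) (flH H qi sh 3))
    (m37 : L37.Mem (res 0 37) (res v 37) (flH H qi sh 37))
    {fin : ℕ → ℕ → ℕ → ℕ → FL → Bool} (h : osvD e105 e91 e185 dl L7 L13 L5 L3 L37 fin = true) :
    fin (res 0 13) (res v 13) (res 0 37) (res v 37) (flH H qi sh 5) = true := by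
  have v3 : ∀ n, n < H.k → V 3 (H.b n * qi n) (H.q (n + 1) * qi n) := fun n hn =>
    S.valid (hS.2 _ (by decide)) (by decide) hn
  have v5 : ∀ n, n < H.k → V 5 (H.b n * qi n) (H.q (n + 1) * qi n) := fun n hn =>
    S.valid (hS.2 _ (by decide)) (by decide) hn
  have v7 : ∀ n, n < H.k → V 7 (H.b n * qi n) (H.q (n + 1) * qi n) := fun n hn =>
    S.valid (hS.2 _ (by decide)) (by decide) hn
  have v13 : ∀ n, n < H.k → V 13 (H.b n * qi n) (H.q (n + 1) * qi n) := fun n hn =>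
    S.valid (hS.2 _ (by decide)) (by decide) hn
  have v37 : ∀ n, n < H.k → V 37 (H.b n * qi n) (H.q (n + 1) * qi n) := fun n hn =>
    S.valid (hS.2 _ (by decide)) (by decide) hn
  unfold osvD at h
  have h := m7 _ h
  rw [mkW_eq] at h
  rw [mkW_eq] at h
  have h := m13 _ h
  rw [coT_eq] at h
  obtain ⟨x0, c0, d0⟩ := k91.use S ((show c91_37.q ∣ [3, 5, 7, 13, 37].prod by decide).trans hS.1)
  obtain ⟨K0, U0, V0, g0, h⟩ := lin_soundP (c := c91_37) (by decide)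
    (S.rel _ c91_37_ok ((show c91_37.q ∣ [3, 5, 7, 13, 37].prod by decide).trans hS.1) (hS.2 _ (by decide))) S.hs c0 d0
    (fun n hn => tab_91 (v7 n hn) (v13 n hn)) (fun n _ => chv_91 _) (fun n _ => chv_91 _) h
  have h := m5 _ h
  have h := m3 _ h
  rw [mkW2_eq, coT_eq] at h
  obtain ⟨x1, c1, d1⟩ := k105.use S ((show c105_13.q ∣ [3, 5, 7, 13, 37].prod by decide).trans hS.1)
  obtain ⟨K1, U1, V1, g1, h⟩ := lin_soundP (c := c105_13) (by decide)
    (S.rel _ c105_13_ok ((show c105_13.q ∣ [3, 5, 7, 13, 37].prod by decide).trans hS.1) (hS.2 _ (by decide))) S.hs c1 d1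
    (fun n hn => tab_105 (v7 n hn) (v3 n hn) (v5 n hn)) (fun n _ => chv_105 _) (fun n _ => chv_105 _) h
  have h := imp_true h g1
  have h := m37 _ h
  have h := imp_true h g0
  rw [mkW_eq] at h
  rw [coT_eq] at h
  obtain ⟨x2, c2, d2⟩ := k185.use S ((show c185_13.q ∣ [3, 5, 7, 13, 37].prod by decide).trans hS.1)
  obtain ⟨K2, U2, V2, g2, h⟩ := lin_soundP (c := c185_13) (by decide)
    (S.rel _ c185_13_ok ((show c185_13.q ∣ [3, 5, 7, 13, 37].prod by decide).trans hS.1) (hS.2 _ (by decide))) S.hs c2 d2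
    (fun n hn => tab_185 (v37 n hn) (v5 n hn)) (fun n _ => chv_185 _) (fun n _ => chv_185 _) h
  have h := imp_true h g2
  exact h

/-- the sieve, first stage only -/
noncomputable def sieA1 (P e133_13 e95 e105 e133_37 e91 e111_0 e111_1 e185 e259_0 e259_1 : ℕ) (dl v0 vs R0 R1 : ℕ) (sh : SL) : Bool :=
  mkP 7 I7 Q7 P dl v0 vs R0 R1 sh 7 <| fun L7 =>
  mkP 19 I19 Q19 P dl v0 vs R0 R1 sh 19 <| fun L19 =>
  mkP 5 I5 Q5 P dl v0 vs R0 R1 sh 5 <| fun L5 =>
  mkP 13 I13 Q13 P dl v0 vs R0 R1 sh 13 <| fun L13 =>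
  mkP 3 I3 Q3 P dl v0 vs R0 R1 sh 3 <| fun L3 =>
  mkP 37 I37 Q37 P dl v0 vs R0 R1 sh 37 <| fun L37 =>
    osvA e133_13 e95 e105 e133_37 e91 e111_0 e111_1 e185 e259_0 e259_1 dl L7 L19 L5 L13 L3 L37 (fun _ _ => false)

theorem sieA1_ok {P : ℕ} {e133_13 e95 e105 e133_37 e91 e111_0 e111_1 e185 e259_0 e259_1 : ℕ} (k133_13 : CE P c133_13 e133_13) (k95 : CE P c95_13 e95) (k105 : CE P c105_13 e105) (k133_37 : CE P c133_37 e133_37) (k91 : CE P c91_37 e91) (k111_0 : CE P c111_19_0 e111_0) (k111_1 : CE P c111_19_1 e111_1) (k185 : CE P c185_13 e185) (k259_0 : CE P c259_19_0 e259_0) (k259_1 : CE P c259_19_1 e259_1) :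
    SvOK P [3, 5, 7, 13, 19, 37] (sieA1 P e133_13 e95 e105 e133_37 e91 e111_0 e111_1 e185 e259_0 e259_1) := by
  intro H sh v dl v0 vs R0 R1 t qi m S h
  unfold sieA1 at h
  obtain ⟨L7, h, m7⟩ := m.mem S (by norm_num) ci7 iq7 (by decide) _ h
  obtain ⟨L19, h, m19⟩ := m.mem S (by norm_num) ci19 iq19 (by decide) _ h
  obtain ⟨L5, h, m5⟩ := m.mem S (by norm_num) ci5 iq5 (by decide) _ h
  obtain ⟨L13, h, m13⟩ := m.mem S (by norm_num) ci13 iq13 (by decide) _ h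
  obtain ⟨L3, h, m3⟩ := m.mem S (by norm_num) ci3 iq3 (by decide) _ h
  obtain ⟨L37, h, m37⟩ := m.mem S (by norm_num) ci37 iq37 (by decide) _ h
  have h := osvA_sound k133_13 k95 k105 k133_37 k91 k111_0 k111_1 k185 k259_0 k259_1 ⟨by decide, by decide⟩ S m7 m19 m5 m13 m3 m37 h
  exact absurd h (by simp)

/-- the sieve, first stage only -/
noncomputable def sieB1 (P e133_13 e95 e133_37 e91 e185 e259_0 e259_1 : ℕ) (dl v0 vs R0 R1 : ℕ) (sh : SL) : Bool :=
  mkP 7 I7 Q7 P dl v0 vs R0 R1 sh 7 <| fun L7 =>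
  mkP 19 I19 Q19 P dl v0 vs R0 R1 sh 19 <| fun L19 =>
  mkP 5 I5 Q5 P dl v0 vs R0 R1 sh 5 <| fun L5 =>
  mkP 13 I13 Q13 P dl v0 vs R0 R1 sh 13 <| fun L13 =>
  mkP 37 I37 Q37 P dl v0 vs R0 R1 sh 37 <| fun L37 =>
    osvB e133_13 e95 e133_37 e91 e185 e259_0 e259_1 dl L7 L19 L5 L13 L37 (fun _ _ => false)

theorem sieB1_ok {P : ℕ} {e133_13 e95 e133_37 e91 e185 e259_0 e259_1 : ℕ} (k133_13 : CE P c133_13 e133_13) (k95 : CE P c95_13 e95) (k133_37 : CE P c133_37 e133_37) (k91 : CE P c91_37 e91) (k185 : CE P c185_13 e185) (k259_0 : CE P c259_19_0 e259_0) (k259_1 : CE P c259_19_1 e259_1) :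
    SvOK P [5, 7, 13, 19, 37] (sieB1 P e133_13 e95 e133_37 e91 e185 e259_0 e259_1) := by
  intro H sh v dl v0 vs R0 R1 t qi m S h
  unfold sieB1 at h
  obtain ⟨L7, h, m7⟩ := m.mem S (by norm_num) ci7 iq7 (by decide) _ h
  obtain ⟨L19, h, m19⟩ := m.mem S (by norm_num) ci19 iq19 (by decide) _ h
  obtain ⟨L5, h, m5⟩ := m.mem S (by norm_num) ci5 iq5 (by decide) _ h
  obtain ⟨L13, h, m13⟩ := m.mem S (by norm_num) ci13 iq13 (by decide) _ h
  obtain ⟨L37, h, m37⟩ := m.mem S (by norm_num) ci37 iq37 (by decide) _ h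
  have h := osvB_sound k133_13 k95 k133_37 k91 k185 k259_0 k259_1 ⟨by decide, by decide⟩ S m7 m19 m5 m13 m37 h
  exact absurd h (by simp)

/-- the sieve, first stage only -/
noncomputable def sieC1 (P e95 e111_0 e111_1 e185 : ℕ) (dl v0 vs R0 R1 : ℕ) (sh : SL) : Bool :=
  mkP 19 I19 Q19 P dl v0 vs R0 R1 sh 19 <| fun L19 =>
  mkP 5 I5 Q5 P dl v0 vs R0 R1 sh 5 <| fun L5 =>
  mkP 13 I13 Q13 P dl v0 vs R0 R1 sh 13 <| fun L13 =>
  mkP 3 I3 Q3 P dl v0 vs R0 R1 sh 3 <| fun L3 =>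
  mkP 37 I37 Q37 P dl v0 vs R0 R1 sh 37 <| fun L37 =>
    osvC e95 e111_0 e111_1 e185 dl L19 L5 L13 L3 L37 (fun _ _ => false)

theorem sieC1_ok {P : ℕ} {e95 e111_0 e111_1 e185 : ℕ} (k95 : CE P c95_13 e95) (k111_0 : CE P c111_19_0 e111_0) (k111_1 : CE P c111_19_1 e111_1) (k185 : CE P c185_13 e185) :
    SvOK P [3, 5, 13, 19, 37] (sieC1 P e95 e111_0 e111_1 e185) := by
  intro H sh v dl v0 vs R0 R1 t qi m S h
  unfold sieC1 at h
  obtain ⟨L19, h, m19⟩ := m.mem S (by norm_num) ci19 iq19 (by decide) _ h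
  obtain ⟨L5, h, m5⟩ := m.mem S (by norm_num) ci5 iq5 (by decide) _ h
  obtain ⟨L13, h, m13⟩ := m.mem S (by norm_num) ci13 iq13 (by decide) _ h
  obtain ⟨L3, h, m3⟩ := m.mem S (by norm_num) ci3 iq3 (by decide) _ h
  obtain ⟨L37, h, m37⟩ := m.mem S (by norm_num) ci37 iq37 (by decide) _ h
  have h := osvC_sound k95 k111_0 k111_1 k185 ⟨by decide, by decide⟩ S m19 m5 m13 m3 m37 h
  exact absurd h (by simp)

/-- the sieve, first stage only -/
noncomputable def sieD1 (P e105 e91 e185 : ℕ) (dl v0 vs R0 R1 : ℕ) (sh : SL) : Bool :=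
  mkP 7 I7 Q7 P dl v0 vs R0 R1 sh 7 <| fun L7 =>
  mkP 13 I13 Q13 P dl v0 vs R0 R1 sh 13 <| fun L13 =>
  mkP 5 I5 Q5 P dl v0 vs R0 R1 sh 5 <| fun L5 =>
  mkP 3 I3 Q3 P dl v0 vs R0 R1 sh 3 <| fun L3 =>
  mkP 37 I37 Q37 P dl v0 vs R0 R1 sh 37 <| fun L37 =>
    osvD e105 e91 e185 dl L7 L13 L5 L3 L37 (fun _ _ _ _ _ => false)

theorem sieD1_ok {P : ℕ} {e105 e91 e185 : ℕ} (k105 : CE P c105_13 e105) (k91 : CE P c91_37 e91) (k185 : CE P c185_13 e185) :
    SvOK P [3, 5, 7, 13, 37] (sieD1 P e105 e91 e185) := by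
  intro H sh v dl v0 vs R0 R1 t qi m S h
  unfold sieD1 at h
  obtain ⟨L7, h, m7⟩ := m.mem S (by norm_num) ci7 iq7 (by decide) _ h
  obtain ⟨L13, h, m13⟩ := m.mem S (by norm_num) ci13 iq13 (by decide) _ h
  obtain ⟨L5, h, m5⟩ := m.mem S (by norm_num) ci5 iq5 (by decide) _ h
  obtain ⟨L3, h, m3⟩ := m.mem S (by norm_num) ci3 iq3 (by decide) _ h
  obtain ⟨L37, h, m37⟩ := m.mem S (by norm_num) ci37 iq37 (by decide) _ h
  have h := osvD_sound k105 k91 k185 ⟨by decide, by decide⟩ S m7 m13 m5 m3 m37 h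
  exact absurd h (by simp)

/-- the sieve with the second stage -/
noncomputable def sieA2 (P e133_13 e95 e105 e133_37 e91 e111_0 e111_1 e185 e259_0 e259_1 e247_127 : ℕ) (dl v0 vs R0 R1 : ℕ) (sh : SL) : Bool :=
  mkP 127 I127 Q127 P dl v0 vs R0 R1 sh 127 <| fun L127 =>
  mkP 7 I7 Q7 P dl v0 vs R0 R1 sh 7 <| fun L7 =>
  mkP 19 I19 Q19 P dl v0 vs R0 R1 sh 19 <| fun L19 =>
  mkP 5 I5 Q5 P dl v0 vs R0 R1 sh 5 <| fun L5 =>
  mkP 13 I13 Q13 P dl v0 vs R0 R1 sh 13 <| fun L13 =>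
  mkP 3 I3 Q3 P dl v0 vs R0 R1 sh 3 <| fun L3 =>
  mkP 37 I37 Q37 P dl v0 vs R0 R1 sh 37 <| fun L37 =>
    osvA e133_13 e95 e105 e133_37 e91 e111_0 e111_1 e185 e259_0 e259_1 dl L7 L19 L5 L13 L3 L37 (fun f13 f19 =>
      coD c247_127 13 209 19 39 f13 f19 <| fun y S A B => kuvP 127 e247_127 dl y S A B <| fun K0 U0 V0 =>
      L127.all <| fun u127 v127 _ => imp (lin 127 K0 U0 V0 u127 v127) <| false)

theorem sieA2_ok {P : ℕ} {e133_13 e95 e105 e133_37 e91 e111_0 e111_1 e185 e259_0 e259_1 e247_127 : ℕ} (k133_13 : CE P c133_13 e133_13) (k95 : CE P c95_13 e95) (k105 : CE P c105_13 e105) (k133_37 : CE P c133_37 e133_37) (k91 : CE P c91_37 e91) (k111_0 : CE P c111_19_0 e111_0) (k111_1 : CE P c111_19_1 e111_1) (k185 : CE P c185_13 e185) (k259_0 : CE P c259_19_0 e259_0) (k259_1 : CE P c259_19_1 e259_1) (k247_127 : CE P c247_127 e247_127) :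
    SvOK P [3, 5, 7, 13, 19, 37, 127] (sieA2 P e133_13 e95 e105 e133_37 e91 e111_0 e111_1 e185 e259_0 e259_1 e247_127) := by
  intro H sh v dl v0 vs R0 R1 t qi m S h
  unfold sieA2 at h
  obtain ⟨L127, h, m127⟩ := m.mem S (by norm_num) ci127 iq127 (by decide) _ h
  obtain ⟨L7, h, m7⟩ := m.mem S (by norm_num) ci7 iq7 (by decide) _ h
  obtain ⟨L19, h, m19⟩ := m.mem S (by norm_num) ci19 iq19 (by decide) _ h
  obtain ⟨L5, h, m5⟩ := m.mem S (by norm_num) ci5 iq5 (by decide) _ h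
  obtain ⟨L13, h, m13⟩ := m.mem S (by norm_num) ci13 iq13 (by decide) _ h
  obtain ⟨L3, h, m3⟩ := m.mem S (by norm_num) ci3 iq3 (by decide) _ h
  obtain ⟨L37, h, m37⟩ := m.mem S (by norm_num) ci37 iq37 (by decide) _ h
  have h := osvA_sound k133_13 k95 k105 k133_37 k91 k111_0 k111_1 k185 k259_0 k259_1 ⟨by decide, by decide⟩ S m7 m19 m5 m13 m3 m37 h
  rw [coD_eq] at h
  obtain ⟨x0, c0, d0⟩ := k247_127.use S (by decide)
  obtain ⟨K0, U0, V0, g0, h⟩ := lin_soundP (c := c247_127) (by decide)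
    (S.rel _ c247_127_ok (by decide) (by decide)) S.hs c0 d0
    (fun n hn => evD_sound c247_127_ok (by norm_num) (by norm_num) (by decide) _ _)
    (fun n _ => chD_sound (by norm_num) (by norm_num) (by decide) _)
    (fun n _ => chD_sound (by norm_num) (by norm_num) (by decide) _) h
  have h := m127 _ h
  have h := imp_true h g0
  exact absurd h (by simp)

/-- the sieve with the second stage -/
noncomputable def sieB2 (P e133_13 e95 e133_37 e91 e185 e259_0 e259_1 e247_127 : ℕ) (dl v0 vs R0 R1 : ℕ) (sh : SL) : Bool :=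
  mkP 127 I127 Q127 P dl v0 vs R0 R1 sh 127 <| fun L127 =>
  mkP 7 I7 Q7 P dl v0 vs R0 R1 sh 7 <| fun L7 =>
  mkP 19 I19 Q19 P dl v0 vs R0 R1 sh 19 <| fun L19 =>
  mkP 5 I5 Q5 P dl v0 vs R0 R1 sh 5 <| fun L5 =>
  mkP 13 I13 Q13 P dl v0 vs R0 R1 sh 13 <| fun L13 =>
  mkP 37 I37 Q37 P dl v0 vs R0 R1 sh 37 <| fun L37 =>
    osvB e133_13 e95 e133_37 e91 e185 e259_0 e259_1 dl L7 L19 L5 L13 L37 (fun f13 f19 =>
      coD c247_127 13 209 19 39 f13 f19 <| fun y S A B => kuvP 127 e247_127 dl y S A B <| fun K0 U0 V0 =>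
      L127.all <| fun u127 v127 _ => imp (lin 127 K0 U0 V0 u127 v127) <| false)

theorem sieB2_ok {P : ℕ} {e133_13 e95 e133_37 e91 e185 e259_0 e259_1 e247_127 : ℕ} (k133_13 : CE P c133_13 e133_13) (k95 : CE P c95_13 e95) (k133_37 : CE P c133_37 e133_37) (k91 : CE P c91_37 e91) (k185 : CE P c185_13 e185) (k259_0 : CE P c259_19_0 e259_0) (k259_1 : CE P c259_19_1 e259_1) (k247_127 : CE P c247_127 e247_127) :
    SvOK P [5, 7, 13, 19, 37, 127] (sieB2 P e133_13 e95 e133_37 e91 e185 e259_0 e259_1 e247_127) := by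
  intro H sh v dl v0 vs R0 R1 t qi m S h
  unfold sieB2 at h
  obtain ⟨L127, h, m127⟩ := m.mem S (by norm_num) ci127 iq127 (by decide) _ h
  obtain ⟨L7, h, m7⟩ := m.mem S (by norm_num) ci7 iq7 (by decide) _ h
  obtain ⟨L19, h, m19⟩ := m.mem S (by norm_num) ci19 iq19 (by decide) _ h
  obtain ⟨L5, h, m5⟩ := m.mem S (by norm_num) ci5 iq5 (by decide) _ h
  obtain ⟨L13, h, m13⟩ := m.mem S (by norm_num) ci13 iq13 (by decide) _ h
  obtain ⟨L37, h, m37⟩ := m.mem S (by norm_num) ci37 iq37 (by decide) _ h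
  have h := osvB_sound k133_13 k95 k133_37 k91 k185 k259_0 k259_1 ⟨by decide, by decide⟩ S m7 m19 m5 m13 m37 h
  rw [coD_eq] at h
  obtain ⟨x0, c0, d0⟩ := k247_127.use S (by decide)
  obtain ⟨K0, U0, V0, g0, h⟩ := lin_soundP (c := c247_127) (by decide)
    (S.rel _ c247_127_ok (by decide) (by decide)) S.hs c0 d0
    (fun n hn => evD_sound c247_127_ok (by norm_num) (by norm_num) (by decide) _ _)
    (fun n _ => chD_sound (by norm_num) (by norm_num) (by decide) _)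
    (fun n _ => chD_sound (by norm_num) (by norm_num) (by decide) _) h
  have h := m127 _ h
  have h := imp_true h g0
  exact absurd h (by simp)

/-- the sieve with the second stage -/
noncomputable def sieC2 (P e95 e111_0 e111_1 e185 e247_73_0 e247_73_1 : ℕ) (dl v0 vs R0 R1 : ℕ) (sh : SL) : Bool :=
  mkP 73 I73 Q73 P dl v0 vs R0 R1 sh 73 <| fun L73 =>
  mkP 19 I19 Q19 P dl v0 vs R0 R1 sh 19 <| fun L19 =>
  mkP 5 I5 Q5 P dl v0 vs R0 R1 sh 5 <| fun L5 =>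
  mkP 13 I13 Q13 P dl v0 vs R0 R1 sh 13 <| fun L13 =>
  mkP 3 I3 Q3 P dl v0 vs R0 R1 sh 3 <| fun L3 =>
  mkP 37 I37 Q37 P dl v0 vs R0 R1 sh 37 <| fun L37 =>
    osvC e95 e111_0 e111_1 e185 dl L19 L5 L13 L3 L37 (fun f13 f19 =>
      coD c247_73_0 13 209 19 39 f13 f19 <| fun y S A B => kuvP 73 e247_73_0 dl y S A B <| fun K0 U0 V0 =>
      coD c247_73_1 13 209 19 39 f13 f19 <| fun y S A B => kuvP 73 e247_73_1 dl y S A B <| fun K1 U1 V1 =>
      L73.all <| fun u73 v73 _ => imp (lin 73 K0 U0 V0 u73 v73) <| imp (lin 73 K1 U1 V1 u73 v73) <| false)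

theorem sieC2_ok {P : ℕ} {e95 e111_0 e111_1 e185 e247_73_0 e247_73_1 : ℕ} (k95 : CE P c95_13 e95) (k111_0 : CE P c111_19_0 e111_0) (k111_1 : CE P c111_19_1 e111_1) (k185 : CE P c185_13 e185) (k247_73_0 : CE P c247_73_0 e247_73_0) (k247_73_1 : CE P c247_73_1 e247_73_1) :
    SvOK P [3, 5, 13, 19, 37, 73] (sieC2 P e95 e111_0 e111_1 e185 e247_73_0 e247_73_1) := by
  intro H sh v dl v0 vs R0 R1 t qi m S h
  unfold sieC2 at h
  obtain ⟨L73, h, m73⟩ := m.mem S (by norm_num) ci73 iq73 (by decide) _ h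
  obtain ⟨L19, h, m19⟩ := m.mem S (by norm_num) ci19 iq19 (by decide) _ h
  obtain ⟨L5, h, m5⟩ := m.mem S (by norm_num) ci5 iq5 (by decide) _ h
  obtain ⟨L13, h, m13⟩ := m.mem S (by norm_num) ci13 iq13 (by decide) _ h
  obtain ⟨L3, h, m3⟩ := m.mem S (by norm_num) ci3 iq3 (by decide) _ h
  obtain ⟨L37, h, m37⟩ := m.mem S (by norm_num) ci37 iq37 (by decide) _ h
  have h := osvC_sound k95 k111_0 k111_1 k185 ⟨by decide, by decide⟩ S m19 m5 m13 m3 m37 h
  rw [coD_eq] at h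
  obtain ⟨x0, c0, d0⟩ := k247_73_0.use S (by decide)
  obtain ⟨K0, U0, V0, g0, h⟩ := lin_soundP (c := c247_73_0) (by decide)
    (S.rel _ c247_73_0_ok (by decide) (by decide)) S.hs c0 d0
    (fun n hn => evD_sound c247_73_0_ok (by norm_num) (by norm_num) (by decide) _ _)
    (fun n _ => chD_sound (by norm_num) (by norm_num) (by decide) _)
    (fun n _ => chD_sound (by norm_num) (by norm_num) (by decide) _) h
  rw [coD_eq] at h
  obtain ⟨x1, c1, d1⟩ := k247_73_1.use S (by decide)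
  obtain ⟨K1, U1, V1, g1, h⟩ := lin_soundP (c := c247_73_1) (by decide)
    (S.rel _ c247_73_1_ok (by decide) (by decide)) S.hs c1 d1
    (fun n hn => evD_sound c247_73_1_ok (by norm_num) (by norm_num) (by decide) _ _)
    (fun n _ => chD_sound (by norm_num) (by norm_num) (by decide) _)
    (fun n _ => chD_sound (by norm_num) (by norm_num) (by decide) _) h
  have h := m73 _ h
  have h := imp_true h g0
  have h := imp_true h g1
  exact absurd h (by simp)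

/-- the sieve with the second stage -/
noncomputable def sieD2 (P e105 e91 e185 e305_13_0 e305_13_1 e305_37 : ℕ) (dl v0 vs R0 R1 : ℕ) (sh : SL) : Bool :=
  mkP 61 I61 Q61 P dl v0 vs R0 R1 sh 61 <| fun L61 =>
  mkP 7 I7 Q7 P dl v0 vs R0 R1 sh 7 <| fun L7 =>
  mkP 13 I13 Q13 P dl v0 vs R0 R1 sh 13 <| fun L13 =>
  mkP 5 I5 Q5 P dl v0 vs R0 R1 sh 5 <| fun L5 =>
  mkP 3 I3 Q3 P dl v0 vs R0 R1 sh 3 <| fun L3 =>
  mkP 37 I37 Q37 P dl v0 vs R0 R1 sh 37 <| fun L37 =>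
    osvD e105 e91 e185 dl L7 L13 L5 L3 L37 (fun u13 v13 u37 v37 f5 =>
      L61.all <| fun _ _ f61 =>
      coD c305_13_0 5 61 61 245 f5 f61 <| fun y S A B => kuvP 13 e305_13_0 dl y S A B <| fun K0 U0 V0 =>
      imp (lin 13 K0 U0 V0 u13 v13) <|
      coD c305_13_1 5 61 61 245 f5 f61 <| fun y S A B => kuvP 13 e305_13_1 dl y S A B <| fun K1 U1 V1 =>
      imp (lin 13 K1 U1 V1 u13 v13) <|
      coD c305_37 5 61 61 245 f5 f61 <| fun y S A B => kuvP 37 e305_37 dl y S A B <| fun K2 U2 V2 =>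
      imp (lin 37 K2 U2 V2 u37 v37) <|
      false)

theorem sieD2_ok {P : ℕ} {e105 e91 e185 e305_13_0 e305_13_1 e305_37 : ℕ} (k105 : CE P c105_13 e105) (k91 : CE P c91_37 e91) (k185 : CE P c185_13 e185) (k305_13_0 : CE P c305_13_0 e305_13_0) (k305_13_1 : CE P c305_13_1 e305_13_1) (k305_37 : CE P c305_37 e305_37) :
    SvOK P [3, 5, 7, 13, 37, 61] (sieD2 P e105 e91 e185 e305_13_0 e305_13_1 e305_37) := by
  intro H sh v dl v0 vs R0 R1 t qi m S h
  unfold sieD2 at h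
  obtain ⟨L61, h, m61⟩ := m.mem S (by norm_num) ci61 iq61 (by decide) _ h
  obtain ⟨L7, h, m7⟩ := m.mem S (by norm_num) ci7 iq7 (by decide) _ h
  obtain ⟨L13, h, m13⟩ := m.mem S (by norm_num) ci13 iq13 (by decide) _ h
  obtain ⟨L5, h, m5⟩ := m.mem S (by norm_num) ci5 iq5 (by decide) _ h
  obtain ⟨L3, h, m3⟩ := m.mem S (by norm_num) ci3 iq3 (by decide) _ h
  obtain ⟨L37, h, m37⟩ := m.mem S (by norm_num) ci37 iq37 (by decide) _ h
  have h := osvD_sound k105 k91 k185 ⟨by decide, by decide⟩ S m7 m13 m5 m3 m37 h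
  have h := m61 _ h
  rw [coD_eq] at h
  obtain ⟨x0, c0, d0⟩ := k305_13_0.use S (by decide)
  obtain ⟨K0, U0, V0, g0, h⟩ := lin_soundP (c := c305_13_0) (by decide)
    (S.rel _ c305_13_0_ok (by decide) (by decide)) S.hs c0 d0
    (fun n hn => evD_sound c305_13_0_ok (by norm_num) (by norm_num) (by decide) _ _)
    (fun n _ => chD_sound (by norm_num) (by norm_num) (by decide) _)
    (fun n _ => chD_sound (by norm_num) (by norm_num) (by decide) _) h
  have h := imp_true h g0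
  rw [coD_eq] at h
  obtain ⟨x1, c1, d1⟩ := k305_13_1.use S (by decide)
  obtain ⟨K1, U1, V1, g1, h⟩ := lin_soundP (c := c305_13_1) (by decide)
    (S.rel _ c305_13_1_ok (by decide) (by decide)) S.hs c1 d1
    (fun n hn => evD_sound c305_13_1_ok (by norm_num) (by norm_num) (by decide) _ _)
    (fun n _ => chD_sound (by norm_num) (by norm_num) (by decide) _)
    (fun n _ => chD_sound (by norm_num) (by norm_num) (by decide) _) h
  have h := imp_true h g1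
  rw [coD_eq] at h
  obtain ⟨x2, c2, d2⟩ := k305_37.use S (by decide)
  obtain ⟨K2, U2, V2, g2, h⟩ := lin_soundP (c := c305_37) (by decide)
    (S.rel _ c305_37_ok (by decide) (by decide)) S.hs c2 d2
    (fun n hn => evD_sound c305_37_ok (by norm_num) (by norm_num) (by decide) _ _)
    (fun n _ => chD_sound (by norm_num) (by norm_num) (by decide) _)
    (fun n _ => chD_sound (by norm_num) (by norm_num) (by decide) _) h
  have h := imp_true h g2
  exact absurd h (by simp)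

end Pool.Agent.H449
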