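import Pool.Agent.H449.O4
import Pool.Agent.H449.E4

/-! Lists of families, odd discriminant. -/

set_option maxRecDepth 100000

namespace Pool.Agent.H449

open H419R2 Finset QuadraticAlgebra Module
open Pool.Agent.N911 (cj cj_true imp imp_true mod_res res_cast' allN allN_iff)

/-- a sound sieve for the central norm `P` which uses primes up to `B` -/
def SvB (P B : ℕ) (sv : ℕ → ℕ → ℕ → ℕ → ℕ → SL → Bool) : Prop :=
  2 ≤ B ∧ ∃ L : List ℕ, (∀ l ∈ L, l.Prime ∧ l ≠ 2 ∧ l ≤ B) ∧ P ∉ L ∧ SvOK P L sv

/-- the list of exceptions, with some fields of larger class number -/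
def LO : ℕ := 151238846886680727765865521618334211391616114599872249102514158640325990520674031089007158744826223063610341112707229244072788222526047746726855230900106779963129267865569296027657883423131562793530054584340707296175260391475709994545331427315890060411122403560894366397988385780221459919100575540832674349999055383294086084018607523571998724769492789917355323406387084292487549561101278575502675234055315060956325401899478734369279343927722455316511673618097317661073955349615457607742760946169609771127649498295746855892447895729875947925040518401982070817990897920316470487870395017207806281579158924493760894989844252466252889201298503682787860611216699078285113748570723282701464802935072921924187586340814132395217601852653399609163960650889713230783657166965627931621378172759796432346368827309930948098927679693364323613949235260506685514550231550970184557941457734399439537631912902732620011707464844494667653518427197859937147432985311525971704950798563288298853407338377348697660375457736745043615237937864309240042473151544734427080645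864295664927405588022375376237495397241598508711966067077056082656553402942981396936641848930987640469702954600105628590718858688874351428894751503489340622296503837677200327575541927812075413579586763924736825990230366281529414052008963981014349392190085305516966647602828055608754257041838243712015717218673370427098602760069295448721912808578023522568724178765393283320442146671130907971782383776432837727710140123511566999650239471027652026763067398579776665046726047531054632686665889883837289247548086393157788377070404612690759239627373710092767740537992061397126733939012817030771678528260233845935255716547327887976546496410112374684152917979813644089329519464109357663954331834134414475590032698502780130250222661920960211518215951529546589183611091142510322333189939750937336393164450493187546378347929791072111447806850387765362408165166205913602200852315734633997891435513620855052695156635781087603287634208830242542689809028346500226579745428675010622955551437084863269041817426224548053515557260902932790720284830758807696044093725022342660343711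21545907860692918805565712642476116956290221085502960442922168197237335691428292942710884759137887605951343320122398609571411609065583707924901167209706792095808631993952597788246337787422956013812112270744638569604655676949308799135884528388404669088070283956210386949888636183955867537838202468211153317911109077969795110060483648665226368718596657150284245512350384209660195135680851265195472561648520699271675722316350094591684502209894673112093224380769305146035408354960427118053875222898127922324197622668363972227017725962100239763928396832337006974532056945694180391311520451724602726005450149193660980955530045797020466412984923273776842469102823890104076307583500539629606438782010001395127896749592627352715935845481626848378210912915709094697359472763724967261497125312102653267573323250241309773377964402100756887876844648898566986555064858314245533300522923390547072460935861860569185124049951772435984579151454563489769733580189567739130645420439440345649010613613837141558721567322146346210538131410173926399096813466515257436284869546642552651723945302657144410361819910509602159507217210544409398266961590222848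
/-- primes below 200 -/
def PO : ℕ := 1020032875410759681235134578348735197776366020317731447515308

/-- the exceptions as a list -/
def lstO : List ℕ := [21, 33, 57, 69, 77, 93, 129, 133, 141, 161, 177, 209, 213, 237, 253, 301, 309, 341, 381, 413, 437, 453, 501, 517, 573, 581, 597, 669, 717, 749, 789, 813, 869, 893, 917, 933, 989, 1077, 1133, 1253, 1293, 1317, 1333, 1349, 1389, 1397, 1437, 1757, 1797, 1893, 2189, 2253, 2453, 2573, 2757, 2933, 3053, 3093, 3101, 3197, 3317, 3437, 4037, 4413, 4613, 5277, 5493, 6117, 6677, 6797, 10757]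

/-- some fields of larger class number -/
def lstN : List ℕ := [285, 465, 469, 473, 817, 885, 1677, 2021, 2485, 2765, 3245, 4757, 6557]

/-- membership -/
noncomputable def mbO (d : ℕ) (l : List ℕ) : Bool :=
  @List.rec ℕ (fun _ => Bool) false (fun x _ ih => @Bool.rec (fun _ => Bool) ih true (Nat.beq d x)) l

theorem mbO_mem {d : ℕ} : ∀ l : List ℕ, mbO d l = true → d ∈ l := by
  intro l
  induction l with
  | nil => intro h; exact absurd h (by unfold mbO; simp)
  | cons x l ih =>
    intro h
    have e : mbO d (x :: l) = @Bool.rec (fun _ => Bool) (mbO d l) true (Nat.beq d x) := rfl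
    rw [e] at h
    cases hb : Nat.beq d x with
    | false =>
      rw [hb] at h
      exact List.mem_cons_of_mem _ (ih h)
    | true =>
      have : d = x := beq_true hb
      rw [this]
      exact List.mem_cons_self

theorem LO_all : allN 10758 (fun d => imp (tb LO d) (mbO d (lstO ++ lstN))) = true := by decide +kernel

theorem LO_lst {d : ℕ} (h : tb LO d = true) : d ∈ lstO ∨ d ∈ lstN := by
  have h1 : d < 10758 := by
    by_contra hc
    have h2 : LO.testBit d = false := by
      apply Nat.testBit_lt_two_pow
      calc LO < 2 ^ 10758 := by decide +kernel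
        _ ≤ 2 ^ d := Nat.pow_le_pow_right (by norm_num) (by omega)
    rw [tb_eq, h2] at h
    exact absurd h (by simp)
  have h2 := (allN_iff _ _).mp LO_all d h1
  exact List.mem_append.mp (mbO_mem _ (imp_true h2 h))

theorem PO_prime {p : ℕ} (h : tb PO p = true) : p.Prime := by
  have h1 : p < 200 := by
    by_contra hc
    have h2 : PO.testBit p = false := by
      apply Nat.testBit_lt_two_pow
      calc PO < 2 ^ 200 := by decide +kernel
        _ ≤ 2 ^ p := Nat.pow_le_pow_right (by norm_num) (by omega)
    rw [tb_eq, h2] at h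
    exact absurd h (by simp)
  have h2 : ∀ p < 200, tb PO p = true → p ∈ ([2, 3, 5, 7, 11, 13, 17, 19, 23, 29, 31, 37, 41, 43, 47, 53, 59, 61, 67, 71, 73, 79, 83, 89, 97, 101, 103, 107, 109, 113, 127, 131, 137, 139, 149, 151, 157, 163, 167, 173, 179, 181, 191, 193, 197, 199] : List ℕ) := by decide +kernel
  have h3 := h2 p h1 h
  simp only [List.mem_cons, List.not_mem_nil, or_false] at h3
  rcases h3 with rfl | rfl | rfl | rfl | rfl | rfl | rfl | rfl | rfl | rfl | rfl | rfl | rfl | rfl | rfl | rfl | rfl | rfl | rfl | rfl | rfl | rfl | rfl | rfl | rfl | rfl | rfl | rfl | rfl | rfl | rfl | rfl | rfl | rfl | rfl | rfl | rfl | rfl | rfl | rfl | rfl | rfl | rfl | rfl | rfl | rfl <;> norm_num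

/-- the field data -/
structure FDO (d P y : ℕ) : Prop where
  sf : Squarefree (d : ℤ)
  d4 : d % 4 = 1
  dP : P ∣ d
  good : ∀ H : Half, (d : ℤ) = H.b 0 ^ 2 + 4 * H.q 1 → OGood H d
  min : ∀ y' z : ℕ, 0 < y' → y' < y → d * (y' * y') + 4 * P ≠ z * z ∧ d * (y' * y') ≠ z * z + 4 * P

/-- check for one member -/
noncomputable def chkOneO (P y b R dl k x z : ℕ) (sh : SL) : Bool :=
  force (Nat.add (Nat.mul b b) (Nat.mul 4 R)) (fun d =>
  @Nat.rec (fun _ => Bool) (tb LO d) (fun k _ =>
  @Nat.rec (fun _ => Bool) (cj (Nat.blt 1 x) (Nat.beq (Nat.mod d (Nat.mul x x)) 0)) (fun k _ =>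
  @Nat.rec (fun _ => Bool) (cj (Nat.blt 0 x) (cj (Nat.blt x y)
      (or (Nat.beq (Nat.add (Nat.mul d (Nat.mul x x)) (Nat.mul 4 P)) (Nat.mul z z))
        (Nat.beq (Nat.mul d (Nat.mul x x)) (Nat.add (Nat.mul z z) (Nat.mul 4 P)))))) (fun _ _ =>
    cj (tb PO x) (cj (Nat.ble (Nat.mul 4 (Nat.mul x x)) d) (cj (Nat.blt (Nat.mul 2 dl) b) (cj
      (not (Nat.beq x P)) (cj (Nat.beq (Nat.add (Nat.mul P (Nat.div (Nat.sub b (Nat.mul 2 dl)) P)) (Nat.mul 2 dl)) b)
      (cj
      (Nat.beq (Nat.mod (Nat.add (Nat.mul z z) (Nat.mul b z)) x) (Nat.mod R x))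
      (chkNP (fun ra => cj (Nat.blt 1 ra) (not (Nat.beq ra x))) P
        (Nat.div (Nat.sub b (Nat.mul 2 dl)) P) 0 sh 1 0 b 0 R 0))))))) k) k) k)

/-- check of the witnesses -/
noncomputable def chkWO (P y M R1 dl : ℕ) (sh : SL) (w : WtL) : ℕ → ℕ → Bool :=
  @WtL.rec (fun _ => ℕ → ℕ → Bool) (fun _ _ => true) (fun k x z _ ih b R =>
    cj (chkOneO P y b R dl k x z sh) (force (Nat.add b M) (fun b => force (Nat.add R R1) (fun R =>
      ih b R)))) w

/-- check for large members -/
noncomputable def chkBigO (P B b0 R0 vs R1 dl T : ℕ) (sh : SL) : Bool :=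
  force (Nat.add b0 (Nat.mul (Nat.mul P vs) T)) (fun b => force (Nat.add R0 (Nat.mul R1 T)) (fun R =>
  force (Nat.div (Nat.sub b (Nat.mul 2 dl)) P) (fun v => cj (Nat.blt 0 v)
    (cj (Nat.beq (Nat.add (Nat.mul P v) (Nat.mul 2 dl)) b)
    (cj (Nat.ble (Nat.mul 4 (Nat.mul B B)) (Nat.add (Nat.mul b b) (Nat.mul 4 R)))
      (chkNP (fun ra => Nat.blt B ra) P v vs sh 1 0 b (Nat.mul P vs) R R1))))))

/-- numerical check of a family -/
noncomputable def chkFamO (P B y b0 R0 vs R1 dl T : ℕ) (sh : SL) (w : WtL) : Bool :=
  cj (chkBigO P B b0 R0 vs R1 dl T sh) (cj (Nat.beq (wlen w) T) (chkWO P y (Nat.mul P vs) R1 dl sh w b0 R0))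

theorem chkOneO_sound {P y b R dl k x z d : ℕ} {sh : SL} (hP : P.Prime) (F : FDO d P y)
    (hd : d = b * b + 4 * R) (h : chkOneO P y b R dl k x z sh = true) : tb LO d = true := by
  subst hd
  set d := b * b + 4 * R with hdd
  match k, h with
  | 0, h =>
    have e : chkOneO P y b R dl 0 x z sh = force d (fun d => tb LO d) := rfl
    rw [e, force_eq] at h
    exact h
  | 1, h =>
    exfalso
    have e : chkOneO P y b R dl 1 x z sh = force d (fun d => cj (Nat.blt 1 x)
      (Nat.beq (Nat.mod d (Nat.mul x x)) 0)) := rfl
    rw [e, force_eq, cj_true] at h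
    obtain ⟨h1, h2⟩ := h
    have h1 := blt_true h1
    have h2 : d % (x * x) = 0 := beq_true h2
    have h3 : x * x ∣ d := Nat.dvd_of_mod_eq_zero h2
    have h4 : (x : ℤ) * x ∣ (d : ℤ) := by exact_mod_cast h3
    have h5 := F.sf _ h4
    have h6 : IsUnit x := Int.isUnit_iff_natAbs_eq.mp h5 |> fun h => by
      rw [Int.natAbs_natCast] at h
      rw [h]; exact isUnit_one
    have := Nat.isUnit_iff.mp h6
    omega
  | 2, h =>
    exfalso
    have e : chkOneO P y b R dl 2 x z sh = force d (fun d => cj (Nat.blt 0 x) (cj (Nat.blt x y)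
      (or (Nat.beq (Nat.add (Nat.mul d (Nat.mul x x)) (Nat.mul 4 P)) (Nat.mul z z))
        (Nat.beq (Nat.mul d (Nat.mul x x)) (Nat.add (Nat.mul z z) (Nat.mul 4 P)))))) := rfl
    rw [e, force_eq, cj_true, cj_true, Bool.or_eq_true] at h
    obtain ⟨h1, h2, h3⟩ := h
    have h1 := blt_true h1
    have h2 := blt_true h2
    have h4 := F.min x z h1 h2
    rcases h3 with h3 | h3
    · exact h4.1 (beq_true h3)
    · exact h4.2 (beq_true h3)
  | n + 3, h =>
    exfalso
    have e : chkOneO P y b R dl (n + 3) x z sh = force d (fun d =>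
      cj (tb PO x) (cj (Nat.ble (Nat.mul 4 (Nat.mul x x)) d) (cj (Nat.blt (Nat.mul 2 dl) b) (cj
      (not (Nat.beq x P)) (cj (Nat.beq (Nat.add (Nat.mul P (Nat.div (Nat.sub b (Nat.mul 2 dl)) P)) (Nat.mul 2 dl)) b)
      (cj
      (Nat.beq (Nat.mod (Nat.add (Nat.mul z z) (Nat.mul b z)) x) (Nat.mod R x))
      (chkNP (fun ra => cj (Nat.blt 1 ra) (not (Nat.beq ra x))) P
        (Nat.div (Nat.sub b (Nat.mul 2 dl)) P) 0 sh 1 0 b 0 R 0))))))) := rfl
    rw [e, force_eq] at h
    simp only [cj_true] at h
    obtain ⟨h1, h2, h3, h3', h3'', h4, h5⟩ := h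
    have hp := PO_prime h1
    have h2 : 4 * (x * x) ≤ d := ble_true h2
    have h3 : 2 * dl < b := blt_true h3
    have hxP : x ≠ P := by
      intro h
      rw [h, show Nat.beq P P = true from Nat.beq_refl P] at h3'
      exact absurd h3' (by simp)
    set v := (b - 2 * dl) / P with hv
    have h3'' : P * v + 2 * dl = b := beq_true h3''
    have h4 : (z * z + b * z) % x = R % x := beq_true h4
    have hv0 : 0 < v := by
      rcases Nat.eq_zero_or_pos v with h | h
      · rw [h] at h3''; omega
      · exact h
    have h6 := chkNP_sound (g := fun ra => cj (Nat.blt 1 ra) (not (Nat.beq ra x)))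
      (P := P) (v0 := v) (vs := 0) (κ := kap 0 (v : ℤ) sh) (b := b) (R := R) (u := 0) (s := 0)
      (Q := fun w => 1 < w ∧ w ≠ x) (by
        intro ra rb h
        rw [cj_true] at h
        obtain ⟨g1, g2⟩ := h
        have g1 := blt_true g1
        have g3 : ra ≠ x := by
          intro h
          rw [h] at g2
          rw [show Nat.beq x x = true from Nat.beq_refl x] at g2
          exact absurd g2 (by simp)
        constructor
        · push_cast; simp; omega
        · push_cast; simp; exact_mod_cast g3) sh 0 1 0 b 0 R 0 (kap_shp _ _ _)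
      (by rw [oq_zero]; simp) (by rw [ob_zero]; simp)
      (by rw [oq_one]; simp) h5
    obtain ⟨r1, r2, r3, r4⟩ := h6
    rw [zero_add] at r1 r2 r3 r4
    obtain ⟨H, hk, hq, hb, hκ⟩ := mkHalfP (v := (v : ℤ)) (b := b) (R := R) (P := P)
      (sh := sh) (Q := fun w => 1 < w ∧ w ≠ x) (fun z h => h.1) hP.one_lt (by exact_mod_cast hv0)
      (by have : 0 < b := by omega
          exact_mod_cast this)
      (fun j h1 h2 => r1 j h1 (by omega)) (fun j h => r2 j (by omega) h) r3
      (by rw [r4]; push_cast; ring)
    have G := F.good H (by rw [hb, hq, ob_zero, oq_one, hdd]; push_cast; ring)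
    obtain ⟨r, hr, he⟩ := G.split x hp (by rw [pow_two]; exact h2) ⟨z, by
      rw [hb, hq, ob_zero, oq_one]
      have h7 : ((z * z + b * z : ℕ) : ZMod x) = ((R : ℕ) : ZMod x) :=
        (ZMod.natCast_eq_natCast_iff' _ _ _).mpr h4
      have h8 : (((z : ℤ) ^ 2 + b * z - R : ℤ) : ZMod x) = 0 := by
        push_cast at h7 ⊢
        linear_combination h7
      exact (ZMod.intCast_zmod_eq_zero_iff_dvd _ x).mp h8⟩
    rw [hq] at he
    rcases Nat.eq_zero_or_pos r with h9 | h9
    · rw [h9, oq_zero] at he
      exact hp.one_lt.ne (by exact_mod_cast he)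
    · rcases Nat.lt_or_ge r (sh.len + 1) with h10 | h10
      · exact (r1 r h9 h10).2 he
      · have : r = sh.len + 1 := by omega
        rw [this, r3] at he
        exact hxP (by exact_mod_cast he.symm)

theorem chkWO_sound {P y M R1 dl : ℕ} {sh : SL} (hP : P.Prime) (w : WtL) : ∀ (b R t d : ℕ), FDO d P y →
    d = (b + M * t) * (b + M * t) + 4 * (R + R1 * t) → t < wlen w → chkWO P y M R1 dl sh w b R = true →
    tb LO d = true := by
  induction w with
  | nil => intro b R t d _ _ h; exact absurd h (Nat.not_lt_zero _)
  | cons k x z w ih =>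
    intro b R t d F hd ht h
    have e : chkWO P y M R1 dl sh (WtL.cons k x z w) b R = cj (chkOneO P y b R dl k x z sh)
      (force (Nat.add b M) (fun b => force (Nat.add R R1) (fun R => chkWO P y M R1 dl sh w b R))) := rfl
    rw [e, cj_true, force_eq, force_eq] at h
    obtain ⟨h1, h2⟩ := h
    have ht : t < wlen w + 1 := ht
    rcases Nat.eq_zero_or_pos t with h3 | h3
    · subst h3
      exact chkOneO_sound hP F (by rw [hd]; ring) h1
    · obtain ⟨t', rfl⟩ : ∃ t', t = t' + 1 := ⟨t - 1, by omega⟩
      refine ih (b + M) (R + R1) t' d F ?_ (by omega) h2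
      rw [hd]; ring

theorem chkBigO_sound {P B y b0 R0 vs R1 dl T t d : ℕ} {sh : SL} (hP : P.Prime) (hP2 : P ≠ 2)
    (F : FDO d P y) {sv : ℕ → ℕ → ℕ → ℕ → ℕ → SL → Bool} (S : SvB P B sv)
    (hd : d = (b0 + P * vs * t) * (b0 + P * vs * t) + 4 * (R0 + R1 * t)) (hT : T ≤ t)
    (h : chkBigO P B b0 R0 vs R1 dl T sh = true)
    (hs : sv dl ((b0 + P * vs * T - 2 * dl) / P) vs (R0 + R1 * T) R1 sh = true) : False := by
  obtain ⟨hB, L, hL, hPL, hsv⟩ := S
  unfold chkBigO at h
  simp only [force_eq, cj_true] at h
  obtain ⟨h1, h2, h3, h4⟩ := h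
  obtain ⟨s, rfl⟩ : ∃ s, t = T + s := ⟨t - T, by omega⟩
  set v0 := (b0 + P * vs * T - 2 * dl) / P with hv0
  have h1 : 0 < v0 := blt_true h1
  have h2 : P * v0 + 2 * dl = b0 + P * vs * T := beq_true h2
  have h3 : 4 * (B * B) ≤ (b0 + P * vs * T) * (b0 + P * vs * T) + 4 * (R0 + R1 * T) := ble_true h3
  set v : ℤ := (v0 : ℤ) + vs * s with hv
  have hvp : 0 < v := by
    have : (0 : ℤ) < v0 := by exact_mod_cast h1
    have : (0 : ℤ) ≤ (vs : ℤ) * s := by positivity
    omega
  have hbz : ((b0 + P * vs * (T + s) : ℕ) : ℤ) = P * v + 2 * dl := by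
    have e := congrArg (fun n : ℕ => (n : ℤ)) h2
    push_cast at e ⊢
    rw [hv]
    linear_combination -e
  set R : ℤ := ((R0 + R1 * T : ℕ) : ℤ) + R1 * s with hR
  have h6 := chkNP_sound (g := fun ra => Nat.blt B ra) (P := P)
      (v0 := v0) (vs := vs) (κ := kap 0 v sh) (b := P * v + 2 * dl) (R := R) (u := 0) (s := s)
      (Q := fun w => (B : ℤ) < w) (by
        intro ra rb h
        have h := blt_true h
        have : (B : ℤ) < ra := by exact_mod_cast h
        have : (0 : ℤ) ≤ (rb : ℤ) * s := by positivity
        omega) sh 0 1 0 _ _ _ _ (kap_shp _ _ _)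
      (by rw [oq_zero]; simp)
      (by
        rw [ob_zero, ← hbz]
        change _ = ((b0 + P * vs * T : ℕ) : ℤ) + ((P * vs : ℕ) : ℤ) * s
        push_cast; ring)
      (by rw [oq_one, hR]; rfl) h4
  obtain ⟨r1, r2, r3, r4⟩ := h6
  rw [zero_add] at r1 r2 r3 r4
  have hb0 : (0 : ℤ) < P * v + 2 * dl := by
    have : (0 : ℤ) < P := by exact_mod_cast hP.pos
    positivity
  obtain ⟨H, hk, hq, hb, hκ⟩ := mkHalfP (v := v) (b := P * v + 2 * dl)
      (R := R) (P := P)
      (sh := sh) (Q := fun w => (B : ℤ) < w) (fun z h => by
        have : (2 : ℤ) ≤ B := by exact_mod_cast hB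
        omega) hP.one_lt hvp hb0
      (fun j h1 h2 => r1 j h1 (by omega)) (fun j h => r2 j (by omega) h) r3 r4
  have m : MemP H sh v P dl v0 vs (R0 + R1 * T) R1 s :=
    { len := hk, q := hq, b := hb, κ := hκ, hv := hv }
  have G := F.good H (by
    rw [hb, hq, ob_zero, oq_one, hd, ← hbz, hR]; push_cast; ring)
  have hd5 : 4 * B ^ 2 ≤ d := by
    rw [hd]
    have e1 : b0 + P * vs * (T + s) = (b0 + P * vs * T) + P * vs * s := by ring
    have e2 : R0 + R1 * (T + s) = (R0 + R1 * T) + R1 * s := by ring
    rw [e1, e2]
    calc 4 * B ^ 2 = 4 * (B * B) := by ring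
      _ ≤ (b0 + P * vs * T) * (b0 + P * vs * T) + 4 * (R0 + R1 * T) := h3
      _ ≤ _ := Nat.add_le_add (Nat.mul_le_mul (Nat.le_add_right _ _) (Nat.le_add_right _ _))
          (Nat.mul_le_mul_left 4 (Nat.le_add_right _ _))
  obtain ⟨qi, S⟩ := sysP_of hL hPL hB hP G hd5 (by rw [hk, hq]; exact r3) hP2 (by
    intro r h5 h6
    rw [hq]
    exact r1 r h5 (by omega)) m.hs
  exact hsv H sh v dl v0 vs (R0 + R1 * T) R1 s qi m S hs

/-- a family is settled -/
theorem fam_soundO {P B y b0 R0 vs R1 dl T t d : ℕ} {sh : SL} {w : WtL} (hP : P.Prime) (hP2 : P ≠ 2)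
    (F : FDO d P y) {sv : ℕ → ℕ → ℕ → ℕ → ℕ → SL → Bool} (S : SvB P B sv)
    (hd : d = (b0 + P * vs * t) * (b0 + P * vs * t) + 4 * (R0 + R1 * t))
    (h : chkFamO P B y b0 R0 vs R1 dl T sh w = true)
    (hs : sv dl ((b0 + P * vs * T - 2 * dl) / P) vs (R0 + R1 * T) R1 sh = true) :
    tb LO d = true := by
  unfold chkFamO at h
  rw [cj_true, cj_true] at h
  obtain ⟨h1, h2, h3⟩ := h
  have h2 : wlen w = T := beq_true h2
  rcases Nat.lt_or_ge t T with h4 | h4
  · exact chkWO_sound hP w b0 R0 t d F hd (by omega) h3
  · exact (chkBigO_sound hP hP2 F S hd h4 h1 hs).elim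

end Pool.Agent.H449
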