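import Pool.Agent.H449.O5

/-! Sieves for the central values 3, 7, ..., 83. -/

set_option maxRecDepth 100000

namespace Pool.Agent.H449

open H419R2
open Pool.Agent.N911

theorem lpA1 : ∀ l ∈ ([3, 5, 7, 13, 19, 37] : List ℕ), l.Prime ∧ l ≠ 2 ∧ l ≤ 37 := by
  intro l hl
  simp only [List.mem_cons, List.not_mem_nil, or_false] at hl
  rcases hl with rfl | rfl | rfl | rfl | rfl | rfl <;> refine ⟨by norm_num, by norm_num, by norm_num⟩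

theorem lpA2 : ∀ l ∈ ([3, 5, 7, 13, 19, 37, 127] : List ℕ), l.Prime ∧ l ≠ 2 ∧ l ≤ 127 := by
  intro l hl
  simp only [List.mem_cons, List.not_mem_nil, or_false] at hl
  rcases hl with rfl | rfl | rfl | rfl | rfl | rfl | rfl <;> refine ⟨by norm_num, by norm_num, by norm_num⟩

theorem lpB1 : ∀ l ∈ ([5, 7, 13, 19, 37] : List ℕ), l.Prime ∧ l ≠ 2 ∧ l ≤ 37 := by
  intro l hl
  simp only [List.mem_cons, List.not_mem_nil, or_false] at hl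
  rcases hl with rfl | rfl | rfl | rfl | rfl <;> refine ⟨by norm_num, by norm_num, by norm_num⟩

theorem lpB2 : ∀ l ∈ ([5, 7, 13, 19, 37, 127] : List ℕ), l.Prime ∧ l ≠ 2 ∧ l ≤ 127 := by
  intro l hl
  simp only [List.mem_cons, List.not_mem_nil, or_false] at hl
  rcases hl with rfl | rfl | rfl | rfl | rfl | rfl <;> refine ⟨by norm_num, by norm_num, by norm_num⟩

theorem lpC1 : ∀ l ∈ ([3, 5, 13, 19, 37] : List ℕ), l.Prime ∧ l ≠ 2 ∧ l ≤ 37 := by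
  intro l hl
  simp only [List.mem_cons, List.not_mem_nil, or_false] at hl
  rcases hl with rfl | rfl | rfl | rfl | rfl <;> refine ⟨by norm_num, by norm_num, by norm_num⟩

theorem lpC2 : ∀ l ∈ ([3, 5, 13, 19, 37, 73] : List ℕ), l.Prime ∧ l ≠ 2 ∧ l ≤ 73 := by
  intro l hl
  simp only [List.mem_cons, List.not_mem_nil, or_false] at hl
  rcases hl with rfl | rfl | rfl | rfl | rfl | rfl <;> refine ⟨by norm_num, by norm_num, by norm_num⟩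

theorem lpD1 : ∀ l ∈ ([3, 5, 7, 13, 37] : List ℕ), l.Prime ∧ l ≠ 2 ∧ l ≤ 37 := by
  intro l hl
  simp only [List.mem_cons, List.not_mem_nil, or_false] at hl
  rcases hl with rfl | rfl | rfl | rfl | rfl <;> refine ⟨by norm_num, by norm_num, by norm_num⟩

theorem lpD2 : ∀ l ∈ ([3, 5, 7, 13, 37, 61] : List ℕ), l.Prime ∧ l ≠ 2 ∧ l ≤ 61 := by
  intro l hl
  simp only [List.mem_cons, List.not_mem_nil, or_false] at hl
  rcases hl with rfl | rfl | rfl | rfl | rfl | rfl <;> refine ⟨by norm_num, by norm_num, by norm_num⟩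

theorem sb3_1 : SvB 3 37 (sieB1 3 7 1 31 4 6 17 11) :=
  ⟨by norm_num, [5, 7, 13, 19, 37], lpB1, by decide, sieB1_ok ⟨89, 4, by decide +kernel⟩ ⟨32, 11, by decide +kernel⟩ ⟨89, 28, by decide +kernel⟩ ⟨61, 1, by decide +kernel⟩ ⟨62, 3, by decide +kernel⟩ ⟨173, 14, by decide +kernel⟩ ⟨173, 8, by decide +kernel⟩⟩

theorem sb3_2 : SvB 3 127 (sieB2 3 7 1 31 4 6 17 11 93) :=
  ⟨by norm_num, [5, 7, 13, 19, 37, 127], lpB2, by decide, sieB2_ok ⟨89, 4, by decide +kernel⟩ ⟨32, 11, by decide +kernel⟩ ⟨89, 28, by decide +kernel⟩ ⟨61, 1, by decide +kernel⟩ ⟨62, 3, by decide +kernel⟩ ⟨173, 14, by decide +kernel⟩ ⟨173, 8, by decide +kernel⟩ ⟨165, 90, by decide +kernel⟩⟩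

theorem sb7_1 : SvB 7 37 (sieC1 7 12 4 16 4) :=
  ⟨by norm_num, [3, 5, 13, 19, 37], lpC1, by decide, sieC1_ok ⟨68, 5, by decide +kernel⟩ ⟨16, 16, by decide +kernel⟩ ⟨16, 9, by decide +kernel⟩ ⟨53, 10, by decide +kernel⟩⟩

theorem sb7_2 : SvB 7 73 (sieC2 7 12 4 16 4 8 10) :=
  ⟨by norm_num, [3, 5, 13, 19, 37, 73], lpC2, by decide, sieC2_ok ⟨68, 5, by decide +kernel⟩ ⟨16, 16, by decide +kernel⟩ ⟨16, 9, by decide +kernel⟩ ⟨53, 10, by decide +kernel⟩ ⟨106, 1, by decide +kernel⟩ ⟨106, 3, by decide +kernel⟩⟩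

theorem sb11_1 : SvB 11 37 (sieA1 11 1 12 8 0 17 4 0 10 3 18) :=
  ⟨by norm_num, [3, 5, 7, 13, 19, 37], lpA1, by decide, sieA1_ok ⟨121, 3, by decide +kernel⟩ ⟨26, 1, by decide +kernel⟩ ⟨86, 10, by decide +kernel⟩ ⟨121, 26, by decide +kernel⟩ ⟨58, 6, by decide +kernel⟩ ⟨101, 12, by decide +kernel⟩ ⟨101, 8, by decide +kernel⟩ ⟨101, 12, by decide +kernel⟩ ⟨212, 11, by decide +kernel⟩ ⟨212, 7, by decide +kernel⟩⟩

theorem sb11_2 : SvB 11 127 (sieA2 11 1 12 8 0 17 4 0 10 3 18 119) :=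
  ⟨by norm_num, [3, 5, 7, 13, 19, 37, 127], lpA2, by decide, sieA2_ok ⟨121, 3, by decide +kernel⟩ ⟨26, 1, by decide +kernel⟩ ⟨86, 10, by decide +kernel⟩ ⟨121, 26, by decide +kernel⟩ ⟨58, 6, by decide +kernel⟩ ⟨101, 12, by decide +kernel⟩ ⟨101, 8, by decide +kernel⟩ ⟨101, 12, by decide +kernel⟩ ⟨212, 11, by decide +kernel⟩ ⟨212, 7, by decide +kernel⟩ ⟨45, 108, by decide +kernel⟩⟩

theorem sb19_1 : SvB 19 37 (sieD1 19 2 13 8) :=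
  ⟨by norm_num, [3, 5, 7, 13, 37], lpD1, by decide, sieD1_ok ⟨94, 9, by decide +kernel⟩ ⟨24, 31, by decide +kernel⟩ ⟨39, 2, by decide +kernel⟩⟩

theorem sb19_2 : SvB 19 61 (sieD2 19 2 13 8 3 10 30) :=
  ⟨by norm_num, [3, 5, 7, 13, 37, 61], lpD2, by decide, sieD2_ok ⟨94, 9, by decide +kernel⟩ ⟨24, 31, by decide +kernel⟩ ⟨39, 2, by decide +kernel⟩ ⟨289, 10, by decide +kernel⟩ ⟨289, 4, by decide +kernel⟩ ⟨289, 11, by decide +kernel⟩⟩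

theorem sb23_1 : SvB 23 37 (sieA1 23 0 4 4 20 34 12 11 5 11 12) :=
  ⟨by norm_num, [3, 5, 7, 13, 19, 37], lpA1, by decide, sieA1_ok ⟨81, 3, by decide +kernel⟩ ⟨62, 7, by decide +kernel⟩ ⟨32, 7, by decide +kernel⟩ ⟨81, 34, by decide +kernel⟩ ⟨4, 11, by decide +kernel⟩ ⟨29, 8, by decide +kernel⟩ ⟨29, 7, by decide +kernel⟩ ⟨177, 8, by decide +kernel⟩ ⟨214, 7, by decide +kernel⟩ ⟨214, 8, by decide +kernel⟩⟩

theorem sb31_1 : SvB 31 37 (sieA1 31 2 6 2 21 23 13 11 0 5 0) :=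
  ⟨by norm_num, [3, 5, 7, 13, 19, 37], lpA1, by decide, sieA1_ok ⟨103, 10, by decide +kernel⟩ ⟨46, 1, by decide +kernel⟩ ⟨61, 10, by decide +kernel⟩ ⟨103, 27, by decide +kernel⟩ ⟨47, 29, by decide +kernel⟩ ⟨43, 1, by decide +kernel⟩ ⟨43, 18, by decide +kernel⟩ ⟨6, 8, by decide +kernel⟩ ⟨117, 12, by decide +kernel⟩ ⟨117, 7, by decide +kernel⟩⟩

theorem sb43_1 : SvB 43 37 (sieA1 43 7 2 9 18 17 6 4 12 6 4) :=
  ⟨by norm_num, [3, 5, 7, 13, 19, 37], lpA1, by decide, sieA1_ok ⟨99, 3, by decide +kernel⟩ ⟨42, 11, by decide +kernel⟩ ⟨22, 5, by decide +kernel⟩ ⟨99, 12, by decide +kernel⟩ ⟨36, 11, by decide +kernel⟩ ⟨31, 1, by decide +kernel⟩ ⟨31, 18, by decide +kernel⟩ ⟨142, 8, by decide +kernel⟩ ⟨253, 1, by decide +kernel⟩ ⟨253, 18, by decide +kernel⟩⟩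

theorem sb47_1 : SvB 47 37 (sieA1 47 5 1 2 3 33 17 2 7 2 17) :=
  ⟨by norm_num, [3, 5, 7, 13, 19, 37], lpA1, by decide, sieA1_ok ⟨17, 10, by decide +kernel⟩ ⟨93, 6, by decide +kernel⟩ ⟨38, 7, by decide +kernel⟩ ⟨17, 30, by decide +kernel⟩ ⟨31, 23, by decide +kernel⟩ ⟨26, 8, by decide +kernel⟩ ⟨26, 12, by decide +kernel⟩ ⟨63, 12, by decide +kernel⟩ ⟨248, 12, by decide +kernel⟩ ⟨248, 8, by decide +kernel⟩⟩

theorem sb59_1 : SvB 59 37 (sieA1 59 11 4 4 6 8 15 0 0 17 3) :=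
  ⟨by norm_num, [3, 5, 7, 13, 19, 37], lpA1, by decide, sieA1_ok ⟨124, 4, by decide +kernel⟩ ⟨29, 10, by decide +kernel⟩ ⟨89, 10, by decide +kernel⟩ ⟨124, 21, by decide +kernel⟩ ⟨54, 23, by decide +kernel⟩ ⟨32, 13, by decide +kernel⟩ ⟨32, 17, by decide +kernel⟩ ⟨69, 6, by decide +kernel⟩ ⟨180, 15, by decide +kernel⟩ ⟨180, 1, by decide +kernel⟩⟩

theorem sb67_1 : SvB 67 37 (sieA1 67 3 8 0 0 24 7 0 5 8 2) :=
  ⟨by norm_num, [3, 5, 7, 13, 19, 37], lpA1, by decide, sieA1_ok ⟨2, 1, by decide +kernel⟩ ⟨78, 6, by decide +kernel⟩ ⟨58, 11, by decide +kernel⟩ ⟨2, 7, by decide +kernel⟩ ⟨72, 31, by decide +kernel⟩ ⟨58, 16, by decide +kernel⟩ ⟨58, 9, by decide +kernel⟩ ⟨58, 3, by decide +kernel⟩ ⟨58, 17, by decide +kernel⟩ ⟨58, 11, by decide +kernel⟩⟩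

theorem sb71_1 : SvB 71 37 (sieA1 71 9 9 5 9 26 16 10 9 12 2) :=
  ⟨by norm_num, [3, 5, 7, 13, 19, 37], lpA1, by decide, sieA1_ok ⟨15, 3, by decide +kernel⟩ ⟨91, 3, by decide +kernel⟩ ⟨71, 12, by decide +kernel⟩ ⟨15, 12, by decide +kernel⟩ ⟨50, 29, by decide +kernel⟩ ⟨86, 2, by decide +kernel⟩ ⟨86, 15, by decide +kernel⟩ ⟨86, 3, by decide +kernel⟩ ⟨197, 17, by decide +kernel⟩ ⟨197, 7, by decide +kernel⟩⟩

theorem sb79_1 : SvB 79 37 (sieA1 79 2 11 5 14 15 0 13 3 8 2) :=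
  ⟨by norm_num, [3, 5, 7, 13, 19, 37], lpA1, by decide, sieA1_ok ⟨32, 1, by decide +kernel⟩ ⟨89, 10, by decide +kernel⟩ ⟨4, 4, by decide +kernel⟩ ⟨32, 9, by decide +kernel⟩ ⟨53, 10, by decide +kernel⟩ ⟨52, 16, by decide +kernel⟩ ⟨52, 10, by decide +kernel⟩ ⟨89, 2, by decide +kernel⟩ ⟨200, 5, by decide +kernel⟩ ⟨200, 18, by decide +kernel⟩⟩

theorem sb83_1 : SvB 83 37 (sieA1 83 4 0 10 36 3 3 10 9 3 15) :=
  ⟨by norm_num, [3, 5, 7, 13, 19, 37], lpA1, by decide, sieA1_ok ⟨125, 12, by decide +kernel⟩ ⟨87, 8, by decide +kernel⟩ ⟨62, 5, by decide +kernel⟩ ⟨125, 27, by decide +kernel⟩ ⟨34, 31, by decide +kernel⟩ ⟨107, 15, by decide +kernel⟩ ⟨107, 3, by decide +kernel⟩ ⟨107, 4, by decide +kernel⟩ ⟨181, 15, by decide +kernel⟩ ⟨181, 8, by decide +kernel⟩⟩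

end Pool.Agent.H449
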