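import Pool.Agent.H449.O6

/-! From class number one to the families, odd discriminant. -/

set_option maxRecDepth 100000

namespace Pool.Agent.H449

open H419R2 Finset QuadraticAlgebra Module
open Pool.Agent.N911 (cj cj_true imp imp_true mod_res res_cast' allN allN_iff)

/-- `x ^ 2 - d y ^ 2 = ±4 P` is solvable in `x` -/
def SolO (d P y : ℕ) : Prop := ∃ x : ℕ, d * (y * y) + 4 * P = x * x ∨ d * (y * y) = x * x + 4 * P

theorem sq_ne_prime {P : ℕ} (hP : P.Prime) (w : ℕ) : w * w ≠ 4 * P := by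
  intro h
  have h2 : 2 ∣ w * w := by rw [h]; exact ⟨2 * P, by ring⟩
  have h3 : 2 ∣ w := by
    rcases (Nat.prime_two.dvd_mul).mp h2 with h | h <;> exact h
  obtain ⟨m, rfl⟩ := h3
  have h4 : m * m = P := by nlinarith
  have h5 : m ∣ P := ⟨m, h4.symm⟩
  rcases (Nat.dvd_prime hP).mp h5 with h6 | h6
  · rw [h6] at h4
    exact hP.one_lt.ne (by omega)
  · rw [h6] at h4
    have := hP.one_lt
    nlinarith

theorem exists_solO {d P : ℕ} (hP : P.Prime) (hP2 : P % 2 = 1) (hsf : Squarefree (d : ℤ))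
    (hd4 : d % 4 = 1) (hd1' : 1 < d) (hdP : P ∣ d)
    {K : Type*} [Field K] [NumberField K] (hK : Module.finrank ℚ K = 2) {x : K}
    (hx : x ^ 2 = ((d : ℤ) : K)) (hcl : NumberField.classNumber K = 1) :
    ∃ y, 0 < y ∧ SolO d P y := by
  have hd1 : (1 : ℤ) < d := by exact_mod_cast hd1'
  obtain ⟨R, hR⟩ : ∃ R : ℤ, (d : ℤ) = 1 ^ 2 + 4 * R := ⟨((d : ℤ) - 1) / 4, by omega⟩
  have i1 : IsDomain (QA R 1) := isDomain_of hR hsf hd1
  have i2 : IsPrincipalIdealRing (QA R 1) :=
    pid_of_classNumber_one (by norm_num) hR hsf hd1 hK hx hcl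
  obtain ⟨k, hk⟩ : ∃ k : ℤ, (P : ℤ) = 2 * k + 1 := ⟨(P : ℤ) / 2, by omega⟩
  obtain ⟨z, hz⟩ := exists_norm_prime (R := R) (m := 1) hP (w0 := k) (by
    have h4 : (P : ℤ) ∣ 4 * (k ^ 2 + 1 * k - R) := by
      have e : 4 * (k ^ 2 + 1 * k - R) = (P : ℤ) * P - d := by rw [hk, hR]; ring
      rw [e]
      exact dvd_sub (dvd_mul_right _ _) (Int.natCast_dvd_natCast.mpr hdP)
    have hc : IsCoprime (P : ℤ) 4 := by
      have : Nat.Coprime P 4 := by
        have h1 : Nat.Coprime P 2 := (Nat.coprime_primes hP Nat.prime_two).mpr (by omega)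
        exact h1.pow_right 2
      exact_mod_cast this.isCoprime
    exact hc.dvd_of_dvd_mul_left h4)
  rw [norm_eq] at hz
  set X : ℕ := (2 * z.re + z.im).natAbs with hX
  set Y : ℕ := z.im.natAbs with hY
  have hX2 : (2 * z.re + z.im) ^ 2 = (X : ℤ) * X := by rw [hX, ← pow_two, Int.natAbs_sq]
  have hY2 : z.im ^ 2 = (Y : ℤ) * Y := by rw [hY, ← pow_two, Int.natAbs_sq]
  have h1 : (X : ℤ) * X - d * (Y * Y) = 4 * P ∨ (X : ℤ) * X - d * (Y * Y) = -(4 * P) := by
    rw [← hX2, ← hY2, hR]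
    have := Int.natAbs_eq_iff.mp hz
    rcases this with h | h
    · left; linear_combination 4 * h
    · right; linear_combination 4 * h
  have hs : SolO d P Y := by
    refine ⟨X, ?_⟩
    rcases h1 with h | h
    · left
      have : ((d * (Y * Y) + 4 * P : ℕ) : ℤ) = ((X * X : ℕ) : ℤ) := by push_cast; linarith
      exact_mod_cast this
    · right
      have : ((d * (Y * Y) : ℕ) : ℤ) = ((X * X + 4 * P : ℕ) : ℤ) := by push_cast; linarith
      exact_mod_cast this
  refine ⟨Y, ?_, hs⟩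
  by_contra h0
  have hY0 : Y = 0 := by omega
  rw [hY0] at hs
  obtain ⟨x, hx⟩ := hs
  have h3 := sq_ne_prime hP x
  have h4 := hP.pos
  rcases hx with h | h
  · apply h3; omega
  · omega

theorem pell_ineqO {d P u v x y : ℕ} (hP : P.Prime) (hd : 1 < d) (hd2 : d % 2 = 1)
    (hp : u * u = d * (v * v) + 4) (hv : 0 < v)
    (hy : 0 < y) (hxy : d * (y * y) + 4 * P = x * x ∨ d * (y * y) = x * x + 4 * P)
    (hmin : ∀ y', 0 < y' → y' < y → ¬ SolO d P y') : d * (y * y) ≤ P * (u + 2) := by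
  obtain ⟨σ, hσ, hxy'⟩ : ∃ σ : ℤ, (σ = 1 ∨ σ = -1) ∧ (x : ℤ) * x = d * (y * y) + 4 * σ * P := by
    rcases hxy with h | h
    · exact ⟨1, Or.inl rfl, by have := congrArg (fun n : ℕ => (n : ℤ)) h; push_cast at this; linarith⟩
    · exact ⟨-1, Or.inr rfl, by have := congrArg (fun n : ℕ => (n : ℤ)) h; push_cast at this; linarith⟩
  have hp' : (u : ℤ) * u = d * (v * v) + 4 := by exact_mod_cast hp
  have hd' : (1 : ℤ) < d := by exact_mod_cast hd
  have hv' : (0 : ℤ) < v := by exact_mod_cast hv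
  have hy' : (0 : ℤ) < y := by exact_mod_cast hy
  have hP' : (0 : ℤ) < P := by exact_mod_cast hP.pos
  have hu0 : (0 : ℤ) ≤ u := by positivity
  have hx0 : (0 : ℤ) ≤ x := by positivity
  have hu1 : (2 : ℤ) < u := by nlinarith
  -- parities
  have par : ∀ a b c : ℤ, a * a = d * (b * b) + 2 * c → (a - b) % 2 = 0 := by
    intro a b c h
    have hd2' : (d : ℤ) % 2 = 1 := by omega
    obtain ⟨k, hk⟩ : ∃ k : ℤ, (d : ℤ) = 2 * k + 1 := ⟨(d : ℤ) / 2, by omega⟩
    rw [hk] at h
    have e : (a - b) * (a + b) = 2 * (k * (b * b) + c) := by linear_combination h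
    rcases Int.emod_two_eq_zero_or_one (a - b) with h1 | h1
    · exact h1
    · exfalso
      have h2 : (a + b) % 2 = 1 := by omega
      have h3 : ((a - b) * (a + b)) % 2 = 1 := by rw [Int.mul_emod, h1, h2]; norm_num
      omega
  have par1 := par x y (2 * σ * P) (by linear_combination hxy')
  have par2 := par u v 2 (by linear_combination hp')
  obtain ⟨m1, hm1⟩ : ∃ m : ℤ, (x : ℤ) = y + 2 * m := ⟨((x : ℤ) - y) / 2, by omega⟩
  obtain ⟨m2, hm2⟩ : ∃ m : ℤ, (u : ℤ) = v + 2 * m := ⟨((u : ℤ) - v) / 2, by omega⟩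
  have hd2' : ∃ k : ℤ, (d : ℤ) = 2 * k + 1 := ⟨(d : ℤ) / 2, by omega⟩
  obtain ⟨kd, hkd⟩ := hd2'
  set e : ℤ := y * m2 - v * m1 with he
  have he2 : 2 * e = y * u - x * v := by rw [he, hm1, hm2]; ring
  obtain ⟨X, hX⟩ : ∃ X : ℤ, 2 * X = x * u - d * y * v := by
    refine ⟨y * m2 + m1 * v + 2 * m1 * m2 - kd * y * v, ?_⟩
    rw [hm1, hm2, hkd]; ring
  have hnorm : X * X - d * (e * e) = 4 * σ * P := by
    have h4 : 4 * (X * X - d * (e * e)) = 4 * (4 * σ * P) := by
      have e1 : 4 * (X * X) = (x * u - d * y * v) * (x * u - d * y * v) := by rw [← hX]; ring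
      have e2 : 4 * (e * e) = (y * u - x * v) * (y * u - x * v) := by rw [← he2]; ring
      have e3 : 4 * (X * X - d * (e * e)) = 4 * (X * X) - d * (4 * (e * e)) := by ring
      rw [e3, e1, e2]
      linear_combination ((u : ℤ) * u - d * (v * v)) * hxy' + (4 * σ * P) * hp'
    linarith
  have hey : (y : ℤ) ≤ |e| := by
    by_contra hc
    have hc := not_le.mp hc
    have h1 : (e.natAbs : ℤ) = |e| := Int.natCast_natAbs e
    have h2 : e.natAbs < y := by omega
    have e1 : ((e.natAbs : ℕ) : ℤ) * (e.natAbs : ℕ) = e * e := by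
      rw [h1, abs_mul_abs_self]
    have e2 : ((X.natAbs : ℕ) : ℤ) * (X.natAbs : ℕ) = X * X := by
      rw [Int.natCast_natAbs, abs_mul_abs_self]
    have hs : SolO d P e.natAbs := by
      refine ⟨X.natAbs, ?_⟩
      rcases hσ with h | h
      · left
        have : ((d * (e.natAbs * e.natAbs) + 4 * P : ℕ) : ℤ) = ((X.natAbs * X.natAbs : ℕ) : ℤ) := by
          push_cast
          push_cast at e1 e2
          rw [h] at hnorm
          rw [abs_mul_abs_self, abs_mul_abs_self]
          linarith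
        exact_mod_cast this
      · right
        have : ((d * (e.natAbs * e.natAbs) : ℕ) : ℤ) = ((X.natAbs * X.natAbs + 4 * P : ℕ) : ℤ) := by
          push_cast
          rw [h] at hnorm
          rw [abs_mul_abs_self, abs_mul_abs_self]
          linarith
        exact_mod_cast this
    rcases Nat.eq_zero_or_pos e.natAbs with h3 | h3
    · rw [h3] at hs
      obtain ⟨w, hw⟩ := hs
      have h3 := sq_ne_prime hP w
      have h4 := hP.pos
      rcases hw with h | h
      · apply h3; omega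
      · omega
    · exact hmin _ h3 h2 hs
  have hkey : (y : ℤ) * u * (y * u) - (x * v) * (x * v) = 4 * (y * y) - 4 * σ * (P * (v * v)) := by
    linear_combination ((y : ℤ) * y) * hp' - ((v : ℤ) * v) * hxy'
  have hxv : (0 : ℤ) ≤ x * v := by positivity
  have hyy : (0 : ℤ) < y * y := mul_pos hy' hy'
  have hvv : (0 : ℤ) < P * (v * v) := mul_pos hP' (mul_pos hv' hv')
  have hd0 : (0 : ℤ) ≤ d := by linarith
  have goal : (d : ℤ) * (y * y) ≤ P * (u + 2) := by
    rcases le_or_gt 0 e with h0 | h0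
    · rw [abs_of_nonneg h0] at hey
      have h1 : 2 * e ≤ y * u := by rw [he2]; linarith
      have h2 : (2 * e) * (2 * (y * u) - 2 * e) = 4 * (y * y) - 4 * σ * (P * (v * v)) := by
        rw [← hkey, he2]; ring
      have h3 : (y : ℤ) * 2 ≤ y * u := mul_le_mul_of_nonneg_left hu1.le hy'.le
      have h4' := mul_nonneg (sub_nonneg.mpr hey) (show (0 : ℤ) ≤ y * u - e - y by linarith)
      have h4 : (2 * y : ℤ) * (2 * (y * u) - 2 * y) ≤ (2 * e) * (2 * (y * u) - 2 * e) := by
        have e1 : (2 * e) * (2 * ((y : ℤ) * u) - 2 * e) - (2 * y : ℤ) * (2 * (y * u) - 2 * y) =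
          4 * ((e - y) * (y * u - e - y)) := by ring
        linarith
      rw [h2] at h4
      rcases hσ with h5 | h5
      · exfalso
        rw [h5] at h4
        have h9 := mul_pos hyy (sub_pos.mpr hu1)
        linarith
      · rw [h5] at h4
        have h6 : (y : ℤ) * y * (u - 2) ≤ P * (v * v) := by linarith
        have h8 := mul_le_mul_of_nonneg_left h6 hd0
        have h7 : (d : ℤ) * (y * y) * (u - 2) ≤ (P * (u + 2)) * (u - 2) := by
          calc (d : ℤ) * (y * y) * (u - 2) = d * (y * y * (u - 2)) := by ring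
            _ ≤ d * (P * (v * v)) := h8
            _ = (P * (u + 2)) * (u - 2) := by linear_combination (-(P : ℤ)) * hp'
        exact le_of_mul_le_mul_right h7 (by linarith)
    · rw [abs_of_neg h0] at hey
      have h2 : (-(2 * e)) * (2 * (y * u) + (-(2 * e))) = 4 * σ * (P * (v * v)) - 4 * (y * y) := by
        rw [show 4 * σ * ((P : ℤ) * (v * v)) - 4 * (y * y) = -(4 * (y * y) - 4 * σ * (P * (v * v))) by ring,
          ← hkey, he2]; ring
      have h3 : (0 : ℤ) ≤ y * u := by positivity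
      have h4' := mul_nonneg (sub_nonneg.mpr hey) (show (0 : ℤ) ≤ y * u + (-e) + y by linarith)
      have h4 : (2 * y : ℤ) * (2 * (y * u) + 2 * y) ≤ (-(2 * e)) * (2 * (y * u) + (-(2 * e))) := by
        have e1 : (-(2 * e)) * (2 * ((y : ℤ) * u) + (-(2 * e))) - (2 * y : ℤ) * (2 * (y * u) + 2 * y) =
          4 * ((-e - y) * (y * u + (-e) + y)) := by ring
        linarith
      rw [h2] at h4
      rcases hσ with h5 | h5
      · rw [h5] at h4
        have h6 : (y : ℤ) * y * (u + 2) ≤ P * (v * v) := by linarith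
        have h8 := mul_le_mul_of_nonneg_left h6 hd0
        have h7 : (d : ℤ) * (y * y) * (u + 2) ≤ (P * (u - 2)) * (u + 2) := by
          calc (d : ℤ) * (y * y) * (u + 2) = d * (y * y * (u + 2)) := by ring
            _ ≤ d * (P * (v * v)) := h8
            _ = (P * (u - 2)) * (u + 2) := by linear_combination (-(P : ℤ)) * hp'
        have := le_of_mul_le_mul_right h7 (by linarith)
        linarith
      · exfalso
        rw [h5] at h4
        have h9 := mul_pos hyy (show (0 : ℤ) < u + 2 by linarith)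
        linarith
  exact_mod_cast goal

/-- sieve of an entry -/
noncomputable def gSvO (P : ℕ) (sv1 sv2 : ℕ → ℕ → ℕ → ℕ → ℕ → SL → Bool)
    (s y c b0 R0 dl T : ℕ) (sh : SL) (_w : WtL) : Bool :=
  force (Nat.mul y (Nat.add 1 (Nat.mod y 2))) (fun vs =>
  force (Nat.mul c (Nat.mul P (Nat.add 1 (Nat.mod y 2)))) (fun R1 =>
  force (Nat.div (Nat.sub (Nat.add b0 (Nat.mul (Nat.mul P vs) T)) (Nat.mul 2 dl)) P) (fun v =>
  force (Nat.add R0 (Nat.mul R1 T)) (fun R =>
  @Nat.rec (fun _ => Bool) (sv1 dl v vs R R1 sh) (fun _ _ => sv2 dl v vs R R1 sh) (Nat.div s 2)))))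

/-- numerical check of an entry -/
noncomputable def gNmO (P B1 B2 s y c b0 R0 dl T : ℕ) (sh : SL) (w : WtL) : Bool :=
  force (Nat.mul y (Nat.add 1 (Nat.mod y 2))) (fun vs =>
  force (Nat.mul c (Nat.mul P (Nat.add 1 (Nat.mod y 2)))) (fun R1 =>
  cj (Nat.beq (Nat.mod b0 2) 1) (cj (Nat.ble b0 (Nat.mul P vs)) (cj (Nat.beq (Nat.gcd y c) 1)
    (cj (Nat.beq (Nat.mod (Nat.add (Nat.mul b0 y) (Nat.mul 2 c)) P) 0) (cj
    (@Nat.rec (fun _ => Bool)
      (Nat.beq (Nat.mul (Nat.mul y y) R0) (Nat.add (Nat.mul b0 (Nat.mul c y))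
        (Nat.add (Nat.mul c c) P)))
      (fun _ _ => Nat.beq (Nat.add (Nat.mul (Nat.mul y y) R0) P) (Nat.add (Nat.mul b0 (Nat.mul c y))
        (Nat.mul c c))) (Nat.mod s 2))
    (@Nat.rec (fun _ => Bool) (chkFamO P B1 y b0 R0 vs R1 dl T sh w)
      (fun _ _ => chkFamO P B2 y b0 R0 vs R1 dl T sh w) (Nat.div s 2))))))))

/-- coverage -/
noncomputable def covO (P : ℕ) (L : FamL) (lo n : ℕ) : Bool :=
  allN n (fun i => force (Nat.add lo i) (fun y =>
    @Bool.rec (fun _ => Bool)
      (force (Nat.mul y (Nat.sub 2 (Nat.mod y 2))) (fun m1 =>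
      force (Nat.mul y (Nat.sub 1 (Nat.mod y 2))) (fun tg =>
      force (Nat.mul (Nat.sub (Nat.mul 2 y) 1) P) (fun eP =>
      allN y (fun c => force (Nat.mul c c) (fun cc =>
    cj (imp (Nat.beq (Nat.mod (Nat.add cc P) m1) tg) (L.has 0 y c))
      (imp (Nat.beq (Nat.mod (Nat.add cc eP) m1) tg) (L.has 1 y c)))))))) true
    (Nat.beq (Nat.mod y P) 0)))

/-- arithmetic of the coverage: residues -/
theorem cov_res {P y c K σ : ℤ} {R b : ℤ} (hPo : P % 2 = 1) (hb : b % 2 = 1)
    (h : R * y * y = b * c * y + c * c - σ * P) (hσ : σ = 1 ∨ σ = -1) (hK : K = R * y - b * c) :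
    c * c - σ * P = y * K ∧ (y % 2 = 0 → K % 2 = 1) := by
  have h1 : c * c - σ * P = y * K := by rw [hK]; linear_combination -h
  refine ⟨h1, fun hy2 => ?_⟩
  obtain ⟨m, hm⟩ : ∃ m, y = 2 * m := ⟨y / 2, by omega⟩
  have hc : c % 2 = 1 := by
    rcases Int.emod_two_eq_zero_or_one c with h2 | h2
    · exfalso
      obtain ⟨k, hk⟩ : ∃ k, c = 2 * k := ⟨c / 2, by omega⟩
      rw [hk, hm] at h1
      have e1 : (2 * k) * (2 * k) = 2 * (2 * k * k) := by ring
      have e2 : 2 * m * K = 2 * (m * K) := by ring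
      rw [e1, e2] at h1
      rcases hσ with h3 | h3
      · rw [h3] at h1; omega
      · rw [h3] at h1; omega
    · exact h2
  have hbc : (b * c) % 2 = 1 := by rw [Int.mul_emod, hb, hc]; norm_num
  rw [hK, hm]
  have e2 : R * (2 * m) = 2 * (R * m) := by ring
  rw [e2]
  omega

theorem mod_of_int {A m t : ℕ} {z : ℤ} (h : (A : ℤ) = m * z + t) (ht : t < m) : A % m = t := by
  have h1 : (A : ℤ) % m = (t : ℤ) % m := by
    rw [h, add_comm, Int.add_mul_emod_self_left]
  have h2 : ((A % m : ℕ) : ℤ) = ((t % m : ℕ) : ℤ) := by push_cast; exact h1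
  have h3 : A % m = t % m := by exact_mod_cast h2
  rw [h3, Nat.mod_eq_of_lt ht]

/-- an entry of the list settles its family -/
theorem entry_soundO {P B1 B2 : ℕ} (hP : P.Prime) (hP4 : P % 4 = 3)
    {sv1 sv2 : ℕ → ℕ → ℕ → ℕ → ℕ → SL → Bool} (S1 : SvB P B1 sv1) (S2 : SvB P B2 sv2)
    {d y c s' b0 R0 dl T b : ℕ} {sh : SL} {w : WtL} {R σ : ℤ} (F : FDO d P y) (hy0 : 0 < y)
    (g1 : gSvO P sv1 sv2 s' y c b0 R0 dl T sh w = true)
    (g2 : gNmO P B1 B2 s' y c b0 R0 dl T sh w = true)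
    (hb : b % 2 = 1) (hR : (d : ℤ) = b * b + 4 * R)
    (hRy : R * y * y = (b : ℤ) * c * y + c * c - σ * P)
    (hσ : (σ = 1 ∧ s' % 2 = 1) ∨ (σ = -1 ∧ s' % 2 = 0))
    (hPx : (P : ℤ) ∣ b * y + 2 * c) (hPy : ¬ (P : ℤ) ∣ y) : tb LO d = true := by
  have hP2 : P ≠ 2 := by omega
  have hP0 := hP.pos
  have hPz : Prime (P : ℤ) := Nat.prime_iff_prime_int.mp hP
  have hyz : (0 : ℤ) < y := by exact_mod_cast hy0
  unfold gNmO at g2
  unfold gSvO at g1
  simp only [force_eq] at g1 g2
  rw [cj_true, cj_true, cj_true, cj_true, cj_true] at g2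
  obtain ⟨k1, k2, k3, k4, k5, k6⟩ := g2
  set vs : ℕ := y * (1 + y % 2) with hvs
  set R1 : ℕ := c * (P * (1 + y % 2)) with hR1
  have k1 : b0 % 2 = 1 := beq_true k1
  have k2 : b0 ≤ P * vs := ble_true k2
  have k3 : Nat.gcd y c = 1 := beq_true k3
  have k4 : (b0 * y + 2 * c) % P = 0 := beq_true k4
  have eR : (y : ℤ) * y * R0 = b0 * (c * y) + c * c - σ * P := by
    rcases hσ with ⟨h1, h2⟩ | ⟨h1, h2⟩
    · have es : Nat.mod s' 2 = 1 := h2
      rw [es] at k5
      have k5 : y * y * R0 + P = b0 * (c * y) + c * c := beq_true k5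
      have : ((y * y * R0 + P : ℕ) : ℤ) = ((b0 * (c * y) + c * c : ℕ) : ℤ) := by rw [k5]
      push_cast at this
      rw [h1]
      linear_combination this
    · have es : Nat.mod s' 2 = 0 := h2
      rw [es] at k5
      have k5 : y * y * R0 = b0 * (c * y) + (c * c + P) := beq_true k5
      have : ((y * y * R0 : ℕ) : ℤ) = ((b0 * (c * y) + (c * c + P) : ℕ) : ℤ) := by rw [k5]
      push_cast at this
      rw [h1]
      linear_combination this
  have hdiff : (y : ℤ) * (R - R0) = c * ((b : ℤ) - b0) := by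
    have h4 : (y : ℤ) * (y * (R - R0)) = y * (c * ((b : ℤ) - b0)) := by
      linear_combination hRy - eR
    exact mul_left_cancel₀ hyz.ne' h4
  have hcop : IsCoprime (y : ℤ) (c : ℤ) := Nat.isCoprime_iff_coprime.mpr k3
  have d1 : (y : ℤ) ∣ (b : ℤ) - b0 := hcop.dvd_of_dvd_mul_left ⟨R - R0, hdiff.symm⟩
  have d2 : (2 : ℤ) ∣ (b : ℤ) - b0 := by omega
  have d3 : (P : ℤ) ∣ (b : ℤ) - b0 := by
    have h4 : (P : ℤ) ∣ b0 * y + 2 * c := by
      have := Nat.dvd_of_mod_eq_zero k4
      exact_mod_cast this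
    have h5 : (P : ℤ) ∣ ((b : ℤ) - b0) * y := by
      have := dvd_sub hPx h4
      have e : ((b : ℤ) - b0) * y = (b * y + 2 * c) - (b0 * y + 2 * c) := by ring
      rw [e]; exact this
    rcases hPz.dvd_or_dvd h5 with h | h
    · exact h
    · exact absurd h hPy
  have d4 : (vs : ℤ) ∣ (b : ℤ) - b0 := by
    rcases Nat.mod_two_eq_zero_or_one y with h | h
    · rw [hvs, h]; push_cast; simpa using d1
    · rw [hvs, h]
      push_cast
      have h5 : IsCoprime (y : ℤ) 2 := by
        have : Nat.Coprime y 2 := Nat.coprime_two_right.mpr (Nat.odd_iff.mpr h)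
        exact_mod_cast this.isCoprime
      have := h5.mul_dvd d1 d2
      norm_num
      exact this
  have hPvs : IsCoprime (P : ℤ) (vs : ℤ) := by
    have h4 : ¬ (P : ℤ) ∣ vs := by
      intro h5
      rw [hvs] at h5
      push_cast at h5
      rcases hPz.dvd_or_dvd h5 with h6 | h6
      · exact hPy h6
      · have h7 : P ∣ 1 + y % 2 := by exact_mod_cast h6
        have := Nat.le_of_dvd (by omega) h7
        omega
    exact (Prime.coprime_iff_not_dvd hPz).mpr h4
  have d5 : (P : ℤ) * vs ∣ (b : ℤ) - b0 := hPvs.mul_dvd d3 d4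
  obtain ⟨tz, htz⟩ := d5
  have hvs0 : 0 < vs := by rw [hvs]; positivity
  have hPv : (0 : ℤ) < P * vs := by positivity
  have ht0 : 0 ≤ tz := by
    by_contra hc
    have hc : tz ≤ -1 := by omega
    have h4 : (P : ℤ) * vs * tz ≤ P * vs * (-1) := mul_le_mul_of_nonneg_left hc hPv.le
    have h5 : (b0 : ℤ) ≤ P * vs := by exact_mod_cast k2
    have h6 : (0 : ℤ) < b := by
      have : 0 < b := by omega
      exact_mod_cast this
    linarith
  obtain ⟨t, rfl⟩ := Int.eq_ofNat_of_zero_le ht0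
  have hRt : R = R0 + R1 * t := by
    have h4 : (y : ℤ) * (R - R0) = y * (R1 * t) := by
      rw [hdiff, htz, hvs, hR1]
      push_cast
      ring
    have := mul_left_cancel₀ hyz.ne' h4
    linarith
  have hbt : b = b0 + P * vs * t := by
    have : (b : ℤ) = ((b0 + P * vs * t : ℕ) : ℤ) := by push_cast; linarith
    exact_mod_cast this
  have hd : d = (b0 + P * vs * t) * (b0 + P * vs * t) + 4 * (R0 + R1 * t) := by
    rw [← hbt]
    have : (d : ℤ) = ((b * b + 4 * (R0 + R1 * t) : ℕ) : ℤ) := by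
      rw [hR, hRt]; push_cast; ring
    exact_mod_cast this
  cases hk : Nat.div s' 2 with
  | zero =>
    rw [hk] at g1 k6
    exact fam_soundO hP hP2 F S1 hd k6 g1
  | succ n =>
    rw [hk] at g1 k6
    exact fam_soundO hP hP2 F S2 hd k6 g1

/-- a list of families is settled -/
theorem chunk_soundO {P B1 B2 : ℕ} (hP : P.Prime) (hP4 : P % 4 = 3)
    {sv1 sv2 : ℕ → ℕ → ℕ → ℕ → ℕ → SL → Bool} (S1 : SvB P B1 sv1) (S2 : SvB P B2 sv2)
    {L : FamL} {lo n : ℕ} (h1 : L.all (gSvO P sv1 sv2) = true) (h2 : L.all (gNmO P B1 B2) = true)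
    (h3 : covO P L lo n = true) {d y : ℕ} (F : FDO d P y) (hS : SolO d P y) (hy2 : 2 ≤ y)
    (hlo : lo ≤ y) (hhi : y < lo + n) : tb LO d = true := by
  have hP2 : P ≠ 2 := by omega
  obtain ⟨x, hx⟩ := hS
  have hPz : Prime (P : ℤ) := Nat.prime_iff_prime_int.mp hP
  have hP0 := hP.pos
  obtain ⟨σ, hσ, hxy'⟩ : ∃ σ : ℤ, (σ = 1 ∨ σ = -1) ∧ (x : ℤ) * x = d * (y * y) + 4 * σ * P := by
    rcases hx with h | h
    · exact ⟨1, Or.inl rfl, by have := congrArg (fun n : ℕ => (n : ℤ)) h; push_cast at this; linarith⟩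
    · exact ⟨-1, Or.inr rfl, by have := congrArg (fun n : ℕ => (n : ℤ)) h; push_cast at this; linarith⟩
  -- `P` divides `x`
  have hPd : (P : ℤ) ∣ d := Int.natCast_dvd_natCast.mpr F.dP
  have hPx : (P : ℤ) ∣ x := by
    have h4 : (P : ℤ) ∣ (x : ℤ) * x := by
      rw [hxy']
      exact dvd_add (hPd.mul_right _) (Dvd.intro_left _ rfl)
    rcases hPz.dvd_or_dvd h4 with h | h <;> exact h
  have hPy : ¬ (P : ℤ) ∣ y := by
    intro h4
    obtain ⟨a, ha⟩ := h4
    obtain ⟨e, he⟩ := hPx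
    rw [ha, he] at hxy'
    have h5 : (P : ℤ) * (P * (e * e - d * (a * a))) = P * (4 * σ) := by linear_combination hxy'
    have h6 := mul_left_cancel₀ hPz.ne_zero h5
    have h7 : (P : ℤ) ∣ 4 := by
      rcases hσ with h | h
      · exact ⟨e * e - d * (a * a), by rw [h6, h]; ring⟩
      · exact ⟨-(e * e - d * (a * a)), by
          have : (P : ℤ) * -(e * e - d * (a * a)) = -(P * (e * e - d * (a * a))) := by ring
          rw [this, h6, h]; ring⟩
    have h8 : P ∣ 2 ^ 2 := by exact_mod_cast h7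
    have h9 := (Nat.prime_dvd_prime_iff_eq hP Nat.prime_two).mp (hP.dvd_of_dvd_pow h8)
    exact hP2 h9
  -- parity
  have hd2 : (d : ℤ) % 2 = 1 := by have := F.d4; omega
  have par : ((x : ℤ) - y) % 2 = 0 := by
    obtain ⟨k, hk⟩ : ∃ k : ℤ, (d : ℤ) = 2 * k + 1 := ⟨(d : ℤ) / 2, by omega⟩
    rw [hk] at hxy'
    have e : ((x : ℤ) - y) * (x + y) = 2 * (k * (y * y) + 2 * σ * P) := by linear_combination hxy'
    rcases Int.emod_two_eq_zero_or_one ((x : ℤ) - y) with h1 | h1
    · exact h1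
    · exfalso
      have h2 : ((x : ℤ) + y) % 2 = 1 := by omega
      have h3 : (((x : ℤ) - y) * (x + y)) % 2 = 1 := by rw [Int.mul_emod, h1, h2]; norm_num
      omega
  -- size
  have hdP2 : 2 * P ≤ d := by
    obtain ⟨m, hm⟩ := F.dP
    have hm0 : m ≠ 0 := by
      rintro rfl
      have := F.d4
      omega
    have hm1 : m ≠ 1 := by
      rintro rfl
      have := F.d4
      omega
    have : 2 ≤ m := by omega
    calc 2 * P ≤ m * P := Nat.mul_le_mul_right P this
      _ = d := by rw [hm, mul_comm]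
  have hxy : y ≤ x := by
    by_contra hc
    have hc : x < y := not_le.mp hc
    have h4 : x * x < y * y := Nat.mul_self_lt_mul_self hc
    have h5 : 4 ≤ y * y := by nlinarith
    have h6 : 2 * P * (y * y) ≤ d * (y * y) := Nat.mul_le_mul_right _ hdP2
    have h7 : 4 * P ≤ y * y * P := Nat.mul_le_mul_right P h5
    have h8 : y * y ≤ y * y * P := Nat.le_mul_of_pos_right _ hP0
    rcases hx with h | h
    · nlinarith
    · nlinarith
  -- the parameters
  obtain ⟨q, c, hc, hxq⟩ : ∃ q c : ℕ, c < y ∧ x = (2 * q + 1) * y + 2 * c := by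
    refine ⟨(x - y) / (2 * y), (x - y) % (2 * y) / 2, ?_, ?_⟩
    · have := Nat.mod_lt (x - y) (show 0 < 2 * y by omega)
      omega
    · have h4 := Nat.div_add_mod (x - y) (2 * y)
      have h5 : (x - y) % 2 = 0 := by omega
      have h6 : (x - y) % (2 * y) % 2 = 0 := by
        rw [Nat.mod_mod_of_dvd _ (Dvd.intro _ rfl)]; exact h5
      have h7 : 2 * ((x - y) % (2 * y) / 2) = (x - y) % (2 * y) := by omega
      rw [h7]
      have h8 : (2 * ((x - y) / (2 * y)) + 1) * y = 2 * y * ((x - y) / (2 * y)) + y := by ring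
      rw [h8]
      omega
  set b := 2 * q + 1 with hb
  obtain ⟨R, hR⟩ : ∃ R : ℤ, (d : ℤ) = b * b + 4 * R := by
    refine ⟨((d : ℤ) - b * b) / 4, ?_⟩
    have h4 : ((b : ℤ) * b) % 4 = 1 := by
      have e : (b : ℤ) * b = 4 * (q * q + q) + 1 := by rw [hb]; push_cast; ring
      omega
    have := F.d4
    omega
  have hRy : R * y * y = (b : ℤ) * c * y + c * c - σ * P := by
    have e : (x : ℤ) = b * y + 2 * c := by rw [hxq]; push_cast; ring
    rw [e, hR] at hxy'
    have h4 : 4 * (R * y * y) = 4 * ((b : ℤ) * c * y + c * c - σ * P) := by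
      linear_combination -hxy'
    linarith
  have hPx' : (P : ℤ) ∣ b * y + 2 * c := by
    have e : (x : ℤ) = b * y + 2 * c := by rw [hxq]; push_cast; ring
    rw [← e]; exact hPx
  obtain ⟨r1, r2⟩ := cov_res (P := P) (y := y) (c := c) (K := R * y - b * c) (σ := σ) (R := R) (b := b)
    (by omega) (by omega) hRy hσ rfl
  -- coverage
  unfold covO at h3
  rw [allN_iff] at h3
  have h3 := h3 (y - lo) (by omega)
  have ey : Nat.add lo (y - lo) = y := by
    change lo + (y - lo) = y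
    omega
  rw [ey] at h3
  have hyP : Nat.beq (Nat.mod y P) 0 = false := by
    by_contra h4
    have h4 := Bool.eq_true_of_not_eq_false h4
    have h5 : y % P = 0 := beq_true h4
    exact hPy (Int.natCast_dvd_natCast.mpr (Nat.dvd_of_mod_eq_zero h5))
  simp only [force_eq] at h3
  rw [hyP] at h3
  change allN y _ = true at h3
  rw [allN_iff] at h3
  have h3 := h3 c hc
  rw [cj_true] at h3
  obtain ⟨h30, h31⟩ := h3
  rcases hσ with hs | hs
  · -- `σ = 1`
    have h4 : L.has 1 y c = true := by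
      refine imp_true h31 ?_
      have e : (c * c + (2 * y - 1) * P) % (y * (2 - y % 2)) = y * (1 - y % 2) := by
        have ey1 : ((2 * y - 1 : ℕ) : ℤ) = 2 * y - 1 := by
          rw [Nat.cast_sub (by omega)]; push_cast; ring
        rcases Nat.mod_two_eq_zero_or_one y with h | h
        · have hK := r2 (by omega)
          obtain ⟨k, hk⟩ : ∃ k : ℤ, R * y - b * c = 2 * k + 1 := ⟨(R * y - b * c) / 2, by omega⟩
          rw [h]
          refine mod_of_int (z := k + P) ?_ (by omega)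
          push_cast [ey1]
          rw [hk, hs] at r1
          linear_combination r1
        · rw [h]
          refine mod_of_int (z := R * y - b * c + 2 * P) ?_ (by omega)
          push_cast [ey1]
          rw [hs] at r1
          linear_combination r1
      change Nat.beq ((c * c + (2 * y - 1) * P) % (y * (2 - y % 2))) (y * (1 - y % 2)) = true
      rw [e]
      exact Nat.beq_refl _
    obtain ⟨s', b0, R0, dl, T, sh, w, hs', hall⟩ := L.has_sound h4
    exact entry_soundO hP hP4 S1 S2 F (by omega) (hall _ h1) (hall _ h2) (by omega) hR hRy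
      (Or.inl ⟨hs, hs'⟩) hPx' hPy
  · -- `σ = -1`
    have h4 : L.has 0 y c = true := by
      refine imp_true h30 ?_
      have e : (c * c + P) % (y * (2 - y % 2)) = y * (1 - y % 2) := by
        rcases Nat.mod_two_eq_zero_or_one y with h | h
        · have hK := r2 (by omega)
          obtain ⟨k, hk⟩ : ∃ k : ℤ, R * y - b * c = 2 * k + 1 := ⟨(R * y - b * c) / 2, by omega⟩
          rw [h]
          refine mod_of_int (z := k) ?_ (by omega)
          push_cast
          rw [hk, hs] at r1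
          linear_combination r1
        · rw [h]
          refine mod_of_int (z := R * y - b * c) ?_ (by omega)
          push_cast
          rw [hs] at r1
          linear_combination r1
      change Nat.beq ((c * c + P) % (y * (2 - y % 2))) (y * (1 - y % 2)) = true
      rw [e]
      exact Nat.beq_refl _
    obtain ⟨s', b0, R0, dl, T, sh, w, hs', hall⟩ := L.has_sound h4
    exact entry_soundO hP hP4 S1 S2 F (by omega) (hall _ h1) (hall _ h2) (by omega) hR hRy
      (Or.inr ⟨hs, hs'⟩) hPx' hPy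

/-- the solutions with `y = 1` -/
theorem one_soundO {P Bm Bp : ℕ} (hP : P.Prime) (hP4 : P % 4 = 3)
    {svm svp : ℕ → ℕ → ℕ → ℕ → ℕ → SL → Bool} (Sm : SvB P Bm svm) (Sp : SvB P Bp svp)
    {Tm Tp : ℕ} {wm wp : WtL}
    (hm : chkFamO P Bm 1 P P 2 0 0 Tm SL.nil wm = true)
    (hms : svm 0 ((P + P * 2 * Tm - 2 * 0) / P) 2 (P + 0 * Tm) 0 SL.nil = true)
    (hp : chkFamO P Bp 1 (3 * P - 2) (2 * P - 1) 2 (2 * P) (P - 1) Tp (SL.cons 0 1 SL.nil) wp = true)
    (hps : svp (P - 1) ((3 * P - 2 + P * 2 * Tp - 2 * (P - 1)) / P) 2 (2 * P - 1 + 2 * P * Tp) (2 * P)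
      (SL.cons 0 1 SL.nil) = true)
    (h0 : P * P < 4 * P ∨ tb LO (P * P - 4 * P) = true ∨ (P * P - 4 * P) % 9 = 0 ∨
      (P * P - 4 * P) % 25 = 0) {d : ℕ} (F : FDO d P 1) (hS : SolO d P 1) : tb LO d = true := by
  have hP2 : P ≠ 2 := by omega
  have hP0 := hP.pos
  obtain ⟨x, hx⟩ := hS
  have hPx : P ∣ x := by
    have h4 : P ∣ x * x := by
      rcases hx with h | h
      · rw [← h, mul_one, mul_one]
        exact dvd_add F.dP (Dvd.intro_left _ rfl)
      · have h5 : P ∣ x * x + 4 * P := by rw [← h, mul_one, mul_one]; exact F.dP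
        exact (Nat.dvd_add_left (Dvd.intro_left _ rfl)).mp h5
    rcases hP.dvd_mul.mp h4 with h | h <;> exact h
  obtain ⟨m, rfl⟩ := hPx
  have hm2 : m % 2 = 1 := by
    rcases Nat.mod_two_eq_zero_or_one m with h | h
    · exfalso
      obtain ⟨k, rfl⟩ : ∃ k, m = 2 * k := ⟨m / 2, by omega⟩
      have e : P * (2 * k) * (P * (2 * k)) = 4 * (P * k * (P * k)) := by ring
      rw [e] at hx
      have := F.d4
      rcases hx with h | h <;> omega
    · exact h
  have h9 : ∀ k, 1 < k → ¬ k * k ∣ d := by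
    intro k hk hdv
    have h4 : (k : ℤ) * k ∣ (d : ℤ) := by exact_mod_cast hdv
    have h5 := F.sf _ h4
    have h6 : IsUnit k := Int.isUnit_iff_natAbs_eq.mp h5 |> fun h => by
      rw [Int.natAbs_natCast] at h
      rw [h]; exact isUnit_one
    have := Nat.isUnit_iff.mp h6
    omega
  rcases hx with h | h
  · rcases Nat.lt_or_ge m 3 with h3 | h3
    · have hm1 : m = 1 := by omega
      subst hm1
      rw [mul_one, mul_one, mul_one] at h
      have hd : d = P * P - 4 * P := by omega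
      rcases h0 with h0 | h0 | h0 | h0
      · omega
      · rw [hd]; exact h0
      · exact absurd (Nat.dvd_of_mod_eq_zero (by rw [hd]; exact h0)) (h9 3 (by norm_num))
      · exact absurd (Nat.dvd_of_mod_eq_zero (by rw [hd]; exact h0)) (h9 5 (by norm_num))
    · obtain ⟨t, rfl⟩ : ∃ t, m = 2 * t + 3 := ⟨(m - 3) / 2, by omega⟩
      refine fam_soundO (t := t) hP hP2 F Sp ?_ hp hps
      have e1 : ((3 * P - 2 : ℕ) : ℤ) = 3 * P - 2 := by rw [Nat.cast_sub (by omega)]; push_cast; ring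
      have e2 : ((2 * P - 1 : ℕ) : ℤ) = 2 * P - 1 := by rw [Nat.cast_sub (by omega)]; push_cast; ring
      have h4 : ((d * (1 * 1) + 4 * P : ℕ) : ℤ) = ((P * (2 * t + 3) * (P * (2 * t + 3)) : ℕ) : ℤ) := by
        rw [h]
      have : (d : ℤ) = (((3 * P - 2 + P * 2 * t) * (3 * P - 2 + P * 2 * t) +
          4 * (2 * P - 1 + 2 * P * t) : ℕ) : ℤ) := by
        push_cast [e1, e2] at h4 ⊢
        linear_combination h4
      exact_mod_cast this
  · obtain ⟨t, rfl⟩ : ∃ t, m = 2 * t + 1 := ⟨m / 2, by omega⟩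
    refine fam_soundO (t := t) hP hP2 F Sm ?_ hm hms
    have h4 : ((d * (1 * 1) : ℕ) : ℤ) = ((P * (2 * t + 1) * (P * (2 * t + 1)) + 4 * P : ℕ) : ℤ) := by
      rw [h]
    have : (d : ℤ) = (((P + P * 2 * t) * (P + P * 2 * t) + 4 * (P + 0 * t) : ℕ) : ℤ) := by
      push_cast at h4 ⊢
      linear_combination h4
    exact_mod_cast this

/-- check that the class number is not one, from the half cycle -/
noncomputable def chkDir (P b R dl x z : ℕ) (sh : SL) : Bool :=
  cj (Nat.blt 1 P) (cj (tb PO x) (cj (Nat.ble (Nat.mul 4 (Nat.mul x x)) (Nat.add (Nat.mul b b) (Nat.mul 4 R)))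
    (cj (Nat.blt (Nat.mul 2 dl) b) (cj
      (not (Nat.beq x P)) (cj (Nat.beq (Nat.add (Nat.mul P (Nat.div (Nat.sub b (Nat.mul 2 dl)) P)) (Nat.mul 2 dl)) b)
      (cj
      (Nat.beq (Nat.mod (Nat.add (Nat.mul z z) (Nat.mul b z)) x) (Nat.mod R x))
      (chkNP (fun ra => cj (Nat.blt 1 ra) (not (Nat.beq ra x))) P
        (Nat.div (Nat.sub b (Nat.mul 2 dl)) P) 0 sh 1 0 b 0 R 0)))))))

theorem dir_sound {P b R dl x z d : ℕ} {sh : SL} (hd : d = b * b + 4 * R)
    (good : ∀ H : Half, (d : ℤ) = H.b 0 ^ 2 + 4 * H.q 1 → OGood H d)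
    (h : chkDir P b R dl x z sh = true) : False := by
  subst hd
  set d := b * b + 4 * R with hdd
  unfold chkDir at h
  simp only [cj_true] at h
  obtain ⟨h0, h1, h2, h3, h3', h3'', h4, h5⟩ := h
  have hP1 : 1 < P := blt_true h0
  have hp := PO_prime h1
  have h2 : 4 * (x * x) ≤ d := ble_true h2
  have h3 : 2 * dl < b := blt_true h3
  have hxP : x ≠ P := by
    intro h
    rw [h, show Nat.beq P P = true from Nat.beq_refl P] at h3'
    exact absurd h3' (by simp)
  set v := (b - 2 * dl) / P with hv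
  have h3'' : P * v + 2 * dl = b := beq_true h3''
  have h4 : (z * z + b * z) % x = R % x := beq_true h4
  have hv0 : 0 < v := by
    rcases Nat.eq_zero_or_pos v with h | h
    · rw [h] at h3''; omega
    · exact h
  have h6 := chkNP_sound (g := fun ra => cj (Nat.blt 1 ra) (not (Nat.beq ra x)))
    (P := P) (v0 := v) (vs := 0) (κ := kap 0 (v : ℤ) sh) (b := b) (R := R) (u := 0) (s := 0)
    (Q := fun w => 1 < w ∧ w ≠ x) (by
      intro ra rb h
      rw [cj_true] at h
      obtain ⟨g1, g2⟩ := h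
      have g1 := blt_true g1
      have g3 : ra ≠ x := by
        intro h
        rw [h] at g2
        rw [show Nat.beq x x = true from Nat.beq_refl x] at g2
        exact absurd g2 (by simp)
      constructor
      · push_cast; simp; omega
      · push_cast; simp; exact_mod_cast g3) sh 0 1 0 b 0 R 0 (kap_shp _ _ _)
    (by rw [oq_zero]; simp) (by rw [ob_zero]; simp)
    (by rw [oq_one]; simp) h5
  obtain ⟨r1, r2, r3, r4⟩ := h6
  rw [zero_add] at r1 r2 r3 r4
  obtain ⟨H, hk, hq, hb, hκ⟩ := mkHalfP (v := (v : ℤ)) (b := b) (R := R) (P := P)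
    (sh := sh) (Q := fun w => 1 < w ∧ w ≠ x) (fun z h => h.1) hP1 (by exact_mod_cast hv0)
    (by have : 0 < b := by omega
        exact_mod_cast this)
    (fun j h1 h2 => r1 j h1 (by omega)) (fun j h => r2 j (by omega) h) r3
    (by rw [r4]; push_cast; ring)
  have G := good H (by rw [hb, hq, ob_zero, oq_one, hdd]; push_cast; ring)
  obtain ⟨r, hr, he⟩ := G.split x hp (by rw [pow_two]; exact h2) ⟨z, by
    rw [hb, hq, ob_zero, oq_one]
    have h7 : ((z * z + b * z : ℕ) : ZMod x) = ((R : ℕ) : ZMod x) :=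
      (ZMod.natCast_eq_natCast_iff' _ _ _).mpr h4
    have h8 : (((z : ℤ) ^ 2 + b * z - R : ℤ) : ZMod x) = 0 := by
      push_cast at h7 ⊢
      linear_combination h7
    exact (ZMod.intCast_zmod_eq_zero_iff_dvd _ x).mp h8⟩
  rw [hq] at he
  rcases Nat.eq_zero_or_pos r with h9 | h9
  · rw [h9, oq_zero] at he
    exact hp.one_lt.ne (by exact_mod_cast he)
  · rcases Nat.lt_or_ge r (sh.len + 1) with h10 | h10
    · exact (r1 r h9 h10).2 he
    · have : r = sh.len + 1 := by omega
      rw [this, r3] at he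
      exact hxP (by exact_mod_cast he.symm)

end Pool.Agent.H449
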