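import Pool.Agent.H449.O7

/-! Families for the prime 11. -/

set_option maxRecDepth 100000

namespace Pool.Agent.H449

/-- the families with 2 ≤ y < 20 -/
def LQ11_1 : FamL := (FamL.cons 1 2 1 21 8 5 3 (SL.cons 0 2 SL.nil) (WtL.cons 3 2 0 (WtL.cons 1 5 0 (WtL.cons 3 2 0 WtL.nil)))
  (FamL.cons 0 3 1 47 17 7 1 (SL.cons 0 2 (SL.cons 0 1 SL.nil)) (WtL.cons 1 3 0 WtL.nil)
  (FamL.cons 0 3 2 17 13 3 2 (SL.cons 0 1 (SL.cons 0 2 SL.nil)) (WtL.cons 0 0 0 (WtL.cons 3 3 0 WtL.nil))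
  (FamL.cons 0 4 1 5 2 8 4 (SL.cons 0 3 (SL.cons 0 1 SL.nil)) (WtL.cons 0 0 0 (WtL.cons 0 0 0 (WtL.cons 3 2 0 (WtL.cons 1 3 0 WtL.nil))))
  (FamL.cons 0 4 3 37 29 2 3 (SL.cons 0 1 (SL.cons 0 3 SL.nil)) (WtL.cons 1 3 0 (WtL.cons 3 2 0 (WtL.cons 3 3 2 WtL.nil)))
  (FamL.cons 0 5 2 41 17 4 1 (SL.cons 0 2 (SL.cons 0 2 SL.nil)) (WtL.cons 3 3 2 WtL.nil)
  (FamL.cons 0 5 3 67 41 6 1 (SL.cons 0 1 (SL.cons 0 1 (SL.cons 0 1 (SL.cons 0 1 SL.nil)))) (WtL.cons 1 3 0 WtL.nil)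
  (FamL.cons 1 5 1 37 7 2 2 (SL.cons 0 5 SL.nil) (WtL.cons 0 0 0 (WtL.cons 1 5 0 WtL.nil))
  (FamL.cons 1 5 4 71 57 8 2 (SL.cons 0 1 (SL.cons 0 3 (SL.cons 0 1 SL.nil))) (WtL.cons 3 3 0 (WtL.cons 3 5 0 WtL.nil))
  (FamL.cons 1 7 2 67 19 6 1 (SL.cons 0 3 (SL.cons 0 1 (SL.cons 0 1 SL.nil))) (WtL.cons 3 5 4 WtL.nil)
  (FamL.cons 1 7 5 85 61 4 1 (SL.cons 0 1 (SL.cons 0 2 (SL.cons 0 2 SL.nil))) (WtL.cons 3 5 1 WtL.nil)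
  (FamL.cons 0 9 4 15 7 2 1 (SL.cons 0 2 (SL.cons 0 4 SL.nil)) (WtL.cons 0 0 0 WtL.nil)
  (FamL.cons 0 9 5 181 101 8 0 (SL.cons 0 1 (SL.cons 0 1 (SL.cons 0 3 (SL.cons 0 1 SL.nil)))) WtL.nil
  (FamL.cons 1 10 1 101 10 1 3 (SL.cons 0 10 SL.nil) (WtL.cons 1 7 0 (WtL.cons 3 3 0 (WtL.cons 3 2 0 WtL.nil)))
  (FamL.cons 1 10 9 7 7 9 4 (SL.cons 0 1 (SL.cons 0 8 (SL.cons 0 1 SL.nil))) (WtL.cons 2 1 11 (WtL.cons 3 2 0 (WtL.cons 3 5 0 (WtL.cons 3 2 0 WtL.nil))))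
  (FamL.cons 0 12 1 119 10 10 3 (SL.cons 0 11 (SL.cons 0 1 SL.nil)) (WtL.cons 3 2 0 (WtL.cons 3 3 0 (WtL.cons 1 3 0 WtL.nil)))
  (FamL.cons 0 12 5 45 19 6 1 (SL.cons 0 2 (SL.cons 0 2 (SL.cons 0 1 (SL.cons 0 1 SL.nil)))) (WtL.cons 3 3 1 WtL.nil)
  (FamL.cons 0 12 7 85 50 4 1 (SL.cons 0 1 (SL.cons 0 1 (SL.cons 0 2 (SL.cons 0 2 SL.nil)))) (WtL.cons 1 3 0 WtL.nil)
  (FamL.cons 0 12 11 11 11 0 4 (SL.cons 0 1 (SL.cons 0 11 SL.nil)) (WtL.cons 2 1 11 (WtL.cons 3 2 0 (WtL.cons 3 7 2 (WtL.cons 3 2 0 WtL.nil))))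
  (FamL.cons 3 14 5 81 29 2 4 (SL.cons 0 2 (SL.cons 0 1 (SL.cons 0 4 SL.nil))) (WtL.cons 0 0 0 (WtL.cons 3 2 0 (WtL.cons 3 17 3 (WtL.cons 1 5 0 WtL.nil))))
  (FamL.cons 3 14 9 71 46 8 4 (SL.cons 0 1 (SL.cons 0 1 (SL.cons 0 1 (SL.cons 0 3 (SL.cons 0 1 SL.nil))))) (WtL.cons 1 5 0 (WtL.cons 1 7 0 (WtL.cons 3 2 0 (WtL.cons 3 5 3 WtL.nil))))
  (FamL.cons 0 15 2 307 41 5 0 (SL.cons 0 7 (SL.cons 0 2 SL.nil)) WtL.nil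
  (FamL.cons 0 15 7 233 109 1 1 (SL.cons 0 2 (SL.cons 0 7 SL.nil)) (WtL.cons 1 5 0 WtL.nil)
  (FamL.cons 0 15 8 95 51 9 1 (SL.cons 0 1 (SL.cons 0 1 (SL.cons 0 6 (SL.cons 0 1 SL.nil)))) (WtL.cons 3 3 0 WtL.nil)
  (FamL.cons 0 15 13 21 19 5 1 (SL.cons 0 1 (SL.cons 0 6 (SL.cons 0 1 (SL.cons 0 1 SL.nil)))) (WtL.cons 0 0 0 WtL.nil)
  (FamL.cons 1 19 7 111 41 6 1 (SL.cons 0 2 (SL.cons 0 1 (SL.cons 0 2 (SL.cons 0 1 (SL.cons 0 1 SL.nil))))) (WtL.cons 3 5 2 WtL.nil)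
  (FamL.cons 1 19 12 305 193 4 0 (SL.cons 0 1 (SL.cons 0 1 (SL.cons 0 1 (SL.cons 0 2 (SL.cons 0 2 SL.nil))))) WtL.nil
  FamL.nil)))))))))))))))))))))))))))

theorem LQ11_1_sv : LQ11_1.all (gSvO 11 (sieA1 11 1 12 8 0 17 4 0 10 3 18) (sieA2 11 1 12 8 0 17 4 0 10 3 18 119)) = true := by
  decide +kernel

theorem LQ11_1_nm : LQ11_1.all (gNmO 11 37 127) = true := by decide +kernel

theorem LQ11_1_cov : covO 11 LQ11_1 2 18 = true := by decide +kernel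

/-- the families with 20 ≤ y < 39 -/
def LQ11_2 : FamL := (FamL.cons 0 20 3 113 17 7 1 (SL.cons 0 6 (SL.cons 0 1 (SL.cons 0 1 (SL.cons 0 1 SL.nil)))) (WtL.cons 3 3 2 WtL.nil)
  (FamL.cons 0 20 7 51 18 9 1 (SL.cons 0 2 (SL.cons 0 1 (SL.cons 0 5 (SL.cons 0 1 SL.nil)))) (WtL.cons 1 3 0 WtL.nil)
  (FamL.cons 0 20 13 167 109 1 1 (SL.cons 0 1 (SL.cons 0 1 (SL.cons 0 1 (SL.cons 0 6 SL.nil)))) (WtL.cons 1 5 0 WtL.nil)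
  (FamL.cons 0 20 17 105 90 3 1 (SL.cons 0 1 (SL.cons 0 5 (SL.cons 0 1 (SL.cons 0 2 SL.nil)))) (WtL.cons 1 3 0 WtL.nil)
  (FamL.cons 0 23 9 411 161 2 0 (SL.cons 0 2 (SL.cons 0 1 (SL.cons 0 1 (SL.cons 0 4 SL.nil)))) WtL.nil
  (FamL.cons 0 23 14 93 57 8 1 (SL.cons 0 1 (SL.cons 0 1 (SL.cons 0 1 (SL.cons 0 1 (SL.cons 0 3 (SL.cons 0 1 SL.nil)))))) (WtL.cons 3 3 0 WtL.nil)
  (FamL.cons 0 25 8 409 131 1 0 (SL.cons 0 3 (SL.cons 0 8 SL.nil)) WtL.nil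
  (FamL.cons 0 25 17 139 95 9 1 (SL.cons 0 1 (SL.cons 0 2 (SL.cons 0 7 (SL.cons 0 1 SL.nil)))) (WtL.cons 1 3 0 WtL.nil)
  (FamL.cons 1 25 6 29 7 9 1 (SL.cons 0 4 (SL.cons 0 5 (SL.cons 0 1 SL.nil))) (WtL.cons 0 0 0 WtL.nil)
  (FamL.cons 1 25 19 519 395 1 0 (SL.cons 0 1 (SL.cons 0 3 (SL.cons 0 6 SL.nil))) WtL.nil
  (FamL.cons 0 27 4 533 79 8 0 (SL.cons 0 6 (SL.cons 0 1 (SL.cons 0 2 (SL.cons 0 1 SL.nil)))) WtL.nil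
  (FamL.cons 0 27 23 59 51 2 1 (SL.cons 0 1 (SL.cons 0 5 (SL.cons 0 1 (SL.cons 0 3 SL.nil)))) (WtL.cons 3 3 0 WtL.nil)
  (FamL.cons 0 31 12 617 239 6 0 (SL.cons 0 2 (SL.cons 0 1 (SL.cons 0 1 (SL.cons 0 2 (SL.cons 0 1 (SL.cons 0 1 SL.nil)))))) WtL.nil
  (FamL.cons 0 31 19 63 39 4 1 (SL.cons 0 1 (SL.cons 0 1 (SL.cons 0 1 (SL.cons 0 1 (SL.cons 0 2 (SL.cons 0 2 SL.nil)))))) (WtL.cons 1 5 0 WtL.nil)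
  (FamL.cons 1 35 9 167 43 1 1 (SL.cons 0 3 (SL.cons 0 1 (SL.cons 0 8 SL.nil))) (WtL.cons 3 5 1 WtL.nil)
  (FamL.cons 1 35 16 413 189 3 0 (SL.cons 0 2 (SL.cons 0 5 (SL.cons 0 3 SL.nil))) WtL.nil
  (FamL.cons 1 35 19 355 193 7 0 (SL.cons 0 1 (SL.cons 0 1 (SL.cons 0 5 (SL.cons 0 2 (SL.cons 0 1 SL.nil))))) WtL.nil
  (FamL.cons 1 35 26 601 447 9 0 (SL.cons 0 1 (SL.cons 0 2 (SL.cons 0 1 (SL.cons 0 7 (SL.cons 0 1 SL.nil))))) WtL.nil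
  (FamL.cons 0 36 5 367 51 2 0 (SL.cons 0 7 (SL.cons 0 5 SL.nil)) WtL.nil
  (FamL.cons 0 36 13 127 46 3 1 (SL.cons 0 2 (SL.cons 0 1 (SL.cons 0 3 (SL.cons 0 3 SL.nil)))) (WtL.cons 3 2 0 WtL.nil)
  (FamL.cons 0 36 23 267 171 7 0 (SL.cons 0 1 (SL.cons 0 1 (SL.cons 0 1 (SL.cons 0 3 (SL.cons 0 2 (SL.cons 0 1 SL.nil)))))) WtL.nil
  (FamL.cons 0 36 31 27 24 8 1 (SL.cons 0 1 (SL.cons 0 6 (SL.cons 0 4 (SL.cons 0 1 SL.nil)))) (WtL.cons 1 5 0 WtL.nil)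
  (FamL.cons 0 37 10 699 189 3 0 (SL.cons 0 3 (SL.cons 0 1 (SL.cons 0 2 (SL.cons 0 3 SL.nil)))) WtL.nil
  (FamL.cons 0 37 27 113 83 7 1 (SL.cons 0 1 (SL.cons 0 2 (SL.cons 0 1 (SL.cons 0 2 (SL.cons 0 2 (SL.cons 0 1 SL.nil)))))) (WtL.cons 3 3 2 WtL.nil)
  (FamL.cons 1 37 14 367 139 2 0 (SL.cons 0 2 (SL.cons 0 1 (SL.cons 0 1 (SL.cons 0 1 (SL.cons 0 4 SL.nil))))) WtL.nil
  (FamL.cons 1 37 23 445 277 8 0 (SL.cons 0 1 (SL.cons 0 1 (SL.cons 0 1 (SL.cons 0 1 (SL.cons 0 1 (SL.cons 0 3 (SL.cons 0 1 SL.nil))))))) WtL.nil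
  (FamL.cons 1 38 7 369 68 3 0 (SL.cons 0 5 (SL.cons 0 2 (SL.cons 0 3 SL.nil))) WtL.nil
  (FamL.cons 1 38 31 47 39 7 1 (SL.cons 0 1 (SL.cons 0 4 (SL.cons 0 2 (SL.cons 0 2 (SL.cons 0 1 SL.nil))))) (WtL.cons 3 3 0 WtL.nil)
  FamL.nil))))))))))))))))))))))))))))

theorem LQ11_2_sv : LQ11_2.all (gSvO 11 (sieA1 11 1 12 8 0 17 4 0 10 3 18) (sieA2 11 1 12 8 0 17 4 0 10 3 18 119)) = true := by
  decide +kernel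

theorem LQ11_2_nm : LQ11_2.all (gNmO 11 37 127) = true := by decide +kernel

theorem LQ11_2_cov : covO 11 LQ11_2 20 19 = true := by decide +kernel

/-- the families with 39 ≤ y < 68 -/
def LQ11_3 : FamL := (FamL.cons 1 43 21 493 241 10 1 (SL.cons 0 2 (SL.cons 0 20 (SL.cons 0 1 SL.nil))) (WtL.cons 3 7 2 WtL.nil)
  (FamL.cons 1 43 22 451 231 0 1 (SL.cons 0 1 (SL.cons 0 1 (SL.cons 0 21 SL.nil))) (WtL.cons 1 5 0 WtL.nil)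
  (FamL.cons 0 45 13 557 161 9 0 (SL.cons 0 3 (SL.cons 0 2 (SL.cons 0 5 (SL.cons 0 1 SL.nil)))) WtL.nil
  (FamL.cons 0 45 22 517 253 0 1 (SL.cons 0 2 (SL.cons 0 22 SL.nil)) (WtL.cons 3 5 1 WtL.nil)
  (FamL.cons 0 45 23 471 241 10 1 (SL.cons 0 1 (SL.cons 0 1 (SL.cons 0 21 (SL.cons 0 1 SL.nil)))) (WtL.cons 3 3 1 WtL.nil)
  (FamL.cons 0 45 32 431 307 1 0 (SL.cons 0 1 (SL.cons 0 2 (SL.cons 0 2 (SL.cons 0 6 SL.nil)))) WtL.nil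
  (FamL.cons 0 47 6 227 29 9 1 (SL.cons 0 7 (SL.cons 0 1 (SL.cons 0 4 (SL.cons 0 1 SL.nil)))) (WtL.cons 3 3 2 WtL.nil)
  (FamL.cons 0 47 41 805 703 1 0 (SL.cons 0 1 (SL.cons 0 6 (SL.cons 0 1 (SL.cons 0 5 SL.nil)))) WtL.nil
  (FamL.cons 1 49 16 603 197 10 1 (SL.cons 0 3 (SL.cons 0 15 (SL.cons 0 1 SL.nil))) (WtL.cons 3 17 10 WtL.nil)
  (FamL.cons 1 49 33 473 319 0 1 (SL.cons 0 1 (SL.cons 0 2 (SL.cons 0 16 SL.nil))) (WtL.cons 3 5 1 WtL.nil)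
  (FamL.cons 1 50 19 397 151 6 0 (SL.cons 0 2 (SL.cons 0 1 (SL.cons 0 1 (SL.cons 0 1 (SL.cons 0 2 (SL.cons 0 1 (SL.cons 0 1 SL.nil))))))) WtL.nil
  (FamL.cons 1 50 31 151 94 4 0 (SL.cons 0 1 (SL.cons 0 1 (SL.cons 0 1 (SL.cons 0 1 (SL.cons 0 1 (SL.cons 0 2 (SL.cons 0 2 SL.nil))))))) WtL.nil
  (FamL.cons 0 53 25 1015 479 7 0 (SL.cons 0 2 (SL.cons 0 8 (SL.cons 0 2 (SL.cons 0 1 SL.nil)))) WtL.nil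
  (FamL.cons 0 53 28 149 79 3 1 (SL.cons 0 1 (SL.cons 0 1 (SL.cons 0 8 (SL.cons 0 3 SL.nil)))) (WtL.cons 3 13 3 WtL.nil)
  (FamL.cons 1 53 8 987 149 4 0 (SL.cons 0 6 (SL.cons 0 1 (SL.cons 0 1 (SL.cons 0 1 (SL.cons 0 2 SL.nil))))) WtL.nil
  (FamL.cons 1 53 45 177 151 6 1 (SL.cons 0 1 (SL.cons 0 5 (SL.cons 0 1 (SL.cons 0 1 (SL.cons 0 1 (SL.cons 0 1 (SL.cons 0 1 SL.nil))))))) (WtL.cons 3 3 1 WtL.nil)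
  (FamL.cons 0 59 15 515 131 10 1 (SL.cons 0 3 (SL.cons 0 1 (SL.cons 0 13 (SL.cons 0 1 SL.nil)))) (WtL.cons 3 3 2 WtL.nil)
  (FamL.cons 0 59 44 781 583 0 0 (SL.cons 0 1 (SL.cons 0 2 (SL.cons 0 1 (SL.cons 0 14 SL.nil)))) WtL.nil
  (FamL.cons 0 60 7 17 2 3 1 (SL.cons 0 8 (SL.cons 0 1 (SL.cons 0 1 (SL.cons 0 3 SL.nil)))) (WtL.cons 1 3 0 WtL.nil)
  (FamL.cons 0 60 13 129 28 4 1 (SL.cons 0 4 (SL.cons 0 1 (SL.cons 0 1 (SL.cons 0 1 (SL.cons 0 1 (SL.cons 0 2 SL.nil)))))) (WtL.cons 3 2 0 WtL.nil)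
  (FamL.cons 0 60 17 35 10 1 1 (SL.cons 0 3 (SL.cons 0 1 (SL.cons 0 1 (SL.cons 0 8 SL.nil)))) (WtL.cons 3 2 0 WtL.nil)
  (FamL.cons 0 60 23 477 183 2 0 (SL.cons 0 2 (SL.cons 0 1 (SL.cons 0 1 (SL.cons 0 1 (SL.cons 0 1 (SL.cons 0 4 SL.nil)))))) WtL.nil
  (FamL.cons 0 60 37 181 112 8 0 (SL.cons 0 1 (SL.cons 0 1 (SL.cons 0 1 (SL.cons 0 1 (SL.cons 0 1 (SL.cons 0 1 (SL.cons 0 3 (SL.cons 0 1 SL.nil)))))))) WtL.nil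
  (FamL.cons 0 60 43 623 447 9 0 (SL.cons 0 1 (SL.cons 0 2 (SL.cons 0 1 (SL.cons 0 1 (SL.cons 0 7 (SL.cons 0 1 SL.nil)))))) WtL.nil
  (FamL.cons 0 60 47 529 415 6 0 (SL.cons 0 1 (SL.cons 0 3 (SL.cons 0 1 (SL.cons 0 1 (SL.cons 0 1 (SL.cons 0 1 (SL.cons 0 1 (SL.cons 0 1 SL.nil)))))))) WtL.nil
  (FamL.cons 0 60 53 641 567 7 0 (SL.cons 0 1 (SL.cons 0 7 (SL.cons 0 1 (SL.cons 0 1 (SL.cons 0 2 (SL.cons 0 1 SL.nil)))))) WtL.nil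
  (FamL.cons 0 67 18 63 17 4 1 (SL.cons 0 3 (SL.cons 0 1 (SL.cons 0 2 (SL.cons 0 1 (SL.cons 0 1 (SL.cons 0 2 SL.nil)))))) (WtL.cons 0 0 0 WtL.nil)
  (FamL.cons 0 67 49 1409 1031 6 0 (SL.cons 0 1 (SL.cons 0 2 (SL.cons 0 1 (SL.cons 0 2 (SL.cons 0 1 (SL.cons 0 1 (SL.cons 0 1 (SL.cons 0 1 SL.nil)))))))) WtL.nil
  FamL.nil))))))))))))))))))))))))))))

theorem LQ11_3_sv : LQ11_3.all (gSvO 11 (sieA1 11 1 12 8 0 17 4 0 10 3 18) (sieA2 11 1 12 8 0 17 4 0 10 3 18 119)) = true := by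
  decide +kernel

theorem LQ11_3_nm : LQ11_3.all (gNmO 11 37 127) = true := by decide +kernel

theorem LQ11_3_cov : covO 11 LQ11_3 39 29 = true := by decide +kernel

/-- the families with 68 ≤ y < 90 -/
def LQ11_4 : FamL := (FamL.cons 0 69 14 537 109 10 0 (SL.cons 0 4 (SL.cons 0 1 (SL.cons 0 12 (SL.cons 0 1 SL.nil)))) WtL.nil
  (FamL.cons 0 69 32 1317 611 4 0 (SL.cons 0 2 (SL.cons 0 6 (SL.cons 0 2 (SL.cons 0 2 SL.nil)))) WtL.nil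
  (FamL.cons 0 69 37 199 107 6 1 (SL.cons 0 1 (SL.cons 0 1 (SL.cons 0 6 (SL.cons 0 2 (SL.cons 0 1 (SL.cons 0 1 SL.nil)))))) (WtL.cons 3 3 1 WtL.nil)
  (FamL.cons 0 69 55 979 781 0 0 (SL.cons 0 1 (SL.cons 0 3 (SL.cons 0 1 (SL.cons 0 13 SL.nil)))) WtL.nil
  (FamL.cons 1 70 9 661 85 6 0 (SL.cons 0 7 (SL.cons 0 1 (SL.cons 0 3 (SL.cons 0 1 (SL.cons 0 1 SL.nil))))) WtL.nil
  (FamL.cons 1 70 19 755 205 9 0 (SL.cons 0 3 (SL.cons 0 1 (SL.cons 0 2 (SL.cons 0 5 (SL.cons 0 1 SL.nil))))) WtL.nil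
  (FamL.cons 1 70 51 13 10 1 1 (SL.cons 0 1 (SL.cons 0 2 (SL.cons 0 1 (SL.cons 0 2 (SL.cons 0 6 SL.nil))))) (WtL.cons 0 0 0 WtL.nil)
  (FamL.cons 1 70 61 107 94 4 1 (SL.cons 0 1 (SL.cons 0 6 (SL.cons 0 1 (SL.cons 0 3 (SL.cons 0 2 SL.nil))))) (WtL.cons 1 5 0 WtL.nil)
  (FamL.cons 0 71 29 193 79 3 0 (SL.cons 0 2 (SL.cons 0 2 (SL.cons 0 4 (SL.cons 0 3 SL.nil)))) WtL.nil
  (FamL.cons 0 71 42 1367 809 7 0 (SL.cons 0 1 (SL.cons 0 1 (SL.cons 0 2 (SL.cons 0 4 (SL.cons 0 2 (SL.cons 0 1 SL.nil)))))) WtL.nil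
  (FamL.cons 1 74 23 19 6 4 1 (SL.cons 0 3 (SL.cons 0 4 (SL.cons 0 1 (SL.cons 0 1 (SL.cons 0 2 SL.nil))))) (WtL.cons 3 2 0 WtL.nil)
  (FamL.cons 1 74 51 793 547 6 0 (SL.cons 0 1 (SL.cons 0 2 (SL.cons 0 4 (SL.cons 0 1 (SL.cons 0 1 (SL.cons 0 1 (SL.cons 0 1 SL.nil))))))) WtL.nil
  (FamL.cons 0 75 8 1603 171 4 0 (SL.cons 0 9 (SL.cons 0 2 (SL.cons 0 1 (SL.cons 0 2 SL.nil)))) WtL.nil
  (FamL.cons 0 75 17 1513 343 3 0 (SL.cons 0 4 (SL.cons 0 2 (SL.cons 0 2 (SL.cons 0 3 SL.nil)))) WtL.nil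
  (FamL.cons 0 75 58 135 105 7 1 (SL.cons 0 1 (SL.cons 0 3 (SL.cons 0 2 (SL.cons 0 2 (SL.cons 0 2 (SL.cons 0 1 SL.nil)))))) (WtL.cons 3 3 0 WtL.nil)
  (FamL.cons 0 75 67 45 41 6 1 (SL.cons 0 1 (SL.cons 0 8 (SL.cons 0 2 (SL.cons 0 1 (SL.cons 0 1 (SL.cons 0 1 SL.nil)))))) (WtL.cons 0 0 0 WtL.nil)
  (FamL.cons 1 79 13 1197 197 10 0 (SL.cons 0 6 (SL.cons 0 12 (SL.cons 0 1 SL.nil))) WtL.nil
  (FamL.cons 1 79 66 539 451 0 0 (SL.cons 0 1 (SL.cons 0 5 (SL.cons 0 13 SL.nil))) WtL.nil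
  (FamL.cons 0 81 31 969 371 6 0 (SL.cons 0 2 (SL.cons 0 1 (SL.cons 0 1 (SL.cons 0 1 (SL.cons 0 1 (SL.cons 0 2 (SL.cons 0 1 (SL.cons 0 1 SL.nil)))))))) WtL.nil
  (FamL.cons 0 81 50 811 501 4 0 (SL.cons 0 1 (SL.cons 0 1 (SL.cons 0 1 (SL.cons 0 1 (SL.cons 0 1 (SL.cons 0 1 (SL.cons 0 2 (SL.cons 0 2 SL.nil)))))))) WtL.nil
  (FamL.cons 1 83 29 1611 563 8 0 (SL.cons 0 2 (SL.cons 0 1 (SL.cons 0 6 (SL.cons 0 3 (SL.cons 0 1 SL.nil))))) WtL.nil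
  (FamL.cons 1 83 54 213 139 2 1 (SL.cons 0 1 (SL.cons 0 1 (SL.cons 0 1 (SL.cons 0 6 (SL.cons 0 4 SL.nil))))) (WtL.cons 1 5 0 WtL.nil)
  (FamL.cons 1 86 21 483 118 5 0 (SL.cons 0 4 (SL.cons 0 10 (SL.cons 0 2 SL.nil))) WtL.nil
  (FamL.cons 1 86 65 461 349 5 0 (SL.cons 0 1 (SL.cons 0 3 (SL.cons 0 10 (SL.cons 0 1 (SL.cons 0 1 SL.nil))))) WtL.nil
  (FamL.cons 0 89 16 595 107 6 0 (SL.cons 0 5 (SL.cons 0 1 (SL.cons 0 1 (SL.cons 0 3 (SL.cons 0 1 (SL.cons 0 1 SL.nil)))))) WtL.nil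
  (FamL.cons 0 89 73 1361 1117 4 0 (SL.cons 0 1 (SL.cons 0 4 (SL.cons 0 1 (SL.cons 0 1 (SL.cons 0 3 (SL.cons 0 2 SL.nil)))))) WtL.nil
  (FamL.cons 1 89 10 1949 219 1 0 (SL.cons 0 8 (SL.cons 0 1 (SL.cons 0 9 SL.nil))) WtL.nil
  (FamL.cons 1 89 79 7 7 9 1 (SL.cons 0 1 (SL.cons 0 7 (SL.cons 0 1 (SL.cons 0 8 (SL.cons 0 1 SL.nil))))) (WtL.cons 2 1 11 WtL.nil)
  FamL.nil))))))))))))))))))))))))))))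

theorem LQ11_4_sv : LQ11_4.all (gSvO 11 (sieA1 11 1 12 8 0 17 4 0 10 3 18) (sieA2 11 1 12 8 0 17 4 0 10 3 18 119)) = true := by
  decide +kernel

theorem LQ11_4_nm : LQ11_4.all (gNmO 11 37 127) = true := by decide +kernel

theorem LQ11_4_cov : covO 11 LQ11_4 68 22 = true := by decide +kernel

/-- the families with 90 ≤ y < 101 -/
def LQ11_5 : FamL := (FamL.cons 0 92 9 419 41 6 0 (SL.cons 0 10 (SL.cons 0 4 (SL.cons 0 1 (SL.cons 0 1 SL.nil)))) WtL.nil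
  (FamL.cons 0 92 37 845 340 10 0 (SL.cons 0 2 (SL.cons 0 2 (SL.cons 0 17 (SL.cons 0 1 SL.nil)))) WtL.nil
  (FamL.cons 0 92 55 165 99 0 1 (SL.cons 0 1 (SL.cons 0 1 (SL.cons 0 2 (SL.cons 0 18 SL.nil)))) (WtL.cons 1 3 0 WtL.nil)
  (FamL.cons 0 92 83 591 534 4 0 (SL.cons 0 1 (SL.cons 0 9 (SL.cons 0 4 (SL.cons 0 2 SL.nil)))) WtL.nil
  (FamL.cons 0 93 19 1385 283 5 0 (SL.cons 0 4 (SL.cons 0 1 (SL.cons 0 8 (SL.cons 0 2 SL.nil)))) WtL.nil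
  (FamL.cons 0 93 43 205 95 9 1 (SL.cons 0 2 (SL.cons 0 6 (SL.cons 0 6 (SL.cons 0 1 SL.nil)))) (WtL.cons 3 3 1 WtL.nil)
  (FamL.cons 0 93 50 1839 989 1 0 (SL.cons 0 1 (SL.cons 0 1 (SL.cons 0 6 (SL.cons 0 7 SL.nil)))) WtL.nil
  (FamL.cons 0 93 74 659 525 5 0 (SL.cons 0 1 (SL.cons 0 3 (SL.cons 0 1 (SL.cons 0 8 (SL.cons 0 1 (SL.cons 0 1 SL.nil)))))) WtL.nil
  (FamL.cons 1 95 26 1443 395 1 0 (SL.cons 0 3 (SL.cons 0 1 (SL.cons 0 1 (SL.cons 0 1 (SL.cons 0 8 SL.nil))))) WtL.nil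
  (FamL.cons 1 95 31 395 129 5 1 (SL.cons 0 3 (SL.cons 0 15 (SL.cons 0 2 SL.nil))) (WtL.cons 3 3 0 WtL.nil)
  (FamL.cons 1 95 64 1693 1141 5 0 (SL.cons 0 1 (SL.cons 0 2 (SL.cons 0 15 (SL.cons 0 1 (SL.cons 0 1 SL.nil))))) WtL.nil
  (FamL.cons 1 95 69 645 469 9 0 (SL.cons 0 1 (SL.cons 0 2 (SL.cons 0 1 (SL.cons 0 1 (SL.cons 0 1 (SL.cons 0 7 (SL.cons 0 1 SL.nil))))))) WtL.nil
  (FamL.cons 0 97 38 819 321 8 0 (SL.cons 0 2 (SL.cons 0 1 (SL.cons 0 1 (SL.cons 0 4 (SL.cons 0 3 (SL.cons 0 1 SL.nil)))))) WtL.nil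
  (FamL.cons 0 97 59 1313 799 2 0 (SL.cons 0 1 (SL.cons 0 1 (SL.cons 0 1 (SL.cons 0 1 (SL.cons 0 4 (SL.cons 0 4 SL.nil)))))) WtL.nil
  (FamL.cons 1 97 37 191 73 2 0 (SL.cons 0 2 (SL.cons 0 1 (SL.cons 0 1 (SL.cons 0 1 (SL.cons 0 1 (SL.cons 0 1 (SL.cons 0 4 SL.nil))))))) WtL.nil
  (FamL.cons 1 97 60 1941 1201 8 0 (SL.cons 0 1 (SL.cons 0 1 (SL.cons 0 1 (SL.cons 0 1 (SL.cons 0 1 (SL.cons 0 1 (SL.cons 0 1 (SL.cons 0 3 (SL.cons 0 1 SL.nil))))))))) WtL.nil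
  (FamL.cons 1 98 33 1045 352 0 1 (SL.cons 0 2 (SL.cons 0 1 (SL.cons 0 32 SL.nil))) (WtL.cons 3 2 0 WtL.nil)
  (FamL.cons 1 98 65 31 21 10 2 (SL.cons 0 1 (SL.cons 0 1 (SL.cons 0 1 (SL.cons 0 31 (SL.cons 0 1 SL.nil))))) (WtL.cons 2 1 33 (WtL.cons 1 5 0 WtL.nil))
  (FamL.cons 0 100 17 241 41 5 1 (SL.cons 0 5 (SL.cons 0 1 (SL.cons 0 7 (SL.cons 0 2 SL.nil)))) (WtL.cons 3 3 1 WtL.nil)
  (FamL.cons 2 100 33 33 11 0 4 (SL.cons 0 3 (SL.cons 0 33 SL.nil)) (WtL.cons 2 1 33 (WtL.cons 3 2 0 (WtL.cons 3 3 1 (WtL.cons 3 2 0 WtL.nil))))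
  (FamL.cons 2 100 67 1065 714 10 3 (SL.cons 0 1 (SL.cons 0 2 (SL.cons 0 32 (SL.cons 0 1 SL.nil)))) (WtL.cons 3 2 0 (WtL.cons 3 3 2 (WtL.cons 3 2 0 WtL.nil)))
  (FamL.cons 0 100 83 857 712 5 0 (SL.cons 0 1 (SL.cons 0 4 (SL.cons 0 1 (SL.cons 0 7 (SL.cons 0 1 (SL.cons 0 1 SL.nil)))))) WtL.nil
  FamL.nil))))))))))))))))))))))

theorem LQ11_5_sv : LQ11_5.all (gSvO 11 (sieA1 11 1 12 8 0 17 4 0 10 3 18) (sieA2 11 1 12 8 0 17 4 0 10 3 18 119)) = true := by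
  decide +kernel

theorem LQ11_5_nm : LQ11_5.all (gNmO 11 37 127) = true := by decide +kernel

theorem LQ11_5_cov : covO 11 LQ11_5 90 11 = true := by decide +kernel

theorem one11 {d : ℕ} (F : FDO d 11 1) (hS : SolO d 11 1) : H419R2.tb LO d = true :=
  one_soundO (Tm := 12) (Tp := 2) (wm := (WtL.cons 3 3 2 (WtL.cons 0 0 0 (WtL.cons 1 3 0 (WtL.cons 3 3 2 (WtL.cons 3 5 3 (WtL.cons 3 3 1 (WtL.cons 1 3 0 (WtL.cons 3 5 1 (WtL.cons 3 3 1 (WtL.cons 1 5 0 (WtL.cons 3 5 2 (WtL.cons 1 3 0 WtL.nil))))))))))))) (wp := (WtL.cons 3 3 0 (WtL.cons 3 5 3 WtL.nil)))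
    (by norm_num) (by norm_num) sb11_2 sb11_1 (by decide +kernel) (by decide +kernel)
    (by decide +kernel) (by decide +kernel) (by decide +kernel) F hS

theorem all11 {d y : ℕ} (F : FDO d 11 y) (hS : SolO d 11 y) (h0 : 0 < y) (h60 : y ≤ 100) :
    H419R2.tb LO d = true := by
  have hP : Nat.Prime 11 := by norm_num
  by_cases h1 : y = 1
  · subst h1
    exact one11 F hS
  by_cases h1' : y < 20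
  · exact chunk_soundO hP (by norm_num) sb11_1 sb11_2 LQ11_1_sv LQ11_1_nm LQ11_1_cov F hS (by omega) (by omega) (by omega)
  by_cases h2' : y < 39
  · exact chunk_soundO hP (by norm_num) sb11_1 sb11_2 LQ11_2_sv LQ11_2_nm LQ11_2_cov F hS (by omega) (by omega) (by omega)
  by_cases h3' : y < 68
  · exact chunk_soundO hP (by norm_num) sb11_1 sb11_2 LQ11_3_sv LQ11_3_nm LQ11_3_cov F hS (by omega) (by omega) (by omega)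
  by_cases h4' : y < 90
  · exact chunk_soundO hP (by norm_num) sb11_1 sb11_2 LQ11_4_sv LQ11_4_nm LQ11_4_cov F hS (by omega) (by omega) (by omega)
  exact chunk_soundO hP (by norm_num) sb11_1 sb11_2 LQ11_5_sv LQ11_5_nm LQ11_5_cov F hS (by omega) (by omega) (by omega)

end Pool.Agent.H449
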