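import Pool.Agent.H449.O7

/-! Families for the prime 19. -/

set_option maxRecDepth 100000

namespace Pool.Agent.H449

/-- the families with 2 ≤ y < 19 -/
def LQ19_1 : FamL := (FamL.cons 1 2 1 37 14 9 2 (SL.cons 0 2 SL.nil) (WtL.cons 1 5 0 (WtL.cons 3 3 0 WtL.nil))
  (FamL.cons 1 3 1 69 21 6 1 (SL.cons 0 3 SL.nil) (WtL.cons 3 3 0 WtL.nil)
  (FamL.cons 1 3 2 43 27 12 1 (SL.cons 0 1 (SL.cons 0 1 (SL.cons 0 1 SL.nil))) (WtL.cons 3 3 0 WtL.nil)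
  (FamL.cons 0 4 1 47 13 14 2 (SL.cons 0 3 (SL.cons 0 1 SL.nil)) (WtL.cons 3 5 1 (WtL.cons 3 2 0 WtL.nil))
  (FamL.cons 0 4 3 27 22 4 2 (SL.cons 0 1 (SL.cons 0 3 SL.nil)) (WtL.cons 3 2 0 (WtL.cons 1 5 0 WtL.nil))
  (FamL.cons 0 5 1 11 3 15 1 (SL.cons 0 4 (SL.cons 0 1 SL.nil)) (WtL.cons 0 0 0 WtL.nil)
  (FamL.cons 0 5 4 177 143 3 1 (SL.cons 0 1 (SL.cons 0 4 SL.nil)) (WtL.cons 3 5 1 WtL.nil)
  (FamL.cons 1 5 2 79 31 11 1 (SL.cons 0 2 (SL.cons 0 1 (SL.cons 0 1 SL.nil))) (WtL.cons 3 5 3 WtL.nil)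
  (FamL.cons 1 5 3 109 65 7 0 (SL.cons 0 1 (SL.cons 0 1 (SL.cons 0 2 SL.nil))) WtL.nil
  (FamL.cons 1 6 1 63 10 3 2 (SL.cons 0 6 SL.nil) (WtL.cons 3 2 0 (WtL.cons 3 5 4 WtL.nil))
  (FamL.cons 1 6 5 49 41 15 2 (SL.cons 0 1 (SL.cons 0 4 (SL.cons 0 1 SL.nil))) (WtL.cons 1 3 0 (WtL.cons 3 2 0 WtL.nil))
  (FamL.cons 0 7 3 29 13 5 1 (SL.cons 0 2 (SL.cons 0 3 SL.nil)) (WtL.cons 0 0 0 WtL.nil)
  (FamL.cons 0 7 4 235 135 13 0 (SL.cons 0 1 (SL.cons 0 1 (SL.cons 0 2 (SL.cons 0 1 SL.nil)))) WtL.nil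
  (FamL.cons 1 9 1 137 15 2 1 (SL.cons 0 9 SL.nil) (WtL.cons 3 3 0 WtL.nil)
  (FamL.cons 1 9 8 203 181 16 1 (SL.cons 0 1 (SL.cons 0 7 (SL.cons 0 1 SL.nil))) (WtL.cons 3 11 8 WtL.nil)
  (FamL.cons 1 10 3 7 2 13 1 (SL.cons 0 3 (SL.cons 0 2 (SL.cons 0 1 SL.nil))) (WtL.cons 0 0 0 WtL.nil)
  (FamL.cons 1 10 7 181 127 5 0 (SL.cons 0 1 (SL.cons 0 2 (SL.cons 0 3 SL.nil))) WtL.nil
  (FamL.cons 0 11 5 63 29 3 1 (SL.cons 0 2 (SL.cons 0 5 SL.nil)) (WtL.cons 3 5 1 WtL.nil)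
  (FamL.cons 0 11 6 353 193 15 0 (SL.cons 0 1 (SL.cons 0 1 (SL.cons 0 4 (SL.cons 0 1 SL.nil)))) WtL.nil
  (FamL.cons 1 15 2 533 71 10 0 (SL.cons 0 7 (SL.cons 0 1 (SL.cons 0 1 SL.nil))) WtL.nil
  (FamL.cons 3 15 7 469 219 16 0 (SL.cons 0 2 (SL.cons 0 6 (SL.cons 0 1 SL.nil))) WtL.nil
  (FamL.cons 3 15 8 99 53 2 1 (SL.cons 0 1 (SL.cons 0 1 (SL.cons 0 7 SL.nil))) (WtL.cons 3 11 3 WtL.nil)
  (FamL.cons 1 15 13 35 31 8 1 (SL.cons 0 1 (SL.cons 0 6 (SL.cons 0 2 SL.nil))) (WtL.cons 0 0 0 WtL.nil)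
  (FamL.cons 0 17 7 235 97 13 0 (SL.cons 0 2 (SL.cons 0 2 (SL.cons 0 2 (SL.cons 0 1 SL.nil)))) WtL.nil
  (FamL.cons 0 17 10 409 241 5 0 (SL.cons 0 1 (SL.cons 0 1 (SL.cons 0 2 (SL.cons 0 3 SL.nil)))) WtL.nil
  (FamL.cons 1 17 6 405 143 3 0 (SL.cons 0 2 (SL.cons 0 1 (SL.cons 0 5 SL.nil))) WtL.nil
  (FamL.cons 1 17 11 239 155 15 0 (SL.cons 0 1 (SL.cons 0 1 (SL.cons 0 1 (SL.cons 0 4 (SL.cons 0 1 SL.nil))))) WtL.nil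
  (FamL.cons 3 18 1 325 18 1 3 (SL.cons 0 18 SL.nil) (WtL.cons 3 2 0 (WtL.cons 3 31 7 (WtL.cons 1 3 0 WtL.nil)))
  (FamL.cons 3 18 17 15 15 17 4 (SL.cons 0 1 (SL.cons 0 16 (SL.cons 0 1 SL.nil))) (WtL.cons 2 1 19 (WtL.cons 3 2 0 (WtL.cons 3 3 1 (WtL.cons 3 2 0 WtL.nil))))
  FamL.nil)))))))))))))))))))))))))))))

theorem LQ19_1_sv : LQ19_1.all (gSvO 19 (sieD1 19 2 13 8) (sieD2 19 2 13 8 3 10 30)) = true := by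
  decide +kernel

theorem LQ19_1_nm : LQ19_1.all (gNmO 19 37 61) = true := by decide +kernel

theorem LQ19_1_cov : covO 19 LQ19_1 2 17 = true := by decide +kernel

/-- the families with 19 ≤ y < 44 -/
def LQ19_2 : FamL := (FamL.cons 0 20 1 359 18 18 2 (SL.cons 0 19 (SL.cons 0 1 SL.nil)) (WtL.cons 3 2 0 (WtL.cons 3 5 2 WtL.nil))
  (FamL.cons 2 20 9 115 52 10 1 (SL.cons 0 2 (SL.cons 0 4 (SL.cons 0 1 (SL.cons 0 1 SL.nil)))) (WtL.cons 3 2 0 WtL.nil)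
  (FamL.cons 2 20 11 263 145 8 1 (SL.cons 0 1 (SL.cons 0 1 (SL.cons 0 4 (SL.cons 0 2 SL.nil)))) (WtL.cons 3 5 0 WtL.nil)
  (FamL.cons 0 20 19 19 19 0 2 (SL.cons 0 1 (SL.cons 0 19 SL.nil)) (WtL.cons 2 1 19 (WtL.cons 3 2 0 WtL.nil))
  (FamL.cons 0 23 2 379 33 9 1 (SL.cons 0 11 (SL.cons 0 2 SL.nil)) (WtL.cons 3 3 0 WtL.nil)
  (FamL.cons 0 23 21 493 451 9 0 (SL.cons 0 1 (SL.cons 0 10 (SL.cons 0 1 (SL.cons 0 1 SL.nil)))) WtL.nil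
  (FamL.cons 0 25 9 719 259 8 0 (SL.cons 0 2 (SL.cons 0 1 (SL.cons 0 3 (SL.cons 0 2 SL.nil)))) WtL.nil
  (FamL.cons 0 25 16 229 147 10 0 (SL.cons 0 1 (SL.cons 0 1 (SL.cons 0 1 (SL.cons 0 3 (SL.cons 0 1 (SL.cons 0 1 SL.nil)))))) WtL.nil
  (FamL.cons 1 25 12 585 281 17 0 (SL.cons 0 2 (SL.cons 0 11 (SL.cons 0 1 SL.nil))) WtL.nil
  (FamL.cons 1 25 13 363 189 1 1 (SL.cons 0 1 (SL.cons 0 1 (SL.cons 0 12 SL.nil))) (WtL.cons 1 3 0 WtL.nil)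
  (FamL.cons 1 27 10 159 59 13 0 (SL.cons 0 2 (SL.cons 0 1 (SL.cons 0 2 (SL.cons 0 2 (SL.cons 0 1 SL.nil))))) WtL.nil
  (FamL.cons 1 27 17 865 545 5 0 (SL.cons 0 1 (SL.cons 0 1 (SL.cons 0 1 (SL.cons 0 2 (SL.cons 0 3 SL.nil))))) WtL.nil
  (FamL.cons 0 28 3 373 40 6 0 (SL.cons 0 9 (SL.cons 0 3 SL.nil)) WtL.nil
  (FamL.cons 0 28 11 25 10 3 1 (SL.cons 0 2 (SL.cons 0 1 (SL.cons 0 1 (SL.cons 0 5 SL.nil)))) (WtL.cons 3 2 0 WtL.nil)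
  (FamL.cons 0 28 17 505 307 15 0 (SL.cons 0 1 (SL.cons 0 1 (SL.cons 0 1 (SL.cons 0 1 (SL.cons 0 4 (SL.cons 0 1 SL.nil)))))) WtL.nil
  (FamL.cons 0 28 25 157 141 12 1 (SL.cons 0 1 (SL.cons 0 8 (SL.cons 0 2 (SL.cons 0 1 SL.nil)))) (WtL.cons 3 3 0 WtL.nil)
  (FamL.cons 1 30 7 377 88 8 0 (SL.cons 0 4 (SL.cons 0 3 (SL.cons 0 2 SL.nil))) WtL.nil
  (FamL.cons 1 30 13 445 193 4 0 (SL.cons 0 2 (SL.cons 0 3 (SL.cons 0 4 SL.nil))) WtL.nil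
  (FamL.cons 1 30 17 123 70 14 1 (SL.cons 0 1 (SL.cons 0 1 (SL.cons 0 3 (SL.cons 0 3 (SL.cons 0 1 SL.nil))))) (WtL.cons 3 2 0 WtL.nil)
  (FamL.cons 1 30 23 191 147 10 0 (SL.cons 0 1 (SL.cons 0 3 (SL.cons 0 3 (SL.cons 0 1 (SL.cons 0 1 SL.nil))))) WtL.nil
  (FamL.cons 1 31 9 141 41 4 1 (SL.cons 0 3 (SL.cons 0 2 (SL.cons 0 4 SL.nil))) (WtL.cons 3 5 2 WtL.nil)
  (FamL.cons 1 31 22 1035 735 14 0 (SL.cons 0 1 (SL.cons 0 2 (SL.cons 0 2 (SL.cons 0 3 (SL.cons 0 1 SL.nil))))) WtL.nil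
  (FamL.cons 1 34 11 281 91 17 1 (SL.cons 0 3 (SL.cons 0 10 (SL.cons 0 1 SL.nil))) (WtL.cons 1 5 0 WtL.nil)
  (FamL.cons 1 34 23 363 246 1 1 (SL.cons 0 1 (SL.cons 0 2 (SL.cons 0 11 SL.nil))) (WtL.cons 3 2 0 WtL.nil)
  (FamL.cons 2 35 4 1111 127 14 0 (SL.cons 0 8 (SL.cons 0 1 (SL.cons 0 2 (SL.cons 0 1 SL.nil)))) WtL.nil
  (FamL.cons 0 35 11 951 299 10 0 (SL.cons 0 3 (SL.cons 0 5 (SL.cons 0 1 (SL.cons 0 1 SL.nil)))) WtL.nil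
  (FamL.cons 0 35 24 377 259 8 0 (SL.cons 0 1 (SL.cons 0 2 (SL.cons 0 5 (SL.cons 0 2 SL.nil)))) WtL.nil
  (FamL.cons 2 35 31 217 193 4 1 (SL.cons 0 1 (SL.cons 0 7 (SL.cons 0 1 (SL.cons 0 3 SL.nil)))) (WtL.cons 3 5 1 WtL.nil)
  (FamL.cons 0 43 14 1047 341 1 0 (SL.cons 0 3 (SL.cons 0 14 SL.nil)) WtL.nil
  (FamL.cons 0 43 29 585 395 17 0 (SL.cons 0 1 (SL.cons 0 2 (SL.cons 0 13 (SL.cons 0 1 SL.nil)))) WtL.nil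
  FamL.nil))))))))))))))))))))))))))))))

theorem LQ19_2_sv : LQ19_2.all (gSvO 19 (sieD1 19 2 13 8) (sieD2 19 2 13 8 3 10 30)) = true := by
  decide +kernel

theorem LQ19_2_nm : LQ19_2.all (gNmO 19 37 61) = true := by decide +kernel

theorem LQ19_2_cov : covO 19 LQ19_2 19 25 = true := by decide +kernel

/-- the families with 44 ≤ y < 62 -/
def LQ19_3 : FamL := (FamL.cons 0 44 5 695 79 15 0 (SL.cons 0 8 (SL.cons 0 1 (SL.cons 0 3 (SL.cons 0 1 SL.nil)))) WtL.nil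
  (FamL.cons 0 44 17 349 135 13 0 (SL.cons 0 2 (SL.cons 0 1 (SL.cons 0 1 (SL.cons 0 2 (SL.cons 0 2 (SL.cons 0 1 SL.nil)))))) WtL.nil
  (FamL.cons 0 44 27 485 298 5 0 (SL.cons 0 1 (SL.cons 0 1 (SL.cons 0 1 (SL.cons 0 1 (SL.cons 0 2 (SL.cons 0 3 SL.nil)))))) WtL.nil
  (FamL.cons 0 44 39 139 124 3 1 (SL.cons 0 1 (SL.cons 0 7 (SL.cons 0 1 (SL.cons 0 4 SL.nil)))) (WtL.cons 3 2 0 WtL.nil)
  (FamL.cons 1 45 8 793 141 7 0 (SL.cons 0 5 (SL.cons 0 1 (SL.cons 0 1 (SL.cons 0 1 (SL.cons 0 2 SL.nil))))) WtL.nil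
  (FamL.cons 1 45 17 177 67 3 1 (SL.cons 0 2 (SL.cons 0 1 (SL.cons 0 1 (SL.cons 0 1 (SL.cons 0 5 SL.nil))))) (WtL.cons 3 3 1 WtL.nil)
  (FamL.cons 1 45 28 1531 953 15 0 (SL.cons 0 1 (SL.cons 0 1 (SL.cons 0 1 (SL.cons 0 1 (SL.cons 0 1 (SL.cons 0 4 (SL.cons 0 1 SL.nil))))))) WtL.nil
  (FamL.cons 1 45 37 915 753 11 0 (SL.cons 0 1 (SL.cons 0 4 (SL.cons 0 1 (SL.cons 0 1 (SL.cons 0 1 (SL.cons 0 1 (SL.cons 0 1 SL.nil))))))) WtL.nil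
  (FamL.cons 0 47 13 1059 293 7 0 (SL.cons 0 3 (SL.cons 0 1 (SL.cons 0 1 (SL.cons 0 1 (SL.cons 0 1 (SL.cons 0 2 SL.nil)))))) WtL.nil
  (FamL.cons 0 47 34 725 525 11 0 (SL.cons 0 1 (SL.cons 0 2 (SL.cons 0 1 (SL.cons 0 1 (SL.cons 0 1 (SL.cons 0 1 (SL.cons 0 1 (SL.cons 0 1 SL.nil)))))))) WtL.nil
  (FamL.cons 0 49 18 1211 445 7 0 (SL.cons 0 2 (SL.cons 0 1 (SL.cons 0 2 (SL.cons 0 1 (SL.cons 0 1 (SL.cons 0 2 SL.nil)))))) WtL.nil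
  (FamL.cons 0 49 31 649 411 11 0 (SL.cons 0 1 (SL.cons 0 1 (SL.cons 0 1 (SL.cons 0 2 (SL.cons 0 1 (SL.cons 0 1 (SL.cons 0 1 (SL.cons 0 1 SL.nil)))))))) WtL.nil
  (FamL.cons 1 50 13 419 109 10 0 (SL.cons 0 3 (SL.cons 0 1 (SL.cons 0 5 (SL.cons 0 1 (SL.cons 0 1 SL.nil))))) WtL.nil
  (FamL.cons 1 50 37 529 392 8 0 (SL.cons 0 1 (SL.cons 0 2 (SL.cons 0 1 (SL.cons 0 5 (SL.cons 0 2 SL.nil))))) WtL.nil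
  (FamL.cons 1 51 11 941 203 5 0 (SL.cons 0 4 (SL.cons 0 1 (SL.cons 0 1 (SL.cons 0 1 (SL.cons 0 3 SL.nil))))) WtL.nil
  (FamL.cons 1 51 23 565 255 7 0 (SL.cons 0 2 (SL.cons 0 4 (SL.cons 0 1 (SL.cons 0 1 (SL.cons 0 2 SL.nil))))) WtL.nil
  (FamL.cons 1 51 28 1371 753 11 0 (SL.cons 0 1 (SL.cons 0 1 (SL.cons 0 4 (SL.cons 0 1 (SL.cons 0 1 (SL.cons 0 1 (SL.cons 0 1 SL.nil))))))) WtL.nil
  (FamL.cons 1 51 40 995 781 13 0 (SL.cons 0 1 (SL.cons 0 3 (SL.cons 0 1 (SL.cons 0 1 (SL.cons 0 1 (SL.cons 0 2 (SL.cons 0 1 SL.nil))))))) WtL.nil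
  (FamL.cons 3 54 17 689 217 12 0 (SL.cons 0 3 (SL.cons 0 5 (SL.cons 0 1 (SL.cons 0 1 (SL.cons 0 1 SL.nil))))) WtL.nil
  (FamL.cons 3 54 37 335 230 6 1 (SL.cons 0 1 (SL.cons 0 2 (SL.cons 0 5 (SL.cons 0 1 (SL.cons 0 2 SL.nil))))) (WtL.cons 3 2 0 WtL.nil)
  (FamL.cons 2 55 6 1659 181 3 0 (SL.cons 0 9 (SL.cons 0 6 SL.nil)) WtL.nil
  (FamL.cons 0 55 16 1935 563 8 0 (SL.cons 0 3 (SL.cons 0 2 (SL.cons 0 3 (SL.cons 0 2 SL.nil)))) WtL.nil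
  (FamL.cons 0 55 39 153 109 10 0 (SL.cons 0 1 (SL.cons 0 2 (SL.cons 0 2 (SL.cons 0 3 (SL.cons 0 1 (SL.cons 0 1 SL.nil)))))) WtL.nil
  (FamL.cons 2 55 49 429 383 15 1 (SL.cons 0 1 (SL.cons 0 8 (SL.cons 0 5 (SL.cons 0 1 SL.nil)))) (WtL.cons 3 11 3 WtL.nil)
  (FamL.cons 1 59 14 1715 407 12 0 (SL.cons 0 4 (SL.cons 0 4 (SL.cons 0 1 (SL.cons 0 1 (SL.cons 0 1 SL.nil))))) WtL.nil
  (FamL.cons 1 59 45 525 401 6 0 (SL.cons 0 1 (SL.cons 0 3 (SL.cons 0 4 (SL.cons 0 1 (SL.cons 0 2 SL.nil))))) WtL.nil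
  (FamL.cons 0 61 15 1541 379 1 0 (SL.cons 0 4 (SL.cons 0 15 SL.nil)) WtL.nil
  (FamL.cons 0 61 46 775 585 17 0 (SL.cons 0 1 (SL.cons 0 3 (SL.cons 0 14 (SL.cons 0 1 SL.nil)))) WtL.nil
  (FamL.cons 1 61 18 2233 659 5 0 (SL.cons 0 3 (SL.cons 0 2 (SL.cons 0 1 (SL.cons 0 1 (SL.cons 0 3 SL.nil))))) WtL.nil
  (FamL.cons 1 61 43 83 59 13 1 (SL.cons 0 1 (SL.cons 0 2 (SL.cons 0 2 (SL.cons 0 1 (SL.cons 0 1 (SL.cons 0 2 (SL.cons 0 1 SL.nil))))))) (WtL.cons 1 5 0 WtL.nil)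
  FamL.nil))))))))))))))))))))))))))))))

theorem LQ19_3_sv : LQ19_3.all (gSvO 19 (sieD1 19 2 13 8) (sieD2 19 2 13 8 3 10 30)) = true := by
  decide +kernel

theorem LQ19_3_nm : LQ19_3.all (gNmO 19 37 61) = true := by decide +kernel

theorem LQ19_3_cov : covO 19 LQ19_3 44 18 = true := by decide +kernel

/-- the families with 62 ≤ y < 86 -/
def LQ19_4 : FamL := (FamL.cons 1 62 9 365 53 2 0 (SL.cons 0 6 (SL.cons 0 1 (SL.cons 0 8 SL.nil))) WtL.nil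
  (FamL.cons 1 62 53 811 694 16 0 (SL.cons 0 1 (SL.cons 0 5 (SL.cons 0 1 (SL.cons 0 7 (SL.cons 0 1 SL.nil))))) WtL.nil
  (FamL.cons 1 67 32 613 293 12 0 (SL.cons 0 2 (SL.cons 0 10 (SL.cons 0 1 (SL.cons 0 1 (SL.cons 0 1 SL.nil))))) WtL.nil
  (FamL.cons 1 67 35 1931 1009 6 0 (SL.cons 0 1 (SL.cons 0 1 (SL.cons 0 10 (SL.cons 0 1 (SL.cons 0 2 SL.nil))))) WtL.nil
  (FamL.cons 0 68 7 301 31 8 1 (SL.cons 0 9 (SL.cons 0 1 (SL.cons 0 2 (SL.cons 0 2 SL.nil)))) (WtL.cons 1 5 0 WtL.nil)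
  (FamL.cons 2 68 27 667 265 1 1 (SL.cons 0 2 (SL.cons 0 1 (SL.cons 0 1 (SL.cons 0 13 SL.nil)))) (WtL.cons 1 7 0 WtL.nil)
  (FamL.cons 2 68 41 623 376 17 1 (SL.cons 0 1 (SL.cons 0 1 (SL.cons 0 1 (SL.cons 0 1 (SL.cons 0 12 (SL.cons 0 1 SL.nil)))))) (WtL.cons 3 2 0 WtL.nil)
  (FamL.cons 0 68 61 989 888 10 0 (SL.cons 0 1 (SL.cons 0 8 (SL.cons 0 1 (SL.cons 0 2 (SL.cons 0 1 (SL.cons 0 1 SL.nil)))))) WtL.nil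
  (FamL.cons 1 71 27 2553 971 13 0 (SL.cons 0 2 (SL.cons 0 1 (SL.cons 0 1 (SL.cons 0 1 (SL.cons 0 2 (SL.cons 0 2 (SL.cons 0 1 SL.nil))))))) WtL.nil
  (FamL.cons 1 71 44 143 89 5 0 (SL.cons 0 1 (SL.cons 0 1 (SL.cons 0 1 (SL.cons 0 1 (SL.cons 0 1 (SL.cons 0 2 (SL.cons 0 3 SL.nil))))))) WtL.nil
  (FamL.cons 0 73 28 1165 447 3 0 (SL.cons 0 2 (SL.cons 0 1 (SL.cons 0 1 (SL.cons 0 1 (SL.cons 0 1 (SL.cons 0 5 SL.nil)))))) WtL.nil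
  (FamL.cons 0 73 45 1607 991 15 0 (SL.cons 0 1 (SL.cons 0 1 (SL.cons 0 1 (SL.cons 0 1 (SL.cons 0 1 (SL.cons 0 1 (SL.cons 0 4 (SL.cons 0 1 SL.nil)))))))) WtL.nil
  (FamL.cons 1 73 26 1075 383 15 0 (SL.cons 0 2 (SL.cons 0 1 (SL.cons 0 4 (SL.cons 0 4 (SL.cons 0 1 SL.nil))))) WtL.nil
  (FamL.cons 1 73 47 1697 1093 3 0 (SL.cons 0 1 (SL.cons 0 1 (SL.cons 0 1 (SL.cons 0 4 (SL.cons 0 5 SL.nil))))) WtL.nil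
  (FamL.cons 1 75 13 121 21 13 1 (SL.cons 0 5 (SL.cons 0 1 (SL.cons 0 3 (SL.cons 0 2 (SL.cons 0 1 SL.nil))))) (WtL.cons 1 5 0 WtL.nil)
  (FamL.cons 1 75 37 1461 721 18 0 (SL.cons 0 2 (SL.cons 0 36 (SL.cons 0 1 SL.nil))) WtL.nil
  (FamL.cons 1 75 38 1387 703 0 1 (SL.cons 0 1 (SL.cons 0 1 (SL.cons 0 37 SL.nil))) (WtL.cons 3 5 1 WtL.nil)
  (FamL.cons 1 75 62 2727 2255 5 0 (SL.cons 0 1 (SL.cons 0 4 (SL.cons 0 1 (SL.cons 0 3 (SL.cons 0 3 SL.nil))))) WtL.nil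
  (FamL.cons 0 77 17 1961 433 2 0 (SL.cons 0 4 (SL.cons 0 1 (SL.cons 0 1 (SL.cons 0 8 SL.nil)))) WtL.nil
  (FamL.cons 2 77 38 1501 741 0 1 (SL.cons 0 2 (SL.cons 0 38 SL.nil)) (WtL.cons 3 3 0 WtL.nil)
  (FamL.cons 2 77 39 1423 721 18 1 (SL.cons 0 1 (SL.cons 0 1 (SL.cons 0 37 (SL.cons 0 1 SL.nil)))) (WtL.cons 3 7 0 WtL.nil)
  (FamL.cons 0 77 60 963 751 16 0 (SL.cons 0 1 (SL.cons 0 3 (SL.cons 0 1 (SL.cons 0 1 (SL.cons 0 7 (SL.cons 0 1 SL.nil)))))) WtL.nil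
  (FamL.cons 1 79 16 933 189 1 0 (SL.cons 0 4 (SL.cons 0 1 (SL.cons 0 15 SL.nil))) WtL.nil
  (FamL.cons 1 79 63 2067 1649 17 0 (SL.cons 0 1 (SL.cons 0 3 (SL.cons 0 1 (SL.cons 0 14 (SL.cons 0 1 SL.nil))))) WtL.nil
  (FamL.cons 1 81 10 737 91 17 0 (SL.cons 0 8 (SL.cons 0 9 (SL.cons 0 1 SL.nil))) WtL.nil
  (FamL.cons 1 81 71 2339 2051 1 0 (SL.cons 0 1 (SL.cons 0 7 (SL.cons 0 10 SL.nil))) WtL.nil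
  (FamL.cons 0 83 8 1857 179 7 0 (SL.cons 0 10 (SL.cons 0 2 (SL.cons 0 1 (SL.cons 0 2 SL.nil)))) WtL.nil
  (FamL.cons 0 83 75 1295 1171 11 0 (SL.cons 0 1 (SL.cons 0 9 (SL.cons 0 2 (SL.cons 0 1 (SL.cons 0 1 (SL.cons 0 1 SL.nil)))))) WtL.nil
  (FamL.cons 0 85 24 1597 451 10 0 (SL.cons 0 3 (SL.cons 0 1 (SL.cons 0 1 (SL.cons 0 5 (SL.cons 0 1 (SL.cons 0 1 SL.nil)))))) WtL.nil
  (FamL.cons 2 85 41 1855 895 6 0 (SL.cons 0 2 (SL.cons 0 13 (SL.cons 0 1 (SL.cons 0 2 SL.nil)))) WtL.nil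
  (FamL.cons 2 85 44 1373 711 12 0 (SL.cons 0 1 (SL.cons 0 1 (SL.cons 0 13 (SL.cons 0 1 (SL.cons 0 1 (SL.cons 0 1 SL.nil)))))) WtL.nil
  (FamL.cons 0 85 61 1631 1171 8 0 (SL.cons 0 1 (SL.cons 0 2 (SL.cons 0 1 (SL.cons 0 1 (SL.cons 0 5 (SL.cons 0 2 SL.nil)))))) WtL.nil
  (FamL.cons 3 85 23 2923 791 8 0 (SL.cons 0 3 (SL.cons 0 1 (SL.cons 0 2 (SL.cons 0 3 (SL.cons 0 2 SL.nil))))) WtL.nil
  (FamL.cons 1 85 28 1727 569 18 0 (SL.cons 0 3 (SL.cons 0 27 (SL.cons 0 1 SL.nil))) WtL.nil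
  (FamL.cons 1 85 57 1501 1007 0 0 (SL.cons 0 1 (SL.cons 0 2 (SL.cons 0 28 SL.nil))) WtL.nil
  (FamL.cons 3 85 62 305 223 10 0 (SL.cons 0 1 (SL.cons 0 2 (SL.cons 0 1 (SL.cons 0 2 (SL.cons 0 3 (SL.cons 0 1 (SL.cons 0 1 SL.nil))))))) WtL.nil
  FamL.nil))))))))))))))))))))))))))))))))))))

theorem LQ19_4_sv : LQ19_4.all (gSvO 19 (sieD1 19 2 13 8) (sieD2 19 2 13 8 3 10 30)) = true := by
  decide +kernel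

theorem LQ19_4_nm : LQ19_4.all (gNmO 19 37 61) = true := by decide +kernel

theorem LQ19_4_cov : covO 19 LQ19_4 62 24 = true := by decide +kernel

/-- the families with 86 ≤ y < 101 -/
def LQ19_5 : FamL := (FamL.cons 1 90 17 1371 259 11 0 (SL.cons 0 5 (SL.cons 0 3 (SL.cons 0 2 (SL.cons 0 1 (SL.cons 0 1 SL.nil))))) WtL.nil
  (FamL.cons 1 90 37 885 364 15 0 (SL.cons 0 2 (SL.cons 0 2 (SL.cons 0 3 (SL.cons 0 4 (SL.cons 0 1 SL.nil))))) WtL.nil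
  (FamL.cons 1 90 53 823 485 3 0 (SL.cons 0 1 (SL.cons 0 1 (SL.cons 0 2 (SL.cons 0 3 (SL.cons 0 5 SL.nil))))) WtL.nil
  (FamL.cons 1 90 73 337 274 7 0 (SL.cons 0 1 (SL.cons 0 4 (SL.cons 0 3 (SL.cons 0 2 (SL.cons 0 2 SL.nil))))) WtL.nil
  (FamL.cons 0 92 21 451 103 7 0 (SL.cons 0 4 (SL.cons 0 2 (SL.cons 0 1 (SL.cons 0 1 (SL.cons 0 1 (SL.cons 0 2 SL.nil)))))) WtL.nil
  (FamL.cons 0 92 25 1733 471 2 0 (SL.cons 0 3 (SL.cons 0 1 (SL.cons 0 2 (SL.cons 0 8 SL.nil)))) WtL.nil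
  (FamL.cons 0 92 67 13 10 16 1 (SL.cons 0 1 (SL.cons 0 2 (SL.cons 0 1 (SL.cons 0 2 (SL.cons 0 7 (SL.cons 0 1 SL.nil)))))) (WtL.cons 0 0 0 WtL.nil)
  (FamL.cons 0 92 71 1295 1000 11 0 (SL.cons 0 1 (SL.cons 0 3 (SL.cons 0 2 (SL.cons 0 1 (SL.cons 0 1 (SL.cons 0 1 (SL.cons 0 1 (SL.cons 0 1 SL.nil)))))))) WtL.nil
  (FamL.cons 1 93 22 2701 639 11 0 (SL.cons 0 4 (SL.cons 0 4 (SL.cons 0 2 (SL.cons 0 1 (SL.cons 0 1 SL.nil))))) WtL.nil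
  (FamL.cons 1 93 40 439 189 1 1 (SL.cons 0 2 (SL.cons 0 3 (SL.cons 0 13 SL.nil))) (WtL.cons 3 3 0 WtL.nil)
  (FamL.cons 1 93 53 3093 1763 17 0 (SL.cons 0 1 (SL.cons 0 1 (SL.cons 0 3 (SL.cons 0 12 (SL.cons 0 1 SL.nil))))) WtL.nil
  (FamL.cons 1 93 71 831 635 7 0 (SL.cons 0 1 (SL.cons 0 3 (SL.cons 0 4 (SL.cons 0 2 (SL.cons 0 2 SL.nil))))) WtL.nil
  (FamL.cons 0 100 9 1011 91 2 0 (SL.cons 0 11 (SL.cons 0 9 SL.nil)) WtL.nil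
  (FamL.cons 2 100 41 1363 559 7 0 (SL.cons 0 2 (SL.cons 0 2 (SL.cons 0 3 (SL.cons 0 1 (SL.cons 0 1 (SL.cons 0 2 SL.nil)))))) WtL.nil
  (FamL.cons 2 100 59 535 316 11 0 (SL.cons 0 1 (SL.cons 0 1 (SL.cons 0 2 (SL.cons 0 3 (SL.cons 0 1 (SL.cons 0 1 (SL.cons 0 1 (SL.cons 0 1 SL.nil)))))))) WtL.nil
  (FamL.cons 0 100 91 887 808 16 0 (SL.cons 0 1 (SL.cons 0 10 (SL.cons 0 8 (SL.cons 0 1 SL.nil)))) WtL.nil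
  FamL.nil))))))))))))))))

theorem LQ19_5_sv : LQ19_5.all (gSvO 19 (sieD1 19 2 13 8) (sieD2 19 2 13 8 3 10 30)) = true := by
  decide +kernel

theorem LQ19_5_nm : LQ19_5.all (gNmO 19 37 61) = true := by decide +kernel

theorem LQ19_5_cov : covO 19 LQ19_5 86 15 = true := by decide +kernel

theorem one19 {d : ℕ} (F : FDO d 19 1) (hS : SolO d 19 1) : H419R2.tb LO d = true :=
  one_soundO (Tm := 2) (Tp := 1) (wm := (WtL.cons 0 0 0 (WtL.cons 1 5 0 WtL.nil))) (wp := (WtL.cons 3 7 2 WtL.nil))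
    (by norm_num) (by norm_num) sb19_1 sb19_1 (by decide +kernel) (by decide +kernel)
    (by decide +kernel) (by decide +kernel) (by decide +kernel) F hS

theorem all19 {d y : ℕ} (F : FDO d 19 y) (hS : SolO d 19 y) (h0 : 0 < y) (h60 : y ≤ 100) :
    H419R2.tb LO d = true := by
  have hP : Nat.Prime 19 := by norm_num
  by_cases h1 : y = 1
  · subst h1
    exact one19 F hS
  by_cases h1' : y < 19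
  · exact chunk_soundO hP (by norm_num) sb19_1 sb19_2 LQ19_1_sv LQ19_1_nm LQ19_1_cov F hS (by omega) (by omega) (by omega)
  by_cases h2' : y < 44
  · exact chunk_soundO hP (by norm_num) sb19_1 sb19_2 LQ19_2_sv LQ19_2_nm LQ19_2_cov F hS (by omega) (by omega) (by omega)
  by_cases h3' : y < 62
  · exact chunk_soundO hP (by norm_num) sb19_1 sb19_2 LQ19_3_sv LQ19_3_nm LQ19_3_cov F hS (by omega) (by omega) (by omega)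
  by_cases h4' : y < 86
  · exact chunk_soundO hP (by norm_num) sb19_1 sb19_2 LQ19_4_sv LQ19_4_nm LQ19_4_cov F hS (by omega) (by omega) (by omega)
  exact chunk_soundO hP (by norm_num) sb19_1 sb19_2 LQ19_5_sv LQ19_5_nm LQ19_5_cov F hS (by omega) (by omega) (by omega)

end Pool.Agent.H449
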