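import Pool.Agent.H449.O7

/-! Families for the prime 23. -/

set_option maxRecDepth 100000

namespace Pool.Agent.H449

/-- the families with 2 ≤ y < 27 -/
def LQ23_1 : FamL := (FamL.cons 1 2 1 45 17 11 1 (SL.cons 0 2 SL.nil) (WtL.cons 3 7 2 WtL.nil)
  (FamL.cons 0 3 1 7 5 15 1 (SL.cons 0 2 (SL.cons 0 1 SL.nil)) (WtL.cons 0 0 0 WtL.nil)
  (FamL.cons 0 3 2 129 89 7 0 (SL.cons 0 1 (SL.cons 0 2 SL.nil)) WtL.nil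
  (FamL.cons 1 7 3 101 43 16 1 (SL.cons 0 2 (SL.cons 0 2 (SL.cons 0 1 SL.nil))) (WtL.cons 3 11 10 WtL.nil)
  (FamL.cons 1 7 4 219 125 6 0 (SL.cons 0 1 (SL.cons 0 1 (SL.cons 0 3 SL.nil))) WtL.nil
  (FamL.cons 0 8 1 109 14 20 2 (SL.cons 0 7 (SL.cons 0 1 SL.nil)) (WtL.cons 3 2 0 (WtL.cons 3 7 2 WtL.nil))
  (FamL.cons 0 8 7 73 65 2 2 (SL.cons 0 1 (SL.cons 0 7 SL.nil)) (WtL.cons 1 3 0 (WtL.cons 3 2 0 WtL.nil))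
  (FamL.cons 0 9 2 273 61 10 0 (SL.cons 0 4 (SL.cons 0 2 SL.nil)) WtL.nil
  (FamL.cons 0 9 7 139 109 12 1 (SL.cons 0 1 (SL.cons 0 3 (SL.cons 0 1 (SL.cons 0 1 SL.nil)))) (WtL.cons 3 11 7 WtL.nil)
  (FamL.cons 1 11 1 211 19 2 1 (SL.cons 0 11 SL.nil) (WtL.cons 3 7 3 WtL.nil)
  (FamL.cons 1 11 10 293 267 20 1 (SL.cons 0 1 (SL.cons 0 9 (SL.cons 0 1 SL.nil))) (WtL.cons 3 3 0 WtL.nil)
  (FamL.cons 0 13 4 217 67 5 0 (SL.cons 0 3 (SL.cons 0 4 SL.nil)) WtL.nil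
  (FamL.cons 0 13 9 379 263 17 0 (SL.cons 0 1 (SL.cons 0 2 (SL.cons 0 3 (SL.cons 0 1 SL.nil)))) WtL.nil
  (FamL.cons 1 13 6 15 7 19 1 (SL.cons 0 2 (SL.cons 0 5 (SL.cons 0 1 SL.nil))) (WtL.cons 0 0 0 WtL.nil)
  (FamL.cons 1 13 7 581 313 3 0 (SL.cons 0 1 (SL.cons 0 1 (SL.cons 0 6 SL.nil))) WtL.nil
  (FamL.cons 1 14 3 131 28 8 1 (SL.cons 0 4 (SL.cons 0 1 (SL.cons 0 2 SL.nil))) (WtL.cons 3 2 0 WtL.nil)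
  (FamL.cons 1 14 11 189 149 14 0 (SL.cons 0 1 (SL.cons 0 3 (SL.cons 0 1 (SL.cons 0 1 (SL.cons 0 1 SL.nil))))) WtL.nil
  (FamL.cons 0 16 5 169 53 4 1 (SL.cons 0 3 (SL.cons 0 5 SL.nil)) (WtL.cons 1 3 0 WtL.nil)
  (FamL.cons 0 16 11 197 136 18 0 (SL.cons 0 1 (SL.cons 0 2 (SL.cons 0 4 (SL.cons 0 1 SL.nil)))) WtL.nil
  (FamL.cons 1 19 2 599 63 12 0 (SL.cons 0 9 (SL.cons 0 1 (SL.cons 0 1 SL.nil))) WtL.nil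
  (FamL.cons 1 19 17 273 245 10 1 (SL.cons 0 1 (SL.cons 0 8 (SL.cons 0 2 SL.nil))) (WtL.cons 1 7 0 WtL.nil)
  (FamL.cons 1 22 1 485 22 1 1 (SL.cons 0 22 SL.nil) (WtL.cons 3 2 0 WtL.nil)
  (FamL.cons 1 22 21 19 19 21 2 (SL.cons 0 1 (SL.cons 0 20 (SL.cons 0 1 SL.nil))) (WtL.cons 2 1 23 (WtL.cons 3 2 0 WtL.nil))
  (FamL.cons 0 24 1 527 22 22 1 (SL.cons 0 23 (SL.cons 0 1 SL.nil)) (WtL.cons 3 2 0 WtL.nil)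
  (FamL.cons 0 24 7 147 43 16 0 (SL.cons 0 3 (SL.cons 0 2 (SL.cons 0 2 (SL.cons 0 1 SL.nil)))) WtL.nil
  (FamL.cons 0 24 17 403 286 6 0 (SL.cons 0 1 (SL.cons 0 2 (SL.cons 0 2 (SL.cons 0 3 SL.nil)))) WtL.nil
  (FamL.cons 0 24 23 23 23 0 2 (SL.cons 0 1 (SL.cons 0 23 SL.nil)) (WtL.cons 1 3 0 (WtL.cons 3 2 0 WtL.nil))
  (FamL.cons 1 26 7 141 38 13 0 (SL.cons 0 3 (SL.cons 0 1 (SL.cons 0 2 (SL.cons 0 1 (SL.cons 0 1 SL.nil))))) WtL.nil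
  (FamL.cons 1 26 19 455 333 9 0 (SL.cons 0 1 (SL.cons 0 2 (SL.cons 0 1 (SL.cons 0 2 (SL.cons 0 2 SL.nil))))) WtL.nil
  FamL.nil)))))))))))))))))))))))))))))

theorem LQ23_1_sv : LQ23_1.all (gSvO 23 (sieA1 23 0 4 4 20 34 12 11 5 11 12) (sieA1 23 0 4 4 20 34 12 11 5 11 12)) = true := by
  decide +kernel

theorem LQ23_1_nm : LQ23_1.all (gNmO 23 37 37) = true := by decide +kernel

theorem LQ23_1_cov : covO 23 LQ23_1 2 25 = true := by decide +kernel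

/-- the families with 27 ≤ y < 49 -/
def LQ23_2 : FamL := (FamL.cons 0 27 2 229 17 11 1 (SL.cons 0 13 (SL.cons 0 2 SL.nil)) (WtL.cons 3 3 1 WtL.nil)
  (FamL.cons 0 27 25 1011 937 11 0 (SL.cons 0 1 (SL.cons 0 12 (SL.cons 0 1 (SL.cons 0 1 SL.nil)))) WtL.nil
  (FamL.cons 0 29 8 373 103 14 0 (SL.cons 0 3 (SL.cons 0 1 (SL.cons 0 1 (SL.cons 0 1 (SL.cons 0 1 (SL.cons 0 1 SL.nil)))))) WtL.nil
  (FamL.cons 0 29 21 959 695 8 0 (SL.cons 0 1 (SL.cons 0 2 (SL.cons 0 1 (SL.cons 0 1 (SL.cons 0 1 (SL.cons 0 2 SL.nil)))))) WtL.nil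
  (FamL.cons 1 29 9 641 199 10 0 (SL.cons 0 3 (SL.cons 0 4 (SL.cons 0 2 SL.nil))) WtL.nil
  (FamL.cons 1 29 20 691 477 12 0 (SL.cons 0 1 (SL.cons 0 2 (SL.cons 0 4 (SL.cons 0 1 (SL.cons 0 1 SL.nil))))) WtL.nil
  (FamL.cons 0 31 15 853 413 1 0 (SL.cons 0 2 (SL.cons 0 15 SL.nil)) WtL.nil
  (FamL.cons 0 31 16 571 295 21 1 (SL.cons 0 1 (SL.cons 0 1 (SL.cons 0 14 (SL.cons 0 1 SL.nil)))) (WtL.cons 3 5 0 WtL.nil)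
  (FamL.cons 0 32 3 53 5 15 1 (SL.cons 0 10 (SL.cons 0 1 (SL.cons 0 1 (SL.cons 0 1 SL.nil)))) (WtL.cons 3 3 2 WtL.nil)
  (FamL.cons 0 32 29 681 618 7 0 (SL.cons 0 1 (SL.cons 0 9 (SL.cons 0 1 (SL.cons 0 2 SL.nil)))) WtL.nil
  (FamL.cons 1 38 17 355 159 5 0 (SL.cons 0 2 (SL.cons 0 4 (SL.cons 0 4 SL.nil))) WtL.nil
  (FamL.cons 1 38 21 517 286 17 0 (SL.cons 0 1 (SL.cons 0 1 (SL.cons 0 4 (SL.cons 0 3 (SL.cons 0 1 SL.nil))))) WtL.nil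
  (FamL.cons 0 39 4 1667 171 17 0 (SL.cons 0 9 (SL.cons 0 1 (SL.cons 0 2 (SL.cons 0 1 SL.nil)))) WtL.nil
  (FamL.cons 0 39 17 869 379 9 0 (SL.cons 0 2 (SL.cons 0 3 (SL.cons 0 2 (SL.cons 0 2 SL.nil)))) WtL.nil
  (FamL.cons 0 39 22 923 521 13 0 (SL.cons 0 1 (SL.cons 0 1 (SL.cons 0 3 (SL.cons 0 2 (SL.cons 0 1 (SL.cons 0 1 SL.nil)))))) WtL.nil
  (FamL.cons 0 39 35 125 113 5 1 (SL.cons 0 1 (SL.cons 0 8 (SL.cons 0 1 (SL.cons 0 3 SL.nil)))) (WtL.cons 3 3 2 WtL.nil)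
  (FamL.cons 0 41 10 1775 433 2 0 (SL.cons 0 4 (SL.cons 0 10 SL.nil)) WtL.nil
  (FamL.cons 0 41 31 109 83 20 1 (SL.cons 0 1 (SL.cons 0 3 (SL.cons 0 9 (SL.cons 0 1 SL.nil)))) (WtL.cons 1 3 0 WtL.nil)
  (FamL.cons 1 41 8 661 129 20 0 (SL.cons 0 5 (SL.cons 0 7 (SL.cons 0 1 SL.nil))) WtL.nil
  (FamL.cons 1 41 33 1223 985 2 0 (SL.cons 0 1 (SL.cons 0 4 (SL.cons 0 8 SL.nil))) WtL.nil
  (FamL.cons 1 43 18 1507 631 6 0 (SL.cons 0 2 (SL.cons 0 2 (SL.cons 0 1 (SL.cons 0 1 (SL.cons 0 3 SL.nil))))) WtL.nil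
  (FamL.cons 1 43 25 469 273 16 0 (SL.cons 0 1 (SL.cons 0 1 (SL.cons 0 2 (SL.cons 0 1 (SL.cons 0 1 (SL.cons 0 2 (SL.cons 0 1 SL.nil))))))) WtL.nil
  (FamL.cons 0 47 20 627 267 3 0 (SL.cons 0 2 (SL.cons 0 2 (SL.cons 0 1 (SL.cons 0 6 SL.nil)))) WtL.nil
  (FamL.cons 0 47 27 1533 881 19 0 (SL.cons 0 1 (SL.cons 0 1 (SL.cons 0 2 (SL.cons 0 1 (SL.cons 0 5 (SL.cons 0 1 SL.nil)))))) WtL.nil
  (FamL.cons 0 48 5 547 57 9 0 (SL.cons 0 9 (SL.cons 0 1 (SL.cons 0 1 (SL.cons 0 2 SL.nil)))) WtL.nil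
  (FamL.cons 0 48 11 1047 240 6 0 (SL.cons 0 4 (SL.cons 0 2 (SL.cons 0 1 (SL.cons 0 3 SL.nil)))) WtL.nil
  (FamL.cons 0 48 37 55 43 16 1 (SL.cons 0 1 (SL.cons 0 3 (SL.cons 0 2 (SL.cons 0 1 (SL.cons 0 2 (SL.cons 0 1 SL.nil)))))) (WtL.cons 0 0 0 WtL.nil)
  (FamL.cons 0 48 43 555 498 13 0 (SL.cons 0 1 (SL.cons 0 8 (SL.cons 0 1 (SL.cons 0 1 (SL.cons 0 1 (SL.cons 0 1 SL.nil)))))) WtL.nil
  FamL.nil))))))))))))))))))))))))))))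

theorem LQ23_2_sv : LQ23_2.all (gSvO 23 (sieA1 23 0 4 4 20 34 12 11 5 11 12) (sieA1 23 0 4 4 20 34 12 11 5 11 12)) = true := by
  decide +kernel

theorem LQ23_2_nm : LQ23_2.all (gNmO 23 37 37) = true := by decide +kernel

theorem LQ23_2_cov : covO 23 LQ23_2 27 22 = true := by decide +kernel

/-- the families with 49 ≤ y < 82 -/
def LQ23_3 : FamL := (FamL.cons 1 49 11 31 7 4 1 (SL.cons 0 4 (SL.cons 0 2 (SL.cons 0 5 SL.nil))) (WtL.cons 0 0 0 WtL.nil)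
  (FamL.cons 1 49 38 2221 1723 18 0 (SL.cons 0 1 (SL.cons 0 3 (SL.cons 0 2 (SL.cons 0 4 (SL.cons 0 1 SL.nil))))) WtL.nil
  (FamL.cons 1 58 9 1321 205 5 0 (SL.cons 0 6 (SL.cons 0 2 (SL.cons 0 4 SL.nil))) WtL.nil
  (FamL.cons 1 58 49 11 10 17 1 (SL.cons 0 1 (SL.cons 0 5 (SL.cons 0 2 (SL.cons 0 3 (SL.cons 0 1 SL.nil))))) (WtL.cons 0 0 0 WtL.nil)
  (FamL.cons 0 59 6 521 53 19 0 (SL.cons 0 9 (SL.cons 0 1 (SL.cons 0 4 (SL.cons 0 1 SL.nil)))) WtL.nil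
  (FamL.cons 0 59 53 2191 1969 3 0 (SL.cons 0 1 (SL.cons 0 8 (SL.cons 0 1 (SL.cons 0 5 SL.nil)))) WtL.nil
  (FamL.cons 0 64 13 433 88 21 1 (SL.cons 0 4 (SL.cons 0 1 (SL.cons 0 11 (SL.cons 0 1 SL.nil)))) (WtL.cons 3 2 0 WtL.nil)
  (FamL.cons 0 64 51 1037 827 1 0 (SL.cons 0 1 (SL.cons 0 3 (SL.cons 0 1 (SL.cons 0 12 SL.nil)))) WtL.nil
  (FamL.cons 1 67 31 2699 1249 4 0 (SL.cons 0 2 (SL.cons 0 6 (SL.cons 0 5 SL.nil))) WtL.nil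
  (FamL.cons 1 67 36 381 205 18 0 (SL.cons 0 1 (SL.cons 0 1 (SL.cons 0 6 (SL.cons 0 4 (SL.cons 0 1 SL.nil))))) WtL.nil
  (FamL.cons 0 71 30 1971 833 8 0 (SL.cons 0 2 (SL.cons 0 2 (SL.cons 0 1 (SL.cons 0 2 (SL.cons 0 1 (SL.cons 0 2 SL.nil)))))) WtL.nil
  (FamL.cons 0 71 41 1293 747 14 0 (SL.cons 0 1 (SL.cons 0 1 (SL.cons 0 2 (SL.cons 0 1 (SL.cons 0 2 (SL.cons 0 1 (SL.cons 0 1 (SL.cons 0 1 SL.nil)))))))) WtL.nil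
  (FamL.cons 0 72 7 1337 130 13 0 (SL.cons 0 10 (SL.cons 0 3 (SL.cons 0 1 (SL.cons 0 1 SL.nil)))) WtL.nil
  (FamL.cons 0 72 25 1647 572 7 0 (SL.cons 0 2 (SL.cons 0 1 (SL.cons 0 7 (SL.cons 0 3 SL.nil)))) WtL.nil
  (FamL.cons 0 72 47 7 5 15 1 (SL.cons 0 1 (SL.cons 0 1 (SL.cons 0 1 (SL.cons 0 7 (SL.cons 0 2 (SL.cons 0 1 SL.nil)))))) (WtL.cons 2 3 23 WtL.nil)
  (FamL.cons 0 72 65 317 287 9 1 (SL.cons 0 1 (SL.cons 0 9 (SL.cons 0 3 (SL.cons 0 2 SL.nil)))) (WtL.cons 1 3 0 WtL.nil)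
  (FamL.cons 0 73 14 1465 281 8 0 (SL.cons 0 5 (SL.cons 0 4 (SL.cons 0 1 (SL.cons 0 2 SL.nil)))) WtL.nil
  (FamL.cons 0 73 59 1891 1529 14 0 (SL.cons 0 1 (SL.cons 0 4 (SL.cons 0 4 (SL.cons 0 1 (SL.cons 0 1 (SL.cons 0 1 SL.nil)))))) WtL.nil
  (FamL.cons 1 73 13 2903 517 14 0 (SL.cons 0 5 (SL.cons 0 1 (SL.cons 0 1 (SL.cons 0 1 (SL.cons 0 1 (SL.cons 0 1 (SL.cons 0 1 SL.nil))))))) WtL.nil
  (FamL.cons 1 73 60 453 373 8 0 (SL.cons 0 1 (SL.cons 0 4 (SL.cons 0 1 (SL.cons 0 1 (SL.cons 0 1 (SL.cons 0 1 (SL.cons 0 2 SL.nil))))))) WtL.nil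
  (FamL.cons 1 77 10 331 43 16 0 (SL.cons 0 7 (SL.cons 0 1 (SL.cons 0 2 (SL.cons 0 2 (SL.cons 0 1 SL.nil))))) WtL.nil
  (FamL.cons 1 77 32 3005 1249 19 0 (SL.cons 0 2 (SL.cons 0 2 (SL.cons 0 2 (SL.cons 0 5 (SL.cons 0 1 SL.nil))))) WtL.nil
  (FamL.cons 1 77 45 535 313 3 0 (SL.cons 0 1 (SL.cons 0 1 (SL.cons 0 2 (SL.cons 0 2 (SL.cons 0 6 SL.nil))))) WtL.nil
  (FamL.cons 1 77 67 3209 2793 6 0 (SL.cons 0 1 (SL.cons 0 6 (SL.cons 0 1 (SL.cons 0 2 (SL.cons 0 3 SL.nil))))) WtL.nil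
  (FamL.cons 1 79 24 3321 1009 16 0 (SL.cons 0 3 (SL.cons 0 3 (SL.cons 0 2 (SL.cons 0 2 (SL.cons 0 1 SL.nil))))) WtL.nil
  (FamL.cons 1 79 55 311 217 6 0 (SL.cons 0 1 (SL.cons 0 2 (SL.cons 0 3 (SL.cons 0 2 (SL.cons 0 3 SL.nil))))) WtL.nil
  (FamL.cons 0 81 25 2407 743 19 0 (SL.cons 0 3 (SL.cons 0 4 (SL.cons 0 5 (SL.cons 0 1 SL.nil)))) WtL.nil
  (FamL.cons 0 81 56 1317 911 3 0 (SL.cons 0 1 (SL.cons 0 2 (SL.cons 0 4 (SL.cons 0 6 SL.nil)))) WtL.nil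
  FamL.nil))))))))))))))))))))))))))))

theorem LQ23_3_sv : LQ23_3.all (gSvO 23 (sieA1 23 0 4 4 20 34 12 11 5 11 12) (sieA1 23 0 4 4 20 34 12 11 5 11 12)) = true := by
  decide +kernel

theorem LQ23_3_nm : LQ23_3.all (gNmO 23 37 37) = true := by decide +kernel

theorem LQ23_3_cov : covO 23 LQ23_3 49 33 = true := by decide +kernel

/-- the families with 82 ≤ y < 101 -/
def LQ23_4 : FamL := (FamL.cons 1 82 33 1083 436 1 0 (SL.cons 0 2 (SL.cons 0 2 (SL.cons 0 16 SL.nil))) WtL.nil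
  (FamL.cons 1 82 49 801 479 21 0 (SL.cons 0 1 (SL.cons 0 1 (SL.cons 0 2 (SL.cons 0 15 (SL.cons 0 1 SL.nil))))) WtL.nil
  (FamL.cons 1 83 40 2475 1193 7 0 (SL.cons 0 2 (SL.cons 0 13 (SL.cons 0 3 SL.nil))) WtL.nil
  (FamL.cons 1 83 43 1341 695 15 0 (SL.cons 0 1 (SL.cons 0 1 (SL.cons 0 13 (SL.cons 0 2 (SL.cons 0 1 SL.nil))))) WtL.nil
  (FamL.cons 1 86 25 729 212 8 0 (SL.cons 0 3 (SL.cons 0 2 (SL.cons 0 3 (SL.cons 0 1 (SL.cons 0 2 SL.nil))))) WtL.nil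
  (FamL.cons 1 86 61 1247 885 14 0 (SL.cons 0 1 (SL.cons 0 2 (SL.cons 0 2 (SL.cons 0 3 (SL.cons 0 1 (SL.cons 0 1 (SL.cons 0 1 SL.nil))))))) WtL.nil
  (FamL.cons 0 87 8 1903 175 20 0 (SL.cons 0 10 (SL.cons 0 1 (SL.cons 0 6 (SL.cons 0 1 SL.nil)))) WtL.nil
  (FamL.cons 0 87 37 1013 431 12 0 (SL.cons 0 2 (SL.cons 0 2 (SL.cons 0 1 (SL.cons 0 5 (SL.cons 0 1 (SL.cons 0 1 SL.nil)))))) WtL.nil
  (FamL.cons 0 87 50 2987 1717 10 0 (SL.cons 0 1 (SL.cons 0 1 (SL.cons 0 2 (SL.cons 0 1 (SL.cons 0 5 (SL.cons 0 2 SL.nil)))))) WtL.nil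
  (FamL.cons 0 87 79 2097 1905 2 0 (SL.cons 0 1 (SL.cons 0 9 (SL.cons 0 1 (SL.cons 0 7 SL.nil)))) WtL.nil
  (FamL.cons 1 91 32 685 241 9 0 (SL.cons 0 2 (SL.cons 0 1 (SL.cons 0 5 (SL.cons 0 2 (SL.cons 0 2 SL.nil))))) WtL.nil
  (FamL.cons 1 91 45 2137 1057 22 0 (SL.cons 0 2 (SL.cons 0 44 (SL.cons 0 1 SL.nil))) WtL.nil
  (FamL.cons 1 91 46 2047 1035 0 0 (SL.cons 0 1 (SL.cons 0 1 (SL.cons 0 45 SL.nil))) WtL.nil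
  (FamL.cons 1 91 59 3499 2269 13 0 (SL.cons 0 1 (SL.cons 0 1 (SL.cons 0 1 (SL.cons 0 5 (SL.cons 0 2 (SL.cons 0 1 (SL.cons 0 1 SL.nil))))))) WtL.nil
  (FamL.cons 0 93 16 3993 687 7 0 (SL.cons 0 5 (SL.cons 0 1 (SL.cons 0 4 (SL.cons 0 3 SL.nil)))) WtL.nil
  (FamL.cons 0 93 46 2185 1081 0 0 (SL.cons 0 2 (SL.cons 0 46 SL.nil)) WtL.nil
  (FamL.cons 0 93 47 2091 1057 22 0 (SL.cons 0 1 (SL.cons 0 1 (SL.cons 0 45 (SL.cons 0 1 SL.nil)))) WtL.nil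
  (FamL.cons 0 93 77 283 235 15 0 (SL.cons 0 1 (SL.cons 0 4 (SL.cons 0 1 (SL.cons 0 4 (SL.cons 0 2 (SL.cons 0 1 SL.nil)))))) WtL.nil
  (FamL.cons 0 96 29 963 291 10 0 (SL.cons 0 3 (SL.cons 0 3 (SL.cons 0 4 (SL.cons 0 2 SL.nil)))) WtL.nil
  (FamL.cons 0 96 35 1489 543 20 0 (SL.cons 0 2 (SL.cons 0 1 (SL.cons 0 2 (SL.cons 0 1 (SL.cons 0 7 (SL.cons 0 1 SL.nil)))))) WtL.nil
  (FamL.cons 0 96 61 717 456 2 0 (SL.cons 0 1 (SL.cons 0 1 (SL.cons 0 1 (SL.cons 0 2 (SL.cons 0 1 (SL.cons 0 8 SL.nil)))))) WtL.nil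
  (FamL.cons 0 96 67 1243 868 12 0 (SL.cons 0 1 (SL.cons 0 2 (SL.cons 0 3 (SL.cons 0 4 (SL.cons 0 1 (SL.cons 0 1 SL.nil)))))) WtL.nil
  (FamL.cons 1 98 11 579 65 2 0 (SL.cons 0 8 (SL.cons 0 1 (SL.cons 0 10 SL.nil))) WtL.nil
  (FamL.cons 1 98 87 1673 1486 20 0 (SL.cons 0 1 (SL.cons 0 7 (SL.cons 0 1 (SL.cons 0 9 (SL.cons 0 1 SL.nil))))) WtL.nil
  FamL.nil))))))))))))))))))))))))

theorem LQ23_4_sv : LQ23_4.all (gSvO 23 (sieA1 23 0 4 4 20 34 12 11 5 11 12) (sieA1 23 0 4 4 20 34 12 11 5 11 12)) = true := by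
  decide +kernel

theorem LQ23_4_nm : LQ23_4.all (gNmO 23 37 37) = true := by decide +kernel

theorem LQ23_4_cov : covO 23 LQ23_4 82 19 = true := by decide +kernel

theorem one23 {d : ℕ} (F : FDO d 23 1) (hS : SolO d 23 1) : H419R2.tb LO d = true :=
  one_soundO (Tm := 2) (Tp := 1) (wm := (WtL.cons 1 3 0 (WtL.cons 3 7 2 WtL.nil))) (wp := (WtL.cons 3 3 0 WtL.nil))
    (by norm_num) (by norm_num) sb23_1 sb23_1 (by decide +kernel) (by decide +kernel)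
    (by decide +kernel) (by decide +kernel) (by decide +kernel) F hS

theorem all23 {d y : ℕ} (F : FDO d 23 y) (hS : SolO d 23 y) (h0 : 0 < y) (h60 : y ≤ 100) :
    H419R2.tb LO d = true := by
  have hP : Nat.Prime 23 := by norm_num
  by_cases h1 : y = 1
  · subst h1
    exact one23 F hS
  by_cases h1' : y < 27
  · exact chunk_soundO hP (by norm_num) sb23_1 sb23_1 LQ23_1_sv LQ23_1_nm LQ23_1_cov F hS (by omega) (by omega) (by omega)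
  by_cases h2' : y < 49
  · exact chunk_soundO hP (by norm_num) sb23_1 sb23_1 LQ23_2_sv LQ23_2_nm LQ23_2_cov F hS (by omega) (by omega) (by omega)
  by_cases h3' : y < 82
  · exact chunk_soundO hP (by norm_num) sb23_1 sb23_1 LQ23_3_sv LQ23_3_nm LQ23_3_cov F hS (by omega) (by omega) (by omega)
  exact chunk_soundO hP (by norm_num) sb23_1 sb23_1 LQ23_4_sv LQ23_4_nm LQ23_4_cov F hS (by omega) (by omega) (by omega)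

end Pool.Agent.H449
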