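import Pool.Agent.H449.O7

/-! Families for the prime 31. -/

set_option maxRecDepth 100000

namespace Pool.Agent.H449

/-- the families with 2 ≤ y < 19 -/
def LQ31_1 : FamL := (FamL.cons 1 2 1 61 23 15 1 (SL.cons 0 2 SL.nil) (WtL.cons 3 3 1 WtL.nil)
  (FamL.cons 1 3 1 175 55 10 0 (SL.cons 0 3 SL.nil) WtL.nil
  (FamL.cons 1 3 2 9 3 20 1 (SL.cons 0 1 (SL.cons 0 1 (SL.cons 0 1 SL.nil))) (WtL.cons 0 0 0 WtL.nil)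
  (FamL.cons 0 5 2 179 73 12 0 (SL.cons 0 2 (SL.cons 0 2 SL.nil)) WtL.nil
  (FamL.cons 0 5 3 129 79 18 0 (SL.cons 0 1 (SL.cons 0 1 (SL.cons 0 1 (SL.cons 0 1 SL.nil)))) WtL.nil
  (FamL.cons 1 5 1 291 57 6 0 (SL.cons 0 5 SL.nil) WtL.nil
  (FamL.cons 1 5 4 17 13 24 1 (SL.cons 0 1 (SL.cons 0 3 (SL.cons 0 1 SL.nil))) (WtL.cons 0 0 0 WtL.nil)
  (FamL.cons 1 6 1 41 6 5 2 (SL.cons 0 6 SL.nil) (WtL.cons 3 2 0 (WtL.cons 3 19 8 WtL.nil))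
  (FamL.cons 1 6 5 143 119 25 1 (SL.cons 0 1 (SL.cons 0 4 (SL.cons 0 1 SL.nil))) (WtL.cons 1 3 0 WtL.nil)
  (FamL.cons 0 7 2 57 17 13 1 (SL.cons 0 3 (SL.cons 0 2 SL.nil)) (WtL.cons 0 0 0 WtL.nil)
  (FamL.cons 0 7 5 375 269 17 0 (SL.cons 0 1 (SL.cons 0 2 (SL.cons 0 1 (SL.cons 0 1 SL.nil)))) WtL.nil
  (FamL.cons 0 8 3 193 73 19 0 (SL.cons 0 2 (SL.cons 0 1 (SL.cons 0 1 (SL.cons 0 1 SL.nil)))) WtL.nil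
  (FamL.cons 0 8 5 53 34 11 1 (SL.cons 0 1 (SL.cons 0 1 (SL.cons 0 1 (SL.cons 0 2 SL.nil)))) (WtL.cons 3 2 0 WtL.nil)
  (FamL.cons 1 9 2 375 83 17 0 (SL.cons 0 4 (SL.cons 0 1 (SL.cons 0 1 SL.nil))) WtL.nil
  (FamL.cons 1 9 7 181 141 13 0 (SL.cons 0 1 (SL.cons 0 3 (SL.cons 0 2 SL.nil))) WtL.nil
  (FamL.cons 1 10 1 223 22 3 1 (SL.cons 0 10 SL.nil) (WtL.cons 3 2 0 WtL.nil)
  (FamL.cons 1 10 9 85 77 27 1 (SL.cons 0 1 (SL.cons 0 8 (SL.cons 0 1 SL.nil))) (WtL.cons 1 3 0 WtL.nil)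
  (FamL.cons 1 11 3 239 65 11 0 (SL.cons 0 3 (SL.cons 0 1 (SL.cons 0 2 SL.nil))) WtL.nil
  (FamL.cons 1 11 8 441 321 19 0 (SL.cons 0 1 (SL.cons 0 2 (SL.cons 0 1 (SL.cons 0 1 (SL.cons 0 1 SL.nil))))) WtL.nil
  (FamL.cons 1 15 1 407 27 2 1 (SL.cons 0 15 SL.nil) (WtL.cons 3 3 0 WtL.nil)
  (FamL.cons 1 15 4 109 29 8 1 (SL.cons 0 3 (SL.cons 0 1 (SL.cons 0 3 SL.nil))) (WtL.cons 1 3 0 WtL.nil)
  (FamL.cons 1 15 11 819 601 22 0 (SL.cons 0 1 (SL.cons 0 2 (SL.cons 0 1 (SL.cons 0 2 (SL.cons 0 1 SL.nil))))) WtL.nil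
  (FamL.cons 1 15 14 521 487 28 1 (SL.cons 0 1 (SL.cons 0 13 (SL.cons 0 1 SL.nil))) (WtL.cons 3 5 1 WtL.nil)
  (FamL.cons 0 16 7 189 83 17 0 (SL.cons 0 2 (SL.cons 0 3 (SL.cons 0 1 (SL.cons 0 1 SL.nil)))) WtL.nil
  (FamL.cons 0 16 9 305 172 13 0 (SL.cons 0 1 (SL.cons 0 1 (SL.cons 0 3 (SL.cons 0 2 SL.nil)))) WtL.nil
  (FamL.cons 1 18 7 509 198 22 0 (SL.cons 0 2 (SL.cons 0 1 (SL.cons 0 1 (SL.cons 0 2 (SL.cons 0 1 SL.nil))))) WtL.nil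
  (FamL.cons 1 18 11 47 29 8 1 (SL.cons 0 1 (SL.cons 0 1 (SL.cons 0 1 (SL.cons 0 1 (SL.cons 0 3 SL.nil))))) (WtL.cons 1 5 0 WtL.nil)
  FamL.nil)))))))))))))))))))))))))))

theorem LQ31_1_sv : LQ31_1.all (gSvO 31 (sieA1 31 2 6 2 21 23 13 11 0 5 0) (sieA1 31 2 6 2 21 23 13 11 0 5 0)) = true := by
  decide +kernel

theorem LQ31_1_nm : LQ31_1.all (gNmO 31 37 37) = true := by decide +kernel

theorem LQ31_1_cov : covO 31 LQ31_1 2 17 = true := by decide +kernel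

/-- the families with 19 ≤ y < 41 -/
def LQ31_2 : FamL := (FamL.cons 0 19 8 301 127 11 0 (SL.cons 0 2 (SL.cons 0 2 (SL.cons 0 1 (SL.cons 0 2 SL.nil)))) WtL.nil
  (FamL.cons 0 19 11 875 507 19 0 (SL.cons 0 1 (SL.cons 0 1 (SL.cons 0 2 (SL.cons 0 1 (SL.cons 0 1 (SL.cons 0 1 SL.nil)))))) WtL.nil
  (FamL.cons 1 22 3 631 86 21 0 (SL.cons 0 7 (SL.cons 0 2 (SL.cons 0 1 SL.nil))) WtL.nil
  (FamL.cons 1 22 19 49 43 9 1 (SL.cons 0 1 (SL.cons 0 6 (SL.cons 0 3 SL.nil))) (WtL.cons 0 0 0 WtL.nil)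
  (FamL.cons 1 23 10 669 291 9 0 (SL.cons 0 2 (SL.cons 0 3 (SL.cons 0 3 SL.nil))) WtL.nil
  (FamL.cons 1 23 13 755 427 21 0 (SL.cons 0 1 (SL.cons 0 1 (SL.cons 0 3 (SL.cons 0 2 (SL.cons 0 1 SL.nil))))) WtL.nil
  (FamL.cons 0 25 12 1089 523 2 0 (SL.cons 0 2 (SL.cons 0 12 SL.nil)) WtL.nil
  (FamL.cons 0 25 13 459 239 28 1 (SL.cons 0 1 (SL.cons 0 1 (SL.cons 0 11 (SL.cons 0 1 SL.nil)))) (WtL.cons 3 13 1 WtL.nil)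
  (FamL.cons 1 25 9 747 269 17 0 (SL.cons 0 2 (SL.cons 0 1 (SL.cons 0 3 (SL.cons 0 1 (SL.cons 0 1 SL.nil))))) WtL.nil
  (FamL.cons 1 25 16 801 513 13 0 (SL.cons 0 1 (SL.cons 0 1 (SL.cons 0 1 (SL.cons 0 3 (SL.cons 0 2 SL.nil))))) WtL.nil
  (FamL.cons 1 27 2 311 23 16 1 (SL.cons 0 13 (SL.cons 0 1 (SL.cons 0 1 SL.nil))) (WtL.cons 1 3 0 WtL.nil)
  (FamL.cons 1 27 25 1361 1261 14 0 (SL.cons 0 1 (SL.cons 0 12 (SL.cons 0 2 SL.nil))) WtL.nil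
  (FamL.cons 1 30 1 901 30 1 1 (SL.cons 0 30 SL.nil) (WtL.cons 3 2 0 WtL.nil)
  (FamL.cons 1 30 11 177 65 11 0 (SL.cons 0 2 (SL.cons 0 1 (SL.cons 0 2 (SL.cons 0 1 (SL.cons 0 2 SL.nil))))) WtL.nil
  (FamL.cons 1 30 19 751 476 19 0 (SL.cons 0 1 (SL.cons 0 1 (SL.cons 0 1 (SL.cons 0 2 (SL.cons 0 1 (SL.cons 0 1 (SL.cons 0 1 SL.nil))))))) WtL.nil
  (FamL.cons 1 30 29 27 27 29 2 (SL.cons 0 1 (SL.cons 0 28 (SL.cons 0 1 SL.nil))) (WtL.cons 1 3 0 (WtL.cons 3 2 0 WtL.nil))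
  (FamL.cons 0 32 1 959 30 30 1 (SL.cons 0 31 (SL.cons 0 1 SL.nil)) (WtL.cons 3 2 0 WtL.nil)
  (FamL.cons 0 32 31 31 31 0 2 (SL.cons 0 1 (SL.cons 0 31 SL.nil)) (WtL.cons 2 1 31 (WtL.cons 3 2 0 WtL.nil))
  (FamL.cons 1 33 8 829 201 27 0 (SL.cons 0 4 (SL.cons 0 7 (SL.cons 0 1 SL.nil))) WtL.nil
  (FamL.cons 1 33 14 761 323 24 0 (SL.cons 0 2 (SL.cons 0 2 (SL.cons 0 1 (SL.cons 0 3 (SL.cons 0 1 SL.nil))))) WtL.nil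
  (FamL.cons 1 33 19 1283 739 6 0 (SL.cons 0 1 (SL.cons 0 1 (SL.cons 0 2 (SL.cons 0 1 (SL.cons 0 4 SL.nil))))) WtL.nil
  (FamL.cons 1 33 25 1215 921 3 0 (SL.cons 0 1 (SL.cons 0 3 (SL.cons 0 8 SL.nil))) WtL.nil
  (FamL.cons 0 35 2 1487 85 15 0 (SL.cons 0 17 (SL.cons 0 2 SL.nil)) WtL.nil
  (FamL.cons 0 35 12 335 115 28 1 (SL.cons 0 2 (SL.cons 0 1 (SL.cons 0 10 (SL.cons 0 1 SL.nil)))) (WtL.cons 3 5 0 WtL.nil)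
  (FamL.cons 0 35 23 1833 1205 2 0 (SL.cons 0 1 (SL.cons 0 1 (SL.cons 0 1 (SL.cons 0 11 SL.nil)))) WtL.nil
  (FamL.cons 0 35 33 681 643 15 0 (SL.cons 0 1 (SL.cons 0 16 (SL.cons 0 1 (SL.cons 0 1 SL.nil)))) WtL.nil
  (FamL.cons 0 40 3 733 55 10 0 (SL.cons 0 13 (SL.cons 0 3 SL.nil)) WtL.nil
  (FamL.cons 0 40 13 655 213 2 0 (SL.cons 0 3 (SL.cons 0 13 SL.nil)) WtL.nil
  (FamL.cons 0 40 27 583 394 28 0 (SL.cons 0 1 (SL.cons 0 2 (SL.cons 0 12 (SL.cons 0 1 SL.nil)))) WtL.nil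
  (FamL.cons 0 40 37 505 468 20 0 (SL.cons 0 1 (SL.cons 0 12 (SL.cons 0 2 (SL.cons 0 1 SL.nil)))) WtL.nil
  FamL.nil))))))))))))))))))))))))))))))

theorem LQ31_2_sv : LQ31_2.all (gSvO 31 (sieA1 31 2 6 2 21 23 13 11 0 5 0) (sieA1 31 2 6 2 21 23 13 11 0 5 0)) = true := by
  decide +kernel

theorem LQ31_2_nm : LQ31_2.all (gNmO 31 37 37) = true := by decide +kernel

theorem LQ31_2_cov : covO 31 LQ31_2 19 22 = true := by decide +kernel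

/-- the families with 41 ≤ y < 57 -/
def LQ31_3 : FamL := (FamL.cons 0 41 16 1801 703 17 0 (SL.cons 0 2 (SL.cons 0 1 (SL.cons 0 1 (SL.cons 0 3 (SL.cons 0 1 (SL.cons 0 1 SL.nil)))))) WtL.nil
  (FamL.cons 0 41 25 739 451 13 0 (SL.cons 0 1 (SL.cons 0 1 (SL.cons 0 1 (SL.cons 0 1 (SL.cons 0 3 (SL.cons 0 2 SL.nil)))))) WtL.nil
  (FamL.cons 1 41 20 1453 709 29 0 (SL.cons 0 2 (SL.cons 0 19 (SL.cons 0 1 SL.nil))) WtL.nil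
  (FamL.cons 1 41 21 1087 557 1 0 (SL.cons 0 1 (SL.cons 0 1 (SL.cons 0 20 SL.nil))) WtL.nil
  (FamL.cons 1 43 17 1449 573 27 0 (SL.cons 0 2 (SL.cons 0 1 (SL.cons 0 1 (SL.cons 0 7 (SL.cons 0 1 SL.nil))))) WtL.nil
  (FamL.cons 1 43 26 1215 735 3 0 (SL.cons 0 1 (SL.cons 0 1 (SL.cons 0 1 (SL.cons 0 1 (SL.cons 0 8 SL.nil))))) WtL.nil
  (FamL.cons 1 45 11 2753 673 28 0 (SL.cons 0 4 (SL.cons 0 10 (SL.cons 0 1 SL.nil))) WtL.nil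
  (FamL.cons 1 45 16 1375 489 21 0 (SL.cons 0 2 (SL.cons 0 1 (SL.cons 0 4 (SL.cons 0 2 (SL.cons 0 1 SL.nil))))) WtL.nil
  (FamL.cons 1 45 29 1413 911 9 0 (SL.cons 0 1 (SL.cons 0 1 (SL.cons 0 1 (SL.cons 0 4 (SL.cons 0 3 SL.nil))))) WtL.nil
  (FamL.cons 1 45 34 35 27 2 1 (SL.cons 0 1 (SL.cons 0 3 (SL.cons 0 11 SL.nil))) (WtL.cons 0 0 0 WtL.nil)
  (FamL.cons 1 46 13 21 6 26 1 (SL.cons 0 3 (SL.cons 0 1 (SL.cons 0 1 (SL.cons 0 5 (SL.cons 0 1 SL.nil))))) (WtL.cons 0 0 0 WtL.nil)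
  (FamL.cons 1 46 33 1403 1007 4 0 (SL.cons 0 1 (SL.cons 0 2 (SL.cons 0 1 (SL.cons 0 1 (SL.cons 0 6 SL.nil))))) WtL.nil
  (FamL.cons 0 47 4 1069 91 23 0 (SL.cons 0 11 (SL.cons 0 1 (SL.cons 0 2 (SL.cons 0 1 SL.nil)))) WtL.nil
  (FamL.cons 0 47 43 1843 1687 7 0 (SL.cons 0 1 (SL.cons 0 10 (SL.cons 0 1 (SL.cons 0 3 SL.nil)))) WtL.nil
  (FamL.cons 0 49 19 487 189 11 0 (SL.cons 0 2 (SL.cons 0 1 (SL.cons 0 1 (SL.cons 0 2 (SL.cons 0 1 (SL.cons 0 2 SL.nil)))))) WtL.nil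
  (FamL.cons 0 49 30 2549 1561 19 0 (SL.cons 0 1 (SL.cons 0 1 (SL.cons 0 1 (SL.cons 0 1 (SL.cons 0 2 (SL.cons 0 1 (SL.cons 0 1 (SL.cons 0 1 SL.nil)))))))) WtL.nil
  (FamL.cons 1 50 9 761 137 24 0 (SL.cons 0 5 (SL.cons 0 1 (SL.cons 0 1 (SL.cons 0 3 (SL.cons 0 1 SL.nil))))) WtL.nil
  (FamL.cons 1 50 41 787 646 6 0 (SL.cons 0 1 (SL.cons 0 4 (SL.cons 0 1 (SL.cons 0 1 (SL.cons 0 4 SL.nil))))) WtL.nil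
  (FamL.cons 1 54 25 1099 509 7 0 (SL.cons 0 2 (SL.cons 0 6 (SL.cons 0 4 SL.nil))) WtL.nil
  (FamL.cons 1 54 29 573 308 23 0 (SL.cons 0 1 (SL.cons 0 1 (SL.cons 0 6 (SL.cons 0 3 (SL.cons 0 1 SL.nil))))) WtL.nil
  (FamL.cons 1 55 14 593 151 2 0 (SL.cons 0 3 (SL.cons 0 1 (SL.cons 0 13 SL.nil))) WtL.nil
  (FamL.cons 1 55 19 1861 643 16 0 (SL.cons 0 2 (SL.cons 0 1 (SL.cons 0 8 (SL.cons 0 1 (SL.cons 0 1 SL.nil))))) WtL.nil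
  (FamL.cons 1 55 36 1547 1013 14 0 (SL.cons 0 1 (SL.cons 0 1 (SL.cons 0 1 (SL.cons 0 8 (SL.cons 0 2 SL.nil))))) WtL.nil
  (FamL.cons 1 55 41 2815 2099 28 0 (SL.cons 0 1 (SL.cons 0 2 (SL.cons 0 1 (SL.cons 0 12 (SL.cons 0 1 SL.nil))))) WtL.nil
  (FamL.cons 0 56 5 291 26 6 1 (SL.cons 0 11 (SL.cons 0 5 SL.nil)) (WtL.cons 3 2 0 WtL.nil)
  (FamL.cons 0 56 19 1267 430 29 0 (SL.cons 0 2 (SL.cons 0 1 (SL.cons 0 17 (SL.cons 0 1 SL.nil)))) WtL.nil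
  (FamL.cons 0 56 37 467 309 1 1 (SL.cons 0 1 (SL.cons 0 1 (SL.cons 0 1 (SL.cons 0 18 SL.nil)))) (WtL.cons 1 5 0 WtL.nil)
  (FamL.cons 0 56 51 1443 1315 24 0 (SL.cons 0 1 (SL.cons 0 10 (SL.cons 0 4 (SL.cons 0 1 SL.nil)))) WtL.nil
  FamL.nil))))))))))))))))))))))))))))

theorem LQ31_3_sv : LQ31_3.all (gSvO 31 (sieA1 31 2 6 2 21 23 13 11 0 5 0) (sieA1 31 2 6 2 21 23 13 11 0 5 0)) = true := by
  decide +kernel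

theorem LQ31_3_nm : LQ31_3.all (gNmO 31 37 37) = true := by decide +kernel

theorem LQ31_3_cov : covO 31 LQ31_3 41 16 = true := by decide +kernel

/-- the families with 57 ≤ y < 82 -/
def LQ31_4 : FamL := (FamL.cons 0 59 21 2649 943 7 0 (SL.cons 0 2 (SL.cons 0 1 (SL.cons 0 4 (SL.cons 0 4 SL.nil)))) WtL.nil
  (FamL.cons 0 59 38 1007 649 23 0 (SL.cons 0 1 (SL.cons 0 1 (SL.cons 0 1 (SL.cons 0 4 (SL.cons 0 3 (SL.cons 0 1 SL.nil)))))) WtL.nil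
  (FamL.cons 0 64 17 1099 292 7 0 (SL.cons 0 3 (SL.cons 0 1 (SL.cons 0 3 (SL.cons 0 4 SL.nil)))) WtL.nil
  (FamL.cons 0 64 47 883 649 23 0 (SL.cons 0 1 (SL.cons 0 2 (SL.cons 0 1 (SL.cons 0 3 (SL.cons 0 3 (SL.cons 0 1 SL.nil)))))) WtL.nil
  (FamL.cons 1 66 19 1153 332 3 0 (SL.cons 0 3 (SL.cons 0 2 (SL.cons 0 9 SL.nil))) WtL.nil
  (FamL.cons 1 66 25 1119 424 17 0 (SL.cons 0 2 (SL.cons 0 1 (SL.cons 0 1 (SL.cons 0 1 (SL.cons 0 3 (SL.cons 0 1 (SL.cons 0 1 SL.nil))))))) WtL.nil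
  (FamL.cons 1 66 41 925 575 13 0 (SL.cons 0 1 (SL.cons 0 1 (SL.cons 0 1 (SL.cons 0 1 (SL.cons 0 1 (SL.cons 0 3 (SL.cons 0 2 SL.nil))))))) WtL.nil
  (FamL.cons 1 66 47 891 635 27 0 (SL.cons 0 1 (SL.cons 0 2 (SL.cons 0 2 (SL.cons 0 8 (SL.cons 0 1 SL.nil))))) WtL.nil
  (FamL.cons 0 67 6 413 37 5 1 (SL.cons 0 11 (SL.cons 0 6 SL.nil)) (WtL.cons 3 7 3 WtL.nil)
  (FamL.cons 0 67 61 3739 3405 25 0 (SL.cons 0 1 (SL.cons 0 10 (SL.cons 0 5 (SL.cons 0 1 SL.nil)))) WtL.nil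
  (FamL.cons 1 69 10 1649 239 3 0 (SL.cons 0 6 (SL.cons 0 1 (SL.cons 0 9 SL.nil))) WtL.nil
  (FamL.cons 1 69 13 727 137 7 0 (SL.cons 0 5 (SL.cons 0 3 (SL.cons 0 4 SL.nil))) WtL.nil
  (FamL.cons 1 69 56 3549 2881 23 0 (SL.cons 0 1 (SL.cons 0 4 (SL.cons 0 3 (SL.cons 0 3 (SL.cons 0 1 SL.nil))))) WtL.nil
  (FamL.cons 1 69 59 2627 2247 27 0 (SL.cons 0 1 (SL.cons 0 5 (SL.cons 0 1 (SL.cons 0 8 (SL.cons 0 1 SL.nil))))) WtL.nil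
  (FamL.cons 0 71 18 1329 337 29 0 (SL.cons 0 3 (SL.cons 0 1 (SL.cons 0 16 (SL.cons 0 1 SL.nil)))) WtL.nil
  (FamL.cons 0 71 53 3071 2293 1 0 (SL.cons 0 1 (SL.cons 0 2 (SL.cons 0 1 (SL.cons 0 17 SL.nil)))) WtL.nil
  (FamL.cons 1 75 16 267 57 25 0 (SL.cons 0 4 (SL.cons 0 1 (SL.cons 0 2 (SL.cons 0 4 (SL.cons 0 1 SL.nil))))) WtL.nil
  (FamL.cons 1 75 34 765 347 26 0 (SL.cons 0 2 (SL.cons 0 4 (SL.cons 0 1 (SL.cons 0 5 (SL.cons 0 1 SL.nil))))) WtL.nil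
  (FamL.cons 1 75 41 3883 2123 4 0 (SL.cons 0 1 (SL.cons 0 1 (SL.cons 0 4 (SL.cons 0 1 (SL.cons 0 6 SL.nil))))) WtL.nil
  (FamL.cons 1 75 59 4381 3447 5 0 (SL.cons 0 1 (SL.cons 0 3 (SL.cons 0 1 (SL.cons 0 2 (SL.cons 0 5 SL.nil))))) WtL.nil
  (FamL.cons 1 79 30 4579 1739 11 0 (SL.cons 0 2 (SL.cons 0 1 (SL.cons 0 1 (SL.cons 0 1 (SL.cons 0 2 (SL.cons 0 1 (SL.cons 0 2 SL.nil))))))) WtL.nil
  (FamL.cons 1 79 49 317 197 19 0 (SL.cons 0 1 (SL.cons 0 1 (SL.cons 0 1 (SL.cons 0 1 (SL.cons 0 1 (SL.cons 0 2 (SL.cons 0 1 (SL.cons 0 1 (SL.cons 0 1 SL.nil))))))))) WtL.nil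
  (FamL.cons 0 80 7 137 12 22 1 (SL.cons 0 11 (SL.cons 0 2 (SL.cons 0 2 (SL.cons 0 1 SL.nil)))) (WtL.cons 3 2 0 WtL.nil)
  (FamL.cons 0 80 23 831 239 28 0 (SL.cons 0 3 (SL.cons 0 2 (SL.cons 0 10 (SL.cons 0 1 SL.nil)))) WtL.nil
  (FamL.cons 0 80 57 1647 1174 2 0 (SL.cons 0 1 (SL.cons 0 2 (SL.cons 0 2 (SL.cons 0 11 SL.nil)))) WtL.nil
  (FamL.cons 0 80 73 2341 2137 8 0 (SL.cons 0 1 (SL.cons 0 10 (SL.cons 0 2 (SL.cons 0 3 SL.nil)))) WtL.nil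
  (FamL.cons 1 81 29 103 37 5 1 (SL.cons 0 2 (SL.cons 0 1 (SL.cons 0 3 (SL.cons 0 1 (SL.cons 0 5 SL.nil))))) (WtL.cons 0 0 0 WtL.nil)
  (FamL.cons 1 81 52 4917 3157 25 0 (SL.cons 0 1 (SL.cons 0 1 (SL.cons 0 1 (SL.cons 0 3 (SL.cons 0 1 (SL.cons 0 4 (SL.cons 0 1 SL.nil))))))) WtL.nil
  FamL.nil))))))))))))))))))))))))))))

theorem LQ31_4_sv : LQ31_4.all (gSvO 31 (sieA1 31 2 6 2 21 23 13 11 0 5 0) (sieA1 31 2 6 2 21 23 13 11 0 5 0)) = true := by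
  decide +kernel

theorem LQ31_4_nm : LQ31_4.all (gNmO 31 37 37) = true := by decide +kernel

theorem LQ31_4_cov : covO 31 LQ31_4 57 25 = true := by decide +kernel

/-- the families with 82 ≤ y < 101 -/
def LQ31_5 : FamL := (FamL.cons 1 82 21 1179 302 16 0 (SL.cons 0 3 (SL.cons 0 1 (SL.cons 0 9 (SL.cons 0 1 (SL.cons 0 1 SL.nil))))) WtL.nil
  (FamL.cons 1 82 61 1361 1013 14 0 (SL.cons 0 1 (SL.cons 0 2 (SL.cons 0 1 (SL.cons 0 9 (SL.cons 0 2 SL.nil))))) WtL.nil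
  (FamL.cons 1 83 23 3179 881 24 0 (SL.cons 0 3 (SL.cons 0 1 (SL.cons 0 1 (SL.cons 0 1 (SL.cons 0 1 (SL.cons 0 3 (SL.cons 0 1 SL.nil))))))) WtL.nil
  (FamL.cons 1 83 60 1965 1421 6 0 (SL.cons 0 1 (SL.cons 0 2 (SL.cons 0 1 (SL.cons 0 1 (SL.cons 0 1 (SL.cons 0 1 (SL.cons 0 4 SL.nil))))))) WtL.nil
  (FamL.cons 1 86 17 1391 275 29 0 (SL.cons 0 5 (SL.cons 0 16 (SL.cons 0 1 SL.nil))) WtL.nil
  (FamL.cons 1 86 69 1273 1022 1 0 (SL.cons 0 1 (SL.cons 0 4 (SL.cons 0 17 SL.nil))) WtL.nil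
  (FamL.cons 1 90 11 679 83 14 0 (SL.cons 0 8 (SL.cons 0 5 (SL.cons 0 2 SL.nil))) WtL.nil
  (FamL.cons 1 90 29 9 3 20 1 (SL.cons 0 3 (SL.cons 0 9 (SL.cons 0 1 (SL.cons 0 1 (SL.cons 0 1 SL.nil))))) (WtL.cons 2 3 31 WtL.nil)
  (FamL.cons 1 90 61 2779 1884 10 0 (SL.cons 0 1 (SL.cons 0 2 (SL.cons 0 9 (SL.cons 0 1 (SL.cons 0 2 SL.nil))))) WtL.nil
  (FamL.cons 1 90 79 2109 1852 16 0 (SL.cons 0 1 (SL.cons 0 7 (SL.cons 0 5 (SL.cons 0 1 (SL.cons 0 1 SL.nil))))) WtL.nil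
  (FamL.cons 0 95 8 3123 263 27 0 (SL.cons 0 11 (SL.cons 0 1 (SL.cons 0 6 (SL.cons 0 1 SL.nil)))) WtL.nil
  (FamL.cons 0 95 27 531 151 2 0 (SL.cons 0 3 (SL.cons 0 1 (SL.cons 0 1 (SL.cons 0 13 SL.nil)))) WtL.nil
  (FamL.cons 0 95 68 5357 3835 28 0 (SL.cons 0 1 (SL.cons 0 2 (SL.cons 0 1 (SL.cons 0 1 (SL.cons 0 12 (SL.cons 0 1 SL.nil)))))) WtL.nil
  (FamL.cons 0 95 87 2765 2533 3 0 (SL.cons 0 1 (SL.cons 0 10 (SL.cons 0 1 (SL.cons 0 7 SL.nil)))) WtL.nil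
  (FamL.cons 0 97 39 1763 709 29 0 (SL.cons 0 2 (SL.cons 0 2 (SL.cons 0 18 (SL.cons 0 1 SL.nil)))) WtL.nil
  (FamL.cons 0 97 58 4249 2541 1 0 (SL.cons 0 1 (SL.cons 0 1 (SL.cons 0 2 (SL.cons 0 19 SL.nil)))) WtL.nil
  (FamL.cons 1 97 15 5309 821 4 0 (SL.cons 0 6 (SL.cons 0 2 (SL.cons 0 7 SL.nil))) WtL.nil
  (FamL.cons 1 97 82 703 595 26 0 (SL.cons 0 1 (SL.cons 0 5 (SL.cons 0 2 (SL.cons 0 6 (SL.cons 0 1 SL.nil))))) WtL.nil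
  (FamL.cons 1 99 25 2451 619 1 0 (SL.cons 0 3 (SL.cons 0 1 (SL.cons 0 24 SL.nil))) WtL.nil
  (FamL.cons 1 99 47 4345 2063 18 0 (SL.cons 0 2 (SL.cons 0 9 (SL.cons 0 2 (SL.cons 0 1 (SL.cons 0 1 SL.nil))))) WtL.nil
  (FamL.cons 1 99 52 1791 941 12 0 (SL.cons 0 1 (SL.cons 0 1 (SL.cons 0 9 (SL.cons 0 2 (SL.cons 0 2 SL.nil))))) WtL.nil
  (FamL.cons 1 99 74 3685 2755 29 0 (SL.cons 0 1 (SL.cons 0 2 (SL.cons 0 1 (SL.cons 0 23 (SL.cons 0 1 SL.nil))))) WtL.nil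
  FamL.nil))))))))))))))))))))))

theorem LQ31_5_sv : LQ31_5.all (gSvO 31 (sieA1 31 2 6 2 21 23 13 11 0 5 0) (sieA1 31 2 6 2 21 23 13 11 0 5 0)) = true := by
  decide +kernel

theorem LQ31_5_nm : LQ31_5.all (gNmO 31 37 37) = true := by decide +kernel

theorem LQ31_5_cov : covO 31 LQ31_5 82 19 = true := by decide +kernel

theorem one31 {d : ℕ} (F : FDO d 31 1) (hS : SolO d 31 1) : H419R2.tb LO d = true :=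
  one_soundO (Tm := 1) (Tp := 0) (wm := (WtL.cons 3 5 2 WtL.nil)) (wp := WtL.nil)
    (by norm_num) (by norm_num) sb31_1 sb31_1 (by decide +kernel) (by decide +kernel)
    (by decide +kernel) (by decide +kernel) (by decide +kernel) F hS

theorem all31 {d y : ℕ} (F : FDO d 31 y) (hS : SolO d 31 y) (h0 : 0 < y) (h60 : y ≤ 100) :
    H419R2.tb LO d = true := by
  have hP : Nat.Prime 31 := by norm_num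
  by_cases h1 : y = 1
  · subst h1
    exact one31 F hS
  by_cases h1' : y < 19
  · exact chunk_soundO hP (by norm_num) sb31_1 sb31_1 LQ31_1_sv LQ31_1_nm LQ31_1_cov F hS (by omega) (by omega) (by omega)
  by_cases h2' : y < 41
  · exact chunk_soundO hP (by norm_num) sb31_1 sb31_1 LQ31_2_sv LQ31_2_nm LQ31_2_cov F hS (by omega) (by omega) (by omega)
  by_cases h3' : y < 57
  · exact chunk_soundO hP (by norm_num) sb31_1 sb31_1 LQ31_3_sv LQ31_3_nm LQ31_3_cov F hS (by omega) (by omega) (by omega)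
  by_cases h4' : y < 82
  · exact chunk_soundO hP (by norm_num) sb31_1 sb31_1 LQ31_4_sv LQ31_4_nm LQ31_4_cov F hS (by omega) (by omega) (by omega)
  exact chunk_soundO hP (by norm_num) sb31_1 sb31_1 LQ31_5_sv LQ31_5_nm LQ31_5_cov F hS (by omega) (by omega) (by omega)

end Pool.Agent.H449
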