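import Pool.Agent.H449.O7

/-! Families for the prime 43. -/

set_option maxRecDepth 100000

namespace Pool.Agent.H449

/-- the families with 2 ≤ y < 22 -/
def LQ43_1 : FamL := (FamL.cons 1 2 1 85 32 21 1 (SL.cons 0 2 SL.nil) (WtL.cons 1 3 0 WtL.nil)
  (FamL.cons 1 3 1 71 19 14 1 (SL.cons 0 3 SL.nil) (WtL.cons 3 7 3 WtL.nil)
  (FamL.cons 1 3 2 185 119 28 0 (SL.cons 0 1 (SL.cons 0 1 (SL.cons 0 1 SL.nil))) WtL.nil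
  (FamL.cons 0 4 1 21 8 32 1 (SL.cons 0 3 (SL.cons 0 1 SL.nil)) (WtL.cons 0 0 0 WtL.nil)
  (FamL.cons 0 4 3 149 115 10 1 (SL.cons 0 1 (SL.cons 0 3 SL.nil)) (WtL.cons 3 5 0 WtL.nil)
  (FamL.cons 1 6 1 229 37 7 1 (SL.cons 0 6 SL.nil) (WtL.cons 3 5 2 WtL.nil)
  (FamL.cons 1 6 5 27 22 35 1 (SL.cons 0 1 (SL.cons 0 4 (SL.cons 0 1 SL.nil))) (WtL.cons 0 0 0 WtL.nil)
  (FamL.cons 1 7 1 55 7 6 1 (SL.cons 0 7 SL.nil) (WtL.cons 0 0 0 WtL.nil)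
  (FamL.cons 1 7 6 545 467 36 0 (SL.cons 0 1 (SL.cons 0 5 (SL.cons 0 1 SL.nil))) WtL.nil
  (FamL.cons 1 9 4 453 201 33 0 (SL.cons 0 2 (SL.cons 0 3 (SL.cons 0 1 SL.nil))) WtL.nil
  (FamL.cons 1 9 5 319 177 9 0 (SL.cons 0 1 (SL.cons 0 1 (SL.cons 0 4 SL.nil))) WtL.nil
  (FamL.cons 0 11 1 293 27 39 1 (SL.cons 0 10 (SL.cons 0 1 SL.nil)) (WtL.cons 3 3 0 WtL.nil)
  (FamL.cons 0 11 10 651 593 3 0 (SL.cons 0 1 (SL.cons 0 10 SL.nil)) WtL.nil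
  (FamL.cons 0 13 3 757 175 13 0 (SL.cons 0 4 (SL.cons 0 3 SL.nil)) WtL.nil
  (FamL.cons 0 13 10 359 277 29 0 (SL.cons 0 1 (SL.cons 0 3 (SL.cons 0 2 (SL.cons 0 1 SL.nil)))) WtL.nil
  (FamL.cons 1 13 2 1035 159 23 0 (SL.cons 0 6 (SL.cons 0 1 (SL.cons 0 1 SL.nil))) WtL.nil
  (FamL.cons 1 13 11 81 69 19 1 (SL.cons 0 1 (SL.cons 0 5 (SL.cons 0 2 SL.nil))) (WtL.cons 3 3 0 WtL.nil)
  (FamL.cons 1 14 1 479 34 3 1 (SL.cons 0 14 SL.nil) (WtL.cons 3 2 0 WtL.nil)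
  (FamL.cons 1 14 13 121 113 39 1 (SL.cons 0 1 (SL.cons 0 12 (SL.cons 0 1 SL.nil))) (WtL.cons 1 3 0 WtL.nil)
  (FamL.cons 0 17 5 1383 407 25 0 (SL.cons 0 3 (SL.cons 0 2 (SL.cons 0 1 (SL.cons 0 1 SL.nil)))) WtL.nil
  (FamL.cons 0 17 12 77 55 17 1 (SL.cons 0 1 (SL.cons 0 2 (SL.cons 0 2 (SL.cons 0 2 SL.nil)))) (WtL.cons 3 5 0 WtL.nil)
  (FamL.cons 1 17 3 675 119 15 0 (SL.cons 0 5 (SL.cons 0 1 (SL.cons 0 2 SL.nil))) WtL.nil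
  (FamL.cons 1 17 14 785 647 27 0 (SL.cons 0 1 (SL.cons 0 4 (SL.cons 0 1 (SL.cons 0 1 (SL.cons 0 1 SL.nil))))) WtL.nil
  (FamL.cons 1 18 5 353 98 26 0 (SL.cons 0 3 (SL.cons 0 1 (SL.cons 0 1 (SL.cons 0 1 (SL.cons 0 1 SL.nil))))) WtL.nil
  (FamL.cons 1 18 13 419 303 16 0 (SL.cons 0 1 (SL.cons 0 2 (SL.cons 0 1 (SL.cons 0 1 (SL.cons 0 2 SL.nil))))) WtL.nil
  (FamL.cons 1 19 9 1581 749 38 0 (SL.cons 0 2 (SL.cons 0 8 (SL.cons 0 1 SL.nil))) WtL.nil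
  (FamL.cons 1 19 10 51 27 4 1 (SL.cons 0 1 (SL.cons 0 1 (SL.cons 0 9 SL.nil))) (WtL.cons 1 3 0 WtL.nil)
  (FamL.cons 1 21 1 821 39 2 0 (SL.cons 0 21 SL.nil) WtL.nil
  (FamL.cons 1 21 8 1021 389 16 0 (SL.cons 0 2 (SL.cons 0 1 (SL.cons 0 1 (SL.cons 0 1 (SL.cons 0 2 SL.nil))))) WtL.nil
  (FamL.cons 1 21 13 783 485 26 0 (SL.cons 0 1 (SL.cons 0 1 (SL.cons 0 1 (SL.cons 0 1 (SL.cons 0 1 (SL.cons 0 1 (SL.cons 0 1 SL.nil))))))) WtL.nil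
  (FamL.cons 1 21 20 983 937 40 0 (SL.cons 0 1 (SL.cons 0 19 (SL.cons 0 1 SL.nil))) WtL.nil
  FamL.nil)))))))))))))))))))))))))))))))

theorem LQ43_1_sv : LQ43_1.all (gSvO 43 (sieA1 43 7 2 9 18 17 6 4 12 6 4) (sieA1 43 7 2 9 18 17 6 4 12 6 4)) = true := by
  decide +kernel

theorem LQ43_1_nm : LQ43_1.all (gNmO 43 37 37) = true := by decide +kernel

theorem LQ43_1_cov : covO 43 LQ43_1 2 20 = true := by decide +kernel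

/-- the families with 22 ≤ y < 50 -/
def LQ43_2 : FamL := (FamL.cons 0 23 7 1639 499 24 0 (SL.cons 0 3 (SL.cons 0 3 (SL.cons 0 1 (SL.cons 0 1 SL.nil)))) WtL.nil
  (FamL.cons 0 23 16 337 235 18 0 (SL.cons 0 1 (SL.cons 0 2 (SL.cons 0 3 (SL.cons 0 2 SL.nil)))) WtL.nil
  (FamL.cons 1 26 11 879 372 31 0 (SL.cons 0 2 (SL.cons 0 2 (SL.cons 0 1 (SL.cons 0 2 (SL.cons 0 1 SL.nil))))) WtL.nil
  (FamL.cons 1 26 15 237 137 11 0 (SL.cons 0 1 (SL.cons 0 1 (SL.cons 0 2 (SL.cons 0 1 (SL.cons 0 3 SL.nil))))) WtL.nil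
  (FamL.cons 1 27 4 925 137 11 0 (SL.cons 0 6 (SL.cons 0 1 (SL.cons 0 3 SL.nil))) WtL.nil
  (FamL.cons 1 27 23 1395 1189 31 0 (SL.cons 0 1 (SL.cons 0 5 (SL.cons 0 1 (SL.cons 0 2 (SL.cons 0 1 SL.nil))))) WtL.nil
  (FamL.cons 0 31 9 2173 631 33 0 (SL.cons 0 3 (SL.cons 0 2 (SL.cons 0 3 (SL.cons 0 1 SL.nil)))) WtL.nil
  (FamL.cons 0 31 22 491 349 9 0 (SL.cons 0 1 (SL.cons 0 2 (SL.cons 0 2 (SL.cons 0 4 SL.nil)))) WtL.nil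
  (FamL.cons 1 34 3 703 62 29 0 (SL.cons 0 11 (SL.cons 0 2 (SL.cons 0 1 SL.nil))) WtL.nil
  (FamL.cons 1 34 31 757 691 13 0 (SL.cons 0 1 (SL.cons 0 10 (SL.cons 0 3 SL.nil))) WtL.nil
  (FamL.cons 1 38 9 1199 284 19 0 (SL.cons 0 4 (SL.cons 0 4 (SL.cons 0 2 SL.nil))) WtL.nil
  (FamL.cons 1 38 29 433 331 23 0 (SL.cons 0 1 (SL.cons 0 3 (SL.cons 0 4 (SL.cons 0 1 (SL.cons 0 1 SL.nil))))) WtL.nil
  (FamL.cons 1 39 2 1463 75 22 0 (SL.cons 0 19 (SL.cons 0 1 (SL.cons 0 1 SL.nil))) WtL.nil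
  (FamL.cons 1 39 11 1145 323 35 0 (SL.cons 0 3 (SL.cons 0 1 (SL.cons 0 1 (SL.cons 0 4 (SL.cons 0 1 SL.nil))))) WtL.nil
  (FamL.cons 1 39 28 2207 1585 7 0 (SL.cons 0 1 (SL.cons 0 2 (SL.cons 0 1 (SL.cons 0 1 (SL.cons 0 5 SL.nil))))) WtL.nil
  (FamL.cons 1 39 37 1889 1793 20 0 (SL.cons 0 1 (SL.cons 0 18 (SL.cons 0 2 SL.nil))) WtL.nil
  (FamL.cons 0 41 11 1129 303 27 0 (SL.cons 0 3 (SL.cons 0 1 (SL.cons 0 2 (SL.cons 0 1 (SL.cons 0 1 (SL.cons 0 1 SL.nil)))))) WtL.nil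
  (FamL.cons 0 41 30 2395 1753 15 0 (SL.cons 0 1 (SL.cons 0 2 (SL.cons 0 1 (SL.cons 0 2 (SL.cons 0 1 (SL.cons 0 2 SL.nil)))))) WtL.nil
  (FamL.cons 1 41 17 2081 863 30 0 (SL.cons 0 2 (SL.cons 0 2 (SL.cons 0 2 (SL.cons 0 2 (SL.cons 0 1 SL.nil))))) WtL.nil
  (FamL.cons 1 41 24 1443 845 12 0 (SL.cons 0 1 (SL.cons 0 1 (SL.cons 0 2 (SL.cons 0 2 (SL.cons 0 3 SL.nil))))) WtL.nil
  (FamL.cons 1 42 1 1765 42 1 0 (SL.cons 0 42 SL.nil) WtL.nil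
  (FamL.cons 1 42 13 843 261 13 0 (SL.cons 0 3 (SL.cons 0 4 (SL.cons 0 3 SL.nil))) WtL.nil
  (FamL.cons 1 42 29 961 664 29 0 (SL.cons 0 1 (SL.cons 0 2 (SL.cons 0 4 (SL.cons 0 2 (SL.cons 0 1 SL.nil))))) WtL.nil
  (FamL.cons 1 42 41 39 39 41 1 (SL.cons 0 1 (SL.cons 0 40 (SL.cons 0 1 SL.nil))) (WtL.cons 2 1 43 WtL.nil)
  (FamL.cons 0 44 1 1847 42 42 0 (SL.cons 0 43 (SL.cons 0 1 SL.nil)) WtL.nil
  (FamL.cons 0 44 21 517 247 22 0 (SL.cons 0 2 (SL.cons 0 10 (SL.cons 0 1 (SL.cons 0 1 SL.nil)))) WtL.nil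
  (FamL.cons 0 44 23 1373 718 20 0 (SL.cons 0 1 (SL.cons 0 1 (SL.cons 0 10 (SL.cons 0 2 SL.nil)))) WtL.nil
  (FamL.cons 0 44 43 43 43 0 1 (SL.cons 0 1 (SL.cons 0 43 SL.nil)) (WtL.cons 2 1 43 WtL.nil)
  (FamL.cons 0 47 2 3783 161 21 0 (SL.cons 0 23 (SL.cons 0 2 SL.nil)) WtL.nil
  (FamL.cons 0 47 45 257 247 21 1 (SL.cons 0 1 (SL.cons 0 22 (SL.cons 0 1 (SL.cons 0 1 SL.nil)))) (WtL.cons 3 13 0 WtL.nil)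
  (FamL.cons 1 49 22 523 235 25 0 (SL.cons 0 2 (SL.cons 0 4 (SL.cons 0 2 (SL.cons 0 1 (SL.cons 0 1 SL.nil))))) WtL.nil
  (FamL.cons 1 49 27 3689 2033 17 0 (SL.cons 0 1 (SL.cons 0 1 (SL.cons 0 4 (SL.cons 0 2 (SL.cons 0 2 SL.nil))))) WtL.nil
  FamL.nil))))))))))))))))))))))))))))))))

theorem LQ43_2_sv : LQ43_2.all (gSvO 43 (sieA1 43 7 2 9 18 17 6 4 12 6 4) (sieA1 43 7 2 9 18 17 6 4 12 6 4)) = true := by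
  decide +kernel

theorem LQ43_2_nm : LQ43_2.all (gNmO 43 37 37) = true := by decide +kernel

theorem LQ43_2_cov : covO 43 LQ43_2 22 28 = true := by decide +kernel

/-- the families with 50 ≤ y < 72 -/
def LQ43_3 : FamL := (FamL.cons 1 51 14 2211 607 9 0 (SL.cons 0 3 (SL.cons 0 1 (SL.cons 0 1 (SL.cons 0 1 (SL.cons 0 4 SL.nil))))) WtL.nil
  (FamL.cons 1 51 20 4123 1617 19 0 (SL.cons 0 2 (SL.cons 0 1 (SL.cons 0 1 (SL.cons 0 4 (SL.cons 0 2 SL.nil))))) WtL.nil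
  (FamL.cons 1 51 31 261 159 23 0 (SL.cons 0 1 (SL.cons 0 1 (SL.cons 0 1 (SL.cons 0 1 (SL.cons 0 4 (SL.cons 0 1 (SL.cons 0 1 SL.nil))))))) WtL.nil
  (FamL.cons 1 51 37 2173 1577 33 0 (SL.cons 0 1 (SL.cons 0 2 (SL.cons 0 1 (SL.cons 0 1 (SL.cons 0 1 (SL.cons 0 3 (SL.cons 0 1 SL.nil))))))) WtL.nil
  (FamL.cons 0 52 3 329 19 14 1 (SL.cons 0 17 (SL.cons 0 3 SL.nil)) (WtL.cons 3 11 6 WtL.nil)
  (FamL.cons 0 52 23 1347 596 7 0 (SL.cons 0 2 (SL.cons 0 3 (SL.cons 0 1 (SL.cons 0 5 SL.nil)))) WtL.nil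
  (FamL.cons 0 52 29 887 495 35 0 (SL.cons 0 1 (SL.cons 0 1 (SL.cons 0 3 (SL.cons 0 1 (SL.cons 0 4 (SL.cons 0 1 SL.nil)))))) WtL.nil
  (FamL.cons 0 52 49 1905 1796 28 0 (SL.cons 0 1 (SL.cons 0 16 (SL.cons 0 2 (SL.cons 0 1 SL.nil)))) WtL.nil
  (FamL.cons 0 53 13 4521 1109 3 0 (SL.cons 0 4 (SL.cons 0 13 SL.nil)) WtL.nil
  (FamL.cons 0 53 40 35 27 39 1 (SL.cons 0 1 (SL.cons 0 3 (SL.cons 0 12 (SL.cons 0 1 SL.nil)))) (WtL.cons 0 0 0 WtL.nil)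
  (FamL.cons 1 53 19 2301 825 11 0 (SL.cons 0 2 (SL.cons 0 1 (SL.cons 0 3 (SL.cons 0 1 (SL.cons 0 3 SL.nil))))) WtL.nil
  (FamL.cons 1 53 34 2255 1447 31 0 (SL.cons 0 1 (SL.cons 0 1 (SL.cons 0 1 (SL.cons 0 3 (SL.cons 0 1 (SL.cons 0 2 (SL.cons 0 1 SL.nil))))))) WtL.nil
  (FamL.cons 1 54 23 117 50 37 1 (SL.cons 0 2 (SL.cons 0 2 (SL.cons 0 1 (SL.cons 0 6 (SL.cons 0 1 SL.nil))))) (WtL.cons 3 2 0 WtL.nil)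
  (FamL.cons 1 54 31 2203 1265 5 0 (SL.cons 0 1 (SL.cons 0 1 (SL.cons 0 2 (SL.cons 0 1 (SL.cons 0 7 SL.nil))))) WtL.nil
  (FamL.cons 1 57 10 17 3 30 1 (SL.cons 0 5 (SL.cons 0 1 (SL.cons 0 2 (SL.cons 0 2 (SL.cons 0 1 SL.nil))))) (WtL.cons 0 0 0 WtL.nil)
  (FamL.cons 1 57 28 2705 1329 41 0 (SL.cons 0 2 (SL.cons 0 27 (SL.cons 0 1 SL.nil))) WtL.nil
  (FamL.cons 1 57 29 2195 1117 1 0 (SL.cons 0 1 (SL.cons 0 1 (SL.cons 0 28 SL.nil))) WtL.nil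
  (FamL.cons 1 57 47 4883 4027 12 0 (SL.cons 0 1 (SL.cons 0 4 (SL.cons 0 1 (SL.cons 0 2 (SL.cons 0 3 SL.nil))))) WtL.nil
  (FamL.cons 0 59 4 3289 223 32 0 (SL.cons 0 14 (SL.cons 0 1 (SL.cons 0 2 (SL.cons 0 1 SL.nil)))) WtL.nil
  (FamL.cons 0 59 55 1783 1663 10 0 (SL.cons 0 1 (SL.cons 0 13 (SL.cons 0 1 (SL.cons 0 3 SL.nil)))) WtL.nil
  (FamL.cons 1 63 13 3271 675 23 0 (SL.cons 0 4 (SL.cons 0 1 (SL.cons 0 5 (SL.cons 0 1 (SL.cons 0 1 SL.nil))))) WtL.nil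
  (FamL.cons 1 63 22 4487 1567 29 0 (SL.cons 0 2 (SL.cons 0 1 (SL.cons 0 6 (SL.cons 0 2 (SL.cons 0 1 SL.nil))))) WtL.nil
  (FamL.cons 1 63 41 929 605 13 0 (SL.cons 0 1 (SL.cons 0 1 (SL.cons 0 1 (SL.cons 0 6 (SL.cons 0 3 SL.nil))))) WtL.nil
  (FamL.cons 1 63 50 2145 1703 19 0 (SL.cons 0 1 (SL.cons 0 3 (SL.cons 0 1 (SL.cons 0 5 (SL.cons 0 2 SL.nil))))) WtL.nil
  (FamL.cons 0 67 15 31 7 37 1 (SL.cons 0 4 (SL.cons 0 2 (SL.cons 0 6 (SL.cons 0 1 SL.nil)))) (WtL.cons 0 0 0 WtL.nil)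
  (FamL.cons 0 67 52 5729 4447 5 0 (SL.cons 0 1 (SL.cons 0 3 (SL.cons 0 2 (SL.cons 0 7 SL.nil)))) WtL.nil
  (FamL.cons 0 68 5 163 12 17 1 (SL.cons 0 13 (SL.cons 0 1 (SL.cons 0 1 (SL.cons 0 2 SL.nil)))) (WtL.cons 3 2 0 WtL.nil)
  (FamL.cons 0 68 29 567 242 4 0 (SL.cons 0 2 (SL.cons 0 2 (SL.cons 0 1 (SL.cons 0 9 SL.nil)))) WtL.nil
  (FamL.cons 0 68 39 2355 1351 38 0 (SL.cons 0 1 (SL.cons 0 1 (SL.cons 0 2 (SL.cons 0 1 (SL.cons 0 8 (SL.cons 0 1 SL.nil)))))) WtL.nil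
  (FamL.cons 0 68 63 2759 2557 25 0 (SL.cons 0 1 (SL.cons 0 12 (SL.cons 0 1 (SL.cons 0 1 (SL.cons 0 1 (SL.cons 0 1 SL.nil)))))) WtL.nil
  (FamL.cons 1 71 16 3359 757 24 0 (SL.cons 0 4 (SL.cons 0 2 (SL.cons 0 3 (SL.cons 0 1 (SL.cons 0 1 SL.nil))))) WtL.nil
  (FamL.cons 1 71 55 2745 2127 18 0 (SL.cons 0 1 (SL.cons 0 3 (SL.cons 0 2 (SL.cons 0 3 (SL.cons 0 2 SL.nil))))) WtL.nil
  FamL.nil))))))))))))))))))))))))))))))))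

theorem LQ43_3_sv : LQ43_3.all (gSvO 43 (sieA1 43 7 2 9 18 17 6 4 12 6 4) (sieA1 43 7 2 9 18 17 6 4 12 6 4)) = true := by
  decide +kernel

theorem LQ43_3_nm : LQ43_3.all (gNmO 43 37 37) = true := by decide +kernel

theorem LQ43_3_cov : covO 43 LQ43_3 50 22 = true := by decide +kernel

/-- the families with 72 ≤ y < 101 -/
def LQ43_4 : FamL := (FamL.cons 1 78 11 1411 199 39 0 (SL.cons 0 7 (SL.cons 0 10 (SL.cons 0 1 SL.nil))) WtL.nil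
  (FamL.cons 1 78 37 1783 846 10 0 (SL.cons 0 2 (SL.cons 0 9 (SL.cons 0 4 SL.nil))) WtL.nil
  (FamL.cons 1 78 41 1569 825 32 0 (SL.cons 0 1 (SL.cons 0 1 (SL.cons 0 9 (SL.cons 0 3 (SL.cons 0 1 SL.nil))))) WtL.nil
  (FamL.cons 1 78 67 1941 1668 3 0 (SL.cons 0 1 (SL.cons 0 6 (SL.cons 0 11 SL.nil))) WtL.nil
  (FamL.cons 0 79 6 487 37 7 1 (SL.cons 0 13 (SL.cons 0 6 SL.nil)) (WtL.cons 3 11 1 WtL.nil)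
  (FamL.cons 0 79 73 6305 5827 35 0 (SL.cons 0 1 (SL.cons 0 12 (SL.cons 0 5 (SL.cons 0 1 SL.nil)))) WtL.nil
  (FamL.cons 1 81 23 4335 1231 39 0 (SL.cons 0 3 (SL.cons 0 1 (SL.cons 0 1 (SL.cons 0 10 (SL.cons 0 1 SL.nil))))) WtL.nil
  (FamL.cons 1 81 58 2629 1883 3 0 (SL.cons 0 1 (SL.cons 0 2 (SL.cons 0 1 (SL.cons 0 1 (SL.cons 0 11 SL.nil))))) WtL.nil
  (FamL.cons 1 82 17 159 33 15 1 (SL.cons 0 4 (SL.cons 0 1 (SL.cons 0 4 (SL.cons 0 1 (SL.cons 0 2 SL.nil))))) (WtL.cons 3 3 0 WtL.nil)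
  (FamL.cons 1 82 65 3365 2668 27 0 (SL.cons 0 1 (SL.cons 0 3 (SL.cons 0 1 (SL.cons 0 4 (SL.cons 0 1 (SL.cons 0 1 (SL.cons 0 1 SL.nil))))))) WtL.nil
  (FamL.cons 0 83 17 4555 933 20 0 (SL.cons 0 4 (SL.cons 0 1 (SL.cons 0 7 (SL.cons 0 2 SL.nil)))) WtL.nil
  (FamL.cons 0 83 66 2581 2053 22 0 (SL.cons 0 1 (SL.cons 0 3 (SL.cons 0 1 (SL.cons 0 7 (SL.cons 0 1 (SL.cons 0 1 SL.nil)))))) WtL.nil
  (FamL.cons 1 91 15 467 77 40 1 (SL.cons 0 6 (SL.cons 0 14 (SL.cons 0 1 SL.nil))) (WtL.cons 3 3 2 WtL.nil)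
  (FamL.cons 1 91 41 5737 2585 9 0 (SL.cons 0 2 (SL.cons 0 4 (SL.cons 0 1 (SL.cons 0 1 (SL.cons 0 4 SL.nil))))) WtL.nil
  (FamL.cons 1 91 50 2087 1147 33 0 (SL.cons 0 1 (SL.cons 0 1 (SL.cons 0 4 (SL.cons 0 1 (SL.cons 0 1 (SL.cons 0 3 (SL.cons 0 1 SL.nil))))))) WtL.nil
  (FamL.cons 1 91 76 7357 6145 2 0 (SL.cons 0 1 (SL.cons 0 5 (SL.cons 0 15 SL.nil))) WtL.nil
  (FamL.cons 0 92 7 657 50 6 0 (SL.cons 0 13 (SL.cons 0 7 SL.nil)) WtL.nil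
  (FamL.cons 0 92 39 2309 979 15 0 (SL.cons 0 2 (SL.cons 0 2 (SL.cons 0 1 (SL.cons 0 3 (SL.cons 0 1 (SL.cons 0 2 SL.nil)))))) WtL.nil
  (FamL.cons 0 92 53 1645 948 27 0 (SL.cons 0 1 (SL.cons 0 1 (SL.cons 0 2 (SL.cons 0 1 (SL.cons 0 3 (SL.cons 0 1 (SL.cons 0 1 (SL.cons 0 1 SL.nil)))))))) WtL.nil
  (FamL.cons 0 92 85 3297 3047 36 0 (SL.cons 0 1 (SL.cons 0 12 (SL.cons 0 6 (SL.cons 0 1 SL.nil)))) WtL.nil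
  (FamL.cons 0 97 32 4689 1547 1 0 (SL.cons 0 3 (SL.cons 0 32 SL.nil)) WtL.nil
  (FamL.cons 0 97 65 3651 2447 41 0 (SL.cons 0 1 (SL.cons 0 2 (SL.cons 0 31 (SL.cons 0 1 SL.nil)))) WtL.nil
  (FamL.cons 1 97 25 4745 1223 29 0 (SL.cons 0 3 (SL.cons 0 1 (SL.cons 0 7 (SL.cons 0 2 (SL.cons 0 1 SL.nil))))) WtL.nil
  (FamL.cons 1 97 72 3595 2669 13 0 (SL.cons 0 1 (SL.cons 0 2 (SL.cons 0 1 (SL.cons 0 7 (SL.cons 0 3 SL.nil))))) WtL.nil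
  (FamL.cons 1 98 27 791 218 30 0 (SL.cons 0 3 (SL.cons 0 1 (SL.cons 0 1 (SL.cons 0 1 (SL.cons 0 2 (SL.cons 0 2 (SL.cons 0 1 SL.nil))))))) WtL.nil
  (FamL.cons 1 98 71 3421 2479 12 0 (SL.cons 0 1 (SL.cons 0 2 (SL.cons 0 1 (SL.cons 0 1 (SL.cons 0 1 (SL.cons 0 2 (SL.cons 0 3 SL.nil))))))) WtL.nil
  FamL.nil))))))))))))))))))))))))))

theorem LQ43_4_sv : LQ43_4.all (gSvO 43 (sieA1 43 7 2 9 18 17 6 4 12 6 4) (sieA1 43 7 2 9 18 17 6 4 12 6 4)) = true := by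
  decide +kernel

theorem LQ43_4_nm : LQ43_4.all (gNmO 43 37 37) = true := by decide +kernel

theorem LQ43_4_cov : covO 43 LQ43_4 72 29 = true := by decide +kernel

theorem one43 {d : ℕ} (F : FDO d 43 1) (hS : SolO d 43 1) : H419R2.tb LO d = true :=
  one_soundO (Tm := 1) (Tp := 0) (wm := (WtL.cons 3 5 3 WtL.nil)) (wp := WtL.nil)
    (by norm_num) (by norm_num) sb43_1 sb43_1 (by decide +kernel) (by decide +kernel)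
    (by decide +kernel) (by decide +kernel) (by decide +kernel) F hS

theorem all43 {d y : ℕ} (F : FDO d 43 y) (hS : SolO d 43 y) (h0 : 0 < y) (h60 : y ≤ 100) :
    H419R2.tb LO d = true := by
  have hP : Nat.Prime 43 := by norm_num
  by_cases h1 : y = 1
  · subst h1
    exact one43 F hS
  by_cases h1' : y < 22
  · exact chunk_soundO hP (by norm_num) sb43_1 sb43_1 LQ43_1_sv LQ43_1_nm LQ43_1_cov F hS (by omega) (by omega) (by omega)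
  by_cases h2' : y < 50
  · exact chunk_soundO hP (by norm_num) sb43_1 sb43_1 LQ43_2_sv LQ43_2_nm LQ43_2_cov F hS (by omega) (by omega) (by omega)
  by_cases h3' : y < 72
  · exact chunk_soundO hP (by norm_num) sb43_1 sb43_1 LQ43_3_sv LQ43_3_nm LQ43_3_cov F hS (by omega) (by omega) (by omega)
  exact chunk_soundO hP (by norm_num) sb43_1 sb43_1 LQ43_4_sv LQ43_4_nm LQ43_4_cov F hS (by omega) (by omega) (by omega)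

end Pool.Agent.H449
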