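import Pool.Agent.H449.O7

/-! Families for the prime 47. -/

set_option maxRecDepth 100000

namespace Pool.Agent.H449

/-- the families with 2 ≤ y < 25 -/
def LQ47_1 : FamL := (FamL.cons 1 2 1 93 35 23 1 (SL.cons 0 2 SL.nil) (WtL.cons 3 5 0 WtL.nil)
  (FamL.cons 0 3 1 203 73 31 0 (SL.cons 0 2 (SL.cons 0 1 SL.nil)) WtL.nil
  (FamL.cons 0 3 2 77 57 15 1 (SL.cons 0 1 (SL.cons 0 2 SL.nil)) (WtL.cons 3 3 0 WtL.nil)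
  (FamL.cons 0 7 3 261 113 13 0 (SL.cons 0 2 (SL.cons 0 3 SL.nil)) WtL.nil
  (FamL.cons 0 7 4 395 227 33 0 (SL.cons 0 1 (SL.cons 0 1 (SL.cons 0 2 (SL.cons 0 1 SL.nil)))) WtL.nil
  (FamL.cons 0 8 3 11 5 29 1 (SL.cons 0 2 (SL.cons 0 1 (SL.cons 0 1 (SL.cons 0 1 SL.nil)))) (WtL.cons 0 0 0 WtL.nil)
  (FamL.cons 0 8 5 363 228 17 0 (SL.cons 0 1 (SL.cons 0 1 (SL.cons 0 1 (SL.cons 0 2 SL.nil)))) WtL.nil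
  (FamL.cons 0 9 4 725 323 10 0 (SL.cons 0 2 (SL.cons 0 4 SL.nil)) WtL.nil
  (FamL.cons 0 9 5 119 67 36 1 (SL.cons 0 1 (SL.cons 0 1 (SL.cons 0 3 (SL.cons 0 1 SL.nil)))) (WtL.cons 3 5 2 WtL.nil)
  (FamL.cons 1 11 5 29 13 38 1 (SL.cons 0 2 (SL.cons 0 4 (SL.cons 0 1 SL.nil))) (WtL.cons 0 0 0 WtL.nil)
  (FamL.cons 1 11 6 1003 547 8 0 (SL.cons 0 1 (SL.cons 0 1 (SL.cons 0 5 SL.nil))) WtL.nil
  (FamL.cons 0 16 1 605 38 44 0 (SL.cons 0 15 (SL.cons 0 1 SL.nil)) WtL.nil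
  (FamL.cons 0 16 15 145 137 2 1 (SL.cons 0 1 (SL.cons 0 15 SL.nil)) (WtL.cons 1 3 0 WtL.nil)
  (FamL.cons 0 17 2 279 33 22 1 (SL.cons 0 8 (SL.cons 0 2 SL.nil)) (WtL.cons 3 3 0 WtL.nil)
  (FamL.cons 0 17 15 1317 1163 24 0 (SL.cons 0 1 (SL.cons 0 7 (SL.cons 0 1 (SL.cons 0 1 SL.nil)))) WtL.nil
  (FamL.cons 1 17 8 223 105 41 1 (SL.cons 0 2 (SL.cons 0 7 (SL.cons 0 1 SL.nil))) (WtL.cons 3 3 0 WtL.nil)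
  (FamL.cons 1 17 9 1373 727 5 0 (SL.cons 0 1 (SL.cons 0 1 (SL.cons 0 8 SL.nil))) WtL.nil
  (FamL.cons 1 19 3 957 151 32 0 (SL.cons 0 6 (SL.cons 0 2 (SL.cons 0 1 SL.nil))) WtL.nil
  (FamL.cons 1 19 16 827 697 14 0 (SL.cons 0 1 (SL.cons 0 5 (SL.cons 0 3 SL.nil))) WtL.nil
  (FamL.cons 0 21 4 351 67 11 0 (SL.cons 0 5 (SL.cons 0 4 SL.nil)) WtL.nil
  (FamL.cons 0 21 10 1841 877 4 0 (SL.cons 0 2 (SL.cons 0 10 SL.nil)) WtL.nil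
  (FamL.cons 0 21 11 131 69 42 1 (SL.cons 0 1 (SL.cons 0 1 (SL.cons 0 9 (SL.cons 0 1 SL.nil)))) (WtL.cons 3 3 0 WtL.nil)
  (FamL.cons 0 21 17 1621 1313 35 0 (SL.cons 0 1 (SL.cons 0 4 (SL.cons 0 3 (SL.cons 0 1 SL.nil)))) WtL.nil
  (FamL.cons 1 22 5 273 62 19 0 (SL.cons 0 4 (SL.cons 0 2 (SL.cons 0 2 SL.nil))) WtL.nil
  (FamL.cons 1 22 17 759 587 27 0 (SL.cons 0 1 (SL.cons 0 3 (SL.cons 0 2 (SL.cons 0 1 (SL.cons 0 1 SL.nil))))) WtL.nil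
  (FamL.cons 1 23 1 991 43 2 0 (SL.cons 0 23 SL.nil) WtL.nil
  (FamL.cons 1 23 22 1169 1119 44 0 (SL.cons 0 1 (SL.cons 0 21 (SL.cons 0 1 SL.nil))) WtL.nil
  (FamL.cons 0 24 5 873 182 37 0 (SL.cons 0 4 (SL.cons 0 1 (SL.cons 0 3 (SL.cons 0 1 SL.nil)))) WtL.nil
  (FamL.cons 0 24 11 379 174 25 0 (SL.cons 0 2 (SL.cons 0 5 (SL.cons 0 1 (SL.cons 0 1 SL.nil)))) WtL.nil
  (FamL.cons 0 24 13 747 405 21 0 (SL.cons 0 1 (SL.cons 0 1 (SL.cons 0 5 (SL.cons 0 2 SL.nil)))) WtL.nil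
  (FamL.cons 0 24 19 253 201 9 0 (SL.cons 0 1 (SL.cons 0 3 (SL.cons 0 1 (SL.cons 0 4 SL.nil)))) WtL.nil
  FamL.nil)))))))))))))))))))))))))))))))

theorem LQ47_1_sv : LQ47_1.all (gSvO 47 (sieA1 47 5 1 2 3 33 17 2 7 2 17) (sieA1 47 5 1 2 3 33 17 2 7 2 17)) = true := by
  decide +kernel

theorem LQ47_1_nm : LQ47_1.all (gNmO 47 37 37) = true := by decide +kernel

theorem LQ47_1_cov : covO 47 LQ47_1 2 23 = true := by decide +kernel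

/-- the families with 25 ≤ y < 52 -/
def LQ47_2 : FamL := (FamL.cons 0 27 13 1933 931 3 0 (SL.cons 0 2 (SL.cons 0 13 SL.nil)) WtL.nil
  (FamL.cons 0 27 14 603 313 43 0 (SL.cons 0 1 (SL.cons 0 1 (SL.cons 0 12 (SL.cons 0 1 SL.nil)))) WtL.nil
  (FamL.cons 1 31 4 2891 373 12 0 (SL.cons 0 7 (SL.cons 0 1 (SL.cons 0 3 SL.nil))) WtL.nil
  (FamL.cons 1 31 27 21 19 34 1 (SL.cons 0 1 (SL.cons 0 6 (SL.cons 0 1 (SL.cons 0 2 (SL.cons 0 1 SL.nil))))) (WtL.cons 0 0 0 WtL.nil)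
  (FamL.cons 0 32 7 731 160 13 0 (SL.cons 0 4 (SL.cons 0 1 (SL.cons 0 1 (SL.cons 0 3 SL.nil)))) WtL.nil
  (FamL.cons 0 32 25 771 603 33 0 (SL.cons 0 1 (SL.cons 0 3 (SL.cons 0 1 (SL.cons 0 1 (SL.cons 0 2 (SL.cons 0 1 SL.nil)))))) WtL.nil
  (FamL.cons 1 34 9 287 76 26 0 (SL.cons 0 3 (SL.cons 0 1 (SL.cons 0 3 (SL.cons 0 1 (SL.cons 0 1 SL.nil))))) WtL.nil
  (FamL.cons 1 34 25 1309 963 20 0 (SL.cons 0 1 (SL.cons 0 2 (SL.cons 0 1 (SL.cons 0 3 (SL.cons 0 2 SL.nil))))) WtL.nil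
  (FamL.cons 0 37 8 1327 287 29 0 (SL.cons 0 4 (SL.cons 0 1 (SL.cons 0 1 (SL.cons 0 1 (SL.cons 0 1 (SL.cons 0 1 SL.nil)))))) WtL.nil
  (FamL.cons 0 37 29 2149 1685 17 0 (SL.cons 0 1 (SL.cons 0 3 (SL.cons 0 1 (SL.cons 0 1 (SL.cons 0 1 (SL.cons 0 2 SL.nil)))))) WtL.nil
  (FamL.cons 1 37 11 2277 677 34 0 (SL.cons 0 3 (SL.cons 0 2 (SL.cons 0 1 (SL.cons 0 2 (SL.cons 0 1 SL.nil))))) WtL.nil
  (FamL.cons 1 37 26 1199 843 12 0 (SL.cons 0 1 (SL.cons 0 2 (SL.cons 0 2 (SL.cons 0 1 (SL.cons 0 3 SL.nil))))) WtL.nil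
  (FamL.cons 1 38 3 925 73 16 0 (SL.cons 0 12 (SL.cons 0 1 (SL.cons 0 2 SL.nil))) WtL.nil
  (FamL.cons 1 38 35 859 792 30 0 (SL.cons 0 1 (SL.cons 0 11 (SL.cons 0 1 (SL.cons 0 1 (SL.cons 0 1 SL.nil))))) WtL.nil
  (FamL.cons 1 43 2 753 35 24 1 (SL.cons 0 21 (SL.cons 0 1 (SL.cons 0 1 SL.nil))) (WtL.cons 3 5 0 WtL.nil)
  (FamL.cons 1 43 41 3287 3135 22 0 (SL.cons 0 1 (SL.cons 0 20 (SL.cons 0 2 SL.nil))) WtL.nil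
  (FamL.cons 1 46 1 2117 46 1 0 (SL.cons 0 46 SL.nil) WtL.nil
  (FamL.cons 1 46 45 43 43 45 1 (SL.cons 0 1 (SL.cons 0 44 (SL.cons 0 1 SL.nil))) (WtL.cons 2 1 47 WtL.nil)
  (FamL.cons 0 48 1 2207 46 46 0 (SL.cons 0 47 (SL.cons 0 1 SL.nil)) WtL.nil
  (FamL.cons 0 48 17 1705 604 30 0 (SL.cons 0 2 (SL.cons 0 1 (SL.cons 0 4 (SL.cons 0 1 (SL.cons 0 1 (SL.cons 0 1 SL.nil)))))) WtL.nil
  (FamL.cons 0 48 31 549 355 16 0 (SL.cons 0 1 (SL.cons 0 1 (SL.cons 0 1 (SL.cons 0 4 (SL.cons 0 1 (SL.cons 0 2 SL.nil)))))) WtL.nil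
  (FamL.cons 0 48 47 47 47 0 1 (SL.cons 0 1 (SL.cons 0 47 SL.nil)) (WtL.cons 2 1 47 WtL.nil)
  (FamL.cons 0 49 10 1259 257 42 0 (SL.cons 0 4 (SL.cons 0 1 (SL.cons 0 8 (SL.cons 0 1 SL.nil)))) WtL.nil
  (FamL.cons 0 49 39 3345 2663 4 0 (SL.cons 0 1 (SL.cons 0 3 (SL.cons 0 1 (SL.cons 0 9 SL.nil)))) WtL.nil
  (FamL.cons 0 51 2 3289 129 23 0 (SL.cons 0 25 (SL.cons 0 2 SL.nil)) WtL.nil
  (FamL.cons 0 51 19 625 233 7 0 (SL.cons 0 2 (SL.cons 0 1 (SL.cons 0 2 (SL.cons 0 6 SL.nil)))) WtL.nil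
  (FamL.cons 0 51 32 4167 2615 39 0 (SL.cons 0 1 (SL.cons 0 1 (SL.cons 0 1 (SL.cons 0 2 (SL.cons 0 5 (SL.cons 0 1 SL.nil)))))) WtL.nil
  (FamL.cons 0 51 49 1503 1445 23 0 (SL.cons 0 1 (SL.cons 0 24 (SL.cons 0 1 (SL.cons 0 1 SL.nil)))) WtL.nil
  FamL.nil))))))))))))))))))))))))))))

theorem LQ47_2_sv : LQ47_2.all (gSvO 47 (sieA1 47 5 1 2 3 33 17 2 7 2 17) (sieA1 47 5 1 2 3 33 17 2 7 2 17)) = true := by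
  decide +kernel

theorem LQ47_2_nm : LQ47_2.all (gNmO 47 37 37) = true := by decide +kernel

theorem LQ47_2_cov : covO 47 LQ47_2 25 27 = true := by decide +kernel

/-- the families with 52 ≤ y < 73 -/
def LQ47_3 : FamL := (FamL.cons 0 53 18 1357 461 44 0 (SL.cons 0 2 (SL.cons 0 1 (SL.cons 0 16 (SL.cons 0 1 SL.nil)))) WtL.nil
  (FamL.cons 0 53 35 3623 2393 2 0 (SL.cons 0 1 (SL.cons 0 1 (SL.cons 0 1 (SL.cons 0 17 SL.nil)))) WtL.nil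
  (FamL.cons 1 53 10 1203 227 14 0 (SL.cons 0 5 (SL.cons 0 3 (SL.cons 0 3 SL.nil))) WtL.nil
  (FamL.cons 1 53 43 3777 3065 32 0 (SL.cons 0 1 (SL.cons 0 4 (SL.cons 0 3 (SL.cons 0 2 (SL.cons 0 1 SL.nil))))) WtL.nil
  (FamL.cons 0 56 3 485 26 31 1 (SL.cons 0 18 (SL.cons 0 1 (SL.cons 0 1 (SL.cons 0 1 SL.nil)))) (WtL.cons 3 2 0 WtL.nil)
  (FamL.cons 0 56 11 2311 454 4 0 (SL.cons 0 5 (SL.cons 0 11 SL.nil)) WtL.nil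
  (FamL.cons 0 56 45 319 257 42 1 (SL.cons 0 1 (SL.cons 0 4 (SL.cons 0 10 (SL.cons 0 1 SL.nil)))) (WtL.cons 1 3 0 WtL.nil)
  (FamL.cons 0 56 53 2145 2031 15 0 (SL.cons 0 1 (SL.cons 0 17 (SL.cons 0 1 (SL.cons 0 2 SL.nil)))) WtL.nil
  (FamL.cons 0 59 22 5323 1985 6 0 (SL.cons 0 2 (SL.cons 0 1 (SL.cons 0 2 (SL.cons 0 7 SL.nil)))) WtL.nil
  (FamL.cons 0 59 37 221 139 40 1 (SL.cons 0 1 (SL.cons 0 1 (SL.cons 0 1 (SL.cons 0 2 (SL.cons 0 6 (SL.cons 0 1 SL.nil)))))) (WtL.cons 3 13 3 WtL.nil)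
  (FamL.cons 0 61 21 3099 1067 22 0 (SL.cons 0 2 (SL.cons 0 1 (SL.cons 0 9 (SL.cons 0 2 SL.nil)))) WtL.nil
  (FamL.cons 0 61 40 2633 1727 24 0 (SL.cons 0 1 (SL.cons 0 1 (SL.cons 0 1 (SL.cons 0 9 (SL.cons 0 1 (SL.cons 0 1 SL.nil)))))) WtL.nil
  (FamL.cons 1 61 13 4725 1007 36 0 (SL.cons 0 4 (SL.cons 0 1 (SL.cons 0 2 (SL.cons 0 3 (SL.cons 0 1 SL.nil))))) WtL.nil
  (FamL.cons 1 61 48 1007 793 10 0 (SL.cons 0 1 (SL.cons 0 3 (SL.cons 0 1 (SL.cons 0 2 (SL.cons 0 4 SL.nil))))) WtL.nil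
  (FamL.cons 1 62 27 739 322 17 0 (SL.cons 0 2 (SL.cons 0 3 (SL.cons 0 2 (SL.cons 0 1 (SL.cons 0 2 SL.nil))))) WtL.nil
  (FamL.cons 1 62 35 2173 1227 29 0 (SL.cons 0 1 (SL.cons 0 1 (SL.cons 0 3 (SL.cons 0 2 (SL.cons 0 1 (SL.cons 0 1 (SL.cons 0 1 SL.nil))))))) WtL.nil
  (FamL.cons 0 63 4 1433 91 35 0 (SL.cons 0 15 (SL.cons 0 1 (SL.cons 0 2 (SL.cons 0 1 SL.nil)))) WtL.nil
  (FamL.cons 0 63 31 3245 1597 1 0 (SL.cons 0 2 (SL.cons 0 31 SL.nil)) WtL.nil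
  (FamL.cons 0 63 32 2675 1359 45 0 (SL.cons 0 1 (SL.cons 0 1 (SL.cons 0 30 (SL.cons 0 1 SL.nil)))) WtL.nil
  (FamL.cons 0 63 59 4487 4203 11 0 (SL.cons 0 1 (SL.cons 0 14 (SL.cons 0 1 (SL.cons 0 3 SL.nil)))) WtL.nil
  (FamL.cons 0 64 23 929 334 18 0 (SL.cons 0 2 (SL.cons 0 1 (SL.cons 0 3 (SL.cons 0 1 (SL.cons 0 1 (SL.cons 0 2 SL.nil)))))) WtL.nil
  (FamL.cons 0 64 41 2077 1331 28 0 (SL.cons 0 1 (SL.cons 0 1 (SL.cons 0 1 (SL.cons 0 3 (SL.cons 0 1 (SL.cons 0 1 (SL.cons 0 1 (SL.cons 0 1 SL.nil)))))))) WtL.nil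
  (FamL.cons 1 67 28 2883 1205 8 0 (SL.cons 0 2 (SL.cons 0 2 (SL.cons 0 1 (SL.cons 0 1 (SL.cons 0 5 SL.nil))))) WtL.nil
  (FamL.cons 1 67 39 3413 1987 38 0 (SL.cons 0 1 (SL.cons 0 1 (SL.cons 0 2 (SL.cons 0 1 (SL.cons 0 1 (SL.cons 0 4 (SL.cons 0 1 SL.nil))))))) WtL.nil
  (FamL.cons 0 71 33 1043 485 28 0 (SL.cons 0 2 (SL.cons 0 6 (SL.cons 0 1 (SL.cons 0 1 (SL.cons 0 1 (SL.cons 0 1 SL.nil)))))) WtL.nil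
  (FamL.cons 0 71 38 5629 3013 18 0 (SL.cons 0 1 (SL.cons 0 1 (SL.cons 0 6 (SL.cons 0 1 (SL.cons 0 1 (SL.cons 0 2 SL.nil)))))) WtL.nil
  (FamL.cons 0 72 5 2923 203 28 0 (SL.cons 0 14 (SL.cons 0 2 (SL.cons 0 1 (SL.cons 0 1 SL.nil)))) WtL.nil
  (FamL.cons 0 72 13 249 45 7 1 (SL.cons 0 5 (SL.cons 0 1 (SL.cons 0 1 (SL.cons 0 6 SL.nil)))) (WtL.cons 1 3 0 WtL.nil)
  (FamL.cons 0 72 59 3133 2568 39 0 (SL.cons 0 1 (SL.cons 0 4 (SL.cons 0 1 (SL.cons 0 1 (SL.cons 0 5 (SL.cons 0 1 SL.nil)))))) WtL.nil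
  (FamL.cons 0 72 67 459 428 18 1 (SL.cons 0 1 (SL.cons 0 13 (SL.cons 0 2 (SL.cons 0 2 SL.nil)))) (WtL.cons 3 2 0 WtL.nil)
  FamL.nil))))))))))))))))))))))))))))))

theorem LQ47_3_sv : LQ47_3.all (gSvO 47 (sieA1 47 5 1 2 3 33 17 2 7 2 17) (sieA1 47 5 1 2 3 33 17 2 7 2 17)) = true := by
  decide +kernel

theorem LQ47_3_nm : LQ47_3.all (gNmO 47 37 37) = true := by decide +kernel

theorem LQ47_3_cov : covO 47 LQ47_3 52 21 = true := by decide +kernel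

/-- the families with 73 ≤ y < 101 -/
def LQ47_4 : FamL := (FamL.cons 1 74 11 269 40 17 0 (SL.cons 0 6 (SL.cons 0 1 (SL.cons 0 2 (SL.cons 0 1 (SL.cons 0 2 SL.nil))))) WtL.nil
  (FamL.cons 1 74 63 3207 2731 29 0 (SL.cons 0 1 (SL.cons 0 5 (SL.cons 0 1 (SL.cons 0 2 (SL.cons 0 1 (SL.cons 0 1 (SL.cons 0 1 SL.nil))))))) WtL.nil
  (FamL.cons 0 79 36 3605 1643 40 0 (SL.cons 0 2 (SL.cons 0 5 (SL.cons 0 6 (SL.cons 0 1 SL.nil)))) WtL.nil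
  (FamL.cons 0 79 43 3819 2079 6 0 (SL.cons 0 1 (SL.cons 0 1 (SL.cons 0 5 (SL.cons 0 7 SL.nil)))) WtL.nil
  (FamL.cons 0 81 14 1047 181 30 0 (SL.cons 0 5 (SL.cons 0 1 (SL.cons 0 3 (SL.cons 0 1 (SL.cons 0 1 (SL.cons 0 1 SL.nil)))))) WtL.nil
  (FamL.cons 0 81 67 6565 5431 16 0 (SL.cons 0 1 (SL.cons 0 4 (SL.cons 0 1 (SL.cons 0 3 (SL.cons 0 1 (SL.cons 0 2 SL.nil)))))) WtL.nil
  (FamL.cons 0 83 6 1065 77 39 0 (SL.cons 0 13 (SL.cons 0 1 (SL.cons 0 4 (SL.cons 0 1 SL.nil)))) WtL.nil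
  (FamL.cons 0 83 77 6735 6249 7 0 (SL.cons 0 1 (SL.cons 0 12 (SL.cons 0 1 (SL.cons 0 5 SL.nil)))) WtL.nil
  (FamL.cons 1 86 41 633 302 11 0 (SL.cons 0 2 (SL.cons 0 10 (SL.cons 0 4 SL.nil))) WtL.nil
  (FamL.cons 1 86 45 3407 1783 35 0 (SL.cons 0 1 (SL.cons 0 1 (SL.cons 0 10 (SL.cons 0 3 (SL.cons 0 1 SL.nil))))) WtL.nil
  (FamL.cons 0 89 24 2933 791 33 0 (SL.cons 0 3 (SL.cons 0 1 (SL.cons 0 2 (SL.cons 0 2 (SL.cons 0 2 (SL.cons 0 1 SL.nil)))))) WtL.nil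
  (FamL.cons 0 89 65 5431 3967 13 0 (SL.cons 0 1 (SL.cons 0 2 (SL.cons 0 1 (SL.cons 0 2 (SL.cons 0 2 (SL.cons 0 3 SL.nil)))))) WtL.nil
  (FamL.cons 1 89 15 7197 1213 3 0 (SL.cons 0 5 (SL.cons 0 1 (SL.cons 0 14 SL.nil))) WtL.nil
  (FamL.cons 1 89 74 1167 971 43 0 (SL.cons 0 1 (SL.cons 0 4 (SL.cons 0 1 (SL.cons 0 13 (SL.cons 0 1 SL.nil))))) WtL.nil
  (FamL.cons 0 96 7 2249 164 20 0 (SL.cons 0 13 (SL.cons 0 1 (SL.cons 0 2 (SL.cons 0 2 SL.nil)))) WtL.nil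
  (FamL.cons 0 96 25 257 67 11 0 (SL.cons 0 3 (SL.cons 0 1 (SL.cons 0 5 (SL.cons 0 4 SL.nil)))) WtL.nil
  (FamL.cons 0 96 71 4253 3146 35 0 (SL.cons 0 1 (SL.cons 0 2 (SL.cons 0 1 (SL.cons 0 5 (SL.cons 0 3 (SL.cons 0 1 SL.nil)))))) WtL.nil
  (FamL.cons 0 96 89 2261 2097 26 0 (SL.cons 0 1 (SL.cons 0 12 (SL.cons 0 1 (SL.cons 0 2 (SL.cons 0 1 (SL.cons 0 1 SL.nil)))))) WtL.nil
  (FamL.cons 0 97 27 8489 2363 38 0 (SL.cons 0 3 (SL.cons 0 1 (SL.cons 0 1 (SL.cons 0 2 (SL.cons 0 4 (SL.cons 0 1 SL.nil)))))) WtL.nil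
  (FamL.cons 0 97 70 627 453 8 0 (SL.cons 0 1 (SL.cons 0 2 (SL.cons 0 1 (SL.cons 0 1 (SL.cons 0 2 (SL.cons 0 5 SL.nil)))))) WtL.nil
  (FamL.cons 1 97 12 7089 877 43 0 (SL.cons 0 8 (SL.cons 0 11 (SL.cons 0 1 SL.nil))) WtL.nil
  (FamL.cons 1 97 85 2027 1777 3 0 (SL.cons 0 1 (SL.cons 0 7 (SL.cons 0 12 SL.nil))) WtL.nil
  FamL.nil))))))))))))))))))))))

theorem LQ47_4_sv : LQ47_4.all (gSvO 47 (sieA1 47 5 1 2 3 33 17 2 7 2 17) (sieA1 47 5 1 2 3 33 17 2 7 2 17)) = true := by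
  decide +kernel

theorem LQ47_4_nm : LQ47_4.all (gNmO 47 37 37) = true := by decide +kernel

theorem LQ47_4_cov : covO 47 LQ47_4 73 28 = true := by decide +kernel

theorem one47 {d : ℕ} (F : FDO d 47 1) (hS : SolO d 47 1) : H419R2.tb LO d = true :=
  one_soundO (Tm := 1) (Tp := 0) (wm := (WtL.cons 3 3 2 WtL.nil)) (wp := WtL.nil)
    (by norm_num) (by norm_num) sb47_1 sb47_1 (by decide +kernel) (by decide +kernel)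
    (by decide +kernel) (by decide +kernel) (by decide +kernel) F hS

theorem all47 {d y : ℕ} (F : FDO d 47 y) (hS : SolO d 47 y) (h0 : 0 < y) (h60 : y ≤ 100) :
    H419R2.tb LO d = true := by
  have hP : Nat.Prime 47 := by norm_num
  by_cases h1 : y = 1
  · subst h1
    exact one47 F hS
  by_cases h1' : y < 25
  · exact chunk_soundO hP (by norm_num) sb47_1 sb47_1 LQ47_1_sv LQ47_1_nm LQ47_1_cov F hS (by omega) (by omega) (by omega)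
  by_cases h2' : y < 52
  · exact chunk_soundO hP (by norm_num) sb47_1 sb47_1 LQ47_2_sv LQ47_2_nm LQ47_2_cov F hS (by omega) (by omega) (by omega)
  by_cases h3' : y < 73
  · exact chunk_soundO hP (by norm_num) sb47_1 sb47_1 LQ47_3_sv LQ47_3_nm LQ47_3_cov F hS (by omega) (by omega) (by omega)
  exact chunk_soundO hP (by norm_num) sb47_1 sb47_1 LQ47_4_sv LQ47_4_nm LQ47_4_cov F hS (by omega) (by omega) (by omega)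

end Pool.Agent.H449
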