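import Pool.Agent.H449.O7

/-! Families for the prime 59. -/

set_option maxRecDepth 100000

namespace Pool.Agent.H449

/-- the families with 2 ≤ y < 20 -/
def LQ59_1 : FamL := (FamL.cons 1 2 1 117 44 29 0 (SL.cons 0 2 SL.nil) WtL.nil
  (FamL.cons 0 3 1 19 13 39 1 (SL.cons 0 2 (SL.cons 0 1 SL.nil)) (WtL.cons 0 0 0 WtL.nil)
  (FamL.cons 0 3 2 333 229 19 0 (SL.cons 0 1 (SL.cons 0 2 SL.nil)) WtL.nil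
  (FamL.cons 0 4 1 29 11 44 1 (SL.cons 0 3 (SL.cons 0 1 SL.nil)) (WtL.cons 0 0 0 WtL.nil)
  (FamL.cons 0 4 3 205 158 14 0 (SL.cons 0 1 (SL.cons 0 3 SL.nil)) WtL.nil
  (FamL.cons 0 5 1 153 33 47 1 (SL.cons 0 4 (SL.cons 0 1 SL.nil)) (WtL.cons 3 3 0 WtL.nil)
  (FamL.cons 0 5 4 435 351 11 0 (SL.cons 0 1 (SL.cons 0 4 SL.nil)) WtL.nil
  (FamL.cons 1 5 2 483 191 35 0 (SL.cons 0 2 (SL.cons 0 1 (SL.cons 0 1 SL.nil))) WtL.nil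
  (FamL.cons 1 5 3 105 61 23 1 (SL.cons 0 1 (SL.cons 0 1 (SL.cons 0 2 SL.nil))) (WtL.cons 3 3 1 WtL.nil)
  (FamL.cons 0 7 2 699 201 25 0 (SL.cons 0 3 (SL.cons 0 2 SL.nil)) WtL.nil
  (FamL.cons 0 7 5 125 91 33 1 (SL.cons 0 1 (SL.cons 0 2 (SL.cons 0 1 (SL.cons 0 1 SL.nil)))) (WtL.cons 3 5 1 WtL.nil)
  (FamL.cons 0 9 2 937 209 26 0 (SL.cons 0 4 (SL.cons 0 2 SL.nil)) WtL.nil
  (FamL.cons 0 9 7 123 97 32 1 (SL.cons 0 1 (SL.cons 0 3 (SL.cons 0 1 (SL.cons 0 1 SL.nil)))) (WtL.cons 3 3 1 WtL.nil)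
  (FamL.cons 1 10 3 495 148 41 0 (SL.cons 0 3 (SL.cons 0 2 (SL.cons 0 1 SL.nil))) WtL.nil
  (FamL.cons 1 10 7 93 65 17 1 (SL.cons 0 1 (SL.cons 0 2 (SL.cons 0 3 SL.nil))) (WtL.cons 3 5 0 WtL.nil)
  (FamL.cons 1 11 2 1185 215 32 0 (SL.cons 0 5 (SL.cons 0 1 (SL.cons 0 1 SL.nil))) WtL.nil
  (FamL.cons 1 11 9 111 91 26 1 (SL.cons 0 1 (SL.cons 0 4 (SL.cons 0 2 SL.nil))) (WtL.cons 3 3 1 WtL.nil)
  (FamL.cons 0 12 1 403 34 54 1 (SL.cons 0 11 (SL.cons 0 1 SL.nil)) (WtL.cons 3 2 0 WtL.nil)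
  (FamL.cons 0 12 5 481 201 34 0 (SL.cons 0 2 (SL.cons 0 2 (SL.cons 0 1 (SL.cons 0 1 SL.nil)))) WtL.nil
  (FamL.cons 0 12 7 225 132 24 0 (SL.cons 0 1 (SL.cons 0 1 (SL.cons 0 2 (SL.cons 0 2 SL.nil)))) WtL.nil
  (FamL.cons 0 12 11 303 279 4 1 (SL.cons 0 1 (SL.cons 0 11 SL.nil)) (WtL.cons 1 3 0 WtL.nil)
  (FamL.cons 0 15 1 641 43 55 0 (SL.cons 0 14 (SL.cons 0 1 SL.nil)) WtL.nil
  (FamL.cons 0 15 4 145 39 43 0 (SL.cons 0 3 (SL.cons 0 1 (SL.cons 0 2 (SL.cons 0 1 SL.nil)))) WtL.nil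
  (FamL.cons 0 15 11 1623 1191 15 0 (SL.cons 0 1 (SL.cons 0 2 (SL.cons 0 1 (SL.cons 0 3 SL.nil)))) WtL.nil
  (FamL.cons 0 15 14 1127 1053 3 0 (SL.cons 0 1 (SL.cons 0 14 SL.nil)) WtL.nil
  (FamL.cons 0 17 3 843 149 38 0 (SL.cons 0 5 (SL.cons 0 1 (SL.cons 0 1 (SL.cons 0 1 SL.nil)))) WtL.nil
  (FamL.cons 0 17 14 1161 957 20 0 (SL.cons 0 1 (SL.cons 0 4 (SL.cons 0 1 (SL.cons 0 2 SL.nil)))) WtL.nil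
  (FamL.cons 1 17 5 1051 309 24 0 (SL.cons 0 3 (SL.cons 0 2 (SL.cons 0 2 SL.nil))) WtL.nil
  (FamL.cons 1 17 12 953 673 34 0 (SL.cons 0 1 (SL.cons 0 2 (SL.cons 0 2 (SL.cons 0 1 (SL.cons 0 1 SL.nil))))) WtL.nil
  (FamL.cons 0 19 6 1611 509 9 0 (SL.cons 0 3 (SL.cons 0 6 SL.nil)) WtL.nil
  (FamL.cons 0 19 13 629 431 49 0 (SL.cons 0 1 (SL.cons 0 2 (SL.cons 0 5 (SL.cons 0 1 SL.nil)))) WtL.nil
  FamL.nil)))))))))))))))))))))))))))))))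

theorem LQ59_1_sv : LQ59_1.all (gSvO 59 (sieA1 59 11 4 4 6 8 15 0 0 17 3) (sieA1 59 11 4 4 6 8 15 0 0 17 3)) = true := by
  decide +kernel

theorem LQ59_1_nm : LQ59_1.all (gNmO 59 37 37) = true := by decide +kernel

theorem LQ59_1_cov : covO 59 LQ59_1 2 18 = true := by decide +kernel

/-- the families with 20 ≤ y < 35 -/
def LQ59_2 : FamL := (FamL.cons 0 20 1 997 50 56 0 (SL.cons 0 19 (SL.cons 0 1 SL.nil)) WtL.nil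
  (FamL.cons 0 20 9 477 215 32 0 (SL.cons 0 2 (SL.cons 0 4 (SL.cons 0 1 (SL.cons 0 1 SL.nil)))) WtL.nil
  (FamL.cons 0 20 11 701 386 26 0 (SL.cons 0 1 (SL.cons 0 1 (SL.cons 0 4 (SL.cons 0 2 SL.nil)))) WtL.nil
  (FamL.cons 0 20 19 181 173 2 1 (SL.cons 0 1 (SL.cons 0 19 SL.nil)) (WtL.cons 1 3 0 WtL.nil)
  (FamL.cons 0 21 2 1059 101 28 0 (SL.cons 0 10 (SL.cons 0 2 SL.nil)) WtL.nil
  (FamL.cons 0 21 5 1969 469 11 0 (SL.cons 0 4 (SL.cons 0 5 SL.nil)) WtL.nil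
  (FamL.cons 0 21 16 507 387 47 0 (SL.cons 0 1 (SL.cons 0 3 (SL.cons 0 4 (SL.cons 0 1 SL.nil)))) WtL.nil
  (FamL.cons 0 21 19 1417 1283 30 0 (SL.cons 0 1 (SL.cons 0 9 (SL.cons 0 1 (SL.cons 0 1 SL.nil)))) WtL.nil
  (FamL.cons 1 22 9 1029 421 13 0 (SL.cons 0 2 (SL.cons 0 2 (SL.cons 0 4 SL.nil))) WtL.nil
  (FamL.cons 1 22 13 267 158 45 0 (SL.cons 0 1 (SL.cons 0 1 (SL.cons 0 2 (SL.cons 0 3 (SL.cons 0 1 SL.nil))))) WtL.nil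
  (FamL.cons 1 23 6 2557 667 10 0 (SL.cons 0 3 (SL.cons 0 1 (SL.cons 0 5 SL.nil))) WtL.nil
  (FamL.cons 1 23 17 155 115 48 1 (SL.cons 0 1 (SL.cons 0 2 (SL.cons 0 1 (SL.cons 0 4 (SL.cons 0 1 SL.nil))))) (WtL.cons 3 5 0 WtL.nil)
  (FamL.cons 0 25 4 2093 335 14 0 (SL.cons 0 6 (SL.cons 0 4 SL.nil)) WtL.nil
  (FamL.cons 0 25 21 855 719 44 0 (SL.cons 0 1 (SL.cons 0 5 (SL.cons 0 3 (SL.cons 0 1 SL.nil)))) WtL.nil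
  (FamL.cons 1 25 3 1909 229 40 0 (SL.cons 0 8 (SL.cons 0 2 (SL.cons 0 1 SL.nil))) WtL.nil
  (FamL.cons 1 25 22 1039 915 18 0 (SL.cons 0 1 (SL.cons 0 7 (SL.cons 0 3 SL.nil))) WtL.nil
  (FamL.cons 0 27 7 2873 745 50 0 (SL.cons 0 3 (SL.cons 0 1 (SL.cons 0 5 (SL.cons 0 1 SL.nil)))) WtL.nil
  (FamL.cons 0 27 20 311 231 8 0 (SL.cons 0 1 (SL.cons 0 2 (SL.cons 0 1 (SL.cons 0 6 SL.nil)))) WtL.nil
  (FamL.cons 0 28 5 341 61 23 0 (SL.cons 0 5 (SL.cons 0 1 (SL.cons 0 1 (SL.cons 0 2 SL.nil)))) WtL.nil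
  (FamL.cons 0 28 9 71 23 6 1 (SL.cons 0 3 (SL.cons 0 9 SL.nil)) (WtL.cons 3 3 2 WtL.nil)
  (FamL.cons 0 28 19 1579 1072 52 0 (SL.cons 0 1 (SL.cons 0 2 (SL.cons 0 8 (SL.cons 0 1 SL.nil)))) WtL.nil
  (FamL.cons 0 28 23 1309 1076 35 0 (SL.cons 0 1 (SL.cons 0 4 (SL.cons 0 1 (SL.cons 0 1 (SL.cons 0 1 (SL.cons 0 1 SL.nil)))))) WtL.nil
  (FamL.cons 0 29 12 461 191 24 0 (SL.cons 0 2 (SL.cons 0 2 (SL.cons 0 2 (SL.cons 0 2 SL.nil)))) WtL.nil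
  (FamL.cons 0 29 17 2959 1735 34 0 (SL.cons 0 1 (SL.cons 0 1 (SL.cons 0 2 (SL.cons 0 2 (SL.cons 0 1 (SL.cons 0 1 SL.nil)))))) WtL.nil
  (FamL.cons 1 29 1 1597 55 2 0 (SL.cons 0 29 SL.nil) WtL.nil
  (FamL.cons 1 29 28 1823 1761 56 0 (SL.cons 0 1 (SL.cons 0 27 (SL.cons 0 1 SL.nil))) WtL.nil
  (FamL.cons 1 31 11 2601 923 32 0 (SL.cons 0 2 (SL.cons 0 1 (SL.cons 0 4 (SL.cons 0 1 (SL.cons 0 1 SL.nil))))) WtL.nil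
  (FamL.cons 1 31 20 1055 681 26 0 (SL.cons 0 1 (SL.cons 0 1 (SL.cons 0 1 (SL.cons 0 4 (SL.cons 0 2 SL.nil))))) WtL.nil
  (FamL.cons 1 34 5 1027 151 12 0 (SL.cons 0 6 (SL.cons 0 1 (SL.cons 0 4 SL.nil))) WtL.nil
  (FamL.cons 1 34 29 977 834 46 0 (SL.cons 0 1 (SL.cons 0 5 (SL.cons 0 1 (SL.cons 0 3 (SL.cons 0 1 SL.nil))))) WtL.nil
  FamL.nil))))))))))))))))))))))))))))))

theorem LQ59_2_sv : LQ59_2.all (gSvO 59 (sieA1 59 11 4 4 6 8 15 0 0 17 3) (sieA1 59 11 4 4 6 8 15 0 0 17 3)) = true := by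
  decide +kernel

theorem LQ59_2_nm : LQ59_2.all (gNmO 59 37 37) = true := by decide +kernel

theorem LQ59_2_cov : covO 59 LQ59_2 20 15 = true := by decide +kernel

/-- the families with 35 ≤ y < 52 -/
def LQ59_3 : FamL := (FamL.cons 0 35 9 3939 1013 52 0 (SL.cons 0 3 (SL.cons 0 1 (SL.cons 0 7 (SL.cons 0 1 SL.nil)))) WtL.nil
  (FamL.cons 0 35 16 1791 819 40 0 (SL.cons 0 2 (SL.cons 0 5 (SL.cons 0 2 (SL.cons 0 1 SL.nil)))) WtL.nil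
  (FamL.cons 0 35 19 2337 1269 18 0 (SL.cons 0 1 (SL.cons 0 1 (SL.cons 0 5 (SL.cons 0 3 SL.nil)))) WtL.nil
  (FamL.cons 0 35 26 189 141 6 1 (SL.cons 0 1 (SL.cons 0 2 (SL.cons 0 1 (SL.cons 0 8 SL.nil)))) (WtL.cons 3 3 0 WtL.nil)
  (FamL.cons 0 36 7 1491 290 8 0 (SL.cons 0 5 (SL.cons 0 7 SL.nil)) WtL.nil
  (FamL.cons 0 36 11 101 31 21 1 (SL.cons 0 3 (SL.cons 0 3 (SL.cons 0 1 (SL.cons 0 2 SL.nil)))) (WtL.cons 1 5 0 WtL.nil)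
  (FamL.cons 0 36 25 2021 1404 37 0 (SL.cons 0 1 (SL.cons 0 2 (SL.cons 0 3 (SL.cons 0 1 (SL.cons 0 1 (SL.cons 0 1 SL.nil)))))) WtL.nil
  (FamL.cons 0 36 29 631 509 50 0 (SL.cons 0 1 (SL.cons 0 4 (SL.cons 0 6 (SL.cons 0 1 SL.nil)))) WtL.nil
  (FamL.cons 0 41 8 3377 659 7 0 (SL.cons 0 5 (SL.cons 0 8 SL.nil)) WtL.nil
  (FamL.cons 0 41 33 1459 1175 51 0 (SL.cons 0 1 (SL.cons 0 4 (SL.cons 0 7 (SL.cons 0 1 SL.nil)))) WtL.nil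
  (FamL.cons 1 41 10 2997 731 53 0 (SL.cons 0 4 (SL.cons 0 9 (SL.cons 0 1 SL.nil))) WtL.nil
  (FamL.cons 1 41 31 1839 1391 5 0 (SL.cons 0 1 (SL.cons 0 3 (SL.cons 0 10 SL.nil))) WtL.nil
  (FamL.cons 1 43 4 1387 129 15 0 (SL.cons 0 10 (SL.cons 0 1 (SL.cons 0 3 SL.nil))) WtL.nil
  (FamL.cons 1 43 39 3685 3343 43 0 (SL.cons 0 1 (SL.cons 0 9 (SL.cons 0 1 (SL.cons 0 2 (SL.cons 0 1 SL.nil))))) WtL.nil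
  (FamL.cons 0 45 11 2311 565 5 0 (SL.cons 0 4 (SL.cons 0 11 SL.nil)) WtL.nil
  (FamL.cons 0 45 16 2573 915 18 0 (SL.cons 0 2 (SL.cons 0 1 (SL.cons 0 4 (SL.cons 0 3 SL.nil)))) WtL.nil
  (FamL.cons 0 45 29 2735 1763 40 0 (SL.cons 0 1 (SL.cons 0 1 (SL.cons 0 1 (SL.cons 0 4 (SL.cons 0 2 (SL.cons 0 1 SL.nil)))))) WtL.nil
  (FamL.cons 0 45 34 2997 2265 53 0 (SL.cons 0 1 (SL.cons 0 3 (SL.cons 0 10 (SL.cons 0 1 SL.nil)))) WtL.nil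
  (FamL.cons 1 46 17 2113 781 24 0 (SL.cons 0 2 (SL.cons 0 1 (SL.cons 0 2 (SL.cons 0 2 (SL.cons 0 2 SL.nil))))) WtL.nil
  (FamL.cons 1 46 29 599 378 34 0 (SL.cons 0 1 (SL.cons 0 1 (SL.cons 0 1 (SL.cons 0 2 (SL.cons 0 2 (SL.cons 0 1 (SL.cons 0 1 SL.nil))))))) WtL.nil
  (FamL.cons 1 47 23 3357 1643 56 0 (SL.cons 0 2 (SL.cons 0 22 (SL.cons 0 1 SL.nil))) WtL.nil
  (FamL.cons 1 47 24 2187 1117 2 0 (SL.cons 0 1 (SL.cons 0 1 (SL.cons 0 23 SL.nil))) WtL.nil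
  (FamL.cons 0 49 23 5055 2373 20 0 (SL.cons 0 2 (SL.cons 0 7 (SL.cons 0 1 (SL.cons 0 2 SL.nil)))) WtL.nil
  (FamL.cons 0 49 26 725 385 38 0 (SL.cons 0 1 (SL.cons 0 1 (SL.cons 0 7 (SL.cons 0 1 (SL.cons 0 1 (SL.cons 0 1 SL.nil)))))) WtL.nil
  (FamL.cons 1 50 3 217 13 20 1 (SL.cons 0 16 (SL.cons 0 1 (SL.cons 0 2 SL.nil))) (WtL.cons 3 5 1 WtL.nil)
  (FamL.cons 1 50 47 2731 2568 38 0 (SL.cons 0 1 (SL.cons 0 15 (SL.cons 0 1 (SL.cons 0 1 (SL.cons 0 1 SL.nil))))) WtL.nil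
  (FamL.cons 0 51 14 2393 657 46 0 (SL.cons 0 3 (SL.cons 0 1 (SL.cons 0 1 (SL.cons 0 1 (SL.cons 0 3 (SL.cons 0 1 SL.nil)))))) WtL.nil
  (FamL.cons 0 51 20 2955 1159 32 0 (SL.cons 0 2 (SL.cons 0 1 (SL.cons 0 1 (SL.cons 0 4 (SL.cons 0 1 (SL.cons 0 1 SL.nil)))))) WtL.nil
  (FamL.cons 0 51 31 3061 1861 26 0 (SL.cons 0 1 (SL.cons 0 1 (SL.cons 0 1 (SL.cons 0 1 (SL.cons 0 4 (SL.cons 0 2 SL.nil)))))) WtL.nil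
  (FamL.cons 0 51 37 3623 2629 12 0 (SL.cons 0 1 (SL.cons 0 2 (SL.cons 0 1 (SL.cons 0 1 (SL.cons 0 1 (SL.cons 0 4 SL.nil)))))) WtL.nil
  FamL.nil))))))))))))))))))))))))))))))

theorem LQ59_3_sv : LQ59_3.all (gSvO 59 (sieA1 59 11 4 4 6 8 15 0 0 17 3) (sieA1 59 11 4 4 6 8 15 0 0 17 3)) = true := by
  decide +kernel

theorem LQ59_3_nm : LQ59_3.all (gNmO 59 37 37) = true := by decide +kernel

theorem LQ59_3_cov : covO 59 LQ59_3 35 17 = true := by decide +kernel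

/-- the families with 52 ≤ y < 68 -/
def LQ59_4 : FamL := (FamL.cons 0 53 10 2973 561 41 0 (SL.cons 0 5 (SL.cons 0 3 (SL.cons 0 2 (SL.cons 0 1 SL.nil)))) WtL.nil
  (FamL.cons 0 53 43 3279 2661 17 0 (SL.cons 0 1 (SL.cons 0 4 (SL.cons 0 3 (SL.cons 0 3 SL.nil)))) WtL.nil
  (FamL.cons 1 53 18 1363 463 3 0 (SL.cons 0 2 (SL.cons 0 1 (SL.cons 0 17 SL.nil))) WtL.nil
  (FamL.cons 1 53 35 4889 3229 55 0 (SL.cons 0 1 (SL.cons 0 1 (SL.cons 0 1 (SL.cons 0 16 (SL.cons 0 1 SL.nil))))) WtL.nil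
  (FamL.cons 1 55 2 2833 103 30 0 (SL.cons 0 27 (SL.cons 0 1 (SL.cons 0 1 SL.nil))) WtL.nil
  (FamL.cons 1 55 13 3871 915 18 0 (SL.cons 0 4 (SL.cons 0 4 (SL.cons 0 3 SL.nil))) WtL.nil
  (FamL.cons 1 55 42 2617 1999 40 0 (SL.cons 0 1 (SL.cons 0 3 (SL.cons 0 4 (SL.cons 0 2 (SL.cons 0 1 SL.nil))))) WtL.nil
  (FamL.cons 1 55 53 3655 3523 28 0 (SL.cons 0 1 (SL.cons 0 26 (SL.cons 0 2 SL.nil))) WtL.nil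
  (FamL.cons 0 57 13 5441 1241 36 0 (SL.cons 0 4 (SL.cons 0 2 (SL.cons 0 1 (SL.cons 0 1 (SL.cons 0 1 (SL.cons 0 1 SL.nil)))))) WtL.nil
  (FamL.cons 0 57 25 2031 891 42 0 (SL.cons 0 2 (SL.cons 0 3 (SL.cons 0 1 (SL.cons 0 1 (SL.cons 0 2 (SL.cons 0 1 SL.nil)))))) WtL.nil
  (FamL.cons 0 57 32 4693 2635 16 0 (SL.cons 0 1 (SL.cons 0 1 (SL.cons 0 3 (SL.cons 0 1 (SL.cons 0 1 (SL.cons 0 3 SL.nil)))))) WtL.nil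
  (FamL.cons 0 57 44 1283 991 22 0 (SL.cons 0 1 (SL.cons 0 3 (SL.cons 0 2 (SL.cons 0 1 (SL.cons 0 1 (SL.cons 0 2 SL.nil)))))) WtL.nil
  (FamL.cons 1 58 1 3365 58 1 0 (SL.cons 0 58 SL.nil) WtL.nil
  (FamL.cons 1 58 57 55 55 57 1 (SL.cons 0 1 (SL.cons 0 56 (SL.cons 0 1 SL.nil))) (WtL.cons 2 1 59 WtL.nil)
  (FamL.cons 0 60 1 3479 58 58 0 (SL.cons 0 59 (SL.cons 0 1 SL.nil)) WtL.nil
  (FamL.cons 0 60 11 627 115 48 0 (SL.cons 0 5 (SL.cons 0 2 (SL.cons 0 4 (SL.cons 0 1 SL.nil)))) WtL.nil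
  (FamL.cons 0 60 19 2027 642 40 0 (SL.cons 0 3 (SL.cons 0 6 (SL.cons 0 2 (SL.cons 0 1 SL.nil)))) WtL.nil
  (FamL.cons 0 60 29 945 457 30 0 (SL.cons 0 2 (SL.cons 0 14 (SL.cons 0 1 (SL.cons 0 1 SL.nil)))) WtL.nil
  (FamL.cons 0 60 31 2593 1340 28 0 (SL.cons 0 1 (SL.cons 0 1 (SL.cons 0 14 (SL.cons 0 2 SL.nil)))) WtL.nil
  (FamL.cons 0 60 41 1511 1033 18 0 (SL.cons 0 1 (SL.cons 0 2 (SL.cons 0 6 (SL.cons 0 3 SL.nil)))) WtL.nil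
  (FamL.cons 0 60 49 2911 2378 10 0 (SL.cons 0 1 (SL.cons 0 4 (SL.cons 0 2 (SL.cons 0 5 SL.nil)))) WtL.nil
  (FamL.cons 0 60 59 59 59 0 1 (SL.cons 0 1 (SL.cons 0 59 SL.nil)) (WtL.cons 1 3 0 WtL.nil)
  (FamL.cons 1 62 11 2215 393 16 0 (SL.cons 0 5 (SL.cons 0 1 (SL.cons 0 1 (SL.cons 0 1 (SL.cons 0 3 SL.nil))))) WtL.nil
  (FamL.cons 1 62 51 1441 1186 42 0 (SL.cons 0 1 (SL.cons 0 4 (SL.cons 0 1 (SL.cons 0 1 (SL.cons 0 1 (SL.cons 0 2 (SL.cons 0 1 SL.nil))))))) WtL.nil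
  (FamL.cons 0 63 2 6961 221 29 0 (SL.cons 0 31 (SL.cons 0 2 SL.nil)) WtL.nil
  (FamL.cons 0 63 16 169 43 55 1 (SL.cons 0 3 (SL.cons 0 1 (SL.cons 0 14 (SL.cons 0 1 SL.nil)))) (WtL.cons 3 13 2 WtL.nil)
  (FamL.cons 0 63 47 7263 5419 3 0 (SL.cons 0 1 (SL.cons 0 2 (SL.cons 0 1 (SL.cons 0 15 SL.nil)))) WtL.nil
  (FamL.cons 0 63 61 471 457 29 1 (SL.cons 0 1 (SL.cons 0 30 (SL.cons 0 1 (SL.cons 0 1 SL.nil)))) (WtL.cons 3 3 1 WtL.nil)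
  (FamL.cons 1 67 27 5377 2167 4 0 (SL.cons 0 2 (SL.cons 0 2 (SL.cons 0 13 SL.nil))) WtL.nil
  (FamL.cons 1 67 40 2527 1509 54 0 (SL.cons 0 1 (SL.cons 0 1 (SL.cons 0 2 (SL.cons 0 12 (SL.cons 0 1 SL.nil))))) WtL.nil
  FamL.nil))))))))))))))))))))))))))))))

theorem LQ59_4_sv : LQ59_4.all (gSvO 59 (sieA1 59 11 4 4 6 8 15 0 0 17 3) (sieA1 59 11 4 4 6 8 15 0 0 17 3)) = true := by
  decide +kernel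

theorem LQ59_4_nm : LQ59_4.all (gNmO 59 37 37) = true := by decide +kernel

theorem LQ59_4_cov : covO 59 LQ59_4 52 16 = true := by decide +kernel

/-- the families with 68 ≤ y < 85 -/
def LQ59_5 : FamL := (FamL.cons 0 68 3 2969 131 39 0 (SL.cons 0 22 (SL.cons 0 1 (SL.cons 0 1 (SL.cons 0 1 SL.nil)))) WtL.nil
  (FamL.cons 0 68 31 39 18 49 1 (SL.cons 0 2 (SL.cons 0 5 (SL.cons 0 5 (SL.cons 0 1 SL.nil)))) (WtL.cons 1 3 0 WtL.nil)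
  (FamL.cons 0 68 37 3971 2161 9 0 (SL.cons 0 1 (SL.cons 0 1 (SL.cons 0 5 (SL.cons 0 6 SL.nil)))) WtL.nil
  (FamL.cons 0 68 65 1041 996 19 0 (SL.cons 0 1 (SL.cons 0 21 (SL.cons 0 1 (SL.cons 0 2 SL.nil)))) WtL.nil
  (FamL.cons 0 71 15 2977 629 43 0 (SL.cons 0 4 (SL.cons 0 1 (SL.cons 0 2 (SL.cons 0 1 (SL.cons 0 2 (SL.cons 0 1 SL.nil)))))) WtL.nil
  (FamL.cons 0 71 56 5399 4259 15 0 (SL.cons 0 1 (SL.cons 0 3 (SL.cons 0 1 (SL.cons 0 2 (SL.cons 0 1 (SL.cons 0 3 SL.nil)))))) WtL.nil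
  (FamL.cons 0 75 4 4631 247 44 0 (SL.cons 0 18 (SL.cons 0 1 (SL.cons 0 2 (SL.cons 0 1 SL.nil)))) WtL.nil
  (FamL.cons 0 75 29 6597 2551 24 0 (SL.cons 0 2 (SL.cons 0 1 (SL.cons 0 1 (SL.cons 0 2 (SL.cons 0 2 (SL.cons 0 2 SL.nil)))))) WtL.nil
  (FamL.cons 0 75 46 2251 1381 34 0 (SL.cons 0 1 (SL.cons 0 1 (SL.cons 0 1 (SL.cons 0 1 (SL.cons 0 2 (SL.cons 0 2 (SL.cons 0 1 (SL.cons 0 1 SL.nil)))))))) WtL.nil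
  (FamL.cons 0 75 71 4217 3993 14 0 (SL.cons 0 1 (SL.cons 0 17 (SL.cons 0 1 (SL.cons 0 3 SL.nil)))) WtL.nil
  (FamL.cons 0 76 13 4361 746 27 0 (SL.cons 0 5 (SL.cons 0 1 (SL.cons 0 5 (SL.cons 0 2 SL.nil)))) WtL.nil
  (FamL.cons 0 76 25 1243 409 2 0 (SL.cons 0 3 (SL.cons 0 25 SL.nil)) WtL.nil
  (FamL.cons 0 76 51 3239 2174 56 0 (SL.cons 0 1 (SL.cons 0 2 (SL.cons 0 24 (SL.cons 0 1 SL.nil)))) WtL.nil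
  (FamL.cons 0 76 63 121 101 31 1 (SL.cons 0 1 (SL.cons 0 4 (SL.cons 0 1 (SL.cons 0 5 (SL.cons 0 1 (SL.cons 0 1 SL.nil)))))) (WtL.cons 3 3 1 WtL.nil)
  (FamL.cons 0 79 39 5017 2477 1 0 (SL.cons 0 2 (SL.cons 0 39 SL.nil)) WtL.nil
  (FamL.cons 0 79 40 4303 2179 57 0 (SL.cons 0 1 (SL.cons 0 1 (SL.cons 0 38 (SL.cons 0 1 SL.nil)))) WtL.nil
  (FamL.cons 0 81 34 5205 2185 36 0 (SL.cons 0 2 (SL.cons 0 2 (SL.cons 0 1 (SL.cons 0 1 (SL.cons 0 1 (SL.cons 0 1 (SL.cons 0 1 (SL.cons 0 1 SL.nil)))))))) WtL.nil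
  (FamL.cons 0 81 47 4351 2525 22 0 (SL.cons 0 1 (SL.cons 0 1 (SL.cons 0 2 (SL.cons 0 1 (SL.cons 0 1 (SL.cons 0 1 (SL.cons 0 1 (SL.cons 0 2 SL.nil)))))))) WtL.nil
  (FamL.cons 1 82 31 2129 805 32 0 (SL.cons 0 2 (SL.cons 0 1 (SL.cons 0 1 (SL.cons 0 1 (SL.cons 0 4 (SL.cons 0 1 (SL.cons 0 1 SL.nil))))))) WtL.nil
  (FamL.cons 1 82 51 2707 1684 26 0 (SL.cons 0 1 (SL.cons 0 1 (SL.cons 0 1 (SL.cons 0 1 (SL.cons 0 1 (SL.cons 0 4 (SL.cons 0 2 SL.nil))))))) WtL.nil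
  (FamL.cons 1 83 15 1931 349 51 0 (SL.cons 0 5 (SL.cons 0 1 (SL.cons 0 1 (SL.cons 0 6 (SL.cons 0 1 SL.nil))))) WtL.nil
  (FamL.cons 1 83 68 7861 6441 7 0 (SL.cons 0 1 (SL.cons 0 4 (SL.cons 0 1 (SL.cons 0 1 (SL.cons 0 7 SL.nil))))) WtL.nil
  (FamL.cons 0 84 5 4519 269 47 0 (SL.cons 0 16 (SL.cons 0 1 (SL.cons 0 3 (SL.cons 0 1 SL.nil)))) WtL.nil
  (FamL.cons 0 84 19 4381 991 37 0 (SL.cons 0 4 (SL.cons 0 2 (SL.cons 0 2 (SL.cons 0 1 (SL.cons 0 1 (SL.cons 0 1 SL.nil)))))) WtL.nil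
  (FamL.cons 0 84 23 4291 1175 51 0 (SL.cons 0 3 (SL.cons 0 1 (SL.cons 0 1 (SL.cons 0 1 (SL.cons 0 6 (SL.cons 0 1 SL.nil)))))) WtL.nil
  (FamL.cons 0 84 37 1675 738 41 0 (SL.cons 0 2 (SL.cons 0 3 (SL.cons 0 1 (SL.cons 0 2 (SL.cons 0 2 (SL.cons 0 1 SL.nil)))))) WtL.nil
  (FamL.cons 0 84 47 3279 1835 17 0 (SL.cons 0 1 (SL.cons 0 1 (SL.cons 0 3 (SL.cons 0 1 (SL.cons 0 2 (SL.cons 0 3 SL.nil)))))) WtL.nil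
  (FamL.cons 0 84 61 663 482 7 0 (SL.cons 0 1 (SL.cons 0 2 (SL.cons 0 1 (SL.cons 0 1 (SL.cons 0 1 (SL.cons 0 7 SL.nil)))))) WtL.nil
  (FamL.cons 0 84 65 573 444 21 0 (SL.cons 0 1 (SL.cons 0 3 (SL.cons 0 2 (SL.cons 0 2 (SL.cons 0 1 (SL.cons 0 2 SL.nil)))))) WtL.nil
  (FamL.cons 0 84 79 435 410 11 1 (SL.cons 0 1 (SL.cons 0 15 (SL.cons 0 1 (SL.cons 0 4 SL.nil)))) (WtL.cons 3 2 0 WtL.nil)
  FamL.nil))))))))))))))))))))))))))))))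

theorem LQ59_5_sv : LQ59_5.all (gSvO 59 (sieA1 59 11 4 4 6 8 15 0 0 17 3) (sieA1 59 11 4 4 6 8 15 0 0 17 3)) = true := by
  decide +kernel

theorem LQ59_5_nm : LQ59_5.all (gNmO 59 37 37) = true := by decide +kernel

theorem LQ59_5_cov : covO 59 LQ59_5 68 17 = true := by decide +kernel

/-- the families with 85 ≤ y < 101 -/
def LQ59_6 : FamL := (FamL.cons 0 85 14 3843 633 4 0 (SL.cons 0 6 (SL.cons 0 14 SL.nil)) WtL.nil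
  (FamL.cons 0 85 31 633 231 51 0 (SL.cons 0 2 (SL.cons 0 1 (SL.cons 0 2 (SL.cons 0 1 (SL.cons 0 6 (SL.cons 0 1 SL.nil)))))) WtL.nil
  (FamL.cons 0 85 54 9395 5969 7 0 (SL.cons 0 1 (SL.cons 0 1 (SL.cons 0 1 (SL.cons 0 2 (SL.cons 0 1 (SL.cons 0 7 SL.nil)))))) WtL.nil
  (FamL.cons 0 85 71 6185 5167 54 0 (SL.cons 0 1 (SL.cons 0 5 (SL.cons 0 13 (SL.cons 0 1 SL.nil)))) WtL.nil
  (FamL.cons 1 85 12 9017 1273 54 0 (SL.cons 0 7 (SL.cons 0 11 (SL.cons 0 1 SL.nil))) WtL.nil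
  (FamL.cons 1 85 22 8635 2235 40 0 (SL.cons 0 3 (SL.cons 0 1 (SL.cons 0 6 (SL.cons 0 2 (SL.cons 0 1 SL.nil))))) WtL.nil
  (FamL.cons 1 85 63 1393 1033 18 0 (SL.cons 0 1 (SL.cons 0 2 (SL.cons 0 1 (SL.cons 0 6 (SL.cons 0 3 SL.nil))))) WtL.nil
  (FamL.cons 1 85 73 1011 869 4 0 (SL.cons 0 1 (SL.cons 0 6 (SL.cons 0 12 SL.nil))) WtL.nil
  (FamL.cons 1 86 39 3111 1411 51 0 (SL.cons 0 2 (SL.cons 0 4 (SL.cons 0 1 (SL.cons 0 6 (SL.cons 0 1 SL.nil))))) WtL.nil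
  (FamL.cons 1 86 47 1961 1072 7 0 (SL.cons 0 1 (SL.cons 0 1 (SL.cons 0 4 (SL.cons 0 1 (SL.cons 0 7 SL.nil))))) WtL.nil
  (FamL.cons 0 87 17 8971 1753 31 0 (SL.cons 0 5 (SL.cons 0 8 (SL.cons 0 1 (SL.cons 0 1 SL.nil)))) WtL.nil
  (FamL.cons 0 87 41 3575 1685 47 0 (SL.cons 0 2 (SL.cons 0 8 (SL.cons 0 4 (SL.cons 0 1 SL.nil)))) WtL.nil
  (FamL.cons 0 87 46 6689 3537 11 0 (SL.cons 0 1 (SL.cons 0 1 (SL.cons 0 8 (SL.cons 0 5 SL.nil)))) WtL.nil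
  (FamL.cons 0 87 70 1293 1041 27 0 (SL.cons 0 1 (SL.cons 0 4 (SL.cons 0 8 (SL.cons 0 2 SL.nil)))) WtL.nil
  (FamL.cons 1 94 23 3065 750 28 0 (SL.cons 0 4 (SL.cons 0 11 (SL.cons 0 2 SL.nil))) WtL.nil
  (FamL.cons 1 94 71 2479 1873 30 0 (SL.cons 0 1 (SL.cons 0 3 (SL.cons 0 11 (SL.cons 0 1 (SL.cons 0 1 SL.nil))))) WtL.nil
  (FamL.cons 0 95 6 1219 77 49 0 (SL.cons 0 15 (SL.cons 0 1 (SL.cons 0 4 (SL.cons 0 1 SL.nil)))) WtL.nil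
  (FamL.cons 0 95 44 8841 4095 25 0 (SL.cons 0 2 (SL.cons 0 6 (SL.cons 0 3 (SL.cons 0 2 SL.nil)))) WtL.nil
  (FamL.cons 0 95 51 2367 1271 33 0 (SL.cons 0 1 (SL.cons 0 1 (SL.cons 0 6 (SL.cons 0 3 (SL.cons 0 1 (SL.cons 0 1 SL.nil)))))) WtL.nil
  (FamL.cons 0 95 89 9989 9359 9 0 (SL.cons 0 1 (SL.cons 0 14 (SL.cons 0 1 (SL.cons 0 5 SL.nil)))) WtL.nil
  (FamL.cons 0 100 21 2795 587 11 0 (SL.cons 0 4 (SL.cons 0 1 (SL.cons 0 3 (SL.cons 0 5 SL.nil)))) WtL.nil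
  (FamL.cons 0 100 29 4579 1328 18 0 (SL.cons 0 3 (SL.cons 0 2 (SL.cons 0 4 (SL.cons 0 3 SL.nil)))) WtL.nil
  (FamL.cons 0 100 71 1319 937 40 0 (SL.cons 0 1 (SL.cons 0 2 (SL.cons 0 2 (SL.cons 0 4 (SL.cons 0 2 (SL.cons 0 1 SL.nil)))))) WtL.nil
  (FamL.cons 0 100 79 3103 2452 47 0 (SL.cons 0 1 (SL.cons 0 3 (SL.cons 0 1 (SL.cons 0 3 (SL.cons 0 4 (SL.cons 0 1 SL.nil)))))) WtL.nil
  FamL.nil))))))))))))))))))))))))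

theorem LQ59_6_sv : LQ59_6.all (gSvO 59 (sieA1 59 11 4 4 6 8 15 0 0 17 3) (sieA1 59 11 4 4 6 8 15 0 0 17 3)) = true := by
  decide +kernel

theorem LQ59_6_nm : LQ59_6.all (gNmO 59 37 37) = true := by decide +kernel

theorem LQ59_6_cov : covO 59 LQ59_6 85 16 = true := by decide +kernel

theorem one59 {d : ℕ} (F : FDO d 59 1) (hS : SolO d 59 1) : H419R2.tb LO d = true :=
  one_soundO (Tm := 1) (Tp := 0) (wm := (WtL.cons 1 3 0 WtL.nil)) (wp := WtL.nil)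
    (by norm_num) (by norm_num) sb59_1 sb59_1 (by decide +kernel) (by decide +kernel)
    (by decide +kernel) (by decide +kernel) (by decide +kernel) F hS

theorem all59 {d y : ℕ} (F : FDO d 59 y) (hS : SolO d 59 y) (h0 : 0 < y) (h60 : y ≤ 100) :
    H419R2.tb LO d = true := by
  have hP : Nat.Prime 59 := by norm_num
  by_cases h1 : y = 1
  · subst h1
    exact one59 F hS
  by_cases h1' : y < 20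
  · exact chunk_soundO hP (by norm_num) sb59_1 sb59_1 LQ59_1_sv LQ59_1_nm LQ59_1_cov F hS (by omega) (by omega) (by omega)
  by_cases h2' : y < 35
  · exact chunk_soundO hP (by norm_num) sb59_1 sb59_1 LQ59_2_sv LQ59_2_nm LQ59_2_cov F hS (by omega) (by omega) (by omega)
  by_cases h3' : y < 52
  · exact chunk_soundO hP (by norm_num) sb59_1 sb59_1 LQ59_3_sv LQ59_3_nm LQ59_3_cov F hS (by omega) (by omega) (by omega)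
  by_cases h4' : y < 68
  · exact chunk_soundO hP (by norm_num) sb59_1 sb59_1 LQ59_4_sv LQ59_4_nm LQ59_4_cov F hS (by omega) (by omega) (by omega)
  by_cases h5' : y < 85
  · exact chunk_soundO hP (by norm_num) sb59_1 sb59_1 LQ59_5_sv LQ59_5_nm LQ59_5_cov F hS (by omega) (by omega) (by omega)
  exact chunk_soundO hP (by norm_num) sb59_1 sb59_1 LQ59_6_sv LQ59_6_nm LQ59_6_cov F hS (by omega) (by omega) (by omega)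

end Pool.Agent.H449
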