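import Pool.Agent.H449.O7

/-! Families for the prime 67. -/

set_option maxRecDepth 100000

namespace Pool.Agent.H449

/-- the families with 2 ≤ y < 22 -/
def LQ67_1 : FamL := (FamL.cons 1 2 1 133 50 33 0 (SL.cons 0 2 SL.nil) WtL.nil
  (FamL.cons 1 3 1 379 119 22 0 (SL.cons 0 3 SL.nil) WtL.nil
  (FamL.cons 1 3 2 21 7 44 1 (SL.cons 0 1 (SL.cons 0 1 (SL.cons 0 1 SL.nil))) (WtL.cons 0 0 0 WtL.nil)
  (FamL.cons 0 4 1 167 46 50 0 (SL.cons 0 3 (SL.cons 0 1 SL.nil)) WtL.nil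
  (FamL.cons 0 4 3 99 79 16 1 (SL.cons 0 1 (SL.cons 0 3 SL.nil)) (WtL.cons 3 3 1 WtL.nil)
  (FamL.cons 1 6 1 89 13 11 1 (SL.cons 0 6 SL.nil) (WtL.cons 3 7 1 WtL.nil)
  (FamL.cons 1 6 5 311 258 55 0 (SL.cons 0 1 (SL.cons 0 4 (SL.cons 0 1 SL.nil))) WtL.nil
  (FamL.cons 1 7 2 813 231 38 0 (SL.cons 0 3 (SL.cons 0 1 (SL.cons 0 1 SL.nil))) WtL.nil
  (FamL.cons 1 7 5 123 87 28 1 (SL.cons 0 1 (SL.cons 0 2 (SL.cons 0 2 SL.nil))) (WtL.cons 3 3 0 WtL.nil)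
  (FamL.cons 1 9 2 1079 239 37 0 (SL.cons 0 4 (SL.cons 0 1 (SL.cons 0 1 SL.nil))) WtL.nil
  (FamL.cons 1 9 7 125 97 29 1 (SL.cons 0 1 (SL.cons 0 3 (SL.cons 0 2 SL.nil))) (WtL.cons 3 7 3 WtL.nil)
  (FamL.cons 1 11 1 347 31 6 1 (SL.cons 0 11 SL.nil) (WtL.cons 3 7 5 WtL.nil)
  (FamL.cons 1 11 10 1125 1023 60 0 (SL.cons 0 1 (SL.cons 0 9 (SL.cons 0 1 SL.nil))) WtL.nil
  (FamL.cons 1 14 5 765 273 14 0 (SL.cons 0 2 (SL.cons 0 1 (SL.cons 0 4 SL.nil))) WtL.nil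
  (FamL.cons 1 14 9 171 110 52 0 (SL.cons 0 1 (SL.cons 0 1 (SL.cons 0 1 (SL.cons 0 3 (SL.cons 0 1 SL.nil))))) WtL.nil
  (FamL.cons 0 17 1 863 51 63 0 (SL.cons 0 16 (SL.cons 0 1 SL.nil)) WtL.nil
  (FamL.cons 0 17 16 1413 1331 3 0 (SL.cons 0 1 (SL.cons 0 16 SL.nil)) WtL.nil
  (FamL.cons 1 17 4 2045 481 51 0 (SL.cons 0 4 (SL.cons 0 3 (SL.cons 0 1 SL.nil))) WtL.nil
  (FamL.cons 1 17 13 231 177 15 0 (SL.cons 0 1 (SL.cons 0 3 (SL.cons 0 4 SL.nil))) WtL.nil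
  (FamL.cons 1 18 7 967 376 48 0 (SL.cons 0 2 (SL.cons 0 1 (SL.cons 0 1 (SL.cons 0 2 (SL.cons 0 1 SL.nil))))) WtL.nil
  (FamL.cons 1 18 11 237 145 18 0 (SL.cons 0 1 (SL.cons 0 1 (SL.cons 0 1 (SL.cons 0 1 (SL.cons 0 3 SL.nil))))) WtL.nil
  (FamL.cons 0 19 3 1449 229 21 0 (SL.cons 0 6 (SL.cons 0 3 SL.nil)) WtL.nil
  (FamL.cons 0 19 16 1095 923 45 0 (SL.cons 0 1 (SL.cons 0 5 (SL.cons 0 2 (SL.cons 0 1 SL.nil)))) WtL.nil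
  (FamL.cons 1 21 2 1209 115 35 0 (SL.cons 0 10 (SL.cons 0 1 (SL.cons 0 1 SL.nil))) WtL.nil
  (FamL.cons 1 21 5 979 233 54 0 (SL.cons 0 4 (SL.cons 0 4 (SL.cons 0 1 SL.nil))) WtL.nil
  (FamL.cons 1 21 16 1833 1397 12 0 (SL.cons 0 1 (SL.cons 0 3 (SL.cons 0 5 SL.nil))) WtL.nil
  (FamL.cons 1 21 19 1603 1451 31 0 (SL.cons 0 1 (SL.cons 0 9 (SL.cons 0 2 SL.nil))) WtL.nil
  FamL.nil)))))))))))))))))))))))))))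

theorem LQ67_1_sv : LQ67_1.all (gSvO 67 (sieA1 67 3 8 0 0 24 7 0 5 8 2) (sieA1 67 3 8 0 0 24 7 0 5 8 2)) = true := by
  decide +kernel

theorem LQ67_1_nm : LQ67_1.all (gNmO 67 37 37) = true := by decide +kernel

theorem LQ67_1_cov : covO 67 LQ67_1 2 20 = true := by decide +kernel

/-- the families with 22 ≤ y < 43 -/
def LQ67_2 : FamL := (FamL.cons 1 22 1 1279 58 3 0 (SL.cons 0 22 SL.nil) WtL.nil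
  (FamL.cons 1 22 21 193 185 63 1 (SL.cons 0 1 (SL.cons 0 20 (SL.cons 0 1 SL.nil))) (WtL.cons 1 3 0 WtL.nil)
  (FamL.cons 0 23 5 2129 463 26 0 (SL.cons 0 4 (SL.cons 0 1 (SL.cons 0 1 (SL.cons 0 2 SL.nil)))) WtL.nil
  (FamL.cons 0 23 18 951 745 40 0 (SL.cons 0 1 (SL.cons 0 3 (SL.cons 0 1 (SL.cons 0 1 (SL.cons 0 1 (SL.cons 0 1 SL.nil)))))) WtL.nil
  (FamL.cons 1 27 11 2771 1129 12 0 (SL.cons 0 2 (SL.cons 0 2 (SL.cons 0 5 SL.nil))) WtL.nil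
  (FamL.cons 1 27 16 845 501 54 0 (SL.cons 0 1 (SL.cons 0 1 (SL.cons 0 2 (SL.cons 0 4 (SL.cons 0 1 SL.nil))))) WtL.nil
  (FamL.cons 0 29 7 219 53 9 1 (SL.cons 0 4 (SL.cons 0 7 SL.nil)) (WtL.cons 3 11 5 WtL.nil)
  (FamL.cons 0 29 22 3665 2781 57 0 (SL.cons 0 1 (SL.cons 0 3 (SL.cons 0 6 (SL.cons 0 1 SL.nil)))) WtL.nil
  (FamL.cons 1 29 3 2659 275 23 0 (SL.cons 0 9 (SL.cons 0 1 (SL.cons 0 2 SL.nil))) WtL.nil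
  (FamL.cons 1 29 26 1225 1099 43 0 (SL.cons 0 1 (SL.cons 0 8 (SL.cons 0 1 (SL.cons 0 1 (SL.cons 0 1 SL.nil))))) WtL.nil
  (FamL.cons 1 31 6 3529 683 56 0 (SL.cons 0 5 (SL.cons 0 5 (SL.cons 0 1 SL.nil))) WtL.nil
  (FamL.cons 1 31 25 623 503 10 0 (SL.cons 0 1 (SL.cons 0 4 (SL.cons 0 6 SL.nil))) WtL.nil
  (FamL.cons 1 33 1 2081 63 2 0 (SL.cons 0 33 SL.nil) WtL.nil
  (FamL.cons 1 33 10 3323 1007 20 0 (SL.cons 0 3 (SL.cons 0 3 (SL.cons 0 3 SL.nil))) WtL.nil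
  (FamL.cons 1 33 23 1097 765 46 0 (SL.cons 0 1 (SL.cons 0 2 (SL.cons 0 3 (SL.cons 0 2 (SL.cons 0 1 SL.nil))))) WtL.nil
  (FamL.cons 1 33 32 2339 2269 64 0 (SL.cons 0 1 (SL.cons 0 31 (SL.cons 0 1 SL.nil))) WtL.nil
  (FamL.cons 1 34 13 685 262 41 0 (SL.cons 0 2 (SL.cons 0 1 (SL.cons 0 1 (SL.cons 0 1 (SL.cons 0 1 (SL.cons 0 1 (SL.cons 0 1 SL.nil))))))) WtL.nil
  (FamL.cons 1 34 21 1591 983 25 0 (SL.cons 0 1 (SL.cons 0 1 (SL.cons 0 1 (SL.cons 0 1 (SL.cons 0 1 (SL.cons 0 1 (SL.cons 0 2 SL.nil))))))) WtL.nil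
  (FamL.cons 0 37 9 349 85 7 1 (SL.cons 0 4 (SL.cons 0 9 SL.nil)) (WtL.cons 3 5 0 WtL.nil)
  (FamL.cons 0 37 28 4607 3487 59 0 (SL.cons 0 1 (SL.cons 0 3 (SL.cons 0 8 (SL.cons 0 1 SL.nil)))) WtL.nil
  (FamL.cons 1 37 17 1225 563 43 0 (SL.cons 0 2 (SL.cons 0 5 (SL.cons 0 1 (SL.cons 0 1 (SL.cons 0 1 SL.nil))))) WtL.nil
  (FamL.cons 1 37 20 3731 2017 23 0 (SL.cons 0 1 (SL.cons 0 1 (SL.cons 0 5 (SL.cons 0 1 (SL.cons 0 2 SL.nil))))) WtL.nil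
  (FamL.cons 1 42 5 1193 142 27 0 (SL.cons 0 8 (SL.cons 0 2 (SL.cons 0 2 SL.nil))) WtL.nil
  (FamL.cons 1 42 19 1505 681 49 0 (SL.cons 0 2 (SL.cons 0 4 (SL.cons 0 1 (SL.cons 0 2 (SL.cons 0 1 SL.nil))))) WtL.nil
  (FamL.cons 1 42 23 1307 716 17 0 (SL.cons 0 1 (SL.cons 0 1 (SL.cons 0 4 (SL.cons 0 1 (SL.cons 0 3 SL.nil))))) WtL.nil
  (FamL.cons 1 42 37 1619 1427 39 0 (SL.cons 0 1 (SL.cons 0 7 (SL.cons 0 2 (SL.cons 0 1 (SL.cons 0 1 SL.nil))))) WtL.nil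
  FamL.nil))))))))))))))))))))))))))

theorem LQ67_2_sv : LQ67_2.all (gSvO 67 (sieA1 67 3 8 0 0 24 7 0 5 8 2) (sieA1 67 3 8 0 0 24 7 0 5 8 2)) = true := by
  decide +kernel

theorem LQ67_2_nm : LQ67_2.all (gNmO 67 37 37) = true := by decide +kernel

theorem LQ67_2_cov : covO 67 LQ67_2 22 21 = true := by decide +kernel

/-- the families with 43 ≤ y < 67 -/
def LQ67_3 : FamL := (FamL.cons 1 43 14 5685 1851 62 0 (SL.cons 0 3 (SL.cons 0 13 (SL.cons 0 1 SL.nil))) WtL.nil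
  (FamL.cons 1 43 29 75 51 4 1 (SL.cons 0 1 (SL.cons 0 2 (SL.cons 0 14 SL.nil))) (WtL.cons 3 3 0 WtL.nil)
  (FamL.cons 0 47 11 115 27 24 1 (SL.cons 0 4 (SL.cons 0 3 (SL.cons 0 1 (SL.cons 0 2 SL.nil)))) (WtL.cons 3 3 0 WtL.nil)
  (FamL.cons 0 47 36 6181 4735 42 0 (SL.cons 0 1 (SL.cons 0 3 (SL.cons 0 3 (SL.cons 0 1 (SL.cons 0 1 (SL.cons 0 1 SL.nil)))))) WtL.nil
  (FamL.cons 1 49 19 5645 2189 42 0 (SL.cons 0 2 (SL.cons 0 1 (SL.cons 0 1 (SL.cons 0 2 (SL.cons 0 1 (SL.cons 0 1 (SL.cons 0 1 SL.nil))))))) WtL.nil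
  (FamL.cons 1 49 30 919 563 24 0 (SL.cons 0 1 (SL.cons 0 1 (SL.cons 0 1 (SL.cons 0 1 (SL.cons 0 2 (SL.cons 0 1 (SL.cons 0 2 SL.nil))))))) WtL.nil
  (FamL.cons 1 51 4 1441 113 17 0 (SL.cons 0 12 (SL.cons 0 1 (SL.cons 0 3 SL.nil))) WtL.nil
  (FamL.cons 1 51 13 4633 1181 5 0 (SL.cons 0 3 (SL.cons 0 1 (SL.cons 0 12 SL.nil))) WtL.nil
  (FamL.cons 1 51 38 2199 1639 61 0 (SL.cons 0 1 (SL.cons 0 2 (SL.cons 0 1 (SL.cons 0 11 (SL.cons 0 1 SL.nil))))) WtL.nil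
  (FamL.cons 1 51 47 5391 4969 49 0 (SL.cons 0 1 (SL.cons 0 11 (SL.cons 0 1 (SL.cons 0 2 (SL.cons 0 1 SL.nil))))) WtL.nil
  (FamL.cons 1 54 11 481 98 6 0 (SL.cons 0 4 (SL.cons 0 1 (SL.cons 0 10 SL.nil))) WtL.nil
  (FamL.cons 1 54 43 3135 2497 60 0 (SL.cons 0 1 (SL.cons 0 3 (SL.cons 0 1 (SL.cons 0 9 (SL.cons 0 1 SL.nil))))) WtL.nil
  (FamL.cons 1 58 3 2301 119 45 0 (SL.cons 0 19 (SL.cons 0 2 (SL.cons 0 1 SL.nil))) WtL.nil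
  (FamL.cons 1 58 55 1583 1502 21 0 (SL.cons 0 1 (SL.cons 0 18 (SL.cons 0 3 SL.nil))) WtL.nil
  (FamL.cons 0 59 13 4107 905 10 0 (SL.cons 0 4 (SL.cons 0 1 (SL.cons 0 1 (SL.cons 0 6 SL.nil)))) WtL.nil
  (FamL.cons 0 59 46 3797 2961 56 0 (SL.cons 0 1 (SL.cons 0 3 (SL.cons 0 1 (SL.cons 0 1 (SL.cons 0 5 (SL.cons 0 1 SL.nil)))))) WtL.nil
  (FamL.cons 1 62 25 3427 1382 5 0 (SL.cons 0 2 (SL.cons 0 2 (SL.cons 0 12 SL.nil))) WtL.nil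
  (FamL.cons 1 62 37 725 433 61 0 (SL.cons 0 1 (SL.cons 0 1 (SL.cons 0 2 (SL.cons 0 11 (SL.cons 0 1 SL.nil))))) WtL.nil
  (FamL.cons 1 63 2 7907 251 34 0 (SL.cons 0 31 (SL.cons 0 1 (SL.cons 0 1 SL.nil))) WtL.nil
  (FamL.cons 1 63 16 8115 2061 4 0 (SL.cons 0 3 (SL.cons 0 1 (SL.cons 0 15 SL.nil))) WtL.nil
  (FamL.cons 1 63 47 325 243 62 1 (SL.cons 0 1 (SL.cons 0 2 (SL.cons 0 1 (SL.cons 0 14 (SL.cons 0 1 SL.nil))))) (WtL.cons 3 3 0 WtL.nil)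
  (FamL.cons 1 63 61 533 517 32 1 (SL.cons 0 1 (SL.cons 0 30 (SL.cons 0 2 SL.nil))) (WtL.cons 3 7 2 WtL.nil)
  (FamL.cons 1 66 1 4357 66 1 0 (SL.cons 0 66 SL.nil) WtL.nil
  (FamL.cons 1 66 23 3865 1347 23 0 (SL.cons 0 2 (SL.cons 0 1 (SL.cons 0 6 (SL.cons 0 1 (SL.cons 0 2 SL.nil))))) WtL.nil
  (FamL.cons 1 66 43 555 362 43 0 (SL.cons 0 1 (SL.cons 0 1 (SL.cons 0 1 (SL.cons 0 6 (SL.cons 0 1 (SL.cons 0 1 (SL.cons 0 1 SL.nil))))))) WtL.nil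
  (FamL.cons 1 66 65 63 63 65 1 (SL.cons 0 1 (SL.cons 0 64 (SL.cons 0 1 SL.nil))) (WtL.cons 1 3 0 WtL.nil)
  FamL.nil))))))))))))))))))))))))))

theorem LQ67_3_sv : LQ67_3.all (gSvO 67 (sieA1 67 3 8 0 0 24 7 0 5 8 2) (sieA1 67 3 8 0 0 24 7 0 5 8 2)) = true := by
  decide +kernel

theorem LQ67_3_nm : LQ67_3.all (gNmO 67 37 37) = true := by decide +kernel

theorem LQ67_3_cov : covO 67 LQ67_3 43 24 = true := by decide +kernel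

/-- the families with 67 ≤ y < 84 -/
def LQ67_4 : FamL := (FamL.cons 0 68 1 4487 66 66 0 (SL.cons 0 67 (SL.cons 0 1 SL.nil)) WtL.nil
  (FamL.cons 0 68 33 1207 586 34 0 (SL.cons 0 2 (SL.cons 0 16 (SL.cons 0 1 (SL.cons 0 1 SL.nil)))) WtL.nil
  (FamL.cons 0 68 35 3347 1723 32 0 (SL.cons 0 1 (SL.cons 0 1 (SL.cons 0 16 (SL.cons 0 2 SL.nil)))) WtL.nil
  (FamL.cons 0 68 67 67 67 0 1 (SL.cons 0 1 (SL.cons 0 67 SL.nil)) (WtL.cons 2 1 67 WtL.nil)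
  (FamL.cons 0 71 2 4153 117 33 0 (SL.cons 0 35 (SL.cons 0 2 SL.nil)) WtL.nil
  (FamL.cons 0 71 69 5359 5209 33 0 (SL.cons 0 1 (SL.cons 0 34 (SL.cons 0 1 (SL.cons 0 1 SL.nil)))) WtL.nil
  (FamL.cons 0 73 15 5757 1183 31 0 (SL.cons 0 4 (SL.cons 0 1 (SL.cons 0 6 (SL.cons 0 2 SL.nil)))) WtL.nil
  (FamL.cons 0 73 58 4023 3197 35 0 (SL.cons 0 1 (SL.cons 0 3 (SL.cons 0 1 (SL.cons 0 6 (SL.cons 0 1 (SL.cons 0 1 SL.nil)))))) WtL.nil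
  (FamL.cons 1 73 33 2267 1025 28 0 (SL.cons 0 2 (SL.cons 0 4 (SL.cons 0 1 (SL.cons 0 2 (SL.cons 0 2 SL.nil))))) WtL.nil
  (FamL.cons 1 73 40 7513 4117 38 0 (SL.cons 0 1 (SL.cons 0 1 (SL.cons 0 4 (SL.cons 0 1 (SL.cons 0 2 (SL.cons 0 1 (SL.cons 0 1 SL.nil))))))) WtL.nil
  (FamL.cons 1 74 17 4331 995 55 0 (SL.cons 0 4 (SL.cons 0 2 (SL.cons 0 1 (SL.cons 0 4 (SL.cons 0 1 SL.nil))))) WtL.nil
  (FamL.cons 1 74 57 625 482 11 0 (SL.cons 0 1 (SL.cons 0 3 (SL.cons 0 2 (SL.cons 0 1 (SL.cons 0 5 SL.nil))))) WtL.nil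
  (FamL.cons 0 76 3 1317 52 22 0 (SL.cons 0 25 (SL.cons 0 3 SL.nil)) WtL.nil
  (FamL.cons 0 76 35 2501 1152 11 0 (SL.cons 0 2 (SL.cons 0 5 (SL.cons 0 1 (SL.cons 0 5 SL.nil)))) WtL.nil
  (FamL.cons 0 76 41 2589 1397 55 0 (SL.cons 0 1 (SL.cons 0 1 (SL.cons 0 5 (SL.cons 0 1 (SL.cons 0 4 (SL.cons 0 1 SL.nil)))))) WtL.nil
  (FamL.cons 0 76 73 3773 3625 44 0 (SL.cons 0 1 (SL.cons 0 24 (SL.cons 0 2 (SL.cons 0 1 SL.nil)))) WtL.nil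
  (FamL.cons 1 77 12 6577 1025 39 0 (SL.cons 0 6 (SL.cons 0 2 (SL.cons 0 2 (SL.cons 0 1 (SL.cons 0 1 SL.nil))))) WtL.nil
  (FamL.cons 1 77 23 1523 455 58 0 (SL.cons 0 3 (SL.cons 0 2 (SL.cons 0 1 (SL.cons 0 6 (SL.cons 0 1 SL.nil))))) WtL.nil
  (FamL.cons 1 77 54 8793 6167 8 0 (SL.cons 0 1 (SL.cons 0 2 (SL.cons 0 2 (SL.cons 0 1 (SL.cons 0 7 SL.nil))))) WtL.nil
  (FamL.cons 1 77 65 3739 3157 27 0 (SL.cons 0 1 (SL.cons 0 5 (SL.cons 0 2 (SL.cons 0 2 (SL.cons 0 2 SL.nil))))) WtL.nil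
  (FamL.cons 1 79 15 2175 413 49 0 (SL.cons 0 5 (SL.cons 0 3 (SL.cons 0 1 (SL.cons 0 2 (SL.cons 0 1 SL.nil))))) WtL.nil
  (FamL.cons 1 79 64 8409 6813 17 0 (SL.cons 0 1 (SL.cons 0 4 (SL.cons 0 3 (SL.cons 0 1 (SL.cons 0 3 SL.nil))))) WtL.nil
  (FamL.cons 1 81 38 2129 999 26 0 (SL.cons 0 2 (SL.cons 0 7 (SL.cons 0 1 (SL.cons 0 1 (SL.cons 0 2 SL.nil))))) WtL.nil
  (FamL.cons 1 81 43 8723 4631 40 0 (SL.cons 0 1 (SL.cons 0 1 (SL.cons 0 7 (SL.cons 0 1 (SL.cons 0 1 (SL.cons 0 1 (SL.cons 0 1 SL.nil))))))) WtL.nil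
  (FamL.cons 0 83 4 5125 247 50 0 (SL.cons 0 20 (SL.cons 0 1 (SL.cons 0 2 (SL.cons 0 1 SL.nil)))) WtL.nil
  (FamL.cons 0 83 79 5995 5707 16 0 (SL.cons 0 1 (SL.cons 0 19 (SL.cons 0 1 (SL.cons 0 3 SL.nil)))) WtL.nil
  FamL.nil))))))))))))))))))))))))))

theorem LQ67_4_sv : LQ67_4.all (gSvO 67 (sieA1 67 3 8 0 0 24 7 0 5 8 2) (sieA1 67 3 8 0 0 24 7 0 5 8 2)) = true := by
  decide +kernel

theorem LQ67_4_nm : LQ67_4.all (gNmO 67 37 37) = true := by decide +kernel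

theorem LQ67_4_cov : covO 67 LQ67_4 67 17 = true := by decide +kernel

/-- the families with 84 ≤ y < 101 -/
def LQ67_5 : FamL := (FamL.cons 1 86 29 4359 1470 2 0 (SL.cons 0 2 (SL.cons 0 1 (SL.cons 0 28 SL.nil))) WtL.nil
  (FamL.cons 1 86 57 1401 929 64 0 (SL.cons 0 1 (SL.cons 0 1 (SL.cons 0 1 (SL.cons 0 27 (SL.cons 0 1 SL.nil))))) WtL.nil
  (FamL.cons 1 87 26 10771 3219 59 0 (SL.cons 0 3 (SL.cons 0 2 (SL.cons 0 1 (SL.cons 0 7 (SL.cons 0 1 SL.nil))))) WtL.nil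
  (FamL.cons 1 87 32 9953 3661 52 0 (SL.cons 0 2 (SL.cons 0 1 (SL.cons 0 2 (SL.cons 0 1 (SL.cons 0 1 (SL.cons 0 3 (SL.cons 0 1 SL.nil))))))) WtL.nil
  (FamL.cons 1 87 55 1703 1077 14 0 (SL.cons 0 1 (SL.cons 0 1 (SL.cons 0 1 (SL.cons 0 2 (SL.cons 0 1 (SL.cons 0 1 (SL.cons 0 4 SL.nil))))))) WtL.nil
  (FamL.cons 1 87 61 885 621 7 0 (SL.cons 0 1 (SL.cons 0 2 (SL.cons 0 2 (SL.cons 0 1 (SL.cons 0 8 SL.nil))))) WtL.nil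
  (FamL.cons 0 89 17 3921 749 51 0 (SL.cons 0 5 (SL.cons 0 4 (SL.cons 0 3 (SL.cons 0 1 SL.nil)))) WtL.nil
  (FamL.cons 0 89 72 8003 6475 15 0 (SL.cons 0 1 (SL.cons 0 4 (SL.cons 0 4 (SL.cons 0 4 SL.nil)))) WtL.nil
  (FamL.cons 1 89 44 6361 3145 65 0 (SL.cons 0 2 (SL.cons 0 43 (SL.cons 0 1 SL.nil))) WtL.nil
  (FamL.cons 1 89 45 5563 2813 1 0 (SL.cons 0 1 (SL.cons 0 1 (SL.cons 0 44 SL.nil))) WtL.nil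
  (FamL.cons 0 92 5 147 8 40 1 (SL.cons 0 18 (SL.cons 0 2 (SL.cons 0 1 (SL.cons 0 1 SL.nil)))) (WtL.cons 3 2 0 WtL.nil)
  (FamL.cons 0 92 41 1393 621 60 0 (SL.cons 0 2 (SL.cons 0 4 (SL.cons 0 9 (SL.cons 0 1 SL.nil)))) WtL.nil
  (FamL.cons 0 92 51 4769 2644 6 0 (SL.cons 0 1 (SL.cons 0 1 (SL.cons 0 4 (SL.cons 0 10 SL.nil)))) WtL.nil
  (FamL.cons 0 92 87 6015 5689 26 0 (SL.cons 0 1 (SL.cons 0 17 (SL.cons 0 2 (SL.cons 0 2 SL.nil)))) WtL.nil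
  (FamL.cons 1 93 25 7131 1917 48 0 (SL.cons 0 3 (SL.cons 0 1 (SL.cons 0 2 (SL.cons 0 1 (SL.cons 0 1 (SL.cons 0 2 (SL.cons 0 1 SL.nil))))))) WtL.nil
  (FamL.cons 1 93 37 12253 4875 63 0 (SL.cons 0 2 (SL.cons 0 1 (SL.cons 0 1 (SL.cons 0 17 (SL.cons 0 1 SL.nil))))) WtL.nil
  (FamL.cons 1 93 56 207 125 3 1 (SL.cons 0 1 (SL.cons 0 1 (SL.cons 0 1 (SL.cons 0 1 (SL.cons 0 18 SL.nil))))) (WtL.cons 3 5 0 WtL.nil)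
  (FamL.cons 1 93 68 5329 3897 18 0 (SL.cons 0 1 (SL.cons 0 2 (SL.cons 0 1 (SL.cons 0 2 (SL.cons 0 1 (SL.cons 0 1 (SL.cons 0 3 SL.nil))))))) WtL.nil
  (FamL.cons 1 98 19 1181 229 21 0 (SL.cons 0 5 (SL.cons 0 6 (SL.cons 0 3 SL.nil))) WtL.nil
  (FamL.cons 1 98 79 5383 4340 45 0 (SL.cons 0 1 (SL.cons 0 4 (SL.cons 0 6 (SL.cons 0 2 (SL.cons 0 1 SL.nil))))) WtL.nil
  (FamL.cons 1 99 34 6589 2263 45 0 (SL.cons 0 2 (SL.cons 0 1 (SL.cons 0 10 (SL.cons 0 2 (SL.cons 0 1 SL.nil))))) WtL.nil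
  (FamL.cons 1 99 43 1107 481 51 0 (SL.cons 0 2 (SL.cons 0 3 (SL.cons 0 3 (SL.cons 0 3 (SL.cons 0 1 SL.nil))))) WtL.nil
  (FamL.cons 1 99 56 12157 6877 15 0 (SL.cons 0 1 (SL.cons 0 1 (SL.cons 0 3 (SL.cons 0 3 (SL.cons 0 4 SL.nil))))) WtL.nil
  (FamL.cons 1 99 65 6675 4383 21 0 (SL.cons 0 1 (SL.cons 0 1 (SL.cons 0 1 (SL.cons 0 10 (SL.cons 0 3 SL.nil))))) WtL.nil
  FamL.nil))))))))))))))))))))))))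

theorem LQ67_5_sv : LQ67_5.all (gSvO 67 (sieA1 67 3 8 0 0 24 7 0 5 8 2) (sieA1 67 3 8 0 0 24 7 0 5 8 2)) = true := by
  decide +kernel

theorem LQ67_5_nm : LQ67_5.all (gNmO 67 37 37) = true := by decide +kernel

theorem LQ67_5_cov : covO 67 LQ67_5 84 17 = true := by decide +kernel

theorem one67 {d : ℕ} (F : FDO d 67 1) (hS : SolO d 67 1) : H419R2.tb LO d = true :=
  one_soundO (Tm := 1) (Tp := 0) (wm := (WtL.cons 3 7 4 WtL.nil)) (wp := WtL.nil)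
    (by norm_num) (by norm_num) sb67_1 sb67_1 (by decide +kernel) (by decide +kernel)
    (by decide +kernel) (by decide +kernel) (by decide +kernel) F hS

theorem all67 {d y : ℕ} (F : FDO d 67 y) (hS : SolO d 67 y) (h0 : 0 < y) (h60 : y ≤ 100) :
    H419R2.tb LO d = true := by
  have hP : Nat.Prime 67 := by norm_num
  by_cases h1 : y = 1
  · subst h1
    exact one67 F hS
  by_cases h1' : y < 22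
  · exact chunk_soundO hP (by norm_num) sb67_1 sb67_1 LQ67_1_sv LQ67_1_nm LQ67_1_cov F hS (by omega) (by omega) (by omega)
  by_cases h2' : y < 43
  · exact chunk_soundO hP (by norm_num) sb67_1 sb67_1 LQ67_2_sv LQ67_2_nm LQ67_2_cov F hS (by omega) (by omega) (by omega)
  by_cases h3' : y < 67
  · exact chunk_soundO hP (by norm_num) sb67_1 sb67_1 LQ67_3_sv LQ67_3_nm LQ67_3_cov F hS (by omega) (by omega) (by omega)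
  by_cases h4' : y < 84
  · exact chunk_soundO hP (by norm_num) sb67_1 sb67_1 LQ67_4_sv LQ67_4_nm LQ67_4_cov F hS (by omega) (by omega) (by omega)
  exact chunk_soundO hP (by norm_num) sb67_1 sb67_1 LQ67_5_sv LQ67_5_nm LQ67_5_cov F hS (by omega) (by omega) (by omega)

end Pool.Agent.H449
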