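import Pool.Agent.H449.O7

/-! Families for the prime 7. -/

set_option maxRecDepth 100000

namespace Pool.Agent.H449

/-- the families with 2 ≤ y < 33 -/
def LQ7_1 : FamL := (FamL.cons 1 2 1 13 5 3 5 (SL.cons 0 2 SL.nil) (WtL.cons 1 3 0 (WtL.cons 3 2 0 (WtL.cons 0 0 0 (WtL.cons 3 2 0 (WtL.cons 3 3 0 WtL.nil)))))
  (FamL.cons 1 3 1 11 3 2 3 (SL.cons 0 3 SL.nil) (WtL.cons 0 0 0 (WtL.cons 3 3 2 (WtL.cons 3 5 1 WtL.nil)))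
  (FamL.cons 1 3 2 29 19 4 2 (SL.cons 0 1 (SL.cons 0 1 (SL.cons 0 1 SL.nil))) (WtL.cons 0 0 0 (WtL.cons 1 3 0 WtL.nil))
  (FamL.cons 1 6 1 37 6 1 5 (SL.cons 0 6 SL.nil) (WtL.cons 3 2 0 (WtL.cons 3 11 4 (WtL.cons 3 2 0 (WtL.cons 3 3 0 (WtL.cons 3 2 0 WtL.nil)))))
  (FamL.cons 1 6 5 3 3 5 6 (SL.cons 0 1 (SL.cons 0 4 (SL.cons 0 1 SL.nil))) (WtL.cons 2 1 7 (WtL.cons 3 2 0 (WtL.cons 3 3 1 (WtL.cons 1 3 0 (WtL.cons 3 11 0 (WtL.cons 3 2 0 WtL.nil))))))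
  (FamL.cons 0 8 1 47 6 6 5 (SL.cons 0 7 (SL.cons 0 1 SL.nil)) (WtL.cons 3 2 0 (WtL.cons 3 5 3 (WtL.cons 3 2 0 (WtL.cons 3 3 0 (WtL.cons 3 2 0 WtL.nil)))))
  (FamL.cons 0 8 7 7 7 0 6 (SL.cons 0 1 (SL.cons 0 7 SL.nil)) (WtL.cons 2 1 7 (WtL.cons 3 2 0 (WtL.cons 3 3 0 (WtL.cons 3 2 0 (WtL.cons 3 11 4 (WtL.cons 3 2 0 WtL.nil))))))
  (FamL.cons 1 9 4 101 45 5 1 (SL.cons 0 2 (SL.cons 0 3 (SL.cons 0 1 SL.nil))) (WtL.cons 3 3 0 WtL.nil)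
  (FamL.cons 1 9 5 23 13 1 2 (SL.cons 0 1 (SL.cons 0 1 (SL.cons 0 4 SL.nil))) (WtL.cons 0 0 0 (WtL.cons 3 3 2 WtL.nil))
  (FamL.cons 0 11 2 27 5 3 2 (SL.cons 0 5 (SL.cons 0 2 SL.nil)) (WtL.cons 0 0 0 (WtL.cons 3 3 0 WtL.nil))
  (FamL.cons 0 11 9 125 103 3 1 (SL.cons 0 1 (SL.cons 0 4 (SL.cons 0 1 (SL.cons 0 1 SL.nil)))) (WtL.cons 3 19 13 WtL.nil)
  (FamL.cons 0 16 3 53 10 2 2 (SL.cons 0 5 (SL.cons 0 3 SL.nil)) (WtL.cons 3 2 0 (WtL.cons 3 3 1 WtL.nil))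
  (FamL.cons 0 16 13 57 47 4 2 (SL.cons 0 1 (SL.cons 0 4 (SL.cons 0 2 (SL.cons 0 1 SL.nil)))) (WtL.cons 0 0 0 (WtL.cons 3 2 0 WtL.nil))
  (FamL.cons 1 18 5 43 12 4 1 (SL.cons 0 3 (SL.cons 0 1 (SL.cons 0 1 (SL.cons 0 1 (SL.cons 0 1 SL.nil))))) (WtL.cons 3 2 0 WtL.nil)
  (FamL.cons 1 18 13 81 59 2 1 (SL.cons 0 1 (SL.cons 0 2 (SL.cons 0 1 (SL.cons 0 1 (SL.cons 0 2 SL.nil))))) (WtL.cons 0 0 0 WtL.nil)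
  (FamL.cons 1 19 8 211 89 4 0 (SL.cons 0 2 (SL.cons 0 2 (SL.cons 0 1 (SL.cons 0 1 (SL.cons 0 1 SL.nil))))) WtL.nil
  (FamL.cons 1 19 11 53 31 2 1 (SL.cons 0 1 (SL.cons 0 1 (SL.cons 0 2 (SL.cons 0 1 (SL.cons 0 2 SL.nil))))) (WtL.cons 0 0 0 WtL.nil)
  (FamL.cons 0 23 4 17 3 5 1 (SL.cons 0 5 (SL.cons 0 1 (SL.cons 0 2 (SL.cons 0 1 SL.nil)))) (WtL.cons 0 0 0 WtL.nil)
  (FamL.cons 0 23 19 303 251 1 0 (SL.cons 0 1 (SL.cons 0 4 (SL.cons 0 1 (SL.cons 0 3 SL.nil)))) WtL.nil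
  (FamL.cons 1 27 13 201 97 6 1 (SL.cons 0 2 (SL.cons 0 12 (SL.cons 0 1 SL.nil))) (WtL.cons 3 3 1 WtL.nil)
  (FamL.cons 1 27 14 175 91 0 1 (SL.cons 0 1 (SL.cons 0 1 (SL.cons 0 13 SL.nil))) (WtL.cons 3 5 1 WtL.nil)
  (FamL.cons 0 29 14 217 105 0 1 (SL.cons 0 2 (SL.cons 0 14 SL.nil)) (WtL.cons 3 3 0 WtL.nil)
  (FamL.cons 0 29 15 187 97 6 1 (SL.cons 0 1 (SL.cons 0 1 (SL.cons 0 13 (SL.cons 0 1 SL.nil)))) (WtL.cons 3 11 3 WtL.nil)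
  (FamL.cons 1 29 6 401 83 1 0 (SL.cons 0 4 (SL.cons 0 1 (SL.cons 0 5 SL.nil))) WtL.nil
  (FamL.cons 1 29 23 3 3 5 1 (SL.cons 0 1 (SL.cons 0 3 (SL.cons 0 1 (SL.cons 0 4 (SL.cons 0 1 SL.nil))))) (WtL.cons 2 1 7 WtL.nil)
  (FamL.cons 1 31 10 257 83 6 1 (SL.cons 0 3 (SL.cons 0 9 (SL.cons 0 1 SL.nil))) (WtL.cons 3 3 2 WtL.nil)
  (FamL.cons 1 31 21 175 119 0 1 (SL.cons 0 1 (SL.cons 0 2 (SL.cons 0 10 SL.nil))) (WtL.cons 3 3 1 WtL.nil)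
  (FamL.cons 0 32 5 211 33 4 1 (SL.cons 0 6 (SL.cons 0 2 (SL.cons 0 1 (SL.cons 0 1 SL.nil)))) (WtL.cons 3 3 0 WtL.nil)
  (FamL.cons 0 32 27 11 10 2 2 (SL.cons 0 1 (SL.cons 0 5 (SL.cons 0 2 (SL.cons 0 2 SL.nil)))) (WtL.cons 0 0 0 (WtL.cons 3 5 2 WtL.nil))
  FamL.nil)))))))))))))))))))))))))))))

theorem LQ7_1_sv : LQ7_1.all (gSvO 7 (sieC1 7 12 4 16 4) (sieC2 7 12 4 16 4 8 10)) = true := by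
  decide +kernel

theorem LQ7_1_nm : LQ7_1.all (gNmO 7 37 73) = true := by decide +kernel

theorem LQ7_1_cov : covO 7 LQ7_1 2 31 = true := by decide +kernel

/-- the families with 33 ≤ y < 65 -/
def LQ7_2 : FamL := (FamL.cons 0 37 17 67 31 2 1 (SL.cons 0 2 (SL.cons 0 5 (SL.cons 0 1 (SL.cons 0 2 SL.nil)))) (WtL.cons 0 0 0 WtL.nil)
  (FamL.cons 0 37 20 449 243 4 0 (SL.cons 0 1 (SL.cons 0 1 (SL.cons 0 5 (SL.cons 0 1 (SL.cons 0 1 (SL.cons 0 1 SL.nil)))))) WtL.nil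
  (FamL.cons 1 37 9 341 83 6 1 (SL.cons 0 4 (SL.cons 0 8 (SL.cons 0 1 SL.nil))) (WtL.cons 1 3 0 WtL.nil)
  (FamL.cons 1 37 28 175 133 0 1 (SL.cons 0 1 (SL.cons 0 3 (SL.cons 0 9 SL.nil))) (WtL.cons 3 11 4 WtL.nil)
  (FamL.cons 1 38 11 93 27 1 1 (SL.cons 0 3 (SL.cons 0 2 (SL.cons 0 5 SL.nil))) (WtL.cons 1 3 0 WtL.nil)
  (FamL.cons 1 38 27 171 122 5 1 (SL.cons 0 1 (SL.cons 0 2 (SL.cons 0 2 (SL.cons 0 4 (SL.cons 0 1 SL.nil))))) (WtL.cons 3 2 0 WtL.nil)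
  (FamL.cons 0 43 6 93 13 1 1 (SL.cons 0 7 (SL.cons 0 6 SL.nil)) (WtL.cons 3 3 1 WtL.nil)
  (FamL.cons 0 43 37 507 437 5 0 (SL.cons 0 1 (SL.cons 0 6 (SL.cons 0 5 (SL.cons 0 1 SL.nil)))) WtL.nil
  (FamL.cons 1 47 17 395 143 5 0 (SL.cons 0 2 (SL.cons 0 1 (SL.cons 0 3 (SL.cons 0 3 (SL.cons 0 1 SL.nil))))) WtL.nil
  (FamL.cons 1 47 30 261 167 1 0 (SL.cons 0 1 (SL.cons 0 1 (SL.cons 0 1 (SL.cons 0 3 (SL.cons 0 4 SL.nil))))) WtL.nil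
  (FamL.cons 0 53 24 121 55 1 1 (SL.cons 0 2 (SL.cons 0 4 (SL.cons 0 1 (SL.cons 0 4 SL.nil)))) (WtL.cons 3 5 0 WtL.nil)
  (FamL.cons 0 53 29 619 339 5 0 (SL.cons 0 1 (SL.cons 0 1 (SL.cons 0 4 (SL.cons 0 1 (SL.cons 0 3 (SL.cons 0 1 SL.nil)))))) WtL.nil
  (FamL.cons 1 53 22 479 199 5 0 (SL.cons 0 2 (SL.cons 0 2 (SL.cons 0 2 (SL.cons 0 3 (SL.cons 0 1 SL.nil))))) WtL.nil
  (FamL.cons 1 53 31 261 153 1 0 (SL.cons 0 1 (SL.cons 0 1 (SL.cons 0 2 (SL.cons 0 2 (SL.cons 0 4 SL.nil))))) WtL.nil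
  (FamL.cons 1 54 13 195 47 3 1 (SL.cons 0 4 (SL.cons 0 6 (SL.cons 0 2 SL.nil))) (WtL.cons 3 19 6 WtL.nil)
  (FamL.cons 1 54 41 181 138 3 1 (SL.cons 0 1 (SL.cons 0 3 (SL.cons 0 6 (SL.cons 0 1 (SL.cons 0 1 SL.nil))))) (WtL.cons 3 2 0 WtL.nil)
  (FamL.cons 1 57 8 691 97 6 0 (SL.cons 0 7 (SL.cons 0 7 (SL.cons 0 1 SL.nil))) WtL.nil
  (FamL.cons 1 57 11 461 89 3 0 (SL.cons 0 5 (SL.cons 0 5 (SL.cons 0 2 SL.nil))) WtL.nil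
  (FamL.cons 1 57 46 335 271 3 0 (SL.cons 0 1 (SL.cons 0 4 (SL.cons 0 5 (SL.cons 0 1 (SL.cons 0 1 SL.nil))))) WtL.nil
  (FamL.cons 1 57 49 105 91 0 1 (SL.cons 0 1 (SL.cons 0 6 (SL.cons 0 8 SL.nil))) (WtL.cons 3 3 1 WtL.nil)
  (FamL.cons 1 58 23 103 41 6 1 (SL.cons 0 2 (SL.cons 0 1 (SL.cons 0 1 (SL.cons 0 10 (SL.cons 0 1 SL.nil))))) (WtL.cons 1 3 0 WtL.nil)
  (FamL.cons 1 58 35 301 182 0 1 (SL.cons 0 1 (SL.cons 0 1 (SL.cons 0 1 (SL.cons 0 1 (SL.cons 0 11 SL.nil))))) (WtL.cons 3 2 0 WtL.nil)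
  (FamL.cons 1 59 19 363 117 3 1 (SL.cons 0 3 (SL.cons 0 9 (SL.cons 0 2 SL.nil))) (WtL.cons 1 3 0 WtL.nil)
  (FamL.cons 1 59 40 461 313 3 0 (SL.cons 0 1 (SL.cons 0 2 (SL.cons 0 9 (SL.cons 0 1 (SL.cons 0 1 SL.nil))))) WtL.nil
  (FamL.cons 1 62 21 413 140 0 1 (SL.cons 0 2 (SL.cons 0 1 (SL.cons 0 20 SL.nil))) (WtL.cons 3 2 0 WtL.nil)
  (FamL.cons 1 62 41 19 13 6 2 (SL.cons 0 1 (SL.cons 0 1 (SL.cons 0 1 (SL.cons 0 19 (SL.cons 0 1 SL.nil))))) (WtL.cons 2 1 21 (WtL.cons 3 2 0 WtL.nil))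
  (FamL.cons 2 64 21 21 7 0 4 (SL.cons 0 3 (SL.cons 0 21 SL.nil)) (WtL.cons 2 1 21 (WtL.cons 3 2 0 (WtL.cons 3 17 4 (WtL.cons 3 2 0 WtL.nil))))
  (FamL.cons 2 64 43 425 286 6 3 (SL.cons 0 1 (SL.cons 0 2 (SL.cons 0 20 (SL.cons 0 1 SL.nil)))) (WtL.cons 3 2 0 (WtL.cons 3 13 3 (WtL.cons 3 2 0 WtL.nil)))
  FamL.nil))))))))))))))))))))))))))))

theorem LQ7_2_sv : LQ7_2.all (gSvO 7 (sieC1 7 12 4 16 4) (sieC2 7 12 4 16 4 8 10)) = true := by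
  decide +kernel

theorem LQ7_2_nm : LQ7_2.all (gNmO 7 37 73) = true := by decide +kernel

theorem LQ7_2_cov : covO 7 LQ7_2 33 32 = true := by decide +kernel

/-- the families with 65 ≤ y < 101 -/
def LQ7_3 : FamL := (FamL.cons 0 67 23 55 19 3 1 (SL.cons 0 2 (SL.cons 0 1 (SL.cons 0 10 (SL.cons 0 2 SL.nil)))) (WtL.cons 0 0 0 WtL.nil)
  (FamL.cons 0 67 44 881 579 3 0 (SL.cons 0 1 (SL.cons 0 1 (SL.cons 0 1 (SL.cons 0 10 (SL.cons 0 1 (SL.cons 0 1 SL.nil)))))) WtL.nil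
  (FamL.cons 0 71 8 985 111 6 0 (SL.cons 0 8 (SL.cons 0 1 (SL.cons 0 6 (SL.cons 0 1 SL.nil)))) WtL.nil
  (FamL.cons 0 71 63 7 7 0 1 (SL.cons 0 1 (SL.cons 0 7 (SL.cons 0 1 (SL.cons 0 7 SL.nil)))) (WtL.cons 2 1 7 WtL.nil)
  (FamL.cons 1 74 9 41 5 3 1 (SL.cons 0 8 (SL.cons 0 4 (SL.cons 0 2 SL.nil))) (WtL.cons 1 3 0 WtL.nil)
  (FamL.cons 1 74 65 475 418 3 0 (SL.cons 0 1 (SL.cons 0 7 (SL.cons 0 4 (SL.cons 0 1 (SL.cons 0 1 SL.nil))))) WtL.nil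
  (FamL.cons 0 79 25 717 227 5 0 (SL.cons 0 3 (SL.cons 0 6 (SL.cons 0 3 (SL.cons 0 1 SL.nil)))) WtL.nil
  (FamL.cons 0 79 54 387 265 1 0 (SL.cons 0 1 (SL.cons 0 2 (SL.cons 0 6 (SL.cons 0 4 SL.nil)))) WtL.nil
  (FamL.cons 1 81 13 193 31 2 1 (SL.cons 0 6 (SL.cons 0 4 (SL.cons 0 3 SL.nil))) (WtL.cons 3 19 8 WtL.nil)
  (FamL.cons 1 81 68 939 789 4 0 (SL.cons 0 1 (SL.cons 0 5 (SL.cons 0 4 (SL.cons 0 2 (SL.cons 0 1 SL.nil))))) WtL.nil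
  (FamL.cons 1 83 16 669 129 2 0 (SL.cons 0 5 (SL.cons 0 5 (SL.cons 0 3 SL.nil))) WtL.nil
  (FamL.cons 1 83 67 491 397 4 0 (SL.cons 0 1 (SL.cons 0 4 (SL.cons 0 5 (SL.cons 0 2 (SL.cons 0 1 SL.nil))))) WtL.nil
  (FamL.cons 1 87 23 813 215 4 0 (SL.cons 0 3 (SL.cons 0 1 (SL.cons 0 3 (SL.cons 0 1 (SL.cons 0 1 (SL.cons 0 1 (SL.cons 0 1 SL.nil))))))) WtL.nil
  (FamL.cons 1 87 35 539 217 0 1 (SL.cons 0 2 (SL.cons 0 2 (SL.cons 0 17 SL.nil))) (WtL.cons 3 5 2 WtL.nil)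
  (FamL.cons 1 87 52 677 405 6 0 (SL.cons 0 1 (SL.cons 0 1 (SL.cons 0 2 (SL.cons 0 16 (SL.cons 0 1 SL.nil))))) WtL.nil
  (FamL.cons 1 87 64 403 297 2 0 (SL.cons 0 1 (SL.cons 0 2 (SL.cons 0 1 (SL.cons 0 3 (SL.cons 0 1 (SL.cons 0 1 (SL.cons 0 2 SL.nil))))))) WtL.nil
  (FamL.cons 0 88 9 391 40 3 0 (SL.cons 0 9 (SL.cons 0 1 (SL.cons 0 3 (SL.cons 0 2 SL.nil)))) WtL.nil
  (FamL.cons 0 88 31 275 97 1 0 (SL.cons 0 2 (SL.cons 0 1 (SL.cons 0 5 (SL.cons 0 5 SL.nil)))) WtL.nil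
  (FamL.cons 0 88 57 339 220 5 0 (SL.cons 0 1 (SL.cons 0 1 (SL.cons 0 1 (SL.cons 0 5 (SL.cons 0 4 (SL.cons 0 1 SL.nil)))))) WtL.nil
  (FamL.cons 0 88 79 223 201 3 1 (SL.cons 0 1 (SL.cons 0 8 (SL.cons 0 1 (SL.cons 0 3 (SL.cons 0 1 (SL.cons 0 1 SL.nil)))))) (WtL.cons 3 3 0 WtL.nil)
  (FamL.cons 1 93 10 809 87 2 0 (SL.cons 0 9 (SL.cons 0 3 (SL.cons 0 3 SL.nil))) WtL.nil
  (FamL.cons 1 93 41 519 229 4 0 (SL.cons 0 2 (SL.cons 0 3 (SL.cons 0 1 (SL.cons 0 2 (SL.cons 0 1 (SL.cons 0 1 (SL.cons 0 1 SL.nil))))))) WtL.nil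
  (FamL.cons 1 93 52 781 437 2 0 (SL.cons 0 1 (SL.cons 0 1 (SL.cons 0 3 (SL.cons 0 1 (SL.cons 0 2 (SL.cons 0 1 (SL.cons 0 2 SL.nil))))))) WtL.nil
  (FamL.cons 1 93 83 491 439 4 0 (SL.cons 0 1 (SL.cons 0 8 (SL.cons 0 3 (SL.cons 0 2 (SL.cons 0 1 SL.nil))))) WtL.nil
  (FamL.cons 1 94 17 33 6 6 1 (SL.cons 0 5 (SL.cons 0 1 (SL.cons 0 1 (SL.cons 0 7 (SL.cons 0 1 SL.nil))))) (WtL.cons 3 2 0 WtL.nil)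
  (FamL.cons 1 94 77 623 511 0 0 (SL.cons 0 1 (SL.cons 0 4 (SL.cons 0 1 (SL.cons 0 1 (SL.cons 0 8 SL.nil))))) WtL.nil
  FamL.nil))))))))))))))))))))))))))

theorem LQ7_3_sv : LQ7_3.all (gSvO 7 (sieC1 7 12 4 16 4) (sieC2 7 12 4 16 4 8 10)) = true := by
  decide +kernel

theorem LQ7_3_nm : LQ7_3.all (gNmO 7 37 73) = true := by decide +kernel

theorem LQ7_3_cov : covO 7 LQ7_3 65 36 = true := by decide +kernel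

theorem one7 {d : ℕ} (F : FDO d 7 1) (hS : SolO d 7 1) : H419R2.tb LO d = true :=
  one_soundO (Tm := 10) (Tp := 4) (wm := (WtL.cons 0 0 0 (WtL.cons 3 3 1 (WtL.cons 0 0 0 (WtL.cons 3 5 2 (WtL.cons 3 3 1 (WtL.cons 3 13 5 (WtL.cons 3 5 1 (WtL.cons 3 3 1 (WtL.cons 3 5 2 (WtL.cons 3 19 8 WtL.nil))))))))))) (wp := (WtL.cons 0 0 0 (WtL.cons 1 3 0 (WtL.cons 3 3 2 (WtL.cons 3 5 0 WtL.nil)))))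
    (by norm_num) (by norm_num) sb7_2 sb7_1 (by decide +kernel) (by decide +kernel)
    (by decide +kernel) (by decide +kernel) (by decide +kernel) F hS

theorem all7 {d y : ℕ} (F : FDO d 7 y) (hS : SolO d 7 y) (h0 : 0 < y) (h60 : y ≤ 100) :
    H419R2.tb LO d = true := by
  have hP : Nat.Prime 7 := by norm_num
  by_cases h1 : y = 1
  · subst h1
    exact one7 F hS
  by_cases h1' : y < 33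
  · exact chunk_soundO hP (by norm_num) sb7_1 sb7_2 LQ7_1_sv LQ7_1_nm LQ7_1_cov F hS (by omega) (by omega) (by omega)
  by_cases h2' : y < 65
  · exact chunk_soundO hP (by norm_num) sb7_1 sb7_2 LQ7_2_sv LQ7_2_nm LQ7_2_cov F hS (by omega) (by omega) (by omega)
  exact chunk_soundO hP (by norm_num) sb7_1 sb7_2 LQ7_3_sv LQ7_3_nm LQ7_3_cov F hS (by omega) (by omega) (by omega)

end Pool.Agent.H449
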