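import Pool.Agent.H449.O7

/-! Families for the prime 71. -/

set_option maxRecDepth 100000

namespace Pool.Agent.H449

/-- the families with 2 ≤ y < 24 -/
def LQ71_1 : FamL := (FamL.cons 1 2 1 141 53 35 0 (SL.cons 0 2 SL.nil) WtL.nil
  (FamL.cons 0 3 1 165 63 47 0 (SL.cons 0 2 (SL.cons 0 1 SL.nil)) WtL.nil
  (FamL.cons 0 3 2 259 181 23 0 (SL.cons 0 1 (SL.cons 0 2 SL.nil)) WtL.nil
  (FamL.cons 0 5 2 695 281 28 0 (SL.cons 0 2 (SL.cons 0 2 SL.nil)) WtL.nil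
  (FamL.cons 0 5 3 13 11 42 1 (SL.cons 0 1 (SL.cons 0 1 (SL.cons 0 1 (SL.cons 0 1 SL.nil)))) (WtL.cons 0 0 0 WtL.nil)
  (FamL.cons 1 5 1 99 17 14 1 (SL.cons 0 5 SL.nil) (WtL.cons 3 5 2 WtL.nil)
  (FamL.cons 1 5 4 609 485 56 0 (SL.cons 0 1 (SL.cons 0 3 (SL.cons 0 1 SL.nil))) WtL.nil
  (FamL.cons 1 7 1 801 113 10 0 (SL.cons 0 7 SL.nil) WtL.nil
  (FamL.cons 1 7 6 191 163 60 1 (SL.cons 0 1 (SL.cons 0 5 (SL.cons 0 1 SL.nil))) (WtL.cons 3 19 5 WtL.nil)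
  (FamL.cons 0 8 1 479 61 62 0 (SL.cons 0 7 (SL.cons 0 1 SL.nil)) WtL.nil
  (FamL.cons 0 8 7 87 78 8 1 (SL.cons 0 1 (SL.cons 0 7 SL.nil)) (WtL.cons 3 2 0 WtL.nil)
  (FamL.cons 0 9 1 55 7 63 1 (SL.cons 0 8 (SL.cons 0 1 SL.nil)) (WtL.cons 0 0 0 WtL.nil)
  (FamL.cons 0 9 8 1221 1087 7 0 (SL.cons 0 1 (SL.cons 0 8 SL.nil)) WtL.nil
  (FamL.cons 1 10 1 227 22 7 1 (SL.cons 0 10 SL.nil) (WtL.cons 3 2 0 WtL.nil)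
  (FamL.cons 1 10 9 481 433 63 0 (SL.cons 0 1 (SL.cons 0 8 (SL.cons 0 1 SL.nil))) WtL.nil
  (FamL.cons 1 11 4 961 349 19 0 (SL.cons 0 2 (SL.cons 0 1 (SL.cons 0 3 SL.nil))) WtL.nil
  (FamL.cons 1 11 7 599 381 51 0 (SL.cons 0 1 (SL.cons 0 1 (SL.cons 0 1 (SL.cons 0 2 (SL.cons 0 1 SL.nil))))) WtL.nil
  (FamL.cons 1 14 1 649 46 5 0 (SL.cons 0 14 SL.nil) WtL.nil
  (FamL.cons 1 14 13 343 319 65 1 (SL.cons 0 1 (SL.cons 0 12 (SL.cons 0 1 SL.nil))) (WtL.cons 1 5 0 WtL.nil)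
  (FamL.cons 0 15 2 1415 189 33 0 (SL.cons 0 7 (SL.cons 0 2 SL.nil)) WtL.nil
  (FamL.cons 0 15 7 1651 771 9 0 (SL.cons 0 2 (SL.cons 0 7 SL.nil)) WtL.nil
  (FamL.cons 0 15 8 477 255 61 0 (SL.cons 0 1 (SL.cons 0 1 (SL.cons 0 6 (SL.cons 0 1 SL.nil)))) WtL.nil
  (FamL.cons 0 15 13 713 619 37 0 (SL.cons 0 1 (SL.cons 0 6 (SL.cons 0 1 (SL.cons 0 1 SL.nil)))) WtL.nil
  (FamL.cons 0 16 3 825 155 22 0 (SL.cons 0 5 (SL.cons 0 3 SL.nil)) WtL.nil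
  (FamL.cons 0 16 13 309 252 48 0 (SL.cons 0 1 (SL.cons 0 4 (SL.cons 0 2 (SL.cons 0 1 SL.nil)))) WtL.nil
  (FamL.cons 0 19 9 795 377 7 0 (SL.cons 0 2 (SL.cons 0 9 SL.nil)) WtL.nil
  (FamL.cons 0 19 10 1901 1001 63 0 (SL.cons 0 1 (SL.cons 0 1 (SL.cons 0 8 (SL.cons 0 1 SL.nil)))) WtL.nil
  (FamL.cons 1 22 7 1471 468 61 0 (SL.cons 0 3 (SL.cons 0 6 (SL.cons 0 1 SL.nil))) WtL.nil
  (FamL.cons 1 22 15 89 61 9 1 (SL.cons 0 1 (SL.cons 0 2 (SL.cons 0 7 SL.nil))) (WtL.cons 3 5 3 WtL.nil)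
  (FamL.cons 1 23 5 1293 281 43 0 (SL.cons 0 4 (SL.cons 0 1 (SL.cons 0 1 (SL.cons 0 1 (SL.cons 0 1 SL.nil))))) WtL.nil
  (FamL.cons 1 23 18 1971 1543 27 0 (SL.cons 0 1 (SL.cons 0 3 (SL.cons 0 1 (SL.cons 0 1 (SL.cons 0 2 SL.nil))))) WtL.nil
  FamL.nil)))))))))))))))))))))))))))))))

theorem LQ71_1_sv : LQ71_1.all (gSvO 71 (sieA1 71 9 9 5 9 26 16 10 9 12 2) (sieA1 71 9 9 5 9 26 16 10 9 12 2)) = true := by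
  decide +kernel

theorem LQ71_1_nm : LQ71_1.all (gNmO 71 37 37) = true := by decide +kernel

theorem LQ71_1_cov : covO 71 LQ71_1 2 22 = true := by decide +kernel

/-- the families with 24 ≤ y < 41 -/
def LQ71_2 : FamL := (FamL.cons 0 24 1 1485 62 68 0 (SL.cons 0 23 (SL.cons 0 1 SL.nil)) WtL.nil
  (FamL.cons 0 24 7 1165 340 50 0 (SL.cons 0 3 (SL.cons 0 2 (SL.cons 0 2 (SL.cons 0 1 SL.nil)))) WtL.nil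
  (FamL.cons 0 24 17 537 381 20 0 (SL.cons 0 1 (SL.cons 0 2 (SL.cons 0 2 (SL.cons 0 3 SL.nil)))) WtL.nil
  (FamL.cons 0 24 23 217 209 2 1 (SL.cons 0 1 (SL.cons 0 23 SL.nil)) (WtL.cons 1 3 0 WtL.nil)
  (FamL.cons 0 25 2 2411 193 34 0 (SL.cons 0 12 (SL.cons 0 2 SL.nil)) WtL.nil
  (FamL.cons 0 25 23 1137 1047 36 0 (SL.cons 0 1 (SL.cons 0 11 (SL.cons 0 1 (SL.cons 0 1 SL.nil)))) WtL.nil
  (FamL.cons 1 25 11 3143 1383 45 0 (SL.cons 0 2 (SL.cons 0 3 (SL.cons 0 1 (SL.cons 0 1 (SL.cons 0 1 SL.nil))))) WtL.nil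
  (FamL.cons 1 25 14 405 227 25 0 (SL.cons 0 1 (SL.cons 0 1 (SL.cons 0 3 (SL.cons 0 1 (SL.cons 0 2 SL.nil))))) WtL.nil
  (FamL.cons 0 27 8 833 247 26 0 (SL.cons 0 3 (SL.cons 0 2 (SL.cons 0 1 (SL.cons 0 2 SL.nil)))) WtL.nil
  (FamL.cons 0 27 19 2999 2111 44 0 (SL.cons 0 1 (SL.cons 0 2 (SL.cons 0 2 (SL.cons 0 1 (SL.cons 0 1 (SL.cons 0 1 SL.nil)))))) WtL.nil
  (FamL.cons 0 29 4 4081 563 17 0 (SL.cons 0 7 (SL.cons 0 4 SL.nil)) WtL.nil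
  (FamL.cons 0 29 25 35 31 53 1 (SL.cons 0 1 (SL.cons 0 6 (SL.cons 0 3 (SL.cons 0 1 SL.nil)))) (WtL.cons 0 0 0 WtL.nil)
  (FamL.cons 1 29 10 1505 519 7 0 (SL.cons 0 2 (SL.cons 0 1 (SL.cons 0 9 SL.nil))) WtL.nil
  (FamL.cons 1 29 19 2611 1711 63 0 (SL.cons 0 1 (SL.cons 0 1 (SL.cons 0 1 (SL.cons 0 8 (SL.cons 0 1 SL.nil))))) WtL.nil
  (FamL.cons 1 31 3 1871 181 48 0 (SL.cons 0 10 (SL.cons 0 2 (SL.cons 0 1 SL.nil))) WtL.nil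
  (FamL.cons 1 31 28 2529 2285 22 0 (SL.cons 0 1 (SL.cons 0 9 (SL.cons 0 3 SL.nil))) WtL.nil
  (FamL.cons 0 32 5 1433 224 42 0 (SL.cons 0 6 (SL.cons 0 2 (SL.cons 0 1 (SL.cons 0 1 SL.nil)))) WtL.nil
  (FamL.cons 0 32 27 837 707 28 0 (SL.cons 0 1 (SL.cons 0 5 (SL.cons 0 2 (SL.cons 0 2 SL.nil)))) WtL.nil
  (FamL.cons 1 35 1 2347 67 2 0 (SL.cons 0 35 SL.nil) WtL.nil
  (FamL.cons 1 35 6 1231 211 12 0 (SL.cons 0 5 (SL.cons 0 1 (SL.cons 0 5 SL.nil))) WtL.nil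
  (FamL.cons 1 35 29 3737 3097 58 0 (SL.cons 0 1 (SL.cons 0 4 (SL.cons 0 1 (SL.cons 0 4 (SL.cons 0 1 SL.nil))))) WtL.nil
  (FamL.cons 1 35 34 2621 2547 68 0 (SL.cons 0 1 (SL.cons 0 33 (SL.cons 0 1 SL.nil))) WtL.nil
  (FamL.cons 0 37 15 1329 539 61 0 (SL.cons 0 2 (SL.cons 0 2 (SL.cons 0 6 (SL.cons 0 1 SL.nil)))) WtL.nil
  (FamL.cons 0 37 22 3923 2333 9 0 (SL.cons 0 1 (SL.cons 0 1 (SL.cons 0 2 (SL.cons 0 7 SL.nil)))) WtL.nil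
  (FamL.cons 1 37 16 3221 1393 13 0 (SL.cons 0 2 (SL.cons 0 3 (SL.cons 0 5 SL.nil))) WtL.nil
  (FamL.cons 1 37 21 2031 1153 57 0 (SL.cons 0 1 (SL.cons 0 1 (SL.cons 0 3 (SL.cons 0 4 (SL.cons 0 1 SL.nil))))) WtL.nil
  (FamL.cons 0 40 7 131 23 30 1 (SL.cons 0 5 (SL.cons 0 1 (SL.cons 0 2 (SL.cons 0 2 SL.nil)))) (WtL.cons 1 3 0 WtL.nil)
  (FamL.cons 0 40 17 663 282 12 0 (SL.cons 0 2 (SL.cons 0 2 (SL.cons 0 1 (SL.cons 0 5 SL.nil)))) WtL.nil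
  (FamL.cons 0 40 23 2175 1251 58 0 (SL.cons 0 1 (SL.cons 0 1 (SL.cons 0 2 (SL.cons 0 1 (SL.cons 0 4 (SL.cons 0 1 SL.nil)))))) WtL.nil
  (FamL.cons 0 40 33 2707 2234 40 0 (SL.cons 0 1 (SL.cons 0 4 (SL.cons 0 1 (SL.cons 0 2 (SL.cons 0 1 (SL.cons 0 1 SL.nil)))))) WtL.nil
  FamL.nil))))))))))))))))))))))))))))))

theorem LQ71_2_sv : LQ71_2.all (gSvO 71 (sieA1 71 9 9 5 9 26 16 10 9 12 2) (sieA1 71 9 9 5 9 26 16 10 9 12 2)) = true := by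
  decide +kernel

theorem LQ71_2_nm : LQ71_2.all (gNmO 71 37 37) = true := by decide +kernel

theorem LQ71_2_cov : covO 71 LQ71_2 24 17 = true := by decide +kernel

/-- the families with 41 ≤ y < 60 -/
def LQ71_3 : FamL := (FamL.cons 0 43 12 3135 875 41 0 (SL.cons 0 3 (SL.cons 0 1 (SL.cons 0 1 (SL.cons 0 2 (SL.cons 0 1 (SL.cons 0 1 SL.nil)))))) WtL.nil
  (FamL.cons 0 43 31 2969 2141 29 0 (SL.cons 0 1 (SL.cons 0 2 (SL.cons 0 1 (SL.cons 0 1 (SL.cons 0 2 (SL.cons 0 2 SL.nil)))))) WtL.nil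
  (FamL.cons 0 45 8 2289 407 44 0 (SL.cons 0 5 (SL.cons 0 1 (SL.cons 0 1 (SL.cons 0 1 (SL.cons 0 1 (SL.cons 0 1 SL.nil)))))) WtL.nil
  (FamL.cons 0 45 17 3311 1251 58 0 (SL.cons 0 2 (SL.cons 0 1 (SL.cons 0 1 (SL.cons 0 1 (SL.cons 0 4 (SL.cons 0 1 SL.nil)))))) WtL.nil
  (FamL.cons 0 45 28 3077 1915 12 0 (SL.cons 0 1 (SL.cons 0 1 (SL.cons 0 1 (SL.cons 0 1 (SL.cons 0 1 (SL.cons 0 5 SL.nil)))))) WtL.nil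
  (FamL.cons 0 45 37 4099 3371 26 0 (SL.cons 0 1 (SL.cons 0 4 (SL.cons 0 1 (SL.cons 0 1 (SL.cons 0 1 (SL.cons 0 2 SL.nil)))))) WtL.nil
  (FamL.cons 1 46 5 1463 159 57 0 (SL.cons 0 9 (SL.cons 0 4 (SL.cons 0 1 SL.nil))) WtL.nil
  (FamL.cons 1 46 41 1801 1606 13 0 (SL.cons 0 1 (SL.cons 0 8 (SL.cons 0 5 SL.nil))) WtL.nil
  (FamL.cons 1 47 20 49 21 60 1 (SL.cons 0 2 (SL.cons 0 2 (SL.cons 0 1 (SL.cons 0 5 (SL.cons 0 1 SL.nil))))) (WtL.cons 0 0 0 WtL.nil)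
  (FamL.cons 1 47 27 6623 3805 10 0 (SL.cons 0 1 (SL.cons 0 1 (SL.cons 0 2 (SL.cons 0 1 (SL.cons 0 6 SL.nil))))) WtL.nil
  (FamL.cons 0 48 13 103 28 16 1 (SL.cons 0 3 (SL.cons 0 1 (SL.cons 0 2 (SL.cons 0 4 SL.nil)))) (WtL.cons 3 2 0 WtL.nil)
  (FamL.cons 0 48 19 2925 1158 7 0 (SL.cons 0 2 (SL.cons 0 1 (SL.cons 0 1 (SL.cons 0 9 SL.nil)))) WtL.nil
  (FamL.cons 0 48 29 481 291 63 0 (SL.cons 0 1 (SL.cons 0 1 (SL.cons 0 1 (SL.cons 0 1 (SL.cons 0 8 (SL.cons 0 1 SL.nil)))))) WtL.nil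
  (FamL.cons 0 48 35 3303 2409 54 0 (SL.cons 0 1 (SL.cons 0 2 (SL.cons 0 1 (SL.cons 0 2 (SL.cons 0 3 (SL.cons 0 1 SL.nil)))))) WtL.nil
  (FamL.cons 1 49 13 2725 723 49 0 (SL.cons 0 3 (SL.cons 0 1 (SL.cons 0 3 (SL.cons 0 2 (SL.cons 0 1 SL.nil))))) WtL.nil
  (FamL.cons 1 49 36 4231 3109 21 0 (SL.cons 0 1 (SL.cons 0 2 (SL.cons 0 1 (SL.cons 0 3 (SL.cons 0 3 SL.nil))))) WtL.nil
  (FamL.cons 1 50 11 2459 541 58 0 (SL.cons 0 4 (SL.cons 0 1 (SL.cons 0 1 (SL.cons 0 4 (SL.cons 0 1 SL.nil))))) WtL.nil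
  (FamL.cons 1 50 39 1089 850 12 0 (SL.cons 0 1 (SL.cons 0 3 (SL.cons 0 1 (SL.cons 0 1 (SL.cons 0 5 SL.nil))))) WtL.nil
  (FamL.cons 1 55 4 2379 173 18 0 (SL.cons 0 13 (SL.cons 0 1 (SL.cons 0 3 SL.nil))) WtL.nil
  (FamL.cons 1 55 26 7689 3635 46 0 (SL.cons 0 2 (SL.cons 0 8 (SL.cons 0 1 (SL.cons 0 1 (SL.cons 0 1 SL.nil))))) WtL.nil
  (FamL.cons 1 55 29 119 63 24 1 (SL.cons 0 1 (SL.cons 0 1 (SL.cons 0 8 (SL.cons 0 1 (SL.cons 0 2 SL.nil))))) (WtL.cons 3 3 0 WtL.nil)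
  (FamL.cons 1 55 51 5429 5035 52 0 (SL.cons 0 1 (SL.cons 0 12 (SL.cons 0 1 (SL.cons 0 2 (SL.cons 0 1 SL.nil))))) WtL.nil
  (FamL.cons 0 57 10 1533 269 21 0 (SL.cons 0 5 (SL.cons 0 1 (SL.cons 0 2 (SL.cons 0 3 SL.nil)))) WtL.nil
  (FamL.cons 0 57 28 4761 2339 2 0 (SL.cons 0 2 (SL.cons 0 28 SL.nil)) WtL.nil
  (FamL.cons 0 57 29 3331 1695 68 0 (SL.cons 0 1 (SL.cons 0 1 (SL.cons 0 27 (SL.cons 0 1 SL.nil)))) WtL.nil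
  (FamL.cons 0 57 47 6559 5409 49 0 (SL.cons 0 1 (SL.cons 0 4 (SL.cons 0 1 (SL.cons 0 2 (SL.cons 0 2 (SL.cons 0 1 SL.nil)))))) WtL.nil
  (FamL.cons 1 58 19 2335 765 67 0 (SL.cons 0 3 (SL.cons 0 18 (SL.cons 0 1 SL.nil))) WtL.nil
  (FamL.cons 1 58 39 1781 1198 3 0 (SL.cons 0 1 (SL.cons 0 2 (SL.cons 0 19 SL.nil))) WtL.nil
  (FamL.cons 1 59 22 6015 2243 61 0 (SL.cons 0 2 (SL.cons 0 1 (SL.cons 0 2 (SL.cons 0 6 (SL.cons 0 1 SL.nil))))) WtL.nil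
  (FamL.cons 1 59 37 2361 1481 9 0 (SL.cons 0 1 (SL.cons 0 1 (SL.cons 0 1 (SL.cons 0 2 (SL.cons 0 7 SL.nil))))) WtL.nil
  FamL.nil))))))))))))))))))))))))))))))

theorem LQ71_3_sv : LQ71_3.all (gSvO 71 (sieA1 71 9 9 5 9 26 16 10 9 12 2) (sieA1 71 9 9 5 9 26 16 10 9 12 2)) = true := by
  decide +kernel

theorem LQ71_3_nm : LQ71_3.all (gNmO 71 37 37) = true := by decide +kernel

theorem LQ71_3_cov : covO 71 LQ71_3 41 19 = true := by decide +kernel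

/-- the families with 60 ≤ y < 80 -/
def LQ71_4 : FamL := (FamL.cons 1 62 3 4237 205 24 0 (SL.cons 0 20 (SL.cons 0 1 (SL.cons 0 2 SL.nil))) WtL.nil
  (FamL.cons 1 62 59 163 156 46 1 (SL.cons 0 1 (SL.cons 0 19 (SL.cons 0 1 (SL.cons 0 1 (SL.cons 0 1 SL.nil))))) (WtL.cons 3 2 0 WtL.nil)
  (FamL.cons 0 64 11 3543 609 32 0 (SL.cons 0 5 (SL.cons 0 1 (SL.cons 0 4 (SL.cons 0 2 SL.nil)))) WtL.nil
  (FamL.cons 0 64 53 999 828 38 0 (SL.cons 0 1 (SL.cons 0 4 (SL.cons 0 1 (SL.cons 0 4 (SL.cons 0 1 (SL.cons 0 1 SL.nil)))))) WtL.nil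
  (FamL.cons 1 67 2 6533 195 36 0 (SL.cons 0 33 (SL.cons 0 1 (SL.cons 0 1 SL.nil))) WtL.nil
  (FamL.cons 1 67 65 2979 2891 34 0 (SL.cons 0 1 (SL.cons 0 32 (SL.cons 0 2 SL.nil))) WtL.nil
  (FamL.cons 1 70 1 4901 70 1 0 (SL.cons 0 70 SL.nil) WtL.nil
  (FamL.cons 1 70 29 3111 1289 29 0 (SL.cons 0 2 (SL.cons 0 2 (SL.cons 0 2 (SL.cons 0 2 (SL.cons 0 2 SL.nil))))) WtL.nil
  (FamL.cons 1 70 41 1857 1088 41 0 (SL.cons 0 1 (SL.cons 0 1 (SL.cons 0 2 (SL.cons 0 2 (SL.cons 0 2 (SL.cons 0 1 (SL.cons 0 1 SL.nil))))))) WtL.nil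
  (FamL.cons 1 70 69 67 67 69 1 (SL.cons 0 1 (SL.cons 0 68 (SL.cons 0 1 SL.nil))) (WtL.cons 2 1 71 WtL.nil)
  (FamL.cons 0 72 1 5039 70 70 0 (SL.cons 0 71 (SL.cons 0 1 SL.nil)) WtL.nil
  (FamL.cons 0 72 17 3587 847 54 0 (SL.cons 0 4 (SL.cons 0 4 (SL.cons 0 3 (SL.cons 0 1 SL.nil)))) WtL.nil
  (FamL.cons 0 72 55 1523 1164 16 0 (SL.cons 0 1 (SL.cons 0 3 (SL.cons 0 4 (SL.cons 0 4 SL.nil)))) WtL.nil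
  (FamL.cons 0 72 71 71 71 0 1 (SL.cons 0 1 (SL.cons 0 71 SL.nil)) (WtL.cons 1 5 0 WtL.nil)
  (FamL.cons 0 73 32 2169 951 55 0 (SL.cons 0 2 (SL.cons 0 3 (SL.cons 0 1 (SL.cons 0 1 (SL.cons 0 3 (SL.cons 0 1 SL.nil)))))) WtL.nil
  (FamL.cons 0 73 41 8195 4603 15 0 (SL.cons 0 1 (SL.cons 0 1 (SL.cons 0 3 (SL.cons 0 1 (SL.cons 0 1 (SL.cons 0 4 SL.nil)))))) WtL.nil
  (FamL.cons 1 73 12 9715 1597 65 0 (SL.cons 0 6 (SL.cons 0 11 (SL.cons 0 1 SL.nil))) WtL.nil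
  (FamL.cons 1 73 61 649 543 5 0 (SL.cons 0 1 (SL.cons 0 5 (SL.cons 0 12 SL.nil))) WtL.nil
  (FamL.cons 1 74 21 2329 661 64 0 (SL.cons 0 3 (SL.cons 0 1 (SL.cons 0 1 (SL.cons 0 9 (SL.cons 0 1 SL.nil))))) WtL.nil
  (FamL.cons 1 74 53 2923 2094 6 0 (SL.cons 0 1 (SL.cons 0 2 (SL.cons 0 1 (SL.cons 0 1 (SL.cons 0 10 SL.nil))))) WtL.nil
  (FamL.cons 0 75 2 1987 53 35 0 (SL.cons 0 37 (SL.cons 0 2 SL.nil)) WtL.nil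
  (FamL.cons 0 75 23 3929 1205 12 0 (SL.cons 0 3 (SL.cons 0 3 (SL.cons 0 1 (SL.cons 0 5 SL.nil)))) WtL.nil
  (FamL.cons 0 75 52 6719 4659 58 0 (SL.cons 0 1 (SL.cons 0 2 (SL.cons 0 3 (SL.cons 0 1 (SL.cons 0 4 (SL.cons 0 1 SL.nil)))))) WtL.nil
  (FamL.cons 0 75 73 8661 8431 35 0 (SL.cons 0 1 (SL.cons 0 36 (SL.cons 0 1 (SL.cons 0 1 SL.nil)))) WtL.nil
  (FamL.cons 1 77 15 1699 331 33 0 (SL.cons 0 5 (SL.cons 0 7 (SL.cons 0 2 SL.nil))) WtL.nil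
  (FamL.cons 1 77 29 4771 1797 7 0 (SL.cons 0 2 (SL.cons 0 1 (SL.cons 0 1 (SL.cons 0 1 (SL.cons 0 9 SL.nil))))) WtL.nil
  (FamL.cons 1 77 48 6161 3841 63 0 (SL.cons 0 1 (SL.cons 0 1 (SL.cons 0 1 (SL.cons 0 1 (SL.cons 0 1 (SL.cons 0 8 (SL.cons 0 1 SL.nil))))))) WtL.nil
  (FamL.cons 1 77 62 9233 7435 37 0 (SL.cons 0 1 (SL.cons 0 4 (SL.cons 0 7 (SL.cons 0 1 (SL.cons 0 1 SL.nil))))) WtL.nil
  (FamL.cons 0 79 18 10397 2369 51 0 (SL.cons 0 4 (SL.cons 0 2 (SL.cons 0 1 (SL.cons 0 1 (SL.cons 0 2 (SL.cons 0 1 SL.nil)))))) WtL.nil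
  (FamL.cons 0 79 61 819 633 19 0 (SL.cons 0 1 (SL.cons 0 3 (SL.cons 0 2 (SL.cons 0 1 (SL.cons 0 1 (SL.cons 0 3 SL.nil)))))) WtL.nil
  FamL.nil))))))))))))))))))))))))))))))

theorem LQ71_4_sv : LQ71_4.all (gSvO 71 (sieA1 71 9 9 5 9 26 16 10 9 12 2) (sieA1 71 9 9 5 9 26 16 10 9 12 2)) = true := by
  decide +kernel

theorem LQ71_4_nm : LQ71_4.all (gNmO 71 37 37) = true := by decide +kernel

theorem LQ71_4_cov : covO 71 LQ71_4 60 20 = true := by decide +kernel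

/-- the families with 80 ≤ y < 101 -/
def LQ71_5 : FamL := (FamL.cons 0 80 3 3573 134 47 0 (SL.cons 0 26 (SL.cons 0 1 (SL.cons 0 1 (SL.cons 0 1 SL.nil)))) WtL.nil
  (FamL.cons 0 80 13 289 47 38 0 (SL.cons 0 6 (SL.cons 0 6 (SL.cons 0 1 (SL.cons 0 1 SL.nil)))) WtL.nil
  (FamL.cons 0 80 67 5389 4514 32 0 (SL.cons 0 1 (SL.cons 0 5 (SL.cons 0 6 (SL.cons 0 2 SL.nil)))) WtL.nil
  (FamL.cons 0 80 77 2105 2027 23 0 (SL.cons 0 1 (SL.cons 0 25 (SL.cons 0 1 (SL.cons 0 2 SL.nil)))) WtL.nil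
  (FamL.cons 0 81 35 6667 2881 32 0 (SL.cons 0 2 (SL.cons 0 3 (SL.cons 0 5 (SL.cons 0 2 SL.nil)))) WtL.nil
  (FamL.cons 0 81 46 4833 2745 38 0 (SL.cons 0 1 (SL.cons 0 1 (SL.cons 0 3 (SL.cons 0 5 (SL.cons 0 1 (SL.cons 0 1 SL.nil)))))) WtL.nil
  (FamL.cons 0 83 26 4587 1437 57 0 (SL.cons 0 3 (SL.cons 0 5 (SL.cons 0 4 (SL.cons 0 1 SL.nil)))) WtL.nil
  (FamL.cons 0 83 57 7197 4943 13 0 (SL.cons 0 1 (SL.cons 0 2 (SL.cons 0 5 (SL.cons 0 5 SL.nil)))) WtL.nil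
  (FamL.cons 0 87 4 6851 315 53 0 (SL.cons 0 21 (SL.cons 0 1 (SL.cons 0 2 (SL.cons 0 1 SL.nil)))) WtL.nil
  (FamL.cons 0 87 25 10993 3159 65 0 (SL.cons 0 3 (SL.cons 0 2 (SL.cons 0 11 (SL.cons 0 1 SL.nil)))) WtL.nil
  (FamL.cons 0 87 62 1359 969 5 0 (SL.cons 0 1 (SL.cons 0 2 (SL.cons 0 2 (SL.cons 0 12 SL.nil)))) WtL.nil
  (FamL.cons 0 87 83 5501 5249 17 0 (SL.cons 0 1 (SL.cons 0 20 (SL.cons 0 1 (SL.cons 0 3 SL.nil)))) WtL.nil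
  (FamL.cons 0 89 14 3083 485 15 0 (SL.cons 0 6 (SL.cons 0 2 (SL.cons 0 1 (SL.cons 0 4 SL.nil)))) WtL.nil
  (FamL.cons 0 89 75 9553 8051 55 0 (SL.cons 0 1 (SL.cons 0 5 (SL.cons 0 2 (SL.cons 0 1 (SL.cons 0 3 (SL.cons 0 1 SL.nil)))))) WtL.nil
  (FamL.cons 1 89 31 12319 4291 18 0 (SL.cons 0 2 (SL.cons 0 1 (SL.cons 0 6 (SL.cons 0 1 (SL.cons 0 3 SL.nil))))) WtL.nil
  (FamL.cons 1 89 58 317 207 52 0 (SL.cons 0 1 (SL.cons 0 1 (SL.cons 0 1 (SL.cons 0 6 (SL.cons 0 1 (SL.cons 0 2 (SL.cons 0 1 SL.nil))))))) WtL.nil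
  (FamL.cons 1 94 27 1643 472 5 0 (SL.cons 0 3 (SL.cons 0 2 (SL.cons 0 13 SL.nil))) WtL.nil
  (FamL.cons 1 94 67 5029 3585 65 0 (SL.cons 0 1 (SL.cons 0 2 (SL.cons 0 2 (SL.cons 0 12 (SL.cons 0 1 SL.nil))))) WtL.nil
  (FamL.cons 0 95 28 2317 683 58 0 (SL.cons 0 3 (SL.cons 0 2 (SL.cons 0 1 (SL.cons 0 1 (SL.cons 0 4 (SL.cons 0 1 SL.nil)))))) WtL.nil
  (FamL.cons 0 95 47 7173 3549 1 0 (SL.cons 0 2 (SL.cons 0 47 SL.nil)) WtL.nil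
  (FamL.cons 0 95 48 6315 3191 69 0 (SL.cons 0 1 (SL.cons 0 1 (SL.cons 0 46 (SL.cons 0 1 SL.nil)))) WtL.nil
  (FamL.cons 0 95 67 11171 7879 12 0 (SL.cons 0 1 (SL.cons 0 2 (SL.cons 0 2 (SL.cons 0 1 (SL.cons 0 1 (SL.cons 0 5 SL.nil)))))) WtL.nil
  (FamL.cons 0 96 5 5779 301 14 0 (SL.cons 0 19 (SL.cons 0 5 SL.nil)) WtL.nil
  (FamL.cons 0 96 37 477 184 61 0 (SL.cons 0 2 (SL.cons 0 1 (SL.cons 0 1 (SL.cons 0 2 (SL.cons 0 6 (SL.cons 0 1 SL.nil)))))) WtL.nil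
  (FamL.cons 0 96 59 6337 3895 9 0 (SL.cons 0 1 (SL.cons 0 1 (SL.cons 0 1 (SL.cons 0 1 (SL.cons 0 2 (SL.cons 0 7 SL.nil)))))) WtL.nil
  (FamL.cons 0 96 91 1035 982 56 0 (SL.cons 0 1 (SL.cons 0 18 (SL.cons 0 4 (SL.cons 0 1 SL.nil)))) WtL.nil
  (FamL.cons 1 98 13 6581 873 60 0 (SL.cons 0 7 (SL.cons 0 1 (SL.cons 0 1 (SL.cons 0 5 (SL.cons 0 1 SL.nil))))) WtL.nil
  (FamL.cons 1 98 85 375 326 10 0 (SL.cons 0 1 (SL.cons 0 6 (SL.cons 0 1 (SL.cons 0 1 (SL.cons 0 6 SL.nil))))) WtL.nil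
  FamL.nil))))))))))))))))))))))))))))

theorem LQ71_5_sv : LQ71_5.all (gSvO 71 (sieA1 71 9 9 5 9 26 16 10 9 12 2) (sieA1 71 9 9 5 9 26 16 10 9 12 2)) = true := by
  decide +kernel

theorem LQ71_5_nm : LQ71_5.all (gNmO 71 37 37) = true := by decide +kernel

theorem LQ71_5_cov : covO 71 LQ71_5 80 21 = true := by decide +kernel

theorem one71 {d : ℕ} (F : FDO d 71 1) (hS : SolO d 71 1) : H419R2.tb LO d = true :=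
  one_soundO (Tm := 1) (Tp := 0) (wm := (WtL.cons 1 5 0 WtL.nil)) (wp := WtL.nil)
    (by norm_num) (by norm_num) sb71_1 sb71_1 (by decide +kernel) (by decide +kernel)
    (by decide +kernel) (by decide +kernel) (by decide +kernel) F hS

theorem all71 {d y : ℕ} (F : FDO d 71 y) (hS : SolO d 71 y) (h0 : 0 < y) (h60 : y ≤ 100) :
    H419R2.tb LO d = true := by
  have hP : Nat.Prime 71 := by norm_num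
  by_cases h1 : y = 1
  · subst h1
    exact one71 F hS
  by_cases h1' : y < 24
  · exact chunk_soundO hP (by norm_num) sb71_1 sb71_1 LQ71_1_sv LQ71_1_nm LQ71_1_cov F hS (by omega) (by omega) (by omega)
  by_cases h2' : y < 41
  · exact chunk_soundO hP (by norm_num) sb71_1 sb71_1 LQ71_2_sv LQ71_2_nm LQ71_2_cov F hS (by omega) (by omega) (by omega)
  by_cases h3' : y < 60
  · exact chunk_soundO hP (by norm_num) sb71_1 sb71_1 LQ71_3_sv LQ71_3_nm LQ71_3_cov F hS (by omega) (by omega) (by omega)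
  by_cases h4' : y < 80
  · exact chunk_soundO hP (by norm_num) sb71_1 sb71_1 LQ71_4_sv LQ71_4_nm LQ71_4_cov F hS (by omega) (by omega) (by omega)
  exact chunk_soundO hP (by norm_num) sb71_1 sb71_1 LQ71_5_sv LQ71_5_nm LQ71_5_cov F hS (by omega) (by omega) (by omega)

end Pool.Agent.H449
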