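import Pool.Agent.H449.O7

/-! Families for the prime 79. -/

set_option maxRecDepth 100000

namespace Pool.Agent.H449

/-- the families with 2 ≤ y < 16 -/
def LQ79_1 : FamL := (FamL.cons 1 2 1 157 59 39 0 (SL.cons 0 2 SL.nil) WtL.nil
  (FamL.cons 1 3 1 131 35 26 1 (SL.cons 0 3 SL.nil) (WtL.cons 3 3 2 WtL.nil)
  (FamL.cons 1 3 2 341 219 52 0 (SL.cons 0 1 (SL.cons 0 1 (SL.cons 0 1 SL.nil))) WtL.nil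
  (FamL.cons 0 5 1 679 139 63 0 (SL.cons 0 4 (SL.cons 0 1 SL.nil)) WtL.nil
  (FamL.cons 0 5 4 109 91 15 1 (SL.cons 0 1 (SL.cons 0 4 SL.nil)) (WtL.cons 3 5 3 WtL.nil)
  (FamL.cons 1 5 2 15 3 47 1 (SL.cons 0 2 (SL.cons 0 1 (SL.cons 0 1 SL.nil))) (WtL.cons 0 0 0 WtL.nil)
  (FamL.cons 1 5 3 773 461 31 0 (SL.cons 0 1 (SL.cons 0 1 (SL.cons 0 2 SL.nil))) WtL.nil
  (FamL.cons 1 6 1 421 68 13 0 (SL.cons 0 6 SL.nil) WtL.nil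
  (FamL.cons 1 6 5 51 41 65 1 (SL.cons 0 1 (SL.cons 0 4 (SL.cons 0 1 SL.nil))) (WtL.cons 0 0 0 WtL.nil)
  (FamL.cons 1 7 3 981 419 56 0 (SL.cons 0 2 (SL.cons 0 2 (SL.cons 0 1 SL.nil))) WtL.nil
  (FamL.cons 1 7 4 123 69 22 1 (SL.cons 0 1 (SL.cons 0 1 (SL.cons 0 3 SL.nil))) (WtL.cons 3 3 0 WtL.nil)
  (FamL.cons 0 8 3 335 127 49 0 (SL.cons 0 2 (SL.cons 0 1 (SL.cons 0 1 (SL.cons 0 1 SL.nil)))) WtL.nil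
  (FamL.cons 0 8 5 295 186 29 0 (SL.cons 0 1 (SL.cons 0 1 (SL.cons 0 1 (SL.cons 0 2 SL.nil)))) WtL.nil
  (FamL.cons 1 9 4 517 229 61 0 (SL.cons 0 2 (SL.cons 0 3 (SL.cons 0 1 SL.nil))) WtL.nil
  (FamL.cons 1 9 5 903 501 17 0 (SL.cons 0 1 (SL.cons 0 1 (SL.cons 0 4 SL.nil))) WtL.nil
  (FamL.cons 1 10 3 189 56 55 0 (SL.cons 0 3 (SL.cons 0 2 (SL.cons 0 1 SL.nil))) WtL.nil
  (FamL.cons 1 10 7 599 419 23 0 (SL.cons 0 1 (SL.cons 0 2 (SL.cons 0 3 SL.nil))) WtL.nil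
  (FamL.cons 0 11 3 969 265 50 0 (SL.cons 0 3 (SL.cons 0 1 (SL.cons 0 1 (SL.cons 0 1 SL.nil)))) WtL.nil
  (FamL.cons 0 11 8 767 559 28 0 (SL.cons 0 1 (SL.cons 0 2 (SL.cons 0 1 (SL.cons 0 2 SL.nil)))) WtL.nil
  (FamL.cons 0 13 5 1561 601 30 0 (SL.cons 0 2 (SL.cons 0 1 (SL.cons 0 1 (SL.cons 0 2 SL.nil)))) WtL.nil
  (FamL.cons 0 13 8 491 303 48 0 (SL.cons 0 1 (SL.cons 0 1 (SL.cons 0 1 (SL.cons 0 1 (SL.cons 0 1 (SL.cons 0 1 SL.nil)))))) WtL.nil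
  (FamL.cons 1 13 1 565 43 6 0 (SL.cons 0 13 SL.nil) WtL.nil
  (FamL.cons 1 13 12 1487 1373 72 0 (SL.cons 0 1 (SL.cons 0 11 (SL.cons 0 1 SL.nil))) WtL.nil
  (FamL.cons 1 14 3 767 164 28 0 (SL.cons 0 4 (SL.cons 0 1 (SL.cons 0 2 SL.nil))) WtL.nil
  (FamL.cons 1 14 11 337 265 50 0 (SL.cons 0 1 (SL.cons 0 3 (SL.cons 0 1 (SL.cons 0 1 (SL.cons 0 1 SL.nil))))) WtL.nil
  (FamL.cons 1 15 2 1585 211 42 0 (SL.cons 0 7 (SL.cons 0 1 (SL.cons 0 1 SL.nil))) WtL.nil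
  (FamL.cons 1 15 7 2111 985 68 0 (SL.cons 0 2 (SL.cons 0 6 (SL.cons 0 1 SL.nil))) WtL.nil
  (FamL.cons 1 15 8 257 137 10 1 (SL.cons 0 1 (SL.cons 0 1 (SL.cons 0 7 SL.nil))) (WtL.cons 3 3 2 WtL.nil)
  (FamL.cons 1 15 13 783 679 36 0 (SL.cons 0 1 (SL.cons 0 6 (SL.cons 0 2 SL.nil))) WtL.nil
  FamL.nil)))))))))))))))))))))))))))))

theorem LQ79_1_sv : LQ79_1.all (gSvO 79 (sieA1 79 2 11 5 14 15 0 13 3 8 2) (sieA1 79 2 11 5 14 15 0 13 3 8 2)) = true := by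
  decide +kernel

theorem LQ79_1_nm : LQ79_1.all (gNmO 79 37 37) = true := by decide +kernel

theorem LQ79_1_cov : covO 79 LQ79_1 2 14 = true := by decide +kernel

/-- the families with 16 ≤ y < 33 -/
def LQ79_2 : FamL := (FamL.cons 0 16 1 859 54 74 0 (SL.cons 0 15 (SL.cons 0 1 SL.nil)) WtL.nil
  (FamL.cons 0 16 15 403 379 4 1 (SL.cons 0 1 (SL.cons 0 15 SL.nil)) (WtL.cons 1 5 0 WtL.nil)
  (FamL.cons 1 18 5 807 224 48 0 (SL.cons 0 3 (SL.cons 0 1 (SL.cons 0 1 (SL.cons 0 1 (SL.cons 0 1 SL.nil))))) WtL.nil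
  (FamL.cons 1 18 13 613 443 30 0 (SL.cons 0 1 (SL.cons 0 2 (SL.cons 0 1 (SL.cons 0 1 (SL.cons 0 2 SL.nil))))) WtL.nil
  (FamL.cons 0 19 4 2407 507 58 0 (SL.cons 0 4 (SL.cons 0 1 (SL.cons 0 2 (SL.cons 0 1 SL.nil)))) WtL.nil
  (FamL.cons 0 19 15 593 469 20 0 (SL.cons 0 1 (SL.cons 0 3 (SL.cons 0 1 (SL.cons 0 3 SL.nil)))) WtL.nil
  (FamL.cons 1 21 4 2253 429 60 0 (SL.cons 0 5 (SL.cons 0 3 (SL.cons 0 1 SL.nil))) WtL.nil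
  (FamL.cons 1 21 10 695 331 71 0 (SL.cons 0 2 (SL.cons 0 9 (SL.cons 0 1 SL.nil))) WtL.nil
  (FamL.cons 1 21 11 2621 1373 7 0 (SL.cons 0 1 (SL.cons 0 1 (SL.cons 0 10 SL.nil))) WtL.nil
  (FamL.cons 1 21 17 1063 861 18 0 (SL.cons 0 1 (SL.cons 0 4 (SL.cons 0 4 SL.nil))) WtL.nil
  (FamL.cons 0 23 6 2579 673 65 0 (SL.cons 0 3 (SL.cons 0 1 (SL.cons 0 4 (SL.cons 0 1 SL.nil)))) WtL.nil
  (FamL.cons 0 23 17 1053 779 13 0 (SL.cons 0 1 (SL.cons 0 2 (SL.cons 0 1 (SL.cons 0 5 SL.nil)))) WtL.nil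
  (FamL.cons 0 25 11 2347 1033 28 0 (SL.cons 0 2 (SL.cons 0 3 (SL.cons 0 1 (SL.cons 0 2 SL.nil)))) WtL.nil
  (FamL.cons 0 25 14 1601 897 50 0 (SL.cons 0 1 (SL.cons 0 1 (SL.cons 0 3 (SL.cons 0 1 (SL.cons 0 1 (SL.cons 0 1 SL.nil)))))) WtL.nil
  (FamL.cons 1 25 2 2689 215 41 0 (SL.cons 0 12 (SL.cons 0 1 (SL.cons 0 1 SL.nil))) WtL.nil
  (FamL.cons 1 25 23 1259 1159 37 0 (SL.cons 0 1 (SL.cons 0 11 (SL.cons 0 2 SL.nil))) WtL.nil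
  (FamL.cons 1 26 1 1823 70 3 0 (SL.cons 0 26 SL.nil) WtL.nil
  (FamL.cons 1 26 25 229 221 75 1 (SL.cons 0 1 (SL.cons 0 24 (SL.cons 0 1 SL.nil))) (WtL.cons 1 3 0 WtL.nil)
  (FamL.cons 1 27 5 1723 319 32 0 (SL.cons 0 5 (SL.cons 0 2 (SL.cons 0 2 SL.nil))) WtL.nil
  (FamL.cons 1 27 22 2541 2071 46 0 (SL.cons 0 1 (SL.cons 0 4 (SL.cons 0 2 (SL.cons 0 1 (SL.cons 0 1 SL.nil))))) WtL.nil
  (FamL.cons 1 30 7 463 108 34 0 (SL.cons 0 4 (SL.cons 0 3 (SL.cons 0 2 SL.nil))) WtL.nil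
  (FamL.cons 1 30 13 2169 940 18 0 (SL.cons 0 2 (SL.cons 0 3 (SL.cons 0 4 SL.nil))) WtL.nil
  (FamL.cons 1 30 17 199 113 60 0 (SL.cons 0 1 (SL.cons 0 1 (SL.cons 0 3 (SL.cons 0 3 (SL.cons 0 1 SL.nil))))) WtL.nil
  (FamL.cons 1 30 23 1905 1461 44 0 (SL.cons 0 1 (SL.cons 0 3 (SL.cons 0 3 (SL.cons 0 1 (SL.cons 0 1 SL.nil))))) WtL.nil
  (FamL.cons 0 31 13 2229 935 48 0 (SL.cons 0 2 (SL.cons 0 2 (SL.cons 0 1 (SL.cons 0 1 (SL.cons 0 1 (SL.cons 0 1 SL.nil)))))) WtL.nil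
  (FamL.cons 0 31 18 2667 1549 30 0 (SL.cons 0 1 (SL.cons 0 1 (SL.cons 0 2 (SL.cons 0 1 (SL.cons 0 1 (SL.cons 0 2 SL.nil)))))) WtL.nil
  (FamL.cons 0 32 9 1219 343 17 0 (SL.cons 0 3 (SL.cons 0 1 (SL.cons 0 1 (SL.cons 0 4 SL.nil)))) WtL.nil
  (FamL.cons 0 32 23 1307 940 61 0 (SL.cons 0 1 (SL.cons 0 2 (SL.cons 0 1 (SL.cons 0 1 (SL.cons 0 3 (SL.cons 0 1 SL.nil)))))) WtL.nil
  FamL.nil))))))))))))))))))))))))))))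

theorem LQ79_2_sv : LQ79_2.all (gSvO 79 (sieA1 79 2 11 5 14 15 0 13 3 8 2) (sieA1 79 2 11 5 14 15 0 13 3 8 2)) = true := by
  decide +kernel

theorem LQ79_2_nm : LQ79_2.all (gNmO 79 37 37) = true := by decide +kernel

theorem LQ79_2_cov : covO 79 LQ79_2 16 17 = true := by decide +kernel

/-- the families with 33 ≤ y < 51 -/
def LQ79_3 : FamL := (FamL.cons 1 35 3 4399 377 27 0 (SL.cons 0 11 (SL.cons 0 1 (SL.cons 0 2 SL.nil))) WtL.nil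
  (FamL.cons 1 35 17 4177 2029 74 0 (SL.cons 0 2 (SL.cons 0 16 (SL.cons 0 1 SL.nil))) WtL.nil
  (FamL.cons 1 35 18 1351 695 4 0 (SL.cons 0 1 (SL.cons 0 1 (SL.cons 0 17 SL.nil))) WtL.nil
  (FamL.cons 1 35 32 1129 1033 51 0 (SL.cons 0 1 (SL.cons 0 10 (SL.cons 0 1 (SL.cons 0 1 (SL.cons 0 1 SL.nil))))) WtL.nil
  (FamL.cons 1 39 1 2927 75 2 0 (SL.cons 0 39 SL.nil) WtL.nil
  (FamL.cons 1 39 14 1557 559 28 0 (SL.cons 0 2 (SL.cons 0 1 (SL.cons 0 3 (SL.cons 0 1 (SL.cons 0 2 SL.nil))))) WtL.nil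
  (FamL.cons 1 39 25 4603 2951 50 0 (SL.cons 0 1 (SL.cons 0 1 (SL.cons 0 1 (SL.cons 0 3 (SL.cons 0 1 (SL.cons 0 1 (SL.cons 0 1 SL.nil))))))) WtL.nil
  (FamL.cons 1 39 38 3233 3151 76 0 (SL.cons 0 1 (SL.cons 0 37 (SL.cons 0 1 SL.nil))) WtL.nil
  (FamL.cons 0 40 11 825 227 57 0 (SL.cons 0 3 (SL.cons 0 1 (SL.cons 0 1 (SL.cons 0 1 (SL.cons 0 2 (SL.cons 0 1 SL.nil)))))) WtL.nil
  (FamL.cons 0 40 19 951 452 41 0 (SL.cons 0 2 (SL.cons 0 9 (SL.cons 0 1 (SL.cons 0 1 SL.nil)))) WtL.nil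
  (FamL.cons 0 40 21 2207 1159 37 0 (SL.cons 0 1 (SL.cons 0 1 (SL.cons 0 9 (SL.cons 0 2 SL.nil)))) WtL.nil
  (FamL.cons 0 40 29 2333 1692 21 0 (SL.cons 0 1 (SL.cons 0 2 (SL.cons 0 1 (SL.cons 0 1 (SL.cons 0 1 (SL.cons 0 3 SL.nil)))))) WtL.nil
  (FamL.cons 1 42 11 481 126 43 0 (SL.cons 0 3 (SL.cons 0 1 (SL.cons 0 4 (SL.cons 0 1 (SL.cons 0 1 SL.nil))))) WtL.nil
  (FamL.cons 1 42 17 1361 551 9 0 (SL.cons 0 2 (SL.cons 0 2 (SL.cons 0 8 SL.nil))) WtL.nil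
  (FamL.cons 1 42 25 1955 1164 69 0 (SL.cons 0 1 (SL.cons 0 1 (SL.cons 0 2 (SL.cons 0 7 (SL.cons 0 1 SL.nil))))) WtL.nil
  (FamL.cons 1 42 31 2835 2093 35 0 (SL.cons 0 1 (SL.cons 0 2 (SL.cons 0 1 (SL.cons 0 4 (SL.cons 0 2 SL.nil))))) WtL.nil
  (FamL.cons 1 43 6 5583 779 66 0 (SL.cons 0 7 (SL.cons 0 5 (SL.cons 0 1 SL.nil))) WtL.nil
  (FamL.cons 1 43 37 1209 1041 12 0 (SL.cons 0 1 (SL.cons 0 6 (SL.cons 0 6 SL.nil))) WtL.nil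
  (FamL.cons 1 45 13 5791 1673 12 0 (SL.cons 0 3 (SL.cons 0 2 (SL.cons 0 6 SL.nil))) WtL.nil
  (FamL.cons 1 45 22 4653 2275 75 0 (SL.cons 0 2 (SL.cons 0 21 (SL.cons 0 1 SL.nil))) WtL.nil
  (FamL.cons 1 45 23 2455 1255 3 0 (SL.cons 0 1 (SL.cons 0 1 (SL.cons 0 22 SL.nil))) WtL.nil
  (FamL.cons 1 45 32 1317 937 66 0 (SL.cons 0 1 (SL.cons 0 2 (SL.cons 0 2 (SL.cons 0 5 (SL.cons 0 1 SL.nil))))) WtL.nil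
  (FamL.cons 1 47 19 1991 805 8 0 (SL.cons 0 2 (SL.cons 0 2 (SL.cons 0 9 SL.nil))) WtL.nil
  (FamL.cons 1 47 28 5433 3237 70 0 (SL.cons 0 1 (SL.cons 0 1 (SL.cons 0 2 (SL.cons 0 8 (SL.cons 0 1 SL.nil))))) WtL.nil
  (FamL.cons 1 49 18 2545 935 48 0 (SL.cons 0 2 (SL.cons 0 1 (SL.cons 0 2 (SL.cons 0 1 (SL.cons 0 1 (SL.cons 0 1 (SL.cons 0 1 SL.nil))))))) WtL.nil
  (FamL.cons 1 49 31 5195 3287 30 0 (SL.cons 0 1 (SL.cons 0 1 (SL.cons 0 1 (SL.cons 0 2 (SL.cons 0 1 (SL.cons 0 1 (SL.cons 0 2 SL.nil))))))) WtL.nil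
  (FamL.cons 1 50 23 1617 744 58 0 (SL.cons 0 2 (SL.cons 0 5 (SL.cons 0 1 (SL.cons 0 2 (SL.cons 0 1 SL.nil))))) WtL.nil
  (FamL.cons 1 50 27 2331 1259 20 0 (SL.cons 0 1 (SL.cons 0 1 (SL.cons 0 5 (SL.cons 0 1 (SL.cons 0 3 SL.nil))))) WtL.nil
  FamL.nil))))))))))))))))))))))))))))

theorem LQ79_3_sv : LQ79_3.all (gSvO 79 (sieA1 79 2 11 5 14 15 0 13 3 8 2) (sieA1 79 2 11 5 14 15 0 13 3 8 2)) = true := by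
  decide +kernel

theorem LQ79_3_nm : LQ79_3.all (gNmO 79 37 37) = true := by decide +kernel

theorem LQ79_3_cov : covO 79 LQ79_3 33 18 = true := by decide +kernel

/-- the families with 51 ≤ y < 71 -/
def LQ79_4 : FamL := (FamL.cons 1 54 5 4061 376 16 0 (SL.cons 0 10 (SL.cons 0 1 (SL.cons 0 4 SL.nil))) WtL.nil
  (FamL.cons 1 54 49 203 185 62 1 (SL.cons 0 1 (SL.cons 0 9 (SL.cons 0 1 (SL.cons 0 3 (SL.cons 0 1 SL.nil))))) (WtL.cons 1 3 0 WtL.nil)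
  (FamL.cons 0 55 14 5755 1465 73 0 (SL.cons 0 3 (SL.cons 0 1 (SL.cons 0 12 (SL.cons 0 1 SL.nil)))) WtL.nil
  (FamL.cons 0 55 19 153 53 37 1 (SL.cons 0 2 (SL.cons 0 1 (SL.cons 0 8 (SL.cons 0 2 SL.nil)))) (WtL.cons 3 5 3 WtL.nil)
  (FamL.cons 0 55 36 8535 5587 41 0 (SL.cons 0 1 (SL.cons 0 1 (SL.cons 0 1 (SL.cons 0 8 (SL.cons 0 1 (SL.cons 0 1 SL.nil)))))) WtL.nil
  (FamL.cons 0 55 41 2933 2187 5 0 (SL.cons 0 1 (SL.cons 0 2 (SL.cons 0 1 (SL.cons 0 13 SL.nil)))) WtL.nil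
  (FamL.cons 1 59 16 5579 1513 64 0 (SL.cons 0 3 (SL.cons 0 1 (SL.cons 0 2 (SL.cons 0 4 (SL.cons 0 1 SL.nil))))) WtL.nil
  (FamL.cons 1 59 43 3741 2727 14 0 (SL.cons 0 1 (SL.cons 0 2 (SL.cons 0 1 (SL.cons 0 2 (SL.cons 0 5 SL.nil))))) WtL.nil
  (FamL.cons 1 63 4 7387 469 20 0 (SL.cons 0 15 (SL.cons 0 1 (SL.cons 0 3 SL.nil))) WtL.nil
  (FamL.cons 1 63 31 5761 2835 76 0 (SL.cons 0 2 (SL.cons 0 30 (SL.cons 0 1 SL.nil))) WtL.nil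
  (FamL.cons 1 63 32 4191 2129 2 0 (SL.cons 0 1 (SL.cons 0 1 (SL.cons 0 31 SL.nil))) WtL.nil
  (FamL.cons 1 63 59 2565 2403 58 0 (SL.cons 0 1 (SL.cons 0 14 (SL.cons 0 1 (SL.cons 0 2 (SL.cons 0 1 SL.nil))))) WtL.nil
  (FamL.cons 0 64 25 3453 1349 28 0 (SL.cons 0 2 (SL.cons 0 1 (SL.cons 0 1 (SL.cons 0 3 (SL.cons 0 1 (SL.cons 0 2 SL.nil)))))) WtL.nil
  (FamL.cons 0 64 39 1601 976 50 0 (SL.cons 0 1 (SL.cons 0 1 (SL.cons 0 1 (SL.cons 0 1 (SL.cons 0 3 (SL.cons 0 1 (SL.cons 0 1 (SL.cons 0 1 SL.nil)))))))) WtL.nil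
  (FamL.cons 0 65 21 9957 3217 41 0 (SL.cons 0 3 (SL.cons 0 10 (SL.cons 0 1 (SL.cons 0 1 SL.nil)))) WtL.nil
  (FamL.cons 0 65 31 9349 4459 53 0 (SL.cons 0 2 (SL.cons 0 10 (SL.cons 0 2 (SL.cons 0 1 SL.nil)))) WtL.nil
  (FamL.cons 0 65 34 919 481 25 0 (SL.cons 0 1 (SL.cons 0 1 (SL.cons 0 10 (SL.cons 0 3 SL.nil)))) WtL.nil
  (FamL.cons 0 65 44 311 211 37 1 (SL.cons 0 1 (SL.cons 0 2 (SL.cons 0 10 (SL.cons 0 2 SL.nil)))) (WtL.cons 3 5 2 WtL.nil)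
  (FamL.cons 1 65 12 5227 965 46 0 (SL.cons 0 5 (SL.cons 0 2 (SL.cons 0 2 (SL.cons 0 1 (SL.cons 0 1 SL.nil))))) WtL.nil
  (FamL.cons 1 65 27 6685 2777 64 0 (SL.cons 0 2 (SL.cons 0 2 (SL.cons 0 2 (SL.cons 0 4 (SL.cons 0 1 SL.nil))))) WtL.nil
  (FamL.cons 1 65 38 3583 2095 14 0 (SL.cons 0 1 (SL.cons 0 1 (SL.cons 0 2 (SL.cons 0 2 (SL.cons 0 5 SL.nil))))) WtL.nil
  (FamL.cons 1 65 53 5041 4111 32 0 (SL.cons 0 1 (SL.cons 0 4 (SL.cons 0 2 (SL.cons 0 2 (SL.cons 0 2 SL.nil))))) WtL.nil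
  (FamL.cons 0 67 16 29 7 54 1 (SL.cons 0 4 (SL.cons 0 5 (SL.cons 0 2 (SL.cons 0 1 SL.nil)))) (WtL.cons 0 0 0 WtL.nil)
  (FamL.cons 0 67 51 10555 8035 24 0 (SL.cons 0 1 (SL.cons 0 3 (SL.cons 0 5 (SL.cons 0 3 SL.nil)))) WtL.nil
  (FamL.cons 1 70 3 817 35 53 1 (SL.cons 0 23 (SL.cons 0 2 (SL.cons 0 1 SL.nil))) (WtL.cons 1 3 0 WtL.nil)
  (FamL.cons 1 70 17 3471 843 37 0 (SL.cons 0 4 (SL.cons 0 8 (SL.cons 0 2 SL.nil))) WtL.nil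
  (FamL.cons 1 70 53 2057 1558 41 0 (SL.cons 0 1 (SL.cons 0 3 (SL.cons 0 8 (SL.cons 0 1 (SL.cons 0 1 SL.nil))))) WtL.nil
  (FamL.cons 1 70 67 4711 4510 25 0 (SL.cons 0 1 (SL.cons 0 22 (SL.cons 0 3 SL.nil))) WtL.nil
  FamL.nil))))))))))))))))))))))))))))

theorem LQ79_4_sv : LQ79_4.all (gSvO 79 (sieA1 79 2 11 5 14 15 0 13 3 8 2) (sieA1 79 2 11 5 14 15 0 13 3 8 2)) = true := by
  decide +kernel

theorem LQ79_4_nm : LQ79_4.all (gNmO 79 37 37) = true := by decide +kernel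

theorem LQ79_4_cov : covO 79 LQ79_4 51 20 = true := by decide +kernel

/-- the families with 71 ≤ y < 89 -/
def LQ79_5 : FamL := (FamL.cons 1 71 24 3245 1097 3 0 (SL.cons 0 2 (SL.cons 0 1 (SL.cons 0 23 SL.nil))) WtL.nil
  (FamL.cons 1 71 47 7971 5277 75 0 (SL.cons 0 1 (SL.cons 0 1 (SL.cons 0 1 (SL.cons 0 22 (SL.cons 0 1 SL.nil))))) WtL.nil
  (FamL.cons 0 73 33 7753 3505 45 0 (SL.cons 0 2 (SL.cons 0 4 (SL.cons 0 1 (SL.cons 0 2 (SL.cons 0 1 (SL.cons 0 1 SL.nil)))))) WtL.nil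
  (FamL.cons 0 73 40 3779 2071 33 0 (SL.cons 0 1 (SL.cons 0 1 (SL.cons 0 4 (SL.cons 0 1 (SL.cons 0 2 (SL.cons 0 2 SL.nil)))))) WtL.nil
  (FamL.cons 1 73 15 9485 1949 42 0 (SL.cons 0 4 (SL.cons 0 1 (SL.cons 0 6 (SL.cons 0 1 (SL.cons 0 1 SL.nil))))) WtL.nil
  (FamL.cons 1 73 58 2047 1627 36 0 (SL.cons 0 1 (SL.cons 0 3 (SL.cons 0 1 (SL.cons 0 6 (SL.cons 0 2 SL.nil))))) WtL.nil
  (FamL.cons 1 75 2 2213 59 40 0 (SL.cons 0 37 (SL.cons 0 1 (SL.cons 0 1 SL.nil))) WtL.nil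
  (FamL.cons 1 75 23 10953 3359 65 0 (SL.cons 0 3 (SL.cons 0 3 (SL.cons 0 1 (SL.cons 0 4 (SL.cons 0 1 SL.nil))))) WtL.nil
  (FamL.cons 1 75 52 895 621 13 0 (SL.cons 0 1 (SL.cons 0 2 (SL.cons 0 3 (SL.cons 0 1 (SL.cons 0 5 SL.nil))))) WtL.nil
  (FamL.cons 1 75 73 9635 9379 38 0 (SL.cons 0 1 (SL.cons 0 36 (SL.cons 0 2 SL.nil))) WtL.nil
  (FamL.cons 1 78 1 6085 78 1 0 (SL.cons 0 78 SL.nil) WtL.nil
  (FamL.cons 1 78 25 761 244 25 0 (SL.cons 0 3 (SL.cons 0 8 (SL.cons 0 3 SL.nil))) WtL.nil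
  (FamL.cons 1 78 53 5399 3669 53 0 (SL.cons 0 1 (SL.cons 0 2 (SL.cons 0 8 (SL.cons 0 2 (SL.cons 0 1 SL.nil))))) WtL.nil
  (FamL.cons 1 78 77 75 75 77 1 (SL.cons 0 1 (SL.cons 0 76 (SL.cons 0 1 SL.nil))) (WtL.cons 1 5 0 WtL.nil)
  (FamL.cons 0 80 1 6239 78 78 0 (SL.cons 0 79 (SL.cons 0 1 SL.nil)) WtL.nil
  (FamL.cons 0 80 31 1597 619 48 0 (SL.cons 0 2 (SL.cons 0 1 (SL.cons 0 1 (SL.cons 0 2 (SL.cons 0 1 (SL.cons 0 1 (SL.cons 0 1 (SL.cons 0 1 SL.nil)))))))) WtL.nil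
  (FamL.cons 0 80 49 4721 2892 30 0 (SL.cons 0 1 (SL.cons 0 1 (SL.cons 0 1 (SL.cons 0 1 (SL.cons 0 2 (SL.cons 0 1 (SL.cons 0 1 (SL.cons 0 2 SL.nil)))))))) WtL.nil
  (FamL.cons 0 80 79 79 79 0 1 (SL.cons 0 1 (SL.cons 0 79 SL.nil)) (WtL.cons 2 1 79 WtL.nil)
  (FamL.cons 1 81 22 6535 1775 68 0 (SL.cons 0 3 (SL.cons 0 1 (SL.cons 0 2 (SL.cons 0 6 (SL.cons 0 1 SL.nil))))) WtL.nil
  (FamL.cons 1 81 59 6261 4561 10 0 (SL.cons 0 1 (SL.cons 0 2 (SL.cons 0 1 (SL.cons 0 2 (SL.cons 0 7 SL.nil))))) WtL.nil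
  (FamL.cons 0 83 2 9005 217 39 0 (SL.cons 0 41 (SL.cons 0 2 SL.nil)) WtL.nil
  (FamL.cons 0 83 81 4107 4009 39 0 (SL.cons 0 1 (SL.cons 0 40 (SL.cons 0 1 (SL.cons 0 1 SL.nil)))) WtL.nil
  (FamL.cons 1 86 37 2303 991 6 0 (SL.cons 0 2 (SL.cons 0 3 (SL.cons 0 12 SL.nil))) WtL.nil
  (FamL.cons 1 86 49 4489 2558 72 0 (SL.cons 0 1 (SL.cons 0 1 (SL.cons 0 3 (SL.cons 0 11 (SL.cons 0 1 SL.nil))))) WtL.nil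
  (FamL.cons 0 88 3 5661 193 26 0 (SL.cons 0 29 (SL.cons 0 3 SL.nil)) WtL.nil
  (FamL.cons 0 88 19 5201 1123 33 0 (SL.cons 0 4 (SL.cons 0 1 (SL.cons 0 1 (SL.cons 0 1 (SL.cons 0 2 (SL.cons 0 2 SL.nil)))))) WtL.nil
  (FamL.cons 0 88 69 1749 1372 45 0 (SL.cons 0 1 (SL.cons 0 3 (SL.cons 0 1 (SL.cons 0 1 (SL.cons 0 1 (SL.cons 0 2 (SL.cons 0 1 (SL.cons 0 1 SL.nil)))))))) WtL.nil
  (FamL.cons 0 88 85 1289 1246 52 0 (SL.cons 0 1 (SL.cons 0 28 (SL.cons 0 2 (SL.cons 0 1 SL.nil)))) WtL.nil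
  FamL.nil))))))))))))))))))))))))))))

theorem LQ79_5_sv : LQ79_5.all (gSvO 79 (sieA1 79 2 11 5 14 15 0 13 3 8 2) (sieA1 79 2 11 5 14 15 0 13 3 8 2)) = true := by
  decide +kernel

theorem LQ79_5_nm : LQ79_5.all (gNmO 79 37 37) = true := by decide +kernel

theorem LQ79_5_cov : covO 79 LQ79_5 71 18 = true := by decide +kernel

/-- the families with 89 ≤ y < 101 -/
def LQ79_6 : FamL := (FamL.cons 0 89 30 5129 1729 76 0 (SL.cons 0 2 (SL.cons 0 1 (SL.cons 0 28 (SL.cons 0 1 SL.nil)))) WtL.nil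
  (FamL.cons 0 89 59 8931 5921 2 0 (SL.cons 0 1 (SL.cons 0 1 (SL.cons 0 1 (SL.cons 0 29 SL.nil)))) WtL.nil
  (FamL.cons 1 89 41 6375 2937 67 0 (SL.cons 0 2 (SL.cons 0 5 (SL.cons 0 1 (SL.cons 0 5 (SL.cons 0 1 SL.nil))))) WtL.nil
  (FamL.cons 1 89 48 7685 4145 11 0 (SL.cons 0 1 (SL.cons 0 1 (SL.cons 0 5 (SL.cons 0 1 (SL.cons 0 6 SL.nil))))) WtL.nil
  (FamL.cons 1 90 13 4673 675 6 0 (SL.cons 0 6 (SL.cons 0 1 (SL.cons 0 12 SL.nil))) WtL.nil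
  (FamL.cons 1 90 23 3005 768 41 0 (SL.cons 0 3 (SL.cons 0 1 (SL.cons 0 10 (SL.cons 0 1 (SL.cons 0 1 SL.nil))))) WtL.nil
  (FamL.cons 1 90 67 4103 3055 37 0 (SL.cons 0 1 (SL.cons 0 2 (SL.cons 0 1 (SL.cons 0 10 (SL.cons 0 2 SL.nil))))) WtL.nil
  (FamL.cons 1 90 77 2435 2084 72 0 (SL.cons 0 1 (SL.cons 0 5 (SL.cons 0 1 (SL.cons 0 11 (SL.cons 0 1 SL.nil))))) WtL.nil
  (FamL.cons 1 91 25 11069 3041 44 0 (SL.cons 0 3 (SL.cons 0 1 (SL.cons 0 1 (SL.cons 0 1 (SL.cons 0 3 (SL.cons 0 1 (SL.cons 0 1 SL.nil))))))) WtL.nil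
  (FamL.cons 1 91 38 3733 1559 10 0 (SL.cons 0 2 (SL.cons 0 2 (SL.cons 0 1 (SL.cons 0 1 (SL.cons 0 7 SL.nil))))) WtL.nil
  (FamL.cons 1 91 53 10643 6199 68 0 (SL.cons 0 1 (SL.cons 0 1 (SL.cons 0 2 (SL.cons 0 1 (SL.cons 0 1 (SL.cons 0 6 (SL.cons 0 1 SL.nil))))))) WtL.nil
  (FamL.cons 1 91 66 3307 2399 34 0 (SL.cons 0 1 (SL.cons 0 2 (SL.cons 0 1 (SL.cons 0 1 (SL.cons 0 1 (SL.cons 0 3 (SL.cons 0 2 SL.nil))))))) WtL.nil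
  (FamL.cons 1 94 19 6565 1327 4 0 (SL.cons 0 4 (SL.cons 0 1 (SL.cons 0 18 SL.nil))) WtL.nil
  (FamL.cons 1 94 75 859 686 74 0 (SL.cons 0 1 (SL.cons 0 3 (SL.cons 0 1 (SL.cons 0 17 (SL.cons 0 1 SL.nil))))) WtL.nil
  (FamL.cons 0 95 4 14891 627 59 0 (SL.cons 0 23 (SL.cons 0 1 (SL.cons 0 2 (SL.cons 0 1 SL.nil)))) WtL.nil
  (FamL.cons 0 95 34 7323 2621 67 0 (SL.cons 0 2 (SL.cons 0 1 (SL.cons 0 3 (SL.cons 0 1 (SL.cons 0 5 (SL.cons 0 1 SL.nil)))))) WtL.nil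
  (FamL.cons 0 95 61 7685 4935 11 0 (SL.cons 0 1 (SL.cons 0 1 (SL.cons 0 1 (SL.cons 0 3 (SL.cons 0 1 (SL.cons 0 6 SL.nil)))))) WtL.nil
  (FamL.cons 0 95 91 117 113 19 1 (SL.cons 0 1 (SL.cons 0 22 (SL.cons 0 1 (SL.cons 0 3 SL.nil)))) (WtL.cons 3 7 4 WtL.nil)
  (FamL.cons 0 97 42 13083 5665 24 0 (SL.cons 0 2 (SL.cons 0 3 (SL.cons 0 4 (SL.cons 0 3 SL.nil)))) WtL.nil
  (FamL.cons 0 97 55 2241 1271 54 0 (SL.cons 0 1 (SL.cons 0 1 (SL.cons 0 3 (SL.cons 0 4 (SL.cons 0 2 (SL.cons 0 1 SL.nil)))))) WtL.nil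
  (FamL.cons 1 97 46 10853 5147 15 0 (SL.cons 0 2 (SL.cons 0 9 (SL.cons 0 5 SL.nil))) WtL.nil
  (FamL.cons 1 97 51 4471 2351 63 0 (SL.cons 0 1 (SL.cons 0 1 (SL.cons 0 9 (SL.cons 0 4 (SL.cons 0 1 SL.nil))))) WtL.nil
  (FamL.cons 1 98 31 4533 1434 15 0 (SL.cons 0 3 (SL.cons 0 6 (SL.cons 0 5 SL.nil))) WtL.nil
  (FamL.cons 1 98 67 3207 2193 63 0 (SL.cons 0 1 (SL.cons 0 2 (SL.cons 0 6 (SL.cons 0 4 (SL.cons 0 1 SL.nil))))) WtL.nil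
  FamL.nil))))))))))))))))))))))))

theorem LQ79_6_sv : LQ79_6.all (gSvO 79 (sieA1 79 2 11 5 14 15 0 13 3 8 2) (sieA1 79 2 11 5 14 15 0 13 3 8 2)) = true := by
  decide +kernel

theorem LQ79_6_nm : LQ79_6.all (gNmO 79 37 37) = true := by decide +kernel

theorem LQ79_6_cov : covO 79 LQ79_6 89 12 = true := by decide +kernel

theorem one79 {d : ℕ} (F : FDO d 79 1) (hS : SolO d 79 1) : H419R2.tb LO d = true :=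
  one_soundO (Tm := 0) (Tp := 0) (wm := WtL.nil) (wp := WtL.nil)
    (by norm_num) (by norm_num) sb79_1 sb79_1 (by decide +kernel) (by decide +kernel)
    (by decide +kernel) (by decide +kernel) (by decide +kernel) F hS

theorem all79 {d y : ℕ} (F : FDO d 79 y) (hS : SolO d 79 y) (h0 : 0 < y) (h60 : y ≤ 100) :
    H419R2.tb LO d = true := by
  have hP : Nat.Prime 79 := by norm_num
  by_cases h1 : y = 1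
  · subst h1
    exact one79 F hS
  by_cases h1' : y < 16
  · exact chunk_soundO hP (by norm_num) sb79_1 sb79_1 LQ79_1_sv LQ79_1_nm LQ79_1_cov F hS (by omega) (by omega) (by omega)
  by_cases h2' : y < 33
  · exact chunk_soundO hP (by norm_num) sb79_1 sb79_1 LQ79_2_sv LQ79_2_nm LQ79_2_cov F hS (by omega) (by omega) (by omega)
  by_cases h3' : y < 51
  · exact chunk_soundO hP (by norm_num) sb79_1 sb79_1 LQ79_3_sv LQ79_3_nm LQ79_3_cov F hS (by omega) (by omega) (by omega)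
  by_cases h4' : y < 71
  · exact chunk_soundO hP (by norm_num) sb79_1 sb79_1 LQ79_4_sv LQ79_4_nm LQ79_4_cov F hS (by omega) (by omega) (by omega)
  by_cases h5' : y < 89
  · exact chunk_soundO hP (by norm_num) sb79_1 sb79_1 LQ79_5_sv LQ79_5_nm LQ79_5_cov F hS (by omega) (by omega) (by omega)
  exact chunk_soundO hP (by norm_num) sb79_1 sb79_1 LQ79_6_sv LQ79_6_nm LQ79_6_cov F hS (by omega) (by omega) (by omega)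

end Pool.Agent.H449
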