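import Pool.Agent.H449.O7

/-! Families for the prime 83. -/

set_option maxRecDepth 100000

namespace Pool.Agent.H449

/-- the families with 2 ≤ y < 28 -/
def LQ83_1 : FamL := (FamL.cons 1 2 1 165 62 41 0 (SL.cons 0 2 SL.nil) WtL.nil
  (FamL.cons 0 3 1 359 129 55 0 (SL.cons 0 2 (SL.cons 0 1 SL.nil)) WtL.nil
  (FamL.cons 0 3 2 137 101 27 1 (SL.cons 0 1 (SL.cons 0 2 SL.nil)) (WtL.cons 3 3 2 WtL.nil)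
  (FamL.cons 0 4 1 207 57 62 0 (SL.cons 0 3 (SL.cons 0 1 SL.nil)) WtL.nil
  (FamL.cons 0 4 3 123 98 20 1 (SL.cons 0 1 (SL.cons 0 3 SL.nil)) (WtL.cons 3 2 0 WtL.nil)
  (FamL.cons 0 7 1 723 105 71 0 (SL.cons 0 6 (SL.cons 0 1 SL.nil)) WtL.nil
  (FamL.cons 0 7 6 437 377 11 0 (SL.cons 0 1 (SL.cons 0 6 SL.nil)) WtL.nil
  (FamL.cons 0 9 4 949 423 18 0 (SL.cons 0 2 (SL.cons 0 4 SL.nil)) WtL.nil
  (FamL.cons 0 9 5 543 303 64 0 (SL.cons 0 1 (SL.cons 0 1 (SL.cons 0 3 (SL.cons 0 1 SL.nil)))) WtL.nil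
  (FamL.cons 0 11 4 369 135 60 0 (SL.cons 0 2 (SL.cons 0 1 (SL.cons 0 2 (SL.cons 0 1 SL.nil)))) WtL.nil
  (FamL.cons 0 11 7 1455 927 22 0 (SL.cons 0 1 (SL.cons 0 1 (SL.cons 0 1 (SL.cons 0 3 SL.nil)))) WtL.nil
  (FamL.cons 0 12 1 401 34 76 1 (SL.cons 0 11 (SL.cons 0 1 SL.nil)) (WtL.cons 3 2 0 WtL.nil)
  (FamL.cons 0 12 5 843 352 48 0 (SL.cons 0 2 (SL.cons 0 2 (SL.cons 0 1 (SL.cons 0 1 SL.nil)))) WtL.nil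
  (FamL.cons 0 12 7 151 89 34 0 (SL.cons 0 1 (SL.cons 0 1 (SL.cons 0 2 (SL.cons 0 2 SL.nil)))) WtL.nil
  (FamL.cons 0 12 11 593 545 6 0 (SL.cons 0 1 (SL.cons 0 11 SL.nil)) WtL.nil
  (FamL.cons 0 17 6 1713 605 68 0 (SL.cons 0 2 (SL.cons 0 1 (SL.cons 0 4 (SL.cons 0 1 SL.nil)))) WtL.nil
  (FamL.cons 0 17 11 1107 717 14 0 (SL.cons 0 1 (SL.cons 0 1 (SL.cons 0 1 (SL.cons 0 5 SL.nil)))) WtL.nil
  (FamL.cons 1 17 7 1625 669 24 0 (SL.cons 0 2 (SL.cons 0 2 (SL.cons 0 3 SL.nil))) WtL.nil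
  (FamL.cons 1 17 10 1195 703 58 0 (SL.cons 0 1 (SL.cons 0 1 (SL.cons 0 2 (SL.cons 0 2 (SL.cons 0 1 SL.nil))))) WtL.nil
  (FamL.cons 1 19 8 2843 1197 52 0 (SL.cons 0 2 (SL.cons 0 2 (SL.cons 0 1 (SL.cons 0 1 (SL.cons 0 1 SL.nil))))) WtL.nil
  (FamL.cons 1 19 11 309 179 30 0 (SL.cons 0 1 (SL.cons 0 1 (SL.cons 0 2 (SL.cons 0 1 (SL.cons 0 2 SL.nil))))) WtL.nil
  (FamL.cons 0 21 1 1403 67 79 0 (SL.cons 0 20 (SL.cons 0 1 SL.nil)) WtL.nil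
  (FamL.cons 0 21 8 1015 387 51 0 (SL.cons 0 2 (SL.cons 0 1 (SL.cons 0 1 (SL.cons 0 1 (SL.cons 0 1 (SL.cons 0 1 SL.nil)))))) WtL.nil
  (FamL.cons 0 21 13 2469 1529 31 0 (SL.cons 0 1 (SL.cons 0 1 (SL.cons 0 1 (SL.cons 0 1 (SL.cons 0 1 (SL.cons 0 2 SL.nil)))))) WtL.nil
  (FamL.cons 0 21 20 2081 1983 3 0 (SL.cons 0 1 (SL.cons 0 20 SL.nil)) WtL.nil
  (FamL.cons 0 23 3 1187 155 54 0 (SL.cons 0 7 (SL.cons 0 1 (SL.cons 0 1 (SL.cons 0 1 SL.nil)))) WtL.nil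
  (FamL.cons 0 23 20 2629 2287 28 0 (SL.cons 0 1 (SL.cons 0 6 (SL.cons 0 1 (SL.cons 0 2 SL.nil)))) WtL.nil
  (FamL.cons 0 27 5 3169 587 49 0 (SL.cons 0 5 (SL.cons 0 2 (SL.cons 0 1 (SL.cons 0 1 SL.nil)))) WtL.nil
  (FamL.cons 0 27 22 1311 1069 33 0 (SL.cons 0 1 (SL.cons 0 4 (SL.cons 0 2 (SL.cons 0 2 SL.nil)))) WtL.nil
  FamL.nil)))))))))))))))))))))))))))))

theorem LQ83_1_sv : LQ83_1.all (gSvO 83 (sieA1 83 4 0 10 36 3 3 10 9 3 15) (sieA1 83 4 0 10 36 3 3 10 9 3 15)) = true := by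
  decide +kernel

theorem LQ83_1_nm : LQ83_1.all (gNmO 83 37 37) = true := by decide +kernel

theorem LQ83_1_cov : covO 83 LQ83_1 2 26 = true := by decide +kernel

/-- the families with 28 ≤ y < 42 -/
def LQ83_2 : FamL := (FamL.cons 0 28 1 2069 74 80 0 (SL.cons 0 27 (SL.cons 0 1 SL.nil)) WtL.nil
  (FamL.cons 0 28 13 835 388 44 0 (SL.cons 0 2 (SL.cons 0 6 (SL.cons 0 1 (SL.cons 0 1 SL.nil)))) WtL.nil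
  (FamL.cons 0 28 15 1487 797 38 0 (SL.cons 0 1 (SL.cons 0 1 (SL.cons 0 6 (SL.cons 0 2 SL.nil)))) WtL.nil
  (FamL.cons 0 28 27 253 245 2 1 (SL.cons 0 1 (SL.cons 0 27 SL.nil)) (WtL.cons 1 3 0 WtL.nil)
  (FamL.cons 0 29 2 4479 309 40 0 (SL.cons 0 14 (SL.cons 0 2 SL.nil)) WtL.nil
  (FamL.cons 0 29 27 333 311 42 1 (SL.cons 0 1 (SL.cons 0 13 (SL.cons 0 1 (SL.cons 0 1 SL.nil)))) (WtL.cons 3 7 5 WtL.nil)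
  (FamL.cons 1 29 5 4101 707 17 0 (SL.cons 0 5 (SL.cons 0 1 (SL.cons 0 4 SL.nil))) WtL.nil
  (FamL.cons 1 29 24 711 589 65 0 (SL.cons 0 1 (SL.cons 0 4 (SL.cons 0 1 (SL.cons 0 3 (SL.cons 0 1 SL.nil))))) WtL.nil
  (FamL.cons 0 31 14 5121 2313 29 0 (SL.cons 0 2 (SL.cons 0 4 (SL.cons 0 1 (SL.cons 0 2 SL.nil)))) WtL.nil
  (FamL.cons 0 31 17 23 13 53 1 (SL.cons 0 1 (SL.cons 0 1 (SL.cons 0 4 (SL.cons 0 1 (SL.cons 0 1 (SL.cons 0 1 SL.nil)))))) (WtL.cons 0 0 0 WtL.nil)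
  (FamL.cons 0 33 4 123 15 20 1 (SL.cons 0 8 (SL.cons 0 4 SL.nil)) (WtL.cons 3 3 0 WtL.nil)
  (FamL.cons 0 33 7 485 103 35 0 (SL.cons 0 4 (SL.cons 0 1 (SL.cons 0 2 (SL.cons 0 2 SL.nil)))) WtL.nil
  (FamL.cons 0 33 26 4991 3933 47 0 (SL.cons 0 1 (SL.cons 0 3 (SL.cons 0 1 (SL.cons 0 2 (SL.cons 0 1 (SL.cons 0 1 SL.nil)))))) WtL.nil
  (FamL.cons 0 33 29 5353 4705 62 0 (SL.cons 0 1 (SL.cons 0 7 (SL.cons 0 3 (SL.cons 0 1 SL.nil)))) WtL.nil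
  (FamL.cons 1 34 7 107 22 12 1 (SL.cons 0 4 (SL.cons 0 1 (SL.cons 0 6 SL.nil))) (WtL.cons 3 2 0 WtL.nil)
  (FamL.cons 1 34 27 2713 2155 70 0 (SL.cons 0 1 (SL.cons 0 3 (SL.cons 0 1 (SL.cons 0 5 (SL.cons 0 1 SL.nil))))) WtL.nil
  (FamL.cons 0 36 5 2937 408 16 0 (SL.cons 0 7 (SL.cons 0 5 SL.nil)) WtL.nil
  (FamL.cons 0 36 13 797 288 25 0 (SL.cons 0 2 (SL.cons 0 1 (SL.cons 0 3 (SL.cons 0 3 SL.nil)))) WtL.nil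
  (FamL.cons 0 36 23 2189 1399 57 0 (SL.cons 0 1 (SL.cons 0 1 (SL.cons 0 1 (SL.cons 0 3 (SL.cons 0 2 (SL.cons 0 1 SL.nil)))))) WtL.nil
  (FamL.cons 0 36 31 49 43 66 1 (SL.cons 0 1 (SL.cons 0 6 (SL.cons 0 4 (SL.cons 0 1 SL.nil)))) (WtL.cons 0 0 0 WtL.nil)
  (FamL.cons 0 37 18 4573 2225 4 0 (SL.cons 0 2 (SL.cons 0 18 SL.nil)) WtL.nil
  (FamL.cons 0 37 19 1567 805 78 0 (SL.cons 0 1 (SL.cons 0 1 (SL.cons 0 17 (SL.cons 0 1 SL.nil)))) WtL.nil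
  (FamL.cons 1 37 3 5341 433 56 0 (SL.cons 0 12 (SL.cons 0 2 (SL.cons 0 1 SL.nil))) WtL.nil
  (FamL.cons 1 37 34 799 735 26 0 (SL.cons 0 1 (SL.cons 0 11 (SL.cons 0 3 SL.nil))) WtL.nil
  (FamL.cons 1 38 11 943 273 15 0 (SL.cons 0 3 (SL.cons 0 2 (SL.cons 0 5 SL.nil))) WtL.nil
  (FamL.cons 1 38 27 2209 1570 67 0 (SL.cons 0 1 (SL.cons 0 2 (SL.cons 0 2 (SL.cons 0 4 (SL.cons 0 1 SL.nil))))) WtL.nil
  (FamL.cons 0 41 9 3439 755 18 0 (SL.cons 0 4 (SL.cons 0 1 (SL.cons 0 1 (SL.cons 0 4 SL.nil)))) WtL.nil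
  (FamL.cons 0 41 32 3365 2627 64 0 (SL.cons 0 1 (SL.cons 0 3 (SL.cons 0 1 (SL.cons 0 1 (SL.cons 0 3 (SL.cons 0 1 SL.nil)))))) WtL.nil
  (FamL.cons 1 41 1 3241 79 2 0 (SL.cons 0 41 SL.nil) WtL.nil
  (FamL.cons 1 41 40 3563 3477 80 0 (SL.cons 0 1 (SL.cons 0 39 (SL.cons 0 1 SL.nil))) WtL.nil
  FamL.nil))))))))))))))))))))))))))))))

theorem LQ83_2_sv : LQ83_2.all (gSvO 83 (sieA1 83 4 0 10 36 3 3 10 9 3 15) (sieA1 83 4 0 10 36 3 3 10 9 3 15)) = true := by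
  decide +kernel

theorem LQ83_2_nm : LQ83_2.all (gNmO 83 37 37) = true := by decide +kernel

theorem LQ83_2_cov : covO 83 LQ83_2 28 14 = true := by decide +kernel

/-- the families with 42 ≤ y < 68 -/
def LQ83_3 : FamL := (FamL.cons 1 43 13 453 137 19 0 (SL.cons 0 3 (SL.cons 0 3 (SL.cons 0 4 SL.nil))) WtL.nil
  (FamL.cons 1 43 30 6683 4663 63 0 (SL.cons 0 1 (SL.cons 0 2 (SL.cons 0 3 (SL.cons 0 3 (SL.cons 0 1 SL.nil))))) WtL.nil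
  (FamL.cons 0 44 7 3331 530 47 0 (SL.cons 0 6 (SL.cons 0 3 (SL.cons 0 1 (SL.cons 0 1 SL.nil)))) WtL.nil
  (FamL.cons 0 44 15 3059 1043 77 0 (SL.cons 0 2 (SL.cons 0 1 (SL.cons 0 13 (SL.cons 0 1 SL.nil)))) WtL.nil
  (FamL.cons 0 44 29 591 390 5 0 (SL.cons 0 1 (SL.cons 0 1 (SL.cons 0 1 (SL.cons 0 14 SL.nil)))) WtL.nil
  (FamL.cons 0 44 37 319 269 35 0 (SL.cons 0 1 (SL.cons 0 5 (SL.cons 0 3 (SL.cons 0 2 SL.nil)))) WtL.nil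
  (FamL.cons 1 47 6 6917 883 14 0 (SL.cons 0 7 (SL.cons 0 1 (SL.cons 0 5 SL.nil))) WtL.nil
  (FamL.cons 1 47 41 883 771 68 0 (SL.cons 0 1 (SL.cons 0 6 (SL.cons 0 1 (SL.cons 0 4 (SL.cons 0 1 SL.nil))))) WtL.nil
  (FamL.cons 0 49 8 1929 315 10 0 (SL.cons 0 6 (SL.cons 0 8 SL.nil)) WtL.nil
  (FamL.cons 0 49 41 6203 5191 72 0 (SL.cons 0 1 (SL.cons 0 5 (SL.cons 0 7 (SL.cons 0 1 SL.nil)))) WtL.nil
  (FamL.cons 0 51 11 6013 1297 60 0 (SL.cons 0 4 (SL.cons 0 1 (SL.cons 0 1 (SL.cons 0 1 (SL.cons 0 2 (SL.cons 0 1 SL.nil)))))) WtL.nil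
  (FamL.cons 0 51 23 7155 3227 50 0 (SL.cons 0 2 (SL.cons 0 4 (SL.cons 0 1 (SL.cons 0 1 (SL.cons 0 1 (SL.cons 0 1 SL.nil)))))) WtL.nil
  (FamL.cons 0 51 28 1309 719 32 0 (SL.cons 0 1 (SL.cons 0 1 (SL.cons 0 4 (SL.cons 0 1 (SL.cons 0 1 (SL.cons 0 2 SL.nil)))))) WtL.nil
  (FamL.cons 0 51 40 2451 1923 22 0 (SL.cons 0 1 (SL.cons 0 3 (SL.cons 0 1 (SL.cons 0 1 (SL.cons 0 1 (SL.cons 0 3 SL.nil)))))) WtL.nil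
  (FamL.cons 1 58 5 847 73 50 0 (SL.cons 0 11 (SL.cons 0 1 (SL.cons 0 1 (SL.cons 0 1 (SL.cons 0 1 SL.nil))))) WtL.nil
  (FamL.cons 1 58 53 3965 3624 32 0 (SL.cons 0 1 (SL.cons 0 10 (SL.cons 0 1 (SL.cons 0 1 (SL.cons 0 2 SL.nil))))) WtL.nil
  (FamL.cons 0 59 25 9305 3943 46 0 (SL.cons 0 2 (SL.cons 0 2 (SL.cons 0 1 (SL.cons 0 3 (SL.cons 0 1 (SL.cons 0 1 SL.nil)))))) WtL.nil
  (FamL.cons 0 59 34 487 281 36 0 (SL.cons 0 1 (SL.cons 0 1 (SL.cons 0 2 (SL.cons 0 1 (SL.cons 0 3 (SL.cons 0 2 SL.nil)))))) WtL.nil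
  (FamL.cons 0 61 10 9229 1513 8 0 (SL.cons 0 6 (SL.cons 0 10 SL.nil)) WtL.nil
  (FamL.cons 0 61 51 895 749 74 0 (SL.cons 0 1 (SL.cons 0 5 (SL.cons 0 9 (SL.cons 0 1 SL.nil)))) WtL.nil
  (FamL.cons 1 61 12 9033 1777 76 0 (SL.cons 0 5 (SL.cons 0 11 (SL.cons 0 1 SL.nil))) WtL.nil
  (FamL.cons 1 61 49 1091 877 6 0 (SL.cons 0 1 (SL.cons 0 4 (SL.cons 0 12 SL.nil))) WtL.nil
  (FamL.cons 0 63 13 5471 1129 38 0 (SL.cons 0 4 (SL.cons 0 1 (SL.cons 0 5 (SL.cons 0 2 SL.nil)))) WtL.nil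
  (FamL.cons 0 63 22 1629 569 26 0 (SL.cons 0 2 (SL.cons 0 1 (SL.cons 0 6 (SL.cons 0 3 SL.nil)))) WtL.nil
  (FamL.cons 0 63 41 8827 5745 56 0 (SL.cons 0 1 (SL.cons 0 1 (SL.cons 0 1 (SL.cons 0 6 (SL.cons 0 2 (SL.cons 0 1 SL.nil)))))) WtL.nil
  (FamL.cons 0 63 50 4985 3957 44 0 (SL.cons 0 1 (SL.cons 0 3 (SL.cons 0 1 (SL.cons 0 5 (SL.cons 0 1 (SL.cons 0 1 SL.nil)))))) WtL.nil
  (FamL.cons 1 67 4 955 57 21 0 (SL.cons 0 16 (SL.cons 0 1 (SL.cons 0 3 SL.nil))) WtL.nil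
  (FamL.cons 1 67 63 10165 9559 61 0 (SL.cons 0 1 (SL.cons 0 15 (SL.cons 0 1 (SL.cons 0 2 (SL.cons 0 1 SL.nil))))) WtL.nil
  FamL.nil))))))))))))))))))))))))))))

theorem LQ83_3_sv : LQ83_3.all (gSvO 83 (sieA1 83 4 0 10 36 3 3 10 9 3 15) (sieA1 83 4 0 10 36 3 3 10 9 3 15)) = true := by
  decide +kernel

theorem LQ83_3_nm : LQ83_3.all (gNmO 83 37 37) = true := by decide +kernel

theorem LQ83_3_cov : covO 83 LQ83_3 42 26 = true := by decide +kernel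

/-- the families with 68 ≤ y < 85 -/
def LQ83_4 : FamL := (FamL.cons 0 68 11 1335 216 45 0 (SL.cons 0 6 (SL.cons 0 5 (SL.cons 0 1 (SL.cons 0 1 SL.nil)))) WtL.nil
  (FamL.cons 0 68 23 2897 980 79 0 (SL.cons 0 2 (SL.cons 0 1 (SL.cons 0 21 (SL.cons 0 1 SL.nil)))) WtL.nil
  (FamL.cons 0 68 45 2745 1817 3 0 (SL.cons 0 1 (SL.cons 0 1 (SL.cons 0 1 (SL.cons 0 22 SL.nil)))) WtL.nil
  (FamL.cons 0 68 57 4307 3611 37 0 (SL.cons 0 1 (SL.cons 0 5 (SL.cons 0 5 (SL.cons 0 2 SL.nil)))) WtL.nil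
  (FamL.cons 0 69 20 2149 623 37 0 (SL.cons 0 3 (SL.cons 0 2 (SL.cons 0 4 (SL.cons 0 2 SL.nil)))) WtL.nil
  (FamL.cons 0 69 26 395 149 73 0 (SL.cons 0 2 (SL.cons 0 1 (SL.cons 0 1 (SL.cons 0 1 (SL.cons 0 7 (SL.cons 0 1 SL.nil)))))) WtL.nil
  (FamL.cons 0 69 43 11057 6891 9 0 (SL.cons 0 1 (SL.cons 0 1 (SL.cons 0 1 (SL.cons 0 1 (SL.cons 0 1 (SL.cons 0 8 SL.nil)))))) WtL.nil
  (FamL.cons 0 69 49 9303 6607 45 0 (SL.cons 0 1 (SL.cons 0 2 (SL.cons 0 2 (SL.cons 0 4 (SL.cons 0 1 (SL.cons 0 1 SL.nil)))))) WtL.nil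
  (FamL.cons 1 71 15 459 97 22 0 (SL.cons 0 4 (SL.cons 0 1 (SL.cons 0 2 (SL.cons 0 1 (SL.cons 0 3 SL.nil))))) WtL.nil
  (FamL.cons 1 71 56 11325 8933 60 0 (SL.cons 0 1 (SL.cons 0 3 (SL.cons 0 1 (SL.cons 0 2 (SL.cons 0 1 (SL.cons 0 2 (SL.cons 0 1 SL.nil))))))) WtL.nil
  (FamL.cons 1 74 3 1135 46 28 0 (SL.cons 0 24 (SL.cons 0 1 (SL.cons 0 2 SL.nil))) WtL.nil
  (FamL.cons 1 74 71 5005 4803 54 0 (SL.cons 0 1 (SL.cons 0 23 (SL.cons 0 1 (SL.cons 0 1 (SL.cons 0 1 SL.nil))))) WtL.nil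
  (FamL.cons 0 77 15 11791 2297 44 0 (SL.cons 0 5 (SL.cons 0 7 (SL.cons 0 1 (SL.cons 0 1 SL.nil)))) WtL.nil
  (FamL.cons 0 77 29 11685 4401 74 0 (SL.cons 0 2 (SL.cons 0 1 (SL.cons 0 1 (SL.cons 0 1 (SL.cons 0 8 (SL.cons 0 1 SL.nil)))))) WtL.nil
  (FamL.cons 0 77 48 1095 683 8 0 (SL.cons 0 1 (SL.cons 0 1 (SL.cons 0 1 (SL.cons 0 1 (SL.cons 0 1 (SL.cons 0 9 SL.nil)))))) WtL.nil
  (FamL.cons 0 77 62 989 797 38 0 (SL.cons 0 1 (SL.cons 0 4 (SL.cons 0 7 (SL.cons 0 2 SL.nil)))) WtL.nil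
  (FamL.cons 1 79 2 12285 311 42 0 (SL.cons 0 39 (SL.cons 0 1 (SL.cons 0 1 SL.nil))) WtL.nil
  (FamL.cons 1 79 77 827 807 40 1 (SL.cons 0 1 (SL.cons 0 38 (SL.cons 0 2 SL.nil))) (WtL.cons 3 3 0 WtL.nil)
  (FamL.cons 0 81 22 12389 3365 11 0 (SL.cons 0 3 (SL.cons 0 1 (SL.cons 0 2 (SL.cons 0 7 SL.nil)))) WtL.nil
  (FamL.cons 0 81 59 1055 769 71 0 (SL.cons 0 1 (SL.cons 0 2 (SL.cons 0 1 (SL.cons 0 2 (SL.cons 0 6 (SL.cons 0 1 SL.nil)))))) WtL.nil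
  (FamL.cons 1 82 1 6725 82 1 0 (SL.cons 0 82 SL.nil) WtL.nil
  (FamL.cons 1 82 81 79 79 81 1 (SL.cons 0 1 (SL.cons 0 80 (SL.cons 0 1 SL.nil))) (WtL.cons 2 1 83 WtL.nil)
  (FamL.cons 0 84 1 6887 82 82 0 (SL.cons 0 83 (SL.cons 0 1 SL.nil)) WtL.nil
  (FamL.cons 0 84 13 1053 163 70 0 (SL.cons 0 6 (SL.cons 0 2 (SL.cons 0 5 (SL.cons 0 1 SL.nil)))) WtL.nil
  (FamL.cons 0 84 29 689 238 54 0 (SL.cons 0 2 (SL.cons 0 1 (SL.cons 0 8 (SL.cons 0 1 (SL.cons 0 1 (SL.cons 0 1 SL.nil)))))) WtL.nil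
  (FamL.cons 0 84 41 1827 892 42 0 (SL.cons 0 2 (SL.cons 0 20 (SL.cons 0 1 (SL.cons 0 1 SL.nil)))) WtL.nil
  (FamL.cons 0 84 43 5143 2633 40 0 (SL.cons 0 1 (SL.cons 0 1 (SL.cons 0 20 (SL.cons 0 2 SL.nil)))) WtL.nil
  (FamL.cons 0 84 55 6281 4113 28 0 (SL.cons 0 1 (SL.cons 0 1 (SL.cons 0 1 (SL.cons 0 8 (SL.cons 0 1 (SL.cons 0 2 SL.nil)))))) WtL.nil
  (FamL.cons 0 84 71 5917 5002 12 0 (SL.cons 0 1 (SL.cons 0 5 (SL.cons 0 2 (SL.cons 0 6 SL.nil)))) WtL.nil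
  (FamL.cons 0 84 83 83 83 0 1 (SL.cons 0 1 (SL.cons 0 83 SL.nil)) (WtL.cons 2 1 83 WtL.nil)
  FamL.nil))))))))))))))))))))))))))))))

theorem LQ83_4_sv : LQ83_4.all (gSvO 83 (sieA1 83 4 0 10 36 3 3 10 9 3 15) (sieA1 83 4 0 10 36 3 3 10 9 3 15)) = true := by
  decide +kernel

theorem LQ83_4_nm : LQ83_4.all (gNmO 83 37 37) = true := by decide +kernel

theorem LQ83_4_cov : covO 83 LQ83_4 68 17 = true := by decide +kernel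

/-- the families with 85 ≤ y < 101 -/
def LQ83_5 : FamL := (FamL.cons 1 86 13 2011 304 51 0 (SL.cons 0 6 (SL.cons 0 1 (SL.cons 0 1 (SL.cons 0 1 (SL.cons 0 1 (SL.cons 0 1 (SL.cons 0 1 SL.nil))))))) WtL.nil
  (FamL.cons 1 86 73 5125 4351 31 0 (SL.cons 0 1 (SL.cons 0 5 (SL.cons 0 1 (SL.cons 0 1 (SL.cons 0 1 (SL.cons 0 1 (SL.cons 0 2 SL.nil))))))) WtL.nil
  (FamL.cons 0 87 2 6307 145 41 0 (SL.cons 0 43 (SL.cons 0 2 SL.nil)) WtL.nil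
  (FamL.cons 0 87 31 7911 2819 13 0 (SL.cons 0 2 (SL.cons 0 1 (SL.cons 0 4 (SL.cons 0 6 SL.nil)))) WtL.nil
  (FamL.cons 0 87 56 6529 4203 69 0 (SL.cons 0 1 (SL.cons 0 1 (SL.cons 0 1 (SL.cons 0 4 (SL.cons 0 5 (SL.cons 0 1 SL.nil)))))) WtL.nil
  (FamL.cons 0 87 85 8133 7947 41 0 (SL.cons 0 1 (SL.cons 0 42 (SL.cons 0 1 (SL.cons 0 1 SL.nil)))) WtL.nil
  (FamL.cons 0 92 3 6501 212 55 0 (SL.cons 0 30 (SL.cons 0 1 (SL.cons 0 1 (SL.cons 0 1 SL.nil)))) WtL.nil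
  (FamL.cons 0 92 43 6861 3207 69 0 (SL.cons 0 2 (SL.cons 0 7 (SL.cons 0 5 (SL.cons 0 1 SL.nil)))) WtL.nil
  (FamL.cons 0 92 49 773 412 13 0 (SL.cons 0 1 (SL.cons 0 1 (SL.cons 0 7 (SL.cons 0 6 SL.nil)))) WtL.nil
  (FamL.cons 0 92 89 1133 1097 27 1 (SL.cons 0 1 (SL.cons 0 29 (SL.cons 0 1 (SL.cons 0 2 SL.nil)))) (WtL.cons 3 3 2 WtL.nil)
  (FamL.cons 0 93 14 1707 257 65 0 (SL.cons 0 6 (SL.cons 0 1 (SL.cons 0 1 (SL.cons 0 1 (SL.cons 0 3 (SL.cons 0 1 SL.nil)))))) WtL.nil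
  (FamL.cons 0 93 17 1723 315 73 0 (SL.cons 0 5 (SL.cons 0 2 (SL.cons 0 7 (SL.cons 0 1 SL.nil)))) WtL.nil
  (FamL.cons 0 93 76 13713 11207 9 0 (SL.cons 0 1 (SL.cons 0 4 (SL.cons 0 2 (SL.cons 0 8 SL.nil)))) WtL.nil
  (FamL.cons 0 93 79 13729 11663 17 0 (SL.cons 0 1 (SL.cons 0 5 (SL.cons 0 1 (SL.cons 0 1 (SL.cons 0 1 (SL.cons 0 4 SL.nil)))))) WtL.nil
  (FamL.cons 1 94 41 6293 2745 34 0 (SL.cons 0 2 (SL.cons 0 3 (SL.cons 0 2 (SL.cons 0 2 (SL.cons 0 2 SL.nil))))) WtL.nil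
  (FamL.cons 1 94 53 1507 850 48 0 (SL.cons 0 1 (SL.cons 0 1 (SL.cons 0 3 (SL.cons 0 2 (SL.cons 0 2 (SL.cons 0 1 (SL.cons 0 1 SL.nil))))))) WtL.nil
  (FamL.cons 0 99 4 5519 223 62 0 (SL.cons 0 24 (SL.cons 0 1 (SL.cons 0 2 (SL.cons 0 1 SL.nil)))) WtL.nil
  (FamL.cons 0 99 40 1987 803 39 0 (SL.cons 0 2 (SL.cons 0 2 (SL.cons 0 9 (SL.cons 0 2 SL.nil)))) WtL.nil
  (FamL.cons 0 99 59 14445 8609 43 0 (SL.cons 0 1 (SL.cons 0 1 (SL.cons 0 2 (SL.cons 0 9 (SL.cons 0 1 (SL.cons 0 1 SL.nil)))))) WtL.nil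
  (FamL.cons 0 99 95 10913 10473 20 0 (SL.cons 0 1 (SL.cons 0 23 (SL.cons 0 1 (SL.cons 0 3 SL.nil)))) WtL.nil
  FamL.nil))))))))))))))))))))

theorem LQ83_5_sv : LQ83_5.all (gSvO 83 (sieA1 83 4 0 10 36 3 3 10 9 3 15) (sieA1 83 4 0 10 36 3 3 10 9 3 15)) = true := by
  decide +kernel

theorem LQ83_5_nm : LQ83_5.all (gNmO 83 37 37) = true := by decide +kernel

theorem LQ83_5_cov : covO 83 LQ83_5 85 16 = true := by decide +kernel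

theorem one83 {d : ℕ} (F : FDO d 83 1) (hS : SolO d 83 1) : H419R2.tb LO d = true :=
  one_soundO (Tm := 0) (Tp := 0) (wm := WtL.nil) (wp := WtL.nil)
    (by norm_num) (by norm_num) sb83_1 sb83_1 (by decide +kernel) (by decide +kernel)
    (by decide +kernel) (by decide +kernel) (by decide +kernel) F hS

theorem all83 {d y : ℕ} (F : FDO d 83 y) (hS : SolO d 83 y) (h0 : 0 < y) (h60 : y ≤ 100) :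
    H419R2.tb LO d = true := by
  have hP : Nat.Prime 83 := by norm_num
  by_cases h1 : y = 1
  · subst h1
    exact one83 F hS
  by_cases h1' : y < 28
  · exact chunk_soundO hP (by norm_num) sb83_1 sb83_1 LQ83_1_sv LQ83_1_nm LQ83_1_cov F hS (by omega) (by omega) (by omega)
  by_cases h2' : y < 42
  · exact chunk_soundO hP (by norm_num) sb83_1 sb83_1 LQ83_2_sv LQ83_2_nm LQ83_2_cov F hS (by omega) (by omega) (by omega)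
  by_cases h3' : y < 68
  · exact chunk_soundO hP (by norm_num) sb83_1 sb83_1 LQ83_3_sv LQ83_3_nm LQ83_3_cov F hS (by omega) (by omega) (by omega)
  by_cases h4' : y < 85
  · exact chunk_soundO hP (by norm_num) sb83_1 sb83_1 LQ83_4_sv LQ83_4_nm LQ83_4_cov F hS (by omega) (by omega) (by omega)
  exact chunk_soundO hP (by norm_num) sb83_1 sb83_1 LQ83_5_sv LQ83_5_nm LQ83_5_cov F hS (by omega) (by omega) (by omega)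

end Pool.Agent.H449
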