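import Pool.Agent.H449.Q3
import Pool.Agent.H449.Q7
import Pool.Agent.H449.Q11
import Pool.Agent.H449.Q19
import Pool.Agent.H449.Q23
import Pool.Agent.H449.Q31
import Pool.Agent.H449.Q43
import Pool.Agent.H449.Q47
import Pool.Agent.H449.Q59
import Pool.Agent.H449.Q67
import Pool.Agent.H449.Q71
import Pool.Agent.H449.Q79
import Pool.Agent.H449.Q83

/-! Odd discriminants with a small ramified prime: the final list. -/

set_option maxRecDepth 100000

namespace Pool.Agent.H449

open H419R2 Module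

theorem not_lstN {d : ℕ} (good : ∀ H : Half, (d : ℤ) = H.b 0 ^ 2 + 4 * H.q 1 → OGood H d)
    (h : d ∈ lstN) : False := by
  simp only [lstN, List.mem_cons, List.not_mem_nil, or_false] at h
  rcases h with rfl | rfl | rfl | rfl | rfl | rfl | rfl | rfl | rfl | rfl | rfl | rfl | rfl
  · exact dir_sound (P := 15) (b := 15) (R := 15) (dl := 0) (x := 3) (z := 0)
      (sh := SL.nil) (by norm_num) good (by decide +kernel)
  · exact dir_sound (P := 15) (b := 21) (R := 6) (dl := 3) (x := 2) (z := 0)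
      (sh := (SL.cons 0 3 (SL.cons 0 1 (SL.cons 0 1 (SL.cons 0 4 SL.nil))))) (by norm_num) good (by decide +kernel)
  · exact dir_sound (P := 7) (b := 21) (R := 7) (dl := 0) (x := 3) (z := 1)
      (sh := SL.nil) (by norm_num) good (by decide +kernel)
  · exact dir_sound (P := 11) (b := 21) (R := 8) (dl := 5) (x := 2) (z := 0)
      (sh := (SL.cons 0 2 SL.nil)) (by norm_num) good (by decide +kernel)
  · exact dir_sound (P := 19) (b := 27) (R := 22) (dl := 4) (x := 2) (z := 0)
      (sh := (SL.cons 0 1 (SL.cons 0 3 SL.nil))) (by norm_num) good (by decide +kernel)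
  · exact dir_sound (P := 15) (b := 29) (R := 11) (dl := 7) (x := 3) (z := 2)
      (sh := (SL.cons 0 2 SL.nil)) (by norm_num) good (by decide +kernel)
  · exact dir_sound (P := 39) (b := 39) (R := 39) (dl := 0) (x := 3) (z := 0)
      (sh := SL.nil) (by norm_num) good (by decide +kernel)
  · exact dir_sound (P := 43) (b := 43) (R := 43) (dl := 0) (x := 5) (z := 3)
      (sh := SL.nil) (by norm_num) good (by decide +kernel)
  · exact dir_sound (P := 35) (b := 49) (R := 21) (dl := 7) (x := 3) (z := 0)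
      (sh := (SL.cons 0 2 (SL.cons 0 2 (SL.cons 0 1 (SL.cons 0 4 SL.nil))))) (by norm_num) good (by decide +kernel)
  · exact dir_sound (P := 35) (b := 51) (R := 41) (dl := 8) (x := 5) (z := 2)
      (sh := (SL.cons 0 1 (SL.cons 0 3 SL.nil))) (by norm_num) good (by decide +kernel)
  · exact dir_sound (P := 55) (b := 55) (R := 55) (dl := 0) (x := 5) (z := 0)
      (sh := SL.nil) (by norm_num) good (by decide +kernel)
  · exact dir_sound (P := 67) (b := 67) (R := 67) (dl := 0) (x := 7) (z := 4)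
      (sh := SL.nil) (by norm_num) good (by decide +kernel)
  · exact dir_sound (P := 79) (b := 79) (R := 79) (dl := 0) (x := 11) (z := 4)
      (sh := SL.nil) (by norm_num) good (by decide +kernel)

/-- unique factorisation, odd discriminant with a small ramified prime, and a small unit -/
theorem small_ramified {d p : ℕ} (hsf : Squarefree (d : ℤ)) (hd4 : d % 4 = 1) (hp : p.Prime)
    (hp4 : p % 4 = 3) (hp100 : p < 100) (hpd : p ∣ d)
    {K : Type*} [Field K] [NumberField K] (hK : Module.finrank ℚ K = 2) {x : K}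
    (hx : x ^ 2 = ((d : ℤ) : K)) (hcl : NumberField.classNumber K = 1) {u v : ℕ}
    (hv : 0 < v) (hpl : u * u = d * (v * v) + 4) (hu : p * u ≤ 10000 * d) : d ∈ lstO := by
  have hd1 : 1 < d := by
    have h0 : d ≠ 0 := by rintro rfl; omega
    have h1 := Nat.le_of_dvd (Nat.pos_of_ne_zero h0) hpd
    have := hp.one_lt
    omega
  have hgood : ∀ H : Half, (d : ℤ) = H.b 0 ^ 2 + 4 * H.q 1 → OGood H d :=
    fun H hH => good_odd H hH hsf hd1 hd4 hK hx hcl
  have hmain : tb LO d = true := by
    classical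
    have hex := exists_solO hp (by omega) hsf hd4 hd1 hpd hK hx hcl
    set y := Nat.find hex with hy
    obtain ⟨hy0, hS⟩ := Nat.find_spec hex
    rw [← hy] at hy0 hS
    have hmin : ∀ y', 0 < y' → y' < y → ¬ SolO d p y' := fun y' h1 h2 h3 => Nat.find_min hex h2 ⟨h1, h3⟩
    have F : FDO d p y :=
      { sf := hsf
        d4 := hd4
        dP := hpd
        good := hgood
        min := fun y' z h1 h2 => ⟨fun h => hmin y' h1 h2 ⟨z, Or.inl h⟩, fun h => hmin y' h1 h2 ⟨z, Or.inr h⟩⟩ }
    obtain ⟨X, hX⟩ := hS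
    have h1 := pell_ineqO hp hd1 (by omega) hpl hv hy0 hX hmin
    have hpd2 := Nat.le_of_dvd (by omega) hpd
    have hy1 : y ≤ 100 := by
      by_contra hc
      have hc : 101 ≤ y := by omega
      have h2 : 101 * 101 ≤ y * y := Nat.mul_le_mul hc hc
      have h3 : d * (101 * 101) ≤ d * (y * y) := Nat.mul_le_mul_left d h2
      have h4 : p * (u + 2) = p * u + 2 * p := by ring
      omega
    have hlist : p ∈ ([3, 7, 11, 19, 23, 31, 43, 47, 59, 67, 71, 79, 83] : List ℕ) := by
      have h5 : ∀ n < 100, n % 4 = 3 → n.Prime → n ∈ ([3, 7, 11, 19, 23, 31, 43, 47, 59, 67, 71, 79, 83] : List ℕ) := by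
        decide +kernel
      exact h5 p hp100 hp4 hp
    simp only [List.mem_cons, List.not_mem_nil, or_false] at hlist
    rcases hlist with rfl | rfl | rfl | rfl | rfl | rfl | rfl | rfl | rfl | rfl | rfl | rfl | rfl
    · exact all3 F ⟨X, hX⟩ hy0 hy1
    · exact all7 F ⟨X, hX⟩ hy0 hy1
    · exact all11 F ⟨X, hX⟩ hy0 hy1
    · exact all19 F ⟨X, hX⟩ hy0 hy1
    · exact all23 F ⟨X, hX⟩ hy0 hy1
    · exact all31 F ⟨X, hX⟩ hy0 hy1
    · exact all43 F ⟨X, hX⟩ hy0 hy1
    · exact all47 F ⟨X, hX⟩ hy0 hy1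
    · exact all59 F ⟨X, hX⟩ hy0 hy1
    · exact all67 F ⟨X, hX⟩ hy0 hy1
    · exact all71 F ⟨X, hX⟩ hy0 hy1
    · exact all79 F ⟨X, hX⟩ hy0 hy1
    · exact all83 F ⟨X, hX⟩ hy0 hy1
  rcases LO_lst hmain with h | h
  · exact h
  · exact (not_lstN hgood h).elim

end Pool.Agent.H449
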