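import Pool.Agent.H449.O7

/-! Families for the prime 3. -/

set_option maxRecDepth 100000

namespace Pool.Agent.H449

/-- the families with 2 ≤ y < 32 -/
def LQ3_1 : FamL := (FamL.cons 1 2 1 5 2 1 12 (SL.cons 0 2 SL.nil) (WtL.cons 0 0 0 (WtL.cons 0 0 0 (WtL.cons 3 2 0 (WtL.cons 0 0 0 (WtL.cons 3 2 0 (WtL.cons 0 0 0 (WtL.cons 3 2 0 (WtL.cons 3 5 1 (WtL.cons 3 2 0 (WtL.cons 3 11 9 (WtL.cons 3 2 0 (WtL.cons 3 5 0 WtL.nil))))))))))))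
  (FamL.cons 2 4 1 7 2 2 42 (SL.cons 0 3 (SL.cons 0 1 SL.nil)) (WtL.cons 0 0 0 (WtL.cons 0 0 0 (WtL.cons 3 2 0 (WtL.cons 0 0 0 (WtL.cons 3 2 0 (WtL.cons 1 7 0 (WtL.cons 1 7 0 (WtL.cons 3 7 3 (WtL.cons 3 2 0 (WtL.cons 3 5 2 (WtL.cons 3 2 0 (WtL.cons 3 5 0 (WtL.cons 3 2 0 (WtL.cons 3 7 6 (WtL.cons 3 2 0 (WtL.cons 3 11 5 (WtL.cons 3 2 0 (WtL.cons 3 13 5 (WtL.cons 3 2 0 (WtL.cons 3 5 2 (WtL.cons 3 2 0 (WtL.cons 3 5 0 (WtL.cons 3 2 0 (WtL.cons 3 37 5 (WtL.cons 3 2 0 (WtL.cons 3 7 0 (WtL.cons 3 2 0 (WtL.cons 3 7 6 (WtL.cons 3 2 0 (WtL.cons 3 5 2 (WtL.cons 3 2 0 (WtL.cons 3 5 0 (WtL.cons 3 2 0 (WtL.cons 3 7 5 (WtL.cons 3 2 0 (WtL.cons 3 7 3 (WtL.cons 1 31 0 (WtL.cons 3 11 5 (WtL.cons 3 2 0 (WtL.cons 3 5 2 (WtL.cons 3 2 0 (WtL.cons 3 5 0 WtL.nil))))))))))))))))))))))))))))))))))))))))))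
  (FamL.cons 2 4 3 3 3 0 43 (SL.cons 0 1 (SL.cons 0 3 SL.nil)) (WtL.cons 2 1 3 (WtL.cons 3 2 0 (WtL.cons 0 0 0 (WtL.cons 3 2 0 (WtL.cons 0 0 0 (WtL.cons 3 2 0 (WtL.cons 3 7 4 (WtL.cons 3 2 0 (WtL.cons 3 5 0 (WtL.cons 3 2 0 (WtL.cons 3 5 3 (WtL.cons 3 2 0 (WtL.cons 3 11 2 (WtL.cons 3 2 0 (WtL.cons 3 7 2 (WtL.cons 3 2 0 (WtL.cons 3 7 0 (WtL.cons 3 2 0 (WtL.cons 3 5 0 (WtL.cons 3 2 0 (WtL.cons 3 5 3 (WtL.cons 3 2 0 (WtL.cons 3 7 3 (WtL.cons 3 2 0 (WtL.cons 1 19 0 (WtL.cons 3 2 0 (WtL.cons 3 17 11 (WtL.cons 3 2 0 (WtL.cons 3 5 0 (WtL.cons 3 2 0 (WtL.cons 3 5 3 (WtL.cons 3 2 0 (WtL.cons 3 13 6 (WtL.cons 3 2 0 (WtL.cons 3 7 4 (WtL.cons 3 2 0 (WtL.cons 3 7 3 (WtL.cons 3 2 0 (WtL.cons 3 5 0 (WtL.cons 3 2 0 (WtL.cons 1 13 0 (WtL.cons 3 2 0 (WtL.cons 1 7 0 WtL.nil)))))))))))))))))))))))))))))))))))))))))))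
  (FamL.cons 0 7 2 17 5 1 3 (SL.cons 0 3 (SL.cons 0 2 SL.nil)) (WtL.cons 0 0 0 (WtL.cons 1 13 0 (WtL.cons 3 17 4 WtL.nil)))
  (FamL.cons 0 7 5 23 17 1 3 (SL.cons 0 1 (SL.cons 0 2 (SL.cons 0 1 (SL.cons 0 1 SL.nil)))) (WtL.cons 0 0 0 (WtL.cons 0 0 0 (WtL.cons 3 7 0 WtL.nil)))
  (FamL.cons 1 11 5 37 17 2 3 (SL.cons 0 2 (SL.cons 0 4 (SL.cons 0 1 SL.nil))) (WtL.cons 0 0 0 (WtL.cons 3 17 5 (WtL.cons 3 5 2 WtL.nil)))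
  (FamL.cons 1 11 6 27 15 0 3 (SL.cons 0 1 (SL.cons 0 1 (SL.cons 0 5 SL.nil))) (WtL.cons 0 0 0 (WtL.cons 3 11 7 (WtL.cons 3 5 2 WtL.nil)))
  (FamL.cons 0 13 6 45 21 0 3 (SL.cons 0 2 (SL.cons 0 6 SL.nil)) (WtL.cons 3 5 1 (WtL.cons 3 11 4 (WtL.cons 3 29 7 WtL.nil)))
  (FamL.cons 0 13 7 31 17 2 3 (SL.cons 0 1 (SL.cons 0 1 (SL.cons 0 5 (SL.cons 0 1 SL.nil)))) (WtL.cons 1 7 0 (WtL.cons 3 7 5 (WtL.cons 3 7 3 WtL.nil)))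
  (FamL.cons 1 13 4 55 17 2 2 (SL.cons 0 3 (SL.cons 0 3 (SL.cons 0 1 SL.nil))) (WtL.cons 0 0 0 (WtL.cons 3 11 5 WtL.nil))
  (FamL.cons 1 13 9 21 15 0 2 (SL.cons 0 1 (SL.cons 0 2 (SL.cons 0 4 SL.nil))) (WtL.cons 0 0 0 (WtL.cons 3 7 2 WtL.nil))
  (FamL.cons 0 19 4 109 23 2 1 (SL.cons 0 4 (SL.cons 0 1 (SL.cons 0 2 (SL.cons 0 1 SL.nil)))) (WtL.cons 3 11 4 WtL.nil)
  (FamL.cons 0 19 15 3 3 0 2 (SL.cons 0 1 (SL.cons 0 3 (SL.cons 0 1 (SL.cons 0 3 SL.nil)))) (WtL.cons 2 1 3 (WtL.cons 3 5 1 WtL.nil))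
  (FamL.cons 1 22 5 35 8 1 2 (SL.cons 0 4 (SL.cons 0 2 (SL.cons 0 2 SL.nil))) (WtL.cons 3 2 0 (WtL.cons 3 13 5 WtL.nil))
  (FamL.cons 1 22 17 29 23 1 3 (SL.cons 0 1 (SL.cons 0 3 (SL.cons 0 2 (SL.cons 0 1 (SL.cons 0 1 SL.nil))))) (WtL.cons 0 0 0 (WtL.cons 3 2 0 (WtL.cons 3 5 0 WtL.nil)))
  (FamL.cons 1 23 7 95 29 1 1 (SL.cons 0 3 (SL.cons 0 3 (SL.cons 0 2 SL.nil))) (WtL.cons 3 5 2 WtL.nil)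
  (FamL.cons 1 23 16 41 29 1 1 (SL.cons 0 1 (SL.cons 0 2 (SL.cons 0 3 (SL.cons 0 1 (SL.cons 0 1 SL.nil))))) (WtL.cons 0 0 0 WtL.nil)
  (FamL.cons 1 26 9 69 24 0 4 (SL.cons 0 2 (SL.cons 0 1 (SL.cons 0 8 SL.nil))) (WtL.cons 3 2 0 (WtL.cons 3 7 3 (WtL.cons 3 2 0 (WtL.cons 3 5 0 WtL.nil))))
  (FamL.cons 1 26 17 7 5 2 5 (SL.cons 0 1 (SL.cons 0 1 (SL.cons 0 1 (SL.cons 0 7 (SL.cons 0 1 SL.nil))))) (WtL.cons 2 1 9 (WtL.cons 3 2 0 (WtL.cons 3 11 4 (WtL.cons 3 2 0 (WtL.cons 3 11 0 WtL.nil)))))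
  (FamL.cons 0 28 5 11 2 1 3 (SL.cons 0 5 (SL.cons 0 1 (SL.cons 0 1 (SL.cons 0 2 SL.nil)))) (WtL.cons 0 0 0 (WtL.cons 3 7 5 (WtL.cons 3 2 0 WtL.nil)))
  (FamL.cons 0 28 9 9 3 0 5 (SL.cons 0 3 (SL.cons 0 9 SL.nil)) (WtL.cons 2 1 9 (WtL.cons 3 2 0 (WtL.cons 3 7 2 (WtL.cons 3 2 0 (WtL.cons 3 5 1 WtL.nil)))))
  (FamL.cons 0 28 19 73 50 2 4 (SL.cons 0 1 (SL.cons 0 2 (SL.cons 0 8 (SL.cons 0 1 SL.nil)))) (WtL.cons 3 2 0 (WtL.cons 3 13 6 (WtL.cons 3 2 0 (WtL.cons 3 5 1 WtL.nil))))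
  (FamL.cons 0 28 23 71 59 1 2 (SL.cons 0 1 (SL.cons 0 4 (SL.cons 0 1 (SL.cons 0 1 (SL.cons 0 1 (SL.cons 0 1 SL.nil)))))) (WtL.cons 0 0 0 (WtL.cons 3 2 0 WtL.nil))
  (FamL.cons 0 31 11 149 53 1 1 (SL.cons 0 2 (SL.cons 0 1 (SL.cons 0 4 (SL.cons 0 2 SL.nil)))) (WtL.cons 3 13 3 WtL.nil)
  (FamL.cons 0 31 20 35 23 1 1 (SL.cons 0 1 (SL.cons 0 1 (SL.cons 0 1 (SL.cons 0 4 (SL.cons 0 1 (SL.cons 0 1 SL.nil)))))) (WtL.cons 0 0 0 WtL.nil)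
  FamL.nil)))))))))))))))))))))))))

theorem LQ3_1_sv : LQ3_1.all (gSvO 3 (sieB1 3 7 1 31 4 6 17 11) (sieB2 3 7 1 31 4 6 17 11 93)) = true := by
  decide +kernel

theorem LQ3_1_nm : LQ3_1.all (gNmO 3 37 127) = true := by decide +kernel

theorem LQ3_1_cov : covO 3 LQ3_1 2 30 = true := by decide +kernel

/-- the families with 32 ≤ y < 72 -/
def LQ3_2 : FamL := (FamL.cons 0 37 16 25 11 2 1 (SL.cons 0 2 (SL.cons 0 3 (SL.cons 0 4 (SL.cons 0 1 SL.nil)))) (WtL.cons 0 0 0 WtL.nil)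
  (FamL.cons 0 37 21 195 111 0 1 (SL.cons 0 1 (SL.cons 0 1 (SL.cons 0 3 (SL.cons 0 5 SL.nil)))) (WtL.cons 3 5 1 WtL.nil)
  (FamL.cons 1 37 15 81 33 0 1 (SL.cons 0 2 (SL.cons 0 2 (SL.cons 0 7 SL.nil))) (WtL.cons 3 7 1 WtL.nil)
  (FamL.cons 1 37 22 139 83 2 1 (SL.cons 0 1 (SL.cons 0 1 (SL.cons 0 2 (SL.cons 0 6 (SL.cons 0 1 SL.nil))))) (WtL.cons 3 7 3 WtL.nil)
  (FamL.cons 0 43 13 175 53 2 0 (SL.cons 0 3 (SL.cons 0 3 (SL.cons 0 3 (SL.cons 0 1 SL.nil)))) WtL.nil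
  (FamL.cons 0 43 30 81 57 0 1 (SL.cons 0 1 (SL.cons 0 2 (SL.cons 0 3 (SL.cons 0 4 SL.nil)))) (WtL.cons 3 5 1 WtL.nil)
  (FamL.cons 1 46 7 13 2 2 2 (SL.cons 0 6 (SL.cons 0 1 (SL.cons 0 1 (SL.cons 0 2 (SL.cons 0 1 SL.nil))))) (WtL.cons 0 0 0 (WtL.cons 3 13 9 WtL.nil))
  (FamL.cons 1 46 39 123 105 0 1 (SL.cons 0 1 (SL.cons 0 5 (SL.cons 0 1 (SL.cons 0 1 (SL.cons 0 3 SL.nil))))) (WtL.cons 3 5 0 WtL.nil)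
  (FamL.cons 1 47 12 129 33 0 2 (SL.cons 0 3 (SL.cons 0 1 (SL.cons 0 11 SL.nil))) (WtL.cons 3 7 5 (WtL.cons 3 5 0 WtL.nil))
  (FamL.cons 1 47 35 151 113 2 2 (SL.cons 0 1 (SL.cons 0 2 (SL.cons 0 1 (SL.cons 0 10 (SL.cons 0 1 SL.nil))))) (WtL.cons 3 19 8 (WtL.cons 3 5 3 WtL.nil))
  (FamL.cons 0 49 12 159 39 0 2 (SL.cons 0 4 (SL.cons 0 12 SL.nil)) (WtL.cons 3 11 1 (WtL.cons 1 7 0 WtL.nil))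
  (FamL.cons 0 49 37 133 101 2 2 (SL.cons 0 1 (SL.cons 0 3 (SL.cons 0 11 (SL.cons 0 1 SL.nil)))) (WtL.cons 3 13 2 (WtL.cons 3 5 1 WtL.nil))
  (FamL.cons 0 52 7 37 5 2 2 (SL.cons 0 7 (SL.cons 0 2 (SL.cons 0 2 (SL.cons 0 1 SL.nil)))) (WtL.cons 0 0 0 (WtL.cons 3 2 0 WtL.nil))
  (FamL.cons 0 52 19 79 29 2 1 (SL.cons 0 2 (SL.cons 0 1 (SL.cons 0 2 (SL.cons 0 1 (SL.cons 0 3 (SL.cons 0 1 SL.nil)))))) (WtL.cons 3 7 2 WtL.nil)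
  (FamL.cons 0 52 33 75 48 0 1 (SL.cons 0 1 (SL.cons 0 1 (SL.cons 0 1 (SL.cons 0 2 (SL.cons 0 1 (SL.cons 0 4 SL.nil)))))) (WtL.cons 3 2 0 WtL.nil)
  (FamL.cons 0 52 45 117 102 0 2 (SL.cons 0 1 (SL.cons 0 6 (SL.cons 0 2 (SL.cons 0 3 SL.nil)))) (WtL.cons 3 2 0 (WtL.cons 3 13 4 WtL.nil))
  (FamL.cons 1 59 11 91 17 2 1 (SL.cons 0 5 (SL.cons 0 2 (SL.cons 0 1 (SL.cons 0 2 (SL.cons 0 1 SL.nil))))) (WtL.cons 1 11 0 WtL.nil)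
  (FamL.cons 1 59 48 261 213 0 0 (SL.cons 0 1 (SL.cons 0 4 (SL.cons 0 2 (SL.cons 0 1 (SL.cons 0 3 SL.nil))))) WtL.nil
  (FamL.cons 2 61 27 291 129 0 2 (SL.cons 0 2 (SL.cons 0 3 (SL.cons 0 1 (SL.cons 0 6 SL.nil)))) (WtL.cons 3 7 5 (WtL.cons 3 13 2 WtL.nil))
  (FamL.cons 2 61 34 73 41 2 3 (SL.cons 0 1 (SL.cons 0 1 (SL.cons 0 3 (SL.cons 0 1 (SL.cons 0 5 (SL.cons 0 1 SL.nil)))))) (WtL.cons 0 0 0 (WtL.cons 3 5 0 (WtL.cons 3 5 2 WtL.nil)))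
  (FamL.cons 1 61 8 221 29 1 1 (SL.cons 0 7 (SL.cons 0 1 (SL.cons 0 1 (SL.cons 0 1 (SL.cons 0 2 SL.nil))))) (WtL.cons 3 13 4 WtL.nil)
  (FamL.cons 1 61 53 143 125 1 1 (SL.cons 0 1 (SL.cons 0 6 (SL.cons 0 1 (SL.cons 0 1 (SL.cons 0 1 (SL.cons 0 1 (SL.cons 0 1 SL.nil))))))) (WtL.cons 3 5 0 WtL.nil)
  (FamL.cons 0 67 8 293 35 1 1 (SL.cons 0 8 (SL.cons 0 2 (SL.cons 0 1 (SL.cons 0 2 SL.nil)))) (WtL.cons 3 5 0 WtL.nil)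
  (FamL.cons 0 67 59 107 95 1 1 (SL.cons 0 1 (SL.cons 0 7 (SL.cons 0 2 (SL.cons 0 1 (SL.cons 0 1 (SL.cons 0 1 SL.nil)))))) (WtL.cons 3 5 0 WtL.nil)
  (FamL.cons 1 71 28 347 137 1 0 (SL.cons 0 2 (SL.cons 0 1 (SL.cons 0 1 (SL.cons 0 6 (SL.cons 0 2 SL.nil))))) WtL.nil
  (FamL.cons 1 71 43 77 47 1 1 (SL.cons 0 1 (SL.cons 0 1 (SL.cons 0 1 (SL.cons 0 1 (SL.cons 0 6 (SL.cons 0 1 (SL.cons 0 1 SL.nil))))))) (WtL.cons 0 0 0 WtL.nil)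
  FamL.nil))))))))))))))))))))))))))

theorem LQ3_2_sv : LQ3_2.all (gSvO 3 (sieB1 3 7 1 31 4 6 17 11) (sieB2 3 7 1 31 4 6 17 11 93)) = true := by
  decide +kernel

theorem LQ3_2_nm : LQ3_2.all (gNmO 3 37 127) = true := by decide +kernel

theorem LQ3_2_cov : covO 3 LQ3_2 32 40 = true := by decide +kernel

/-- the families with 72 ≤ y < 101 -/
def LQ3_3 : FamL := (FamL.cons 0 73 17 47 11 1 1 (SL.cons 0 4 (SL.cons 0 3 (SL.cons 0 2 (SL.cons 0 2 SL.nil)))) (WtL.cons 0 0 0 WtL.nil)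
  (FamL.cons 0 73 56 389 299 1 0 (SL.cons 0 1 (SL.cons 0 3 (SL.cons 0 3 (SL.cons 0 2 (SL.cons 0 1 (SL.cons 0 1 SL.nil)))))) WtL.nil
  (FamL.cons 1 73 21 177 51 0 1 (SL.cons 0 3 (SL.cons 0 2 (SL.cons 0 10 SL.nil))) (WtL.cons 3 23 15 WtL.nil)
  (FamL.cons 1 73 52 259 185 2 1 (SL.cons 0 1 (SL.cons 0 2 (SL.cons 0 2 (SL.cons 0 9 (SL.cons 0 1 SL.nil))))) (WtL.cons 3 5 0 WtL.nil)
  (FamL.cons 1 74 15 207 42 0 2 (SL.cons 0 4 (SL.cons 0 1 (SL.cons 0 14 SL.nil))) (WtL.cons 3 2 0 (WtL.cons 3 5 2 WtL.nil))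
  (FamL.cons 1 74 59 13 11 2 3 (SL.cons 0 1 (SL.cons 0 3 (SL.cons 0 1 (SL.cons 0 13 (SL.cons 0 1 SL.nil))))) (WtL.cons 2 1 15 (WtL.cons 3 2 0 (WtL.cons 3 5 0 WtL.nil)))
  (FamL.cons 0 76 15 15 3 0 3 (SL.cons 0 5 (SL.cons 0 15 SL.nil)) (WtL.cons 2 1 15 (WtL.cons 1 7 0 (WtL.cons 3 13 4 WtL.nil)))
  (FamL.cons 0 76 23 155 47 1 0 (SL.cons 0 3 (SL.cons 0 3 (SL.cons 0 3 (SL.cons 0 2 SL.nil)))) WtL.nil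
  (FamL.cons 0 76 53 71 50 1 1 (SL.cons 0 1 (SL.cons 0 2 (SL.cons 0 3 (SL.cons 0 3 (SL.cons 0 1 (SL.cons 0 1 SL.nil)))))) (WtL.cons 3 2 0 WtL.nil)
  (FamL.cons 0 76 61 211 170 2 2 (SL.cons 0 1 (SL.cons 0 4 (SL.cons 0 14 (SL.cons 0 1 SL.nil)))) (WtL.cons 3 2 0 (WtL.cons 3 7 3 WtL.nil))
  (FamL.cons 0 79 32 323 131 1 0 (SL.cons 0 2 (SL.cons 0 2 (SL.cons 0 7 (SL.cons 0 2 SL.nil)))) WtL.nil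
  (FamL.cons 0 79 47 149 89 1 1 (SL.cons 0 1 (SL.cons 0 1 (SL.cons 0 2 (SL.cons 0 7 (SL.cons 0 1 (SL.cons 0 1 SL.nil)))))) (WtL.cons 3 17 7 WtL.nil)
  (FamL.cons 1 83 13 185 29 1 1 (SL.cons 0 6 (SL.cons 0 2 (SL.cons 0 1 (SL.cons 0 1 (SL.cons 0 2 SL.nil))))) (WtL.cons 3 5 2 WtL.nil)
  (FamL.cons 1 83 70 311 263 1 0 (SL.cons 0 1 (SL.cons 0 5 (SL.cons 0 2 (SL.cons 0 1 (SL.cons 0 1 (SL.cons 0 1 (SL.cons 0 1 SL.nil))))))) WtL.nil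
  (FamL.cons 0 91 19 541 113 2 0 (SL.cons 0 4 (SL.cons 0 1 (SL.cons 0 3 (SL.cons 0 1 (SL.cons 0 2 (SL.cons 0 1 SL.nil)))))) WtL.nil
  (FamL.cons 0 91 33 405 147 0 0 (SL.cons 0 2 (SL.cons 0 1 (SL.cons 0 3 (SL.cons 0 8 SL.nil)))) WtL.nil
  (FamL.cons 0 91 58 139 89 2 1 (SL.cons 0 1 (SL.cons 0 1 (SL.cons 0 1 (SL.cons 0 3 (SL.cons 0 7 (SL.cons 0 1 SL.nil)))))) (WtL.cons 3 7 4 WtL.nil)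
  (FamL.cons 0 91 72 3 3 0 1 (SL.cons 0 1 (SL.cons 0 3 (SL.cons 0 1 (SL.cons 0 3 (SL.cons 0 1 (SL.cons 0 3 SL.nil)))))) (WtL.cons 2 1 3 WtL.nil)
  (FamL.cons 1 94 35 5 2 1 1 (SL.cons 0 2 (SL.cons 0 1 (SL.cons 0 2 (SL.cons 0 5 (SL.cons 0 2 SL.nil))))) (WtL.cons 2 2 12 WtL.nil)
  (FamL.cons 1 94 59 275 173 1 0 (SL.cons 0 1 (SL.cons 0 1 (SL.cons 0 1 (SL.cons 0 2 (SL.cons 0 5 (SL.cons 0 1 (SL.cons 0 1 SL.nil))))))) WtL.nil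
  (FamL.cons 0 97 26 287 77 1 0 (SL.cons 0 3 (SL.cons 0 1 (SL.cons 0 2 (SL.cons 0 1 (SL.cons 0 2 (SL.cons 0 2 SL.nil)))))) WtL.nil
  (FamL.cons 0 97 71 293 215 1 0 (SL.cons 0 1 (SL.cons 0 2 (SL.cons 0 1 (SL.cons 0 2 (SL.cons 0 1 (SL.cons 0 2 (SL.cons 0 1 (SL.cons 0 1 SL.nil)))))))) WtL.nil
  (FamL.cons 1 97 10 223 23 2 1 (SL.cons 0 9 (SL.cons 0 1 (SL.cons 0 2 (SL.cons 0 2 (SL.cons 0 1 SL.nil))))) (WtL.cons 3 5 3 WtL.nil)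
  (FamL.cons 1 97 87 357 321 0 1 (SL.cons 0 1 (SL.cons 0 8 (SL.cons 0 1 (SL.cons 0 2 (SL.cons 0 3 SL.nil))))) (WtL.cons 3 11 3 WtL.nil)
  FamL.nil))))))))))))))))))))))))

theorem LQ3_3_sv : LQ3_3.all (gSvO 3 (sieB1 3 7 1 31 4 6 17 11) (sieB2 3 7 1 31 4 6 17 11 93)) = true := by
  decide +kernel

theorem LQ3_3_nm : LQ3_3.all (gNmO 3 37 127) = true := by decide +kernel

theorem LQ3_3_cov : covO 3 LQ3_3 72 29 = true := by decide +kernel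

theorem one3 {d : ℕ} (F : FDO d 3 1) (hS : SolO d 3 1) : H419R2.tb LO d = true :=
  one_soundO (Tm := 12) (Tp := 41) (wm := (WtL.cons 0 0 0 (WtL.cons 0 0 0 (WtL.cons 0 0 0 (WtL.cons 0 0 0 (WtL.cons 3 5 1 (WtL.cons 3 5 3 (WtL.cons 3 7 5 (WtL.cons 3 7 2 (WtL.cons 3 7 1 (WtL.cons 3 5 1 (WtL.cons 3 5 3 (WtL.cons 3 17 4 WtL.nil))))))))))))) (wp := (WtL.cons 0 0 0 (WtL.cons 0 0 0 (WtL.cons 3 5 2 (WtL.cons 0 0 0 (WtL.cons 0 0 0 (WtL.cons 3 5 0 (WtL.cons 3 7 2 (WtL.cons 3 5 2 (WtL.cons 3 11 3 (WtL.cons 3 7 3 (WtL.cons 3 5 0 (WtL.cons 3 11 5 (WtL.cons 3 5 2 (WtL.cons 3 7 2 (WtL.cons 3 17 5 (WtL.cons 3 5 0 (WtL.cons 3 7 3 (WtL.cons 3 5 2 (WtL.cons 3 11 2 (WtL.cons 3 7 0 (WtL.cons 3 5 0 (WtL.cons 3 13 5 (WtL.cons 3 5 2 (WtL.cons 3 7 3 (WtL.cons 3 11 7 (WtL.cons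 3 5 0 (WtL.cons 3 7 0 (WtL.cons 3 5 2 (WtL.cons 3 11 6 (WtL.cons 3 11 2 (WtL.cons 3 5 0 (WtL.cons 3 13 7 (WtL.cons 3 5 2 (WtL.cons 3 7 0 (WtL.cons 3 7 2 (WtL.cons 3 5 0 (WtL.cons 3 13 0 (WtL.cons 3 5 2 (WtL.cons 3 13 3 (WtL.cons 3 11 6 (WtL.cons 3 5 0 WtL.nil))))))))))))))))))))))))))))))))))))))))))
    (by norm_num) (by norm_num) sb3_1 sb3_2 (by decide +kernel) (by decide +kernel)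
    (by decide +kernel) (by decide +kernel) (by decide +kernel) F hS

theorem all3 {d y : ℕ} (F : FDO d 3 y) (hS : SolO d 3 y) (h0 : 0 < y) (h60 : y ≤ 100) :
    H419R2.tb LO d = true := by
  have hP : Nat.Prime 3 := by norm_num
  by_cases h1 : y = 1
  · subst h1
    exact one3 F hS
  by_cases h1' : y < 32
  · exact chunk_soundO hP (by norm_num) sb3_1 sb3_2 LQ3_1_sv LQ3_1_nm LQ3_1_cov F hS (by omega) (by omega) (by omega)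
  by_cases h2' : y < 72
  · exact chunk_soundO hP (by norm_num) sb3_1 sb3_2 LQ3_2_sv LQ3_2_nm LQ3_2_cov F hS (by omega) (by omega) (by omega)
  exact chunk_soundO hP (by norm_num) sb3_1 sb3_2 LQ3_3_sv LQ3_3_nm LQ3_3_cov F hS (by omega) (by omega) (by omega)

end Pool.Agent.H449
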